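import Mathlib

/-!
# Riemann domains over `ℂⁿ`: smooth functions, Wirtinger derivatives, Levi form

`M` is a topological space with a local homeomorphism `π : M → ℂⁿ` (`ℂⁿ = Fin n → ℂ`). All notions
are pulled back from `ℂⁿ` by the local inverses `hπ.localInverseAt w` of `π`.
-/

set_option autoImplicit false

open Set Filter Topology MeasureTheory
open scoped ContDiff ComplexConjugate

namespace Pool.Agent.Levi

section

variable {n : ℕ} {M : Type} [TopologicalSpace M] {π : M → (Fin n → ℂ)}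

/-- `u` is smooth with respect to the local homeomorphism `π`. -/
def RSmooth (hπ : IsLocalHomeomorph π) {F : Type} [NormedAddCommGroup F] [NormedSpace ℝ F]
    (u : M → F) : Prop :=
  ∀ w, ContDiffAt ℝ ∞ (u ∘ hπ.localInverseAt w) (π w)

/-- `u` is holomorphic with respect to the local homeomorphism `π`. -/
def RHolo (hπ : IsLocalHomeomorph π) (u : M → ℂ) : Prop :=
  ∀ w, DifferentiableAt ℂ (u ∘ hπ.localInverseAt w) (π w)

/-- derivative of `u` at `w` in the real direction `v`. -/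
noncomputable def rderiv (hπ : IsLocalHomeomorph π) {F : Type} [NormedAddCommGroup F]
    [NormedSpace ℝ F] (u : M → F) (v : Fin n → ℂ) (w : M) : F :=
  fderiv ℝ (u ∘ hπ.localInverseAt w) (π w) v

/-- `∂u/∂z_j` -/
noncomputable def dz (hπ : IsLocalHomeomorph π) (u : M → ℂ) (j : Fin n) (w : M) : ℂ :=
  (1 / 2) * (rderiv hπ u (Pi.single j 1) w - Complex.I * rderiv hπ u (Pi.single j Complex.I) w)

/-- `∂u/∂z̄_j` -/
noncomputable def dzb (hπ : IsLocalHomeomorph π) (u : M → ℂ) (j : Fin n) (w : M) : ℂ :=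
  (1 / 2) * (rderiv hπ u (Pi.single j 1) w + Complex.I * rderiv hπ u (Pi.single j Complex.I) w)

/-- The Levi form `∑ ∂²φ/∂z_j∂z̄_k ξ_j ξ̄_k` of the real function `φ` at `w`. -/
noncomputable def levi (hπ : IsLocalHomeomorph π) (φ : M → ℝ) (w : M) (ξ : Fin n → ℂ) : ℝ :=
  (∑ j, ∑ k, dz hπ (fun x => dzb hπ (fun y => (φ y : ℂ)) k x) j w * ξ j * conj (ξ k)).re

/-- `α` is a test function: smooth with compact support. -/
structure IsTest (hπ : IsLocalHomeomorph π) (α : M → ℂ) : Prop where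
  smooth : RSmooth hπ α
  compact : HasCompactSupport α

/-- `μ` is the measure on `M` that is locally the Lebesgue measure of `ℂⁿ`. -/
structure IsFlatMeasure [MeasurableSpace M] (π : M → (Fin n → ℂ)) (μ : Measure M) : Prop where
  apply_eq : ∀ U : Set M, IsOpen U → InjOn π U → ∀ A ⊆ U, MeasurableSet A →
    μ A = volume (π '' A)

/-- The completeness condition needed for Hörmander's method: for every compact set `K` there are
smooth functions `Ψ, θ`, both zero near `K`, and compactly supported cut-off functions `η ν`, tending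
to `1`, with `|∂̄η_ν|² ≤ e^Ψ` and `2 |∑ ξ_j ∂Ψ/∂z_j|² ≤ levi θ ξ`. -/
def HCond (hπ : IsLocalHomeomorph π) : Prop :=
  ∀ K : Set M, IsCompact K → ∃ (Ψ θ : M → ℝ) (η : ℕ → M → ℝ),
    RSmooth hπ Ψ ∧ RSmooth hπ θ ∧ (∀ ν, RSmooth hπ (η ν)) ∧
    (∀ᶠ x in 𝓝ˢ K, Ψ x = 0 ∧ θ x = 0) ∧
    (∀ ν, HasCompactSupport (η ν)) ∧ (∀ ν x, 0 ≤ η ν x ∧ η ν x ≤ 1) ∧
    (∀ L : Set M, IsCompact L → ∀ᶠ ν in atTop, ∀ᶠ x in 𝓝ˢ L, η ν x = 1) ∧
    (∀ ν x, ∑ j, ‖dzb hπ (fun y => (η ν y : ℂ)) j x‖ ^ 2 ≤ Real.exp (Ψ x)) ∧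
    (∀ x ξ, 2 * ‖∑ j, ξ j * dz hπ (fun y => (Ψ y : ℂ)) j x‖ ^ 2 ≤ levi hπ θ x ξ)

end

section Euclid

/-- `∂u/∂z_j` in `ℂⁿ` -/
noncomputable def dzE {n : ℕ} (u : (Fin n → ℂ) → ℂ) (j : Fin n) (z : Fin n → ℂ) : ℂ :=
  (1 / 2) * (fderiv ℝ u z (Pi.single j 1) - Complex.I * fderiv ℝ u z (Pi.single j Complex.I))

/-- `∂u/∂z̄_j` in `ℂⁿ` -/
noncomputable def dzbE {n : ℕ} (u : (Fin n → ℂ) → ℂ) (j : Fin n) (z : Fin n → ℂ) : ℂ :=
  (1 / 2) * (fderiv ℝ u z (Pi.single j 1) + Complex.I * fderiv ℝ u z (Pi.single j Complex.I))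

/-- The Levi form in `ℂⁿ`. -/
noncomputable def leviE {n : ℕ} (u : (Fin n → ℂ) → ℝ) (z ξ : Fin n → ℂ) : ℝ :=
  (∑ j, ∑ k, dzE (fun x => dzbE (fun y => (u y : ℂ)) k x) j z * ξ j * conj (ξ k)).re

end Euclid

end Pool.Agent.Levi
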