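import Pool.Agent.Levi.Basic

/-!
# Calculus on a Riemann domain

Transport of derivatives by the local inverses of `π`, product rules, symmetry of second
derivatives, conjugation.
-/

set_option autoImplicit false

open Set Filter Topology MeasureTheory
open scoped ContDiff ComplexConjugate

namespace Pool.Agent.Levi

section

variable {n : ℕ} {M : Type} [TopologicalSpace M] {π : M → (Fin n → ℂ)}

/-! ### Local inverses -/

theorem inv_apply (hπ : IsLocalHomeomorph π) {x y : M} (hy : y ∈ (hπ.localInverseAt x).target) :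
    hπ.localInverseAt x (π y) = y := by
  have h := (hπ.localInverseAt x).right_inv hy
  rwa [hπ.localInverseAt_symm x] at h

theorem pi_mem (hπ : IsLocalHomeomorph π) {x y : M} (hy : y ∈ (hπ.localInverseAt x).target) :
    π y ∈ (hπ.localInverseAt x).source := by
  have h := (hπ.localInverseAt x).map_target hy
  rwa [hπ.localInverseAt_symm x] at h

/-- Two local inverses that agree at a point agree near that point. -/
theorem inv_eventuallyEq (hπ : IsLocalHomeomorph π) {x y : M}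
    (hy : y ∈ (hπ.localInverseAt x).target) :
    (hπ.localInverseAt y : (Fin n → ℂ) → M) =ᶠ[𝓝 (π y)] hπ.localInverseAt x := by
  have h1 : ∀ᶠ z in 𝓝 (π y), z ∈ (hπ.localInverseAt x).source :=
    (hπ.localInverseAt x).open_source.mem_nhds (pi_mem hπ hy)
  have hc : ContinuousAt (hπ.localInverseAt x) (π y) :=
    (hπ.localInverseAt x).continuousAt (pi_mem hπ hy)
  have h2 : ∀ᶠ z in 𝓝 (π y), hπ.localInverseAt x z ∈ (hπ.localInverseAt y).target := by
    apply hc
    rw [inv_apply hπ hy]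
    exact (hπ.localInverseAt y).open_target.mem_nhds hπ.self_mem_localInverseAt_target
  filter_upwards [h1, h2] with z hz1 hz2
  have := inv_apply hπ hz2
  rwa [hπ.apply_localInverseAt_of_mem hz1] at this

theorem comp_inv_eventuallyEq (hπ : IsLocalHomeomorph π) {F : Type*} (u : M → F) {x y : M}
    (hy : y ∈ (hπ.localInverseAt x).target) :
    u ∘ hπ.localInverseAt y =ᶠ[𝓝 (π y)] u ∘ hπ.localInverseAt x := by
  filter_upwards [inv_eventuallyEq hπ hy] with z hz
  simp [hz]

variable {F : Type} [NormedAddCommGroup F] [NormedSpace ℝ F]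

theorem rderiv_of_mem_target (hπ : IsLocalHomeomorph π) (u : M → F) (v : Fin n → ℂ) {x y : M}
    (hy : y ∈ (hπ.localInverseAt x).target) :
    rderiv hπ u v y = fderiv ℝ (u ∘ hπ.localInverseAt x) (π y) v := by
  unfold rderiv
  rw [(comp_inv_eventuallyEq hπ u hy).fderiv_eq]

theorem rderiv_inv_apply (hπ : IsLocalHomeomorph π) (u : M → F) (v : Fin n → ℂ) {x : M}
    {z : Fin n → ℂ} (hz : z ∈ (hπ.localInverseAt x).source) :
    rderiv hπ u v (hπ.localInverseAt x z) = fderiv ℝ (u ∘ hπ.localInverseAt x) z v := by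
  rw [rderiv_of_mem_target hπ u v ((hπ.localInverseAt x).map_source hz),
    hπ.apply_localInverseAt_of_mem hz]

/-- near `π w`, the derivative read in the chart at `w` is the derivative of the function read in
the chart. -/
theorem rderiv_comp_eventuallyEq (hπ : IsLocalHomeomorph π) (u : M → F) (v : Fin n → ℂ) (w : M) :
    rderiv hπ u v ∘ hπ.localInverseAt w =ᶠ[𝓝 (π w)]
      fun z => fderiv ℝ (u ∘ hπ.localInverseAt w) z v := by
  filter_upwards [(hπ.localInverseAt w).open_source.mem_nhds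
    hπ.apply_self_mem_localInverseAt_source] with z hz
  exact rderiv_inv_apply hπ u v hz

theorem RSmooth.contDiffAt {hπ : IsLocalHomeomorph π} {u : M → F} (hu : RSmooth hπ u) {x : M}
    {z : Fin n → ℂ} (hz : z ∈ (hπ.localInverseAt x).source) :
    ContDiffAt ℝ ∞ (u ∘ hπ.localInverseAt x) z := by
  have hy := (hπ.localInverseAt x).map_source hz
  have h1 := hu (hπ.localInverseAt x z)
  rw [hπ.apply_localInverseAt_of_mem hz] at h1
  have h2 := comp_inv_eventuallyEq hπ u hy
  rw [hπ.apply_localInverseAt_of_mem hz] at h2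
  exact h1.congr_of_eventuallyEq h2.symm

theorem RSmooth.contDiffOn {hπ : IsLocalHomeomorph π} {u : M → F} (hu : RSmooth hπ u) (x : M) :
    ContDiffOn ℝ ∞ (u ∘ hπ.localInverseAt x) (hπ.localInverseAt x).source :=
  fun _ hz => (hu.contDiffAt hz).contDiffWithinAt

/-- smoothness may be checked in any chart -/
theorem rsmooth_of_exists (hπ : IsLocalHomeomorph π) {u : M → F}
    (h : ∀ y, ∃ x, y ∈ (hπ.localInverseAt x).target ∧
      ContDiffAt ℝ ∞ (u ∘ hπ.localInverseAt x) (π y)) : RSmooth hπ u := by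
  intro y
  obtain ⟨x, hx, hd⟩ := h y
  exact hd.congr_of_eventuallyEq (comp_inv_eventuallyEq hπ u hx)

theorem contDiffAt_comp_of_eventuallyEq (hπ : IsLocalHomeomorph π) {u g : M → F} {w : M}
    (h : u =ᶠ[𝓝 w] g) (hg : ContDiffAt ℝ ∞ (g ∘ hπ.localInverseAt w) (π w)) :
    ContDiffAt ℝ ∞ (u ∘ hπ.localInverseAt w) (π w) := by
  refine hg.congr_of_eventuallyEq ?_
  have hc : ContinuousAt (hπ.localInverseAt w) (π w) :=
    (hπ.localInverseAt w).continuousAt hπ.apply_self_mem_localInverseAt_source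
  have : Tendsto (hπ.localInverseAt w) (𝓝 (π w)) (𝓝 w) := by
    have := hc.tendsto
    rwa [hπ.localInverseAt_apply_self] at this
  exact this.eventually h

/-- smoothness is local -/
theorem rsmooth_of_locally (hπ : IsLocalHomeomorph π) {u : M → F}
    (h : ∀ w, ∃ g : M → F, RSmooth hπ g ∧ u =ᶠ[𝓝 w] g) : RSmooth hπ u := by
  intro w
  obtain ⟨g, hg, hug⟩ := h w
  exact contDiffAt_comp_of_eventuallyEq hπ hug (hg w)

theorem rderiv_congr (hπ : IsLocalHomeomorph π) {u g : M → F} {w : M} (h : u =ᶠ[𝓝 w] g)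
    (v : Fin n → ℂ) : rderiv hπ u v w = rderiv hπ g v w := by
  unfold rderiv
  have hc : ContinuousAt (hπ.localInverseAt w) (π w) :=
    (hπ.localInverseAt w).continuousAt hπ.apply_self_mem_localInverseAt_source
  have : Tendsto (hπ.localInverseAt w) (𝓝 (π w)) (𝓝 w) := by
    have := hc.tendsto
    rwa [hπ.localInverseAt_apply_self] at this
  have h2 : u ∘ hπ.localInverseAt w =ᶠ[𝓝 (π w)] g ∘ hπ.localInverseAt w := this.eventually h
  rw [h2.fderiv_eq]

theorem rderiv_congr_nhds (hπ : IsLocalHomeomorph π) {u g : M → F} {w : M} (h : u =ᶠ[𝓝 w] g)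
    (v : Fin n → ℂ) : rderiv hπ u v =ᶠ[𝓝 w] rderiv hπ g v := by
  filter_upwards [h.eventually_nhds] with y hy
  exact rderiv_congr hπ hy v

theorem RSmooth.rderiv {hπ : IsLocalHomeomorph π} {u : M → F} (hu : RSmooth hπ u)
    (v : Fin n → ℂ) : RSmooth hπ (rderiv hπ u v) := by
  intro w
  refine ContDiffAt.congr_of_eventuallyEq ?_ (rderiv_comp_eventuallyEq hπ u v w)
  exact ((hu w).fderiv_right (m := ∞) (by norm_cast)).clm_apply contDiffAt_const

theorem RSmooth.differentiableAt {hπ : IsLocalHomeomorph π} {u : M → F} (hu : RSmooth hπ u)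
    (w : M) : DifferentiableAt ℝ (u ∘ hπ.localInverseAt w) (π w) :=
  (hu w).differentiableAt (by simp)

theorem RSmooth.continuous {hπ : IsLocalHomeomorph π} {u : M → F} (hu : RSmooth hπ u) :
    Continuous u := by
  rw [continuous_iff_continuousAt]
  intro w
  have h1 : ContinuousAt ((u ∘ hπ.localInverseAt w) ∘ π) w :=
    ContinuousAt.comp (hu w).continuousAt hπ.continuous.continuousAt
  refine h1.congr ?_
  filter_upwards [(hπ.localInverseAt w).open_target.mem_nhds
    hπ.self_mem_localInverseAt_target] with y hy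
  simp only [Function.comp]
  rw [inv_apply hπ hy]

/-! ### Closure properties of smooth functions -/

theorem rsmooth_const (hπ : IsLocalHomeomorph π) (c : F) : RSmooth hπ (fun _ => c) :=
  fun _ => contDiffAt_const

theorem RSmooth.add {hπ : IsLocalHomeomorph π} {u g : M → F} (hu : RSmooth hπ u)
    (hg : RSmooth hπ g) : RSmooth hπ (fun x => u x + g x) := fun w => (hu w).add (hg w)

theorem RSmooth.sub {hπ : IsLocalHomeomorph π} {u g : M → F} (hu : RSmooth hπ u)
    (hg : RSmooth hπ g) : RSmooth hπ (fun x => u x - g x) := fun w => (hu w).sub (hg w)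

theorem RSmooth.neg {hπ : IsLocalHomeomorph π} {u : M → F} (hu : RSmooth hπ u) :
    RSmooth hπ (fun x => -u x) := fun w => (hu w).neg

theorem RSmooth.sum {hπ : IsLocalHomeomorph π} {ι : Type*} {s : Finset ι} {u : ι → M → F}
    (hu : ∀ i ∈ s, RSmooth hπ (u i)) : RSmooth hπ (fun x => ∑ i ∈ s, u i x) := by
  intro w
  have : ContDiffAt ℝ ∞ (fun z => ∑ i ∈ s, (u i ∘ hπ.localInverseAt w) z) (π w) :=
    ContDiffAt.sum fun i hi => hu i hi w
  exact this

theorem RSmooth.mul {A : Type} [NormedRing A] [NormedAlgebra ℝ A] {hπ : IsLocalHomeomorph π}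
    {u g : M → A} (hu : RSmooth hπ u) (hg : RSmooth hπ g) : RSmooth hπ (fun x => u x * g x) :=
  fun w => (hu w).mul (hg w)

theorem RSmooth.comp {G : Type} [NormedAddCommGroup G] [NormedSpace ℝ G]
    {hπ : IsLocalHomeomorph π} {u : M → F} (hu : RSmooth hπ u) {f : F → G}
    (hf : ContDiff ℝ ∞ f) : RSmooth hπ (fun x => f (u x)) := by
  intro w
  have : ContDiffAt ℝ ∞ (f ∘ (u ∘ hπ.localInverseAt w)) (π w) :=
    ContDiffAt.comp (π w) hf.contDiffAt (hu w)
  exact this

theorem RSmooth.conj {hπ : IsLocalHomeomorph π} {u : M → ℂ} (hu : RSmooth hπ u) :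
    RSmooth hπ (fun x => conj (u x)) :=
  hu.comp (f := fun z : ℂ => conj z) Complex.conjCLE.contDiff

theorem RSmooth.ofReal {hπ : IsLocalHomeomorph π} {u : M → ℝ} (hu : RSmooth hπ u) :
    RSmooth hπ (fun x => (u x : ℂ)) :=
  hu.comp (f := fun z : ℝ => (z : ℂ)) Complex.ofRealCLM.contDiff

theorem RSmooth.dz {hπ : IsLocalHomeomorph π} {u : M → ℂ} (hu : RSmooth hπ u) (j : Fin n) :
    RSmooth hπ (dz hπ u j) :=
  (rsmooth_const hπ _).mul ((hu.rderiv _).sub ((rsmooth_const hπ _).mul (hu.rderiv _)))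

theorem RSmooth.dzb {hπ : IsLocalHomeomorph π} {u : M → ℂ} (hu : RSmooth hπ u) (j : Fin n) :
    RSmooth hπ (dzb hπ u j) :=
  (rsmooth_const hπ _).mul ((hu.rderiv _).add ((rsmooth_const hπ _).mul (hu.rderiv _)))

/-! ### Rules for `rderiv` -/

theorem rderiv_add {hπ : IsLocalHomeomorph π} {u g : M → F} (hu : RSmooth hπ u)
    (hg : RSmooth hπ g) (v : Fin n → ℂ) (w : M) :
    rderiv hπ (fun x => u x + g x) v w = rderiv hπ u v w + rderiv hπ g v w := by
  unfold rderiv
  have : (fun x => u x + g x) ∘ hπ.localInverseAt w =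
      (u ∘ hπ.localInverseAt w) + (g ∘ hπ.localInverseAt w) := rfl
  rw [this, fderiv_add (hu.differentiableAt w) (hg.differentiableAt w)]
  rfl

theorem rderiv_sub {hπ : IsLocalHomeomorph π} {u g : M → F} (hu : RSmooth hπ u)
    (hg : RSmooth hπ g) (v : Fin n → ℂ) (w : M) :
    rderiv hπ (fun x => u x - g x) v w = rderiv hπ u v w - rderiv hπ g v w := by
  unfold rderiv
  have : (fun x => u x - g x) ∘ hπ.localInverseAt w =
      (u ∘ hπ.localInverseAt w) - (g ∘ hπ.localInverseAt w) := rfl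
  rw [this, fderiv_sub (hu.differentiableAt w) (hg.differentiableAt w)]
  rfl

theorem rderiv_neg {hπ : IsLocalHomeomorph π} (u : M → F) (v : Fin n → ℂ) (w : M) :
    rderiv hπ (fun x => -u x) v w = -rderiv hπ u v w := by
  unfold rderiv
  have : (fun x => -u x) ∘ hπ.localInverseAt w = -(u ∘ hπ.localInverseAt w) := rfl
  rw [this, fderiv_neg]
  rfl

theorem rderiv_const {hπ : IsLocalHomeomorph π} (c : F) (v : Fin n → ℂ) (w : M) :
    rderiv hπ (fun _ => c) v w = 0 := by
  unfold rderiv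
  have : (fun _ : M => c) ∘ hπ.localInverseAt w = fun _ => c := rfl
  rw [this]
  simp

theorem rderiv_sum {hπ : IsLocalHomeomorph π} {ι : Type*} {s : Finset ι} {u : ι → M → F}
    (hu : ∀ i ∈ s, RSmooth hπ (u i)) (v : Fin n → ℂ) (w : M) :
    rderiv hπ (fun x => ∑ i ∈ s, u i x) v w = ∑ i ∈ s, rderiv hπ (u i) v w := by
  unfold rderiv
  have h1 : (fun x => ∑ i ∈ s, u i x) ∘ hπ.localInverseAt w =
      fun z => ∑ i ∈ s, (u i ∘ hπ.localInverseAt w) z := rfl
  rw [h1, fderiv_fun_sum (fun i hi => (hu i hi).differentiableAt w)]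
  simp

theorem rderiv_mul {A : Type} [NormedCommRing A] [NormedAlgebra ℝ A] {hπ : IsLocalHomeomorph π}
    {u g : M → A} (hu : RSmooth hπ u) (hg : RSmooth hπ g) (v : Fin n → ℂ) (w : M) :
    rderiv hπ (fun x => u x * g x) v w = u w * rderiv hπ g v w + g w * rderiv hπ u v w := by
  unfold rderiv
  have h1 : (fun x => u x * g x) ∘ hπ.localInverseAt w =
      fun z => (u ∘ hπ.localInverseAt w) z * (g ∘ hπ.localInverseAt w) z := rfl
  rw [h1, fderiv_fun_mul (hu.differentiableAt w) (hg.differentiableAt w)]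
  simp

theorem rderiv_clm {G : Type} [NormedAddCommGroup G] [NormedSpace ℝ G]
    {hπ : IsLocalHomeomorph π} {u : M → F} (hu : RSmooth hπ u) (L : F →L[ℝ] G) (v : Fin n → ℂ)
    (w : M) : rderiv hπ (fun x => L (u x)) v w = L (rderiv hπ u v w) := by
  unfold rderiv
  have h1 : (fun x => L (u x)) ∘ hπ.localInverseAt w = L ∘ (u ∘ hπ.localInverseAt w) := rfl
  rw [h1, (L.hasFDerivAt.comp (π w) (hu.differentiableAt w).hasFDerivAt).fderiv]
  rfl

theorem rderiv_conj {hπ : IsLocalHomeomorph π} {u : M → ℂ} (hu : RSmooth hπ u) (v : Fin n → ℂ)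
    (w : M) : rderiv hπ (fun x => conj (u x)) v w = conj (rderiv hπ u v w) :=
  rderiv_clm hu (Complex.conjCLE : ℂ →L[ℝ] ℂ) v w

theorem rderiv_ofReal {hπ : IsLocalHomeomorph π} {u : M → ℝ} (hu : RSmooth hπ u) (v : Fin n → ℂ)
    (w : M) : rderiv hπ (fun x => (u x : ℂ)) v w = ((rderiv hπ u v w : ℝ) : ℂ) :=
  rderiv_clm hu Complex.ofRealCLM v w

/-- chain rule for the composition with a function of one real variable -/
theorem rderiv_comp_real {hπ : IsLocalHomeomorph π} {u : M → ℝ} (hu : RSmooth hπ u) {f : ℝ → F}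
    {w : M} (hf : DifferentiableAt ℝ f (u w)) (v : Fin n → ℂ) :
    rderiv hπ (fun x => f (u x)) v w = rderiv hπ u v w • deriv f (u w) := by
  unfold rderiv
  have h1 : (fun x => f (u x)) ∘ hπ.localInverseAt w = f ∘ (u ∘ hπ.localInverseAt w) := rfl
  have h2 : (u ∘ hπ.localInverseAt w) (π w) = u w := by simp
  have h3 : HasFDerivAt f (fderiv ℝ f (u w)) ((u ∘ hπ.localInverseAt w) (π w)) := by
    rw [h2]; exact hf.hasFDerivAt
  rw [h1, (h3.comp (π w) (hu.differentiableAt w).hasFDerivAt).fderiv]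
  rw [ContinuousLinearMap.comp_apply, ← fderiv_apply_one_eq_deriv]
  conv_lhs => rw [← mul_one ((fderiv ℝ (u ∘ ↑(hπ.localInverseAt w)) (π w)) v), ← smul_eq_mul]
  rw [map_smul]

/-- symmetry of second derivatives -/
theorem rderiv_rderiv_comm {hπ : IsLocalHomeomorph π} {u : M → F} (hu : RSmooth hπ u)
    (v v' : Fin n → ℂ) (w : M) :
    rderiv hπ (rderiv hπ u v) v' w = rderiv hπ (rderiv hπ u v') v w := by
  have key : ∀ a b : Fin n → ℂ, rderiv hπ (rderiv hπ u a) b w =
      fderiv ℝ (fderiv ℝ (u ∘ hπ.localInverseAt w)) (π w) b a := by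
    intro a b
    have h1 : rderiv hπ (rderiv hπ u a) b w =
        fderiv ℝ (fun z => fderiv ℝ (u ∘ hπ.localInverseAt w) z a) (π w) b := by
      conv_lhs => unfold rderiv
      rw [← (rderiv_comp_eventuallyEq hπ u a w).fderiv_eq]
      rfl
    have hd : DifferentiableAt ℝ (fderiv ℝ (u ∘ hπ.localInverseAt w)) (π w) :=
      ((hu w).fderiv_right (m := 1) (by norm_cast)).differentiableAt (by norm_num)
    rw [h1, fderiv_clm_apply hd (differentiableAt_const a)]
    simp
  rw [key, key]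
  have hs : IsSymmSndFDerivAt ℝ (u ∘ hπ.localInverseAt w) (π w) :=
    (hu w).isSymmSndFDerivAt (by simpa using (by norm_cast : (2 : WithTop ℕ∞) ≤ ∞))
  exact hs v' v

/-! ### Rules for `dz`, `dzb` -/

section rules

theorem conj_two : (starRingEnd ℂ) 2 = 2 := Complex.conj_ofNat 2

variable {hπ : IsLocalHomeomorph π} {u g : M → ℂ}

theorem dz_add (hu : RSmooth hπ u) (hg : RSmooth hπ g) (j : Fin n) (w : M) :
    dz hπ (fun x => u x + g x) j w = dz hπ u j w + dz hπ g j w := by
  unfold dz; rw [rderiv_add hu hg, rderiv_add hu hg]; ring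

theorem dzb_add (hu : RSmooth hπ u) (hg : RSmooth hπ g) (j : Fin n) (w : M) :
    dzb hπ (fun x => u x + g x) j w = dzb hπ u j w + dzb hπ g j w := by
  unfold dzb; rw [rderiv_add hu hg, rderiv_add hu hg]; ring

theorem dz_sub (hu : RSmooth hπ u) (hg : RSmooth hπ g) (j : Fin n) (w : M) :
    dz hπ (fun x => u x - g x) j w = dz hπ u j w - dz hπ g j w := by
  unfold dz; rw [rderiv_sub hu hg, rderiv_sub hu hg]; ring

theorem dzb_sub (hu : RSmooth hπ u) (hg : RSmooth hπ g) (j : Fin n) (w : M) :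
    dzb hπ (fun x => u x - g x) j w = dzb hπ u j w - dzb hπ g j w := by
  unfold dzb; rw [rderiv_sub hu hg, rderiv_sub hu hg]; ring

theorem dz_neg (u : M → ℂ) (j : Fin n) (w : M) :
    dz hπ (fun x => -u x) j w = -dz hπ u j w := by
  unfold dz; rw [rderiv_neg, rderiv_neg]; ring

theorem dzb_neg (u : M → ℂ) (j : Fin n) (w : M) :
    dzb hπ (fun x => -u x) j w = -dzb hπ u j w := by
  unfold dzb; rw [rderiv_neg, rderiv_neg]; ring

theorem dz_mul (hu : RSmooth hπ u) (hg : RSmooth hπ g) (j : Fin n) (w : M) :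
    dz hπ (fun x => u x * g x) j w = u w * dz hπ g j w + g w * dz hπ u j w := by
  unfold dz; rw [rderiv_mul hu hg, rderiv_mul hu hg]; ring

theorem dzb_mul (hu : RSmooth hπ u) (hg : RSmooth hπ g) (j : Fin n) (w : M) :
    dzb hπ (fun x => u x * g x) j w = u w * dzb hπ g j w + g w * dzb hπ u j w := by
  unfold dzb; rw [rderiv_mul hu hg, rderiv_mul hu hg]; ring

theorem dz_const (c : ℂ) (j : Fin n) (w : M) : dz hπ (fun _ => c) j w = 0 := by
  unfold dz; rw [rderiv_const, rderiv_const]; ring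

theorem dzb_const (c : ℂ) (j : Fin n) (w : M) : dzb hπ (fun _ => c) j w = 0 := by
  unfold dzb; rw [rderiv_const, rderiv_const]; ring

theorem dz_sum {ι : Type*} {s : Finset ι} {u : ι → M → ℂ} (hu : ∀ i ∈ s, RSmooth hπ (u i))
    (j : Fin n) (w : M) : dz hπ (fun x => ∑ i ∈ s, u i x) j w = ∑ i ∈ s, dz hπ (u i) j w := by
  unfold dz
  rw [rderiv_sum hu, rderiv_sum hu, Finset.mul_sum, ← Finset.sum_sub_distrib, Finset.mul_sum]

theorem dzb_sum {ι : Type*} {s : Finset ι} {u : ι → M → ℂ} (hu : ∀ i ∈ s, RSmooth hπ (u i))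
    (j : Fin n) (w : M) : dzb hπ (fun x => ∑ i ∈ s, u i x) j w = ∑ i ∈ s, dzb hπ (u i) j w := by
  unfold dzb
  rw [rderiv_sum hu, rderiv_sum hu, Finset.mul_sum, ← Finset.sum_add_distrib, Finset.mul_sum]

theorem dz_conj (hu : RSmooth hπ u) (j : Fin n) (w : M) :
    dz hπ (fun x => conj (u x)) j w = conj (dzb hπ u j w) := by
  unfold dz dzb; rw [rderiv_conj hu, rderiv_conj hu]
  simp [sub_eq_add_neg, conj_two]

theorem dzb_conj (hu : RSmooth hπ u) (j : Fin n) (w : M) :
    dzb hπ (fun x => conj (u x)) j w = conj (dz hπ u j w) := by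
  unfold dz dzb; rw [rderiv_conj hu, rderiv_conj hu]
  simp [conj_two]

theorem conj_dz_ofReal {φ : M → ℝ} (hφ : RSmooth hπ φ) (j : Fin n) (w : M) :
    conj (dz hπ (fun y => (φ y : ℂ)) j w) = dzb hπ (fun y => (φ y : ℂ)) j w := by
  unfold dz dzb; rw [rderiv_ofReal hφ, rderiv_ofReal hφ]
  simp [conj_two]

theorem dz_comp_real {φ : M → ℝ} (hφ : RSmooth hπ φ) {f : ℝ → ℂ} {w : M}
    (hf : DifferentiableAt ℝ f (φ w)) (j : Fin n) :
    dz hπ (fun y => f (φ y)) j w = deriv f (φ w) * dz hπ (fun y => (φ y : ℂ)) j w := by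
  unfold dz
  rw [rderiv_comp_real hφ hf, rderiv_comp_real hφ hf, rderiv_ofReal hφ, rderiv_ofReal hφ]
  simp only [Complex.real_smul]
  ring

theorem dzb_comp_real {φ : M → ℝ} (hφ : RSmooth hπ φ) {f : ℝ → ℂ} {w : M}
    (hf : DifferentiableAt ℝ f (φ w)) (j : Fin n) :
    dzb hπ (fun y => f (φ y)) j w = deriv f (φ w) * dzb hπ (fun y => (φ y : ℂ)) j w := by
  unfold dzb
  rw [rderiv_comp_real hφ hf, rderiv_comp_real hφ hf, rderiv_ofReal hφ, rderiv_ofReal hφ]
  simp only [Complex.real_smul]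
  ring

theorem hasDerivAt_exp_neg (t : ℝ) :
    HasDerivAt (fun t : ℝ => ((Real.exp (-t) : ℝ) : ℂ)) (-((Real.exp (-t) : ℝ) : ℂ)) t := by
  have h := (((hasDerivAt_id t).neg).exp).ofReal_comp
  simpa using h

theorem dz_exp_neg {φ : M → ℝ} (hφ : RSmooth hπ φ) (j : Fin n) (w : M) :
    dz hπ (fun y => ((Real.exp (-φ y) : ℝ) : ℂ)) j w =
      -((Real.exp (-φ w) : ℝ) : ℂ) * dz hπ (fun y => (φ y : ℂ)) j w := by
  rw [dz_comp_real hφ (f := fun t : ℝ => ((Real.exp (-t) : ℝ) : ℂ))
    (hasDerivAt_exp_neg _).differentiableAt, (hasDerivAt_exp_neg _).deriv]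

theorem dzb_exp_neg {φ : M → ℝ} (hφ : RSmooth hπ φ) (j : Fin n) (w : M) :
    dzb hπ (fun y => ((Real.exp (-φ y) : ℝ) : ℂ)) j w =
      -((Real.exp (-φ w) : ℝ) : ℂ) * dzb hπ (fun y => (φ y : ℂ)) j w := by
  rw [dzb_comp_real hφ (f := fun t : ℝ => ((Real.exp (-t) : ℝ) : ℂ))
    (hasDerivAt_exp_neg _).differentiableAt, (hasDerivAt_exp_neg _).deriv]

theorem RSmooth.exp_neg {φ : M → ℝ} (hφ : RSmooth hπ φ) :
    RSmooth hπ (fun y => ((Real.exp (-φ y) : ℝ) : ℂ)) := by
  refine RSmooth.ofReal (hφ.comp (f := fun t : ℝ => Real.exp (-t)) ?_)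
  exact Real.contDiff_exp.comp contDiff_neg

theorem dz_dzb_comm (hu : RSmooth hπ u) (j k : Fin n) (w : M) :
    dz hπ (dzb hπ u k) j w = dzb hπ (dz hπ u j) k w := by
  have e1 : ∀ a : Fin n → ℂ, rderiv hπ (dzb hπ u k) a w =
      (1 / 2) * (rderiv hπ (rderiv hπ u (Pi.single k 1)) a w +
        Complex.I * rderiv hπ (rderiv hπ u (Pi.single k Complex.I)) a w) := by
    intro a
    have s1 := hu.rderiv (Pi.single k 1)
    have s2 := (rsmooth_const hπ Complex.I).mul (hu.rderiv (Pi.single k Complex.I))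
    have : dzb hπ u k = fun x => (1 / 2 : ℂ) * (rderiv hπ u (Pi.single k 1) x +
        Complex.I * rderiv hπ u (Pi.single k Complex.I) x) := rfl
    rw [this, rderiv_mul (rsmooth_const hπ _) (s1.add s2), rderiv_add s1 s2,
      rderiv_mul (rsmooth_const hπ _) (hu.rderiv _), rderiv_const, rderiv_const]
    ring
  have e2 : ∀ a : Fin n → ℂ, rderiv hπ (dz hπ u j) a w =
      (1 / 2) * (rderiv hπ (rderiv hπ u (Pi.single j 1)) a w -
        Complex.I * rderiv hπ (rderiv hπ u (Pi.single j Complex.I)) a w) := by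
    intro a
    have s1 := hu.rderiv (Pi.single j 1)
    have s2 := (rsmooth_const hπ Complex.I).mul (hu.rderiv (Pi.single j Complex.I))
    have : dz hπ u j = fun x => (1 / 2 : ℂ) * (rderiv hπ u (Pi.single j 1) x -
        Complex.I * rderiv hπ u (Pi.single j Complex.I) x) := rfl
    rw [this, rderiv_mul (rsmooth_const hπ _) (s1.sub s2), rderiv_sub s1 s2,
      rderiv_mul (rsmooth_const hπ _) (hu.rderiv _), rderiv_const, rderiv_const]
    ring
  conv_lhs => unfold dz
  conv_rhs => unfold dzb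
  rw [e1, e1, e2, e2]
  rw [rderiv_rderiv_comm hu (Pi.single k 1) (Pi.single j 1),
    rderiv_rderiv_comm hu (Pi.single k Complex.I) (Pi.single j 1),
    rderiv_rderiv_comm hu (Pi.single k 1) (Pi.single j Complex.I),
    rderiv_rderiv_comm hu (Pi.single k Complex.I) (Pi.single j Complex.I)]
  ring

end rules

end

end Pool.Agent.Levi
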