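import Pool.Agent.Levi.Weight2

/-!
# Plurisubharmonic exhaustion of the set of coordinate points
-/

set_option autoImplicit false
set_option linter.unusedSectionVars false

open Set Filter Topology
open scoped ContDiff Manifold

namespace Pool.Agent.Levi

open Pool.Agent.MEP

section Manifold

variable {n : ℕ} {S : Type} [TopologicalSpace S] [T2Space S] [SecondCountableTopology S]
  [ChartedSpace (Fin n → ℂ) S] [IsManifold 𝓘(ℂ, Fin n → ℂ) ω S]
  {W : Type} [TopologicalSpace W] [T2Space W] [SecondCountableTopology W]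
  {q : W → S} {ρ : W → ℝ} {G : S → (Fin n → ℂ)}

theorem continuousAt_of_chart {τ : S → ℝ} {p : S}
    (hτ : ContDiffAt ℝ ∞ (τ ∘ (chartAt (Fin n → ℂ) p).symm) (chartAt (Fin n → ℂ) p p)) :
    ContinuousAt τ p := by
  have hps : p ∈ (chartAt (Fin n → ℂ) p).source := mem_chart_source _ p
  have h1 : ContinuousAt ((τ ∘ (chartAt (Fin n → ℂ) p).symm) ∘ chartAt (Fin n → ℂ) p) p :=
    ContinuousAt.comp hτ.continuousAt ((chartAt (Fin n → ℂ) p).continuousAt hps)
  refine h1.congr ?_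
  filter_upwards [(chartAt (Fin n → ℂ) p).open_source.mem_nhds hps] with x hx
  simp only [Function.comp_apply]
  rw [(chartAt (Fin n → ℂ) p).left_inv hx]

theorem continuousAt_jac (hG : MDifferentiable 𝓘(ℂ, Fin n → ℂ) 𝓘(ℂ, Fin n → ℂ) G) (p : S) :
    ContinuousAt (jac G p) p := by
  have hps : p ∈ (chartAt (Fin n → ℂ) p).source := mem_chart_source _ p
  have h1 : ContinuousAt (JJ G p) (chartAt (Fin n → ℂ) p p) :=
    (JJ_differentiableOn hG p).continuousOn.continuousAt
      ((chartAt (Fin n → ℂ) p).open_target.mem_nhds ((chartAt (Fin n → ℂ) p).map_source hps))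
  exact ContinuousAt.comp (f := chartAt (Fin n → ℂ) p) (g := JJ G p) h1
    ((chartAt (Fin n → ℂ) p).continuousAt hps)

theorem exists_exhaustion_coord (hS : IsStein n S) (hq : IsTame n q ρ)
    (hG : MDifferentiable 𝓘(ℂ, Fin n → ℂ) 𝓘(ℂ, Fin n → ℂ) G) :
    ∃ ψ₀ : S → ℝ,
      (∀ p, IsCoordinateAt G p →
        ContDiffAt ℝ ∞ (ψ₀ ∘ (chartAt (Fin n → ℂ) p).symm) (chartAt (Fin n → ℂ) p p)) ∧
      (∀ c : ℝ, IsCompact {x | IsCoordinateAt G x ∧ ψ₀ x ≤ c}) ∧
      RSmooth (isLocalHomeomorph_piM hG hq.localHomeo) (fun w : MM G q => ψ₀ (q w)) ∧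
      ∀ (w : MM G q) (ξ : Fin n → ℂ), 0 ≤
        levi (isLocalHomeomorph_piM hG hq.localHomeo) (fun w : MM G q => ψ₀ (q w)) w ξ := by
  obtain ⟨ψ, hψs, hψc, hψp⟩ := exists_psh_exhaustion hS
  obtain ⟨lam, hlam⟩ := exists_log_metric hG
  -- upper bound for `lam`
  obtain ⟨h₂, hmono, -, hh₂⟩ := exists_monotone_majorant (Z := univ) (ψ := ψ)
    (P := fun x C => IsCoordinateAt G x → lam x ≤ C)
    (by simpa using hψc) (fun x C C'' hC h hx => (h hx).trans hC)
    (by
      intro p _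
      obtain ⟨τ, hτs, hτ⟩ := hlam p
      have h1 := (continuousAt_of_chart hτs).eventually (gt_mem_nhds (lt_add_one (τ p)))
      have h2 := (continuousAt_jac hG p).norm.eventually (gt_mem_nhds (lt_add_one ‖jac G p p‖))
      refine ⟨{x | (IsCoordinateAt G x → lam x = Real.log (‖jac G p x‖ ^ 2) + τ x) ∧
        τ x < τ p + 1 ∧ ‖jac G p x‖ < ‖jac G p p‖ + 1}, ?_,
        (‖jac G p p‖ + 1) ^ 2 + (τ p + 1), ?_⟩
      · filter_upwards [hτ, h1, h2] with x a b c using ⟨a, b, c⟩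
      · rintro x ⟨a, b, c⟩ - hx
        rw [a hx]
        have h3 : Real.log (‖jac G p x‖ ^ 2) ≤ ‖jac G p x‖ ^ 2 :=
          Real.log_le_self (by positivity)
        have h4 : ‖jac G p x‖ ^ 2 ≤ (‖jac G p p‖ + 1) ^ 2 := by gcongr
        linarith)
  obtain ⟨X, hX, hXh, hs, hlevi⟩ := core_weight hq hG hψs hψc hψp hlam (-1) 0
    (fun t => h₂ t + t) (fun s t hst => add_le_add (hmono hst) hst)
  have e : (fun w : MM G q => (-1) * lam (q w) + (-(2 * 0)) * ρ w + X (ψ (q w))) =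
      fun w : MM G q => (fun x => -lam x + X (ψ x)) (q w) := by
    funext w
    ring
  rw [e] at hs hlevi
  have hsm : ∀ p, IsCoordinateAt G p →
      ContDiffAt ℝ ∞ ((fun x => -lam x + X (ψ x)) ∘ (chartAt (Fin n → ℂ) p).symm)
        (chartAt (Fin n → ℂ) p p) := by
    intro p hp
    obtain ⟨τ, hτs, hτ⟩ := hlam p
    exact (contDiffAt_lam (a := 1) hG hτs (by simpa using hτ) hp).neg.add
      (hX.contDiffAt.comp _ (contDiffAt_of_contMDiff hψs p))
  refine ⟨fun x => -lam x + X (ψ x), hsm, ?_, hs, fun w ξ =>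
    (Finset.sum_nonneg fun j _ => by positivity).trans (hlevi w ξ)⟩
  intro c
  have hsub : {x | IsCoordinateAt G x ∧ -lam x + X (ψ x) ≤ c} ⊆ {p | ψ p ≤ c} := by
    rintro x ⟨hx, hxc⟩
    have h1 := hh₂ x (mem_univ _) hx
    have h2 := hXh x
    show ψ x ≤ c
    linarith
  refine (hψc c).of_isClosed_subset ?_ hsub
  rw [← isOpen_compl_iff, isOpen_iff_mem_nhds]
  intro p hp
  by_cases hpc : IsCoordinateAt G p
  · have h1 : c < -lam p + X (ψ p) := by
      by_contra h
      exact hp ⟨hpc, not_lt.mp h⟩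
    have h2 : ContinuousAt (fun x => -lam x + X (ψ x)) p := continuousAt_of_chart (hsm p hpc)
    filter_upwards [h2.eventually (lt_mem_nhds h1)] with x hx
    rintro ⟨-, h3⟩
    exact absurd h3 (not_le.mpr hx)
  · obtain ⟨τ, hτs, hτ⟩ := hlam p
    have hj : jac G p p = 0 := by
      by_contra h
      exact hpc ((isCoordinateAt_iff_jac hG (mem_chart_source _ p)).mpr h)
    have hcont : ContinuousAt (fun x => -τ x + X (ψ x)) p :=
      (continuousAt_of_chart hτs).neg.add
        ((hX.continuous.comp hψs.continuous).continuousAt)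
    have h1 := hcont.eventually (lt_mem_nhds (sub_one_lt (-τ p + X (ψ p))))
    have h2 : ∀ᶠ x in 𝓝 p, ‖jac G p x‖ ^ 2 < Real.exp (-(c - (-τ p + X (ψ p) - 1))) := by
      have h3 : ContinuousAt (fun x => ‖jac G p x‖ ^ 2) p := (continuousAt_jac hG p).norm.pow 2
      refine h3.eventually (gt_mem_nhds ?_)
      show ‖jac G p p‖ ^ 2 < _
      rw [hj, norm_zero]
      simp only [ne_eq, OfNat.ofNat_ne_zero, not_false_eq_true, zero_pow]
      exact Real.exp_pos _
    have hns : ∀ᶠ x in 𝓝 p, x ∈ (chartAt (Fin n → ℂ) p).source :=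
      (chartAt (Fin n → ℂ) p).open_source.mem_nhds (mem_chart_source _ p)
    filter_upwards [hτ, h1, h2, hns] with x k1 k2 k3 k4
    rintro ⟨hx, hxc⟩
    have k5 : jac G p x ≠ 0 := (isCoordinateAt_iff_jac hG k4).mp hx
    have k6 : 0 < ‖jac G p x‖ ^ 2 := by positivity
    have k7 : Real.log (‖jac G p x‖ ^ 2) < -(c - (-τ p + X (ψ p) - 1)) := by
      rw [Real.log_lt_iff_lt_exp k6]
      exact k3
    have k8 := k1 hx
    linarith

end Manifold

end Pool.Agent.Levi
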