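import Pool.Agent.Levi.Tame

/-!
# Coverings with discrete fibre given by locally constant cocycles are tame
-/

set_option autoImplicit false

open Set Filter Topology
open scoped ContDiff Manifold

namespace Pool.Agent.Levi

section Topological

variable {S : Type} [TopologicalSpace S] {G F : Type} [Group G] [MulAction G F]
  {ι : Type}

/-- the bundle with discrete fibre `F` and cocycle `c` -/
noncomputable def covCore [TopologicalSpace F] [DiscreteTopology F]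
    (U : ι → Set S) (hU : ∀ i, IsOpen (U i)) (hcov : ∀ x, ∃ i, x ∈ U i)
    (c : ι → ι → S → G)
    (hc : ∀ i j, ∀ x ∈ U i ∩ U j, ∀ᶠ y in 𝓝 x, c i j y = c i j x)
    (hcoc : ∀ i j k, ∀ x ∈ U i ∩ U j ∩ U k, c j k x * c i j x = c i k x) :
    FiberBundleCore ι S F where
  baseSet := U
  isOpen_baseSet := hU
  indexAt x := (hcov x).choose
  mem_baseSet_at x := (hcov x).choose_spec
  coordChange i j x v := c i j x • v
  coordChange_self i x hx v := by
    have h := hcoc i i i x ⟨⟨hx, hx⟩, hx⟩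
    have h1 : c i i x = 1 := mul_eq_left.mp h
    rw [h1, one_smul]
  continuousOn_coordChange i j := by
    rintro ⟨x, a⟩ ⟨hx, -⟩
    refine ContinuousAt.continuousWithinAt ?_
    have h1 : ∀ᶠ p : S × F in 𝓝 (x, a), c i j p.1 • p.2 = c i j x • a := by
      have h2 : ∀ᶠ p : S × F in 𝓝 (x, a), c i j p.1 = c i j x :=
        (continuous_fst.continuousAt (x := ((x, a) : S × F))).eventually (hc i j x hx)
      have h3 : ∀ᶠ p : S × F in 𝓝 (x, a), p.2 = a := by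
        have h4 : ∀ᶠ b : F in 𝓝 a, b = a := by
          rw [nhds_discrete]; exact rfl
        exact (continuous_snd.continuousAt (x := ((x, a) : S × F))).eventually h4
      filter_upwards [h2, h3] with p h5 h6
      rw [h5, h6]
    exact (continuousAt_const (y := c i j x • a)).congr (h1.mono fun p hp => hp.symm)
  coordChange_comp i j k x hx v := by
    rw [← mul_smul, hcoc i j k x hx]

/-- topological part of `exists_covering` -/
theorem exists_covering_top [T2Space S] [SecondCountableTopology S] [Countable F]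
    (U : ι → Set S) (hU : ∀ i, IsOpen (U i)) (hcov : ∀ x, ∃ i, x ∈ U i)
    (c : ι → ι → S → G)
    (hc : ∀ i j, ∀ x ∈ U i ∩ U j, ∀ᶠ y in 𝓝 x, c i j y = c i j x)
    (hcoc : ∀ i j k, ∀ x ∈ U i ∩ U j ∩ U k, c j k x * c i j x = c i k x) :
    ∃ (W : Type) (_ : TopologicalSpace W) (q : W → S) (lab : ι → W → F) (sec : ι → F → S → W),
      T2Space W ∧ SecondCountableTopology W ∧ IsLocalHomeomorph q ∧
      (∀ i a, ∀ x ∈ U i, q (sec i a x) = x ∧ lab i (sec i a x) = a) ∧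
      (∀ i w, q w ∈ U i → sec i (lab i w) (q w) = w) ∧
      (∀ i a, ContinuousOn (sec i a) (U i)) ∧
      (∀ i j w, q w ∈ U i → q w ∈ U j → lab j w = c i j (q w) • lab i w) ∧
      (∀ i w, q w ∈ U i → ∀ᶠ w' in 𝓝 w, lab i w' = lab i w) := by
  classical
  let _ : TopologicalSpace F := ⊥
  have _ : DiscreteTopology F := ⟨rfl⟩
  let Z := covCore (F := F) U hU hcov c hc hcoc
  let q : Z.TotalSpace → S := Z.proj
  have hsrc : ∀ i (w : Z.TotalSpace), w ∈ (Z.localTriv i).source ↔ q w ∈ U i := fun i w =>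
    Z.mem_localTriv_source i w
  have hq : IsCoveringMap q := FiberBundle.isCoveringMap (F := F) (E := Z.Fiber)
  let lab : ι → Z.TotalSpace → F := fun i w => (Z.localTriv i w).2
  let sec : ι → F → S → Z.TotalSpace := fun i a x =>
    (Z.localTriv i).toOpenPartialHomeomorph.symm (x, a)
  have htgt : ∀ i a, ∀ x ∈ U i, (x, a) ∈ (Z.localTriv i).target := by
    intro i a x hx
    exact (Z.localTriv i).mem_target.2 hx
  have hsec1 : ∀ i a, ∀ x ∈ U i, q (sec i a x) = x ∧ lab i (sec i a x) = a := by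
    intro i a x hx
    refine ⟨(Z.localTriv i).proj_symm_apply (htgt i a x hx), ?_⟩
    change ((Z.localTriv i) ((Z.localTriv i).toOpenPartialHomeomorph.symm (x, a))).2 = a
    rw [(Z.localTriv i).apply_symm_apply (htgt i a x hx)]
  have hsec2 : ∀ i w, q w ∈ U i → sec i (lab i w) (q w) = w := by
    intro i w hw
    have h1 : w ∈ (Z.localTriv i).source := (hsrc i w).2 hw
    have h2 : (q w, lab i w) = Z.localTriv i w := by
      refine Prod.ext ?_ rfl
      exact ((Z.localTriv i).coe_fst h1).symm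
    change (Z.localTriv i).toOpenPartialHomeomorph.symm (q w, lab i w) = w
    rw [h2]
    exact (Z.localTriv i).symm_apply_mk_proj h1 |> fun h => by
      simpa using (Z.localTriv i).left_inv h1
  have hseccont : ∀ i a, ContinuousOn (sec i a) (U i) := by
    intro i a
    have h1 : ContinuousOn (Z.localTriv i).toOpenPartialHomeomorph.symm (Z.localTriv i).target :=
      (Z.localTriv i).toOpenPartialHomeomorph.continuousOn_symm
    have h2 : ContinuousOn (fun x : S => (x, a)) (U i) :=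
      (continuous_id.prodMk continuous_const).continuousOn
    exact h1.comp h2 fun x hx => htgt i a x hx
  have hlabchange : ∀ i j w, q w ∈ U i → q w ∈ U j → lab j w = c i j (q w) • lab i w := by
    intro i j w hi hj
    let v : F := w.2
    have h1 : lab i w = c (Z.indexAt w.1) i w.1 • v := by
      change (Z.localTriv i w).2 = _
      rw [Z.localTriv_apply]; rfl
    have h2 : lab j w = c (Z.indexAt w.1) j w.1 • v := by
      change (Z.localTriv j w).2 = _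
      rw [Z.localTriv_apply]; rfl
    rw [h1, h2]
    change _ = c i j w.1 • c (Z.indexAt w.1) i w.1 • v
    rw [← mul_smul, hcoc (Z.indexAt w.1) i j w.1 ⟨⟨Z.mem_baseSet_at w.1, hi⟩, hj⟩]
  have hlabloc : ∀ i w, q w ∈ U i → ∀ᶠ w' in 𝓝 w, lab i w' = lab i w := by
    intro i w hw
    have h1 : ContinuousAt (lab i) w := by
      have h2 : ContinuousAt (Z.localTriv i) w :=
        (Z.localTriv i).toOpenPartialHomeomorph.continuousAt ((hsrc i w).2 hw)
      exact continuousAt_snd.comp h2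
    have h3 : ∀ᶠ b : F in 𝓝 (lab i w), b = lab i w := by
      rw [nhds_discrete]; exact rfl
    exact h1.eventually h3
  refine ⟨Z.TotalSpace, inferInstance, q, lab, sec, ?_, ?_, hq.isLocalHomeomorph, hsec1, hsec2,
    hseccont, hlabchange, hlabloc⟩
  · -- Hausdorff
    refine ⟨fun w w' hne => ?_⟩
    by_cases h : q w = q w'
    · exact hq.isSeparatedMap w w' h hne
    · obtain ⟨A, B, hA, hB, h1, h2, h3⟩ := t2_separation h
      exact ⟨q ⁻¹' A, q ⁻¹' B, hA.preimage hq.continuous, hB.preimage hq.continuous, h1, h2,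
        h3.preimage q⟩
  · -- second countable
    obtain ⟨T, hT, hTU⟩ : ∃ T : Set ι, T.Countable ∧ ⋃ i ∈ T, U i = univ := by
      obtain ⟨T, hT, h2⟩ := TopologicalSpace.isOpen_iUnion_countable U hU
      refine ⟨T, hT, h2.trans (iUnion_eq_univ_iff.2 hcov)⟩
    have _ : Countable T := hT
    have _ : ∀ i : T, SecondCountableTopology (q ⁻¹' (U i)) := by
      intro i
      have e := (Z.localTriv i).preimageHomeomorph (s := U i) (fun x hx => hx)
      exact e.secondCountableTopology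
    refine TopologicalSpace.secondCountableTopology_of_countable_cover (ι := T)
      (U := fun i => q ⁻¹' (U i)) (fun i => (hU i).preimage hq.continuous) ?_
    rw [← preimage_iUnion, iUnion_subtype]
    change q ⁻¹' (⋃ i ∈ T, U i) = univ
    rw [hTU, preimage_univ]

end Topological


section Smooth

/-- a complex manifold is a smooth real manifold -/
theorem isManifold_real_of_complex {n : ℕ} {S : Type} [TopologicalSpace S]
    [ChartedSpace (Fin n → ℂ) S] [IsManifold 𝓘(ℂ, Fin n → ℂ) ω S] :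
    IsManifold 𝓘(ℝ, Fin n → ℂ) ∞ S := by
  refine isManifold_of_contDiffOn 𝓘(ℝ, Fin n → ℂ) ∞ S fun e e' he he' => ?_
  have h1 : e.symm ≫ₕ e' ∈ contDiffGroupoid ω 𝓘(ℂ, Fin n → ℂ) :=
    StructureGroupoid.compatible _ he he'
  rw [contDiffGroupoid.eq_1, mem_groupoid_of_pregroupoid] at h1
  have h2 : ContDiffOn ℂ ω (𝓘(ℂ, Fin n → ℂ) ∘ (e.symm ≫ₕ e') ∘ 𝓘(ℂ, Fin n → ℂ).symm)
      (𝓘(ℂ, Fin n → ℂ).symm ⁻¹' (e.symm ≫ₕ e').source ∩ range 𝓘(ℂ, Fin n → ℂ)) := h1.1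
  have h3 : ContDiffOn ℂ ω (e.symm ≫ₕ e') (e.symm ≫ₕ e').source := by
    simpa using h2
  have h4 : ContDiffOn ℝ ω (e.symm ≫ₕ e') (e.symm ≫ₕ e').source := h3.restrict_scalars ℝ
  have h5 : ContDiffOn ℝ ∞ (e.symm ≫ₕ e') (e.symm ≫ₕ e').source := h4.of_le le_top
  simpa using h5

theorem fderiv_comb {E : Type} [NormedAddCommGroup E] [NormedSpace ℝ E] {V : Set E}
    (hV : IsOpen V) {ι : Type} (J : Finset ι) (φ : ι → E → ℝ)
    (hφ : ∀ j ∈ J, ContDiffOn ℝ ∞ (φ j) V) (d : ι → ℝ) (b : ℝ) (h : E → ℝ)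
    (hh : ∀ z ∈ V, h z = b + ∑ j ∈ J, d j * φ j z) {z : E} (hz : z ∈ V) :
    ContDiffAt ℝ ∞ h z ∧ fderiv ℝ h z = ∑ j ∈ J, d j • fderiv ℝ (φ j) z ∧
      fderiv ℝ (fderiv ℝ h) z = ∑ j ∈ J, d j • fderiv ℝ (fderiv ℝ (φ j)) z := by
  have hat : ∀ j ∈ J, ∀ y ∈ V, ContDiffAt ℝ ∞ (φ j) y := fun j hj y hy =>
    (hφ j hj).contDiffAt (hV.mem_nhds hy)
  have h1 : ∀ y ∈ V, HasFDerivAt h (∑ j ∈ J, d j • fderiv ℝ (φ j) y) y := by
    intro y hy
    have h2 : HasFDerivAt (fun z => b + ∑ j ∈ J, d j * φ j z)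
        (∑ j ∈ J, d j • fderiv ℝ (φ j) y) y := by
      refine HasFDerivAt.const_add _ ?_
      refine HasFDerivAt.fun_sum fun j hj => ?_
      have h3 : HasFDerivAt (φ j) (fderiv ℝ (φ j) y) y :=
        ((hat j hj y hy).differentiableAt (by simp)).hasFDerivAt
      exact h3.const_mul (d j)
    refine h2.congr_of_eventuallyEq ?_
    filter_upwards [hV.mem_nhds hy] with z hz using hh z hz
  refine ⟨?_, (h1 z hz).fderiv, ?_⟩
  · have h2 : ContDiffAt ℝ ∞ (fun z => b + ∑ j ∈ J, d j * φ j z) z := by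
      refine contDiffAt_const.add (ContDiffAt.sum fun j hj => ?_)
      exact contDiffAt_const.mul (hat j hj z hz)
    refine h2.congr_of_eventuallyEq ?_
    filter_upwards [hV.mem_nhds hz] with z hz using hh z hz
  · have h2 : HasFDerivAt (fderiv ℝ h) (∑ j ∈ J, d j • fderiv ℝ (fderiv ℝ (φ j)) z) z := by
      have h3 : HasFDerivAt (fun y => ∑ j ∈ J, d j • fderiv ℝ (φ j) y)
          (∑ j ∈ J, d j • fderiv ℝ (fderiv ℝ (φ j)) z) z := by
        refine HasFDerivAt.fun_sum fun j hj => ?_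
        have h4 : ContDiffAt ℝ ∞ (fderiv ℝ (φ j)) z :=
          (hat j hj z hz).fderiv_right (m := ∞) (by simp)
        exact (h4.differentiableAt (by simp)).hasFDerivAt.const_smul (d j)
      refine h3.congr_of_eventuallyEq ?_
      filter_upwards [hV.mem_nhds hz] with y hy using (h1 y hy).fderiv
    exact h2.fderiv

theorem bound_of_compact {E : Type} [NormedAddCommGroup E] [NormedSpace ℝ E] {V : Set E}
    (hV : IsOpen V) (φ : E → ℝ) (hφ : ContDiffOn ℝ ∞ φ V) {K : Set E} (hK : IsCompact K)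
    (hKV : K ⊆ V) : (∃ M : ℝ, ∀ z ∈ K, ‖fderiv ℝ φ z‖ ≤ M) ∧
      ∃ M : ℝ, ∀ z ∈ K, ‖fderiv ℝ (fderiv ℝ φ) z‖ ≤ M := by
  have h1 : ContDiffOn ℝ ∞ (fderiv ℝ φ) V := hφ.fderiv_of_isOpen hV (by simp)
  have h2 : ContDiffOn ℝ ∞ (fderiv ℝ (fderiv ℝ φ)) V := h1.fderiv_of_isOpen hV (by simp)
  exact ⟨hK.exists_bound_of_continuousOn (h1.continuousOn.mono hKV),
    hK.exists_bound_of_continuousOn (E := E →L[ℝ] E →L[ℝ] ℝ) (h2.continuousOn.mono hKV)⟩

theorem norm_sum_smul_le {X : Type} [NormedAddCommGroup X] [NormedSpace ℝ X]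
    {ι : Type} (J : Finset ι) (A : ι → X) (d D M : ι → ℝ) (hd : ∀ j, |d j| ≤ D j)
    (hM : ∀ j, ‖A j‖ ≤ M j) : ‖∑ j ∈ J, d j • A j‖ ≤ ∑ j ∈ J, D j * M j := by
  refine (norm_sum_le _ _).trans (Finset.sum_le_sum fun j _ => ?_)
  rw [norm_smul, Real.norm_eq_abs]
  exact mul_le_mul (hd j) (hM j) (norm_nonneg _) ((abs_nonneg _).trans (hd j))

theorem fderiv_comb_bound {E : Type} [NormedAddCommGroup E] [NormedSpace ℝ E] {V : Set E}
    (hV : IsOpen V) {ι : Type} (J : Finset ι) (φ : ι → E → ℝ)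
    (hφ : ∀ j ∈ J, ContDiffOn ℝ ∞ (φ j) V) (d D M₁ M₂ : ι → ℝ) (b : ℝ) (h : E → ℝ)
    (hh : ∀ z ∈ V, h z = b + ∑ j ∈ J, d j * φ j z) {z : E} (hz : z ∈ V)
    (hd : ∀ j, |d j| ≤ D j) (hM₁ : ∀ j, ‖fderiv ℝ (φ j) z‖ ≤ M₁ j)
    (hM₂ : ∀ j, ‖fderiv ℝ (fderiv ℝ (φ j)) z‖ ≤ M₂ j) :
    ContDiffAt ℝ ∞ h z ∧ ‖fderiv ℝ h z‖ ≤ ∑ j ∈ J, D j * M₁ j ∧
      ‖fderiv ℝ (fderiv ℝ h) z‖ ≤ ∑ j ∈ J, D j * M₂ j := by
  obtain ⟨k1, k2, k3⟩ := fderiv_comb hV J φ hφ d b h hh hz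
  refine ⟨k1, ?_, ?_⟩
  · rw [k2]; exact norm_sum_smul_le J _ d D M₁ hd hM₁
  · rw [k3]
    exact norm_sum_smul_le (X := E →L[ℝ] E →L[ℝ] ℝ) J _ d D M₂ hd hM₂

theorem exists_covering {n : ℕ} {S : Type} [TopologicalSpace S] [T2Space S]
    [SecondCountableTopology S] [ChartedSpace (Fin n → ℂ) S] [IsManifold 𝓘(ℂ, Fin n → ℂ) ω S]
    {G F : Type} [Group G] [MulAction G F] [Countable F] (ℓ : F → ℝ)
    (hfin : ∀ r : ℝ, {a | ℓ a ≤ r}.Finite) (hℓ : ∀ c : G, ∃ C : ℝ, ∀ a, |ℓ (c • a) - ℓ a| ≤ C)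
    {ι : Type} (U : ι → Set S) (hU : ∀ i, IsOpen (U i)) (hcov : ∀ x, ∃ i, x ∈ U i)
    (c : ι → ι → S → G)
    (hc : ∀ i j, ∀ x ∈ U i ∩ U j, ∀ᶠ y in 𝓝 x, c i j y = c i j x)
    (hcoc : ∀ i j k, ∀ x ∈ U i ∩ U j ∩ U k, c j k x * c i j x = c i k x) :
    ∃ (W : Type) (_ : TopologicalSpace W) (q : W → S) (lab : ι → W → F) (ρ : W → ℝ),
      T2Space W ∧ SecondCountableTopology W ∧
      (∀ i, ∀ x ∈ U i, ∀ a : F, ∃ w, q w = x ∧ lab i w = a) ∧
      (∀ i w w', q w = q w' → q w ∈ U i → lab i w = lab i w' → w = w') ∧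
      (∀ i j w, q w ∈ U i → q w ∈ U j → lab j w = c i j (q w) • lab i w) ∧
      (∀ i w, q w ∈ U i → ∀ᶠ w' in 𝓝 w, lab i w' = lab i w) ∧
      IsTame n q ρ ∧
      ∀ i, ∀ p ∈ U i, ∃ N ∈ 𝓝 p, ∃ C : ℝ, ∀ w, q w ∈ N → |ρ w - ℓ (lab i w)| ≤ C := by
  classical
  have _ : IsManifold 𝓘(ℝ, Fin n → ℂ) ∞ S := isManifold_real_of_complex
  have _ : LocallyCompactSpace S := ChartedSpace.locallyCompactSpace (Fin n → ℂ) S
  obtain ⟨W, tW, q, lab, sec, hT2, hSC, hlh, hsec1, hsec2, hseccont, hlabchange, hlabloc⟩ :=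
    exists_covering_top (F := F) U hU hcov c hc hcoc
  obtain ⟨f, hf⟩ := SmoothPartitionOfUnity.exists_isSubordinate 𝓘(ℝ, Fin n → ℂ)
    (isClosed_univ (X := S)) U hU (fun x _ => mem_iUnion.2 (hcov x))
  have hqc : Continuous q := hlh.continuous
  have hfc : ∀ i, Continuous (f i) := fun i => (f i).contMDiff.continuous
  let ρ : W → ℝ := fun w => ∑ᶠ i, f i (q w) * ℓ (lab i w)
  choose D₀ hD₀ using hℓ
  let D : G → ℝ := fun g => |D₀ g|
  have hD : ∀ g a, |ℓ (g • a) - ℓ a| ≤ D g := fun g a => (hD₀ g a).trans (le_abs_self _)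
  have hDn : ∀ g, 0 ≤ D g := fun g => abs_nonneg _
  -- local structure
  have hloc : ∀ i, ∀ p ∈ U i, ∃ N : Set S, IsOpen N ∧ p ∈ N ∧ N ⊆ U i ∧ ∃ J : Finset ι,
      (∀ j ∈ J, N ⊆ U j ∧ ∀ x ∈ N, c i j x = c i j p) ∧ ∀ x ∈ N, ∀ j, j ∉ J → f j x = 0 := by
    intro i p hp
    obtain ⟨N₀, hN₀, hfinN⟩ := f.locallyFinite p
    let J₀ : Finset ι := hfinN.toFinset
    let J : Finset ι := J₀.filter fun j => p ∈ tsupport (f j)
    have e1 : ∀ᶠ y in 𝓝 p, y ∈ U i := (hU i).mem_nhds hp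
    have e2 : ∀ᶠ y in 𝓝 p, y ∈ N₀ := hN₀
    have e3 : ∀ᶠ y in 𝓝 p, ∀ j ∈ J, y ∈ U j ∧ c i j y = c i j p := by
      refine (Filter.eventually_all_finset J).2 fun j hj => ?_
      have h1 : p ∈ U j := hf j (Finset.mem_filter.1 hj).2
      have h2 : ∀ᶠ y in 𝓝 p, y ∈ U j := (hU j).mem_nhds h1
      exact h2.and (hc i j p ⟨hp, h1⟩)
    have e4 : ∀ᶠ y in 𝓝 p, ∀ j ∈ J₀ \ J, y ∉ tsupport (f j) := by
      refine (Filter.eventually_all_finset _).2 fun j hj => ?_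
      have h1 : p ∉ tsupport (f j) := fun h =>
        (Finset.mem_sdiff.1 hj).2 (Finset.mem_filter.2 ⟨(Finset.mem_sdiff.1 hj).1, h⟩)
      exact (isClosed_tsupport (f j)).isOpen_compl.mem_nhds h1
    obtain ⟨N, hN, hNo, hpN⟩ := eventually_nhds_iff.1 (e1.and (e2.and (e3.and e4)))
    refine ⟨N, hNo, hpN, fun x hx => (hN x hx).1, J,
      fun j hj => ⟨fun x hx => ((hN x hx).2.2.1 j hj).1, fun x hx => ((hN x hx).2.2.1 j hj).2⟩,
      fun x hx j hj => ?_⟩
    by_contra hne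
    have h2 : j ∈ J₀ := hfinN.mem_toFinset.2 ⟨x, hne, (hN x hx).2.1⟩
    exact (hN x hx).2.2.2 j (Finset.mem_sdiff.2 ⟨h2, hj⟩) (subset_tsupport _ hne)
  -- the formula for `ρ`
  have hform : ∀ i p (N : Set S) (J : Finset ι), N ⊆ U i →
      (∀ j ∈ J, N ⊆ U j ∧ ∀ x ∈ N, c i j x = c i j p) → (∀ x ∈ N, ∀ j, j ∉ J → f j x = 0) →
      ∀ w, q w ∈ N → ρ w = ℓ (lab i w) +
        ∑ j ∈ J, (ℓ (c i j p • lab i w) - ℓ (lab i w)) * f j (q w) := by
    intro i p N J hNi hNJ hN0 w hw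
    have h1 : ρ w = ∑ j ∈ J, f j (q w) * ℓ (lab j w) := by
      refine finsum_eq_sum_of_support_subset _ fun j hj => ?_
      by_contra hjJ
      refine hj ?_
      change f j (q w) * ℓ (lab j w) = 0
      rw [hN0 _ hw j hjJ, zero_mul]
    have h2 : ∑ j ∈ J, f j (q w) = 1 := by
      rw [← f.sum_eq_one (mem_univ (q w))]
      refine (finsum_eq_sum_of_support_subset _ fun j hj => ?_).symm
      by_contra hjJ
      exact hj (hN0 _ hw j hjJ)
    have h3 : ∀ j ∈ J, f j (q w) * ℓ (lab j w) = f j (q w) * ℓ (lab i w) +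
        (ℓ (c i j p • lab i w) - ℓ (lab i w)) * f j (q w) := by
      intro j hj
      have h4 : lab j w = c i j p • lab i w := by
        rw [← (hNJ j hj).2 _ hw]
        exact hlabchange i j w (hNi hw) ((hNJ j hj).1 hw)
      rw [h4]; ring
    rw [h1, Finset.sum_congr rfl h3, Finset.sum_add_distrib, ← Finset.sum_mul, h2, one_mul]
  -- the bound
  have hbd : ∀ i p (N : Set S) (J : Finset ι), N ⊆ U i →
      (∀ j ∈ J, N ⊆ U j ∧ ∀ x ∈ N, c i j x = c i j p) → (∀ x ∈ N, ∀ j, j ∉ J → f j x = 0) →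
      ∀ w, q w ∈ N → |ρ w - ℓ (lab i w)| ≤ ∑ j ∈ J, D (c i j p) := by
    intro i p N J hNi hNJ hN0 w hw
    rw [hform i p N J hNi hNJ hN0 w hw, add_sub_cancel_left]
    refine (Finset.abs_sum_le_sum_abs _ _).trans (Finset.sum_le_sum fun j _ => ?_)
    rw [abs_mul, abs_of_nonneg (f.nonneg j _)]
    calc |ℓ (c i j p • lab i w) - ℓ (lab i w)| * f j (q w)
        ≤ D (c i j p) * 1 := mul_le_mul (hD _ _) (f.le_one j _) (f.nonneg j _) (hDn _)
      _ = D (c i j p) := mul_one _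
  have hρc : Continuous ρ := by
    rw [continuous_iff_continuousAt]
    intro w
    obtain ⟨i, hi⟩ := hcov (q w)
    obtain ⟨N, hNo, hpN, hNi, J, hNJ, hN0⟩ := hloc i (q w) hi
    have h1 : ContinuousAt (fun w' => ℓ (lab i w) +
        ∑ j ∈ J, (ℓ (c i j (q w) • lab i w) - ℓ (lab i w)) * f j (q w')) w := by
      refine continuousAt_const.add ?_
      refine tendsto_finsetSum _ fun j _ => ?_
      exact (continuousAt_const.mul ((hfc j).comp hqc).continuousAt)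
    refine h1.congr ?_
    filter_upwards [hqc.continuousAt.eventually (hNo.mem_nhds hpN), hlabloc i w hi] with w' h2 h3
    rw [hform i (q w) N J hNi hNJ hN0 w' h2, h3]
  refine ⟨W, tW, q, lab, ρ, hT2, hSC, fun i x hx a => ⟨sec i a x, hsec1 i a x hx⟩, ?_,
    hlabchange, hlabloc, ⟨hlh, ?_, ?_⟩, ?_⟩
  · intro i w w' h1 h2 h3
    rw [← hsec2 i w h2, ← hsec2 i w' (h1 ▸ h2), h3, h1]
  · -- proper
    intro K hK r
    have h1 : ∀ p ∈ K, ∃ t ∈ 𝓝 p, ∃ A : Set W, IsCompact A ∧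
        ∀ w, q w ∈ t → ρ w ≤ r → w ∈ A := by
      intro p _
      obtain ⟨i, hi⟩ := hcov p
      obtain ⟨N, hNo, hpN, hNi, J, hNJ, hN0⟩ := hloc i p hi
      obtain ⟨Q, hQ, hpQ, hQN⟩ := exists_compact_subset hNo hpN
      refine ⟨Q, mem_interior_iff_mem_nhds.1 hpQ,
        ⋃ a ∈ {a | ℓ a ≤ r + ∑ j ∈ J, D (c i j p)}, sec i a '' Q, ?_, ?_⟩
      · refine (hfin _).isCompact_biUnion fun a _ => ?_
        exact hQ.image_of_continuousOn ((hseccont i a).mono (hQN.trans hNi))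
      · intro w hw hr
        have h2 := hbd i p N J hNi hNJ hN0 w (hQN hw)
        have h3 : ℓ (lab i w) ≤ r + ∑ j ∈ J, D (c i j p) := by
          have := (abs_le.1 h2).1; linarith
        exact mem_iUnion₂.2 ⟨lab i w, h3, q w, hw, hsec2 i w (hNi (hQN hw))⟩
    choose! t ht A hA hAt using h1
    obtain ⟨T, hTK, hT⟩ := hK.elim_nhds_subcover t ht
    have h2 : IsCompact (⋃ p ∈ T, A p) := T.isCompact_biUnion fun p hp => hA p (hTK p hp)
    refine h2.of_isClosed_subset ?_ ?_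
    · exact (hK.isClosed.preimage hqc).inter (isClosed_le hρc continuous_const)
    · rintro w ⟨hw, hr⟩
      obtain ⟨p, hp, hwp⟩ := mem_iUnion₂.1 (hT hw)
      exact mem_iUnion₂.2 ⟨p, hp, hAt p (hTK p hp) w hwp hr⟩
  · -- sheets
    intro p
    obtain ⟨i, hi⟩ := hcov p
    obtain ⟨N₀, hNo, hpN, hNi, J, hNJ, hN0⟩ := hloc i p hi
    let e := chartAt (Fin n → ℂ) p
    have hpe : p ∈ e.source := mem_chart_source _ p
    let V : Set (Fin n → ℂ) := e.target ∩ e.symm ⁻¹' N₀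
    have hVo : IsOpen V := e.isOpen_inter_preimage_symm hNo
    have hpV : e p ∈ V := ⟨e.map_source hpe, by
      change e.symm (e p) ∈ N₀
      rw [e.left_inv hpe]; exact hpN⟩
    let φ : ι → (Fin n → ℂ) → ℝ := fun j => f j ∘ e.symm
    have hφ : ∀ j, ContDiffOn ℝ ∞ (φ j) V := by
      intro j
      have h1 : ContMDiffOn 𝓘(ℝ, Fin n → ℂ) 𝓘(ℝ, Fin n → ℂ) ∞ e.symm e.target :=
        contMDiffOn_chart_symm
      have h2 : ContMDiffOn 𝓘(ℝ, Fin n → ℂ) 𝓘(ℝ, ℝ) ∞ (f j ∘ e.symm) e.target :=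
        (f j).contMDiff.comp_contMDiffOn h1
      exact (contMDiffOn_iff_contDiffOn.1 h2).mono inter_subset_left
    obtain ⟨δ, hδ, hball⟩ := Metric.nhds_basis_closedBall.mem_iff.1 (hVo.mem_nhds hpV)
    have hcpt : IsCompact (Metric.closedBall (e p) δ) := isCompact_closedBall _ _
    have hM := fun j => bound_of_compact hVo (φ j) (hφ j) hcpt hball
    have hM1 := fun j => (hM j).1
    have hM2 := fun j => (hM j).2
    choose M₁ hM₁ using hM1
    choose M₂ hM₂ using hM2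
    have hep : e p ∈ Metric.closedBall (e p) δ := Metric.mem_closedBall_self hδ.le
    have hM₁n : ∀ j, 0 ≤ M₁ j := fun j => (norm_nonneg _).trans (hM₁ j _ hep)
    have hM₂n : ∀ j, 0 ≤ M₂ j := fun j =>
      (norm_nonneg (fderiv ℝ (fderiv ℝ (φ j)) (e p))).trans (hM₂ j _ hep)
    let B : ℝ := ∑ j ∈ J, D (c i j p)
    let B₁ : ℝ := ∑ j ∈ J, D (c i j p) * M₁ j
    let B₂ : ℝ := ∑ j ∈ J, D (c i j p) * M₂ j
    have hB : 0 ≤ B := Finset.sum_nonneg fun j _ => hDn _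
    have hB₁ : 0 ≤ B₁ := Finset.sum_nonneg fun j _ => mul_nonneg (hDn _) (hM₁n j)
    have hB₂ : 0 ≤ B₂ := Finset.sum_nonneg fun j _ => mul_nonneg (hDn _) (hM₂n j)
    refine ⟨e.source ∩ e ⁻¹' Metric.ball (e p) δ, e.isOpen_inter_preimage Metric.isOpen_ball,
      ⟨hpe, Metric.mem_ball_self hδ⟩, inter_subset_left, 2 * B + B₁ + B₂, ?_⟩
    have hNN : e.source ∩ e ⁻¹' Metric.ball (e p) δ ⊆ N₀ := by
      rintro x ⟨hx1, hx2⟩
      have h1 : e x ∈ V := hball (Metric.ball_subset_closedBall hx2)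
      have h2 : e.symm (e x) ∈ N₀ := h1.2
      rwa [e.left_inv hx1] at h2
    intro w hw
    set a := lab i w with ha
    refine ⟨sec i a, hsec2 i w (hNi (hNN hw)), (hseccont i a).mono (hNN.trans hNi), ?_⟩
    intro x hx
    have hxN := hNN hx
    have hqx := (hsec1 i a x (hNi hxN)).1
    have hlx := (hsec1 i a x (hNi hxN)).2
    have hexV : e x ∈ V := hball (Metric.ball_subset_closedBall hx.2)
    have hexB : e x ∈ Metric.closedBall (e p) δ := Metric.ball_subset_closedBall hx.2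
    let d : ι → ℝ := fun j => ℓ (c i j p • a) - ℓ a
    have hd : ∀ j, |d j| ≤ D (c i j p) := fun j => hD _ _
    have hh : ∀ z ∈ V, (ρ ∘ sec i a ∘ e.symm) z = ℓ a + ∑ j ∈ J, d j * φ j z := by
      intro z hz
      have h1 : e.symm z ∈ N₀ := hz.2
      have h2 := hsec1 i a (e.symm z) (hNi h1)
      have h3 := hform i p N₀ J hNi hNJ hN0 (sec i a (e.symm z)) (by rw [h2.1]; exact h1)
      rw [h2.1, h2.2] at h3
      exact h3
    obtain ⟨k1, k2, k3⟩ := fderiv_comb_bound hVo J φ (fun j _ => hφ j) d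
      (fun j => D (c i j p)) M₁ M₂ (ℓ a) (ρ ∘ sec i a ∘ e.symm) hh hexV hd
      (fun j => hM₁ j _ hexB) (fun j => hM₂ j _ hexB)
    refine ⟨hqx, ?_, k1, ?_, ?_⟩
    · have h1 := hbd i p N₀ J hNi hNJ hN0 w (hNN hw)
      have h2 := hbd i p N₀ J hNi hNJ hN0 (sec i a x) (by rw [hqx]; exact hxN)
      rw [hlx] at h2
      have h3 : |ρ (sec i a x) - ρ w| ≤ |ρ (sec i a x) - ℓ a| + |ρ w - ℓ a| := by
        have := abs_sub_le (ρ (sec i a x)) (ℓ a) (ρ w)
        rwa [abs_sub_comm (ℓ a) (ρ w)] at this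
      change |ρ w - ℓ a| ≤ B at h1
      change |ρ (sec i a x) - ℓ a| ≤ B at h2
      linarith
    · exact k2.trans (by linarith [show B₁ = ∑ j ∈ J, D (c i j p) * M₁ j from rfl])
    · exact k3.trans (by linarith [show B₂ = ∑ j ∈ J, D (c i j p) * M₂ j from rfl])
  · intro i p hp
    obtain ⟨N, hNo, hpN, hNi, J, hNJ, hN0⟩ := hloc i p hp
    exact ⟨N, hNo.mem_nhds hpN, _, hbd i p N J hNi hNJ hN0⟩

end Smooth

end Pool.Agent.Levi
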