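import Pool.Agent.Levi.Calculus

/-!
# Bump functions and partitions of unity on a Riemann domain
-/

set_option autoImplicit false

open Set Filter Topology MeasureTheory
open scoped ContDiff ComplexConjugate ENNReal

namespace Pool.Agent.Levi

section

variable {n : ℕ} {M : Type} [TopologicalSpace M] {π : M → (Fin n → ℂ)}

/-! ### Test functions -/

section test

variable {hπ : IsLocalHomeomorph π} {α β : M → ℂ}

theorem IsTest.continuous (hα : IsTest hπ α) : Continuous α := hα.smooth.continuous

theorem eventuallyEq_zero_of_notMem {F : Type*} [Zero F] {u : M → F} {w : M} (hw : w ∉ tsupport u) :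
    u =ᶠ[𝓝 w] 0 := notMem_tsupport_iff_eventuallyEq.mp hw

theorem tsupport_rderiv_subset {F : Type} [NormedAddCommGroup F] [NormedSpace ℝ F] (u : M → F)
    (v : Fin n → ℂ) : tsupport (rderiv hπ u v) ⊆ tsupport u := by
  refine closure_minimal ?_ (isClosed_tsupport u)
  intro w hw
  by_contra hcon
  apply hw
  have h := rderiv_congr hπ (eventuallyEq_zero_of_notMem hcon) v
  rw [h]
  exact rderiv_const (hπ := hπ) (0 : F) v w

theorem tsupport_dz_subset (u : M → ℂ) (j : Fin n) : tsupport (dz hπ u j) ⊆ tsupport u := by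
  refine closure_minimal ?_ (isClosed_tsupport u)
  intro w hw
  by_contra hcon
  apply hw
  have h1 : ∀ v, rderiv hπ u v w = 0 := fun v => by
    have := image_eq_zero_of_notMem_tsupport
      (fun h => hcon (tsupport_rderiv_subset (hπ := hπ) u v h))
    exact this
  simp [dz, h1]

theorem tsupport_dzb_subset (u : M → ℂ) (j : Fin n) : tsupport (dzb hπ u j) ⊆ tsupport u := by
  refine closure_minimal ?_ (isClosed_tsupport u)
  intro w hw
  by_contra hcon
  apply hw
  have h1 : ∀ v, rderiv hπ u v w = 0 := fun v => by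
    have := image_eq_zero_of_notMem_tsupport
      (fun h => hcon (tsupport_rderiv_subset (hπ := hπ) u v h))
    exact this
  simp [dzb, h1]

theorem hasCompactSupport_of_subset {F G : Type*} [Zero F] [Zero G] {u : M → F} {g : M → G}
    (hu : HasCompactSupport u) (h : tsupport g ⊆ tsupport u) : HasCompactSupport g :=
  IsCompact.of_isClosed_subset hu (isClosed_tsupport g) h

theorem IsTest.dz (hα : IsTest hπ α) (j : Fin n) : IsTest hπ (dz hπ α j) :=
  ⟨hα.smooth.dz j, hasCompactSupport_of_subset hα.compact (tsupport_dz_subset α j)⟩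

theorem IsTest.dzb (hα : IsTest hπ α) (j : Fin n) : IsTest hπ (dzb hπ α j) :=
  ⟨hα.smooth.dzb j, hasCompactSupport_of_subset hα.compact (tsupport_dzb_subset α j)⟩

theorem IsTest.rderiv (hα : IsTest hπ α) (v : Fin n → ℂ) : IsTest hπ (rderiv hπ α v) :=
  ⟨hα.smooth.rderiv v, hasCompactSupport_of_subset hα.compact (tsupport_rderiv_subset α v)⟩

theorem IsTest.mul_left (hα : IsTest hπ α) {g : M → ℂ} (hg : RSmooth hπ g) :
    IsTest hπ (fun x => α x * g x) :=
  ⟨hα.smooth.mul hg, hα.compact.mul_right⟩

theorem IsTest.mul_right (hα : IsTest hπ α) {g : M → ℂ} (hg : RSmooth hπ g) :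
    IsTest hπ (fun x => g x * α x) :=
  ⟨hg.mul hα.smooth, hα.compact.mul_left⟩

theorem IsTest.add (hα : IsTest hπ α) (hβ : IsTest hπ β) : IsTest hπ (fun x => α x + β x) :=
  ⟨hα.smooth.add hβ.smooth, hα.compact.add hβ.compact⟩

theorem IsTest.neg (hα : IsTest hπ α) : IsTest hπ (fun x => -α x) :=
  ⟨hα.smooth.neg, by
    have : (fun x => -α x) = fun x => (-1) * α x := by ext x; ring
    rw [this]; exact hα.compact.mul_left⟩

theorem IsTest.sub (hα : IsTest hπ α) (hβ : IsTest hπ β) : IsTest hπ (fun x => α x - β x) := by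
  have := hα.add hβ.neg
  simpa [sub_eq_add_neg] using this

theorem IsTest.conj (hα : IsTest hπ α) : IsTest hπ (fun x => conj (α x)) :=
  ⟨hα.smooth.conj, hα.compact.comp_left (map_zero _)⟩

theorem isTest_zero (hπ : IsLocalHomeomorph π) : IsTest hπ (fun _ => 0) :=
  ⟨rsmooth_const hπ 0, HasCompactSupport.zero⟩

theorem IsTest.sum {ι : Type*} {s : Finset ι} {u : ι → M → ℂ} (hu : ∀ i ∈ s, IsTest hπ (u i)) :
    IsTest hπ (fun x => ∑ i ∈ s, u i x) := by
  classical
  induction s using Finset.induction_on with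
  | empty => simpa using isTest_zero hπ
  | insert i s hi ih =>
    have h1 := (hu i (Finset.mem_insert_self i s)).add
      (ih (fun k hk => hu k (Finset.mem_insert_of_mem hk)))
    have : (fun x => ∑ k ∈ insert i s, u k x) = fun x => u i x + ∑ k ∈ s, u k x := by
      ext x; rw [Finset.sum_insert hi]
    rw [this]; exact h1

end test

/-! ### Bump functions -/

variable [T2Space M]

/-- A smooth bump function supported in the chart domain at `x` and in a given neighbourhood. -/
theorem exists_bump (hπ : IsLocalHomeomorph π) (x : M) {V : Set M} (hV : V ∈ 𝓝 x) :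
    ∃ b : M → ℝ, RSmooth hπ b ∧ HasCompactSupport b ∧
      tsupport b ⊆ V ∩ (hπ.localInverseAt x).target ∧ (∀ y, 0 ≤ b y) ∧ (∀ y, b y ≤ 1) ∧
      b =ᶠ[𝓝 x] fun _ => 1 := by
  classical
  set σ := hπ.localInverseAt x with hσ
  -- choose the radius
  have hc : ContinuousAt σ (π x) := σ.continuousAt hπ.apply_self_mem_localInverseAt_source
  have hpre : σ.source ∩ σ ⁻¹' V ∈ 𝓝 (π x) := by
    refine inter_mem (σ.open_source.mem_nhds hπ.apply_self_mem_localInverseAt_source) ?_
    apply hc
    rwa [hσ, hπ.localInverseAt_apply_self]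
  obtain ⟨r, hr, hball⟩ := Metric.nhds_basis_closedBall.mem_iff.mp hpre
  let f : ContDiffBump (π x) := ⟨r / 2, r, by positivity, by linarith⟩
  set b : M → ℝ := fun y => if y ∈ σ.target then f (π y) else 0 with hb
  set C : Set M := σ '' Metric.closedBall (π x) r with hC
  have hCcomp : IsCompact C := by
    refine (isCompact_closedBall _ _).image_of_continuousOn ?_
    exact σ.continuousOn.mono (fun z hz => (hball hz).1)
  have hsupp : Function.support b ⊆ C := by
    intro y hy
    by_cases hyt : y ∈ σ.target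
    · have h1 : f (π y) ≠ 0 := by
        have : b y = f (π y) := by simp [hb, hyt]
        rwa [Function.mem_support, this] at hy
      have h2 : π y ∈ Metric.ball (π x) r := by
        have : π y ∈ Function.support f := h1
        rwa [f.support_eq] at this
      refine ⟨π y, Metric.ball_subset_closedBall h2, ?_⟩
      exact inv_apply hπ hyt
    · exfalso; apply hy; simp [hb, hyt]
  have htsupp : tsupport b ⊆ C := closure_minimal hsupp hCcomp.isClosed
  have hCV : C ⊆ V ∩ σ.target := by
    rintro _ ⟨z, hz, rfl⟩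
    exact ⟨(hball hz).2, σ.map_source (hball hz).1⟩
  refine ⟨b, ?_, IsCompact.of_isClosed_subset hCcomp (isClosed_tsupport b) htsupp,
    htsupp.trans hCV, ?_, ?_, ?_⟩
  · intro w
    by_cases hw : w ∈ σ.target
    · have h1 : ContDiffAt ℝ ∞ (b ∘ σ) (π w) := by
        have h2 : ContDiffAt ℝ ∞ f (π w) := f.contDiffAt
        refine h2.congr_of_eventuallyEq ?_
        filter_upwards [σ.open_source.mem_nhds (pi_mem hπ hw)] with z hz
        have h3 : σ z ∈ σ.target := σ.map_source hz
        have h4 : π (σ z) = z := hπ.apply_localInverseAt_of_mem hz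
        simp [hb, h3, h4]
      exact h1.congr_of_eventuallyEq (comp_inv_eventuallyEq hπ b hw)
    · have hwC : w ∉ tsupport b := fun h => hw (hCV (htsupp h)).2
      exact contDiffAt_comp_of_eventuallyEq hπ (eventuallyEq_zero_of_notMem hwC)
        (rsmooth_const hπ (0 : ℝ) w)
  · intro y
    by_cases hyt : y ∈ σ.target
    · simp [hb, hyt, f.nonneg]
    · simp [hb, hyt]
  · intro y
    by_cases hyt : y ∈ σ.target
    · simp [hb, hyt, f.le_one]
    · simp [hb, hyt]
  · have h1 : ∀ᶠ y in 𝓝 x, y ∈ σ.target := σ.open_target.mem_nhds hπ.self_mem_localInverseAt_target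
    have h2 : ∀ᶠ y in 𝓝 x, π y ∈ Metric.ball (π x) (r / 2) :=
      hπ.continuous.continuousAt (Metric.ball_mem_nhds _ (by positivity))
    filter_upwards [h1, h2] with y hy1 hy2
    have : f (π y) = 1 := f.one_of_mem_closedBall (Metric.ball_subset_closedBall hy2)
    simp [hb, hy1, this]

/-- A finite smooth partition of unity near a compact set, subordinate to the chart domains. -/
theorem exists_partition (hπ : IsLocalHomeomorph π) {K : Set M} (hK : IsCompact K)
    (V : M → Set M) (hV : ∀ x ∈ K, V x ∈ 𝓝 x) :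
    ∃ (t : Finset M) (ρ : M → M → ℝ), (∀ x ∈ t, x ∈ K) ∧
      (∀ x ∈ t, RSmooth hπ (ρ x) ∧ HasCompactSupport (ρ x) ∧
        tsupport (ρ x) ⊆ V x ∩ (hπ.localInverseAt x).target ∧ (∀ y, 0 ≤ ρ x y) ∧
        (∀ y, ρ x y ≤ 1)) ∧
      (∀ᶠ y in 𝓝ˢ K, ∑ x ∈ t, ρ x y = 1) := by
  classical
  -- bump functions at the points of `K`
  have hb : ∀ x : M, ∃ b : M → ℝ, RSmooth hπ b ∧ HasCompactSupport b ∧ (∀ y, 0 ≤ b y) ∧
      (x ∈ K → tsupport b ⊆ V x ∩ (hπ.localInverseAt x).target ∧ b =ᶠ[𝓝 x] fun _ => 1) := by
    intro x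
    by_cases hx : x ∈ K
    · obtain ⟨b, h1, h2, h3, h4, _, h5⟩ := exists_bump hπ x (hV x hx)
      exact ⟨b, h1, h2, h4, fun _ => ⟨h3, h5⟩⟩
    · exact ⟨fun _ => 0, rsmooth_const hπ 0, HasCompactSupport.zero, fun _ => le_rfl,
        fun h => absurd h hx⟩
  choose b hbs hbc hb0 hbK using hb
  have hopen : ∀ x, IsOpen {y | 0 < b x y} := fun x =>
    isOpen_lt continuous_const (hbs x).continuous
  obtain ⟨t, htK, htcov⟩ := hK.elim_nhds_subcover (fun x => {y | 0 < b x y}) (by
    intro x hx
    refine (hopen x).mem_nhds ?_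
    have := ((hbK x hx).2).self_of_nhds
    simp [this])
  set B : M → ℝ := fun y => ∑ x ∈ t, b x y with hB
  have hBs : RSmooth hπ B := RSmooth.sum fun x _ => hbs x
  have hBpos : ∀ y ∈ K, 0 < B y := by
    intro y hy
    obtain ⟨x, hx, hyx⟩ := mem_iUnion₂.mp (htcov hy)
    exact Finset.sum_pos' (fun z _ => hb0 z y) ⟨x, hx, hyx⟩
  -- a smooth function of one variable which is `1/t` on the values near `K`
  obtain ⟨ε, hε, hεK⟩ : ∃ ε > 0, ∀ y ∈ K, ε < B y := by
    rcases K.eq_empty_or_nonempty with rfl | hKne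
    · exact ⟨1, one_pos, fun y hy => absurd hy (notMem_empty y)⟩
    · obtain ⟨y0, hy0, hmin⟩ := hK.exists_isMinOn hKne hBs.continuous.continuousOn
      refine ⟨B y0 / 2, by have := hBpos y0 hy0; positivity, fun y hy => ?_⟩
      have := hBpos y0 hy0
      have h2 : B y0 ≤ B y := hmin hy
      linarith
  -- `q t = smooth, q t * t ≤ 1, q t = 1 / t for t ≥ ε, q ≥ 0`
  let q : ℝ → ℝ := fun t => Real.smoothTransition ((2 * t - ε) / ε) * t⁻¹
  have hq : ContDiff ℝ ∞ q := by
    rw [contDiff_iff_contDiffAt]
    intro s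
    by_cases hs : s < ε / 2
    · have : q =ᶠ[𝓝 s] fun _ => 0 := by
        filter_upwards [Iio_mem_nhds hs] with u hu
        have : (2 * u - ε) / ε ≤ 0 := by
          apply div_nonpos_of_nonpos_of_nonneg _ hε.le
          have : u < ε / 2 := hu
          linarith
        simp [q, Real.smoothTransition.zero_of_nonpos this]
      exact (contDiffAt_const (c := (0 : ℝ))).congr_of_eventuallyEq this
    · have hs' : s ≠ 0 := by
        have : ε / 2 ≤ s := not_lt.mp hs
        have : 0 < s := by linarith
        exact this.ne'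
      refine ContDiffAt.mul ?_ (contDiffAt_inv ℝ hs')
      refine Real.smoothTransition.contDiff.contDiffAt.comp s ?_
      exact ((contDiff_const.mul contDiff_id).sub contDiff_const |>.div_const ε).contDiffAt
  have hq0 : ∀ s, 0 ≤ s → 0 ≤ q s := fun s hs =>
    mul_nonneg (Real.smoothTransition.nonneg _) (inv_nonneg.mpr hs)
  have hq1 : ∀ s, 0 ≤ s → q s * s ≤ 1 := by
    intro s hs
    rcases hs.eq_or_lt with rfl | hs
    · simp
    · simp only [q]
      rw [mul_assoc, inv_mul_cancel₀ hs.ne', mul_one]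
      exact Real.smoothTransition.le_one _
  have hq2 : ∀ s, ε < s → q s * s = 1 := by
    intro s hs
    have hs0 : s ≠ 0 := by have : 0 < s := hε.trans hs
                           exact this.ne'
    simp only [q]
    rw [mul_assoc, inv_mul_cancel₀ hs0, mul_one]
    apply Real.smoothTransition.one_of_one_le
    rw [le_div_iff₀ hε]
    linarith
  have hB0 : ∀ y, 0 ≤ B y := fun y => Finset.sum_nonneg fun x _ => hb0 x y
  refine ⟨t, fun x y => b x y * q (B y), htK, ?_, ?_⟩
  · intro x hx
    have hs : tsupport (fun y => b x y * q (B y)) ⊆ tsupport (b x) :=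
      tsupport_mul_subset_left
    refine ⟨(hbs x).mul (hBs.comp hq), (hbc x).mul_right,
      hs.trans (hbK x (htK x hx)).1, fun y => mul_nonneg (hb0 x y) (hq0 _ (hB0 y)), fun y => ?_⟩
    have h1 : b x y ≤ B y := Finset.single_le_sum (fun z _ => hb0 z y) hx
    calc b x y * q (B y) ≤ B y * q (B y) := mul_le_mul_of_nonneg_right h1 (hq0 _ (hB0 y))
      _ = q (B y) * B y := mul_comm _ _
      _ ≤ 1 := hq1 _ (hB0 y)
  · have hopenB : IsOpen {y | ε < B y} := isOpen_lt continuous_const hBs.continuous
    have : {y | ε < B y} ∈ 𝓝ˢ K := hopenB.mem_nhdsSet.mpr (fun y hy => hεK y hy)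
    filter_upwards [this] with y hy
    rw [← Finset.sum_mul]
    have := hq2 (B y) hy
    rw [mul_comm] at this
    exact this

/-- Decomposition of a test function into test functions supported in chart domains. -/
theorem IsTest.exists_decomp {hπ : IsLocalHomeomorph π} {α : M → ℂ} (hα : IsTest hπ α) :
    ∃ (t : Finset M) (a : M → M → ℂ), (∀ x ∈ t, IsTest hπ (a x) ∧
      tsupport (a x) ⊆ (hπ.localInverseAt x).target) ∧ α = fun y => ∑ x ∈ t, a x y := by
  obtain ⟨t, ρ, _, h1, h2⟩ := exists_partition hπ hα.compact (fun _ => univ)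
    (fun _ _ => univ_mem)
  refine ⟨t, fun x y => α y * (ρ x y : ℂ), ?_, ?_⟩
  · intro x hx
    obtain ⟨h3, h4, h5, _, _⟩ := h1 x hx
    refine ⟨hα.mul_left h3.ofReal, ?_⟩
    have h6 : tsupport (fun y => α y * (ρ x y : ℂ)) ⊆ tsupport (ρ x) := by
      refine closure_mono ?_
      intro y hy
      simp only [Function.mem_support] at hy ⊢
      intro h
      apply hy
      simp [h]
    exact (h6.trans h5).trans inter_subset_right
  · ext y
    by_cases hy : y ∈ tsupport α
    · have : ∑ x ∈ t, ρ x y = 1 := h2.self_of_nhdsSet y hy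
      rw [← Finset.mul_sum, ← Complex.ofReal_sum, this]
      simp
    · have h0 : α y = 0 := image_eq_zero_of_notMem_tsupport hy
      simp [h0]

/-- Induction principle: a property of test functions stable under sums holds for all test
functions as soon as it holds for those supported in chart domains. -/
theorem IsTest.induction {hπ : IsLocalHomeomorph π} {P : (M → ℂ) → Prop}
    (h0 : P (fun _ => 0))
    (hadd : ∀ α β, IsTest hπ α → IsTest hπ β → P α → P β → P (fun y => α y + β y))
    (hch : ∀ α x, IsTest hπ α → tsupport α ⊆ (hπ.localInverseAt x).target → P α)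
    {α : M → ℂ} (hα : IsTest hπ α) : P α := by
  classical
  obtain ⟨t, a, h1, rfl⟩ := hα.exists_decomp
  clear hα
  induction t using Finset.induction_on with
  | empty => simpa using h0
  | insert i s hi ih =>
    have h2 : (fun y => ∑ x ∈ insert i s, a x y) = fun y => a i y + ∑ x ∈ s, a x y := by
      ext y; rw [Finset.sum_insert hi]
    rw [h2]
    have h3 := h1 i (Finset.mem_insert_self i s)
    have h4 : ∀ x ∈ s, IsTest hπ (a x) ∧ tsupport (a x) ⊆ (hπ.localInverseAt x).target :=
      fun x hx => h1 x (Finset.mem_insert_of_mem hx)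
    exact hadd _ _ h3.1 (IsTest.sum fun x hx => (h4 x hx).1) (hch _ i h3.1 h3.2) (ih h4)

end

end Pool.Agent.Levi
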