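import Mathlib

/-!
# Smooth functions of one real variable with prescribed growth (package P6)
-/

set_option autoImplicit false

open Set Filter Topology MeasureTheory
open scoped ContDiff Manifold

namespace Pool.Agent.Levi

/-- a smooth function above a given monotone function -/
theorem exists_smooth_ge (h : ℝ → ℝ) (hh : Monotone h) :
    ∃ Z : ℝ → ℝ, ContDiff ℝ ∞ Z ∧ (∀ t, 0 ≤ Z t) ∧ ∀ t, h t ≤ Z t := by
  obtain ⟨g, hg⟩ := exists_contMDiffMap_forall_mem_convex_of_local_const (n := (⊤ : ℕ∞))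
    (I := 𝓘(ℝ, ℝ)) (M := ℝ) (F := ℝ) (t := fun x => Ici (max (h x) 0))
    (fun x => convex_Ici _) (fun x => ⟨max (h (x + 1)) 0, by
      filter_upwards [Iio_mem_nhds (show x < x + 1 by linarith)] with y hy
      exact max_le_max (hh (le_of_lt hy)) le_rfl⟩)
  refine ⟨g, g.contMDiff.contDiff, fun t => ?_, fun t => ?_⟩
  · exact (le_max_right _ _).trans (hg t)
  · exact (le_max_left _ _).trans (hg t)

theorem contDiff_integral {Y : ℝ → ℝ} (hY : ContDiff ℝ ∞ Y) (a : ℝ) :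
    ContDiff ℝ ∞ (fun t => ∫ s in a..t, Y s) ∧ ∀ t, deriv (fun t => ∫ s in a..t, Y s) t = Y t := by
  have hd : ∀ t, HasDerivAt (fun t => ∫ s in a..t, Y s) (Y t) t := fun t =>
    intervalIntegral.integral_hasDerivAt_right (hY.continuous.intervalIntegrable _ _)
      (hY.continuous.stronglyMeasurableAtFilter _ _) hY.continuous.continuousAt
  have hd' : deriv (fun t => ∫ s in a..t, Y s) = Y := funext fun t => (hd t).deriv
  refine ⟨contDiff_infty_iff_deriv.mpr ⟨fun t => (hd t).differentiableAt, ?_⟩, fun t => (hd t).deriv⟩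
  rw [hd']
  exact hY

/-- the cut off of a smooth function -/
theorem exists_cut {Z : ℝ → ℝ} (hZ : ContDiff ℝ ∞ Z) (h0 : ∀ t, 0 ≤ Z t) (R : ℝ) :
    ∃ Y : ℝ → ℝ, ContDiff ℝ ∞ Y ∧ (∀ t, 0 ≤ Y t) ∧ (∀ t ≤ R, Y t = 0) ∧
      ∀ t, R + 1 ≤ t → Y t = Z t := by
  refine ⟨fun t => Real.smoothTransition (t - R) * Z t, ?_, fun t => ?_, fun t ht => ?_,
    fun t ht => ?_⟩
  · exact (Real.smoothTransition.contDiff.comp (contDiff_id.sub contDiff_const)).mul hZ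
  · exact mul_nonneg (Real.smoothTransition.nonneg _) (h0 t)
  · simp only
    rw [Real.smoothTransition.zero_of_nonpos (by linarith), zero_mul]
  · simp only
    rw [Real.smoothTransition.one_of_one_le (by linarith), one_mul]

theorem integral_eq_zero_of_le {Y : ℝ → ℝ} {R : ℝ} (h : ∀ t ≤ R, Y t = 0) {t : ℝ} (ht : t ≤ R) :
    ∫ s in R..t, Y s = 0 := by
  have : ∫ s in R..t, Y s = ∫ s in R..t, (0 : ℝ) := by
    apply intervalIntegral.integral_congr
    intro s hs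
    rw [uIcc_of_ge ht] at hs
    exact h s hs.2
  rw [this]
  simp

theorem integral_nonneg_all {Y : ℝ → ℝ} {R : ℝ} (h : ∀ t ≤ R, Y t = 0) (h0 : ∀ t, 0 ≤ Y t)
    (t : ℝ) : 0 ≤ ∫ s in R..t, Y s := by
  rcases le_total R t with h1 | h1
  · exact intervalIntegral.integral_nonneg h1 fun s _ => h0 s
  · rw [integral_eq_zero_of_le h h1]

/-- if `Y s ≥ c` on `[t-1,t]` and `Y ≥ 0` then the integral from `R ≤ t - 1` to `t` is at least `c` -/
theorem le_integral {Y : ℝ → ℝ} (hY : ContDiff ℝ ∞ Y) {R : ℝ} (h0 : ∀ t, 0 ≤ Y t) {t c : ℝ}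
    (hR : R ≤ t - 1) (hc : ∀ s, t - 1 ≤ s → c ≤ Y s) : c ≤ ∫ s in R..t, Y s := by
  have hi : ∀ a b : ℝ, IntervalIntegrable Y volume a b := fun a b =>
    hY.continuous.intervalIntegrable _ _
  have h1 : ∫ s in R..t, Y s = (∫ s in R..(t - 1), Y s) + ∫ s in (t - 1)..t, Y s :=
    (intervalIntegral.integral_add_adjacent_intervals (hi _ _) (hi _ _)).symm
  have h2 : 0 ≤ ∫ s in R..(t - 1), Y s := intervalIntegral.integral_nonneg hR fun s _ => h0 s
  have h3 : c ≤ ∫ s in (t - 1)..t, Y s := by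
    have h4 : ∫ s in (t - 1)..t, c = c := by simp
    rw [← h4]
    apply intervalIntegral.integral_mono_on (by linarith) (by simp) (hi _ _)
    intro s hs
    exact hc s hs.1
  linarith

/-- (P6a) -/
theorem exists_convex_growth (h : ℝ → ℝ) (hh : Monotone h) (t₀ : ℝ) :
    ∃ X : ℝ → ℝ, ContDiff ℝ ∞ X ∧ (∀ t, 0 ≤ deriv X t) ∧ (∀ t, 0 ≤ deriv (deriv X) t) ∧
      ∀ t, t₀ ≤ t → h t ≤ deriv X t ∧ h t ≤ X t := by
  obtain ⟨Z₀, hZ₀, hZ₀n, hZ₀h⟩ := exists_smooth_ge (fun t => h (t + 2))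
    (fun a b hab => hh (by linarith))
  obtain ⟨Z, hZ, hZn, hZz, hZe⟩ := exists_cut hZ₀ hZ₀n (t₀ - 3)
  obtain ⟨hY, hYd⟩ := contDiff_integral hZ (t₀ - 3)
  set Y : ℝ → ℝ := fun t => ∫ s in (t₀ - 3)..t, Z s with hYdef
  have hYn : ∀ t, 0 ≤ Y t := fun t => integral_nonneg_all hZz hZn t
  obtain ⟨hX, hXd⟩ := contDiff_integral hY (t₀ - 3)
  set X : ℝ → ℝ := fun t => ∫ s in (t₀ - 3)..t, Y s with hXdef
  have hXd' : deriv X = Y := funext hXd
  have hY1 : ∀ t, t₀ - 1 ≤ t → h (t + 1) ≤ Y t := by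
    intro t ht
    apply le_integral hZ hZn (by linarith)
    intro s hs
    rw [hZe s (by linarith)]
    exact (hh (by linarith)).trans (hZ₀h s)
  refine ⟨X, hX, fun t => ?_, fun t => ?_, fun t ht => ⟨?_, ?_⟩⟩
  · rw [hXd']; exact hYn t
  · rw [hXd', hYd]; exact hZn t
  · rw [hXd']
    exact (hh (by linarith)).trans (hY1 t (by linarith))
  · apply le_integral hY hYn (by linarith)
    intro s hs
    exact (hh (by linarith)).trans (hY1 s (by linarith))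

/-- (P6b) -/
theorem exists_growth_pair (h : ℝ → ℝ) (hh : Monotone h) (R : ℝ) :
    ∃ X₁ X₂ : ℝ → ℝ, ContDiff ℝ ∞ X₁ ∧ ContDiff ℝ ∞ X₂ ∧ (∀ t ≤ R, X₁ t = 0 ∧ X₂ t = 0) ∧
      (∀ t, 0 ≤ X₁ t) ∧ (∀ t, R + 1 ≤ t → h t ≤ X₁ t) ∧ (∀ t, 0 ≤ deriv X₂ t) ∧
      ∀ t, 2 * (deriv X₁ t) ^ 2 ≤ deriv (deriv X₂) t := by
  obtain ⟨Z₀, hZ₀, hZ₀n, hZ₀h⟩ := exists_smooth_ge h hh
  obtain ⟨X₁, hX₁, hX₁n, hX₁z, hX₁e⟩ := exists_cut hZ₀ hZ₀n R
  have hd1 : ContDiff ℝ ∞ (deriv X₁) := (contDiff_infty_iff_deriv.mp hX₁).2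
  have hdz : ∀ t ≤ R, deriv X₁ t = 0 := by
    have hlt : ∀ t < R, deriv X₁ t = 0 := by
      intro t ht
      have : X₁ =ᶠ[𝓝 t] fun _ => 0 := by
        filter_upwards [Iio_mem_nhds ht] with s hs
        exact hX₁z s (le_of_lt hs)
      rw [this.deriv_eq]
      simp
    intro t ht
    rcases ht.lt_or_eq with h1 | h1
    · exact hlt t h1
    · subst h1
      have hc : Tendsto (deriv X₁) (𝓝[<] t) (𝓝 (deriv X₁ t)) :=
        hd1.continuous.continuousAt.tendsto.mono_left nhdsWithin_le_nhds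
      have hc2 : Tendsto (deriv X₁) (𝓝[<] t) (𝓝 0) := by
        apply tendsto_const_nhds.congr'
        filter_upwards [self_mem_nhdsWithin] with s hs
        exact (hlt s hs).symm
      exact tendsto_nhds_unique hc hc2
  set Z : ℝ → ℝ := fun t => 2 * (deriv X₁ t) ^ 2 with hZdef
  have hZ : ContDiff ℝ ∞ Z := contDiff_const.mul (hd1.pow 2)
  have hZn : ∀ t, 0 ≤ Z t := fun t => by positivity
  have hZz : ∀ t ≤ R, Z t = 0 := fun t ht => by simp [hZdef, hdz t ht]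
  obtain ⟨hY, hYd⟩ := contDiff_integral hZ R
  set Y : ℝ → ℝ := fun t => ∫ s in R..t, Z s with hYdef
  have hYn : ∀ t, 0 ≤ Y t := fun t => integral_nonneg_all hZz hZn t
  have hYz : ∀ t ≤ R, Y t = 0 := fun t ht => integral_eq_zero_of_le hZz ht
  obtain ⟨hX, hXd⟩ := contDiff_integral hY R
  set X : ℝ → ℝ := fun t => ∫ s in R..t, Y s with hXdef
  have hXd' : deriv X = Y := funext hXd
  refine ⟨X₁, X, hX₁, hX, fun t ht => ⟨hX₁z t ht, integral_eq_zero_of_le hYz ht⟩, hX₁n,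
    fun t ht => ?_, fun t => ?_, fun t => ?_⟩
  · rw [hX₁e t ht]; exact hZ₀h t
  · rw [hXd']; exact hYn t
  · rw [hXd', hYd]

end Pool.Agent.Levi
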