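import Pool.Agent.Levi.KZero
import Pool.Agent.Levi.Growth
import Pool.Agent.Levi.Cutoff

/-!
# The completeness condition `HCond` for the Riemann domain `MM G q` (package K0B)
-/

set_option autoImplicit false
set_option linter.unusedSectionVars false

open Set Filter Topology MeasureTheory
open scoped ContDiff ComplexConjugate Manifold

namespace Pool.Agent.Levi

open Pool.Agent.MEP

/-! ### General facts on a Riemann domain -/

section general

variable {n : ℕ} {M : Type} [TopologicalSpace M] {π : M → (Fin n → ℂ)}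

theorem norm_single_le (j : Fin n) {c : ℂ} (hc : ‖c‖ ≤ 1) :
    ‖(Pi.single j c : Fin n → ℂ)‖ ≤ 1 := by
  rw [pi_norm_le_iff_of_nonneg zero_le_one]
  intro i
  by_cases hi : i = j
  · subst hi; simpa using hc
  · simp [hi]

theorem norm_dzb_ofReal_le {hπ : IsLocalHomeomorph π} {u : M → ℝ} (hu : RSmooth hπ u) (j : Fin n)
    (w : M) : ‖dzb hπ (fun y => (u y : ℂ)) j w‖ ≤ ‖fderiv ℝ (u ∘ hπ.localInverseAt w) (π w)‖ := by
  have key : ∀ c : ℂ, ‖c‖ ≤ 1 → ‖((rderiv hπ u (Pi.single j c) w : ℝ) : ℂ)‖ ≤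
      ‖fderiv ℝ (u ∘ hπ.localInverseAt w) (π w)‖ := by
    intro c hc
    rw [Complex.norm_real]
    calc ‖fderiv ℝ (u ∘ hπ.localInverseAt w) (π w) (Pi.single j c)‖
        ≤ ‖fderiv ℝ (u ∘ hπ.localInverseAt w) (π w)‖ * ‖(Pi.single j c : Fin n → ℂ)‖ :=
          ContinuousLinearMap.le_opNorm _ _
      _ ≤ ‖fderiv ℝ (u ∘ hπ.localInverseAt w) (π w)‖ * 1 := by
          gcongr
          exact norm_single_le j hc
      _ = _ := mul_one _
  unfold dzb
  rw [rderiv_ofReal hu, rderiv_ofReal hu]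
  have h1 := key 1 (by simp)
  have h2 := key Complex.I (by simp)
  calc ‖(1 / 2 : ℂ) * (((rderiv hπ u (Pi.single j 1) w : ℝ) : ℂ) +
        Complex.I * ((rderiv hπ u (Pi.single j Complex.I) w : ℝ) : ℂ))‖
      ≤ (1 / 2) * (‖((rderiv hπ u (Pi.single j 1) w : ℝ) : ℂ)‖ +
          ‖Complex.I * ((rderiv hπ u (Pi.single j Complex.I) w : ℝ) : ℂ)‖) := by
        rw [norm_mul]
        have : ‖(1 / 2 : ℂ)‖ = 1 / 2 := by norm_num
        rw [this]
        gcongr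
        exact norm_add_le _ _
    _ ≤ _ := by
        rw [norm_mul, Complex.norm_I, one_mul]
        linarith

theorem norm_sum_dz_sq {hπ : IsLocalHomeomorph π} {u : M → ℝ} (hu : RSmooth hπ u) (w : M)
    (ξ : Fin n → ℂ) : ‖∑ j, ξ j * dz hπ (fun y => (u y : ℂ)) j w‖ ^ 2 =
      (1 / 4) * ((fderiv ℝ (u ∘ hπ.localInverseAt w) (π w) ξ) ^ 2 +
        (fderiv ℝ (u ∘ hπ.localInverseAt w) (π w) (Complex.I • ξ)) ^ 2) := by
  set l : (Fin n → ℂ) →L[ℝ] ℝ := fderiv ℝ (u ∘ hπ.localInverseAt w) (π w) with hl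
  have h1 : ∀ j, dz hπ (fun y => (u y : ℂ)) j w =
      (1 / 2) * ((Complex.ofRealCLM.comp l) (Pi.single j 1) -
        Complex.I * (Complex.ofRealCLM.comp l) (Pi.single j Complex.I)) := by
    intro j
    unfold dz
    rw [rderiv_ofReal hu, rderiv_ofReal hu]
    rfl
  have h2 : ∑ j, ξ j * dz hπ (fun y => (u y : ℂ)) j w =
      (1 / 2) * (((l ξ : ℝ) : ℂ) - Complex.I * ((l (Complex.I • ξ) : ℝ) : ℂ)) := by
    have h3 := sum_holo (Complex.ofRealCLM.comp l) ξ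
    simp only [ContinuousLinearMap.comp_apply, Complex.ofRealCLM_apply] at h3 h1
    rw [← h3, Finset.mul_sum]
    refine Finset.sum_congr rfl fun j _ => ?_
    rw [h1]
    ring
  rw [h2, norm_mul, mul_pow, ← Complex.normSq_eq_norm_sq (((l ξ : ℝ) : ℂ) - _),
    Complex.normSq_apply]
  simp
  ring

/-- the derivative of a composition with a function of one real variable -/
theorem fderiv_comp_real {hπ : IsLocalHomeomorph π} {u : M → ℝ} (hu : RSmooth hπ u) {f : ℝ → ℝ}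
    (hf : ContDiff ℝ ∞ f) (w : M) :
    fderiv ℝ ((fun x => f (u x)) ∘ hπ.localInverseAt w) (π w) =
      deriv f (u w) • fderiv ℝ (u ∘ hπ.localInverseAt w) (π w) := by
  have h2 : (u ∘ hπ.localInverseAt w) (π w) = u w := by simp
  have h3 : HasDerivAt f (deriv f (u w)) ((u ∘ hπ.localInverseAt w) (π w)) := by
    rw [h2]; exact (hf.differentiable (by simp)).differentiableAt.hasDerivAt
  exact (h3.comp_hasFDerivAt (π w) (hu.differentiableAt w).hasFDerivAt).fderiv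

/-- the pair of functions `X₁ (ψ), X₂ (ψ)` for plurisubharmonic `ψ` -/
theorem two_norm_sq_le_levi {hπ : IsLocalHomeomorph π} {ψ : M → ℝ} (hψ : RSmooth hπ ψ)
    (hpsh : ∀ w ξ, 0 ≤ levi hπ ψ w ξ) {X₁ X₂ : ℝ → ℝ} (h1 : ContDiff ℝ ∞ X₁)
    (h2 : ContDiff ℝ ∞ X₂) (h3 : ∀ t, 0 ≤ deriv X₂ t)
    (h4 : ∀ t, 2 * (deriv X₁ t) ^ 2 ≤ deriv (deriv X₂) t) (w : M) (ξ : Fin n → ℂ) :
    2 * ‖∑ j, ξ j * dz hπ (fun y => ((X₁ (ψ y) : ℝ) : ℂ)) j w‖ ^ 2 ≤
      levi hπ (fun y => X₂ (ψ y)) w ξ := by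
  have e1 : RSmooth hπ (fun y => X₁ (ψ y)) := hψ.comp h1
  rw [norm_sum_dz_sq e1, fderiv_comp_real hψ h1, levi_eq_leviE]
  set v := ψ ∘ hπ.localInverseAt w with hv
  have hvw : v (π w) = ψ w := by simp [hv]
  have hvc : ContDiffAt ℝ 2 v (π w) := (hψ w).of_le (by norm_cast)
  have e2 : (fun y => X₂ (ψ y)) ∘ hπ.localInverseAt w = fun x => X₂ (v x) := rfl
  have hX2c : ContDiffAt ℝ 2 (fun x => X₂ (v x)) (π w) :=
    (h2.of_le (by norm_cast)).contDiffAt.comp (π w) hvc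
  have hd2 := contDiff_infty_iff_deriv.mp h2
  have hd3 := contDiff_infty_iff_deriv.mp hd2.2
  rw [e2, leviE_eq hX2c, LL_comp hvc (χ := X₂) (χ1 := deriv X₂) (χ2 := deriv (deriv X₂))
    (fun t => (hd2.1 t).hasDerivAt) (fun t => (hd3.1 t).hasDerivAt) ξ, hvw]
  have e3 : 0 ≤ LL v (π w) ξ := by
    have := hpsh w ξ
    rw [levi_eq_leviE, ← hv, leviE_eq hvc] at this
    linarith
  set a := fderiv ℝ v (π w) ξ
  set b := fderiv ℝ v (π w) (Complex.I • ξ)
  simp only [_root_.smul_apply, smul_eq_mul]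
  have e4 := mul_nonneg (h3 (ψ w)) e3
  have e5 := mul_le_mul_of_nonneg_right (h4 (ψ w)) (show 0 ≤ a ^ 2 + b ^ 2 by positivity)
  nlinarith

end general

/-! ### The cut-off function of one variable -/

/-- smooth cut-off: `1` for `t ≤ 1`, `0` for `t ≥ 2` -/
noncomputable def cut1 (t : ℝ) : ℝ := Real.smoothTransition (2 - t)

theorem cut1_contDiff : ContDiff ℝ ∞ cut1 :=
  Real.smoothTransition.contDiff.comp (contDiff_const.sub contDiff_id)

theorem cut1_nonneg (t : ℝ) : 0 ≤ cut1 t := Real.smoothTransition.nonneg _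

theorem cut1_le_one (t : ℝ) : cut1 t ≤ 1 := Real.smoothTransition.le_one _

theorem cut1_of_le {t : ℝ} (ht : t ≤ 1) : cut1 t = 1 :=
  Real.smoothTransition.one_of_one_le (by linarith)

theorem cut1_of_ge {t : ℝ} (ht : 2 ≤ t) : cut1 t = 0 :=
  Real.smoothTransition.zero_of_nonpos (by linarith)

theorem exists_bound_deriv_cut1 : ∃ A : ℝ, 0 ≤ A ∧ ∀ t, |deriv cut1 t| ≤ A := by
  have hc : Continuous (deriv cut1) := (contDiff_infty_iff_deriv.mp cut1_contDiff).2.continuous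
  have hs : HasCompactSupport (deriv cut1) := by
    refine HasCompactSupport.intro (isCompact_Icc (a := (1 : ℝ)) (b := 2)) fun t ht => ?_
    rw [mem_Icc, not_and_or, not_le, not_le] at ht
    rcases ht with h | h
    · have : cut1 =ᶠ[𝓝 t] fun _ => 1 := by
        filter_upwards [Iio_mem_nhds h] with s hs using cut1_of_le (le_of_lt hs)
      rw [this.deriv_eq]; simp
    · have : cut1 =ᶠ[𝓝 t] fun _ => 0 := by
        filter_upwards [Ioi_mem_nhds h] with s hs using cut1_of_ge (le_of_lt hs)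
      rw [this.deriv_eq]; simp
  obtain ⟨A, hA⟩ := hs.exists_bound_of_continuous hc
  exact ⟨A, (norm_nonneg _).trans (hA 0), fun t => hA t⟩

/-! ### Bounded geometry of `MM G q` -/

section geometry

variable {n : ℕ} {S : Type} [TopologicalSpace S] [T2Space S] [SecondCountableTopology S]
  [ChartedSpace (Fin n → ℂ) S] [IsManifold 𝓘(ℂ, Fin n → ℂ) ω S]
  {W : Type} [TopologicalSpace W]
  {q : W → S} {ρ : W → ℝ} {G : S → (Fin n → ℂ)}

theorem rsmooth_rho (hq : IsTame n q ρ)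
    (hG : MDifferentiable 𝓘(ℂ, Fin n → ℂ) 𝓘(ℂ, Fin n → ℂ) G) :
    RSmooth (isLocalHomeomorph_piM hG hq.localHomeo) (fun w : MM G q => ρ w) := by
  intro w
  obtain ⟨N, hN, hpN, hNs, C, hC⟩ := hq.sheets (q w)
  obtain ⟨σ, hσw, hσ, hσ'⟩ := hC w hpN
  obtain ⟨s, hs, hsc, hs1, hs2, hs3⟩ := exists_param hG hN hNs w hpN hσw hσ
    (fun x hx => (hσ' x hx).1)
  have hxs : q w ∈ (chartAt (Fin n → ℂ) (q w)).source := mem_chart_source _ _
  refine contDiffAt_comp_localInverseAt _ (chartAt (Fin n → ℂ) (q w)).open_target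
    (TT_differentiableOn hG (q w)) ((chartAt (Fin n → ℂ) (q w)).map_source hxs)
    ((TT_isInvertible_iff hG hxs).mpr w.2) hs hsc hs3 ?_
  refine (hσ' (q w) hpN).2.2.1.congr_of_eventuallyEq ?_
  filter_upwards [hs1] with z hz
  simp only [Function.comp_apply]
  rw [hz]

theorem local_bound (hq : IsTame n q ρ)
    (hG : MDifferentiable 𝓘(ℂ, Fin n → ℂ) 𝓘(ℂ, Fin n → ℂ) G) {ψ₀ : S → ℝ} {p : S}
    (hp : IsCoordinateAt G p)
    (hψ : ContDiffAt ℝ ∞ (ψ₀ ∘ (chartAt (Fin n → ℂ) p).symm) (chartAt (Fin n → ℂ) p p)) :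
    ∃ V ∈ 𝓝 p, ∃ B : ℝ, ∀ w : MM G q, q w ∈ V →
      ‖fderiv ℝ ((fun w : MM G q => ρ w) ∘
        (isLocalHomeomorph_piM hG hq.localHomeo).localInverseAt w) (piM G q w)‖ ≤ B ∧
      ‖fderiv ℝ ((fun w : MM G q => ψ₀ (q w)) ∘
        (isLocalHomeomorph_piM hG hq.localHomeo).localInverseAt w) (piM G q w)‖ ≤ B := by
  obtain ⟨N, hN, hpN, hNs, C, hC⟩ := hq.sheets p
  set e := chartAt (Fin n → ℂ) p with he
  have hps : p ∈ e.source := hNs hpN
  have hpt : e p ∈ e.target := e.map_source hps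
  -- continuity of the inverse of the derivative
  obtain ⟨A, hA⟩ := (TT_isInvertible_iff hG hps).mpr hp
  have hTc : ContDiffAt ℂ ∞ (TT G p) (e p) := by
    rw [contDiffAt_pi]
    intro i
    exact (contDiffOn_of_differentiableOn e.open_target
      (fun y hy => (differentiableWithinAt_pi.mp (TT_differentiableOn hG p y hy)) i)).contDiffAt
      (e.open_target.mem_nhds hpt)
  have hc1 : ContinuousAt (fderiv ℂ (TT G p)) (e p) :=
    (hTc.fderiv_right (m := ∞) (by norm_cast)).continuousAt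
  have hc2 : ContinuousAt (fun z => (fderiv ℂ (TT G p) z).inverse) (e p) := by
    refine ContinuousAt.comp (g := ContinuousLinearMap.inverse) ?_ hc1
    rw [← hA]
    exact (contDiffAt_map_inverse (𝕜 := ℂ) (n := 1) A).continuousAt
  have hev1 : ∀ᶠ z in 𝓝 (e p), ‖(fderiv ℂ (TT G p) z).inverse‖ <
      ‖(fderiv ℂ (TT G p) (e p)).inverse‖ + 1 :=
    hc2.norm.eventually (gt_mem_nhds (lt_add_one _))
  have hev2 : ∀ᶠ z in 𝓝 (e p), ‖fderiv ℝ (ψ₀ ∘ e.symm) z‖ < ‖fderiv ℝ (ψ₀ ∘ e.symm) (e p)‖ + 1 :=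
    (hψ.fderiv_right (m := ∞) (by norm_cast)).continuousAt.norm.eventually
      (gt_mem_nhds (lt_add_one _))
  have hev3 : ∀ᶠ z in 𝓝 (e p), ContDiffAt ℝ 1 (ψ₀ ∘ e.symm) z :=
    (hψ.of_le (m := 1) (by norm_cast)).eventually (by simp)
  set B₁ := ‖(fderiv ℂ (TT G p) (e p)).inverse‖ + 1 with hB₁
  set B₂ := ‖fderiv ℝ (ψ₀ ∘ e.symm) (e p)‖ + 1 with hB₂
  have hB₁0 : 0 ≤ B₁ := by positivity
  have hB₂0 : 0 ≤ B₂ := by positivity
  have hV : ∀ᶠ x in 𝓝 p, x ∈ N ∧ ‖(fderiv ℂ (TT G p) (e x)).inverse‖ < B₁ ∧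
      ‖fderiv ℝ (ψ₀ ∘ e.symm) (e x)‖ < B₂ ∧ ContDiffAt ℝ 1 (ψ₀ ∘ e.symm) (e x) := by
    have h1 := (e.continuousAt hps).eventually hev1
    have h2 := (e.continuousAt hps).eventually hev2
    have h3 := (e.continuousAt hps).eventually hev3
    filter_upwards [hN.mem_nhds hpN, h1, h2, h3] with x a b c d using ⟨a, b, c, d⟩
  refine ⟨_, hV, (|C| + B₂) * B₁, fun w hw => ?_⟩
  obtain ⟨hwN, hw1, hw2, hw3⟩ := hw
  obtain ⟨σ, hσw, hσ, hσ'⟩ := hC w hwN
  obtain ⟨s, hs, hsc, hs1, hs2, hs3⟩ := exists_param hG hN hNs w hwN hσw hσ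
    (fun x hx => (hσ' x hx).1)
  have hxs : q w ∈ e.source := hNs hwN
  have hinv := (TT_isInvertible_iff hG hxs).mpr w.2
  have hρs : (fun w : MM G q => ρ w) ∘ s =ᶠ[𝓝 (e (q w))] ρ ∘ σ ∘ e.symm := by
    filter_upwards [hs1] with z hz
    simp only [Function.comp_apply]
    rw [hz]
  have hψs : (fun w : MM G q => ψ₀ (q w)) ∘ s =ᶠ[𝓝 (e (q w))] ψ₀ ∘ e.symm := by
    filter_upwards [hs2] with z hz
    simp only [Function.comp_apply]
    rw [hz]
  constructor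
  · have h1 : ContDiffAt ℝ 1 ((fun w : MM G q => ρ w) ∘ s) (e (q w)) :=
      ((hσ' (q w) hwN).2.2.1.congr_of_eventuallyEq hρs).of_le (by norm_cast)
    refine (norm_fderiv_comp_localInverseAt_le' _ e.open_target
      (TT_differentiableOn hG p) (e.map_source hxs) hinv hs hsc hs3 h1).trans ?_
    rw [hρs.fderiv_eq]
    have h2 := (hσ' (q w) hwN).2.2.2.1
    have h3 := le_abs_self C
    apply mul_le_mul _ hw1.le (norm_nonneg _) (by positivity)
    linarith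
  · have h1 : ContDiffAt ℝ 1 ((fun w : MM G q => ψ₀ (q w)) ∘ s) (e (q w)) :=
      hw3.congr_of_eventuallyEq hψs
    refine (norm_fderiv_comp_localInverseAt_le' _ e.open_target
      (TT_differentiableOn hG p) (e.map_source hxs) hinv hs hsc hs3 h1).trans ?_
    rw [hψs.fderiv_eq]
    have h3 := abs_nonneg C
    apply mul_le_mul _ hw1.le (norm_nonneg _) (by positivity)
    linarith

theorem compact_bound (hq : IsTame n q ρ)
    (hG : MDifferentiable 𝓘(ℂ, Fin n → ℂ) 𝓘(ℂ, Fin n → ℂ) G) {ψ₀ : S → ℝ}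
    (hψ : ∀ p, IsCoordinateAt G p →
      ContDiffAt ℝ ∞ (ψ₀ ∘ (chartAt (Fin n → ℂ) p).symm) (chartAt (Fin n → ℂ) p p))
    {K : Set S} (hK : IsCompact K) (hKG : ∀ x ∈ K, IsCoordinateAt G x) :
    ∃ B : ℝ, 0 ≤ B ∧ ∀ w : MM G q, q w ∈ K →
      ‖fderiv ℝ ((fun w : MM G q => ρ w) ∘
        (isLocalHomeomorph_piM hG hq.localHomeo).localInverseAt w) (piM G q w)‖ ≤ B ∧
      ‖fderiv ℝ ((fun w : MM G q => ψ₀ (q w)) ∘
        (isLocalHomeomorph_piM hG hq.localHomeo).localInverseAt w) (piM G q w)‖ ≤ B := by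
  have h : ∀ p ∈ K, ∃ V ∈ 𝓝 p, ∃ B : ℝ, ∀ w : MM G q, q w ∈ V →
      ‖fderiv ℝ ((fun w : MM G q => ρ w) ∘
        (isLocalHomeomorph_piM hG hq.localHomeo).localInverseAt w) (piM G q w)‖ ≤ B ∧
      ‖fderiv ℝ ((fun w : MM G q => ψ₀ (q w)) ∘
        (isLocalHomeomorph_piM hG hq.localHomeo).localInverseAt w) (piM G q w)‖ ≤ B :=
    fun p hp => local_bound hq hG (hKG p hp) (hψ p (hKG p hp))
  choose! V hV B hB using h
  obtain ⟨t, htK, ht⟩ := hK.elim_nhds_subcover V hV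
  refine ⟨∑ p ∈ t, |B p|, Finset.sum_nonneg fun _ _ => abs_nonneg _, fun w hw => ?_⟩
  obtain ⟨p, hp, hwp⟩ := mem_iUnion₂.mp (ht hw)
  have h1 : B p ≤ ∑ p ∈ t, |B p| := (le_abs_self _).trans
    (Finset.single_le_sum (f := fun p => |B p|) (fun _ _ => abs_nonneg _) hp)
  have h2 := hB p (htK p hp) w hwp
  exact ⟨h2.1.trans h1, h2.2.trans h1⟩

/-- the gradients are bounded by a monotone function of the exhaustion function -/
theorem monotone_bound (hq : IsTame n q ρ)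
    (hG : MDifferentiable 𝓘(ℂ, Fin n → ℂ) 𝓘(ℂ, Fin n → ℂ) G) {ψ₀ : S → ℝ}
    (hψ : ∀ p, IsCoordinateAt G p →
      ContDiffAt ℝ ∞ (ψ₀ ∘ (chartAt (Fin n → ℂ) p).symm) (chartAt (Fin n → ℂ) p p))
    (hcpt : ∀ c : ℝ, IsCompact {x | IsCoordinateAt G x ∧ ψ₀ x ≤ c}) :
    ∃ Φ : ℝ → ℝ, Monotone Φ ∧ (∀ t, 0 ≤ Φ t) ∧ ∀ w : MM G q,
      ‖fderiv ℝ ((fun w : MM G q => ρ w) ∘
        (isLocalHomeomorph_piM hG hq.localHomeo).localInverseAt w) (piM G q w)‖ ≤ Φ (ψ₀ (q w)) ∧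
      ‖fderiv ℝ ((fun w : MM G q => ψ₀ (q w)) ∘
        (isLocalHomeomorph_piM hG hq.localHomeo).localInverseAt w) (piM G q w)‖ ≤
        Φ (ψ₀ (q w)) := by
  have h : ∀ k : ℕ, ∃ B : ℝ, 0 ≤ B ∧ ∀ w : MM G q, q w ∈ {x | IsCoordinateAt G x ∧ ψ₀ x ≤ k} →
      ‖fderiv ℝ ((fun w : MM G q => ρ w) ∘
        (isLocalHomeomorph_piM hG hq.localHomeo).localInverseAt w) (piM G q w)‖ ≤ B ∧
      ‖fderiv ℝ ((fun w : MM G q => ψ₀ (q w)) ∘
        (isLocalHomeomorph_piM hG hq.localHomeo).localInverseAt w) (piM G q w)‖ ≤ B :=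
    fun k => compact_bound hq hG hψ (hcpt k) (fun x hx => hx.1)
  choose B hB0 hB using h
  refine ⟨fun t => ∑ i ∈ Finset.range (⌈t⌉₊ + 1), B i, ?_, ?_, ?_⟩
  · intro s t hst
    apply Finset.sum_le_sum_of_subset_of_nonneg
    · intro i hi
      rw [Finset.mem_range] at hi ⊢
      have := Nat.ceil_mono hst
      omega
    · intro i _ _
      exact hB0 i
  · intro t
    exact Finset.sum_nonneg fun i _ => hB0 i
  · intro w
    have h1 : B ⌈ψ₀ (q w)⌉₊ ≤ ∑ i ∈ Finset.range (⌈ψ₀ (q w)⌉₊ + 1), B i :=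
      Finset.single_le_sum (f := B) (fun i _ => hB0 i) (by simp)
    have h2 := hB ⌈ψ₀ (q w)⌉₊ w ⟨w.2, Nat.le_ceil _⟩
    exact ⟨h2.1.trans h1, h2.2.trans h1⟩

theorem compact_sub (hq : IsTame n q ρ) {ψ₀ : S → ℝ}
    (hcpt : ∀ c : ℝ, IsCompact {x | IsCoordinateAt G x ∧ ψ₀ x ≤ c}) (a b : ℝ) :
    IsCompact {w : MM G q | ρ w ≤ a ∧ ψ₀ (q w) ≤ b} := by
  rw [Subtype.isCompact_iff]
  have h := hq.proper _ (hcpt b) a
  convert h using 1
  ext w
  constructor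
  · rintro ⟨w', ⟨h1, h2⟩, rfl⟩
    exact ⟨⟨w'.2, h2⟩, h1⟩
  · rintro ⟨⟨h3, h2⟩, h1⟩
    exact ⟨⟨w, h3⟩, ⟨h1, h2⟩, rfl⟩

theorem hcond_piM_of [T2Space W] (hq : IsTame n q ρ)
    (hG : MDifferentiable 𝓘(ℂ, Fin n → ℂ) 𝓘(ℂ, Fin n → ℂ) G) {ψ₀ : S → ℝ}
    (hψ : ∀ p, IsCoordinateAt G p →
      ContDiffAt ℝ ∞ (ψ₀ ∘ (chartAt (Fin n → ℂ) p).symm) (chartAt (Fin n → ℂ) p p))
    (hcpt : ∀ c : ℝ, IsCompact {x | IsCoordinateAt G x ∧ ψ₀ x ≤ c})
    (hψs : RSmooth (isLocalHomeomorph_piM hG hq.localHomeo) (fun w : MM G q => ψ₀ (q w)))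
    (hpsh : ∀ (w : MM G q) (ξ : Fin n → ℂ), 0 ≤
        levi (isLocalHomeomorph_piM hG hq.localHomeo) (fun w : MM G q => ψ₀ (q w)) w ξ) :
    HCond (isLocalHomeomorph_piM hG hq.localHomeo) := by
  intro K hK
  set hπ := isLocalHomeomorph_piM hG hq.localHomeo with hπd
  have hρs : RSmooth hπ (fun w : MM G q => ρ w) := rsmooth_rho hq hG
  obtain ⟨Φ, hΦm, hΦ0, hΦ⟩ := monotone_bound hq hG hψ hcpt
  obtain ⟨A, hA0, hA⟩ := exists_bound_deriv_cut1
  -- the bound on `K`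
  obtain ⟨R, hR⟩ : ∃ R : ℝ, ∀ w ∈ K, ψ₀ (q w) < R := by
    obtain ⟨R, hR⟩ := hK.bddAbove_image hψs.continuous.continuousOn
    exact ⟨R + 1, fun w hw => (hR (mem_image_of_mem _ hw)).trans_lt (lt_add_one R)⟩
  set h : ℝ → ℝ := fun t => n * (2 * A * Φ t) ^ 2 with hh
  have hhm : Monotone h := by
    intro s t hst
    have h1 := hΦm hst
    have h2 := hΦ0 s
    simp only [hh]
    gcongr
  obtain ⟨X₁, X₂, hX₁, hX₂, hz, hX₁0, hX₁h, hX₂0, hX₁₂⟩ := exists_growth_pair h hhm R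
  set N : ℝ := max 1 (h (R + 1)) with hN
  have hN1 : 1 ≤ N := le_max_left _ _
  have hNh : h (R + 1) ≤ N := le_max_right _ _
  have hkey : ∀ (ν : ℕ) (t : ℝ), h t / (ν + N) ^ 2 ≤ Real.exp (X₁ t) := by
    intro ν t
    have hν : (0 : ℝ) ≤ ν := Nat.cast_nonneg ν
    have h1 : 1 ≤ (ν + N) ^ 2 := by nlinarith
    have h0 : 0 ≤ h t := by simp only [hh]; positivity
    rcases le_total (R + 1) t with ht | ht
    · calc h t / (ν + N) ^ 2 ≤ h t := div_le_self h0 h1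
        _ ≤ X₁ t := hX₁h t ht
        _ ≤ Real.exp (X₁ t) := by linarith [Real.add_one_le_exp (X₁ t)]
    · calc h t / (ν + N) ^ 2 ≤ 1 := by
            rw [div_le_one (by positivity)]
            have := hhm ht
            nlinarith
        _ ≤ Real.exp (X₁ t) := Real.one_le_exp (hX₁0 t)
  have hsm : ∀ ν : ℕ, ContDiff ℝ ∞ (fun t : ℝ => cut1 (t / (ν + N))) := fun ν =>
    cut1_contDiff.comp (contDiff_id.div_const _)
  have hder : ∀ (ν : ℕ) (t : ℝ), |deriv (fun t : ℝ => cut1 (t / (ν + N))) t| ≤ A / (ν + N) := by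
    intro ν t
    have hν : (0 : ℝ) ≤ ν := Nat.cast_nonneg ν
    have h1 : HasDerivAt (fun t : ℝ => cut1 (t / (ν + N)))
        (deriv cut1 (t / (ν + N)) * (1 / (ν + N))) t :=
      ((cut1_contDiff.differentiable (by simp)).differentiableAt.hasDerivAt).comp t
        ((hasDerivAt_id t).div_const _)
    rw [h1.deriv, abs_mul, abs_of_nonneg (show (0 : ℝ) ≤ 1 / (ν + N) by positivity), mul_one_div]
    gcongr
    exact hA _
  refine ⟨fun w => X₁ (ψ₀ (q w)), fun w => X₂ (ψ₀ (q w)),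
    fun ν w => cut1 (ρ w / (ν + N)) * cut1 (ψ₀ (q w) / (ν + N)), hψs.comp hX₁, hψs.comp hX₂,
    fun ν => (hρs.comp (hsm ν)).mul (hψs.comp (hsm ν)), ?_, ?_, ?_, ?_, ?_, ?_⟩
  · have hop : IsOpen {w : MM G q | ψ₀ (q w) < R} := isOpen_lt hψs.continuous continuous_const
    filter_upwards [hop.mem_nhdsSet.mpr hR] with w hw
    exact hz _ (le_of_lt hw)
  · intro ν
    refine HasCompactSupport.intro (compact_sub hq hcpt (2 * (ν + N)) (2 * (ν + N))) ?_
    intro w hw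
    have hν : (0 : ℝ) ≤ ν := Nat.cast_nonneg ν
    have hpos : 0 < ν + N := by linarith
    rw [mem_ofPred_eq, not_and_or, not_le, not_le] at hw
    rcases hw with hw | hw
    · simp only
      rw [cut1_of_ge (t := ρ w / (ν + N)) (by rw [le_div_iff₀ hpos]; exact hw.le), zero_mul]
    · simp only
      rw [cut1_of_ge (t := ψ₀ (q w) / (ν + N)) (by rw [le_div_iff₀ hpos]; exact hw.le), mul_zero]
  · intro ν w
    exact ⟨mul_nonneg (cut1_nonneg _) (cut1_nonneg _),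
      mul_le_one₀ (cut1_le_one _) (cut1_nonneg _) (cut1_le_one _)⟩
  · intro L hL
    obtain ⟨b₁, hb₁⟩ := hL.bddAbove_image hρs.continuous.continuousOn
    obtain ⟨b₂, hb₂⟩ := hL.bddAbove_image hψs.continuous.continuousOn
    filter_upwards [tendsto_natCast_atTop_atTop.eventually_gt_atTop (max b₁ b₂)] with ν hν
    have hν0 : (0 : ℝ) ≤ ν := Nat.cast_nonneg ν
    have hpos : 0 < ν + N := by linarith
    have hop : IsOpen {w : MM G q | ρ w < ν + N ∧ ψ₀ (q w) < ν + N} :=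
      (isOpen_lt hρs.continuous continuous_const).inter (isOpen_lt hψs.continuous continuous_const)
    have hLs : L ⊆ {w : MM G q | ρ w < ν + N ∧ ψ₀ (q w) < ν + N} := by
      intro w hw
      have h1 : ρ w ≤ b₁ := hb₁ (mem_image_of_mem _ hw)
      have h2 : ψ₀ (q w) ≤ b₂ := hb₂ (mem_image_of_mem _ hw)
      have h3 := le_max_left b₁ b₂
      have h4 := le_max_right b₁ b₂
      exact ⟨by linarith, by linarith⟩
    filter_upwards [hop.mem_nhdsSet.mpr hLs] with w hw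
    rw [cut1_of_le (by rw [div_le_one hpos]; exact hw.1.le),
      cut1_of_le (by rw [div_le_one hpos]; exact hw.2.le), one_mul]
  · intro ν w
    have hν : (0 : ℝ) ≤ ν := Nat.cast_nonneg ν
    have hpos : 0 < ν + N := by linarith
    have hηs : RSmooth hπ (fun w : MM G q => cut1 (ρ w / (ν + N)) * cut1 (ψ₀ (q w) / (ν + N))) :=
      (hρs.comp (hsm ν)).mul (hψs.comp (hsm ν))
    have hb : ‖fderiv ℝ ((fun w : MM G q => cut1 (ρ w / (ν + N)) * cut1 (ψ₀ (q w) / (ν + N))) ∘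
        hπ.localInverseAt w) (piM G q w)‖ ≤ 2 * A * Φ (ψ₀ (q w)) / (ν + N) := by
      have e1 : (fun w : MM G q => cut1 (ρ w / (ν + N)) * cut1 (ψ₀ (q w) / (ν + N))) ∘
          hπ.localInverseAt w = fun z =>
            ((fun w : MM G q => cut1 (ρ w / (ν + N))) ∘ hπ.localInverseAt w) z *
            ((fun w : MM G q => cut1 (ψ₀ (q w) / (ν + N))) ∘ hπ.localInverseAt w) z := rfl
      have d1 : DifferentiableAt ℝ ((fun w : MM G q => cut1 (ρ w / (ν + N))) ∘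
          hπ.localInverseAt w) (piM G q w) := (hρs.comp (hsm ν)).differentiableAt w
      have d2 : DifferentiableAt ℝ ((fun w : MM G q => cut1 (ψ₀ (q w) / (ν + N))) ∘
          hπ.localInverseAt w) (piM G q w) := (hψs.comp (hsm ν)).differentiableAt w
      rw [e1, fderiv_fun_mul d1 d2]
      have f1 := fderiv_comp_real hρs (hsm ν) w
      have f2 := fderiv_comp_real hψs (hsm ν) w
      have g1 : ‖fderiv ℝ ((fun w : MM G q => cut1 (ρ w / (ν + N))) ∘ hπ.localInverseAt w)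
          (piM G q w)‖ ≤ A / (ν + N) * Φ (ψ₀ (q w)) := by
        rw [f1, norm_smul]
        exact mul_le_mul (hder ν _) (hΦ w).1 (norm_nonneg _) (by positivity)
      have g2 : ‖fderiv ℝ ((fun w : MM G q => cut1 (ψ₀ (q w) / (ν + N))) ∘ hπ.localInverseAt w)
          (piM G q w)‖ ≤ A / (ν + N) * Φ (ψ₀ (q w)) := by
        rw [f2, norm_smul]
        exact mul_le_mul (hder ν _) (hΦ w).2 (norm_nonneg _) (by positivity)
      refine (norm_add_le _ _).trans ?_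
      rw [norm_smul, norm_smul]
      have k1 : ∀ t : ℝ, ‖cut1 t‖ ≤ 1 := fun t => by
        rw [Real.norm_eq_abs, abs_of_nonneg (cut1_nonneg t)]; exact cut1_le_one t
      have l1 := mul_le_mul (k1 (ρ (hπ.localInverseAt w (piM G q w)) / (ν + N))) g2
        (norm_nonneg _) zero_le_one
      have l2 := mul_le_mul (k1 (ψ₀ (q (hπ.localInverseAt w (piM G q w))) / (ν + N))) g1
        (norm_nonneg _) zero_le_one
      calc _ ≤ 1 * (A / (ν + N) * Φ (ψ₀ (q w))) + 1 * (A / (ν + N) * Φ (ψ₀ (q w))) :=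
            add_le_add l1 l2
        _ = 2 * A * Φ (ψ₀ (q w)) / (ν + N) := by ring
    have hb' : ∀ j, ‖dzb hπ (fun y : MM G q =>
        ((cut1 (ρ y / (ν + N)) * cut1 (ψ₀ (q y) / (ν + N)) : ℝ) : ℂ)) j w‖ ^ 2 ≤
        (2 * A * Φ (ψ₀ (q w)) / (ν + N)) ^ 2 := by
      intro j
      have := (norm_dzb_ofReal_le hηs j w).trans hb
      gcongr
    calc ∑ j, ‖dzb hπ (fun y : MM G q =>
        ((cut1 (ρ y / (ν + N)) * cut1 (ψ₀ (q y) / (ν + N)) : ℝ) : ℂ)) j w‖ ^ 2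
        ≤ ∑ _j : Fin n, (2 * A * Φ (ψ₀ (q w)) / (ν + N)) ^ 2 := Finset.sum_le_sum fun j _ => hb' j
      _ = h (ψ₀ (q w)) / (ν + N) ^ 2 := by
          simp only [Finset.sum_const, Finset.card_univ, Fintype.card_fin, nsmul_eq_mul, hh]
          rw [div_pow, mul_div_assoc]
      _ ≤ Real.exp (X₁ (ψ₀ (q w))) := hkey ν _
  · intro w ξ
    exact two_norm_sq_le_levi hψs hpsh hX₁ hX₂ hX₂0 hX₁₂ w ξ

end geometry

end Pool.Agent.Levi
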