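import Pool.Agent.Levi.Calculus

/-!
# The flat measure of a Riemann domain
-/

set_option autoImplicit false

open Set Filter Topology MeasureTheory
open scoped ContDiff ComplexConjugate ENNReal

namespace Pool.Agent.Levi

section

variable {n : ℕ} {M : Type} [TopologicalSpace M] {π : M → (Fin n → ℂ)}

theorem isOpenEmbedding_subtype (hπ : IsLocalHomeomorph π) {U : Set M} (hU : IsOpen U)
    (hinj : InjOn π U) : IsOpenEmbedding (fun y : U => π y) := by
  have h1 : IsLocalHomeomorph (π ∘ (Subtype.val : U → M)) :=
    hπ.comp hU.isOpenEmbedding_subtypeVal.isLocalHomeomorph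
  refine h1.isOpenEmbedding_of_injective ?_
  intro a b hab
  exact Subtype.ext (hinj a.2 b.2 hab)

variable [MeasurableSpace M] [BorelSpace M]

theorem measurableEmbedding_subtype (hπ : IsLocalHomeomorph π) {U : Set M} (hU : IsOpen U)
    (hinj : InjOn π U) : MeasurableEmbedding (fun y : U => π y) :=
  (isOpenEmbedding_subtype hπ hU hinj).measurableEmbedding

theorem measurableSet_image (hπ : IsLocalHomeomorph π) {U : Set M} (hU : IsOpen U)
    (hinj : InjOn π U) {A : Set M} (hA : A ⊆ U) (hAm : MeasurableSet A) :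
    MeasurableSet (π '' A) := by
  have h := (measurableEmbedding_subtype hπ hU hinj).measurableSet_image'
    (measurable_subtype_coe hAm : MeasurableSet (Subtype.val ⁻¹' A : Set U))
  convert h using 1
  ext z
  constructor
  · rintro ⟨y, hy, rfl⟩
    exact ⟨⟨y, hA hy⟩, hy, rfl⟩
  · rintro ⟨y, hy, rfl⟩
    exact ⟨y, hy, rfl⟩

theorem map_restrict_eq {μ : Measure M} (hπ : IsLocalHomeomorph π) (hμ : IsFlatMeasure π μ)
    {U : Set M} (hU : IsOpen U) (hinj : InjOn π U) :
    (μ.restrict U).map π = volume.restrict (π '' U) := by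
  ext B hB
  have hm : Measurable π := hπ.continuous.measurable
  rw [Measure.map_apply hm hB, Measure.restrict_apply (hm hB), Measure.restrict_apply hB,
    hμ.apply_eq U hU hinj _ inter_subset_right ((hm hB).inter hU.measurableSet)]
  congr 1
  ext z
  constructor
  · rintro ⟨y, ⟨hy1, hy2⟩, rfl⟩
    exact ⟨hy1, y, hy2, rfl⟩
  · rintro ⟨hz, y, hy, rfl⟩
    exact ⟨y, ⟨hz, hy⟩, rfl⟩

theorem map_comap_eq {μ : Measure M} (hπ : IsLocalHomeomorph π) (hμ : IsFlatMeasure π μ)
    {U : Set M} (hU : IsOpen U) (hinj : InjOn π U) :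
    (μ.comap (Subtype.val : U → M)).map (fun y : U => π y) = volume.restrict (π '' U) := by
  rw [← map_restrict_eq hπ hμ hU hinj, ← map_comap_subtype_coe hU.measurableSet,
    Measure.map_map hπ.continuous.measurable measurable_subtype_coe]
  rfl

/-- change of variables by `π` on a `π`-injective open set (no measurability required) -/
theorem setIntegral_comp_pi {E : Type*} [NormedAddCommGroup E] [NormedSpace ℝ E] {μ : Measure M}
    (hπ : IsLocalHomeomorph π) (hμ : IsFlatMeasure π μ)
    {U : Set M} (hU : IsOpen U) (hinj : InjOn π U) (G : (Fin n → ℂ) → E) :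
    ∫ x in U, G (π x) ∂μ = ∫ z in π '' U, G z := by
  rw [← map_comap_eq hπ hμ hU hinj, (measurableEmbedding_subtype hπ hU hinj).integral_map,
    ← map_comap_subtype_coe hU.measurableSet,
    (MeasurableEmbedding.subtype_coe hU.measurableSet).integral_map]

theorem setLIntegral_comp_pi {μ : Measure M}
    (hπ : IsLocalHomeomorph π) (hμ : IsFlatMeasure π μ)
    {U : Set M} (hU : IsOpen U) (hinj : InjOn π U) (G : (Fin n → ℂ) → ℝ≥0∞) :
    ∫⁻ x in U, G (π x) ∂μ = ∫⁻ z in π '' U, G z := by
  rw [← map_comap_eq hπ hμ hU hinj, (measurableEmbedding_subtype hπ hU hinj).lintegral_map,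
    ← map_comap_subtype_coe hU.measurableSet,
    (MeasurableEmbedding.subtype_coe hU.measurableSet).lintegral_map]

theorem integrableOn_comp_pi_iff {E : Type*} [NormedAddCommGroup E] {μ : Measure M}
    (hπ : IsLocalHomeomorph π) (hμ : IsFlatMeasure π μ)
    {U : Set M} (hU : IsOpen U) (hinj : InjOn π U) (G : (Fin n → ℂ) → E) :
    IntegrableOn (fun x => G (π x)) U μ ↔ IntegrableOn G (π '' U) := by
  rw [IntegrableOn, IntegrableOn, ← map_comap_eq hπ hμ hU hinj,
    (measurableEmbedding_subtype hπ hU hinj).integrable_map_iff,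
    ← map_comap_subtype_coe hU.measurableSet,
    (MeasurableEmbedding.subtype_coe hU.measurableSet).integrable_map_iff]
  rfl

omit [MeasurableSpace M] [BorelSpace M] in
theorem image_target (hπ : IsLocalHomeomorph π) (x : M) :
    π '' (hπ.localInverseAt x).target = (hπ.localInverseAt x).source := by
  ext z
  constructor
  · rintro ⟨y, hy, rfl⟩
    exact pi_mem hπ hy
  · intro hz
    exact ⟨_, (hπ.localInverseAt x).map_source hz, hπ.apply_localInverseAt_of_mem hz⟩

/-- integral over a chart domain, read in the chart -/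
theorem setIntegral_chart {E : Type*} [NormedAddCommGroup E] [NormedSpace ℝ E] {μ : Measure M}
    (hπ : IsLocalHomeomorph π) (hμ : IsFlatMeasure π μ) (x : M) (G : M → E) :
    ∫ y in (hπ.localInverseAt x).target, G y ∂μ =
      ∫ z in (hπ.localInverseAt x).source, G (hπ.localInverseAt x z) := by
  rw [← image_target hπ x, ← setIntegral_comp_pi hπ hμ (hπ.localInverseAt x).open_target
    hπ.injOn_localInverseAt_target (fun z => G (hπ.localInverseAt x z))]
  refine setIntegral_congr_fun (hπ.localInverseAt x).open_target.measurableSet ?_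
  intro y hy
  simp only
  rw [inv_apply hπ hy]

theorem setLIntegral_chart {μ : Measure M}
    (hπ : IsLocalHomeomorph π) (hμ : IsFlatMeasure π μ) (x : M) (G : M → ℝ≥0∞) :
    ∫⁻ y in (hπ.localInverseAt x).target, G y ∂μ =
      ∫⁻ z in (hπ.localInverseAt x).source, G (hπ.localInverseAt x z) := by
  rw [← image_target hπ x, ← setLIntegral_comp_pi hπ hμ (hπ.localInverseAt x).open_target
    hπ.injOn_localInverseAt_target (fun z => G (hπ.localInverseAt x z))]
  refine setLIntegral_congr_fun (hπ.localInverseAt x).open_target.measurableSet ?_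
  intro y hy
  simp only
  rw [inv_apply hπ hy]

theorem integrableOn_chart_iff {E : Type*} [NormedAddCommGroup E] {μ : Measure M}
    (hπ : IsLocalHomeomorph π) (hμ : IsFlatMeasure π μ) (x : M) (G : M → E) :
    IntegrableOn G (hπ.localInverseAt x).target μ ↔
      IntegrableOn (fun z => G (hπ.localInverseAt x z)) (hπ.localInverseAt x).source := by
  rw [← image_target hπ x, ← integrableOn_comp_pi_iff hπ hμ (hπ.localInverseAt x).open_target
    hπ.injOn_localInverseAt_target (fun z => G (hπ.localInverseAt x z))]
  refine integrableOn_congr_fun ?_ (hπ.localInverseAt x).open_target.measurableSet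
  intro y hy
  simp only
  rw [inv_apply hπ hy]

/-! ### Existence -/

/-- (L1a) existence of the flat measure -/
theorem exists_isFlatMeasure_aux [SecondCountableTopology M] (hπ : IsLocalHomeomorph π) :
    ∃ μ : Measure M, IsFlatMeasure π μ := by
  classical
  rcases isEmpty_or_nonempty M with hM | ⟨⟨x0⟩⟩
  · refine ⟨0, ⟨fun U _ _ A _ _ => ?_⟩⟩
    have : A = ∅ := Set.eq_empty_of_isEmpty A
    simp [this]
  -- a countable cover by chart domains
  obtain ⟨s, hs, hcov⟩ := TopologicalSpace.countable_cover_nhds
    (f := fun x : M => (hπ.localInverseAt x).target)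
    (fun x => (hπ.localInverseAt x).open_target.mem_nhds hπ.self_mem_localInverseAt_target)
  have hsne : s.Nonempty := by
    by_contra hne
    rw [Set.not_nonempty_iff_eq_empty] at hne
    rw [hne] at hcov
    simp only [mem_empty_iff_false, iUnion_of_empty, iUnion_empty] at hcov
    exact absurd (hcov ▸ mem_univ x0) (notMem_empty x0)
  obtain ⟨e, he⟩ := hs.exists_eq_range hsne
  set U : ℕ → Set M := fun i => (hπ.localInverseAt (e i)).target with hUdef
  have hUo : ∀ i, IsOpen (U i) := fun i => (hπ.localInverseAt (e i)).open_target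
  have hUi : ∀ i, InjOn π (U i) := fun i => hπ.injOn_localInverseAt_target
  have hUcov : ⋃ i, U i = univ := by
    rw [← hcov, he]
    simp [hUdef]
  set D : ℕ → Set M := disjointed U with hDdef
  have hDU : ∀ i, D i ⊆ U i := fun i => disjointed_subset U i
  have hDm : ∀ i, MeasurableSet (D i) := fun i =>
    MeasurableSet.disjointed (fun i => (hUo i).measurableSet) i
  have hDdisj : Pairwise (Function.onFun Disjoint D) := disjoint_disjointed U
  have hDcov : ⋃ i, D i = univ := by rw [hDdef, iUnion_disjointed, hUcov]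
  -- the measures
  let ν : ℕ → Measure M := fun i => ((volume : Measure (Fin n → ℂ)).comap
    (fun y : U i => π y)).map Subtype.val
  have hν : ∀ i, ∀ A, MeasurableSet A → A ⊆ U i → ν i A = volume (π '' A) := by
    intro i A hA hAU
    have h1 : ν i A = ((volume : Measure (Fin n → ℂ)).comap (fun y : U i => π y))
        (Subtype.val ⁻¹' A) := Measure.map_apply measurable_subtype_coe hA
    rw [h1, (measurableEmbedding_subtype hπ (hUo i) (hUi i)).comap_apply]
    congr 1
    ext z
    constructor
    · rintro ⟨y, hy, rfl⟩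
      exact ⟨y, hy, rfl⟩
    · rintro ⟨y, hy, rfl⟩
      exact ⟨⟨y, hAU hy⟩, hy, rfl⟩
  refine ⟨Measure.sum fun i => (ν i).restrict (D i), ⟨fun V hV hVi A hAV hA => ?_⟩⟩
  rw [Measure.sum_apply _ hA]
  have h2 : ∀ i, ((ν i).restrict (D i)) A = volume (π '' (A ∩ D i)) := by
    intro i
    rw [Measure.restrict_apply hA, hν i _ (hA.inter (hDm i))
      (inter_subset_right.trans (hDU i))]
  simp_rw [h2]
  rw [← measure_iUnion]
  · congr 1
    rw [← image_iUnion, ← inter_iUnion, hDcov, inter_univ]
  · intro i j hij
    rw [Function.onFun, Set.disjoint_left]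
    rintro z ⟨y, ⟨hyA, hyD⟩, rfl⟩ ⟨y', ⟨hyA', hyD'⟩, h⟩
    have : y' = y := hVi (hAV hyA') (hAV hyA) h
    subst this
    exact Set.disjoint_left.mp (hDdisj hij) hyD hyD'
  · intro i
    exact measurableSet_image hπ hV hVi (inter_subset_left.trans hAV) (hA.inter (hDm i))

/-! ### Finiteness on compact sets -/

theorem IsFlatMeasure.isLocallyFinite {μ : Measure M} (hπ : IsLocalHomeomorph π)
    (hμ : IsFlatMeasure π μ) : IsLocallyFiniteMeasure μ := by
  refine ⟨fun x => ?_⟩
  obtain ⟨r, hr, hball⟩ := Metric.isOpen_iff.mp (hπ.localInverseAt x).open_source (π x)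
    hπ.apply_self_mem_localInverseAt_source
  refine ⟨(hπ.localInverseAt x).target ∩ π ⁻¹' Metric.ball (π x) r, ?_, ?_⟩
  · exact inter_mem ((hπ.localInverseAt x).open_target.mem_nhds hπ.self_mem_localInverseAt_target)
      (hπ.continuous.continuousAt (Metric.ball_mem_nhds _ hr))
  · rw [hμ.apply_eq _ (hπ.localInverseAt x).open_target hπ.injOn_localInverseAt_target _
      inter_subset_left ((hπ.localInverseAt x).open_target.measurableSet.inter
        (Metric.isOpen_ball.preimage hπ.continuous).measurableSet)]
    refine lt_of_le_of_lt (measure_mono ?_) (Metric.isBounded_ball (x := π x) (r := r)).measure_lt_top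
    rintro _ ⟨y, hy, rfl⟩
    exact hy.2

/-- (L1b) the flat measure is finite on compact sets -/
theorem IsFlatMeasure.lt_top {μ : Measure M} (hπ : IsLocalHomeomorph π) (hμ : IsFlatMeasure π μ)
    {K : Set M} (hK : IsCompact K) : μ K < ⊤ := by
  have := hμ.isLocallyFinite hπ
  exact hK.measure_lt_top

end

section

variable {n : ℕ} {M : Type} [TopologicalSpace M] {π : M → (Fin n → ℂ)}

/-- (L1a) existence of the flat measure -/
theorem exists_isFlatMeasure [T2Space M] [SecondCountableTopology M] [MeasurableSpace M]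
    [BorelSpace M] (hπ : IsLocalHomeomorph π) : ∃ μ : Measure M, IsFlatMeasure π μ :=
  exists_isFlatMeasure_aux hπ

end

end Pool.Agent.Levi
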