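import Pool.Agent.Levi.Cutoff
import Pool.Agent.Levi.FlatMeasure

/-!
# Integration by parts and the basic inequality on a Riemann domain
-/

set_option autoImplicit false
set_option linter.unusedSectionVars false

open Set Filter Topology MeasureTheory
open scoped ContDiff ComplexConjugate ENNReal

namespace Pool.Agent.Levi

section

variable {n : ℕ} {M : Type} [TopologicalSpace M] {π : M → (Fin n → ℂ)}

/-- Extension by zero of a function read in a chart. -/
noncomputable def chartExt (hπ : IsLocalHomeomorph π) (x : M) {F : Type*} [Zero F] (α : M → F) :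
    (Fin n → ℂ) → F :=
  (hπ.localInverseAt x).source.indicator (α ∘ hπ.localInverseAt x)

theorem chartExt_of_mem (hπ : IsLocalHomeomorph π) (x : M) {F : Type*} [Zero F] (α : M → F)
    {z : Fin n → ℂ} (hz : z ∈ (hπ.localInverseAt x).source) :
    chartExt hπ x α z = α (hπ.localInverseAt x z) := indicator_of_mem hz _

theorem chartExt_support_subset (hπ : IsLocalHomeomorph π) (x : M) {F : Type*} [Zero F]
    (α : M → F) : Function.support (chartExt hπ x α) ⊆ π '' tsupport α := by
  intro z hz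
  by_cases hzs : z ∈ (hπ.localInverseAt x).source
  · rw [Function.mem_support, chartExt_of_mem hπ x α hzs] at hz
    exact ⟨_, subset_tsupport _ hz, hπ.apply_localInverseAt_of_mem hzs⟩
  · exfalso; apply hz; exact indicator_of_notMem hzs _

theorem chartExt_tsupport_subset (hπ : IsLocalHomeomorph π) (x : M) {F : Type*} [Zero F]
    {α : M → F} (hc : HasCompactSupport α) :
    tsupport (chartExt hπ x α) ⊆ π '' tsupport α :=
  closure_minimal (chartExt_support_subset hπ x α) (hc.image hπ.continuous).isClosed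

theorem chartExt_hasCompactSupport (hπ : IsLocalHomeomorph π) (x : M) {F : Type*} [Zero F]
    {α : M → F} (hc : HasCompactSupport α) : HasCompactSupport (chartExt hπ x α) :=
  IsCompact.of_isClosed_subset (hc.image hπ.continuous) (isClosed_tsupport _)
    (chartExt_tsupport_subset hπ x hc)

theorem chartExt_eventuallyEq (hπ : IsLocalHomeomorph π) (x : M) {F : Type*} [Zero F]
    (α : M → F) {z : Fin n → ℂ} (hz : z ∈ (hπ.localInverseAt x).source) :
    chartExt hπ x α =ᶠ[𝓝 z] α ∘ hπ.localInverseAt x := by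
  filter_upwards [(hπ.localInverseAt x).open_source.mem_nhds hz] with z' hz'
  exact chartExt_of_mem hπ x α hz'

/-- A smooth function with compact support in a chart domain becomes, extended by zero, a smooth
function on `ℂⁿ`. -/
theorem chartExt_contDiff {F : Type} [NormedAddCommGroup F] [NormedSpace ℝ F]
    (hπ : IsLocalHomeomorph π) (x : M) {α : M → F} (hs : RSmooth hπ α)
    (hc : HasCompactSupport α) (ht : tsupport α ⊆ (hπ.localInverseAt x).target) :
    ContDiff ℝ ∞ (chartExt hπ x α) := by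
  rw [contDiff_iff_contDiffAt]
  intro z
  by_cases hz : z ∈ (hπ.localInverseAt x).source
  · exact (hs.contDiffAt hz).congr_of_eventuallyEq (chartExt_eventuallyEq hπ x α hz)
  · have h1 : z ∉ tsupport (chartExt hπ x α) := by
      intro h
      obtain ⟨y, hy, rfl⟩ := chartExt_tsupport_subset hπ x hc h
      exact hz (pi_mem hπ (ht hy))
    exact (contDiffAt_const (c := (0 : F))).congr_of_eventuallyEq
      (notMem_tsupport_iff_eventuallyEq.mp h1)

theorem integral_fderiv_eq_zero {m : ℕ} {a : (Fin m → ℂ) → ℂ} (ha : ContDiff ℝ ∞ a)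
    (hc : HasCompactSupport a) (v : Fin m → ℂ) : ∫ z, fderiv ℝ a z v = 0 := by
  have hca : Continuous (fun z => fderiv ℝ a z v) :=
    (ha.continuous_fderiv (by simp)).clm_apply continuous_const
  have hcs : HasCompactSupport (fun z => fderiv ℝ a z v) := by
    refine HasCompactSupport.mono' (hc.fderiv (𝕜 := ℝ)) ?_
    intro z hz
    apply subset_tsupport
    intro h
    apply hz
    simp [h]
  have h := integral_mul_fderiv_eq_neg_fderiv_mul_of_integrable (μ := volume)
    (f := fun _ : Fin m → ℂ => (1 : ℂ)) (g := a) (v := v) (by simp)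
    (by simpa using hca.integrable_of_hasCompactSupport hcs)
    (by simpa using ha.continuous.integrable_of_hasCompactSupport hc)
    (fun _ _ => differentiableAt_const _)
    (fun z _ => ha.contDiffAt.differentiableAt (by simp))
  simpa using h

end

section

variable {n : ℕ} {M : Type} [TopologicalSpace M] {π : M → (Fin n → ℂ)}
variable [T2Space M] [SecondCountableTopology M] [MeasurableSpace M] [BorelSpace M]

omit [T2Space M] [SecondCountableTopology M] in
theorem IsTest.integrable {μ : Measure M} (hπ : IsLocalHomeomorph π) (hμ : IsFlatMeasure π μ)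
    {α : M → ℂ} (hα : IsTest hπ α) : Integrable α μ := by
  have := hμ.isLocallyFinite hπ
  exact hα.continuous.integrable_of_hasCompactSupport hα.compact

/-- the integral of a derivative of a test function is zero -/
theorem integral_rderiv_eq_zero {μ : Measure M} (hπ : IsLocalHomeomorph π)
    (hμ : IsFlatMeasure π μ) {α : M → ℂ} (hα : IsTest hπ α) (v : Fin n → ℂ) :
    ∫ x, rderiv hπ α v x ∂μ = 0 := by
  refine IsTest.induction (hπ := hπ) (P := fun α => ∫ x, rderiv hπ α v x ∂μ = 0) ?_ ?_ ?_ hα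
  · simp [rderiv_const]
  · intro α β hα hβ h1 h2
    simp only [rderiv_add hα.smooth hβ.smooth]
    rw [integral_add ((hα.rderiv v).integrable hπ hμ) ((hβ.rderiv v).integrable hπ hμ), h1, h2,
      add_zero]
  · intro α x hα ht
    have h1 : ∫ y, rderiv hπ α v y ∂μ = ∫ y in (hπ.localInverseAt x).target, rderiv hπ α v y ∂μ := by
      rw [setIntegral_eq_integral_of_forall_compl_eq_zero]
      intro y hy
      have : y ∉ tsupport (rderiv hπ α v) := fun h => hy (ht (tsupport_rderiv_subset α v h))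
      exact image_eq_zero_of_notMem_tsupport this
    rw [h1, setIntegral_chart hπ hμ]
    have h2 : ∫ z in (hπ.localInverseAt x).source, rderiv hπ α v (hπ.localInverseAt x z) =
        ∫ z in (hπ.localInverseAt x).source, fderiv ℝ (chartExt hπ x α) z v := by
      refine setIntegral_congr_fun (hπ.localInverseAt x).open_source.measurableSet ?_
      intro z hz
      simp only
      rw [rderiv_inv_apply hπ α v hz, (chartExt_eventuallyEq hπ x α hz).fderiv_eq]
    rw [h2, setIntegral_eq_integral_of_forall_compl_eq_zero]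
    · exact integral_fderiv_eq_zero (chartExt_contDiff hπ x hα.smooth hα.compact ht)
        (chartExt_hasCompactSupport hπ x hα.compact) v
    · intro z hz
      have h3 : z ∉ tsupport (chartExt hπ x α) := by
        intro h
        obtain ⟨y, hy, rfl⟩ := chartExt_tsupport_subset hπ x hα.compact h
        exact hz (pi_mem hπ (ht hy))
      have h4 := (notMem_tsupport_iff_eventuallyEq.mp h3).fderiv_eq (𝕜 := ℝ)
      rw [h4]
      simp

/-- (L1c) integration by parts -/
theorem integral_dz_eq_zero {μ : Measure M} (hπ : IsLocalHomeomorph π) (hμ : IsFlatMeasure π μ)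
    {α : M → ℂ} (hα : IsTest hπ α) (j : Fin n) :
    ∫ x, dz hπ α j x ∂μ = 0 ∧ ∫ x, dzb hπ α j x ∂μ = 0 := by
  have hI : ∀ v, Integrable (rderiv hπ α v) μ := fun v => (hα.rderiv v).integrable hπ hμ
  constructor
  · unfold dz
    rw [integral_const_mul, integral_sub (hI _) ((hI _).const_mul _), integral_const_mul,
      integral_rderiv_eq_zero hπ hμ hα, integral_rderiv_eq_zero hπ hμ hα]
    simp
  · unfold dzb
    rw [integral_const_mul, integral_add (hI _) ((hI _).const_mul _), integral_const_mul,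
      integral_rderiv_eq_zero hπ hμ hα, integral_rderiv_eq_zero hπ hμ hα]
    simp

/-! ### The basic inequality -/

section basic

variable {hπ : IsLocalHomeomorph π}

omit [T2Space M] [SecondCountableTopology M] [MeasurableSpace M] [BorelSpace M] in
/-- The pointwise identity behind the basic inequality: one pair of indices. -/
theorem basic_pointwise {φ : M → ℝ} (hφ : RSmooth hπ φ) {u w : M → ℂ} (hu : RSmooth hπ u)
    (hw : RSmooth hπ w) (j k : Fin n) (x : M) :
    dzb hπ (fun y => (dz hπ u j y - u y * dz hπ (fun y => (φ y : ℂ)) j y) * conj (w y) *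
        ((Real.exp (-φ y) : ℝ) : ℂ)) k x +
      dz hπ (fun y => -(dzb hπ u k y * conj (w y) * ((Real.exp (-φ y) : ℝ) : ℂ))) j x =
    (dz hπ u j x - u x * dz hπ (fun y => (φ y : ℂ)) j x) *
        conj (dz hπ w k x - w x * dz hπ (fun y => (φ y : ℂ)) k x) *
        ((Real.exp (-φ x) : ℝ) : ℂ) -
      dz hπ (fun x => dzb hπ (fun y => (φ y : ℂ)) k x) j x * u x * conj (w x) *
        ((Real.exp (-φ x) : ℝ) : ℂ) -
      dzb hπ u k x * conj (dzb hπ w j x) * ((Real.exp (-φ x) : ℝ) : ℂ) := by
  have hΦ : RSmooth hπ (fun y => (φ y : ℂ)) := hφ.ofReal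
  have hE := hφ.exp_neg
  have h1 : RSmooth hπ (fun y => dz hπ u j y - u y * dz hπ (fun y => (φ y : ℂ)) j y) :=
    (hu.dz j).sub (hu.mul (hΦ.dz j))
  have e1 : dzb hπ (fun y => (dz hπ u j y - u y * dz hπ (fun y => (φ y : ℂ)) j y) * conj (w y) *
        ((Real.exp (-φ y) : ℝ) : ℂ)) k x =
      (dz hπ u j x - u x * dz hπ (fun y => (φ y : ℂ)) j x) * conj (w x) *
        (-((Real.exp (-φ x) : ℝ) : ℂ) * dzb hπ (fun y => (φ y : ℂ)) k x) +
      ((Real.exp (-φ x) : ℝ) : ℂ) *
        ((dz hπ u j x - u x * dz hπ (fun y => (φ y : ℂ)) j x) * conj (dz hπ w k x) +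
          conj (w x) * (dzb hπ (dz hπ u j) k x - (u x * dzb hπ (dz hπ (fun y => (φ y : ℂ)) j) k x +
            dz hπ (fun y => (φ y : ℂ)) j x * dzb hπ u k x))) := by
    rw [dzb_mul (h1.mul hw.conj) hE, dzb_exp_neg hφ, dzb_mul h1 hw.conj, dzb_conj hw,
      dzb_sub (hu.dz j) (hu.mul (hΦ.dz j)), dzb_mul hu (hΦ.dz j)]
  have e2 : dz hπ (fun y => -(dzb hπ u k y * conj (w y) * ((Real.exp (-φ y) : ℝ) : ℂ))) j x =
      -(dzb hπ u k x * conj (w x) *
        (-((Real.exp (-φ x) : ℝ) : ℂ) * dz hπ (fun y => (φ y : ℂ)) j x) +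
      ((Real.exp (-φ x) : ℝ) : ℂ) * (dzb hπ u k x * conj (dzb hπ w j x) +
        conj (w x) * dz hπ (dzb hπ u k) j x)) := by
    rw [dz_neg, dz_mul ((hu.dzb k).mul hw.conj) hE, dz_exp_neg hφ, dz_mul (hu.dzb k) hw.conj,
      dz_conj hw]
  have e3 : dz hπ (dzb hπ u k) j x = dzb hπ (dz hπ u j) k x := dz_dzb_comm hu j k x
  have e4 : dz hπ (fun x => dzb hπ (fun y => (φ y : ℂ)) k x) j x =
      dzb hπ (dz hπ (fun y => (φ y : ℂ)) j) k x := dz_dzb_comm hΦ j k x
  have e5 : conj (dz hπ (fun y => (φ y : ℂ)) k x) = dzb hπ (fun y => (φ y : ℂ)) k x :=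
    conj_dz_ofReal hφ k x
  rw [e1, e2, e3, e4, map_sub, map_mul, e5]
  ring

/-- The Morrey–Kohn–Hörmander identity for compactly supported forms. -/
theorem basic_identity {μ : Measure M} (hπ : IsLocalHomeomorph π) (hμ : IsFlatMeasure π μ)
    {φ : M → ℝ} (hφ : RSmooth hπ φ) {f : Fin n → M → ℂ} (hf : ∀ j, IsTest hπ (f j)) :
    ∫ x, levi hπ φ x (fun j => f j x) * Real.exp (-φ x) ∂μ +
      ∫ x, (∑ j, ∑ k, ‖dzb hπ (f k) j x‖ ^ 2) * Real.exp (-φ x) ∂μ =
      ∫ x, ‖∑ j, (dz hπ (f j) j x - f j x * dz hπ (fun y => (φ y : ℂ)) j x)‖ ^ 2 *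
        Real.exp (-φ x) ∂μ +
      (1 / 2) * ∫ x, (∑ j, ∑ k, ‖dzb hπ (f k) j x - dzb hπ (f j) k x‖ ^ 2) *
        Real.exp (-φ x) ∂μ := by
  have hΦ : RSmooth hπ (fun y => (φ y : ℂ)) := hφ.ofReal
  have hE := hφ.exp_neg
  set E : M → ℂ := fun y => ((Real.exp (-φ y) : ℝ) : ℂ) with hEdef
  -- the test functions
  set δ : Fin n → M → ℂ := fun j y => dz hπ (f j) j y - f j y * dz hπ (fun y => (φ y : ℂ)) j y
    with hδ
  have hδt : ∀ j, IsTest hπ (δ j) := fun j => ((hf j).dz j).sub ((hf j).mul_left (hΦ.dz j))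
  let T1 : M → ℂ := fun x => (∑ j, ∑ k,
    dz hπ (fun x => dzb hπ (fun y => (φ y : ℂ)) k x) j x * f j x * conj (f k x)) * E x
  let T2 : M → ℂ := fun x => ((∑ j, δ j x) * conj (∑ j, δ j x)) * E x
  let T3 : M → ℂ := fun x => (∑ j, ∑ k, (dzb hπ (f k) j x - dzb hπ (f j) k x) *
    conj (dzb hπ (f k) j x - dzb hπ (f j) k x)) * E x
  let T4 : M → ℂ := fun x => (∑ j, ∑ k, dzb hπ (f k) j x * conj (dzb hπ (f k) j x)) * E x
  have hT1 : IsTest hπ T1 := by
    refine IsTest.mul_left ?_ hE
    refine IsTest.sum fun j _ => IsTest.sum fun k _ => ?_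
    exact ((hf j).mul_right ((hΦ.dzb k).dz j)).mul_left (hf k).smooth.conj
  have hT2 : IsTest hπ T2 := by
    refine IsTest.mul_left ?_ hE
    have h : IsTest hπ (fun x => ∑ j, δ j x) := IsTest.sum fun j _ => hδt j
    exact h.mul_left h.smooth.conj
  have hT3 : IsTest hπ T3 := by
    refine IsTest.mul_left ?_ hE
    refine IsTest.sum fun j _ => IsTest.sum fun k _ => ?_
    have h := ((hf k).dzb j).sub ((hf j).dzb k)
    exact h.mul_left h.smooth.conj
  have hT4 : IsTest hπ T4 := by
    refine IsTest.mul_left ?_ hE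
    refine IsTest.sum fun j _ => IsTest.sum fun k _ => ?_
    have h := (hf k).dzb j
    exact h.mul_left h.smooth.conj
  -- the divergences
  let A : Fin n → Fin n → M → ℂ := fun j k y => δ j y * conj (f k y) * E y
  let B : Fin n → Fin n → M → ℂ := fun j k y => -(dzb hπ (f j) k y * conj (f k y) * E y)
  have hA : ∀ j k, IsTest hπ (A j k) := fun j k =>
    ((hδt j).mul_left (hf k).smooth.conj).mul_left hE
  have hB : ∀ j k, IsTest hπ (B j k) := fun j k =>
    ((((hf j).dzb k).mul_left (hf k).smooth.conj).mul_left hE).neg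
  have hpt : ∀ x, ∑ j, ∑ k, (dzb hπ (A j k) k x + dz hπ (B j k) j x) =
      T2 x - T1 x - T4 x + (1 / 2) * T3 x := by
    intro x
    have h1 : ∀ j k, dzb hπ (A j k) k x + dz hπ (B j k) j x =
        δ j x * conj (δ k x) * E x -
        dz hπ (fun x => dzb hπ (fun y => (φ y : ℂ)) k x) j x * f j x * conj (f k x) * E x -
        dzb hπ (f j) k x * conj (dzb hπ (f k) j x) * E x := fun j k =>
      basic_pointwise hφ (hf j).smooth (hf k).smooth j k x
    have h2 : ∑ j, ∑ k, δ j x * conj (δ k x) * E x = T2 x := by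
      simp only [T2]
      rw [map_sum, Finset.sum_mul_sum, Finset.sum_mul]
      refine Finset.sum_congr rfl fun j _ => ?_
      rw [Finset.sum_mul]
    have h3 : ∑ j, ∑ k, dz hπ (fun x => dzb hπ (fun y => (φ y : ℂ)) k x) j x * f j x *
        conj (f k x) * E x = T1 x := by
      simp only [T1]
      rw [Finset.sum_mul]
      refine Finset.sum_congr rfl fun j _ => ?_
      rw [Finset.sum_mul]
    have h4 : ∑ j, ∑ k, dzb hπ (f j) k x * conj (dzb hπ (f k) j x) * E x =
        T4 x - (1 / 2) * T3 x := by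
      simp only [T4, T3]
      simp only [Finset.sum_mul]
      have hsw : ∑ j, ∑ k, dzb hπ (f k) j x * conj (dzb hπ (f j) k x) * E x =
          ∑ j, ∑ k, dzb hπ (f j) k x * conj (dzb hπ (f k) j x) * E x := Finset.sum_comm
      have hsw2 : ∑ j, ∑ k, dzb hπ (f k) j x * conj (dzb hπ (f k) j x) * E x =
          ∑ j, ∑ k, dzb hπ (f j) k x * conj (dzb hπ (f j) k x) * E x := Finset.sum_comm
      have hexp : ∑ j, ∑ k, (dzb hπ (f k) j x - dzb hπ (f j) k x) *
          conj (dzb hπ (f k) j x - dzb hπ (f j) k x) * E x =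
          ∑ j, ∑ k, dzb hπ (f k) j x * conj (dzb hπ (f k) j x) * E x +
          ∑ j, ∑ k, dzb hπ (f j) k x * conj (dzb hπ (f j) k x) * E x -
          ∑ j, ∑ k, dzb hπ (f k) j x * conj (dzb hπ (f j) k x) * E x -
          ∑ j, ∑ k, dzb hπ (f j) k x * conj (dzb hπ (f k) j x) * E x := by
        simp only [← Finset.sum_add_distrib, ← Finset.sum_sub_distrib]
        refine Finset.sum_congr rfl fun j _ => Finset.sum_congr rfl fun k _ => ?_
        rw [map_sub]
        ring
      rw [hexp, hsw, ← hsw2]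
      ring
    simp only [h1, Finset.sum_sub_distrib]
    rw [h2, h3, h4]
    ring
  -- integrate
  have hint : ∫ x, (T2 x - T1 x - T4 x + (1 / 2) * T3 x) ∂μ = 0 := by
    simp only [← hpt]
    rw [integral_finsetSum]
    · refine Finset.sum_eq_zero fun j _ => ?_
      rw [integral_finsetSum]
      · refine Finset.sum_eq_zero fun k _ => ?_
        rw [integral_add (((hA j k).dzb k).integrable hπ hμ) (((hB j k).dz j).integrable hπ hμ),
          (integral_dz_eq_zero hπ hμ (hA j k) k).2, (integral_dz_eq_zero hπ hμ (hB j k) j).1,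
          add_zero]
      · intro k _
        exact (((hA j k).dzb k).integrable hπ hμ).add (((hB j k).dz j).integrable hπ hμ)
    · intro j _
      exact integrable_finsetSum _ fun k _ =>
        (((hA j k).dzb k).integrable hπ hμ).add (((hB j k).dz j).integrable hπ hμ)
  have i1 := hT1.integrable hπ hμ
  have i2 := hT2.integrable hπ hμ
  have i3 := hT3.integrable hπ hμ
  have i4 := hT4.integrable hπ hμ
  have j1 : Integrable (fun x => T2 x - T1 x) μ := i2.sub i1
  have j2 : Integrable (fun x => T2 x - T1 x - T4 x) μ := j1.sub i4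
  have j3 : Integrable (fun x => (1 / 2 : ℂ) * T3 x) μ := i3.const_mul _
  rw [integral_add j2 j3, integral_sub j1 i4, integral_sub i2 i1, integral_const_mul] at hint
  have hre := congrArg Complex.re hint
  have hreint : ∀ T : M → ℂ, Integrable T μ → (∫ x, T x ∂μ).re = ∫ x, (T x).re ∂μ :=
    fun T hT => (integral_re hT).symm
  have r1 : ∫ x, levi hπ φ x (fun j => f j x) * Real.exp (-φ x) ∂μ = (∫ x, T1 x ∂μ).re := by
    rw [hreint _ i1]
    refine integral_congr_ae (Eventually.of_forall fun x => ?_)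
    simp only [T1, E, levi, Complex.re_mul_ofReal]
  have r2 : ∫ x, ‖∑ j, (dz hπ (f j) j x - f j x * dz hπ (fun y => (φ y : ℂ)) j x)‖ ^ 2 *
        Real.exp (-φ x) ∂μ = (∫ x, T2 x ∂μ).re := by
    rw [hreint _ i2]
    refine integral_congr_ae (Eventually.of_forall fun x => ?_)
    simp only [T2, E, Complex.re_mul_ofReal, Complex.mul_conj,
      Complex.ofReal_re, Complex.normSq_eq_norm_sq, hδ]
  have r3 : ∫ x, (∑ j, ∑ k, ‖dzb hπ (f k) j x - dzb hπ (f j) k x‖ ^ 2) *
        Real.exp (-φ x) ∂μ = (∫ x, T3 x ∂μ).re := by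
    rw [hreint _ i3]
    refine integral_congr_ae (Eventually.of_forall fun x => ?_)
    simp only [T3, E, Complex.re_mul_ofReal, Complex.mul_conj,
      Complex.re_sum, Complex.ofReal_re, Complex.normSq_eq_norm_sq]
  have r4 : ∫ x, (∑ j, ∑ k, ‖dzb hπ (f k) j x‖ ^ 2) *
        Real.exp (-φ x) ∂μ = (∫ x, T4 x ∂μ).re := by
    rw [hreint _ i4]
    refine integral_congr_ae (Eventually.of_forall fun x => ?_)
    simp only [T4, E, Complex.re_mul_ofReal, Complex.mul_conj,
      Complex.re_sum, Complex.ofReal_re, Complex.normSq_eq_norm_sq]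
  rw [r1, r2, r3, r4]
  have hhalf : ((1 / 2 : ℂ) * ∫ x, T3 x ∂μ).re = (1 / 2) * (∫ x, T3 x ∂μ).re := by
    rw [show (1 / 2 : ℂ) = ((1 / 2 : ℝ) : ℂ) by push_cast; ring, Complex.re_ofReal_mul]
  rw [Complex.add_re, Complex.sub_re, Complex.sub_re, hhalf, Complex.zero_re] at hre
  linarith

end basic

/-- (L1d) the basic inequality (Morrey-Kohn-Hoermander identity for compactly supported forms). -/
theorem basic_inequality {μ : Measure M} (hπ : IsLocalHomeomorph π) (hμ : IsFlatMeasure π μ)
    {φ : M → ℝ} (hφ : RSmooth hπ φ) {f : Fin n → M → ℂ} (hf : ∀ j, IsTest hπ (f j)) :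
    ∫ x, levi hπ φ x (fun j => f j x) * Real.exp (-φ x) ∂μ ≤
      ∫ x, ‖∑ j, (dz hπ (f j) j x - f j x * dz hπ (fun y => (φ y : ℂ)) j x)‖ ^ 2 *
        Real.exp (-φ x) ∂μ +
      (1 / 2) * ∫ x, (∑ j, ∑ k, ‖dzb hπ (f k) j x - dzb hπ (f j) k x‖ ^ 2) *
        Real.exp (-φ x) ∂μ := by
  have h := basic_identity hπ hμ hφ hf
  have h2 : 0 ≤ ∫ x, (∑ j, ∑ k, ‖dzb hπ (f k) j x‖ ^ 2) * Real.exp (-φ x) ∂μ :=
    integral_nonneg fun x => mul_nonneg
      (Finset.sum_nonneg fun j _ => Finset.sum_nonneg fun k _ => by positivity)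
      (Real.exp_pos _).le
  linarith

end

end Pool.Agent.Levi
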