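import Mathlib

/-!
# Mean value property on `ℂⁿ` for weights invariant under rotations
-/

set_option autoImplicit false

open Set Filter Topology MeasureTheory Metric

namespace Pool.Agent.Levi

variable {n : ℕ}

/-- multiplication by a complex number of norm one preserves the volume of `ℂⁿ` -/
theorem measurePreserving_unit_smul (ζ : Circle) :
    MeasurePreserving (fun w : Fin n → ℂ => (ζ : ℂ) • w) volume volume := by
  have h1 : ∀ _ : Fin n, MeasurePreserving (fun z : ℂ => (ζ : ℂ) • z) volume volume := by
    intro _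
    have := (rotation ζ).measurePreserving
    exact this
  exact volume_preserving_pi h1

/-- mean value property for a holomorphic function against a rotation invariant weight -/
theorem mean_value {k : (Fin n → ℂ) → ℂ} {c : Fin n → ℂ} {r : ℝ}
    (hk : DifferentiableOn ℂ k (ball c r)) {ρ : (Fin n → ℂ) → ℝ}
    (hρs : ∀ w, w ∉ ball (0 : Fin n → ℂ) r → ρ w = 0)
    (hρ : ∀ (ζ : Circle) (w : Fin n → ℂ), ρ ((ζ : ℂ) • w) = ρ w)
    (hi : Integrable (fun w => (ρ w : ℂ) * k (c + w))) :
    ∫ w, (ρ w : ℂ) * k (c + w) = (∫ w, (ρ w : ℂ)) * k c := by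
  set G : (Fin n → ℂ) → ℂ := fun w => (ρ w : ℂ) * k (c + w) with hG
  set μθ : Measure ℝ := volume.restrict (Ioc 0 (2 * Real.pi)) with hμθ
  have hvol : μθ.real univ = 2 * Real.pi := by
    rw [hμθ, Measure.real, Measure.restrict_apply_univ, Real.volume_Ioc, sub_zero,
      ENNReal.toReal_ofReal (by positivity)]
  have : IsFiniteMeasure μθ := by
    constructor
    rw [hμθ, Measure.restrict_apply_univ, Real.volume_Ioc]
    exact ENNReal.ofReal_lt_top
  -- the skew product
  have hmeas : Measurable (Function.uncurry fun (θ : ℝ) (w : Fin n → ℂ) =>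
      ((Circle.exp θ : Circle) : ℂ) • w) := by
    have : Continuous (Function.uncurry fun (θ : ℝ) (w : Fin n → ℂ) =>
        ((Circle.exp θ : Circle) : ℂ) • w) := by
      show Continuous (fun p : ℝ × (Fin n → ℂ) => ((Circle.exp p.1 : Circle) : ℂ) • p.2)
      have h1 : Continuous (fun p : ℝ × (Fin n → ℂ) => ((Circle.exp p.1 : Circle) : ℂ)) := by
        simp only [Circle.coe_exp]
        fun_prop
      exact h1.smul continuous_snd
    exact this.measurable
  have hskew : MeasurePreserving (fun p : ℝ × (Fin n → ℂ) => (p.1, ((Circle.exp p.1 : Circle) : ℂ) • p.2))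
      (μθ.prod volume) (μθ.prod volume) :=
    (MeasurePreserving.id μθ).skew_product (g := fun (θ : ℝ) (w : Fin n → ℂ) =>
      ((Circle.exp θ : Circle) : ℂ) • w) hmeas
      (ae_of_all _ fun θ => (measurePreserving_unit_smul (Circle.exp θ)).map_eq)
  have hGp : Integrable (fun p : ℝ × (Fin n → ℂ) => G p.2) (μθ.prod volume) :=
    hi.comp_snd μθ
  have hH : Integrable (fun p : ℝ × (Fin n → ℂ) => G (((Circle.exp p.1 : Circle) : ℂ) • p.2))
      (μθ.prod volume) := hskew.integrable_comp_of_integrable hGp
  have e1 : ∫ p : ℝ × (Fin n → ℂ), G (((Circle.exp p.1 : Circle) : ℂ) • p.2) ∂(μθ.prod volume) =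
      (2 * Real.pi : ℝ) • ∫ w, G w := by
    rw [integral_prod _ hH]
    have : ∀ θ : ℝ, ∫ w, G (((Circle.exp θ : Circle) : ℂ) • w) = ∫ w, G w := by
      intro θ
      have hmp := measurePreserving_unit_smul (n := n) (Circle.exp θ)
      have hme : MeasurableEmbedding (fun w : Fin n → ℂ => ((Circle.exp θ : Circle) : ℂ) • w) := by
        have hne : ((Circle.exp θ : Circle) : ℂ) ≠ 0 := Circle.coe_ne_zero _
        exact (Homeomorph.smulOfNeZero _ hne).measurableEmbedding
      exact hmp.integral_comp hme G
    simp only [this]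
    rw [integral_const, hvol]
  have e2 : ∫ p : ℝ × (Fin n → ℂ), G (((Circle.exp p.1 : Circle) : ℂ) • p.2) ∂(μθ.prod volume) =
      ∫ w, (ρ w : ℂ) * ((2 * Real.pi : ℝ) • k c) := by
    rw [integral_prod_symm _ hH]
    refine integral_congr_ae (ae_of_all _ fun w => ?_)
    change ∫ θ, (ρ (((Circle.exp θ : Circle) : ℂ) • w) : ℂ) *
      k (c + ((Circle.exp θ : Circle) : ℂ) • w) ∂μθ = _
    simp only [hρ]
    rw [integral_const_mul]
    by_cases hw : w ∈ ball (0 : Fin n → ℂ) r
    · congr 1
      have hd : DiffContOnCl ℂ (fun ζ : ℂ => k (c + ζ • w)) (ball 0 |1|) := by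
        rw [abs_one]
        apply DifferentiableOn.diffContOnCl
        intro ζ hζ
        have hζ' : ‖ζ‖ ≤ 1 := by
          have := closure_ball_subset_closedBall hζ
          rwa [mem_closedBall_zero_iff] at this
        have hmem : c + ζ • w ∈ ball c r := by
          rw [mem_ball_iff_norm, add_sub_cancel_left, norm_smul]
          rw [mem_ball_zero_iff] at hw
          calc ‖ζ‖ * ‖w‖ ≤ 1 * ‖w‖ := by gcongr
            _ < r := by rw [one_mul]; exact hw
        have h1 : DifferentiableAt ℂ k (c + ζ • w) :=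
          (hk _ hmem).differentiableAt (isOpen_ball.mem_nhds hmem)
        have h2 : DifferentiableAt ℂ (fun ζ : ℂ => c + ζ • w) ζ := by fun_prop
        exact (h1.comp ζ h2).differentiableWithinAt
      have hca := hd.circleAverage
      rw [Real.circleAverage_def] at hca
      simp only [zero_smul, add_zero] at hca
      rw [← hca, intervalIntegral.integral_of_le (by positivity)]
      rw [smul_smul, mul_inv_cancel₀ (by positivity), one_smul]
      refine integral_congr_ae (ae_of_all _ fun θ => ?_)
      simp [circleMap, Circle.coe_exp]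
    · rw [hρs w hw]; simp
  rw [e1] at e2
  rw [integral_mul_const, mul_smul_comm] at e2
  exact smul_right_injective ℂ (show (2 * Real.pi : ℝ) ≠ 0 by positivity) e2

/-- (L3b) mean value inequality on polydiscs (balls of the sup norm) -/
theorem norm_sq_le_integral {h : (Fin n → ℂ) → ℂ} {c : Fin n → ℂ} {r : ℝ} (_hr : 0 < r)
    (hd : DifferentiableOn ℂ h (Metric.ball c r))
    (hi : IntegrableOn (fun x => ‖h x‖ ^ 2) (Metric.ball c r)) :
    ‖h c‖ ^ 2 * (volume (Metric.ball c r)).toReal ≤ ∫ x in Metric.ball c r, ‖h x‖ ^ 2 := by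
  classical
  set ρ : (Fin n → ℂ) → ℝ := (ball (0 : Fin n → ℂ) r).indicator (fun _ => 1) with hρ
  have hd2 : DifferentiableOn ℂ (fun x => h x ^ 2) (ball c r) := hd.pow 2
  have hpre : (fun w : Fin n → ℂ => c + w) ⁻¹' (ball c r) = ball 0 r := by
    ext w
    simp
  have hI2 : IntegrableOn (fun x => h x ^ 2) (ball c r) := by
    refine Integrable.mono' hi ?_ (ae_of_all _ fun x => by simp)
    exact (hd2.continuousOn).aestronglyMeasurable measurableSet_ball
  have hmp : MeasurePreserving (fun w : Fin n → ℂ => c + w) volume volume :=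
    measurePreserving_add_left volume c
  have heq : (fun w => (ρ w : ℂ) * h (c + w) ^ 2) =
      (fun w => (ball c r).indicator (fun x => h x ^ 2) (c + w)) := by
    funext w
    by_cases hw : w ∈ ball (0 : Fin n → ℂ) r
    · have hw' : c + w ∈ ball c r := by rw [← hpre] at hw; exact hw
      simp [hρ, hw, hw']
    · have hw' : c + w ∉ ball c r := by rw [← hpre] at hw; exact hw
      simp [hρ, hw, hw']
  have hemb : MeasurableEmbedding (fun w : Fin n → ℂ => c + w) :=
    (Homeomorph.addLeft c).measurableEmbedding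
  have hint : Integrable (fun w => (ρ w : ℂ) * h (c + w) ^ 2) := by
    rw [heq]
    exact hmp.integrable_comp_of_integrable ((integrable_indicator_iff measurableSet_ball).2 hI2)
  have key := mean_value hd2 (ρ := ρ) (fun w hw => by simp [hρ, hw]) (fun ζ w => by
    have : ((ζ : ℂ) • w ∈ ball (0 : Fin n → ℂ) r) ↔ w ∈ ball (0 : Fin n → ℂ) r := by
      rw [mem_ball_zero_iff, mem_ball_zero_iff, norm_smul, Circle.norm_coe, one_mul]
    by_cases hw : w ∈ ball (0 : Fin n → ℂ) r
    · simp only [hρ, indicator_of_mem hw, indicator_of_mem (this.2 hw)]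
    · simp only [hρ, indicator_of_notMem hw, indicator_of_notMem (fun h => hw (this.1 h))]) hint
  have e1 : ∫ w, (ρ w : ℂ) * h (c + w) ^ 2 = ∫ x in ball c r, h x ^ 2 := by
    rw [heq, hmp.integral_comp hemb, integral_indicator measurableSet_ball]
  have e2 : ∫ w, (ρ w : ℂ) = ((volume (ball c r)).toReal : ℂ) := by
    rw [integral_complex_ofReal, hρ, integral_indicator measurableSet_ball, setIntegral_const,
      smul_eq_mul, mul_one, Measure.real]
    have : volume (ball (0 : Fin n → ℂ) r) = volume (ball c r) := by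
      rw [← hpre]
      exact hmp.measure_preimage measurableSet_ball.nullMeasurableSet
    rw [this]
  rw [e1, e2] at key
  have h3 : ‖h c‖ ^ 2 * (volume (ball c r)).toReal = ‖∫ x in ball c r, h x ^ 2‖ := by
    rw [key, norm_mul, norm_pow, Complex.norm_real, Real.norm_of_nonneg ENNReal.toReal_nonneg,
      mul_comm]
  rw [h3]
  refine (norm_integral_le_integral_norm _).trans (le_of_eq ?_)
  simp

end Pool.Agent.Levi
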