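import Pool.Agent.Levi.KZero
import Pool.Agent.Levi.FlatMeasure
import Pool.Agent.Levi.MeanVal

/-!
# Pointwise bound from a weighted `L²` bound near the degenerate points (K0C)
-/

set_option autoImplicit false
set_option linter.unusedSectionVars false

open Set Filter Topology MeasureTheory
open scoped ContDiff ComplexConjugate Manifold ENNReal

namespace Pool.Agent.Levi

open Pool.Agent.MEP

namespace PB

variable {n : ℕ}

/-- determinant of the derivative -/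
noncomputable def JJ (T : (Fin n → ℂ) → (Fin n → ℂ)) (z : Fin n → ℂ) : ℂ :=
  LinearMap.det (fderiv ℂ T z : (Fin n → ℂ) →ₗ[ℂ] (Fin n → ℂ))

/-- sum of the norms of the entries of the adjugate matrix -/
noncomputable def adjB (A : (Fin n → ℂ) →L[ℂ] (Fin n → ℂ)) : ℝ :=
  ∑ i, ∑ j, ‖Matrix.adjugate (LinearMap.toMatrix' (A : (Fin n → ℂ) →ₗ[ℂ] (Fin n → ℂ))) i j‖

theorem adjB_nonneg (A : (Fin n → ℂ) →L[ℂ] (Fin n → ℂ)) : 0 ≤ adjB A :=
  Finset.sum_nonneg fun _ _ => Finset.sum_nonneg fun _ _ => norm_nonneg _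

theorem continuous_adjB : Continuous (adjB (n := n)) := by
  have h1 : Continuous (fun A : (Fin n → ℂ) →L[ℂ] (Fin n → ℂ) =>
      LinearMap.toMatrix' (A : (Fin n → ℂ) →ₗ[ℂ] (Fin n → ℂ))) := by
    refine continuous_matrix fun i j => ?_
    simp only [LinearMap.toMatrix'_apply]
    have : Continuous (fun A : (Fin n → ℂ) →L[ℂ] (Fin n → ℂ) =>
        A (Pi.single j 1) i) := by
      fun_prop
    exact this
  have h2 := h1.matrix_adjugate
  unfold adjB
  refine continuous_finsetSum _ fun i _ => continuous_finsetSum _ fun j _ => ?_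
  exact (h2.matrix_elem i j).norm

theorem norm_det_mul_le (A : (Fin n → ℂ) →L[ℂ] (Fin n → ℂ)) (v : Fin n → ℂ) :
    ‖LinearMap.det (A : (Fin n → ℂ) →ₗ[ℂ] (Fin n → ℂ))‖ * ‖v‖ ≤ adjB A * ‖A v‖ := by
  set m := LinearMap.toMatrix' (A : (Fin n → ℂ) →ₗ[ℂ] (Fin n → ℂ)) with hm
  have h1 : m.mulVec v = A v := by
    rw [hm, LinearMap.toMatrix'_mulVec]
    rfl
  have h2 : LinearMap.det (A : (Fin n → ℂ) →ₗ[ℂ] (Fin n → ℂ)) = m.det := by
    rw [hm, LinearMap.det_toMatrix']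
  have h3 : (m.adjugate).mulVec (A v) = m.det • v := by
    rw [← h1, Matrix.mulVec_mulVec, Matrix.adjugate_mul, Matrix.smul_mulVec, Matrix.one_mulVec]
  rw [h2, ← norm_smul, ← h3]
  rw [pi_norm_le_iff_of_nonneg (mul_nonneg (adjB_nonneg A) (norm_nonneg _))]
  intro i
  rw [Matrix.mulVec, dotProduct]
  calc ‖∑ j, m.adjugate i j * (A v) j‖ ≤ ∑ j, ‖m.adjugate i j * (A v) j‖ := norm_sum_le _ _
    _ ≤ ∑ j, ‖m.adjugate i j‖ * ‖A v‖ := by
        refine Finset.sum_le_sum fun j _ => ?_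
        rw [norm_mul]
        gcongr
        exact norm_le_pi_norm _ j
    _ = (∑ j, ‖m.adjugate i j‖) * ‖A v‖ := by rw [Finset.sum_mul]
    _ ≤ adjB A * ‖A v‖ := by
        gcongr
        unfold adjB
        exact Finset.single_le_sum (f := fun i => ∑ j, ‖m.adjugate i j‖)
          (fun i _ => Finset.sum_nonneg fun j _ => norm_nonneg _) (Finset.mem_univ i)

theorem exists_quant {T : (Fin n → ℂ) → (Fin n → ℂ)} {O : Set (Fin n → ℂ)} (hO : IsOpen O)
    (hT : DifferentiableOn ℂ T O) {z₁ : Fin n → ℂ} (hz₁ : z₁ ∈ O) :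
    ∃ δ > 0, ∃ c > 0, ∃ M > 0, Metric.ball z₁ (2 * δ) ⊆ O ∧ ∀ z ∈ Metric.ball z₁ δ,
      ‖JJ T z‖ ≤ M ∧ Metric.ball z (c * ‖JJ T z‖) ⊆ Metric.ball z₁ (2 * δ) ∧
      InjOn T (Metric.ball z (c * ‖JJ T z‖)) ∧
      ∀ x ∈ Metric.ball z (c * ‖JJ T z‖), ‖JJ T z‖ / 2 ≤ ‖JJ T x‖ ∧ ‖JJ T x‖ ≤ 2 * ‖JJ T z‖ := by
  have hTc : ContDiffAt ℂ ∞ T z₁ := by
    rw [contDiffAt_pi]
    intro i
    exact (contDiffOn_of_differentiableOn hO
      (fun y hy => (differentiableWithinAt_pi.mp (hT y hy)) i)).contDiffAt (hO.mem_nhds hz₁)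
  have hT1 : ContDiffAt ℂ ∞ (fderiv ℂ T) z₁ := hTc.fderiv_right (m := ∞) (by norm_cast)
  have hJ1 : ContDiffAt ℝ ∞ (JJ T) z₁ := LM.contDiffAt_det (hT1.restrict_scalars ℝ)
  obtain ⟨K₁, t₁, ht₁, hK₁⟩ := (hT1.of_le (m := 1) (by norm_cast)).exists_lipschitzOnWith
  obtain ⟨K₂, t₂, ht₂, hK₂⟩ := (hJ1.of_le (m := 1) (by norm_cast)).exists_lipschitzOnWith
  set b : ℝ := adjB (fderiv ℂ T z₁) + 1 with hb
  have hb0 : 0 < b := by have := adjB_nonneg (fderiv ℂ T z₁); linarith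
  set M : ℝ := ‖JJ T z₁‖ + 1 with hM
  have hM0 : 0 < M := by positivity
  have hev3 : ∀ᶠ z in 𝓝 z₁, adjB (fderiv ℂ T z) < b :=
    (continuous_adjB.continuousAt.comp hT1.continuousAt).eventually_lt continuousAt_const
      (by simp [hb])
  have hev4 : ∀ᶠ z in 𝓝 z₁, ‖JJ T z‖ < M :=
    (hJ1.continuousAt.norm).eventually_lt continuousAt_const (by simp [hM])
  have hall : ∀ᶠ z in 𝓝 z₁, z ∈ O ∧ z ∈ t₁ ∧ z ∈ t₂ ∧ adjB (fderiv ℂ T z) < b ∧ ‖JJ T z‖ < M :=
    (show ∀ᶠ z in 𝓝 z₁, z ∈ O from hO.mem_nhds hz₁).and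
      ((show ∀ᶠ z in 𝓝 z₁, z ∈ t₁ from ht₁).and
        ((show ∀ᶠ z in 𝓝 z₁, z ∈ t₂ from ht₂).and (hev3.and hev4)))
  obtain ⟨δ', hδ', hball⟩ := Metric.eventually_nhds_iff_ball.mp hall
  set δ := δ' / 2 with hδ
  have hδ0 : 0 < δ := by positivity
  have h2δ : 2 * δ = δ' := by rw [hδ]; ring
  set c : ℝ := min (δ / M) (min (1 / (2 * (K₂ + 1))) (1 / (2 * (b * (K₁ + 1))))) with hc
  have hc0 : 0 < c := by
    refine lt_min (by positivity) (lt_min (by positivity) (by positivity))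
  have hc1 : c * M ≤ δ := by
    have : c ≤ δ / M := min_le_left _ _
    rwa [le_div_iff₀ hM0] at this
  have hc2 : K₂ * c ≤ 1 / 2 := by
    have h1 : c ≤ 1 / (2 * (K₂ + 1)) := (min_le_right _ _).trans (min_le_left _ _)
    rw [le_div_iff₀ (by positivity)] at h1
    nlinarith [hc0]
  have hc3 : b * (K₁ * c) ≤ 1 / 2 := by
    have h1 : c ≤ 1 / (2 * (b * (K₁ + 1))) := (min_le_right _ _).trans (min_le_right _ _)
    rw [le_div_iff₀ (by positivity)] at h1
    nlinarith [hc0, mul_pos hb0 hc0]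
  refine ⟨δ, hδ0, c, hc0, M, hM0, ?_, ?_⟩
  · intro z hz
    rw [h2δ] at hz
    exact (hball z hz).1
  · intro z hz
    have hzδ' : z ∈ Metric.ball z₁ δ' := Metric.ball_subset_ball (by linarith) hz
    have hzM : ‖JJ T z‖ ≤ M := (hball z hzδ').2.2.2.2.le
    have hr : c * ‖JJ T z‖ ≤ δ := by
      calc c * ‖JJ T z‖ ≤ c * M := by gcongr
        _ ≤ δ := hc1
    have hsub : Metric.ball z (c * ‖JJ T z‖) ⊆ Metric.ball z₁ (2 * δ) := by
      apply Metric.ball_subset_ball'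
      rw [Metric.mem_ball] at hz
      linarith
    have hsub' : Metric.ball z (c * ‖JJ T z‖) ⊆ Metric.ball z₁ δ' := by
      rw [← h2δ]; exact hsub
    refine ⟨hzM, hsub, ?_, ?_⟩
    · intro x hx y hy hxy
      have hJ0 : 0 < ‖JJ T z‖ := by
        have : 0 < c * ‖JJ T z‖ := Metric.pos_of_mem_ball hx
        exact (pos_iff_pos_of_mul_pos this).mp hc0
      have hmv := (convex_ball z (c * ‖JJ T z‖)).norm_image_sub_le_of_norm_hasFDerivWithin_le'
        (𝕜 := ℂ) (f := T) (f' := fderiv ℂ T) (φ := fderiv ℂ T z) (C := K₁ * (c * ‖JJ T z‖))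
        (fun u hu => ((hT u (hball u (hsub' hu)).1).differentiableAt
          (hO.mem_nhds (hball u (hsub' hu)).1)).hasFDerivAt.hasFDerivWithinAt)
        (fun u hu => by
          have h1 := hK₁.dist_le_mul u (hball u (hsub' hu)).2.1 z (hball z hzδ').2.1
          rw [← dist_eq_norm]
          refine h1.trans ?_
          gcongr
          exact (Metric.mem_ball.mp hu).le) hx hy
      rw [hxy, sub_self, zero_sub, norm_neg] at hmv
      have h5 := norm_det_mul_le (fderiv ℂ T z) (y - x)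
      have h6 : adjB (fderiv ℂ T z) * ‖fderiv ℂ T z (y - x)‖ ≤
          b * (K₁ * (c * ‖JJ T z‖) * ‖y - x‖) := by
        have := (hball z hzδ').2.2.2.1.le
        gcongr
      have h7 : ‖JJ T z‖ * ‖y - x‖ ≤ (1 / 2) * (‖JJ T z‖ * ‖y - x‖) := by
        calc ‖JJ T z‖ * ‖y - x‖ ≤ b * (K₁ * (c * ‖JJ T z‖) * ‖y - x‖) := h5.trans h6
          _ = (b * (K₁ * c)) * (‖JJ T z‖ * ‖y - x‖) := by ring
          _ ≤ (1 / 2) * (‖JJ T z‖ * ‖y - x‖) := by gcongr
      have h8 : ‖JJ T z‖ * ‖y - x‖ ≤ 0 := by linarith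
      have h9 : ‖y - x‖ = 0 := by
        by_contra hne
        have : 0 < ‖y - x‖ := lt_of_le_of_ne (norm_nonneg _) (Ne.symm hne)
        nlinarith [mul_pos hJ0 this]
      exact (sub_eq_zero.mp (norm_eq_zero.mp h9)).symm
    · intro x hx
      have h1 := hK₂.dist_le_mul x (hball x (hsub' hx)).2.2.1 z (hball z hzδ').2.2.1
      rw [dist_eq_norm] at h1
      have h2 : ‖JJ T x - JJ T z‖ ≤ ‖JJ T z‖ / 2 := by
        calc ‖JJ T x - JJ T z‖ ≤ K₂ * dist x z := h1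
          _ ≤ K₂ * (c * ‖JJ T z‖) := by
              gcongr
              exact (Metric.mem_ball.mp hx).le
          _ = (K₂ * c) * ‖JJ T z‖ := by ring
          _ ≤ (1 / 2) * ‖JJ T z‖ := by gcongr
          _ = ‖JJ T z‖ / 2 := by ring
      have h3 := norm_sub_norm_le (JJ T z) (JJ T x)
      rw [norm_sub_rev] at h3
      have h4 := norm_sub_norm_le (JJ T x) (JJ T z)
      constructor
      · linarith
      · have := norm_nonneg (JJ T z)
        linarith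

theorem abs_det_restrictScalars (A : (Fin n → ℂ) →L[ℂ] (Fin n → ℂ)) :
    |(A.restrictScalars ℝ).det| =
      ‖LinearMap.det (A : (Fin n → ℂ) →ₗ[ℂ] (Fin n → ℂ))‖ ^ 2 := by
  have h1 : (A.restrictScalars ℝ).det =
      LinearMap.det ((A : (Fin n → ℂ) →ₗ[ℂ] (Fin n → ℂ)).restrictScalars ℝ) := rfl
  rw [h1, LinearMap.det_restrictScalars, Algebra.norm_complex_apply, Complex.normSq_eq_norm_sq,
    abs_of_nonneg (by positivity)]

section sheet

variable {M : Type} [TopologicalSpace M] {π : M → (Fin n → ℂ)} {B : Set (Fin n → ℂ)}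
  {T : (Fin n → ℂ) → (Fin n → ℂ)} {s : (Fin n → ℂ) → M}

theorem isOpen_image_sheet (hπ : IsLocalHomeomorph π) (hB : IsOpen B)
    (hT : DifferentiableOn ℂ T B) (hinv : ∀ x ∈ B, (fderiv ℂ T x).IsInvertible)
    (hs : ContinuousOn s B) (hsT : ∀ x ∈ B, π (s x) = T x) : IsOpen (s '' B) := by
  rw [isOpen_iff_mem_nhds]
  rintro _ ⟨x, hx, rfl⟩
  obtain ⟨R, hR, hR0, -, hTR⟩ := exists_local_inverse hB hT hx (hinv x hx)
  have h1 := localInverseAt_eventuallyEq' hπ (w := s x) (s := s) (ζ := x) (T := T) rfl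
    (hs.continuousAt (hB.mem_nhds hx))
    (by filter_upwards [hB.mem_nhds hx] with y hy using hsT y hy) hR.continuousAt hR0 hTR
  have h2 : ∀ᶠ z in 𝓝 (π (s x)), R z ∈ B := by
    rw [hsT x hx]
    apply hR.continuousAt
    rw [hR0]
    exact hB.mem_nhds hx
  have h3 : ∀ᶠ y in 𝓝 (s x), R (π y) ∈ B ∧ hπ.localInverseAt (s x) (π y) = s (R (π y)) :=
    (hπ.continuous.continuousAt (x := s x)).eventually (h2.and h1)
  filter_upwards [h3, (hπ.localInverseAt (s x)).open_target.mem_nhds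
    hπ.self_mem_localInverseAt_target] with y hy hy2
  rw [inv_apply hπ hy2] at hy
  exact ⟨_, hy.1, hy.2.symm⟩

theorem injOn_image_sheet (hinj : InjOn T B) (hsT : ∀ x ∈ B, π (s x) = T x) :
    InjOn π (s '' B) := by
  rintro _ ⟨x, hx, rfl⟩ _ ⟨y, hy, rfl⟩ h
  rw [hsT x hx, hsT y hy] at h
  rw [hinj hx hy h]

theorem lintegral_sheet [MeasurableSpace M] [BorelSpace M] {μ : Measure M}
    (hπ : IsLocalHomeomorph π) (hμ : IsFlatMeasure π μ) (hB : IsOpen B)
    (hT : DifferentiableOn ℂ T B) (hinv : ∀ x ∈ B, (fderiv ℂ T x).IsInvertible)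
    (hinj : InjOn T B) (hs : ContinuousOn s B) (hsT : ∀ x ∈ B, π (s x) = T x)
    (F : M → ℝ≥0∞) :
    ∫⁻ y in s '' B, F y ∂μ = ∫⁻ x in B, ENNReal.ofReal (‖JJ T x‖ ^ 2) * F (s x) := by
  have hU : IsOpen (s '' B) := isOpen_image_sheet hπ hB hT hinv hs hsT
  have hUi : InjOn π (s '' B) := injOn_image_sheet hinj hsT
  rcases isEmpty_or_nonempty M with hM | hM
  · have hBe : B = ∅ := by
      rw [Set.eq_empty_iff_forall_notMem]
      intro x _
      exact hM.false (s x)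
    simp [hBe]
  set g : (Fin n → ℂ) → ℝ≥0∞ := fun y => F (s (Function.invFunOn T B y)) with hg
  have hgT : ∀ x ∈ B, g (T x) = F (s x) := by
    intro x hx
    simp only [hg]
    congr 2
    exact hinj.leftInvOn_invFunOn hx
  have h1 : ∫⁻ y in s '' B, F y ∂μ = ∫⁻ y in s '' B, g (π y) ∂μ := by
    refine setLIntegral_congr_fun hU.measurableSet ?_
    rintro _ ⟨x, hx, rfl⟩
    simp only
    rw [hsT x hx, hgT x hx]
  have h2 : π '' (s '' B) = T '' B := by
    rw [image_image]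
    exact image_congr fun x hx => hsT x hx
  rw [h1, setLIntegral_comp_pi hπ hμ hU hUi, h2,
    lintegral_image_eq_lintegral_abs_det_fderiv_mul (volume : Measure (Fin n → ℂ))
      (f' := fun x => (fderiv ℂ T x).restrictScalars ℝ) hB.measurableSet
      (fun x hx => (((hT x hx).differentiableAt
        (hB.mem_nhds hx)).hasFDerivAt.restrictScalars ℝ).hasFDerivWithinAt) hinj g]
  refine setLIntegral_congr_fun hB.measurableSet ?_
  intro x hx
  simp only
  rw [abs_det_restrictScalars, hgT x hx]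
  rfl

/-- mean value inequality on a sheet, for a weighted norm -/
theorem sheet_bound [MeasurableSpace M] [BorelSpace M] {μ : Measure M}
    (hπ : IsLocalHomeomorph π) (hμ : IsFlatMeasure π μ) {z : Fin n → ℂ} {r : ℝ} (hr : 0 < r)
    (hT : DifferentiableOn ℂ T (Metric.ball z r))
    (hinv : ∀ x ∈ Metric.ball z r, (fderiv ℂ T x).IsInvertible)
    (hinj : InjOn T (Metric.ball z r)) (hs : ContinuousOn s (Metric.ball z r))
    (hsT : ∀ x ∈ Metric.ball z r, π (s x) = T x)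
    {h : M → ℂ} (hh : RHolo hπ h) {φ : M → ℝ} {K I : ℝ} (hK : 0 ≤ K) (hI : 0 ≤ I)
    (hφ : ∀ x ∈ Metric.ball z r, Real.exp (φ (s x)) ≤ K * ‖JJ T x‖ ^ 2)
    (hint : ∫⁻ x, ENNReal.ofReal (‖h x‖ ^ 2 * Real.exp (-φ x)) ∂μ ≤ ENNReal.ofReal I) :
    ‖h (s z)‖ ^ 2 * (volume (Metric.ball z r)).toReal ≤ K * I := by
  have hBo : IsOpen (Metric.ball z r) := Metric.isOpen_ball
  have hd : DifferentiableOn ℂ (h ∘ s) (Metric.ball z r) := by
    intro x hx
    refine (comp_s_differentiableAt hπ (w := s x) (s := s) (ζ := x) (T := T) rfl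
      (hs.continuousAt (hBo.mem_nhds hx))
      (by filter_upwards [hBo.mem_nhds hx] with y hy using hsT y hy)
      ((hT x hx).differentiableAt (hBo.mem_nhds hx)) (hh (s x))).differentiableWithinAt
  have h1 : ∫⁻ x in Metric.ball z r, ENNReal.ofReal (‖(h ∘ s) x‖ ^ 2) ≤
      ENNReal.ofReal (K * I) := by
    calc ∫⁻ x in Metric.ball z r, ENNReal.ofReal (‖(h ∘ s) x‖ ^ 2)
        ≤ ∫⁻ x in Metric.ball z r, ENNReal.ofReal K * (ENNReal.ofReal (‖JJ T x‖ ^ 2) *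
            ENNReal.ofReal (‖h (s x)‖ ^ 2 * Real.exp (-φ (s x)))) := by
          refine setLIntegral_mono' hBo.measurableSet fun x hx => ?_
          rw [← ENNReal.ofReal_mul (by positivity), ← ENNReal.ofReal_mul hK]
          refine ENNReal.ofReal_le_ofReal ?_
          have h2 := hφ x hx
          have h3 : 1 ≤ K * ‖JJ T x‖ ^ 2 * Real.exp (-φ (s x)) := by
            rw [Real.exp_neg, ← div_eq_mul_inv, one_le_div (Real.exp_pos _)]
            exact h2
          calc ‖(h ∘ s) x‖ ^ 2 = ‖h (s x)‖ ^ 2 * 1 := by rw [mul_one]; rfl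
            _ ≤ ‖h (s x)‖ ^ 2 * (K * ‖JJ T x‖ ^ 2 * Real.exp (-φ (s x))) := by gcongr
            _ = _ := by ring
      _ = ENNReal.ofReal K * ∫⁻ x in Metric.ball z r, (ENNReal.ofReal (‖JJ T x‖ ^ 2) *
            ENNReal.ofReal (‖h (s x)‖ ^ 2 * Real.exp (-φ (s x)))) :=
          lintegral_const_mul' _ _ ENNReal.ofReal_ne_top
      _ = ENNReal.ofReal K * ∫⁻ y in s '' Metric.ball z r,
            ENNReal.ofReal (‖h y‖ ^ 2 * Real.exp (-φ y)) ∂μ := by
          rw [lintegral_sheet hπ hμ hBo hT hinv hinj hs hsT]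
      _ ≤ ENNReal.ofReal K * ENNReal.ofReal I := by
          gcongr
          exact (setLIntegral_le_lintegral _ _).trans hint
      _ = ENNReal.ofReal (K * I) := (ENNReal.ofReal_mul hK).symm
  have hmeas : AEStronglyMeasurable (fun x => ‖(h ∘ s) x‖ ^ 2)
      (volume.restrict (Metric.ball z r)) :=
    ((hd.continuousOn.norm).pow 2).aestronglyMeasurable hBo.measurableSet
  have hi : IntegrableOn (fun x => ‖(h ∘ s) x‖ ^ 2) (Metric.ball z r) := by
    refine ⟨hmeas, ?_⟩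
    rw [hasFiniteIntegral_iff_ofReal (ae_of_all _ fun x => by positivity)]
    exact h1.trans_lt ENNReal.ofReal_lt_top
  have h2 := norm_sq_le_integral hr hd hi
  refine h2.trans ?_
  rw [integral_eq_lintegral_of_nonneg_ae (ae_of_all _ fun x => by positivity) hmeas]
  refine ENNReal.toReal_le_of_le_ofReal (by positivity) ?_
  exact h1

end sheet

theorem rpow_compare {u v t : ℝ} (hu : 0 < u) (h1 : u / 2 ≤ v) (h2 : v ≤ 2 * u) :
    v ^ t ≤ 2 ^ |t| * u ^ t := by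
  have hv : 0 < v := by linarith
  rcases le_total 0 t with ht | ht
  · rw [abs_of_nonneg ht, ← Real.mul_rpow (by norm_num) hu.le]
    exact Real.rpow_le_rpow hv.le h2 ht
  · rw [abs_of_nonpos ht]
    have h3 : v ^ t ≤ (u / 2) ^ t := Real.rpow_le_rpow_of_nonpos (by positivity) h1 ht
    refine h3.trans (le_of_eq ?_)
    rw [Real.div_rpow hu.le (by norm_num), Real.rpow_neg (by norm_num)]
    field_simp

end PB

section

variable {n : ℕ} {S : Type} [TopologicalSpace S] [T2Space S] [SecondCountableTopology S]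
  [ConnectedSpace S] [ChartedSpace (Fin n → ℂ) S] [IsManifold 𝓘(ℂ, Fin n → ℂ) ω S]
  {W : Type} [TopologicalSpace W] [T2Space W] [SecondCountableTopology W]
  {q : W → S} {ρ : W → ℝ} {G : S → (Fin n → ℂ)}

/-- (K0C) -/
theorem pointwise_bound [MeasurableSpace (MM G q)] [BorelSpace (MM G q)] {μ : Measure (MM G q)}
    (hq : IsTame n q ρ) (hG : MDifferentiable 𝓘(ℂ, Fin n → ℂ) 𝓘(ℂ, Fin n → ℂ) G)
    (hμ : IsFlatMeasure (piM G q) μ) {a C' : ℝ} {φ₀ : S → ℝ}
    (hφ₀ : ∀ p : S, ∃ τ : S → ℝ,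
        ContDiffAt ℝ ∞ (τ ∘ (chartAt (Fin n → ℂ) p).symm) (chartAt (Fin n → ℂ) p p) ∧
        ∀ᶠ x in 𝓝 p, IsCoordinateAt G x → φ₀ x = a * Real.log (‖jac G p x‖ ^ 2) + τ x)
    (k : ℝ) (hk : 0 ≤ k) (z₀ : Fin n → ℂ) (m : ℕ) (ha : (m : ℝ) + 2 * n ≤ a) (p : S) :
    ∃ N ∈ 𝓝 p, ∃ C : ℝ, ∀ h : MM G q → ℂ, RHolo (isLocalHomeomorph_piM hG hq.localHomeo) h →
      ∀ I : ℝ, 0 ≤ I →
      ∫⁻ x, ENNReal.ofReal (‖h x‖ ^ 2 * Real.exp (-(φ₀ (q x) - 2 * C' * ρ x +
        k * ∑ j, ‖piM G q x j - z₀ j‖ ^ 2))) ∂μ ≤ ENNReal.ofReal I →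
      ∀ w : MM G q, q w ∈ N →
        ‖h w‖ ^ 2 ≤ C * ‖jac G p (q w)‖ ^ (2 * m) * Real.exp (-(2 * C' * ρ w)) * I := by
  classical
  obtain ⟨N₀, hN₀, hpN₀, hN₀s, Cρ, hsh⟩ := hq.sheets p
  obtain ⟨τ, hτ, hφτ⟩ := hφ₀ p
  set e := chartAt (Fin n → ℂ) p with he
  have hps : p ∈ e.source := mem_chart_source _ p
  have hpt : e p ∈ e.target := e.map_source hps
  have hsy : e.symm (e p) = p := e.left_inv hps
  have hcsy : ContinuousAt e.symm (e p) := e.continuousAt_symm hpt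
  have hTd : DifferentiableOn ℂ (TT G p) e.target := TT_differentiableOn hG p
  have hTc : ContinuousAt (TT G p) (e p) :=
    ((hTd _ hpt).differentiableAt (e.open_target.mem_nhds hpt)).continuousAt
  -- the small neighbourhood
  set Mτ : ℝ := τ p + 1 with hMτ
  have hev1 : ∀ᶠ z in 𝓝 (e p), τ (e.symm z) < Mτ := by
    refine hτ.continuousAt.eventually_lt continuousAt_const ?_
    simp only [Function.comp_apply, hsy, hMτ]
    linarith
  set MT : ℝ := (∑ j, ‖TT G p (e p) j - z₀ j‖ ^ 2) + 1 with hMT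
  have hev2 : ∀ᶠ z in 𝓝 (e p), ∑ j, ‖TT G p z j - z₀ j‖ ^ 2 < MT := by
    have hc : ContinuousAt (fun z => ∑ j, ‖TT G p z j - z₀ j‖ ^ 2) (e p) := by
      refine tendsto_finsetSum _ fun j _ => ?_
      exact ((((continuous_apply j).continuousAt.comp hTc).sub continuousAt_const).norm).pow 2
    exact hc.eventually_lt continuousAt_const (by simp [hMT])
  have hev3 : ∀ᶠ z in 𝓝 (e p), e.symm z ∈ N₀ ∧
      (IsCoordinateAt G (e.symm z) →
        φ₀ (e.symm z) = a * Real.log (‖jac G p (e.symm z)‖ ^ 2) + τ (e.symm z)) := by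
    have h1 : ∀ᶠ x in 𝓝 p, x ∈ N₀ ∧
      (IsCoordinateAt G x → φ₀ x = a * Real.log (‖jac G p x‖ ^ 2) + τ x) :=
      (show ∀ᶠ x in 𝓝 p, x ∈ N₀ from hN₀.mem_nhds hpN₀).and hφτ
    rw [← hsy] at h1
    have h2 := hcsy.eventually h1
    rw [hsy] at h2
    exact h2
  have hall := (show ∀ᶠ z in 𝓝 (e p), z ∈ e.target from e.open_target.mem_nhds hpt).and
    (hev1.and (hev2.and hev3))
  obtain ⟨O, hO, hOo, hpO⟩ := mem_nhds_iff.mp hall
  obtain ⟨δ, hδ, c, hc, M, hM, hballO, hqu⟩ := PB.exists_quant hOo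
    (hTd.mono fun z hz => (hO hz).1) hpO
  -- constants
  set v₁ : ℝ := (volume (Metric.ball (0 : Fin n → ℂ) 1)).toReal with hv₁
  have hv₁0 : 0 < v₁ := ENNReal.toReal_pos (Metric.measure_ball_pos _ _ one_pos).ne'
    Metric.isBounded_ball.measure_lt_top.ne
  set E₁ : ℝ := Real.exp (Mτ + 2 * |C'| * Cρ + k * MT) with hE₁
  set P₁ : ℝ := 2 ^ |2 * a - 2| with hP₁
  have hP₁0 : 0 < P₁ := by positivity
  set t : ℝ := 2 * a - 2 - 2 * n - 2 * m with ht
  set D : ℝ := M ^ t + 1 with hD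
  have hD0 : 0 < D := by positivity
  refine ⟨e.source ∩ e ⁻¹' Metric.ball (e p) δ, ?_, P₁ * E₁ * D / (c ^ (2 * n) * v₁), ?_⟩
  · refine inter_mem (e.open_source.mem_nhds hps) ?_
    exact (e.continuousAt hps) (Metric.ball_mem_nhds _ hδ)
  intro h hh I hI hint w hw
  set z := e (q w) with hz
  have hws : q w ∈ e.source := hw.1
  have hwz : e.symm z = q w := e.left_inv hws
  obtain ⟨hzM, hsub, hinj, hcmp⟩ := hqu z hw.2
  have hJw : jac G p (q w) = PB.JJ (TT G p) z := rfl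
  have hJ0 : PB.JJ (TT G p) z ≠ 0 := by
    rw [← hJw]
    exact (isCoordinateAt_iff_jac hG hws).mp w.2
  have hJpos : 0 < ‖PB.JJ (TT G p) z‖ := norm_pos_iff.mpr hJ0
  set r : ℝ := c * ‖PB.JJ (TT G p) z‖ with hr
  have hr0 : 0 < r := by positivity
  have hBO : ∀ x ∈ Metric.ball z r, x ∈ O := fun x hx => hballO (hsub hx)
  have hzB : z ∈ Metric.ball z r := Metric.mem_ball_self hr0
  -- the sheet
  have hqwN : q w ∈ N₀ := by
    rw [← hwz]
    exact (hO (hBO z hzB)).2.2.2.1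
  obtain ⟨σ, hσw, hσc, hσ⟩ := hsh w hqwN
  have hxN : ∀ x ∈ Metric.ball z r, e.symm x ∈ N₀ := fun x hx => (hO (hBO x hx)).2.2.2.1
  have hxt : ∀ x ∈ Metric.ball z r, x ∈ e.target := fun x hx => (hO (hBO x hx)).1
  have hxJ : ∀ x ∈ Metric.ball z r, jac G p (e.symm x) = PB.JJ (TT G p) x := by
    intro x hx
    show PB.JJ (TT G p) (e (e.symm x)) = _
    rw [e.right_inv (hxt x hx)]
  have hxJ0 : ∀ x ∈ Metric.ball z r, PB.JJ (TT G p) x ≠ 0 := by
    intro x hx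
    have := (hcmp x hx).1
    rw [← norm_pos_iff]
    linarith
  have hxc : ∀ x ∈ Metric.ball z r, IsCoordinateAt G (e.symm x) := by
    intro x hx
    rw [isCoordinateAt_iff_jac hG (p := p) (e.map_target (hxt x hx)), hxJ x hx]
    exact hxJ0 x hx
  have hxq : ∀ x ∈ Metric.ball z r, q (σ (e.symm x)) = e.symm x := fun x hx =>
    (hσ _ (hxN x hx)).1
  let s : (Fin n → ℂ) → MM G q := fun x =>
    if h : IsCoordinateAt G (q (σ (e.symm x))) then ⟨σ (e.symm x), h⟩ else w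
  have hs1 : ∀ x ∈ Metric.ball z r, ((s x : MM G q) : W) = σ (e.symm x) := by
    intro x hx
    have h3 : IsCoordinateAt G (q (σ (e.symm x))) := by rw [hxq x hx]; exact hxc x hx
    simp only [s, dif_pos h3]
  have hsz : s z = w := by
    apply Subtype.ext
    rw [hs1 z hzB, hwz, hσw]
  have hsq : ∀ x ∈ Metric.ball z r, q (s x) = e.symm x := by
    intro x hx
    rw [hs1 x hx, hxq x hx]
  have hsT : ∀ x ∈ Metric.ball z r, piM G q (s x) = TT G p x := by
    intro x hx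
    show G (q (s x)) = G (e.symm x)
    rw [hsq x hx]
  have hsc : ContinuousOn s (Metric.ball z r) := by
    have h1 : ContinuousOn (fun x => σ (e.symm x)) (Metric.ball z r) :=
      hσc.comp (e.continuousOn_symm.mono hxt) hxN
    have h2 : ContinuousOn (fun x => ((s x : MM G q) : W)) (Metric.ball z r) := h1.congr hs1
    exact Topology.IsInducing.subtypeVal.continuousOn_iff.mpr h2
  -- the bound of the weight
  set K : ℝ := P₁ * ‖PB.JJ (TT G p) z‖ ^ (2 * a - 2) * E₁ * Real.exp (-(2 * C' * ρ w)) with hK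
  have hK0 : 0 ≤ K := by positivity
  have hφ : ∀ x ∈ Metric.ball z r,
      Real.exp ((fun y : MM G q => φ₀ (q y) - 2 * C' * ρ y +
        k * ∑ j, ‖piM G q y j - z₀ j‖ ^ 2) (s x)) ≤ K * ‖PB.JJ (TT G p) x‖ ^ 2 := by
    intro x hx
    have hx0 : 0 < ‖PB.JJ (TT G p) x‖ := norm_pos_iff.mpr (hxJ0 x hx)
    obtain ⟨-, hτx, hTx, -, hφx⟩ := hO (hBO x hx)
    simp only
    rw [hsq x hx, hsT x hx, hφx (hxc x hx), hxJ x hx]
    have hρx : |ρ (s x) - ρ w| ≤ Cρ := by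
      rw [hs1 x hx]
      exact (hσ _ (hxN x hx)).2.1
    have h1 : -(2 * C' * ρ (s x)) ≤ -(2 * C' * ρ w) + 2 * |C'| * Cρ := by
      have h2 : -(2 * C') * (ρ (s x) - ρ w) ≤ 2 * |C'| * Cρ := by
        calc -(2 * C') * (ρ (s x) - ρ w) ≤ |-(2 * C') * (ρ (s x) - ρ w)| := le_abs_self _
          _ = 2 * |C'| * |ρ (s x) - ρ w| := by
              rw [abs_mul, abs_neg, abs_mul, abs_of_pos (by norm_num : (0:ℝ) < 2)]
          _ ≤ 2 * |C'| * Cρ := by gcongr
      linarith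
    have h2 : k * ∑ j, ‖TT G p x j - z₀ j‖ ^ 2 ≤ k * MT := by gcongr
    have h3 : a * Real.log (‖PB.JJ (TT G p) x‖ ^ 2) + τ (e.symm x) - 2 * C' * ρ (s x) +
        k * ∑ j, ‖TT G p x j - z₀ j‖ ^ 2 ≤
        Real.log ‖PB.JJ (TT G p) x‖ * (2 * a) + ((Mτ + 2 * |C'| * Cρ + k * MT) +
          (-(2 * C' * ρ w))) := by
      rw [Real.log_pow]
      push_cast
      linarith
    refine (Real.exp_le_exp.mpr h3).trans ?_
    rw [Real.exp_add, Real.exp_add, ← Real.rpow_def_of_pos hx0]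
    have h4 : ‖PB.JJ (TT G p) x‖ ^ (2 * a) =
        ‖PB.JJ (TT G p) x‖ ^ (2 * a - 2) * ‖PB.JJ (TT G p) x‖ ^ 2 := by
      rw [← Real.rpow_natCast, ← Real.rpow_add hx0]
      congr 1
      push_cast
      ring
    have h5 := PB.rpow_compare (t := 2 * a - 2) hJpos (hcmp x hx).1 (hcmp x hx).2
    calc ‖PB.JJ (TT G p) x‖ ^ (2 * a) * (Real.exp (Mτ + 2 * |C'| * Cρ + k * MT) *
          Real.exp (-(2 * C' * ρ w)))
        = ‖PB.JJ (TT G p) x‖ ^ (2 * a - 2) * (‖PB.JJ (TT G p) x‖ ^ 2 * E₁ *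
          Real.exp (-(2 * C' * ρ w))) := by rw [h4]; ring
      _ ≤ (P₁ * ‖PB.JJ (TT G p) z‖ ^ (2 * a - 2)) * (‖PB.JJ (TT G p) x‖ ^ 2 * E₁ *
          Real.exp (-(2 * C' * ρ w))) := by gcongr
      _ = K * ‖PB.JJ (TT G p) x‖ ^ 2 := by rw [hK]; ring
  have hinv : ∀ x ∈ Metric.ball z r, (fderiv ℂ (TT G p) x).IsInvertible := fun x hx =>
    LM.isInvertible_iff_det.mpr (hxJ0 x hx)
  have hmain := PB.sheet_bound (isLocalHomeomorph_piM hG hq.localHomeo) hμ hr0
    (hTd.mono hxt) hinv hinj hsc hsT hh hK0 hI hφ hint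
  rw [hsz, MeasureTheory.Measure.addHaar_ball_of_pos _ _ hr0, ENNReal.toReal_mul,
    ENNReal.toReal_ofReal (by positivity), ← hv₁] at hmain
  have hfr : Module.finrank ℝ (Fin n → ℂ) = 2 * n := by
    rw [Module.finrank_pi_fintype]
    simp [Complex.finrank_real_complex, mul_comm]
  rw [hfr, hr, mul_pow] at hmain
  -- the final estimate
  set j := ‖PB.JJ (TT G p) z‖ with hj
  have hjt : j ^ t ≤ D := by
    rcases Nat.eq_zero_or_pos n with hn | hn
    · have h1 : PB.JJ (TT G p) z = 1 := by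
        subst hn
        unfold PB.JJ
        exact LinearMap.det_eq_one_of_subsingleton _
      have h2 : j = 1 := by rw [hj, h1, norm_one]
      rw [h2, Real.one_rpow]
      have : 0 < M ^ t := by positivity
      linarith
    · have hn' : (1 : ℝ) ≤ n := by exact_mod_cast hn
      have ht0 : 0 ≤ t := by rw [ht]; linarith
      calc j ^ t ≤ M ^ t := Real.rpow_le_rpow hJpos.le hzM ht0
        _ ≤ D := by rw [hD]; linarith
  have hjp : j ^ (2 * a - 2) = j ^ t * j ^ (2 * m) * j ^ (2 * n) := by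
    rw [← Real.rpow_natCast, ← Real.rpow_natCast, ← Real.rpow_add hJpos, ← Real.rpow_add hJpos]
    congr 1
    rw [ht]
    push_cast
    ring
  have hden : 0 < c ^ (2 * n) * v₁ := by positivity
  have hj2n : 0 < j ^ (2 * n) := by positivity
  have h6 : ‖h w‖ ^ 2 * (c ^ (2 * n) * v₁) ≤
      P₁ * E₁ * D * j ^ (2 * m) * Real.exp (-(2 * C' * ρ w)) * I := by
    have h7 : (‖h w‖ ^ 2 * (c ^ (2 * n) * v₁)) * j ^ (2 * n) ≤
        (P₁ * E₁ * D * j ^ (2 * m) * Real.exp (-(2 * C' * ρ w)) * I) * j ^ (2 * n) := by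
      calc (‖h w‖ ^ 2 * (c ^ (2 * n) * v₁)) * j ^ (2 * n)
          = ‖h w‖ ^ 2 * (c ^ (2 * n) * j ^ (2 * n) * v₁) := by ring
        _ ≤ K * I := hmain
        _ = j ^ t * (P₁ * E₁ * j ^ (2 * m) * Real.exp (-(2 * C' * ρ w)) * I * j ^ (2 * n)) := by
            rw [hK, hjp]; ring
        _ ≤ D * (P₁ * E₁ * j ^ (2 * m) * Real.exp (-(2 * C' * ρ w)) * I * j ^ (2 * n)) := by
            gcongr
        _ = _ := by ring
    exact le_of_mul_le_mul_right h7 hj2n
  rw [hJw, ← hj]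
  calc ‖h w‖ ^ 2 ≤ (P₁ * E₁ * D * j ^ (2 * m) * Real.exp (-(2 * C' * ρ w)) * I) /
        (c ^ (2 * n) * v₁) := by rwa [le_div_iff₀ hden]
    _ = _ := by ring

end

end Pool.Agent.Levi
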