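import Pool.Agent.Levi.Hormander
import Pool.Agent.Levi.CoordExh
import Pool.Agent.Levi.HCondCov
import Pool.Agent.Levi.PointBound
import Pool.Agent.Levi.Integration

/-!
# Decaying holomorphic functions on tame spaces over a Stein manifold
-/

set_option autoImplicit false
set_option linter.unusedSectionVars false

open Set Filter Topology MeasureTheory
open scoped ContDiff ComplexConjugate Manifold ENNReal

namespace Pool.Agent.Levi

open Pool.Agent.MEP

section Sheet

variable {n : ℕ} {M : Type} [TopologicalSpace M] {π : M → (Fin n → ℂ)} {s : (Fin n → ℂ) → M}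

/-- mean value inequality on a section of `π` over a ball -/
theorem sheet_mean [MeasurableSpace M] [BorelSpace M] {μ : Measure M}
    (hπ : IsLocalHomeomorph π) (hμ : IsFlatMeasure π μ) {z : Fin n → ℂ} {r : ℝ} (hr : 0 < r)
    (hs : ContinuousOn s (Metric.ball z r)) (hsT : ∀ x ∈ Metric.ball z r, π (s x) = x)
    {u : M → ℂ} (hd : DifferentiableOn ℂ (u ∘ s) (Metric.ball z r)) {φ : M → ℝ} {L I : ℝ}
    (hI : 0 ≤ I) (hφ : ∀ x ∈ Metric.ball z r, φ (s x) ≤ L)
    (hint : ∫⁻ x, ENNReal.ofReal (‖u x‖ ^ 2 * Real.exp (-φ x)) ∂μ ≤ ENNReal.ofReal I) :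
    ‖u (s z)‖ ^ 2 * (volume (Metric.ball z r)).toReal ≤ Real.exp L * I := by
  have hBo : IsOpen (Metric.ball z r) := Metric.isOpen_ball
  have hK : 0 ≤ Real.exp L := (Real.exp_pos _).le
  have hid : ∀ x : Fin n → ℂ, fderiv ℂ (id : (Fin n → ℂ) → (Fin n → ℂ)) x =
      ContinuousLinearMap.id ℂ (Fin n → ℂ) := fun x => fderiv_id
  have hJ : ∀ x : Fin n → ℂ, PB.JJ (id : (Fin n → ℂ) → (Fin n → ℂ)) x = 1 := by
    intro x
    unfold PB.JJ
    rw [hid]
    exact LinearMap.det_id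
  have hsheet := PB.lintegral_sheet (T := id) hπ hμ hBo differentiableOn_id
    (fun x _ => by
      rw [hid]
      exact ⟨ContinuousLinearEquiv.refl ℂ (Fin n → ℂ), rfl⟩) Function.injective_id.injOn hs hsT
    (fun x => ENNReal.ofReal (‖u x‖ ^ 2 * Real.exp (-φ x)))
  have h1 : ∫⁻ x in Metric.ball z r, ENNReal.ofReal (‖(u ∘ s) x‖ ^ 2) ≤
      ENNReal.ofReal (Real.exp L * I) := by
    calc ∫⁻ x in Metric.ball z r, ENNReal.ofReal (‖(u ∘ s) x‖ ^ 2)
        ≤ ∫⁻ x in Metric.ball z r, ENNReal.ofReal (Real.exp L) *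
            (ENNReal.ofReal (‖PB.JJ (id : (Fin n → ℂ) → (Fin n → ℂ)) x‖ ^ 2) *
            ENNReal.ofReal (‖u (s x)‖ ^ 2 * Real.exp (-φ (s x)))) := by
          refine setLIntegral_mono' hBo.measurableSet fun x hx => ?_
          rw [hJ, norm_one, one_pow, ENNReal.ofReal_one, one_mul, ← ENNReal.ofReal_mul hK]
          refine ENNReal.ofReal_le_ofReal ?_
          have h3 : 1 ≤ Real.exp L * Real.exp (-φ (s x)) := by
            rw [← Real.exp_add, Real.one_le_exp_iff]
            linarith [hφ x hx]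
          calc ‖(u ∘ s) x‖ ^ 2 = ‖u (s x)‖ ^ 2 * 1 := by rw [mul_one]; rfl
            _ ≤ ‖u (s x)‖ ^ 2 * (Real.exp L * Real.exp (-φ (s x))) := by gcongr
            _ = _ := by ring
      _ = ENNReal.ofReal (Real.exp L) * ∫⁻ x in Metric.ball z r,
            (ENNReal.ofReal (‖PB.JJ (id : (Fin n → ℂ) → (Fin n → ℂ)) x‖ ^ 2) *
            ENNReal.ofReal (‖u (s x)‖ ^ 2 * Real.exp (-φ (s x)))) :=
          lintegral_const_mul' _ _ ENNReal.ofReal_ne_top
      _ = ENNReal.ofReal (Real.exp L) * ∫⁻ y in s '' Metric.ball z r,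
            ENNReal.ofReal (‖u y‖ ^ 2 * Real.exp (-φ y)) ∂μ := by
          rw [hsheet]
      _ ≤ ENNReal.ofReal (Real.exp L) * ENNReal.ofReal I := by
          gcongr
          exact (setLIntegral_le_lintegral _ _).trans hint
      _ = ENNReal.ofReal (Real.exp L * I) := (ENNReal.ofReal_mul hK).symm
  have hmeas : AEStronglyMeasurable (fun x => ‖(u ∘ s) x‖ ^ 2)
      (volume.restrict (Metric.ball z r)) :=
    ((hd.continuousOn.norm).pow 2).aestronglyMeasurable hBo.measurableSet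
  have hi : IntegrableOn (fun x => ‖(u ∘ s) x‖ ^ 2) (Metric.ball z r) := by
    refine ⟨hmeas, ?_⟩
    rw [hasFiniteIntegral_iff_ofReal (ae_of_all _ fun x => by positivity)]
    exact h1.trans_lt ENNReal.ofReal_lt_top
  have h2 := norm_sq_le_integral hr hd hi
  refine h2.trans ?_
  rw [integral_eq_lintegral_of_nonneg_ae (ae_of_all _ fun x => by positivity) hmeas]
  refine ENNReal.toReal_le_of_le_ofReal (by positivity) ?_
  exact h1

/-- two sections of `π` over a ball that agree at one point are equal -/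
theorem section_unique [T2Space M] (hπ : IsLocalHomeomorph π) {z : Fin n → ℂ} {r : ℝ}
    {s₁ s₂ : (Fin n → ℂ) → M}
    (h1 : ContinuousOn s₁ (Metric.ball z r)) (h2 : ContinuousOn s₂ (Metric.ball z r))
    (h1π : ∀ x ∈ Metric.ball z r, π (s₁ x) = x) (h2π : ∀ x ∈ Metric.ball z r, π (s₂ x) = x)
    {x : Fin n → ℂ} (hx : x ∈ Metric.ball z r) (h : s₁ x = s₂ x) :
    EqOn s₁ s₂ (Metric.ball z r) :=
  (T2Space.isSeparatedMap π).eqOn_of_comp_eqOn hπ.isLocallyInjective
    (convex_ball z r).isPreconnected h1 h2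
    (fun y hy => by
      simp only [Function.comp_apply]
      rw [h1π y hy, h2π y hy]) hx h

end Sheet

section QForm

variable {n : ℕ} {M : Type} [TopologicalSpace M] {π : M → (Fin n → ℂ)}

theorem comp_localInverseAt_Q (hπ : IsLocalHomeomorph π) (z₀ : Fin n → ℂ) (w : M) :
    (fun x => ∑ j, ‖π x j - z₀ j‖ ^ 2) ∘ hπ.localInverseAt w =ᶠ[𝓝 (π w)]
      fun z => ∑ j, ‖z j - z₀ j‖ ^ 2 := by
  filter_upwards [(hπ.localInverseAt w).open_source.mem_nhds
    hπ.apply_self_mem_localInverseAt_source] with z hz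
  simp only [Function.comp_apply]
  rw [hπ.apply_localInverseAt_of_mem hz]

theorem rsmooth_Q (hπ : IsLocalHomeomorph π) (z₀ : Fin n → ℂ) :
    RSmooth hπ (fun x => ∑ j, ‖π x j - z₀ j‖ ^ 2) := by
  intro w
  refine ContDiffAt.congr_of_eventuallyEq ?_ (comp_localInverseAt_Q hπ z₀ w)
  refine ContDiffAt.sum fun j _ => ?_
  refine ContDiffAt.norm_sq ℝ ?_
  exact ((ContinuousLinearMap.proj (R := ℝ) (φ := fun _ : Fin n => ℂ) j).contDiff.contDiffAt).sub
    contDiffAt_const

theorem levi_Q_nonneg (hπ : IsLocalHomeomorph π) (z₀ : Fin n → ℂ) (w : M) (ξ : Fin n → ℂ) :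
    0 ≤ levi hπ (fun x => ∑ j, ‖π x j - z₀ j‖ ^ 2) w ξ := by
  rw [levi_eq_LL_inv hπ (rsmooth_Q hπ z₀), LL_congr (comp_localInverseAt_Q hπ z₀ w)]
  have hd : ∀ j : Fin n, DifferentiableOn ℂ (fun z : Fin n → ℂ => z j - z₀ j) univ := by
    intro j
    fun_prop
  have hc : ∀ j ∈ (Finset.univ : Finset (Fin n)),
      ContDiffAt ℝ 2 (fun z : Fin n → ℂ => ‖z j - z₀ j‖ ^ 2) (π w) := by
    intro j _
    refine ContDiffAt.norm_sq ℝ ?_
    exact ((ContinuousLinearMap.proj (R := ℝ) (φ := fun _ : Fin n => ℂ) j).contDiff.contDiffAt).sub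
      contDiffAt_const
  rw [LL_sum hc]
  refine mul_nonneg (by norm_num) (Finset.sum_nonneg fun j _ => ?_)
  rw [LL_norm_sq isOpen_univ (hd j) (mem_univ _)]
  positivity

theorem levi_const_mul_nonneg (hπ : IsLocalHomeomorph π) {u : M → ℝ} (hu : RSmooth hπ u)
    {k : ℝ} (hk : 0 ≤ k) {w : M} {ξ : Fin n → ℂ} (h : 0 ≤ levi hπ u w ξ) :
    0 ≤ levi hπ (fun x => k * u x) w ξ := by
  have hs : RSmooth hπ (fun x => k * u x) := fun w => contDiffAt_const.mul (hu w)
  rw [levi_eq_LL_inv hπ hs]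
  rw [levi_eq_LL_inv hπ hu] at h
  have e : (fun x => k * u x) ∘ hπ.localInverseAt w =
      fun z => k * (u ∘ hπ.localInverseAt w) z := rfl
  rw [e, LL_const_mul ((hu w).of_le (by norm_cast))]
  have : 0 ≤ LL (u ∘ hπ.localInverseAt w) (π w) ξ := by linarith
  positivity

end QForm

end Pool.Agent.Levi
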