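import Pool.Agent.Levi.Decay

/-!
# Decaying holomorphic functions on tame spaces over a Stein manifold: the `L²` construction
-/

set_option autoImplicit false
set_option linter.unusedSectionVars false

open Set Filter Topology MeasureTheory
open scoped ContDiff ComplexConjugate Manifold ENNReal

namespace Pool.Agent.Levi

open Pool.Agent.MEP

section

variable {n : ℕ} {S : Type} [TopologicalSpace S] [T2Space S] [SecondCountableTopology S]
  [ConnectedSpace S] [ChartedSpace (Fin n → ℂ) S] [IsManifold 𝓘(ℂ, Fin n → ℂ) ω S]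
  {W : Type} [TopologicalSpace W] [T2Space W] [SecondCountableTopology W]
  {q : W → S} {ρ : W → ℝ} {G : S → (Fin n → ℂ)}

theorem hcond_piM (hS : IsStein n S) (hq : IsTame n q ρ)
    (hG : MDifferentiable 𝓘(ℂ, Fin n → ℂ) 𝓘(ℂ, Fin n → ℂ) G) :
    HCond (isLocalHomeomorph_piM hG hq.localHomeo) := by
  obtain ⟨ψ₀, h1, h2, h3, h4⟩ := exists_exhaustion_coord hS hq hG
  exact hcond_piM_of hq hG h1 h2 h3 h4

theorem exists_decaying_core (hS : IsStein n S) (hq : IsTame n q ρ)
    (hG : MDifferentiable 𝓘(ℂ, Fin n → ℂ) 𝓘(ℂ, Fin n → ℂ) G) (w₀ : MM G q)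
    (m : ℕ) (C' : ℝ) {ε : ℝ} (hε : 0 < ε) :
    ∃ h : MM G q → ℂ, RHolo (isLocalHomeomorph_piM hG hq.localHomeo) h ∧ ‖h w₀ - 1‖ ≤ ε ∧
      (∀ w : MM G q, q w = q w₀ → w ≠ w₀ → ‖h w‖ ≤ ε * Real.exp (-(C' * ρ w))) ∧
      ∀ p : S, ∃ N ∈ 𝓝 p, ∃ C : ℝ, 0 ≤ C ∧ ∀ w : MM G q, q w ∈ N →
        ‖h w‖ ≤ C * ‖jac G p (q w)‖ ^ m * Real.exp (-(C' * ρ w)) := by
  classical
  let _ : MeasurableSpace (MM G q) := borel _
  have _ : BorelSpace (MM G q) := ⟨rfl⟩
  have _ : SecondCountableTopology (MM G q) :=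
    TopologicalSpace.Subtype.secondCountableTopology {w : W | IsCoordinateAt G (q w)}
  set hπ := isLocalHomeomorph_piM hG hq.localHomeo with hπdef
  obtain ⟨μ, hμ⟩ := exists_isFlatMeasure hπ
  have _ : IsLocallyFiniteMeasure μ := hμ.isLocallyFinite hπ
  obtain ⟨φ₀, hφ₀, hφs, hφl⟩ := exists_weight hS hq hG (m + 2 * n) C'
  have hC : HCond hπ := hcond_piM hS hq hG
  set φ : MM G q → ℝ := fun w => φ₀ (q w) - 2 * C' * ρ w with hφdef
  set z₀ := piM G q w₀ with hz₀
  set Q : MM G q → ℝ := fun x => ∑ j, ‖piM G q x j - z₀ j‖ ^ 2 with hQdef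
  have hQs : RSmooth hπ Q := rsmooth_Q hπ z₀
  have hQnn : ∀ x, 0 ≤ Q x := fun x => Finset.sum_nonneg fun j _ => by positivity
  have hφks : ∀ k : ℝ, RSmooth hπ (fun x => φ x + k * Q x) := fun k =>
    hφs.add fun w => contDiffAt_const.mul (hQs w)
  have hφkl : ∀ k : ℝ, 0 ≤ k → ∀ x (ξ : Fin n → ℂ), ∑ j, ‖ξ j‖ ^ 2 ≤
      levi hπ (fun x => φ x + k * Q x) x ξ := by
    intro k hk x ξ
    rw [levi_add hπ hφs (fun w => contDiffAt_const.mul (hQs w))]
    have h1 := hφl x ξ
    have h2 := levi_const_mul_nonneg hπ hQs hk (levi_Q_nonneg hπ z₀ x ξ)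
    linarith
  -- sheets over a neighbourhood of `q w₀`
  obtain ⟨N, hN, hpN, hNs, Cρ, hCρ⟩ := hq.sheets (q w₀)
  have hCρ0 : 0 ≤ Cρ := by
    obtain ⟨σ, -, -, hσ⟩ := hCρ w₀ hpN
    exact (abs_nonneg _).trans (hσ _ hpN).2.1
  obtain ⟨g, hg0, hgG⟩ := isLocalHomeomorphOn_coord hG (q w₀) w₀.2
  have hGz : G (q w₀) = z₀ := rfl
  have hgz : g (q w₀) = z₀ := by rw [← hgG]; exact hGz
  have hz₀t : z₀ ∈ g.target := by rw [← hgz]; exact g.map_source hg0
  have hγz : g.symm z₀ = q w₀ := by rw [← hgz, g.left_inv hg0]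
  have hGγ : ∀ z ∈ g.target, G (g.symm z) = z := by
    intro z hz
    rw [hgG]
    exact g.right_inv hz
  have hγc : Tendsto g.symm (𝓝 z₀) (𝓝 (q w₀)) := by
    have := (g.continuousAt_symm hz₀t).tendsto
    rwa [hγz] at this
  have hφcont : ContinuousAt φ₀ (q w₀) := by
    obtain ⟨τ, hτs, hτ⟩ := hφ₀ (q w₀)
    exact continuousAt_of_chart (contDiffAt_lam hG hτs hτ w₀.2)
  obtain ⟨r₀, hr₀, hball⟩ : ∃ r₀ > 0, ∀ z ∈ Metric.ball z₀ r₀, z ∈ g.target ∧ g.symm z ∈ N ∧
      IsCoordinateAt G (g.symm z) ∧ z ∈ (hπ.localInverseAt w₀).source ∧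
      φ₀ (g.symm z) < φ₀ (q w₀) + 1 := by
    have h1 : ∀ᶠ z in 𝓝 z₀, z ∈ g.target ∧ g.symm z ∈ N ∧
      IsCoordinateAt G (g.symm z) ∧ z ∈ (hπ.localInverseAt w₀).source ∧
      φ₀ (g.symm z) < φ₀ (q w₀) + 1 := by
      filter_upwards [g.open_target.mem_nhds hz₀t, hγc.eventually (hN.mem_nhds hpN),
        hγc.eventually ((isOpen_coord hG).mem_nhds w₀.2),
        (hπ.localInverseAt w₀).open_source.mem_nhds hπ.apply_self_mem_localInverseAt_source,
        hγc.eventually (hφcont.eventually (gt_mem_nhds (lt_add_one _)))] with z a b c d e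
      exact ⟨a, b, c, d, e⟩
    obtain ⟨r, hr, h2⟩ := Metric.eventually_nhds_iff_ball.mp h1
    exact ⟨r, hr, h2⟩
  -- the bump function
  have hV : piM G q ⁻¹' Metric.ball z₀ r₀ ∈ 𝓝 w₀ :=
    hπ.continuous.continuousAt (Metric.ball_mem_nhds z₀ hr₀)
  obtain ⟨b, hbs, hbc, hbsub, hb0, hb1, hbev⟩ := exists_bump hπ w₀ hV
  set χ : MM G q → ℂ := fun x => (b x : ℂ) with hχdef
  have hχs : tsupport χ ⊆ tsupport b := by
    refine closure_mono fun x hx => ?_
    rw [Function.mem_support] at hx ⊢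
    intro h
    exact hx (by simp [hχdef, h])
  have hχ : IsTest hπ χ := by
    refine ⟨hbs.ofReal, ?_⟩
    exact hbc.of_isClosed_subset (isClosed_tsupport _) hχs
  -- `b = 1` on a ball
  obtain ⟨r₁, hr₁, hr₁₀, hb1ball⟩ : ∃ r₁ > 0, r₁ ≤ r₀ ∧ ∀ z ∈ Metric.ball z₀ r₁,
      b (hπ.localInverseAt w₀ z) = 1 := by
    have h1 : Tendsto (hπ.localInverseAt w₀) (𝓝 z₀) (𝓝 w₀) := by
      have := ((hπ.localInverseAt w₀).continuousAt
        hπ.apply_self_mem_localInverseAt_source).tendsto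
      rwa [hπ.localInverseAt_apply_self] at this
    obtain ⟨r, hr, h2⟩ := Metric.eventually_nhds_iff_ball.mp (h1.eventually hbev)
    exact ⟨min r r₀, lt_min hr hr₀, min_le_right _ _, fun z hz =>
      h2 z (Metric.ball_subset_ball (min_le_left _ _) hz)⟩
  -- `∂̄χ` is supported where `Q ≥ r₁²`
  have hdχ : ∀ x, (∃ j, dzb hπ χ j x ≠ 0) → r₁ ^ 2 ≤ Q x := by
    rintro x ⟨j, hj⟩
    by_contra hlt
    rw [not_le] at hlt
    apply hj
    have hxs : x ∈ tsupport b := by
      by_contra hx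
      exact hj (dzb_eq_zero hπ (eventuallyEq_zero_of_notMem fun h => hx (hχs h)) j)
    have hxt : x ∈ (hπ.localInverseAt w₀).target := (hbsub hxs).2
    have hxball : piM G q x ∈ Metric.ball z₀ r₁ := by
      rw [Metric.mem_ball, dist_eq_norm, pi_norm_lt_iff hr₁]
      intro i
      have h1 : ‖piM G q x i - z₀ i‖ ^ 2 < r₁ ^ 2 :=
        lt_of_le_of_lt (Finset.single_le_sum
          (f := fun j => ‖piM G q x j - z₀ j‖ ^ 2) (fun j _ => by positivity)
          (Finset.mem_univ i)) hlt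
      rw [Pi.sub_apply]
      exact lt_of_pow_lt_pow_left₀ 2 hr₁.le h1
    have hev : χ =ᶠ[𝓝 x] fun _ => 1 := by
      filter_upwards [(hπ.localInverseAt w₀).open_target.mem_nhds hxt,
        hπ.continuous.continuousAt (Metric.isOpen_ball.mem_nhds hxball)] with y hy1 hy2
      have h1 := hb1ball _ hy2
      rw [inv_apply hπ hy1] at h1
      simp [hχdef, h1]
    have h2 : dzb hπ χ j x = dzb hπ (fun _ => (1 : ℂ)) j x := by
      unfold dzb
      rw [rderiv_congr hπ hev, rderiv_congr hπ hev]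
    rw [h2, dzb_const]
  -- the right hand side
  set dd : MM G q → ℝ := fun x => ∑ j, ‖dzb hπ χ j x‖ ^ 2 with hdd
  have hddnn : ∀ x, 0 ≤ dd x := fun x => Finset.sum_nonneg fun j _ => by positivity
  have hddc : Continuous dd :=
    continuous_finsetSum _ fun j _ => ((hχ.smooth.dzb j).continuous.norm).pow 2
  have hφc : Continuous φ := hφs.continuous
  have hQc : Continuous Q := hQs.continuous
  have hddsupp : HasCompactSupport dd := by
    refine hbc.of_isClosed_subset (isClosed_tsupport _) ?_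
    refine closure_minimal (fun x hx => ?_) (isClosed_tsupport _)
    by_contra hxs
    apply hx
    simp only [hdd]
    refine Finset.sum_eq_zero fun j _ => ?_
    rw [dzb_eq_zero hπ (eventuallyEq_zero_of_notMem fun h => hxs (hχs h)) j]
    simp
  have hint : Integrable (fun x => dd x * Real.exp (-φ x)) μ := by
    refine (hddc.mul (Real.continuous_exp.comp hφc.neg)).integrable_of_hasCompactSupport ?_
    exact hddsupp.mul_right
  set A : ℝ := 2 * ∫ x, dd x * Real.exp (-φ x) ∂μ with hA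
  have hA0 : 0 ≤ A := by
    refine mul_nonneg (by norm_num) (integral_nonneg fun x => ?_)
    exact mul_nonneg (hddnn x) (Real.exp_pos _).le
  have hrhs : ∀ k : ℝ, 0 ≤ k → 2 * ∫ x, dd x * Real.exp (-(φ x + k * Q x)) ∂μ ≤
      A * Real.exp (-(k * r₁ ^ 2)) := by
    intro k hk
    rw [hA, mul_assoc, ← integral_mul_const]
    refine mul_le_mul_of_nonneg_left ?_ (by norm_num)
    refine integral_mono_of_nonneg (ae_of_all _ fun x => ?_) (hint.mul_const _)
      (ae_of_all _ fun x => ?_)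
    · exact mul_nonneg (hddnn x) (Real.exp_pos _).le
    · simp only
      by_cases hx : ∃ j, dzb hπ χ j x ≠ 0
      · have h1 := hdχ x hx
        rw [mul_assoc, ← Real.exp_add]
        refine mul_le_mul_of_nonneg_left (Real.exp_le_exp.mpr ?_) (hddnn x)
        nlinarith [mul_le_mul_of_nonneg_left h1 hk]
      · push Not at hx
        have h1 : dd x = 0 := by
          simp only [hdd]
          exact Finset.sum_eq_zero fun j _ => by rw [hx j]; simp
        rw [h1]
        simp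
  -- small radius
  obtain ⟨r₂, hr₂, hr₂₁, hr₂n⟩ : ∃ r₂ > 0, r₂ ≤ r₁ ∧ n * r₂ ^ 2 ≤ r₁ ^ 2 / 2 := by
    refine ⟨r₁ / (2 * (n + 1)), by positivity, ?_, ?_⟩
    · rw [div_le_iff₀ (by positivity)]
      nlinarith [(Nat.cast_nonneg n : (0 : ℝ) ≤ n)]
    · rw [div_pow, mul_div_assoc', div_le_div_iff₀ (by positivity) (by positivity)]
      have hn : (0 : ℝ) ≤ n := Nat.cast_nonneg n
      nlinarith [mul_nonneg hn (sq_nonneg r₁), mul_nonneg (mul_nonneg hn hn) (sq_nonneg r₁),
        sq_nonneg r₁]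
  set vol : ℝ := (volume (Metric.ball z₀ r₂)).toReal with hvol
  have hvol0 : 0 < vol := ENNReal.toReal_pos (Metric.measure_ball_pos _ _ hr₂).ne'
    Metric.isBounded_ball.measure_lt_top.ne
  set L : ℝ := φ₀ (q w₀) + 1 + 2 * |C'| * Cρ with hL
  -- the choice of `k`
  obtain ⟨k, hk0, hk⟩ : ∃ k : ℝ, 0 ≤ k ∧
      (Real.exp L * A / vol) * (1 + Real.exp (-(2 * C' * ρ w₀))) *
        Real.exp (-(k * (r₁ ^ 2 / 2))) ≤ ε ^ 2 := by
    have h1 : Tendsto (fun k : ℝ => (Real.exp L * A / vol) *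
        (1 + Real.exp (-(2 * C' * ρ w₀))) * Real.exp (-(k * (r₁ ^ 2 / 2)))) atTop
        (𝓝 ((Real.exp L * A / vol) * (1 + Real.exp (-(2 * C' * ρ w₀))) * 0)) := by
      refine Tendsto.const_mul _ (Real.tendsto_exp_neg_atTop_nhds_zero.comp ?_)
      exact tendsto_id.atTop_mul_const (by positivity)
    rw [mul_zero] at h1
    obtain ⟨k, hk1, hk2⟩ := ((h1.eventually (gt_mem_nhds (show 0 < ε ^ 2 by positivity))).and
      (eventually_ge_atTop 0)).exists
    exact ⟨k, hk2, hk1.le⟩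
  obtain ⟨h, hh, hhint⟩ := hormander hπ hμ hC (hφks k)
    (fun x ξ => (Finset.sum_nonneg fun j _ => by positivity).trans (hφkl k hk0 x ξ)) hχ
    (fun x _ ξ => hφkl k hk0 x ξ)
  have hI0 : 0 ≤ A * Real.exp (-(k * r₁ ^ 2)) := mul_nonneg hA0 (Real.exp_pos _).le
  have hhint' : ∫⁻ x, ENNReal.ofReal (‖h x - χ x‖ ^ 2 * Real.exp (-(φ x + k * Q x))) ∂μ ≤
      ENNReal.ofReal (A * Real.exp (-(k * r₁ ^ 2))) :=
    hhint.trans (ENNReal.ofReal_le_ofReal (hrhs k hk0))
  -- sections over the small ball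
  have hsec : ∀ w : MM G q, q w = q w₀ → ∃ s : (Fin n → ℂ) → MM G q,
      ContinuousOn s (Metric.ball z₀ r₀) ∧ (∀ x ∈ Metric.ball z₀ r₀, piM G q (s x) = x) ∧
      s z₀ = w ∧ ∀ x ∈ Metric.ball z₀ r₂, φ (s x) + k * Q (s x) ≤
        L - 2 * C' * ρ w + k * (r₁ ^ 2 / 2) := by
    intro w hw
    obtain ⟨σ, hσw, hσc, hσ⟩ := hCρ w (by rw [hw]; exact hpN)
    let s : (Fin n → ℂ) → MM G q := fun z =>
      if hz : IsCoordinateAt G (q (σ (g.symm z))) then ⟨σ (g.symm z), hz⟩ else w
    have hs1 : ∀ z ∈ Metric.ball z₀ r₀, ((s z : MM G q) : W) = σ (g.symm z) := by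
      intro z hz
      have h1 : IsCoordinateAt G (q (σ (g.symm z))) := by
        rw [(hσ _ (hball z hz).2.1).1]
        exact (hball z hz).2.2.1
      simp only [s, dif_pos h1]
    have hsq : ∀ z ∈ Metric.ball z₀ r₀, q (s z) = g.symm z := by
      intro z hz
      rw [hs1 z hz, (hσ _ (hball z hz).2.1).1]
    have hsπ : ∀ x ∈ Metric.ball z₀ r₀, piM G q (s x) = x := by
      intro x hx
      show G (q (s x)) = x
      rw [hsq x hx, hGγ x (hball x hx).1]
    refine ⟨s, ?_, hsπ, ?_, ?_⟩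
    · have h1 : ContinuousOn (fun z => ((s z : MM G q) : W)) (Metric.ball z₀ r₀) := by
        have h2 : ContinuousOn (fun z => σ (g.symm z)) (Metric.ball z₀ r₀) :=
          hσc.comp (g.continuousOn_symm.mono fun z hz => (hball z hz).1)
            fun z hz => (hball z hz).2.1
        exact h2.congr hs1
      exact Topology.IsInducing.subtypeVal.continuousOn_iff.mpr h1
    · apply Subtype.ext
      rw [hs1 z₀ (Metric.mem_ball_self hr₀), hγz, ← hw, hσw]
    · intro x hx
      have hx0 : x ∈ Metric.ball z₀ r₀ :=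
        Metric.ball_subset_ball (hr₂₁.trans hr₁₀) hx
      have h1 := (hball x hx0).2.2.2.2
      have h2 := (hσ _ (hball x hx0).2.1).2.1
      rw [← hs1 x hx0] at h2
      have h3 : Q (s x) ≤ r₁ ^ 2 / 2 := by
        refine le_trans ?_ hr₂n
        calc Q (s x) ≤ ∑ _j : Fin n, r₂ ^ 2 := by
              refine Finset.sum_le_sum fun j _ => ?_
              rw [hsπ x hx0]
              rw [Metric.mem_ball, dist_eq_norm] at hx
              have := (norm_le_pi_norm (x - z₀) j).trans hx.le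
              rw [Pi.sub_apply] at this
              gcongr
          _ = n * r₂ ^ 2 := by
              rw [Finset.sum_const, Finset.card_univ, Fintype.card_fin, nsmul_eq_mul]
      have h4 : k * Q (s x) ≤ k * (r₁ ^ 2 / 2) := by gcongr
      have h5 : -(2 * C' * ρ (s x)) ≤ -(2 * C' * ρ w) + 2 * |C'| * Cρ := by
        have h6 : |C' * (ρ (s x) - ρ w)| ≤ |C'| * Cρ := by
          rw [abs_mul]
          gcongr
        have h7 := (abs_le.mp h6).1
        nlinarith [h7]
      show φ₀ (q (s x)) - 2 * C' * ρ (s x) + k * Q (s x) ≤ _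
      rw [hsq x hx0]
      rw [hL]
      linarith
  -- the final estimate on the fibre
  have hfib : ∀ w : MM G q, q w = q w₀ → ∀ c : ℂ,
      (∀ s : (Fin n → ℂ) → MM G q, ContinuousOn s (Metric.ball z₀ r₀) →
        (∀ x ∈ Metric.ball z₀ r₀, piM G q (s x) = x) → s z₀ = w →
        ∀ x ∈ Metric.ball z₀ r₁, χ (s x) = c) →
      ‖h w - c‖ ^ 2 ≤ (Real.exp L * A / vol) * Real.exp (-(2 * C' * ρ w)) *
        Real.exp (-(k * (r₁ ^ 2 / 2))) := by
    intro w hw c hc
    obtain ⟨s, hsc, hsπ, hs0, hsφ⟩ := hsec w hw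
    have hcs := hc s hsc hsπ hs0
    have hsub : Metric.ball z₀ r₂ ⊆ Metric.ball z₀ r₀ :=
      Metric.ball_subset_ball (hr₂₁.trans hr₁₀)
    have hd : DifferentiableOn ℂ ((fun x => h x - χ x) ∘ s) (Metric.ball z₀ r₂) := by
      have h1 : DifferentiableOn ℂ (fun x => h (s x) - c) (Metric.ball z₀ r₂) := by
        intro x hx
        have hx0 := hsub hx
        have h2 : DifferentiableAt ℂ (h ∘ s) x :=
          comp_s_differentiableAt hπ (w := s x) (s := s) (ζ := x) (T := id) rfl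
            (hsc.continuousAt (Metric.isOpen_ball.mem_nhds hx0))
            (by
              filter_upwards [Metric.isOpen_ball.mem_nhds hx0] with y hy
              exact hsπ y hy)
            differentiableAt_id (hh (s x))
        exact (h2.sub_const c).differentiableWithinAt
      refine h1.congr fun x hx => ?_
      simp only [Function.comp_apply]
      rw [hcs x (Metric.ball_subset_ball hr₂₁ hx)]
    have h1 := sheet_mean hπ hμ hr₂ (hsc.mono hsub) (fun x hx => hsπ x (hsub hx)) hd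
      (φ := fun x => φ x + k * Q x) hI0 hsφ hhint'
    rw [hs0] at h1
    have h2 : χ w = c := by
      rw [← hs0]
      exact hcs z₀ (Metric.mem_ball_self hr₁)
    simp only [h2] at h1
    have h3 : ‖h w - c‖ ^ 2 ≤ Real.exp (L - 2 * C' * ρ w + k * (r₁ ^ 2 / 2)) *
        (A * Real.exp (-(k * r₁ ^ 2))) / vol := by
      rw [le_div_iff₀ hvol0]
      exact h1
    refine h3.trans (le_of_eq ?_)
    have h4 : Real.exp (L - 2 * C' * ρ w + k * (r₁ ^ 2 / 2)) * (A * Real.exp (-(k * r₁ ^ 2))) =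
        Real.exp L * A * Real.exp (-(2 * C' * ρ w)) * Real.exp (-(k * (r₁ ^ 2 / 2))) := by
      have h5 : Real.exp (L - 2 * C' * ρ w + k * (r₁ ^ 2 / 2)) * Real.exp (-(k * r₁ ^ 2)) =
          Real.exp L * Real.exp (-(2 * C' * ρ w)) * Real.exp (-(k * (r₁ ^ 2 / 2))) := by
        rw [← Real.exp_add, ← Real.exp_add, ← Real.exp_add]
        congr 1
        ring
      calc _ = A * (Real.exp (L - 2 * C' * ρ w + k * (r₁ ^ 2 / 2)) *
            Real.exp (-(k * r₁ ^ 2))) := by ring
        _ = _ := by rw [h5]; ring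
    rw [h4]
    ring
  have hE0 : 0 ≤ Real.exp L * A / vol := by positivity
  have hlsec : ContinuousOn (hπ.localInverseAt w₀) (Metric.ball z₀ r₀) :=
    (hπ.localInverseAt w₀).continuousOn.mono fun z hz => (hball z hz).2.2.2.1
  have hlπ : ∀ x ∈ Metric.ball z₀ r₀, piM G q (hπ.localInverseAt w₀ x) = x := fun x hx =>
    hπ.apply_localInverseAt_of_mem (hball x hx).2.2.2.1
  refine ⟨h, hh, ?_, ?_, ?_⟩
  · -- at `w₀`
    have h1 := hfib w₀ rfl 1 (by
      intro s hsc hsπ hs0 x hx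
      have h2 := section_unique hπ hsc hlsec hsπ hlπ (Metric.mem_ball_self hr₀)
        (by rw [hs0, hz₀, hπ.localInverseAt_apply_self])
      rw [h2 (Metric.ball_subset_ball hr₁₀ hx)]
      simp only [hχdef, hb1ball x hx, Complex.ofReal_one])
    have h2 : ‖h w₀ - 1‖ ^ 2 ≤ ε ^ 2 := by
      refine h1.trans (le_trans ?_ hk)
      have h3 : Real.exp (-(2 * C' * ρ w₀)) ≤ 1 + Real.exp (-(2 * C' * ρ w₀)) := by linarith
      gcongr
    exact (sq_le_sq₀ (norm_nonneg _) hε.le).mp h2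
  · -- at the other points of the fibre
    intro w hw hne
    have h1 := hfib w hw 0 (by
      intro s hsc hsπ hs0 x hx
      by_contra hne0
      have hx0 : x ∈ Metric.ball z₀ r₀ := Metric.ball_subset_ball hr₁₀ hx
      have h3 : s x ∈ tsupport b := by
        apply subset_tsupport
        rw [Function.mem_support]
        intro h
        exact hne0 (by simp [hχdef, h])
      have h4 : s x ∈ (hπ.localInverseAt w₀).target := (hbsub h3).2
      have h5 := inv_apply hπ h4
      rw [hsπ x hx0] at h5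
      have h6 := section_unique hπ hsc hlsec hsπ hlπ hx0 h5.symm
      apply hne
      rw [← hs0, h6 (Metric.mem_ball_self hr₀), hz₀, hπ.localInverseAt_apply_self])
    rw [sub_zero] at h1
    have h2 : ‖h w‖ ^ 2 ≤ (ε * Real.exp (-(C' * ρ w))) ^ 2 := by
      have h3 : (ε * Real.exp (-(C' * ρ w))) ^ 2 = ε ^ 2 * Real.exp (-(2 * C' * ρ w)) := by
        rw [mul_pow, ← Real.exp_nat_mul]
        congr 2
        push_cast
        ring
      rw [h3]
      have h4 : (Real.exp L * A / vol) * Real.exp (-(k * (r₁ ^ 2 / 2))) ≤ ε ^ 2 := by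
        refine le_trans ?_ hk
        have h5 : (1 : ℝ) ≤ 1 + Real.exp (-(2 * C' * ρ w₀)) := by
          linarith [Real.exp_pos (-(2 * C' * ρ w₀))]
        calc (Real.exp L * A / vol) * Real.exp (-(k * (r₁ ^ 2 / 2))) =
            (Real.exp L * A / vol) * 1 * Real.exp (-(k * (r₁ ^ 2 / 2))) := by ring
          _ ≤ _ := by gcongr
      calc ‖h w‖ ^ 2 ≤ _ := h1
        _ = ((Real.exp L * A / vol) * Real.exp (-(k * (r₁ ^ 2 / 2)))) *
            Real.exp (-(2 * C' * ρ w)) := by ring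
        _ ≤ _ := by gcongr
    exact (sq_le_sq₀ (norm_nonneg _) (by positivity)).mp h2
  · -- the pointwise bound
    intro p
    obtain ⟨N', hN', C, hCb⟩ := pointwise_bound hq hG hμ hφ₀ k hk0 z₀ m le_rfl p
    have hcχ : Continuous (fun x => ‖χ x‖ ^ 2 * Real.exp (-(φ x + k * Q x))) :=
      ((hχ.smooth.continuous.norm).pow 2).mul
        (Real.continuous_exp.comp (hφc.add (continuous_const.mul hQc)).neg)
    have hintχ : Integrable (fun x => ‖χ x‖ ^ 2 * Real.exp (-(φ x + k * Q x))) μ := by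
      refine hcχ.integrable_of_hasCompactSupport ?_
      refine HasCompactSupport.mul_right ?_
      refine hχ.compact.of_isClosed_subset (isClosed_tsupport _) (closure_mono fun x hx => ?_)
      rw [Function.mem_support] at hx ⊢
      intro h
      exact hx (by simp [h])
    set J : ℝ := ∫ x, ‖χ x‖ ^ 2 * Real.exp (-(φ x + k * Q x)) ∂μ with hJ
    have hJ0 : 0 ≤ J := integral_nonneg fun x => by positivity
    set I : ℝ := 2 * (A * Real.exp (-(k * r₁ ^ 2))) + 2 * J with hI
    have hI0' : 0 ≤ I := by positivity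
    have hhI : ∫⁻ x, ENNReal.ofReal (‖h x‖ ^ 2 * Real.exp (-(φ x + k * Q x))) ∂μ ≤
        ENNReal.ofReal I := by
      calc ∫⁻ x, ENNReal.ofReal (‖h x‖ ^ 2 * Real.exp (-(φ x + k * Q x))) ∂μ
          ≤ ∫⁻ x, (ENNReal.ofReal 2 * ENNReal.ofReal (‖h x - χ x‖ ^ 2 *
              Real.exp (-(φ x + k * Q x))) + ENNReal.ofReal 2 *
              ENNReal.ofReal (‖χ x‖ ^ 2 * Real.exp (-(φ x + k * Q x)))) ∂μ := by
            refine lintegral_mono fun x => ?_
            rw [← ENNReal.ofReal_mul (by norm_num), ← ENNReal.ofReal_mul (by norm_num),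
              ← ENNReal.ofReal_add (by positivity) (by positivity)]
            refine ENNReal.ofReal_le_ofReal ?_
            have h1 : ‖h x‖ ≤ ‖h x - χ x‖ + ‖χ x‖ := by
              have := norm_add_le (h x - χ x) (χ x)
              rwa [sub_add_cancel] at this
            have h2 : ‖h x‖ ^ 2 ≤ 2 * ‖h x - χ x‖ ^ 2 + 2 * ‖χ x‖ ^ 2 := by
              nlinarith [norm_nonneg (h x), norm_nonneg (h x - χ x), norm_nonneg (χ x),
                sq_nonneg (‖h x - χ x‖ - ‖χ x‖)]
            calc ‖h x‖ ^ 2 * Real.exp (-(φ x + k * Q x)) ≤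
                (2 * ‖h x - χ x‖ ^ 2 + 2 * ‖χ x‖ ^ 2) * Real.exp (-(φ x + k * Q x)) := by gcongr
              _ = _ := by ring
        _ = ENNReal.ofReal 2 * ∫⁻ x, ENNReal.ofReal (‖h x - χ x‖ ^ 2 *
              Real.exp (-(φ x + k * Q x))) ∂μ + ENNReal.ofReal 2 *
              ∫⁻ x, ENNReal.ofReal (‖χ x‖ ^ 2 * Real.exp (-(φ x + k * Q x))) ∂μ := by
            rw [lintegral_add_right _ ((hcχ.measurable.ennreal_ofReal).const_mul _),
              lintegral_const_mul' _ _ ENNReal.ofReal_ne_top,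
              lintegral_const_mul' _ _ ENNReal.ofReal_ne_top]
        _ ≤ ENNReal.ofReal 2 * ENNReal.ofReal (A * Real.exp (-(k * r₁ ^ 2))) +
            ENNReal.ofReal 2 * ENNReal.ofReal J := by
            rw [hJ, ofReal_integral_eq_lintegral_ofReal hintχ
              (ae_of_all _ fun x => by positivity)]
            gcongr
        _ = ENNReal.ofReal I := by
            rw [← ENNReal.ofReal_mul (by norm_num), ← ENNReal.ofReal_mul (by norm_num),
              ← ENNReal.ofReal_add (by positivity) (by positivity)]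
    refine ⟨N', hN', Real.sqrt (|C| * I), Real.sqrt_nonneg _, fun w hw => ?_⟩
    have h1 := hCb h hh I hI0' hhI w hw
    have h2 : ‖h w‖ ^ 2 ≤ (Real.sqrt (|C| * I) * ‖jac G p (q w)‖ ^ m *
        Real.exp (-(C' * ρ w))) ^ 2 := by
      have h3 : (Real.sqrt (|C| * I) * ‖jac G p (q w)‖ ^ m * Real.exp (-(C' * ρ w))) ^ 2 =
          |C| * ‖jac G p (q w)‖ ^ (2 * m) * Real.exp (-(2 * C' * ρ w)) * I := by
        rw [mul_pow, mul_pow, Real.sq_sqrt (by positivity), ← pow_mul, mul_comm m 2,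
          ← Real.exp_nat_mul]
        have : ((2 : ℕ) : ℝ) * -(C' * ρ w) = -(2 * C' * ρ w) := by push_cast; ring
        rw [this]
        ring
      rw [h3]
      refine h1.trans ?_
      gcongr
      exact le_abs_self C
    exact (sq_le_sq₀ (norm_nonneg _) (by positivity)).mp h2

end

end Pool.Agent.Levi
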