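import Pool.Agent.Levi.Tame
import Pool.Agent.MEP.SCV

/-!
# Holomorphic functions on `W` over a complex manifold `S`: algebra, sections, identity theorem
-/

set_option autoImplicit false

open Set Filter Topology Metric
open scoped Manifold ContDiff

namespace Pool.Agent.Levi

open Pool.Agent.MEP

section QHolo

variable {n : ℕ} {S : Type} [TopologicalSpace S] [T2Space S] [ChartedSpace (Fin n → ℂ) S]
  [IsManifold 𝓘(ℂ, Fin n → ℂ) ω S] {W : Type} [TopologicalSpace W] [T2Space W]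
  {q : W → S} {ρ : W → ℝ}

omit [T2Space S] [IsManifold 𝓘(ℂ, Fin n → ℂ) ω S] [T2Space W] in
/-- (P12a) -/
theorem QHolo.add {β β' : W → ℂ} (hβ : QHolo n q β) (hβ' : QHolo n q β') :
    QHolo n q (fun w => β w + β' w) := by
  intro w
  obtain ⟨b, hb, hb'⟩ := hβ w
  obtain ⟨c, hc, hc'⟩ := hβ' w
  refine ⟨b + c, hb.add hc, ?_⟩
  filter_upwards [hb', hc'] with w' h1 h2
  simp [h1, h2]

omit [T2Space S] [IsManifold 𝓘(ℂ, Fin n → ℂ) ω S] [T2Space W] in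
/-- (P12b) -/
theorem QHolo.mul {β β' : W → ℂ} (hβ : QHolo n q β) (hβ' : QHolo n q β') :
    QHolo n q (fun w => β w * β' w) := by
  intro w
  obtain ⟨b, hb, hb'⟩ := hβ w
  obtain ⟨c, hc, hc'⟩ := hβ' w
  refine ⟨b * c, hb.mul hc, ?_⟩
  filter_upwards [hb', hc'] with w' h1 h2
  simp [h1, h2]

omit [T2Space S] [IsManifold 𝓘(ℂ, Fin n → ℂ) ω S] [T2Space W] in
/-- (P12c) -/
theorem QHolo.comp_proj (_hq : Continuous q) {b : S → ℂ}
    (hb : MDifferentiable 𝓘(ℂ, Fin n → ℂ) 𝓘(ℂ, ℂ) b) : QHolo n q (b ∘ q) := by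
  intro w
  exact ⟨b, hb (q w), Eventually.of_forall fun _ => rfl⟩

omit [T2Space S] [IsManifold 𝓘(ℂ, Fin n → ℂ) ω S] [T2Space W] in
/-- (P12d) -/
theorem QHolo.mdifferentiableOn_section {β : W → ℂ} (hβ : QHolo n q β) {N : Set S}
    (hN : IsOpen N) {σ : S → W} (hσ : ContinuousOn σ N) (hqσ : ∀ x ∈ N, q (σ x) = x) :
    MDifferentiableOn 𝓘(ℂ, Fin n → ℂ) 𝓘(ℂ, ℂ) (β ∘ σ) N := by
  intro x hx
  apply MDifferentiableAt.mdifferentiableWithinAt
  obtain ⟨b, hb, hb'⟩ := hβ (σ x)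
  rw [hqσ x hx] at hb
  have hN' := hN.mem_nhds hx
  have hc : ContinuousAt σ x := hσ.continuousAt hN'
  refine hb.congr_of_eventuallyEq ?_
  filter_upwards [hN', hc.eventually hb'] with y hy h1
  rw [Function.comp_apply, h1, hqσ y hy]

omit [T2Space S] [IsManifold 𝓘(ℂ, Fin n → ℂ) ω S] [T2Space W] [ChartedSpace (Fin n → ℂ) S] in
/-- a section of a local homeomorphism is a local inverse -/
theorem section_eventually (hq : IsLocalHomeomorph q) {w : W} {N : Set S} (hN : N ∈ 𝓝 (q w))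
    {σ : S → W} (hσ : ContinuousAt σ (q w)) (hqσ : ∀ x ∈ N, q (σ x) = x) (hw : σ (q w) = w) :
    ∀ᶠ w' in 𝓝 w, σ (q w') = w' := by
  obtain ⟨e, he, rfl⟩ := hq w
  have h1 : ∀ᶠ w' in 𝓝 w, w' ∈ e.source := e.open_source.mem_nhds he
  have h2 : ContinuousAt e w := hq.continuous.continuousAt
  have h3 : ∀ᶠ w' in 𝓝 w, e w' ∈ N := h2.eventually hN
  have h4' : ∀ᶠ y in 𝓝 (e w), σ y ∈ e.source := by
    have h5 : ∀ᶠ z in 𝓝 (σ (e w)), z ∈ e.source := by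
      rw [hw]
      exact e.open_source.mem_nhds he
    exact hσ.eventually h5
  have h4 : ∀ᶠ w' in 𝓝 w, σ (e w') ∈ e.source := h2.eventually h4'
  filter_upwards [h1, h3, h4] with w' a1 a3 a4
  exact e.injOn a4 a1 (hqσ _ a3)

omit [T2Space S] [IsManifold 𝓘(ℂ, Fin n → ℂ) ω S] [T2Space W] in
/-- (P12e) -/
theorem qHolo_of_section (hq : IsLocalHomeomorph q) {β : W → ℂ}
    (h : ∀ w, ∃ N ∈ 𝓝 (q w), ∃ σ : S → W, ContinuousOn σ N ∧ (∀ x ∈ N, q (σ x) = x) ∧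
      σ (q w) = w ∧ MDifferentiableAt 𝓘(ℂ, Fin n → ℂ) 𝓘(ℂ, ℂ) (β ∘ σ) (q w)) : QHolo n q β := by
  intro w
  obtain ⟨N, hN, σ, hσ, hqσ, hw, hd⟩ := h w
  refine ⟨β ∘ σ, hd, ?_⟩
  filter_upwards [section_eventually hq hN (hσ.continuousAt hN) hqσ hw] with w' h1
  rw [Function.comp_apply, h1]

omit [T2Space S] [IsManifold 𝓘(ℂ, Fin n → ℂ) ω S] in
/-- small connected neighbourhoods -/
theorem exists_ball_nhd {N : Set S} {p : S} (hN : N ∈ 𝓝 p) :
    ∃ ε > 0, ball (chartAt (Fin n → ℂ) p p) ε ⊆ (chartAt (Fin n → ℂ) p).target ∧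
      ∀ z ∈ ball (chartAt (Fin n → ℂ) p p) ε, (chartAt (Fin n → ℂ) p).symm z ∈ N := by
  set e := chartAt (Fin n → ℂ) p with he
  have hpt : e p ∈ e.target := mem_chart_target _ _
  have hps : p ∈ e.source := mem_chart_source _ _
  have h1 : e.target ∈ 𝓝 (e p) := e.open_target.mem_nhds hpt
  have h2 : e.symm ⁻¹' N ∈ 𝓝 (e p) := by
    have h3 : ContinuousAt e.symm (e p) := e.continuousAt_symm hpt
    apply h3.preimage_mem_nhds
    rw [e.left_inv hps]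
    exact hN
  obtain ⟨ε, hε, hb⟩ := Metric.mem_nhds_iff.mp (inter_mem h1 h2)
  exact ⟨ε, hε, fun z hz => (hb hz).1, fun z hz => (hb hz).2⟩

omit [T2Space S] [T2Space W] in
/-- (P12f) identity theorem -/
theorem QHolo.isClopen_vanish (hq : IsTame n q ρ) {β : W → ℂ} (hβ : QHolo n q β) :
    IsClopen {w | ∀ᶠ w' in 𝓝 w, β w' = 0} := by
  refine ⟨?_, isOpen_setOfPred_eventually_nhds⟩
  rw [← closure_subset_iff_isClosed]
  intro w hw
  obtain ⟨N, hNo, hpN, hNs, C, hC⟩ := hq.sheets (q w)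
  obtain ⟨σ, hσw, hσc, hσ⟩ := hC w hpN
  have hqσ : ∀ x ∈ N, q (σ x) = x := fun x hx => (hσ x hx).1
  set e := chartAt (Fin n → ℂ) (q w) with he
  obtain ⟨ε, hε, hb1, hb2⟩ := exists_ball_nhd (n := n) (hNo.mem_nhds hpN)
  rw [← he] at hb1 hb2
  have hsec : ∀ᶠ w' in 𝓝 w, σ (q w') = w' := section_eventually hq.localHomeo (hNo.mem_nhds hpN)
    (hσc.continuousAt (hNo.mem_nhds hpN)) hqσ hσw
  have hqc : Continuous q := hq.localHomeo.continuous
  have hnear : ∀ᶠ w' in 𝓝 w, q w' ∈ e.source ∩ e ⁻¹' ball (e (q w)) ε := by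
    apply hqc.continuousAt.eventually
    exact (e.isOpen_inter_preimage isOpen_ball).mem_nhds ⟨mem_chart_source _ _, mem_ball_self hε⟩
  have hsec2 := hsec.eventually_nhds
  rw [mem_closure_iff_nhds] at hw
  obtain ⟨b, ⟨hb3, hb4⟩, hb5⟩ := hw _ (inter_mem hsec2 hnear)
  have hb5' : ∀ᶠ w' in 𝓝 b, β w' = 0 := hb5
  have hb3' : ∀ᶠ w' in 𝓝 b, σ (q w') = w' := hb3
  have hbN : q b ∈ N := by
    have := hb2 _ hb4.2
    rwa [e.left_inv hb4.1] at this
  have hd : DifferentiableOn ℂ (fun x => β (σ (e.symm x))) (ball (e (q w)) ε) := by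
    intro x hx
    apply DifferentiableAt.differentiableWithinAt
    rw [← mdifferentiableAt_iff_differentiableAt]
    have h1 := hβ.mdifferentiableOn_section hNo hσc hqσ
    exact MDifferentiableAt.comp (g := β ∘ σ) x (h1.mdifferentiableAt (hNo.mem_nhds (hb2 x hx)))
        (mdifferentiableAt_atlas_symm (chart_mem_atlas _ (q w)) (hb1 hx))
  have hev : ∀ᶠ x in 𝓝 (e (q b)), β (σ (e.symm x)) = 0 := by
    have h1 : ContinuousAt e.symm (e (q b)) := e.continuousAt_symm (e.map_source hb4.1)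
    have h2 : e.symm (e (q b)) = q b := e.left_inv hb4.1
    have h3 : ContinuousAt σ (q b) := hσc.continuousAt (hNo.mem_nhds hbN)
    have h4 : σ (q b) = b := hb3'.self_of_nhds
    have h5' : ∀ᶠ z in 𝓝 (σ (q b)), β z = 0 := by
      rw [h4]
      exact hb5'
    have h5 : ∀ᶠ x in 𝓝 (q b), β (σ x) = 0 := h3.eventually h5'
    have h6 : ∀ᶠ x in 𝓝 (e.symm (e (q b))), β (σ x) = 0 := by
      rw [h2]
      exact h5
    exact h1.eventually h6
  have key := eq_zero_of_convex (convex_ball _ _) isOpen_ball hd hb4.2 hev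
  show ∀ᶠ z in 𝓝 w, β z = 0
  filter_upwards [hsec, hnear] with z hz1 hz2
  have := key _ hz2.2
  rwa [e.left_inv hz2.1, hz1] at this

omit [T2Space S] [IsManifold 𝓘(ℂ, Fin n → ℂ) ω S] [T2Space W] in
/-- (P12g) -/
theorem image_eq_univ_of_isClopen [ConnectedSpace S] (hq : IsTame n q ρ) {Z : Set W}
    (hZ : IsClopen Z) (hne : Z.Nonempty) : q '' Z = univ := by
  apply IsClopen.eq_univ _ (hne.image q)
  refine ⟨?_, hq.localHomeo.isOpenMap _ hZ.isOpen⟩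
  rw [← closure_subset_iff_isClosed]
  intro p hp
  obtain ⟨N, hNo, hpN, hNs, C, hC⟩ := hq.sheets p
  set e := chartAt (Fin n → ℂ) p with he
  obtain ⟨ε, hε, hb1, hb2⟩ := exists_ball_nhd (n := n) (hNo.mem_nhds hpN)
  rw [← he] at hb1 hb2
  have hpre : IsPreconnected (e.symm '' ball (e p) ε) :=
    (convex_ball (e p) ε).isPreconnected.image _ (e.continuousOn_symm.mono hb1)
  have hM : e.source ∩ e ⁻¹' ball (e p) ε ∈ 𝓝 p :=
    (e.isOpen_inter_preimage isOpen_ball).mem_nhds ⟨mem_chart_source _ _, mem_ball_self hε⟩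
  rw [mem_closure_iff_nhds] at hp
  obtain ⟨b, ⟨hb3, hb4⟩, w, hwZ, hwb⟩ := hp _ hM
  have hbI : b ∈ e.symm '' ball (e p) ε := ⟨e b, hb4, e.left_inv hb3⟩
  have hIN : e.symm '' ball (e p) ε ⊆ N := by
    rintro _ ⟨z, hz, rfl⟩
    exact hb2 z hz
  have hpI : p ∈ e.symm '' ball (e p) ε := ⟨e p, mem_ball_self hε, e.left_inv (mem_chart_source _ _)⟩
  obtain ⟨σ, hσw, hσc, hσ⟩ := hC w (by rw [hwb]; exact hIN hbI)
  have him : IsPreconnected (σ '' (e.symm '' ball (e p) ε)) := hpre.image _ (hσc.mono hIN)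
  have hsub : σ '' (e.symm '' ball (e p) ε) ⊆ Z :=
    him.subset_isClopen hZ ⟨w, ⟨b, hbI, by rw [← hwb]; exact hσw⟩, hwZ⟩
  exact ⟨σ p, hsub ⟨p, hpI, rfl⟩, (hσ p hpN).1⟩

omit [T2Space S] [T2Space W] in
/-- (P12h) -/
theorem QHolo.eq_zero_of_forall [ConnectedSpace S] (hq : IsTame n q ρ) {β : W → ℂ}
    (hβ : QHolo n q β) {D : Set S} (hD : IsOpen D) (hne : D.Nonempty)
    (h : ∀ w, q w ∈ D → β w = 0) : ∀ w, β w = 0 := by
  have hcl := hβ.isClopen_vanish hq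
  by_contra hcon
  push Not at hcon
  obtain ⟨w, hw⟩ := hcon
  have hne' : ({w | ∀ᶠ w' in 𝓝 w, β w' = 0}ᶜ : Set W).Nonempty :=
    ⟨w, fun h1 => hw (show ∀ᶠ w' in 𝓝 w, β w' = 0 from h1).self_of_nhds⟩
  have him := image_eq_univ_of_isClopen hq hcl.compl hne'
  obtain ⟨x, hx⟩ := hne
  have hx' : x ∈ q '' {w | ∀ᶠ w' in 𝓝 w, β w' = 0}ᶜ := by rw [him]; exact mem_univ _
  obtain ⟨v, hv, hvx⟩ := hx'
  apply hv
  have hqc : ContinuousAt q v := hq.localHomeo.continuous.continuousAt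
  have : ∀ᶠ w' in 𝓝 v, q w' ∈ D := hqc.eventually (by rw [hvx]; exact hD.mem_nhds hx)
  show ∀ᶠ w' in 𝓝 v, β w' = 0
  filter_upwards [this] with w' h1
  exact h w' h1

end QHolo

end Pool.Agent.Levi
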