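import Pool.Agent.Levi.Decay2
import Pool.Agent.Levi.QHolo

/-!
# Decaying holomorphic functions on tame spaces over a Stein manifold: extension to all of `W`
-/

set_option autoImplicit false
set_option linter.unusedSectionVars false

open Set Filter Topology
open scoped ContDiff ComplexConjugate Manifold

namespace Pool.Agent.Levi

open Pool.Agent.MEP

section

variable {n : ℕ} {S : Type} [TopologicalSpace S] [T2Space S] [SecondCountableTopology S]
  [ConnectedSpace S] [ChartedSpace (Fin n → ℂ) S] [IsManifold 𝓘(ℂ, Fin n → ℂ) ω S]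
  {W : Type} [TopologicalSpace W] [T2Space W] [SecondCountableTopology W]
  {q : W → S} {ρ : W → ℝ} {G : S → (Fin n → ℂ)}

/-- a function that is differentiable in the chart at `p` is `MDifferentiable` at `p` -/
theorem mdifferentiableAt_of_chart {b : S → ℂ} {p : S}
    (hb : DifferentiableAt ℂ (b ∘ (chartAt (Fin n → ℂ) p).symm) (chartAt (Fin n → ℂ) p p)) :
    MDifferentiableAt 𝓘(ℂ, Fin n → ℂ) 𝓘(ℂ, ℂ) b p := by
  have hM1 : IsManifold 𝓘(ℂ, Fin n → ℂ) 1 S := IsManifold.of_le (n := ω) le_top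
  have hps : p ∈ (chartAt (Fin n → ℂ) p).source := mem_chart_source _ p
  have h1 : MDifferentiableAt 𝓘(ℂ, Fin n → ℂ) 𝓘(ℂ, Fin n → ℂ) (chartAt (Fin n → ℂ) p) p :=
    mdifferentiableAt_atlas (chart_mem_atlas _ p) hps
  have h2 : MDifferentiableAt 𝓘(ℂ, Fin n → ℂ) 𝓘(ℂ, ℂ)
      ((b ∘ (chartAt (Fin n → ℂ) p).symm) ∘ chartAt (Fin n → ℂ) p) p :=
    (hb.mdifferentiableAt).comp p h1
  refine h2.congr_of_eventuallyEq ?_
  filter_upwards [(chartAt (Fin n → ℂ) p).open_source.mem_nhds hps] with x hx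
  simp only [Function.comp_apply]
  rw [(chartAt (Fin n → ℂ) p).left_inv hx]

/-- a function that is bounded by a constant times the square of a holomorphic function near a
zero of the latter is complex differentiable there -/
theorem differentiableAt_of_sq_bound {F J : (Fin n → ℂ) → ℂ} {z : Fin n → ℂ}
    (hJ : DifferentiableAt ℂ J z) (hJ0 : J z = 0) {C : ℝ}
    (hF : ∀ᶠ x in 𝓝 z, ‖F x‖ ≤ C * ‖J x‖ ^ 2) : DifferentiableAt ℂ F z := by
  have hF0 : F z = 0 := by
    have := hF.self_of_nhds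
    rw [hJ0, norm_zero] at this
    simpa using this
  have hO : (fun x => J x) =O[𝓝 z] fun x => x - z := by
    have := hJ.hasFDerivAt.isBigO_sub
    simpa [hJ0] using this
  have h1 : F =O[𝓝 z] fun x => ‖x - z‖ ^ 2 := by
    have h2 : F =O[𝓝 z] fun x => ‖J x‖ ^ 2 := by
      refine Asymptotics.IsBigO.of_bound C ?_
      filter_upwards [hF] with x hx
      rwa [norm_pow, norm_norm]
    exact h2.trans (hO.norm_norm.pow 2)
  have h3 : HasFDerivAt F (0 : (Fin n → ℂ) →L[ℂ] ℂ) z := by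
    rw [hasFDerivAt_iff_isLittleO_nhds_zero]
    have h4 : (fun h : Fin n → ℂ => F (z + h)) =O[𝓝 0] fun h => ‖h‖ ^ 2 := by
      have h5 : Tendsto (fun h : Fin n → ℂ => z + h) (𝓝 0) (𝓝 z) := by
        have : Continuous (fun h : Fin n → ℂ => z + h) := by fun_prop
        have h6 := this.tendsto 0
        simpa using h6
      have h6 := h1.comp_tendsto h5
      refine h6.congr (fun h => rfl) (fun h => ?_)
      simp
    have h5 : (fun h : Fin n → ℂ => ‖h‖ ^ 2) =o[𝓝 0] fun h => h := by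
      have h6 : (fun h : Fin n → ℂ => ‖h‖ ^ 2) =o[𝓝 0] fun h => ‖h‖ := by
        have h7 : (fun h : Fin n → ℂ => ‖h‖ * ‖h‖) =o[𝓝 0] fun h => 1 * ‖h‖ := by
          refine Asymptotics.IsLittleO.mul_isBigO ?_ (Asymptotics.isBigO_refl _ _)
          rw [Asymptotics.isLittleO_one_iff]
          have : Continuous (fun h : Fin n → ℂ => ‖h‖) := continuous_norm
          simpa using this.tendsto 0
        simpa [pow_two] using h7
      exact h6.of_norm_right
    refine (h4.trans_isLittleO h5).congr (fun h => ?_) (fun h => rfl)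
    simp [hF0]
  exact h3.differentiableAt

/-- (K0) -/
theorem exists_decaying (hS : IsStein n S) (hq : IsTame n q ρ)
    (hG : MDifferentiable 𝓘(ℂ, Fin n → ℂ) 𝓘(ℂ, Fin n → ℂ) G) {w₀ : W}
    (hw₀ : IsCoordinateAt G (q w₀)) (m : ℕ) (C' : ℝ) {ε : ℝ} (hε : 0 < ε) :
    ∃ β : W → ℂ, QHolo n q β ∧ ‖β w₀ - 1‖ ≤ ε ∧
      (∀ w, q w = q w₀ → w ≠ w₀ → ‖β w‖ ≤ ε * Real.exp (-(C' * ρ w))) ∧
      ∀ p : S, ∃ N ∈ 𝓝 p, ∃ C : ℝ, ∀ w, q w ∈ N →
        ‖β w‖ ≤ C * ‖jac G p (q w)‖ ^ m * Real.exp (-(C' * ρ w)) := by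
  classical
  obtain ⟨h, hh, h1, h2, h3⟩ := exists_decaying_core hS hq hG ⟨w₀, hw₀⟩ (m + 2) C' hε
  set β : W → ℂ := fun w => if hc : IsCoordinateAt G (q w) then h ⟨w, hc⟩ else 0 with hβ
  have hβc : ∀ (w : W) (hc : IsCoordinateAt G (q w)), β w = h ⟨w, hc⟩ := fun w hc => by
    simp only [hβ, dif_pos hc]
  have hβn : ∀ w : W, ¬ IsCoordinateAt G (q w) → β w = 0 := fun w hc => by
    simp only [hβ, dif_neg hc]
  have hbound : ∀ p : S, ∃ N ∈ 𝓝 p, ∃ C : ℝ, 0 ≤ C ∧ ∀ w, q w ∈ N →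
        ‖β w‖ ≤ C * ‖jac G p (q w)‖ ^ (m + 2) * Real.exp (-(C' * ρ w)) := by
    intro p
    obtain ⟨N, hN, C, hC0, hC⟩ := h3 p
    refine ⟨N, hN, C, hC0, fun w hw => ?_⟩
    by_cases hc : IsCoordinateAt G (q w)
    · rw [hβc w hc]
      exact hC ⟨w, hc⟩ hw
    · rw [hβn w hc, norm_zero]
      positivity
  refine ⟨β, ?_, ?_, ?_, ?_⟩
  · -- holomorphic
    refine qHolo_of_section hq.localHomeo fun w => ?_
    obtain ⟨N, hN, hpN, hNs, Cρ, hCρ⟩ := hq.sheets (q w)
    obtain ⟨σ, hσw, hσc, hσ⟩ := hCρ w hpN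
    refine ⟨N, hN.mem_nhds hpN, σ, hσc, fun x hx => (hσ x hx).1, hσw, ?_⟩
    apply mdifferentiableAt_of_chart
    set e := chartAt (Fin n → ℂ) (q w) with he
    have hps : q w ∈ e.source := mem_chart_source _ _
    have hpt : e (q w) ∈ e.target := e.map_source hps
    have hsy : e.symm (e (q w)) = q w := e.left_inv hps
    have hcsy : Tendsto e.symm (𝓝 (e (q w))) (𝓝 (q w)) := by
      have := (e.continuousAt_symm hpt).tendsto
      rwa [hsy] at this
    by_cases hc : IsCoordinateAt G (q w)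
    · obtain ⟨s, hs0, hsc, hsσ, hsq, hsT⟩ := exists_param hG hN hNs (⟨w, hc⟩ : MM G q) hpN hσw hσc
        (fun x hx => (hσ x hx).1)
      have hd := comp_s_differentiableAt (isLocalHomeomorph_piM hG hq.localHomeo) hs0 hsc hsT
        (((TT_differentiableOn hG (q w)) _ hpt).differentiableAt (e.open_target.mem_nhds hpt))
        (hh ⟨w, hc⟩)
      refine hd.congr_of_eventuallyEq ?_
      filter_upwards [hsσ] with z hz
      simp only [Function.comp_apply]
      rw [← hz, hβc _ (s z).2]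
    · obtain ⟨N', hN', C, hC0, hC⟩ := hbound (q w)
      have hJ0 : JJ G (q w) (e (q w)) = 0 := by
        rw [he, JJ_chart]
        by_contra hne
        exact hc ((isCoordinateAt_iff_jac hG (mem_chart_source _ _)).mpr hne)
      have hJd : DifferentiableAt ℂ (JJ G (q w)) (e (q w)) :=
        (JJ_differentiableOn hG (q w)).differentiableAt (e.open_target.mem_nhds hpt)
      have hJb : ∀ᶠ z in 𝓝 (e (q w)), ‖JJ G (q w) z‖ < 1 := by
        have h5 := hJd.continuousAt.norm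
        refine h5.eventually (gt_mem_nhds ?_)
        show ‖JJ G (q w) (e (q w))‖ < 1
        rw [hJ0, norm_zero]
        exact one_pos
      refine differentiableAt_of_sq_bound (J := JJ G (q w)) (C := C * Real.exp (-(C' * ρ w) +
        |C'| * Cρ)) hJd hJ0 ?_
      filter_upwards [hcsy.eventually (hN.mem_nhds hpN), hcsy.eventually hN',
        e.open_target.mem_nhds hpt, hJb] with z hz1 hz2 hz3 hz4
      simp only [Function.comp_apply]
      have h6 := hσ _ hz1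
      have h7 := hC (σ (e.symm z)) (by rw [h6.1]; exact hz2)
      rw [h6.1, ← JJ_chart, ← he, e.right_inv hz3] at h7
      refine h7.trans ?_
      have h8 : Real.exp (-(C' * ρ (σ (e.symm z)))) ≤ Real.exp (-(C' * ρ w) + |C'| * Cρ) := by
        apply Real.exp_le_exp.mpr
        have h9 : |C' * (ρ (σ (e.symm z)) - ρ w)| ≤ |C'| * Cρ := by
          rw [abs_mul]
          gcongr
          exact h6.2.1
        have := (abs_le.mp h9).1
        nlinarith [this]
      have h10 : ‖JJ G (q w) z‖ ^ (m + 2) ≤ ‖JJ G (q w) z‖ ^ 2 := by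
        rw [pow_add]
        exact mul_le_of_le_one_left (by positivity) (pow_le_one₀ (norm_nonneg _) hz4.le)
      calc C * ‖JJ G (q w) z‖ ^ (m + 2) * Real.exp (-(C' * ρ (σ (e.symm z)))) ≤
          C * ‖JJ G (q w) z‖ ^ 2 * Real.exp (-(C' * ρ w) + |C'| * Cρ) := by gcongr
        _ = _ := by ring
  · rw [hβc w₀ hw₀]
    exact h1
  · intro w hw hne
    have hc : IsCoordinateAt G (q w) := by rw [hw]; exact hw₀
    rw [hβc w hc]
    exact h2 ⟨w, hc⟩ hw (fun h => hne (congrArg Subtype.val h))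
  · intro p
    obtain ⟨N, hN, C, hC0, hC⟩ := hbound p
    have hjb := (continuousAt_jac hG p).norm.eventually (gt_mem_nhds (lt_add_one ‖jac G p p‖))
    refine ⟨N ∩ {x | ‖jac G p x‖ < ‖jac G p p‖ + 1}, inter_mem hN hjb,
      C * (‖jac G p p‖ + 1) ^ 2, fun w hw => ?_⟩
    have h5 := hC w hw.1
    have h6 : ‖jac G p (q w)‖ < ‖jac G p p‖ + 1 := hw.2
    refine h5.trans ?_
    rw [pow_add]
    have h7 : ‖jac G p (q w)‖ ^ 2 ≤ (‖jac G p p‖ + 1) ^ 2 := by gcongr
    calc C * (‖jac G p (q w)‖ ^ m * ‖jac G p (q w)‖ ^ 2) * Real.exp (-(C' * ρ w)) ≤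
        C * (‖jac G p (q w)‖ ^ m * (‖jac G p p‖ + 1) ^ 2) * Real.exp (-(C' * ρ w)) := by gcongr
      _ = _ := by ring

/-- (K0') decaying holomorphic functions, without the coordinates `G` -/
theorem exists_decaying' (hS : IsStein n S) {W : Type} [TopologicalSpace W]
    [T2Space W] [SecondCountableTopology W] {q : W → S} {ρ : W → ℝ} (hq : IsTame n q ρ) (w₀ : W)
    (C' : ℝ) {ε : ℝ} (hε : 0 < ε) :
    ∃ β : W → ℂ, QHolo n q β ∧ ‖β w₀ - 1‖ ≤ ε ∧
      (∀ w, q w = q w₀ → w ≠ w₀ → ‖β w‖ ≤ ε * Real.exp (-(C' * ρ w))) ∧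
      ∀ p : S, ∃ N ∈ 𝓝 p, ∃ C : ℝ, ∀ w, q w ∈ N → ‖β w‖ ≤ C * Real.exp (-(C' * ρ w)) := by
  obtain ⟨G, hG, hGc⟩ := hS.local_coordinates (q w₀)
  obtain ⟨β, h1, h2, h3, h4⟩ := exists_decaying hS hq hG hGc 0 C' hε
  exact ⟨β, h1, h2, h3, by simpa using h4⟩

/-- the identity map is tame -/
theorem isTame_id : IsTame n (id : S → S) (fun _ => 0) where
  localHomeo := (Homeomorph.refl S).isLocalHomeomorph
  proper := by
    intro K hK r
    by_cases hr : (0 : ℝ) ≤ r
    · simpa [hr] using hK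
    · have : (id ⁻¹' K ∩ {w : S | (0 : ℝ) ≤ r}) = ∅ := by
        ext x
        simp [hr]
      rw [this]
      exact isCompact_empty
  sheets := by
    intro p
    refine ⟨(chartAt (Fin n → ℂ) p).source, (chartAt (Fin n → ℂ) p).open_source,
      mem_chart_source _ p, le_rfl, 0, fun w _ => ⟨id, rfl, continuousOn_id, fun x _ => ?_⟩⟩
    have e1 : ((fun _ => 0 : S → ℝ) ∘ id ∘ (chartAt (Fin n → ℂ) p).symm) = fun _ => (0 : ℝ) := rfl
    refine ⟨rfl, by simp, ?_, ?_, ?_⟩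
    · rw [e1]; exact contDiffAt_const
    · rw [e1]; simp
    · rw [e1]
      have e2 : fderiv ℝ (fun _ : Fin n → ℂ => (0 : ℝ)) = fun _ => 0 := by
        ext1 x; simp
      rw [e2, fderiv_fun_const]
      exact le_of_eq (norm_zero (E := (Fin n → ℂ) →L[ℝ] (Fin n → ℂ) →L[ℝ] ℝ))

/-- (K0'') functions that vanish to high order where `jac G` does -/
theorem exists_multiplier (hS : IsStein n S) (p₀ : S) :
    ∃ (G : S → (Fin n → ℂ)) (P : S → ℂ),
      MDifferentiable 𝓘(ℂ, Fin n → ℂ) 𝓘(ℂ, Fin n → ℂ) G ∧ IsCoordinateAt G p₀ ∧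
      MDifferentiable 𝓘(ℂ, Fin n → ℂ) 𝓘(ℂ, ℂ) P ∧ P p₀ ≠ 0 ∧
      ∀ p : S, ∃ N ∈ 𝓝 p, ∃ C : ℝ, ∀ x ∈ N, ‖P x‖ ≤ C * ‖jac G p x‖ ^ 3 := by
  obtain ⟨G, hG, hGc⟩ := hS.local_coordinates p₀
  obtain ⟨β, h1, h2, -, h4⟩ := exists_decaying (q := (id : S → S)) hS isTame_id hG (w₀ := p₀)
    hGc 3 0 (ε := 1 / 2) (by norm_num)
  refine ⟨G, β, hG, hGc, ?_, ?_, ?_⟩
  · intro p
    obtain ⟨b, hb, hbe⟩ := h1 p
    exact hb.congr_of_eventuallyEq hbe
  · intro h0
    rw [h0] at h2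
    norm_num at h2
  · intro p
    obtain ⟨N, hN, C, hC⟩ := h4 p
    refine ⟨N, hN, C, fun x hx => ?_⟩
    have := hC x hx
    simpa using this

end

end Pool.Agent.Levi
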