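import Pool.Agent.MEP.SCV

/-!
# Holomorphic functions of several variables are smooth
-/

set_option autoImplicit false

open Set Filter Topology Metric MeasureTheory
open scoped Real ContDiff

namespace Pool.Agent.Levi

variable {E : Type*} [NormedAddCommGroup E] [NormedSpace ℂ E] [FiniteDimensional ℂ E]

/-- The directional derivatives of a holomorphic function of several variables are holomorphic. -/
theorem differentiableOn_fderiv_apply {f : E → ℂ} {U : Set E} (hU : IsOpen U)
    (hf : DifferentiableOn ℂ f U) (v : E) : DifferentiableOn ℂ (fun x => fderiv ℂ f x v) U := by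
  intro x0 hx0
  apply DifferentiableAt.differentiableWithinAt
  obtain ⟨r0, hr0, hball⟩ := Metric.isOpen_iff.mp hU x0 hx0
  set r := r0 / 4 with hr
  have hrpos : 0 < r := by positivity
  set ρ := r / (‖v‖ + 1) with hρ
  have hρpos : 0 < ρ := by positivity
  have hρv : ρ * ‖v‖ ≤ r := by
    rw [hρ, div_mul_eq_mul_div, div_le_iff₀ (by positivity)]
    nlinarith [norm_nonneg v]
  have hK : closedBall x0 (2 * r) ⊆ U := by
    refine (closedBall_subset_ball ?_).trans hball
    rw [hr]; linarith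
  have hmem : ∀ x ∈ ball x0 r, ∀ ζ ∈ closedBall (0 : ℂ) ρ, x + ζ • v ∈ closedBall x0 (2 * r) := by
    intro x hx ζ hζ
    rw [mem_closedBall, dist_eq_norm]
    rw [mem_ball, dist_eq_norm] at hx
    rw [mem_closedBall_zero_iff] at hζ
    calc ‖x + ζ • v - x0‖ = ‖(x - x0) + ζ • v‖ := by congr 1; abel
      _ ≤ ‖x - x0‖ + ‖ζ • v‖ := norm_add_le _ _
      _ ≤ r + ρ * ‖v‖ := by
        rw [norm_smul]; gcongr
      _ ≤ 2 * r := by linarith
  -- Cauchy formula
  have hformula : ∀ x ∈ ball x0 r, fderiv ℂ f x v =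
      (2 * π * Complex.I : ℂ)⁻¹ • ∮ ζ in C(0, ρ), ((ζ - 0) ^ 2)⁻¹ • f (x + ζ • v) := by
    intro x hx
    have hd : DifferentiableOn ℂ (fun ζ : ℂ => f (x + ζ • v)) (closedBall 0 ρ) := by
      intro ζ hζ
      have h1 : DifferentiableAt ℂ f (x + ζ • v) :=
        (hf _ (hK (hmem x hx ζ hζ))).differentiableAt (hU.mem_nhds (hK (hmem x hx ζ hζ)))
      have h2 : DifferentiableAt ℂ (fun ζ : ℂ => x + ζ • v) ζ := by fun_prop
      exact (h1.comp ζ h2).differentiableWithinAt
    have hder : deriv (fun ζ : ℂ => f (x + ζ • v)) 0 = fderiv ℂ f x v := by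
      have h0 : x + (0 : ℂ) • v = x := by simp
      have h1 : HasFDerivAt f (fderiv ℂ f x) (x + (0 : ℂ) • v) := by
        rw [h0]
        have : x ∈ U := hK (by simpa using hmem x hx 0 (by simp [hρpos.le]))
        exact ((hf x this).differentiableAt (hU.mem_nhds this)).hasFDerivAt
      have h2 : HasDerivAt (fun ζ : ℂ => x + ζ • v) v 0 := by
        simpa using ((hasDerivAt_id (0 : ℂ)).smul_const v).const_add x
      exact (h1.comp_hasDerivAt (0 : ℂ) h2).deriv
    have := hd.deriv_eq_smul_circleIntegral hρpos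
    rw [hder] at this
    simp only [one_div] at this
    rw [this, inv_smul_smul₀]
    simp [Real.pi_ne_zero]
  -- the integral as a Cauchy integral with parameters
  set Q : Set (ℂ × E) := {w | w.1 ≠ 0 ∧ w.2 + w.1 • v ∈ U} with hQdef
  have hQ : IsOpen Q := by
    refine IsOpen.inter (isOpen_ne.preimage continuous_fst) (hU.preimage ?_)
    fun_prop
  have hg : DifferentiableOn ℂ (fun w : ℂ × E => w.1⁻¹ * f (w.2 + w.1 • v)) Q := by
    intro w hw
    have h1 : DifferentiableAt ℂ f (w.2 + w.1 • v) := (hf _ hw.2).differentiableAt (hU.mem_nhds hw.2)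
    have h2 : DifferentiableAt ℂ (fun w : ℂ × E => w.2 + w.1 • v) w := by fun_prop
    have h3 : DifferentiableAt ℂ (fun w : ℂ × E => w.1⁻¹) w := differentiableAt_fst.inv hw.1
    exact (h3.mul (h1.comp w h2)).differentiableWithinAt
  have hsub : sphere (0 : ℂ) ρ ×ˢ ball x0 r ⊆ Q := by
    rintro ⟨ζ, x⟩ ⟨hζ, hx⟩
    refine ⟨?_, hK (hmem x hx ζ (sphere_subset_closedBall hζ))⟩
    rintro rfl
    simp [hρpos.ne] at hζ
  have hW := Pool.Agent.MEP.differentiableOn_circleIntegral_param hρpos isOpen_ball hQ hg hsub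
  have hW0 : DifferentiableAt ℂ (fun w : ℂ × E => ∮ ζ in C(0, ρ), (ζ - w.1)⁻¹ *
      (ζ⁻¹ * f (w.2 + ζ • v))) ((0 : ℂ), x0) :=
    (hW _ ⟨mem_ball_self hρpos, mem_ball_self hrpos⟩).differentiableAt
      ((isOpen_ball.prod isOpen_ball).mem_nhds ⟨mem_ball_self hρpos, mem_ball_self hrpos⟩)
  have hcomp : DifferentiableAt ℂ (fun x : E => ∮ ζ in C(0, ρ), (ζ - 0)⁻¹ *
      (ζ⁻¹ * f (x + ζ • v))) x0 :=
    DifferentiableAt.comp (f := fun x : E => ((0 : ℂ), x)) x0 hW0 (by fun_prop)
  have hev : (fun x => fderiv ℂ f x v) =ᶠ[𝓝 x0] fun x =>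
      (2 * π * Complex.I : ℂ)⁻¹ • ∮ ζ in C(0, ρ), (ζ - 0)⁻¹ * (ζ⁻¹ * f (x + ζ • v)) := by
    filter_upwards [ball_mem_nhds x0 hrpos] with x hx
    rw [hformula x hx]
    congr 2
    ext ζ
    rw [sub_zero, smul_eq_mul, pow_two, mul_inv, mul_assoc]
  exact (hcomp.fun_const_smul _).congr_of_eventuallyEq hev

/-- Holomorphic functions of several variables are smooth. -/
theorem contDiffOn_nat_of_differentiableOn {U : Set E} (hU : IsOpen U) (k : ℕ) :
    ∀ {f : E → ℂ}, DifferentiableOn ℂ f U → ContDiffOn ℂ k f U := by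
  induction k with
  | zero =>
    intro f hf
    simpa using hf.continuousOn
  | succ k ih =>
    intro f hf
    have h : ContDiffOn ℂ ((k : WithTop ℕ∞) + 1) f U := by
      refine contDiffOn_succ_of_fderiv_apply hf (by simp) fun y => ?_
      refine (ih (differentiableOn_fderiv_apply hU hf y)).congr ?_
      intro x hx
      rw [fderivWithin_of_isOpen hU hx]
    exact_mod_cast h

/-- Holomorphic functions of several variables are smooth. -/
theorem contDiffOn_of_differentiableOn {U : Set E} (hU : IsOpen U) {f : E → ℂ}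
    (hf : DifferentiableOn ℂ f U) : ContDiffOn ℂ ∞ f U :=
  contDiffOn_infty.mpr fun k => contDiffOn_nat_of_differentiableOn hU k hf

/-- Holomorphic functions of several variables are smooth (over `ℝ`). -/
theorem contDiffOn_real_of_differentiableOn [NormedSpace ℝ E] [IsScalarTower ℝ ℂ E] {U : Set E}
    (hU : IsOpen U) {f : E → ℂ} (hf : DifferentiableOn ℂ f U) : ContDiffOn ℝ ∞ f U :=
  (contDiffOn_of_differentiableOn hU hf).restrict_scalars ℝ

theorem contDiffOn_pi_of_differentiableOn {m : ℕ} {U : Set E} (hU : IsOpen U)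
    {f : E → (Fin m → ℂ)} (hf : DifferentiableOn ℂ f U) : ContDiffOn ℂ ∞ f U :=
  contDiffOn_pi.mpr fun i => contDiffOn_of_differentiableOn hU (differentiableOn_pi.mp hf i)

end Pool.Agent.Levi
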