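import Pool.Agent.MEP.SCV
import Pool.Agent.TubeDS.Param
import Pool.Agent.Levi.HoloSmooth

/-!
# Sums of series of holomorphic functions of several variables
(smoothness of holomorphic functions: see HoloSmooth.lean)
-/

set_option autoImplicit false

open Set Filter Topology Metric MeasureTheory
open scoped Real ContDiff

namespace Pool.Agent.Levi

section

variable {E : Type*} [NormedAddCommGroup E] [NormedSpace ℂ E]

/-- a locally dominated series of holomorphic functions of several variables -/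
theorem differentiableOn_tsum_of_local {α : Type*}
    {U : Set E} (hU : IsOpen U) {f : α → E → ℂ}
    (hdiff : ∀ a, DifferentiableOn ℂ (f a) U)
    (hbound : ∀ z₀ ∈ U, ∃ V ∈ 𝓝 z₀, ∃ b : α → ℝ, Summable b ∧ ∀ z ∈ V, ∀ a, ‖f a z‖ ≤ b a) :
    DifferentiableOn ℂ (fun z => ∑' a, f a z) U := by
  intro z₀ hz₀
  obtain ⟨V, hV, b, hb, hfb⟩ := hbound z₀ hz₀
  obtain ⟨ε, hε, hball⟩ := Metric.mem_nhds_iff.mp (inter_mem hV (hU.mem_nhds hz₀))
  have hdiffball : ∀ a, DifferentiableOn ℂ (f a) (Metric.ball z₀ ε) := fun a =>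
    (hdiff a).mono fun z hz => (hball hz).2
  have hsub : Metric.ball z₀ (ε / 2) ⊆ Metric.ball z₀ ε := Metric.ball_subset_ball (by linarith)
  have hz₀' : z₀ ∈ Metric.ball z₀ (ε / 2) := Metric.mem_ball_self (by linarith)
  let _ : NormedSpace ℝ E := NormedSpace.restrictScalars ℝ ℂ E
  have key := hasFDerivAt_tsum_of_isPreconnected (𝕜 := ℂ) (u := fun a => b a / (ε / 4))
    (s := Metric.ball z₀ (ε / 2)) (f := f) (f' := fun a z => fderiv ℂ (f a) z) (x₀ := z₀) (x := z₀)
    (hb.div_const _) Metric.isOpen_ball (convex_ball z₀ (ε / 2)).isPreconnected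
    (fun a x hx => ((hdiffball a).differentiableAt (Metric.isOpen_ball.mem_nhds (hsub hx))).hasFDerivAt)
    (fun a x hx => Pool.Agent.TubeDS.norm_fderiv_le_of_bound hε (hdiffball a)
      (fun y hy => hfb y (hball hy).1 a) hx)
    hz₀' (Summable.of_norm_bounded hb fun a => hfb z₀ (hball (hsub hz₀')).1 a) hz₀'
  exact key.differentiableAt.differentiableWithinAt

end

end Pool.Agent.Levi
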