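import Mathlib

/-!
Proper length functions on countable groups (package P7 for MP_bf64af_an, helper7 for helper32).
-/

set_option autoImplicit false

open Set Filter Topology

namespace Pool.Agent.Levi

namespace LengthAux

/-- the total weight of the words in a finite set of words -/
theorem sum_words_le {G : Type} (f : G → ℝ) (hf0 : ∀ b, 0 ≤ f b)
    (hf : ∀ A : Finset G, ∑ b ∈ A, f b ≤ 1 / 2) (n : ℕ) :
    ∀ T : Finset (List G), (∀ L ∈ T, L.length ≤ n) → ∑ L ∈ T, (L.map f).prod ≤ 2 := by
  classical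
  have hpos : ∀ L : List G, 0 ≤ (L.map f).prod := by
    intro L
    apply List.prod_nonneg
    intro x hx
    obtain ⟨b, -, rfl⟩ := List.mem_map.1 hx
    exact hf0 b
  induction n with
  | zero =>
    intro T hT
    have hsub : T ⊆ {[]} := by
      intro L hL
      have := hT L hL
      simp only [Nat.le_zero, List.length_eq_zero_iff] at this
      simp [this]
    calc ∑ L ∈ T, (L.map f).prod ≤ ∑ L ∈ ({[]} : Finset (List G)), (L.map f).prod :=
          Finset.sum_le_sum_of_subset_of_nonneg hsub (fun L _ _ => hpos L)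
      _ ≤ 2 := by simp
  | succ n ih =>
    intro T hT
    set A : Finset G := T.biUnion (fun L => L.toFinset) with hA
    set T' : Finset (List G) := T.image List.tail with hT'
    have hsub : T ⊆ insert [] ((A ×ˢ T').image (fun p => p.1 :: p.2)) := by
      intro L hL
      cases L with
      | nil => simp
      | cons a L =>
        refine Finset.mem_insert_of_mem (Finset.mem_image.2 ⟨(a, L), ?_, rfl⟩)
        refine Finset.mem_product.2 ⟨?_, ?_⟩
        · exact Finset.mem_biUnion.2 ⟨a :: L, hL, by simp⟩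
        · exact Finset.mem_image.2 ⟨a :: L, hL, rfl⟩
    have hlen : ∀ L ∈ T', L.length ≤ n := by
      intro L hL
      obtain ⟨L', hL', rfl⟩ := Finset.mem_image.1 hL
      have := hT L' hL'
      simp only [List.length_tail]
      omega
    have hinj : Set.InjOn (fun p : G × List G => p.1 :: p.2) (A ×ˢ T' : Finset (G × List G)) := by
      rintro ⟨a, L⟩ - ⟨b, M⟩ - h
      simpa using h
    have hnotin : ([] : List G) ∉ (A ×ˢ T').image (fun p => p.1 :: p.2) := by simp
    calc ∑ L ∈ T, (L.map f).prod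
        ≤ ∑ L ∈ insert [] ((A ×ˢ T').image (fun p => p.1 :: p.2)), (L.map f).prod :=
          Finset.sum_le_sum_of_subset_of_nonneg hsub (fun L _ _ => hpos L)
      _ = 1 + ∑ p ∈ A ×ˢ T', f p.1 * (p.2.map f).prod := by
          rw [Finset.sum_insert hnotin, Finset.sum_image hinj]
          simp
      _ = 1 + (∑ a ∈ A, f a) * ∑ L ∈ T', (L.map f).prod := by
          rw [Finset.sum_mul_sum, Finset.sum_product]
      _ ≤ 1 + 1 / 2 * 2 := by
          have h1 := hf A
          have h2 := ih T' hlen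
          have h3 : 0 ≤ ∑ L ∈ T', (L.map f).prod := Finset.sum_nonneg (fun L _ => hpos L)
          have h4 : 0 ≤ ∑ a ∈ A, f a := Finset.sum_nonneg (fun L _ => hf0 L)
          have := mul_le_mul h1 h2 h3 (by norm_num)
          linarith
      _ = 2 := by norm_num

theorem exists_weight (G : Type) [Group G] [Countable G] (N : G → ℝ) (hpos : ∀ a, 0 < N a) :
    ∃ w : G → ℝ, (∀ b, 0 ≤ w b) ∧ (∀ b, w b⁻¹ = w b) ∧ (∀ b, N b ≤ Real.exp (w b)) ∧
      ∀ A : Finset G, ∑ b ∈ A, Real.exp (-w b) ≤ 1 / 2 := by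
  classical
  obtain ⟨e, he⟩ := Countable.exists_injective_nat G
  let w0 : G → ℝ := fun b => |Real.log (N b)| + (e b + 2) * Real.log 2
  have hlog2 : 0 < Real.log 2 := Real.log_pos (by norm_num)
  have hw0 : ∀ b, 0 ≤ w0 b := fun b => by
    have : (0 : ℝ) ≤ (e b + 2) * Real.log 2 := by positivity
    exact add_nonneg (abs_nonneg _) this
  refine ⟨fun b => w0 b + w0 b⁻¹, fun b => add_nonneg (hw0 _) (hw0 _), fun b => ?_, fun b => ?_,
    fun A => ?_⟩
  · simp only [inv_inv]
    ring
  · rw [← Real.log_le_iff_le_exp (hpos b)]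
    have h1 : Real.log (N b) ≤ |Real.log (N b)| := le_abs_self _
    have h2 : (0 : ℝ) ≤ (e b + 2) * Real.log 2 := by positivity
    have h3 := hw0 b⁻¹
    show Real.log (N b) ≤ w0 b + w0 b⁻¹
    have h4 : w0 b = |Real.log (N b)| + (e b + 2) * Real.log 2 := rfl
    linarith
  · have hb : ∀ b, Real.exp (-(w0 b + w0 b⁻¹)) ≤ (1 / 4) * (1 / 2) ^ (e b) := by
      intro b
      have h4 : w0 b = |Real.log (N b)| + (e b + 2) * Real.log 2 := rfl
      have h5 : (1 / 4 : ℝ) * (1 / 2) ^ (e b) = Real.exp (-((e b + 2) * Real.log 2)) := by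
        have h6 : ((e b : ℝ) + 2) * Real.log 2 = Real.log (2 ^ (e b + 2)) := by
          rw [Real.log_pow]
          push_cast
          ring
        rw [h6, Real.exp_neg, Real.exp_log (by positivity)]
        rw [pow_add, mul_inv, one_div_pow]
        norm_num
        ring
      rw [h5]
      apply Real.exp_le_exp.2
      have h1 : 0 ≤ |Real.log (N b)| := abs_nonneg _
      have h3 := hw0 b⁻¹
      linarith
    calc ∑ b ∈ A, Real.exp (-(w0 b + w0 b⁻¹)) ≤ ∑ b ∈ A, (1 / 4 : ℝ) * (1 / 2) ^ (e b) :=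
          Finset.sum_le_sum (fun b _ => hb b)
      _ = ∑ k ∈ A.image e, (1 / 4 : ℝ) * (1 / 2) ^ k := by
          rw [Finset.sum_image (fun x _ y _ h => he h)]
      _ ≤ ∑' k : ℕ, (1 / 4 : ℝ) * (1 / 2) ^ k := by
          apply Summable.sum_le_tsum _ (fun k _ => by positivity)
          exact (summable_geometric_of_lt_one (by norm_num) (by norm_num)).mul_left _
      _ = 1 / 2 := by
          rw [tsum_mul_left, tsum_geometric_of_lt_one (by norm_num) (by norm_num)]
          norm_num

end LengthAux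

open LengthAux

/-- (P7a) Word length with weights: choose `w : Π → ℝ` symmetric with `w b ≥ 1`, `w b ≥ log (N b)`,
`∑ exp (-w b) ≤ 1/2`, and let `ℓ a` be the infimum of `∑ w b` over all words with product `a`. -/
theorem exists_length (G : Type) [Group G] [Countable G] (N : G → ℝ) (hN1 : N 1 ≤ 1)
    (hN : ∀ a b, N (a * b) ≤ N a * N b) (hpos : ∀ a, 0 < N a) :
    ∃ ℓ : G → ℝ, (∀ a, 0 ≤ ℓ a) ∧ (∀ a b, ℓ (a * b) ≤ ℓ a + ℓ b) ∧ (∀ a, ℓ a⁻¹ = ℓ a) ∧
      Summable (fun a => Real.exp (-ℓ a)) ∧ ∀ a, N a ≤ Real.exp (ℓ a) := by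
  classical
  obtain ⟨w, hw0, hwinv, hwN, hwsum⟩ := exists_weight G N hpos
  -- the set of weights of words
  let W : G → Set ℝ := fun a => {s | ∃ L : List G, L.prod = a ∧ (L.map w).sum = s}
  let ℓ : G → ℝ := fun a => sInf (W a)
  have hmem : ∀ L : List G, (L.map w).sum ∈ W L.prod := fun L => ⟨L, rfl, rfl⟩
  have hne : ∀ a, (W a).Nonempty := fun a => ⟨w a, [a], by simp, by simp⟩
  have hnn : ∀ L : List G, 0 ≤ (L.map w).sum := by
    intro L
    apply List.sum_nonneg
    intro x hx
    obtain ⟨b, -, rfl⟩ := List.mem_map.1 hx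
    exact hw0 b
  have hbdd : ∀ a, BddBelow (W a) := by
    intro a
    refine ⟨0, ?_⟩
    rintro s ⟨L, -, rfl⟩
    exact hnn L
  have hle : ∀ L : List G, ℓ L.prod ≤ (L.map w).sum := fun L => csInf_le (hbdd _) (hmem L)
  have hge : ∀ a (r : ℝ), (∀ L : List G, L.prod = a → r ≤ (L.map w).sum) → r ≤ ℓ a := by
    intro a r h
    apply le_csInf (hne a)
    rintro s ⟨L, hL, rfl⟩
    exact h L hL
  have hℓ0 : ∀ a, 0 ≤ ℓ a := fun a => hge a 0 (fun L _ => hnn L)
  have hsymm_le : ∀ a, ℓ a⁻¹ ≤ ℓ a := by
    intro a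
    apply hge
    rintro L rfl
    have h1 := hle (L.map (fun x => x⁻¹)).reverse
    rw [← List.prod_inv_reverse] at h1
    refine h1.trans_eq ?_
    rw [List.map_reverse, List.sum_reverse, List.map_map]
    congr 1
    apply List.map_congr_left
    intro b _
    exact hwinv b
  refine ⟨ℓ, hℓ0, ?_, ?_, ?_, ?_⟩
  · intro a b
    have h1 : ∀ L : List G, L.prod = a → ℓ (a * b) - (L.map w).sum ≤ ℓ b := by
      rintro L rfl
      apply hge
      rintro M rfl
      have := hle (L ++ M)
      rw [List.prod_append, List.map_append, List.sum_append] at this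
      linarith
    have h2 : ℓ (a * b) - ℓ b ≤ ℓ a := by
      apply hge
      intro L hL
      have := h1 L hL
      linarith
    linarith
  · intro a
    apply le_antisymm (hsymm_le a)
    have := hsymm_le a⁻¹
    rwa [inv_inv] at this
  · apply summable_of_sum_le (c := 4) (fun a => (Real.exp_pos _).le)
    intro A
    -- choose an almost optimal word for every `a`
    have hch : ∀ a, ∃ L : List G, L.prod = a ∧ (L.map w).sum < ℓ a + Real.log 2 := by
      intro a
      have hlt : ℓ a < ℓ a + Real.log 2 := by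
        have : 0 < Real.log 2 := Real.log_pos (by norm_num)
        linarith
      obtain ⟨s, ⟨L, hL, rfl⟩, hs⟩ := exists_lt_of_csInf_lt (hne a) hlt
      exact ⟨L, hL, hs⟩
    choose Lw hLw1 hLw2 using hch
    have hinj : Function.Injective Lw := by
      intro a b hab
      rw [← hLw1 a, ← hLw1 b, hab]
    have hexp : ∀ L : List G, (L.map (fun b => Real.exp (-w b))).prod
        = Real.exp (-(L.map w).sum) := by
      intro L
      induction L with
      | nil => simp
      | cons b L ih =>
        simp only [List.map_cons, List.prod_cons, List.sum_cons, ih]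
        rw [← Real.exp_add]
        ring_nf
    have hbound : ∀ a, Real.exp (-ℓ a) ≤ 2 * ((Lw a).map (fun b => Real.exp (-w b))).prod := by
      intro a
      rw [hexp]
      have h2 : (2 : ℝ) = Real.exp (Real.log 2) := (Real.exp_log (by norm_num)).symm
      calc Real.exp (-ℓ a) ≤ Real.exp (Real.log 2 + -((Lw a).map w).sum) := by
            apply Real.exp_le_exp.2
            have := hLw2 a
            linarith
        _ = 2 * Real.exp (-((Lw a).map w).sum) := by
            rw [Real.exp_add, Real.exp_log (by norm_num)]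
    have hT := sum_words_le (fun b => Real.exp (-w b)) (fun b => (Real.exp_pos _).le) hwsum
      ((A.image Lw).sup List.length) (A.image Lw) (fun L hL => Finset.le_sup hL)
    rw [Finset.sum_image (fun x _ y _ h => hinj h)] at hT
    calc ∑ a ∈ A, Real.exp (-ℓ a)
        ≤ ∑ a ∈ A, 2 * ((Lw a).map (fun b => Real.exp (-w b))).prod :=
          Finset.sum_le_sum (fun a _ => hbound a)
      _ = 2 * ∑ a ∈ A, ((Lw a).map (fun b => Real.exp (-w b))).prod := by rw [Finset.mul_sum]
      _ ≤ 2 * 2 := by linarith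
      _ = 4 := by norm_num
  · intro a
    rw [← Real.log_le_iff_le_exp (hpos a)]
    apply hge
    rintro L rfl
    rw [Real.log_le_iff_le_exp (hpos _)]
    induction L with
    | nil => simpa using hN1
    | cons b L ih =>
      simp only [List.prod_cons, List.map_cons, List.sum_cons]
      calc N (b * L.prod) ≤ N b * N L.prod := hN _ _
        _ ≤ Real.exp (w b) * Real.exp ((L.map w).sum) :=
          mul_le_mul (hwN b) ih (hpos _).le (Real.exp_pos _).le
        _ = Real.exp (w b + (L.map w).sum) := by rw [Real.exp_add]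

/-- (P7b) the induced function on `G ⧸ H` (minimum over the coset) -/
theorem exists_length_quotient (G : Type) [Group G] [Countable G] (H : Subgroup G) :
    ∃ ℓ : G ⧸ H → ℝ, (∀ r : ℝ, {a | ℓ a ≤ r}.Finite) ∧
      ∀ c : G, ∃ C : ℝ, ∀ a, |ℓ (c • a) - ℓ a| ≤ C := by
  classical
  obtain ⟨lg, hlg0, hlgadd, hlginv, hlgsum, -⟩ := exists_length G (fun _ => 1) le_rfl
    (fun _ _ => by norm_num) (fun _ => one_pos)
  have hfin : ∀ r : ℝ, {g | lg g ≤ r}.Finite := by
    intro r
    have h1 := hlgsum.tendsto_cofinite_zero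
    have h2 : ∀ᶠ g in cofinite, Real.exp (-lg g) < Real.exp (-r) :=
      h1.eventually (gt_mem_nhds (Real.exp_pos _))
    have h3 := Filter.eventually_cofinite.1 h2
    refine h3.subset ?_
    intro g hg
    simp only [Set.mem_ofPred_eq, not_lt] at hg ⊢
    apply Real.exp_le_exp.2
    linarith
  let ℓ : G ⧸ H → ℝ := fun x => sInf (lg '' {g | (g : G ⧸ H) = x})
  have hne : ∀ x : G ⧸ H, (lg '' {g | (g : G ⧸ H) = x}).Nonempty := by
    intro x
    obtain ⟨g, rfl⟩ := QuotientGroup.mk_surjective x
    exact ⟨lg g, g, rfl, rfl⟩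
  have hbdd : ∀ x : G ⧸ H, BddBelow (lg '' {g | (g : G ⧸ H) = x}) := by
    intro x
    refine ⟨0, ?_⟩
    rintro s ⟨g, -, rfl⟩
    exact hlg0 g
  have hstep : ∀ (c : G) (x : G ⧸ H), ℓ (c • x) ≤ lg c + ℓ x := by
    intro c x
    have : ℓ (c • x) - lg c ≤ ℓ x := by
      apply le_csInf (hne x)
      rintro s ⟨g, hg, rfl⟩
      have h1 : ℓ (c • x) ≤ lg (c * g) := by
        apply csInf_le (hbdd _)
        refine ⟨c * g, ?_, rfl⟩
        simp only [Set.mem_ofPred_eq] at hg ⊢
        rw [← hg]
        rfl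
      have h2 := hlgadd c g
      linarith
    linarith
  refine ⟨ℓ, ?_, ?_⟩
  · intro r
    refine ((hfin (r + 1)).image (fun g : G => (g : G ⧸ H))).subset ?_
    intro x hx
    simp only [Set.mem_ofPred_eq] at hx
    have hlt : ℓ x < r + 1 := by linarith
    obtain ⟨s, ⟨g, hg, rfl⟩, hs⟩ := exists_lt_of_csInf_lt (hne x) hlt
    exact ⟨g, hs.le, hg⟩
  · intro c
    refine ⟨lg c, fun x => ?_⟩
    rw [abs_le]
    have h1 := hstep c x
    have h2 := hstep c⁻¹ (c • x)
    rw [inv_smul_smul, hlginv] at h2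
    constructor <;> linarith

end Pool.Agent.Levi
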