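import Pool.Agent.Levi.Tame
import Pool.Agent.Levi.Holo
import Pool.Agent.Levi.Length
import Pool.Agent.Levi.Covering

/-!
# Sections of flat vector bundles extend to the envelope of holomorphy

Package P11 for MP_bf64af_an: a holomorphic section, over `D`, of a flat vector bundle on the
envelope of holomorphy `S` of `D` extends to `S` (Poincaré series).
-/

set_option autoImplicit false

open Set Filter Topology Metric
open scoped ContDiff Manifold Matrix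

namespace Pool.Agent.Levi

open Pool.Agent.MEP

/-! ### Scalar holomorphic functions -/

section Alg

variable {n : ℕ} {S : Type} [TopologicalSpace S] [ChartedSpace (Fin n → ℂ) S]

variable (n) in
/-- abbreviation: `f` is complex differentiable at `x` -/
abbrev HolAt (f : S → ℂ) (x : S) : Prop :=
  MDifferentiableAt 𝓘(ℂ, Fin n → ℂ) 𝓘(ℂ, ℂ) f x

theorem HolAt.fun_sum {ι : Type} {t : Finset ι} {f : ι → S → ℂ} {x : S}
    (h : ∀ i ∈ t, HolAt n (f i) x) : HolAt n (fun y => ∑ i ∈ t, f i y) x := by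
  have h1 : MDifferentiableAt 𝓘(ℂ, Fin n → ℂ) 𝓘(ℂ, ℂ) (∑ i ∈ t, f i) x :=
    MDifferentiableAt.sum h
  have h2 : (∑ i ∈ t, f i) = fun y => ∑ i ∈ t, f i y := by
    ext y; simp
  rw [h2] at h1
  exact h1

theorem HolAt.fun_prod {ι : Type} {t : Finset ι} {f : ι → S → ℂ} {x : S}
    (h : ∀ i ∈ t, HolAt n (f i) x) : HolAt n (fun y => ∏ i ∈ t, f i y) x := by
  have h1 : MDifferentiableAt 𝓘(ℂ, Fin n → ℂ) 𝓘(ℂ, ℂ) (∏ i ∈ t, f i) x :=
    MDifferentiableAt.prod h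
  have h2 : (∏ i ∈ t, f i) = fun y => ∏ i ∈ t, f i y := by
    ext y; simp
  rw [h2] at h1
  exact h1

theorem HolAt.fun_mul {f g : S → ℂ} {x : S} (hf : HolAt n f x) (hg : HolAt n g x) :
    HolAt n (fun y => f y * g y) x :=
  MDifferentiableAt.mul hf hg

theorem HolAt.fun_sub {f g : S → ℂ} {x : S} (hf : HolAt n f x) (hg : HolAt n g x) :
    HolAt n (fun y => f y - g y) x :=
  MDifferentiableAt.sub hf hg

theorem HolAt.const (a : ℂ) (x : S) : HolAt n (fun _ : S => a) x :=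
  mdifferentiableAt_const

theorem HolAt.fun_inv {f : S → ℂ} {x : S} (hf : HolAt n f x) (h0 : f x ≠ 0) :
    HolAt n (fun y => (f y)⁻¹) x :=
  MDifferentiableAt.inv hf h0

theorem HolAt.det {r : ℕ} {M : S → Matrix (Fin r) (Fin r) ℂ} {x : S}
    (h : ∀ k l, HolAt n (fun y => M y k l) x) : HolAt n (fun y => (M y).det) x := by
  simp only [Matrix.det_apply']
  refine HolAt.fun_sum fun σ _ => ?_
  refine HolAt.fun_mul (HolAt.const _ _) ?_
  exact HolAt.fun_prod fun i _ => h _ _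

theorem HolAt.adjugate {r : ℕ} {M : S → Matrix (Fin r) (Fin r) ℂ} {x : S}
    (h : ∀ k l, HolAt n (fun y => M y k l) x) (k l : Fin r) :
    HolAt n (fun y => (M y).adjugate k l) x := by
  simp only [Matrix.adjugate_apply]
  refine HolAt.det fun a b => ?_
  by_cases hal : a = l
  · subst hal
    simp only [Matrix.updateRow_self]
    exact HolAt.const _ _
  · simp only [Matrix.updateRow_ne hal]
    exact h a b

theorem HolAt.mulVec {r : ℕ} {M : S → Matrix (Fin r) (Fin r) ℂ} {v : S → (Fin r → ℂ)} {x : S}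
    (h : ∀ k l, HolAt n (fun y => M y k l) x) (hv : ∀ k, HolAt n (fun y => v y k) x) (k : Fin r) :
    HolAt n (fun y => (M y *ᵥ v y) k) x := by
  simp only [Matrix.mulVec, dotProduct]
  exact HolAt.fun_sum fun i _ => HolAt.fun_mul (h _ _) (hv _)

theorem holAt_pi_iff {r : ℕ} {v : S → (Fin r → ℂ)} {x : S} :
    MDifferentiableAt 𝓘(ℂ, Fin n → ℂ) 𝓘(ℂ, Fin r → ℂ) v x ↔ ∀ k, HolAt n (fun y => v y k) x := by
  constructor
  · intro h k
    have h2 : MDifferentiableAt 𝓘(ℂ, Fin r → ℂ) 𝓘(ℂ, ℂ) (fun w : Fin r → ℂ => w k) (v x) :=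
      DifferentiableAt.mdifferentiableAt (differentiableAt_apply k _)
    exact MDifferentiableAt.comp (g := fun w : Fin r → ℂ => w k) x h2 h
  · intro h
    rw [mdifferentiableAt_iff]
    refine ⟨continuousAt_pi.mpr fun i => (h i).continuousAt, ?_⟩
    have h1 : ∀ i, DifferentiableWithinAt ℂ (writtenInExtChartAt 𝓘(ℂ, Fin n → ℂ) 𝓘(ℂ, ℂ) x
        (fun y => v y i)) (range 𝓘(ℂ, Fin n → ℂ)) (extChartAt 𝓘(ℂ, Fin n → ℂ) x x) :=
      fun i => ((mdifferentiableAt_iff _ _).mp (h i)).2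
    rw [differentiableWithinAt_pi]
    intro i
    exact h1 i

end Alg

section Local

variable {n : ℕ} {S : Type} [TopologicalSpace S] [ChartedSpace (Fin n → ℂ) S]
  [IsManifold 𝓘(ℂ, Fin n → ℂ) ω S]

/-- `f` in the chart at `p` -/
theorem HolAt.comp_symm {f : S → ℂ} {p : S} {z : Fin n → ℂ}
    (hz : z ∈ (chartAt (Fin n → ℂ) p).target) (h : HolAt n f ((chartAt (Fin n → ℂ) p).symm z)) :
    DifferentiableAt ℂ (fun z => f ((chartAt (Fin n → ℂ) p).symm z)) z := by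
  rw [← mdifferentiableAt_iff_differentiableAt]
  exact MDifferentiableAt.comp (g := f) z h (mdifferentiableAt_atlas_symm (chart_mem_atlas _ p) hz)

theorem holAt_of_comp_symm {f : S → ℂ} {p x : S} (hx : x ∈ (chartAt (Fin n → ℂ) p).source)
    (h : DifferentiableAt ℂ (fun z => f ((chartAt (Fin n → ℂ) p).symm z))
      (chartAt (Fin n → ℂ) p x)) : HolAt n f x := by
  set e := chartAt (Fin n → ℂ) p with he
  have h1 : MDifferentiableAt 𝓘(ℂ, Fin n → ℂ) 𝓘(ℂ, Fin n → ℂ) e x :=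
    mdifferentiableAt_atlas (chart_mem_atlas _ p) hx
  have h2 : HolAt n (fun y => f (e.symm (e y))) x :=
    MDifferentiableAt.comp (g := fun z => f (e.symm z)) x h.mdifferentiableAt h1
  refine h2.congr_of_eventuallyEq ?_
  filter_upwards [e.open_source.mem_nhds hx] with y hy
  rw [e.left_inv hy]

/-- locally dominated series of holomorphic functions on a manifold -/
theorem holAt_tsum {α : Type*} {U : Set S} (hU : IsOpen U) {f : α → S → ℂ}
    (hf : ∀ a, ∀ x ∈ U, HolAt n (f a) x)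
    (hb : ∀ x ∈ U, ∃ V ∈ 𝓝 x, ∃ b : α → ℝ, Summable b ∧ ∀ y ∈ V, ∀ a, ‖f a y‖ ≤ b a) :
    ∀ x ∈ U, HolAt n (fun y => ∑' a, f a y) x := by
  intro p hp
  set e := chartAt (Fin n → ℂ) p with he
  have hpt : e p ∈ e.target := mem_chart_target _ _
  have hps : p ∈ e.source := mem_chart_source _ _
  refine holAt_of_comp_symm (p := p) hps ?_
  have hO : IsOpen (e.target ∩ e.symm ⁻¹' U) := e.symm.isOpen_inter_preimage hU
  have hpO : e p ∈ e.target ∩ e.symm ⁻¹' U := ⟨hpt, by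
    show e.symm (e p) ∈ U
    rw [e.left_inv hps]; exact hp⟩
  have key := differentiableOn_tsum_of_local (f := fun a z => f a (e.symm z)) hO
    (fun a z hz => (HolAt.comp_symm hz.1 (hf a _ hz.2)).differentiableWithinAt) (by
      intro z hz
      obtain ⟨V, hV, b, hb1, hb2⟩ := hb _ hz.2
      refine ⟨e.symm ⁻¹' V, (e.symm.continuousAt hz.1).preimage_mem_nhds hV, b, hb1, ?_⟩
      intro y hy a
      exact hb2 _ hy a)
  exact key.differentiableAt (hO.mem_nhds hpO)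

/-- identity theorem for a family of holomorphic functions on the members of an open cover, which
vanish near the same points on the overlaps -/
theorem identity_cover [PreconnectedSpace S] {ι : Type} (U : ι → Set S) (hU : ∀ i, IsOpen (U i))
    (hcov : ∀ x, ∃ i, x ∈ U i) {D : Set S} (hD : IsOpen D) (hne : D.Nonempty)
    (g : ι → S → ℂ) (hg : ∀ i, ∀ x ∈ U i, HolAt n (g i) x)
    (htr : ∀ i j, ∀ x ∈ U i ∩ U j, (∀ᶠ y in 𝓝 x, g i y = 0) → ∀ᶠ y in 𝓝 x, g j y = 0)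
    (h0 : ∀ i, ∀ x ∈ U i ∩ D, g i x = 0) : ∀ i, ∀ x ∈ U i, g i x = 0 := by
  have hsub : (univ : Set S) ⊆ {a | ∃ i, a ∈ U i ∧ ∀ᶠ z in 𝓝 a, g i z = 0} := by
    refine isPreconnected_univ.subset_of_closure_inter_subset ?_ ?_ ?_
    · rw [isOpen_iff_mem_nhds]
      rintro a ⟨i, hai, ha⟩
      filter_upwards [(hU i).mem_nhds hai, ha.eventually_nhds] with b hb hb'
      exact ⟨i, hb, hb'⟩
    · obtain ⟨x, hx⟩ := hne
      obtain ⟨i, hi⟩ := hcov x
      refine ⟨x, mem_univ _, i, hi, ?_⟩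
      filter_upwards [(hU i).mem_nhds hi, hD.mem_nhds hx] with y hy hy'
      exact h0 i y ⟨hy, hy'⟩
    · rintro p ⟨hp, _⟩
      obtain ⟨i, hi⟩ := hcov p
      set e := chartAt (Fin n → ℂ) p with he
      have hpt : e p ∈ e.target := mem_chart_target _ _
      have hps : p ∈ e.source := mem_chart_source _ _
      have hO : IsOpen (e.target ∩ e.symm ⁻¹' U i) := e.symm.isOpen_inter_preimage (hU i)
      have hpO : e p ∈ e.target ∩ e.symm ⁻¹' U i := ⟨hpt, by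
        show e.symm (e p) ∈ U i
        rw [e.left_inv hps]; exact hi⟩
      obtain ⟨ε, hε, hεb⟩ := Metric.isOpen_iff.mp hO _ hpO
      have hN : IsOpen (e.source ∩ e ⁻¹' ball (e p) ε) := e.isOpen_inter_preimage isOpen_ball
      have hpN : p ∈ e.source ∩ e ⁻¹' ball (e p) ε := ⟨hps, mem_ball_self hε⟩
      rw [mem_closure_iff_nhds] at hp
      obtain ⟨b, ⟨hbs, hbb⟩, j, hbj, hb⟩ := hp _ (hN.mem_nhds hpN)
      have hbi : b ∈ U i := by
        have := (hεb hbb).2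
        rw [mem_preimage, e.left_inv hbs] at this
        exact this
      have hb2 := htr j i b ⟨hbj, hbi⟩ hb
      have hd : DifferentiableOn ℂ (fun z => g i (e.symm z)) (ball (e p) ε) := fun z hz =>
        (HolAt.comp_symm (hεb hz).1 (hg i _ (hεb hz).2)).differentiableWithinAt
      have hev : ∀ᶠ x in 𝓝 (e b), g i (e.symm x) = 0 := by
        have h1 : ContinuousAt e.symm (e b) := e.continuousAt_symm (e.map_source hbs)
        have h2 : e.symm (e b) = b := e.left_inv hbs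
        have hb' : ∀ᶠ z in 𝓝 (e.symm (e b)), g i z = 0 := by rw [h2]; exact hb2
        exact h1.eventually hb'
      have key := eq_zero_of_convex (convex_ball _ _) isOpen_ball hd hbb hev
      refine ⟨i, hi, ?_⟩
      filter_upwards [hN.mem_nhds hpN] with z hz
      have := key (e z) hz.2
      rwa [e.left_inv hz.1] at this
  intro i x hi
  obtain ⟨j, hj, hj'⟩ := hsub (mem_univ x)
  exact (htr j i x ⟨hj, hi⟩ hj').self_of_nhds

end Local

/-! ### a submultiplicative norm -/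

section Rep

open scoped Matrix.Norms.Operator in
theorem exists_norm_rep {G : Type} [Group G] {r : ℕ} (δ : G →* Matrix (Fin r) (Fin r) ℂ) :
    ∃ N : G → ℝ, N 1 ≤ 1 ∧ (∀ a b, N (a * b) ≤ N a * N b) ∧ (∀ a, 0 < N a) ∧
      ∀ a k l, ‖δ a k l‖ ≤ N a := by
  refine ⟨fun a => max 1 ‖δ a‖, ?_, ?_, ?_, ?_⟩
  · show max 1 ‖δ 1‖ ≤ 1
    rw [map_one]
    refine max_le le_rfl ?_
    have h1 : (1 : Matrix (Fin r) (Fin r) ℂ) = Matrix.diagonal 1 := by simp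
    rw [h1, Matrix.linfty_opNorm_diagonal]
    rw [pi_norm_le_iff_of_nonneg zero_le_one]
    intro i
    simp
  · intro a b
    show max 1 ‖δ (a * b)‖ ≤ max 1 ‖δ a‖ * max 1 ‖δ b‖
    rw [map_mul]
    refine max_le ?_ ?_
    · have h1 : (1 : ℝ) ≤ max 1 ‖δ a‖ := le_max_left _ _
      have h2 : (1 : ℝ) ≤ max 1 ‖δ b‖ := le_max_left _ _
      nlinarith
    · refine (norm_mul_le _ _).trans ?_
      exact mul_le_mul (le_max_right _ _) (le_max_right _ _) (norm_nonneg _)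
        (zero_le_one.trans (le_max_left _ _))
  · intro a
    exact zero_lt_one.trans_le (le_max_left _ _)
  · intro a k l
    refine le_trans ?_ (le_max_right _ _)
    rw [Matrix.linfty_opNorm_def]
    have h1 : ‖δ a k l‖₊ ≤ ∑ j, ‖δ a k j‖₊ :=
      Finset.single_le_sum (f := fun j => ‖δ a k j‖₊) (fun _ _ => bot_le) (Finset.mem_univ l)
    have h2 : ∑ j, ‖δ a k j‖₊ ≤ Finset.univ.sup fun i => ∑ j, ‖δ a i j‖₊ :=
      Finset.le_sup (f := fun i => ∑ j, ‖δ a i j‖₊) (Finset.mem_univ k)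
    exact_mod_cast h1.trans h2

end Rep

/-! ### Poincaré series -/

/-- the covering `q : W → S` with labels `lab`, and its sections -/
structure CovData (n : ℕ) {S W G ι : Type} [TopologicalSpace S] [ChartedSpace (Fin n → ℂ) S]
    [TopologicalSpace W] [Group G] {r : ℕ} (δ : G →* Matrix (Fin r) (Fin r) ℂ) (U : ι → Set S)
    (c : ι → ι → S → G) (ℓ : G → ℝ) (q : W → S) (lab : ι → W → G) (sec : ι → S → G → W)
    (ρ : W → ℝ) : Prop where
  isOpen : ∀ i, IsOpen (U i)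
  cov : ∀ x, ∃ i, x ∈ U i
  q_sec : ∀ i, ∀ x ∈ U i, ∀ a, q (sec i x a) = x
  lab_sec : ∀ i, ∀ x ∈ U i, ∀ a, lab i (sec i x a) = a
  lab_inj : ∀ i w w', q w = q w' → q w ∈ U i → lab i w = lab i w' → w = w'
  lab_trans : ∀ i j w, q w ∈ U i → q w ∈ U j → lab j w = c i j (q w) * lab i w
  lab_loc : ∀ i w, q w ∈ U i → ∀ᶠ w' in 𝓝 w, lab i w' = lab i w
  localHomeo : IsLocalHomeomorph q
  rho : ∀ i, ∀ p ∈ U i, ∃ N ∈ 𝓝 p, ∃ C : ℝ, ∀ w, q w ∈ N → |ρ w - ℓ (lab i w)| ≤ C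
  summable : Summable (fun a => Real.exp (-ℓ a))
  bound : ∀ a k l, ‖δ a⁻¹ k l‖ ≤ Real.exp (ℓ a)

/-- the matrix `∑ a, β (sec a) • δ a⁻¹` -/
noncomputable def AM {S W G ι : Type} [Group G] {r : ℕ} (δ : G →* Matrix (Fin r) (Fin r) ℂ)
    (sec : ι → S → G → W) (β : W → ℂ) (i : ι) (x : S) : Matrix (Fin r) (Fin r) ℂ :=
  fun k l => ∑' a, β (sec i x a) * δ a⁻¹ k l

/-- `β` decays like `exp (-2 ρ)`, locally uniformly over `S` -/
def Decays {S W : Type} [TopologicalSpace S] (q : W → S) (ρ : W → ℝ) (β : W → ℂ) : Prop :=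
  ∀ p : S, ∃ N ∈ 𝓝 p, ∃ C : ℝ, ∀ w, q w ∈ N → ‖β w‖ ≤ C * Real.exp (-(2 * ρ w))

namespace CovData

variable {n : ℕ} {S W G ι : Type} [TopologicalSpace S] [ChartedSpace (Fin n → ℂ) S]
  [IsManifold 𝓘(ℂ, Fin n → ℂ) ω S]
  [TopologicalSpace W] [Group G] {r : ℕ} {δ : G →* Matrix (Fin r) (Fin r) ℂ} {U : ι → Set S}
  {c : ι → ι → S → G} {ℓ : G → ℝ} {q : W → S} {lab : ι → W → G} {sec : ι → S → G → W}
  {ρ : W → ℝ}

omit [IsManifold 𝓘(ℂ, Fin n → ℂ) ω S] in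
theorem sec_eq (H : CovData n δ U c ℓ q lab sec ρ) {i : ι} {x : S} (hx : x ∈ U i) {w : W}
    (hw : q w = x) {a : G} (ha : lab i w = a) : sec i x a = w := by
  refine H.lab_inj i _ _ ?_ ?_ ?_
  · rw [H.q_sec i x hx, hw]
  · rw [H.q_sec i x hx]; exact hx
  · rw [H.lab_sec i x hx, ha]

omit [IsManifold 𝓘(ℂ, Fin n → ℂ) ω S] in
theorem holAt_sec (H : CovData n δ U c ℓ q lab sec ρ) {β : W → ℂ} (hβ : QHolo n q β) {i : ι}
    {x : S} (hx : x ∈ U i) (a : G) : HolAt n (fun y => β (sec i y a)) x := by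
  obtain ⟨b, hb1, hb2⟩ := hβ (sec i x a)
  have hqx : q (sec i x a) = x := H.q_sec i x hx a
  rw [hqx] at hb1
  refine hb1.congr_of_eventuallyEq ?_
  have h1 : ∀ᶠ w' in 𝓝 (sec i x a), lab i w' = a := by
    have := H.lab_loc i (sec i x a) (by rw [hqx]; exact hx)
    rwa [H.lab_sec i x hx] at this
  have h2 : ∀ᶠ w' in 𝓝 (sec i x a), q w' ∈ U i := by
    have : ContinuousAt q (sec i x a) := H.localHomeo.continuous.continuousAt
    exact this.eventually_mem ((H.isOpen i).mem_nhds (by rw [hqx]; exact hx))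
  have h3 := (H.localHomeo.isOpenMap.image_mem_nhds (x := sec i x a)
    (hb2.and (h1.and h2)))
  rw [hqx] at h3
  filter_upwards [h3] with y hy
  obtain ⟨w', ⟨hw1, hw2, hw3⟩, rfl⟩ := hy
  rw [H.sec_eq hw3 rfl hw2, hw1]

omit [IsManifold 𝓘(ℂ, Fin n → ℂ) ω S] in
theorem exists_bound (H : CovData n δ U c ℓ q lab sec ρ) {β : W → ℂ} (hβ : Decays q ρ β)
    {i : ι} {x : S} (hx : x ∈ U i) : ∃ V ∈ 𝓝 x, V ⊆ U i ∧ ∃ C : ℝ, 0 ≤ C ∧
      ∀ y ∈ V, ∀ a k l, ‖β (sec i y a) * δ a⁻¹ k l‖ ≤ C * Real.exp (-ℓ a) := by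
  obtain ⟨N, hN, C, hC⟩ := hβ x
  obtain ⟨N', hN', C', hC'⟩ := H.rho i x hx
  refine ⟨N ∩ N' ∩ U i, inter_mem (inter_mem hN hN') ((H.isOpen i).mem_nhds hx),
    inter_subset_right, |C| * Real.exp (2 * C'), by positivity, ?_⟩
  rintro y ⟨⟨hy1, hy2⟩, hy3⟩ a k l
  have hq : q (sec i y a) = y := H.q_sec i y hy3 a
  have h1 := hC (sec i y a) (by rw [hq]; exact hy1)
  have h2 := hC' (sec i y a) (by rw [hq]; exact hy2)
  rw [H.lab_sec i y hy3] at h2
  have h3 := H.bound a k l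
  rw [norm_mul]
  have h4 : ‖β (sec i y a)‖ ≤ |C| * Real.exp (2 * C') * Real.exp (-(2 * ℓ a)) := by
    refine h1.trans ?_
    rw [mul_assoc, ← Real.exp_add]
    refine mul_le_mul (le_abs_self C) (Real.exp_le_exp.mpr ?_) (Real.exp_pos _).le (abs_nonneg _)
    have := (abs_le.mp h2).1
    linarith
  calc ‖β (sec i y a)‖ * ‖δ a⁻¹ k l‖
      ≤ (|C| * Real.exp (2 * C') * Real.exp (-(2 * ℓ a))) * Real.exp (ℓ a) :=
        mul_le_mul h4 h3 (norm_nonneg _) (by positivity)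
    _ = |C| * Real.exp (2 * C') * Real.exp (-ℓ a) := by
        rw [mul_assoc, ← Real.exp_add]
        congr 2
        ring

theorem holAt_AM (H : CovData n δ U c ℓ q lab sec ρ) {β : W → ℂ} (hβ : QHolo n q β)
    (hβ' : Decays q ρ β) {i : ι} {x : S} (hx : x ∈ U i) (k l : Fin r) :
    HolAt n (fun y => AM δ sec β i y k l) x := by
  refine holAt_tsum (H.isOpen i) (f := fun a y => β (sec i y a) * δ a⁻¹ k l) ?_ ?_ x hx
  · intro a y hy
    exact (H.holAt_sec hβ hy a).fun_mul (HolAt.const _ _)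
  · intro y hy
    obtain ⟨V, hV, -, C, hC, hb⟩ := H.exists_bound hβ' hy
    exact ⟨V, hV, fun a => C * Real.exp (-ℓ a), H.summable.mul_left C,
      fun z hz a => hb z hz a k l⟩

omit [IsManifold 𝓘(ℂ, Fin n → ℂ) ω S] in
theorem summable_AM (H : CovData n δ U c ℓ q lab sec ρ) {β : W → ℂ} (hβ : Decays q ρ β)
    {i : ι} {x : S} (hx : x ∈ U i) (k l : Fin r) :
    Summable (fun a => β (sec i x a) * δ a⁻¹ k l) := by
  obtain ⟨V, hV, -, C, hC, hb⟩ := H.exists_bound hβ hx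
  exact Summable.of_norm_bounded (H.summable.mul_left C) fun a => hb x (mem_of_mem_nhds hV) a k l

omit [IsManifold 𝓘(ℂ, Fin n → ℂ) ω S] in
theorem AM_trans (H : CovData n δ U c ℓ q lab sec ρ) {β : W → ℂ} (hβ : Decays q ρ β)
    {i j : ι} {x : S} (hi : x ∈ U i) (hj : x ∈ U j) :
    AM δ sec β i x = AM δ sec β j x * δ (c i j x) := by
  have hsec : ∀ a, sec j x (c i j x * a) = sec i x a := by
    intro a
    have hq : q (sec i x a) = x := H.q_sec i x hi a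
    refine H.sec_eq hj hq ?_
    rw [H.lab_trans i j (sec i x a) (by rw [hq]; exact hi) (by rw [hq]; exact hj), hq,
      H.lab_sec i x hi]
  ext k l
  rw [Matrix.mul_apply]
  simp only [AM]
  have h1 : ∀ m, (∑' a, β (sec j x a) * δ a⁻¹ k m) * δ (c i j x) m l =
      ∑' a, β (sec j x a) * δ a⁻¹ k m * δ (c i j x) m l := fun m => by
    rw [tsum_mul_right]
  simp only [h1]
  rw [← Summable.tsum_finsetSum (fun m _ => (H.summable_AM hβ hj k m).mul_right _)]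
  rw [← (Equiv.mulLeft (c i j x)).tsum_eq
    (fun a => ∑ m, β (sec j x a) * δ a⁻¹ k m * δ (c i j x) m l)]
  refine tsum_congr fun a => ?_
  simp only [Equiv.coe_mulLeft, hsec]
  have h2 : δ a⁻¹ = δ (c i j x * a)⁻¹ * δ (c i j x) := by
    rw [← map_mul]
    congr 1
    group
  rw [h2, Matrix.mul_apply, Finset.mul_sum]
  refine Finset.sum_congr rfl fun m _ => ?_
  ring

omit [IsManifold 𝓘(ℂ, Fin n → ℂ) ω S] in
/-- a matrix close to the identity is invertible -/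
theorem exists_eta (r : ℕ) : ∃ η > 0, ∀ M : Matrix (Fin r) (Fin r) ℂ,
    (∀ k l, ‖M k l - (1 : Matrix (Fin r) (Fin r) ℂ) k l‖ < η) → M.det ≠ 0 := by
  have h1 : Continuous (fun M : Matrix (Fin r) (Fin r) ℂ => M.det) :=
    Continuous.matrix_det continuous_id
  have h2 : ∀ᶠ M in 𝓝 (1 : Matrix (Fin r) (Fin r) ℂ), M.det ≠ 0 :=
    h1.continuousAt.eventually_ne (by simp)
  have h3 : ∀ᶠ M in 𝓝 ((fun k l => (1 : Matrix (Fin r) (Fin r) ℂ) k l) : Fin r → Fin r → ℂ),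
      Matrix.det (Matrix.of M) ≠ 0 := h2
  obtain ⟨η, hη, h4⟩ := Metric.eventually_nhds_iff.mp h3
  refine ⟨η, hη, fun M hM => h4 (y := fun k l => M k l) ?_⟩
  rw [dist_pi_lt_iff hη]
  intro k
  rw [dist_pi_lt_iff hη]
  intro l
  rw [dist_eq_norm]
  exact hM k l

omit [IsManifold 𝓘(ℂ, Fin n → ℂ) ω S] in
theorem exists_unit (H : CovData n δ U c ℓ q lab sec ρ)
    (hdec : ∀ (w₀ : W) (ε : ℝ), 0 < ε → ∃ β : W → ℂ, QHolo n q β ∧ ‖β w₀ - 1‖ ≤ ε ∧
      (∀ w, q w = q w₀ → w ≠ w₀ → ‖β w‖ ≤ ε * Real.exp (-(2 * ρ w))) ∧ Decays q ρ β) (x : S) :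
    ∃ β : W → ℂ, QHolo n q β ∧ Decays q ρ β ∧ ∀ i, x ∈ U i → (AM δ sec β i x).det ≠ 0 := by
  obtain ⟨i₀, hi₀⟩ := H.cov x
  obtain ⟨N, hN, C, hC⟩ := H.rho i₀ x hi₀
  have hxN : x ∈ N := mem_of_mem_nhds hN
  obtain ⟨η, hη, hM⟩ := exists_eta r
  set K : ℝ := ∑' a, Real.exp (-ℓ a) with hK
  have hK0 : 0 ≤ K := tsum_nonneg fun a => (Real.exp_pos _).le
  set T : ℝ := 1 + Real.exp (2 * C) * K with hT
  have hT0 : 0 < T := by positivity
  set ε : ℝ := η / (2 * T) with hε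
  have hε0 : 0 < ε := by positivity
  obtain ⟨β, hβ, hβ1, hβ2, hβ3⟩ := hdec (sec i₀ x 1) ε hε0
  refine ⟨β, hβ, hβ3, ?_⟩
  have hdet : (AM δ sec β i₀ x).det ≠ 0 := by
    refine hM _ fun k l => ?_
    classical
    set g : G → ℂ := fun a => if a = 1 then (1 : Matrix (Fin r) (Fin r) ℂ) k l else 0 with hg
    have hg1 : ∑' a, g a = (1 : Matrix (Fin r) (Fin r) ℂ) k l := tsum_ite_eq 1 _
    have hgs : Summable g := (hasSum_ite_eq 1 _).summable
    have hfs := H.summable_AM hβ3 hi₀ k l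
    have hsub : AM δ sec β i₀ x k l - (1 : Matrix (Fin r) (Fin r) ℂ) k l =
        ∑' a, (β (sec i₀ x a) * δ a⁻¹ k l - g a) := by
      rw [Summable.tsum_sub hfs hgs, hg1]
      rfl
    set h : G → ℝ := fun a => (if a = 1 then (1 : ℝ) else 0) + Real.exp (2 * C) * Real.exp (-ℓ a)
      with hh
    have hhs : Summable h :=
      (hasSum_ite_eq 1 _).summable.add (H.summable.mul_left _)
    have hht : ∑' a, h a = T := by
      rw [hh, Summable.tsum_add (hasSum_ite_eq 1 _).summable (H.summable.mul_left _), tsum_ite_eq,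
        tsum_mul_left]
    have hb : ∀ a, ‖β (sec i₀ x a) * δ a⁻¹ k l - g a‖ ≤ ε * h a := by
      intro a
      by_cases ha : a = 1
      · subst ha
        simp only [hg, hh, if_true, inv_one, map_one]
        have h1 : β (sec i₀ x 1) * (1 : Matrix (Fin r) (Fin r) ℂ) k l -
            (1 : Matrix (Fin r) (Fin r) ℂ) k l =
            (β (sec i₀ x 1) - 1) * (1 : Matrix (Fin r) (Fin r) ℂ) k l := by ring
        rw [h1, norm_mul]
        have h2 : ‖(1 : Matrix (Fin r) (Fin r) ℂ) k l‖ ≤ 1 := by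
          by_cases hkl : k = l
          · subst hkl; simp
          · rw [Matrix.one_apply_ne hkl]; simp
        have h3 : 0 < Real.exp (2 * C) * Real.exp (-ℓ 1) := by positivity
        calc ‖β (sec i₀ x 1) - 1‖ * ‖(1 : Matrix (Fin r) (Fin r) ℂ) k l‖ ≤ ε * 1 :=
              mul_le_mul hβ1 h2 (norm_nonneg _) hε0.le
          _ ≤ ε * (1 + Real.exp (2 * C) * Real.exp (-ℓ 1)) := by
              apply mul_le_mul_of_nonneg_left _ hε0.le
              linarith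
      · simp only [hg, hh, if_neg ha, sub_zero, zero_add]
        have hqa : q (sec i₀ x a) = x := H.q_sec i₀ x hi₀ a
        have hq1 : q (sec i₀ x 1) = x := H.q_sec i₀ x hi₀ 1
        have hne : sec i₀ x a ≠ sec i₀ x 1 := by
          intro h
          have := congrArg (lab i₀) h
          rw [H.lab_sec i₀ x hi₀, H.lab_sec i₀ x hi₀] at this
          exact ha this
        have h1 := hβ2 (sec i₀ x a) (by rw [hqa, hq1]) hne
        have h2 := hC (sec i₀ x a) (by rw [hqa]; exact hxN)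
        rw [H.lab_sec i₀ x hi₀] at h2
        rw [norm_mul]
        calc ‖β (sec i₀ x a)‖ * ‖δ a⁻¹ k l‖
            ≤ (ε * Real.exp (-(2 * ρ (sec i₀ x a)))) * Real.exp (ℓ a) :=
              mul_le_mul h1 (H.bound a k l) (norm_nonneg _) (by positivity)
          _ = ε * Real.exp (-(2 * ρ (sec i₀ x a)) + ℓ a) := by
              rw [mul_assoc, ← Real.exp_add]
          _ ≤ ε * Real.exp (2 * C + -ℓ a) := by
              refine mul_le_mul_of_nonneg_left (Real.exp_le_exp.mpr ?_) hε0.le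
              have := (abs_le.mp h2).1
              linarith
          _ = ε * (Real.exp (2 * C) * Real.exp (-ℓ a)) := by
              rw [Real.exp_add]
    rw [hsub]
    calc ‖∑' a, (β (sec i₀ x a) * δ a⁻¹ k l - g a)‖ ≤ ∑' a, ε * h a :=
          tsum_of_norm_bounded (hhs.mul_left ε).hasSum hb
      _ = ε * T := by rw [tsum_mul_left, hht]
      _ = η / 2 := by
          rw [hε]
          field_simp
      _ < η := by linarith
  intro i hi
  have h1 := H.AM_trans hβ3 hi₀ hi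
  intro h2
  rw [h1, Matrix.det_mul, h2, zero_mul] at hdet
  exact hdet rfl

theorem exists_Q (H : CovData n δ U c ℓ q lab sec ρ) {D : Set S} (hDo : IsOpen D)
    (hext : ∀ g : S → ℂ, MDifferentiableOn 𝓘(ℂ, Fin n → ℂ) 𝓘(ℂ, ℂ) g D →
      ∃ G : S → ℂ, MDifferentiable 𝓘(ℂ, Fin n → ℂ) 𝓘(ℂ, ℂ) G ∧ EqOn G g D)
    {v : ι → S → (Fin r → ℂ)} (hv : ∀ i, ∀ x ∈ U i ∩ D, ∀ k, HolAt n (fun y => v i y k) x)
    (hvc : ∀ i j, ∀ x ∈ U i ∩ U j ∩ D, v j x = δ (c i j x) *ᵥ v i x)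
    {β : W → ℂ} (hβ : QHolo n q β) (hβ' : Decays q ρ β) :
    ∃ Q : S → (Fin r → ℂ), (∀ x k, HolAt n (fun y => Q y k) x) ∧
      ∀ i, ∀ x ∈ U i ∩ D, Q x = AM δ sec β i x *ᵥ v i x := by
  choose idx hidx using H.cov
  set Q0 : S → (Fin r → ℂ) := fun x => AM δ sec β (idx x) x *ᵥ v (idx x) x with hQ0
  have key : ∀ i, ∀ x ∈ U i ∩ D, Q0 x = AM δ sec β i x *ᵥ v i x := by
    rintro i x ⟨hi, hD⟩
    show AM δ sec β (idx x) x *ᵥ v (idx x) x = AM δ sec β i x *ᵥ v i x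
    rw [H.AM_trans hβ' (hidx x) hi, hvc (idx x) i x ⟨⟨hidx x, hi⟩, hD⟩, Matrix.mulVec_mulVec]
  have hQh : ∀ k, MDifferentiableOn 𝓘(ℂ, Fin n → ℂ) 𝓘(ℂ, ℂ) (fun x => Q0 x k) D := by
    intro k x hx
    apply MDifferentiableAt.mdifferentiableWithinAt
    have h1 : HolAt n (fun y => (AM δ sec β (idx x) y *ᵥ v (idx x) y) k) x :=
      HolAt.mulVec (fun k l => H.holAt_AM hβ hβ' (hidx x) k l)
        (fun k => hv (idx x) x ⟨hidx x, hx⟩ k) k
    refine h1.congr_of_eventuallyEq ?_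
    filter_upwards [(H.isOpen (idx x)).mem_nhds (hidx x), hDo.mem_nhds hx] with y hy hy'
    rw [key (idx x) y ⟨hy, hy'⟩]
  choose Q hQ1 hQ2 using fun k => hext _ (hQh k)
  refine ⟨fun x k => Q k x, fun x k => hQ1 k x, fun i x hx => ?_⟩
  rw [← key i x hx]
  ext k
  exact hQ2 k hx.2

theorem consistent [PreconnectedSpace S] (H : CovData n δ U c ℓ q lab sec ρ) {D : Set S}
    (hDo : IsOpen D) (hne : D.Nonempty) {v : ι → S → (Fin r → ℂ)}
    {β₁ β₂ : W → ℂ} (h₁ : QHolo n q β₁) (h₁' : Decays q ρ β₁) (h₂ : QHolo n q β₂)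
    (h₂' : Decays q ρ β₂) {Q₁ Q₂ : S → (Fin r → ℂ)} (hQ₁ : ∀ x k, HolAt n (fun y => Q₁ y k) x)
    (hQ₁' : ∀ i, ∀ x ∈ U i ∩ D, Q₁ x = AM δ sec β₁ i x *ᵥ v i x)
    (hQ₂ : ∀ x k, HolAt n (fun y => Q₂ y k) x)
    (hQ₂' : ∀ i, ∀ x ∈ U i ∩ D, Q₂ x = AM δ sec β₂ i x *ᵥ v i x) :
    ∀ i, ∀ x ∈ U i, AM δ sec β₂ i x *ᵥ ((AM δ sec β₁ i x).adjugate *ᵥ Q₁ x) =
      (AM δ sec β₁ i x).det • Q₂ x := by
  intro i x hx
  ext k
  rw [← sub_eq_zero]
  refine identity_cover (n := n) U H.isOpen H.cov hDo hne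
    (fun i x => (AM δ sec β₂ i x *ᵥ ((AM δ sec β₁ i x).adjugate *ᵥ Q₁ x)) k -
      ((AM δ sec β₁ i x).det • Q₂ x) k) ?_ ?_ ?_ i x hx
  · intro i x hx
    refine HolAt.fun_sub ?_ ?_
    · refine HolAt.mulVec (fun k l => H.holAt_AM h₂ h₂' hx k l) (fun k => ?_) k
      exact HolAt.mulVec (fun k l => HolAt.adjugate (fun k l => H.holAt_AM h₁ h₁' hx k l) k l)
        (fun k => hQ₁ x k) k
    · simp only [Pi.smul_apply, smul_eq_mul]
      exact HolAt.fun_mul (HolAt.det fun k l => H.holAt_AM h₁ h₁' hx k l) (hQ₂ x k)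
  · rintro i j x ⟨hi, hj⟩ h
    filter_upwards [h, (H.isOpen i).mem_nhds hi, (H.isOpen j).mem_nhds hj] with y hy hyi hyj
    have e1 := H.AM_trans h₁' hyj hyi
    have e2 := H.AM_trans h₂' hyj hyi
    have e3 : AM δ sec β₂ j y *ᵥ ((AM δ sec β₁ j y).adjugate *ᵥ Q₁ y) =
        (δ (c j i y)).det • (AM δ sec β₂ i y *ᵥ ((AM δ sec β₁ i y).adjugate *ᵥ Q₁ y)) := by
      rw [e1, e2, Matrix.adjugate_mul_distrib, Matrix.mulVec_mulVec, Matrix.mulVec_mulVec,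
        ← Matrix.smul_mulVec]
      congr 1
      rw [Matrix.mul_assoc, ← Matrix.mul_assoc (δ (c j i y)), Matrix.mul_adjugate,
        Matrix.smul_mul, Matrix.one_mul, Matrix.mul_smul]
    have e4 : (AM δ sec β₁ j y).det • Q₂ y =
        (δ (c j i y)).det • ((AM δ sec β₁ i y).det • Q₂ y) := by
      rw [e1, Matrix.det_mul, smul_smul, mul_comm]
    show (AM δ sec β₂ j y *ᵥ ((AM δ sec β₁ j y).adjugate *ᵥ Q₁ y)) k -
      ((AM δ sec β₁ j y).det • Q₂ y) k = 0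
    rw [e3, e4, Pi.smul_apply, Pi.smul_apply, ← smul_sub]
    have hy' : (AM δ sec β₂ i y *ᵥ ((AM δ sec β₁ i y).adjugate *ᵥ Q₁ y)) k -
      ((AM δ sec β₁ i y).det • Q₂ y) k = 0 := hy
    rw [hy', smul_zero]
  · rintro i x hx
    show (AM δ sec β₂ i x *ᵥ ((AM δ sec β₁ i x).adjugate *ᵥ Q₁ x)) k -
      ((AM δ sec β₁ i x).det • Q₂ x) k = 0
    rw [hQ₁' i x hx, hQ₂' i x hx, sub_eq_zero]
    rw [Matrix.mulVec_mulVec (v i x) (AM δ sec β₁ i x).adjugate, Matrix.adjugate_mul,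
      Matrix.smul_mulVec, Matrix.one_mulVec, Matrix.mulVec_smul]

theorem section_ext [PreconnectedSpace S] (H : CovData n δ U c ℓ q lab sec ρ)
    {D : Set S} (hDo : IsOpen D) (hne : D.Nonempty)
    (hext : ∀ g : S → ℂ, MDifferentiableOn 𝓘(ℂ, Fin n → ℂ) 𝓘(ℂ, ℂ) g D →
      ∃ G : S → ℂ, MDifferentiable 𝓘(ℂ, Fin n → ℂ) 𝓘(ℂ, ℂ) G ∧ EqOn G g D)
    {v : ι → S → (Fin r → ℂ)} (hv : ∀ i, ∀ x ∈ U i ∩ D, ∀ k, HolAt n (fun y => v i y k) x)
    (hvc : ∀ i j, ∀ x ∈ U i ∩ U j ∩ D, v j x = δ (c i j x) *ᵥ v i x)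
    (hdec : ∀ (w₀ : W) (ε : ℝ), 0 < ε → ∃ β : W → ℂ, QHolo n q β ∧ ‖β w₀ - 1‖ ≤ ε ∧
      (∀ w, q w = q w₀ → w ≠ w₀ → ‖β w‖ ≤ ε * Real.exp (-(2 * ρ w))) ∧ Decays q ρ β) :
    ∃ v' : ι → S → (Fin r → ℂ),
      (∀ i, ∀ x ∈ U i, ∀ k, HolAt n (fun y => v' i y k) x) ∧
      (∀ i j, ∀ x ∈ U i ∩ U j, v' j x = δ (c i j x) *ᵥ v' i x) ∧
      ∀ i, ∀ x ∈ U i ∩ D, v' i x = v i x := by
  choose β hβ hβ' hdet using H.exists_unit hdec
  choose Q hQ hQ' using fun x => H.exists_Q hDo hext hv hvc (hβ x) (hβ' x)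
  have hinv : ∀ i x, x ∈ U i → ∀ z, AM δ sec (β z) i x *ᵥ ((AM δ sec (β x) i x)⁻¹ *ᵥ Q x x) =
      Q z x := by
    intro i x hx z
    have h1 := H.consistent hDo hne (hβ x) (hβ' x) (hβ z) (hβ' z) (hQ x) (hQ' x) (hQ z) (hQ' z)
      i x hx
    rw [Matrix.inv_def, Matrix.smul_mulVec, Matrix.mulVec_smul, h1, smul_smul,
      Ring.inverse_mul_cancel _ (isUnit_iff_ne_zero.mpr (hdet x i hx)), one_smul]
  refine ⟨fun i x => (AM δ sec (β x) i x)⁻¹ *ᵥ Q x x, ?_, ?_, ?_⟩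
  · intro i x hx k
    have hcont : HolAt n (fun y => (AM δ sec (β x) i y).det) x :=
      HolAt.det fun k l => H.holAt_AM (hβ x) (hβ' x) hx k l
    have h1 : HolAt n (fun y => ((AM δ sec (β x) i y).det)⁻¹ *
        ((AM δ sec (β x) i y).adjugate *ᵥ Q x y) k) x := by
      refine HolAt.fun_mul (hcont.fun_inv (hdet x i hx)) ?_
      exact HolAt.mulVec (fun k l => HolAt.adjugate
        (fun k l => H.holAt_AM (hβ x) (hβ' x) hx k l) k l) (fun k => hQ x x k) k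
    refine h1.congr_of_eventuallyEq ?_
    have h2 : ∀ᶠ y in 𝓝 x, (AM δ sec (β x) i y).det ≠ 0 :=
      hcont.continuousAt.eventually_ne (hdet x i hx)
    filter_upwards [h2, (H.isOpen i).mem_nhds hx] with y hy hyi
    have h3 := hinv i y hyi x
    have h4 : (AM δ sec (β y) i y)⁻¹ *ᵥ Q y y =
        ((AM δ sec (β x) i y).det)⁻¹ • ((AM δ sec (β x) i y).adjugate *ᵥ Q x y) := by
      rw [← h3, Matrix.mulVec_mulVec _ (AM δ sec (β x) i y).adjugate, Matrix.adjugate_mul,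
        Matrix.smul_mulVec, Matrix.one_mulVec, smul_smul, inv_mul_cancel₀ hy, one_smul]
    rw [h4]
    rfl
  · rintro i j x ⟨hi, hj⟩
    show (AM δ sec (β x) j x)⁻¹ *ᵥ Q x x = δ (c i j x) *ᵥ ((AM δ sec (β x) i x)⁻¹ *ᵥ Q x x)
    have hu : IsUnit (AM δ sec (β x) j x).det := isUnit_iff_ne_zero.mpr (hdet x j hj)
    have h1 : Q x x = AM δ sec (β x) j x *ᵥ (δ (c i j x) *ᵥ
        ((AM δ sec (β x) i x)⁻¹ *ᵥ Q x x)) := by
      rw [Matrix.mulVec_mulVec _ (AM δ sec (β x) j x), ← H.AM_trans (hβ' x) hi hj]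
      exact (hinv i x hi x).symm
    conv_lhs => rw [h1]
    rw [Matrix.mulVec_mulVec _ (AM δ sec (β x) j x)⁻¹, Matrix.nonsing_inv_mul _ hu,
      Matrix.one_mulVec]
  · rintro i x ⟨hi, hD⟩
    show (AM δ sec (β x) i x)⁻¹ *ᵥ Q x x = v i x
    have hu : IsUnit (AM δ sec (β x) i x).det := isUnit_iff_ne_zero.mpr (hdet x i hi)
    rw [hQ' x i x ⟨hi, hD⟩, Matrix.mulVec_mulVec, Matrix.nonsing_inv_mul _ hu, Matrix.one_mulVec]

end CovData

section Main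

variable {n : ℕ} {S : Type} [TopologicalSpace S] [ConnectedSpace S]
  [ChartedSpace (Fin n → ℂ) S] [IsManifold 𝓘(ℂ, Fin n → ℂ) ω S]

/-- (P11), with the outputs of P8 (`exists_covering`) and K0' (`exists_decaying'`) as
hypotheses -/
theorem flat_section_core {D : Set S} (hS : IsEnvelopeOfHolomorphy n D) {G : Type} [Group G]
    [Countable G] {r : ℕ} (δ : G →* Matrix (Fin r) (Fin r) ℂ)
    {ι : Type} (U : ι → Set S) (hU : ∀ i, IsOpen (U i)) (hcov : ∀ x, ∃ i, x ∈ U i)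
    (c : ι → ι → S → G)
    (v : ι → S → (Fin r → ℂ))
    (hv : ∀ i, MDifferentiableOn 𝓘(ℂ, Fin n → ℂ) 𝓘(ℂ, Fin r → ℂ) (v i) (U i ∩ D))
    (hvc : ∀ i j, ∀ x ∈ U i ∩ U j ∩ D, v j x = (δ (c i j x)).mulVec (v i x))
    (hcovering : ∀ (ℓ : G → ℝ), (∀ r : ℝ, {a | ℓ a ≤ r}.Finite) →
      (∀ c : G, ∃ C : ℝ, ∀ a, |ℓ (c • a) - ℓ a| ≤ C) →
      ∃ (W : Type) (_ : TopologicalSpace W) (q : W → S) (lab : ι → W → G) (ρ : W → ℝ),
      T2Space W ∧ SecondCountableTopology W ∧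
      (∀ i, ∀ x ∈ U i, ∀ a : G, ∃ w, q w = x ∧ lab i w = a) ∧
      (∀ i w w', q w = q w' → q w ∈ U i → lab i w = lab i w' → w = w') ∧
      (∀ i j w, q w ∈ U i → q w ∈ U j → lab j w = c i j (q w) • lab i w) ∧
      (∀ i w, q w ∈ U i → ∀ᶠ w' in 𝓝 w, lab i w' = lab i w) ∧
      IsTame n q ρ ∧
      ∀ i, ∀ p ∈ U i, ∃ N ∈ 𝓝 p, ∃ C : ℝ, ∀ w, q w ∈ N → |ρ w - ℓ (lab i w)| ≤ C)
    (hdecay : ∀ {W : Type} [TopologicalSpace W] [T2Space W] [SecondCountableTopology W]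
      {q : W → S} {ρ : W → ℝ} (_ : IsTame n q ρ) (w₀ : W) (C' : ℝ) {ε : ℝ} (_ : 0 < ε),
      ∃ β : W → ℂ, QHolo n q β ∧ ‖β w₀ - 1‖ ≤ ε ∧
      (∀ w, q w = q w₀ → w ≠ w₀ → ‖β w‖ ≤ ε * Real.exp (-(C' * ρ w))) ∧
      ∀ p : S, ∃ N ∈ 𝓝 p, ∃ C : ℝ, ∀ w, q w ∈ N → ‖β w‖ ≤ C * Real.exp (-(C' * ρ w))) :
    ∃ v' : ι → S → (Fin r → ℂ),
      (∀ i, MDifferentiableOn 𝓘(ℂ, Fin n → ℂ) 𝓘(ℂ, Fin r → ℂ) (v' i) (U i)) ∧
      (∀ i j, ∀ x ∈ U i ∩ U j, v' j x = (δ (c i j x)).mulVec (v' i x)) ∧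
      ∀ i, ∀ x ∈ U i ∩ D, v' i x = v i x := by
  obtain ⟨_, hDo, hDc, hext⟩ := hS
  obtain ⟨N, hN1, hN2, hN3, hN4⟩ := exists_norm_rep δ
  obtain ⟨ℓ, hℓ0, hℓ1, hℓ2, hℓ3, hℓ4⟩ := exists_length G N hN1 hN2 hN3
  have hfin : ∀ r : ℝ, {a | ℓ a ≤ r}.Finite := by
    intro r
    have h1 := hℓ3.tendsto_cofinite_zero
    have h2 : ∀ᶠ g in cofinite, Real.exp (-ℓ g) < Real.exp (-r) :=
      h1.eventually (gt_mem_nhds (Real.exp_pos _))
    refine (Filter.eventually_cofinite.1 h2).subset ?_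
    intro a ha
    have ha' : ℓ a ≤ r := ha
    show ¬ (Real.exp (-ℓ a) < Real.exp (-r))
    rw [Real.exp_lt_exp]
    linarith
  have hℓc : ∀ c : G, ∃ C : ℝ, ∀ a, |ℓ (c • a) - ℓ a| ≤ C := by
    intro c
    refine ⟨ℓ c, fun a => ?_⟩
    rw [smul_eq_mul, abs_le]
    have h1 := hℓ1 c a
    have h2 := hℓ1 c⁻¹ (c * a)
    rw [inv_mul_cancel_left, hℓ2] at h2
    constructor <;> linarith
  obtain ⟨W, _, q, lab, ρ, _, _, h1, h2, h3, h4, h5, h6⟩ := hcovering ℓ hfin hℓc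
  have hDne : D.Nonempty := hDc.nonempty
  obtain ⟨x0, hx0⟩ := hDne
  obtain ⟨i0, hi0⟩ := hcov x0
  obtain ⟨w0, -⟩ := h1 i0 x0 hi0 1
  have : Nonempty W := ⟨w0⟩
  choose! sec hsec1 hsec2 using h1
  have H : CovData n δ U c ℓ q lab sec ρ :=
    { isOpen := hU
      cov := hcov
      q_sec := hsec1
      lab_sec := hsec2
      lab_inj := h2
      lab_trans := h3
      lab_loc := h4
      localHomeo := h5.localHomeo
      rho := h6
      summable := hℓ3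
      bound := fun a k l => by
        have := (hN4 a⁻¹ k l).trans (hℓ4 a⁻¹)
        rwa [hℓ2] at this }
  obtain ⟨v', hv1, hv2, hv3⟩ := H.section_ext hDo ⟨x0, hx0⟩ hext (v := v) (fun i x hx k =>
    (holAt_pi_iff.mp ((hv i x hx).mdifferentiableAt (((hU i).inter hDo).mem_nhds hx))) k) hvc
    (fun w₀ ε hε => hdecay h5 w₀ 2 hε)
  exact ⟨v', fun i x hx => (holAt_pi_iff.mpr (hv1 i x hx)).mdifferentiableWithinAt, hv2, hv3⟩

variable [T2Space S] [SecondCountableTopology S]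

/-- (P11) `flat_section_extends`, with `exists_decaying'` (K0') as hypothesis `hdecay` -/
theorem flat_section_extends_of_decaying {D : Set S} (hS : IsEnvelopeOfHolomorphy n D) {G : Type}
    [Group G] [Countable G] {r : ℕ} (δ : G →* Matrix (Fin r) (Fin r) ℂ)
    {ι : Type} (U : ι → Set S) (hU : ∀ i, IsOpen (U i)) (hcov : ∀ x, ∃ i, x ∈ U i)
    (c : ι → ι → S → G)
    (hc : ∀ i j, ∀ x ∈ U i ∩ U j, ∀ᶠ y in 𝓝 x, c i j y = c i j x)
    (hcoc : ∀ i j k, ∀ x ∈ U i ∩ U j ∩ U k, c j k x * c i j x = c i k x)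
    (v : ι → S → (Fin r → ℂ))
    (hv : ∀ i, MDifferentiableOn 𝓘(ℂ, Fin n → ℂ) 𝓘(ℂ, Fin r → ℂ) (v i) (U i ∩ D))
    (hvc : ∀ i j, ∀ x ∈ U i ∩ U j ∩ D, v j x = (δ (c i j x)).mulVec (v i x))
    (hdecay : ∀ {W : Type} [TopologicalSpace W] [T2Space W] [SecondCountableTopology W]
      {q : W → S} {ρ : W → ℝ} (_ : IsTame n q ρ) (w₀ : W) (C' : ℝ) {ε : ℝ} (_ : 0 < ε),
      ∃ β : W → ℂ, QHolo n q β ∧ ‖β w₀ - 1‖ ≤ ε ∧
      (∀ w, q w = q w₀ → w ≠ w₀ → ‖β w‖ ≤ ε * Real.exp (-(C' * ρ w))) ∧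
      ∀ p : S, ∃ N ∈ 𝓝 p, ∃ C : ℝ, ∀ w, q w ∈ N → ‖β w‖ ≤ C * Real.exp (-(C' * ρ w))) :
    ∃ v' : ι → S → (Fin r → ℂ),
      (∀ i, MDifferentiableOn 𝓘(ℂ, Fin n → ℂ) 𝓘(ℂ, Fin r → ℂ) (v' i) (U i)) ∧
      (∀ i j, ∀ x ∈ U i ∩ U j, v' j x = (δ (c i j x)).mulVec (v' i x)) ∧
      ∀ i, ∀ x ∈ U i ∩ D, v' i x = v i x :=
  flat_section_core hS δ U hU hcov c v hv hvc
    (fun ℓ hfin hℓ => exists_covering (n := n) ℓ hfin hℓ U hU hcov c hc hcoc) hdecay

end Main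

end Pool.Agent.Levi
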