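import Pool.Agent.Levi.GMat

/-!
# Flat frames extend to the envelope: the proof, with the two inputs as hypotheses

Part of package P9 (MP_bf64af_an), helper60.
-/

set_option autoImplicit false
set_option linter.unusedSectionVars false

open Set Filter Topology Metric
open scoped ContDiff Manifold

namespace Pool.Agent.Levi

open Pool.Agent.MEP

section

variable {n : ℕ} {S : Type} [TopologicalSpace S] [ChartedSpace (Fin n → ℂ) S]
  [IsManifold 𝓘(ℂ, Fin n → ℂ) ω S] {d : ℕ}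

/-- identity theorem for matrices -/
theorem matrix_eq_of_eqOn [ConnectedSpace S] {D : Set S} (hD : IsOpen D) (hne : D.Nonempty)
    {M N : S → Matrix (Fin d) (Fin d) ℂ} (hM : ∀ x, MatAt n M x) (hN : ∀ x, MatAt n N x)
    (h : ∀ x ∈ D, M x = N x) (x : S) : M x = N x := by
  obtain ⟨x₀, hx₀⟩ := hne
  ext a b
  have h1 := eq_zero_of_connected (n := n) (h := fun y => (M y - N y) a b) (x0 := x₀)
    (fun y => ((hM y).sub (hN y)) a b) (by
      filter_upwards [hD.mem_nhds hx₀] with y hy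
      rw [h y hy, sub_self]
      rfl) x
  simpa [sub_eq_zero] using h1

section data

variable {D : Set S} {κ : Type} {N : κ → Set S} (hN : ∀ j, IsOpen (N j)) (hND : ⋃ j, N j = D)
    {Y : κ → S → Matrix (Fin d) (Fin d) ℂ}
    (hY : ∀ j, ∀ x ∈ N j, MatAt n (Y j) x)
    (hYu : ∀ j, ∀ x ∈ N j, IsUnit (Y j x))
    (hYc : ∀ j k, ∀ x ∈ N j ∩ N k, ∀ᶠ y in 𝓝 x, (Y j y)⁻¹ * Y k y = (Y j x)⁻¹ * Y k x)

include hN hY hYu hYc

theorem VM_Y_indep {G : S → (Fin n → ℂ)} {P : S → ℂ} (k : Fin n) {j j' : κ} {x : S}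
    (hx : x ∈ N j) (hx' : x ∈ N j') :
    VM G P k (Y j) x * (Y j x)⁻¹ = VM G P k (Y j') x * (Y j' x)⁻¹ := by
  set C := (Y j x)⁻¹ * Y j' x with hC
  have h1 : ∀ i, ∀ y ∈ N i, Y i y * (Y i y)⁻¹ = 1 := fun i y hy =>
    Matrix.mul_nonsing_inv _ ((Matrix.isUnit_iff_isUnit_det _).1 (hYu i y hy))
  have h2 : Y j' =ᶠ[𝓝 x] fun y => Y j y * C := by
    filter_upwards [hYc j j' x ⟨hx, hx'⟩, (hN j).mem_nhds hx] with y hy hyj
    rw [hC, ← hy, ← mul_assoc, h1 j y hyj, one_mul]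
  have hconst : MatAt n (fun _ : S => C) x := fun a b => mdifferentiableAt_const
  have h3 : VM G P k (Y j') x = VM G P k (Y j) x * C := by
    rw [VM_congr h2, VM_mul (hY j x hx) hconst, VM_const, mul_zero, add_zero]
  rw [h3, hC, mul_assoc, mul_assoc, h1 j' x hx', mul_one]

include hND

/-- the connection matrices extend -/
theorem exists_connection [ConnectedSpace S] (hS : IsEnvelopeOfHolomorphy n D)
    {G : S → (Fin n → ℂ)} {P : S → ℂ}
    (hG : MDifferentiable 𝓘(ℂ, Fin n → ℂ) 𝓘(ℂ, Fin n → ℂ) G)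
    (hP : MDifferentiable 𝓘(ℂ, Fin n → ℂ) 𝓘(ℂ, ℂ) P) (hM : Mult G P) :
    ∃ B : Fin n → S → Matrix (Fin d) (Fin d) ℂ, (∀ k x, MatAt n (B k) x) ∧
      ∀ k j, ∀ x ∈ N j, VM G P k (Y j) x = B k x * Y j x := by
  classical
  have hex : ∀ x ∈ D, ∃ j, x ∈ N j := by
    intro x hx
    rw [← hND] at hx
    exact mem_iUnion.1 hx
  obtain ⟨x1, hx1⟩ := hS.2.2.1.nonempty
  obtain ⟨j1, -⟩ := hex x1 hx1
  have : Nonempty κ := ⟨j1⟩
  choose! J hJ using hex
  have hND' : ∀ j, ∀ x ∈ N j, x ∈ D := fun j x hx => by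
    rw [← hND]; exact mem_iUnion.2 ⟨j, hx⟩
  set b : Fin n → S → Matrix (Fin d) (Fin d) ℂ :=
    fun k x => VM G P k (Y (J x)) x * (Y (J x) x)⁻¹ with hb
  have hbj : ∀ k j, ∀ x ∈ N j, b k x = VM G P k (Y j) x * (Y j x)⁻¹ := fun k j x hx =>
    VM_Y_indep hN hY hYu hYc k (hJ x (hND' j x hx)) hx
  have hbD : ∀ k, ∀ x ∈ D, MatAt n (b k) x := by
    intro k x hx
    have hxj := hJ x hx
    have h1 : MatAt n (fun y => VM G P k (Y (J x)) y * (Y (J x) y)⁻¹) x :=
      (VM_matAt hG hP hM (hN _) (hY (J x)) k x hxj).mul ((hY _ x hxj).inv (hYu _ x hxj))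
    refine h1.congr ?_
    filter_upwards [(hN _).mem_nhds hxj] with y hy
    exact hbj k (J x) y hy
  choose B hB hBD using fun (k : Fin n) (a c : Fin d) =>
    hS.2.2.2 (fun x => b k x a c) (fun x hx => (hbD k x hx a c).mdifferentiableWithinAt)
  refine ⟨fun k x => Matrix.of fun a c => B k a c x, fun k x a c => hB k a c x, ?_⟩
  intro k j x hx
  have h1 : (Matrix.of fun a c => B k a c x) = b k x := by
    ext a c
    exact hBD k a c (hND' j x hx)
  show VM G P k (Y j) x = (Matrix.of fun a c => B k a c x) * Y j x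
  rw [h1, hbj k j x hx, mul_assoc, Matrix.nonsing_inv_mul _
    ((Matrix.isUnit_iff_isUnit_det _).1 (hYu j x hx)), mul_one]

/-- the extended connection is flat -/
theorem connection_flat [ConnectedSpace S] (hDo : IsOpen D) (hDne : D.Nonempty)
    {G : S → (Fin n → ℂ)} {P : S → ℂ}
    (hG : MDifferentiable 𝓘(ℂ, Fin n → ℂ) 𝓘(ℂ, Fin n → ℂ) G)
    (hP : MDifferentiable 𝓘(ℂ, Fin n → ℂ) 𝓘(ℂ, ℂ) P) (hM : Mult G P)
    {B : Fin n → S → Matrix (Fin d) (Fin d) ℂ} (hB : ∀ k x, MatAt n (B k) x)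
    (hBY : ∀ k j, ∀ x ∈ N j, VM G P k (Y j) x = B k x * Y j x) (j k : Fin n) (x : S) :
    P x • (VM G P j (B k) x - VM G P k (B j) x) =
      VV G P j P x • B k x - VV G P k P x • B j x + P x • (B j x * B k x - B k x * B j x) := by
  have hVP : ∀ i x, MDifferentiableAt 𝓘(ℂ, Fin n → ℂ) 𝓘(ℂ, ℂ) (VV G P i P) x := fun i x =>
    (mdifferentiableOn_VV hG hP hM isOpen_univ (hP.mdifferentiableOn (s := univ)) i x
      (mem_univ x)).mdifferentiableAt univ_mem
  have hVB : ∀ i l x, MatAt n (VM G P i (B l)) x := fun i l x =>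
    VM_matAt hG hP hM isOpen_univ (fun y _ => hB l y) i x (mem_univ x)
  refine matrix_eq_of_eqOn (n := n) hDo hDne
    (M := fun x => P x • (VM G P j (B k) x - VM G P k (B j) x))
    (N := fun x => VV G P j P x • B k x - VV G P k P x • B j x +
      P x • (B j x * B k x - B k x * B j x))
    (fun x => MatAt.smul (hP x) ((hVB j k x).sub (hVB k j x)))
    (fun x => ((MatAt.smul (hVP j x) (hB k x)).sub (MatAt.smul (hVP k x) (hB j x))).add
      (MatAt.smul (hP x) (((hB j x).mul (hB k x)).sub ((hB k x).mul (hB j x))))) ?_ x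
  intro x hx
  rw [← hND] at hx
  obtain ⟨i, hi⟩ := mem_iUnion.1 hx
  have hu := hYu i x hi
  have hinv : Y i x * (Y i x)⁻¹ = 1 :=
    Matrix.mul_nonsing_inv _ ((Matrix.isUnit_iff_isUnit_det _).1 hu)
  have h1 : ∀ l m : Fin n, VM G P l (VM G P m (Y i)) x =
      VM G P l (B m) x * Y i x + B m x * (B l x * Y i x) := by
    intro l m
    have h2 : VM G P m (Y i) =ᶠ[𝓝 x] fun y => B m y * Y i y := by
      filter_upwards [(hN i).mem_nhds hi] with y hy
      exact hBY m i y hy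
    rw [VM_congr h2, VM_mul (hB m x) (hY i x hi), hBY l i x hi]
  have h3 := VM_comm (G := G) hP (hN i) (hY i) hi j k
  rw [h1 j k, h1 k j, hBY k i x hi, hBY j i x hi] at h3
  have h4 : (P x • (VM G P j (B k) x - VM G P k (B j) x)) * Y i x =
      (VV G P j P x • B k x - VV G P k P x • B j x +
        P x • (B j x * B k x - B k x * B j x)) * Y i x := by
    have h5 : (VV G P j P x • B k x - VV G P k P x • B j x) * Y i x =
        VV G P j P x • (B k x * Y i x) - VV G P k P x • (B j x * Y i x) := by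
      rw [sub_mul, Matrix.smul_mul, Matrix.smul_mul]
    rw [add_mul, h5, ← h3]
    simp only [Matrix.smul_mul, sub_mul, ← mul_assoc]
    rw [← smul_add]
    congr 1
    abel
  have h6 := congrArg (fun A => A * (Y i x)⁻¹) h4
  simp only [mul_assoc, hinv, mul_one] at h6
  exact h6

/-- two extended connections are compatible -/
theorem connection_compat [ConnectedSpace S] (hDo : IsOpen D) (hDne : D.Nonempty)
    {G G' : S → (Fin n → ℂ)} {P P' : S → ℂ}
    (hG : MDifferentiable 𝓘(ℂ, Fin n → ℂ) 𝓘(ℂ, Fin n → ℂ) G)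
    (hP : MDifferentiable 𝓘(ℂ, Fin n → ℂ) 𝓘(ℂ, ℂ) P) (hM : Mult G P)
    (hG' : MDifferentiable 𝓘(ℂ, Fin n → ℂ) 𝓘(ℂ, Fin n → ℂ) G')
    (hP' : MDifferentiable 𝓘(ℂ, Fin n → ℂ) 𝓘(ℂ, ℂ) P') (hM' : Mult G' P')
    {B B' : Fin n → S → Matrix (Fin d) (Fin d) ℂ} (hB : ∀ k x, MatAt n (B k) x)
    (hB' : ∀ k x, MatAt n (B' k) x)
    (hBY : ∀ k j, ∀ x ∈ N j, VM G P k (Y j) x = B k x * Y j x)
    (hBY' : ∀ k j, ∀ x ∈ N j, VM G' P' k (Y j) x = B' k x * Y j x) (k : Fin n) (x : S) :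
    P' x • B k x = ∑ l, VV G P k (fun y => G' y l) x • B' l x := by
  have hG'l : ∀ l, MDifferentiable 𝓘(ℂ, Fin n → ℂ) 𝓘(ℂ, ℂ) (fun y => G' y l) := by
    intro l x
    have h2 : MDifferentiableAt 𝓘(ℂ, Fin n → ℂ) 𝓘(ℂ, ℂ) (fun w : Fin n → ℂ => w l) (G' x) :=
      (differentiableAt_apply l _).mdifferentiableAt
    exact MDifferentiableAt.comp (g := fun w : Fin n → ℂ => w l) x h2 (hG' x)
  have hVG : ∀ l x, MDifferentiableAt 𝓘(ℂ, Fin n → ℂ) 𝓘(ℂ, ℂ)
      (VV G P k (fun y => G' y l)) x := fun l x =>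
    (mdifferentiableOn_VV hG hP hM isOpen_univ ((hG'l l).mdifferentiableOn (s := univ)) k x
      (mem_univ x)).mdifferentiableAt univ_mem
  refine matrix_eq_of_eqOn (n := n) hDo hDne (M := fun x => P' x • B k x)
    (N := fun x => ∑ l, VV G P k (fun y => G' y l) x • B' l x)
    (fun x => MatAt.smul (hP' x) (hB k x))
    (fun x => MatAt.sum _ fun l _ => MatAt.smul (hVG l x) (hB' l x)) ?_ x
  intro x hx
  rw [← hND] at hx
  obtain ⟨i, hi⟩ := mem_iUnion.1 hx
  have hinv : Y i x * (Y i x)⁻¹ = 1 :=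
    Matrix.mul_nonsing_inv _ ((Matrix.isUnit_iff_isUnit_det _).1 (hYu i x hi))
  have h1 : P' x • VM G P k (Y i) x = ∑ l, VV G P k (fun y => G' y l) x • VM G' P' l (Y i) x := by
    ext a b
    simp only [Matrix.smul_apply, Matrix.sum_apply, smul_eq_mul, VM_apply]
    exact VV_chain hM' hG' (hY i x hi a b) k
  have h2 : (P' x • B k x) * Y i x = (∑ l, VV G P k (fun y => G' y l) x • B' l x) * Y i x := by
    rw [Matrix.smul_mul, ← hBY k i x hi, h1, Finset.sum_mul]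
    apply Finset.sum_congr rfl
    intro l _
    rw [Matrix.smul_mul, hBY' l i x hi]
  have h6 := congrArg (fun A => A * (Y i x)⁻¹) h2
  simp only [mul_assoc, hinv, mul_one] at h6
  exact h6

end data

/-- Local flat frames of the extended connection. -/
theorem exists_local_frame
    (frob : ∀ {p : Fin n → ℂ} {r : ℝ}, 0 < r →
      ∀ {A : Fin n → (Fin n → ℂ) → Matrix (Fin d) (Fin d) ℂ},
      (∀ k i j, DifferentiableOn ℂ (fun z => A k z i j) (Metric.ball p r)) →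
      (∀ z ∈ Metric.ball p r, ∀ j k, ∀ a b : Fin d,
        fderiv ℂ (fun z => A k z a b) z (Pi.single j 1) -
          fderiv ℂ (fun z => A j z a b) z (Pi.single k 1)
          = (A j z * A k z - A k z * A j z) a b) →
      ∃ g : (Fin n → ℂ) → Matrix (Fin d) (Fin d) ℂ, g p = 1 ∧
        (∀ i j, DifferentiableOn ℂ (fun z => g z i j) (Metric.ball p r)) ∧
        (∀ z ∈ Metric.ball p r, IsUnit (g z)) ∧
        ∀ z ∈ Metric.ball p r, ∀ k a b,
          fderiv ℂ (fun z => g z a b) z (Pi.single k 1) = (A k z * g z) a b)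
    {G : S → (Fin n → ℂ)} {P : S → ℂ}
    (hG : MDifferentiable 𝓘(ℂ, Fin n → ℂ) 𝓘(ℂ, Fin n → ℂ) G)
    (hP : MDifferentiable 𝓘(ℂ, Fin n → ℂ) 𝓘(ℂ, ℂ) P)
    {B : Fin n → S → Matrix (Fin d) (Fin d) ℂ} (hB : ∀ k x, MatAt n (B k) x)
    (hflat : ∀ j k x, P x • (VM G P j (B k) x - VM G P k (B j) x) =
      VV G P j P x • B k x - VV G P k P x • B j x + P x • (B j x * B k x - B k x * B j x))
    {p₀ : S} (hp₀ : HasG G p₀) (hPp₀ : P p₀ ≠ 0) :
    ∃ (U : Set S) (g : S → Matrix (Fin d) (Fin d) ℂ), IsOpen U ∧ p₀ ∈ U ∧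
      (∀ x ∈ U, HasG G x ∧ P x ≠ 0) ∧ (∀ x ∈ U, MatAt n g x) ∧ (∀ x ∈ U, IsUnit (g x)) ∧
      ∀ k, ∀ x ∈ U, VM G P k g x = B k x * g x := by
  obtain ⟨e, he, hpe⟩ := hp₀
  have hPc : Continuous P := hP.continuous
  have hO : IsOpen (e.target ∩ e.symm ⁻¹' {x | P x ≠ 0}) :=
    GChart.isOpen (isOpen_compl_singleton.preimage hPc)
  have hmem : G p₀ ∈ e.target ∩ e.symm ⁻¹' {x | P x ≠ 0} := ⟨he.mem_target hpe, by
    show P (e.symm (G p₀)) ≠ 0
    rw [he.symm_apply hpe]; exact hPp₀⟩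
  obtain ⟨r, hr, hball⟩ := Metric.isOpen_iff.1 hO _ hmem
  have hsrc : ∀ z ∈ ball (G p₀) r, e.symm z ∈ e.source := fun z hz => e.map_target (hball hz).1
  have hGs : ∀ z ∈ ball (G p₀) r, G (e.symm z) = z := by
    intro z hz
    rw [← he.eq _ (hsrc z hz)]
    exact e.right_inv (hball hz).1
  have hPz : ∀ z ∈ ball (G p₀) r, P (e.symm z) ≠ 0 := fun z hz => (hball hz).2
  have hdiff : ∀ (h : S → ℂ), (∀ x, MDifferentiableAt 𝓘(ℂ, Fin n → ℂ) 𝓘(ℂ, ℂ) h x) →
      ∀ z ∈ ball (G p₀) r, DifferentiableAt ℂ (fun z => h (e.symm z)) z := by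
    intro h hh z hz
    have := he.differentiableAt (hsrc z hz) (hh (e.symm z))
    rw [hGs z hz] at this
    exact this
  set A : Fin n → (Fin n → ℂ) → Matrix (Fin d) (Fin d) ℂ :=
    fun k z => (P (e.symm z))⁻¹ • B k (e.symm z) with hA
  have hVVz : ∀ (k : Fin n) (h : S → ℂ), ∀ z ∈ ball (G p₀) r, VV G P k h (e.symm z) =
      P (e.symm z) * fderiv ℂ (fun z => h (e.symm z)) z (Pi.single k 1) := by
    intro k h z hz
    unfold VV
    rw [pd_eq he (hsrc z hz), hGs z hz]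
    rfl
  obtain ⟨g, -, hgd, hgu, hgA⟩ := frob (p := G p₀) hr (A := A) (by
      intro k i j z hz
      apply DifferentiableAt.differentiableWithinAt
      show DifferentiableAt ℂ (fun z => (P (e.symm z))⁻¹ * B k (e.symm z) i j) z
      exact ((hdiff P hP z hz).fun_inv (hPz z hz)).mul
        (hdiff (fun x => B k x i j) (fun x => hB k x i j) z hz)) (by
      intro z hz j k a b
      have hq := hPz z hz
      have hd : ∀ j k : Fin n, fderiv ℂ (fun z => A k z a b) z (Pi.single j 1) =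
          ((P (e.symm z)) ^ 2)⁻¹ * (VM G P j (B k) (e.symm z) a b) -
            ((P (e.symm z)) ^ 3)⁻¹ * (VV G P j P (e.symm z) * B k (e.symm z) a b) := by
        intro j k
        have h1 : (fun z => A k z a b) = fun z => (P (e.symm z))⁻¹ * B k (e.symm z) a b := rfl
        have h2 := hdiff (fun x => B k x a b) (fun x => hB k x a b) z hz
        have h3 := (hdiff P hP z hz)
        have h4 : fderiv ℂ (fun z => (P (e.symm z))⁻¹) z =
            (-((P (e.symm z)) ^ 2)⁻¹) • fderiv ℂ (fun z => P (e.symm z)) z :=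
          ((hasDerivAt_inv hq).comp_hasFDerivAt z h3.hasFDerivAt).fderiv
        rw [h1, fderiv_fun_mul (h3.fun_inv hq) h2, h4, VM_apply, hVVz j _ z hz,
          hVVz j _ z hz]
        simp only [add_apply, smul_apply, smul_eq_mul]
        field_simp
        ring
      rw [hd j k, hd k j]
      have h4 := congrFun (congrFun (hflat j k (e.symm z)) a) b
      simp only [Matrix.smul_apply, Matrix.sub_apply, Matrix.add_apply, smul_eq_mul] at h4
      have h5 : (A j z * A k z - A k z * A j z) a b = ((P (e.symm z)) ^ 2)⁻¹ *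
          ((B j (e.symm z) * B k (e.symm z)) a b - (B k (e.symm z) * B j (e.symm z)) a b) := by
        rw [hA]
        simp only [Matrix.smul_mul, Matrix.mul_smul, Matrix.sub_apply, Matrix.smul_apply,
          smul_eq_mul]
        field_simp
      rw [h5]
      field_simp
      linear_combination h4)
  have hUo : IsOpen (e.source ∩ e ⁻¹' ball (G p₀) r) := e.isOpen_inter_preimage isOpen_ball
  refine ⟨e.source ∩ e ⁻¹' ball (G p₀) r, fun x => g (G x), hUo, ⟨hpe, ?_⟩, ?_, ?_, ?_, ?_⟩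
  · show e p₀ ∈ ball (G p₀) r
    rw [he.eq _ hpe]
    exact mem_ball_self hr
  all_goals
    have hball' : ∀ x ∈ e.source ∩ e ⁻¹' ball (G p₀) r, G x ∈ ball (G p₀) r := by
      rintro x ⟨hx, hx'⟩
      have : e x ∈ ball (G p₀) r := hx'
      rwa [he.eq x hx] at this
  · rintro x hx
    refine ⟨⟨e, he, hx.1⟩, ?_⟩
    have := hPz _ (hball' x hx)
    rwa [he.symm_apply hx.1] at this
  · intro x hx a b
    have h1 : DifferentiableAt ℂ (fun z => g z a b) (e x) := by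
      rw [he.eq x hx.1]
      exact (hgd a b _ (hball' x hx)).differentiableAt (isOpen_ball.mem_nhds (hball' x hx))
    have h2 : MDifferentiableAt 𝓘(ℂ, Fin n → ℂ) 𝓘(ℂ, Fin n → ℂ) e x := by
      refine (hG x).congr_of_eventuallyEq ?_
      filter_upwards [e.open_source.mem_nhds hx.1] with y hy
      exact he.eq y hy
    have h3 : MDifferentiableAt 𝓘(ℂ, Fin n → ℂ) 𝓘(ℂ, ℂ) (fun y => g (e y) a b) x :=
      MDifferentiableAt.comp (g := fun z => g z a b) x h1.mdifferentiableAt h2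
    refine h3.congr_of_eventuallyEq ?_
    filter_upwards [e.open_source.mem_nhds hx.1] with y hy
    show g (G y) a b = g (e y) a b
    rw [he.eq y hy]
  · intro x hx
    exact hgu _ (hball' x hx)
  · intro k x hx
    have hz := hball' x hx
    ext a b
    have h1 := hVVz k (fun y => g (G y) a b) (G x) hz
    rw [he.symm_apply hx.1] at h1
    have h2 : (fun z => g (G (e.symm z)) a b) =ᶠ[𝓝 (G x)] fun z => g z a b := by
      filter_upwards [isOpen_ball.mem_nhds hz] with z hz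
      rw [hGs z hz]
    rw [VM_apply, h1, h2.fderiv_eq, hgA _ hz]
    show P x * (A k (G x) * g (G x)) a b = (B k x * g (G x)) a b
    have h3 : A k (G x) = (P x)⁻¹ • B k x := by
      show (P (e.symm (G x)))⁻¹ • B k (e.symm (G x)) = _
      rw [he.symm_apply hx.1]
    have h4 := hPz _ hz
    rw [he.symm_apply hx.1] at h4
    rw [h3, Matrix.smul_mul, Matrix.smul_apply, smul_eq_mul, ← mul_assoc, mul_inv_cancel₀ h4,
      one_mul]

/-- (P9), with `exists_multiplier` and `frobenius` as hypotheses -/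
theorem exists_flat_frames_of [SecondCountableTopology S] [ConnectedSpace S]
    (mult : ∀ p₀ : S, ∃ (G : S → (Fin n → ℂ)) (P : S → ℂ),
      MDifferentiable 𝓘(ℂ, Fin n → ℂ) 𝓘(ℂ, Fin n → ℂ) G ∧ IsCoordinateAt G p₀ ∧
      MDifferentiable 𝓘(ℂ, Fin n → ℂ) 𝓘(ℂ, ℂ) P ∧ P p₀ ≠ 0 ∧
      ∀ p : S, ∃ N ∈ 𝓝 p, ∃ C : ℝ, ∀ x ∈ N, ‖P x‖ ≤ C * ‖jac G p x‖ ^ 3)
    (frob : ∀ {p : Fin n → ℂ} {r : ℝ}, 0 < r →
      ∀ {A : Fin n → (Fin n → ℂ) → Matrix (Fin d) (Fin d) ℂ},
      (∀ k i j, DifferentiableOn ℂ (fun z => A k z i j) (Metric.ball p r)) →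
      (∀ z ∈ Metric.ball p r, ∀ j k, ∀ a b : Fin d,
        fderiv ℂ (fun z => A k z a b) z (Pi.single j 1) -
          fderiv ℂ (fun z => A j z a b) z (Pi.single k 1)
          = (A j z * A k z - A k z * A j z) a b) →
      ∃ g : (Fin n → ℂ) → Matrix (Fin d) (Fin d) ℂ, g p = 1 ∧
        (∀ i j, DifferentiableOn ℂ (fun z => g z i j) (Metric.ball p r)) ∧
        (∀ z ∈ Metric.ball p r, IsUnit (g z)) ∧
        ∀ z ∈ Metric.ball p r, ∀ k a b,
          fderiv ℂ (fun z => g z a b) z (Pi.single k 1) = (A k z * g z) a b)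
    {D : Set S} (hS : IsEnvelopeOfHolomorphy n D) {κ : Type}
    (N : κ → Set S) (hN : ∀ j, IsOpen (N j)) (hND : ⋃ j, N j = D)
    (Y : κ → S → Matrix (Fin d) (Fin d) ℂ)
    (hY : ∀ j a b, MDifferentiableOn 𝓘(ℂ, Fin n → ℂ) 𝓘(ℂ, ℂ) (fun x => Y j x a b) (N j))
    (hYu : ∀ j, ∀ x ∈ N j, IsUnit (Y j x))
    (hYc : ∀ j k, ∀ x ∈ N j ∩ N k, ∀ᶠ y in 𝓝 x, (Y j y)⁻¹ * Y k y = (Y j x)⁻¹ * Y k x) :
    ∃ (U : ℕ → Set S) (g : ℕ → S → Matrix (Fin d) (Fin d) ℂ),
      (∀ i, IsOpen (U i)) ∧ (∀ x, ∃ i, x ∈ U i) ∧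
      (∀ i a b, MDifferentiableOn 𝓘(ℂ, Fin n → ℂ) 𝓘(ℂ, ℂ) (fun x => g i x a b) (U i)) ∧
      (∀ i, ∀ x ∈ U i, IsUnit (g i x)) ∧
      (∀ i j, ∀ x ∈ U i ∩ U j, ∀ᶠ y in 𝓝 x, (g i y)⁻¹ * g j y = (g i x)⁻¹ * g j x) ∧
      ∀ i j, ∀ x ∈ U i ∩ N j, ∀ᶠ y in 𝓝 x, (g i y)⁻¹ * Y j y = (g i x)⁻¹ * Y j x := by
  have hDo := hS.2.1
  have hDne := hS.2.2.1.nonempty
  have hYm : ∀ j, ∀ x ∈ N j, MatAt n (Y j) x := fun j x hx a b =>
    (hY j a b x hx).mdifferentiableAt ((hN j).mem_nhds hx)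
  choose G P hG hGc hP hPp hM using mult
  have hM' : ∀ p, Mult (G p) (P p) := hM
  choose B hB hBY using fun p =>
    exists_connection hN hND hYm hYu hYc hS (hG p) (hP p) (hM' p)
  choose V g hV hpV hVG hgV hgu hgB using fun p =>
    exists_local_frame (d := d) frob (hG p) (hP p) (hB p)
      (fun j k x => connection_flat hN hND hYm hYu hYc hDo hDne (hG p) (hP p) (hM' p) (hB p)
        (hBY p) j k x) (hasG_of_isCoordinateAt (hG p) (hGc p)) (hPp p)
  -- the equation with respect to another system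
  have hcross : ∀ p q k, ∀ x ∈ V p ∩ V q, VM (G p) (P p) k (g q) x = B p k x * g q x := by
    rintro p q k x ⟨hx, hx'⟩
    have hPq := (hVG q x hx').2
    have h1 : P q x • VM (G p) (P p) k (g q) x =
        ∑ l, VV (G p) (P p) k (fun y => G q y l) x • VM (G q) (P q) l (g q) x := by
      ext a b
      simp only [Matrix.smul_apply, Matrix.sum_apply, smul_eq_mul, VM_apply]
      exact VV_chain (hM' q) (hG q) (hgV q x hx' a b) k
    have h2 := connection_compat hN hND hYm hYu hYc hDo hDne (hG p) (hP p) (hM' p) (hG q) (hP q)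
      (hM' q) (hB p) (hB q) (hBY p) (hBY q) k x
    have h3 : P q x • VM (G p) (P p) k (g q) x = P q x • (B p k x * g q x) := by
      rw [h1, ← Matrix.smul_mul, h2, Finset.sum_mul]
      apply Finset.sum_congr rfl
      intro l _
      rw [Matrix.smul_mul, hgB q l x hx']
    have h4 := congrArg (fun A => (P q x)⁻¹ • A) h3
    simpa only [smul_smul, inv_mul_cancel₀ hPq, one_smul] using h4
  obtain ⟨s, hsc, hsu⟩ := TopologicalSpace.countable_cover_nhds
    (f := V) (fun p => (hV p).mem_nhds (hpV p))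
  have hsne : s.Nonempty := by
    obtain ⟨x, -⟩ := hDne
    have : x ∈ ⋃ p ∈ s, V p := by rw [hsu]; trivial
    obtain ⟨p, hp, -⟩ := mem_iUnion₂.1 this
    exact ⟨p, hp⟩
  obtain ⟨f, rfl⟩ := hsc.exists_eq_range hsne
  refine ⟨fun i => V (f i), fun i => g (f i), fun i => hV _, ?_, ?_, fun i => hgu _, ?_, ?_⟩
  · intro x
    have : x ∈ ⋃ p ∈ range f, V p := by rw [hsu]; trivial
    obtain ⟨p, ⟨i, rfl⟩, hp⟩ := mem_iUnion₂.1 this
    exact ⟨i, hp⟩
  · intro i a b x hx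
    exact (hgV _ x hx a b).mdifferentiableWithinAt
  · rintro i j x hx
    exact locConst (G := G (f i)) (P := P (f i)) ((hV (f i)).inter (hV (f j)))
      (fun y hy => hVG _ y hy.1) (fun y hy => hgV _ y hy.1) (fun y hy => hgV _ y hy.2)
      (fun y hy => hgu _ y hy.1) (B := B (f i)) (fun k y hy => hgB _ k y hy.1)
      (fun k y hy => hcross _ _ k y hy) hx
  · rintro i j x hx
    exact locConst (G := G (f i)) (P := P (f i)) ((hV (f i)).inter (hN j))
      (fun y hy => hVG _ y hy.1) (fun y hy => hgV _ y hy.1) (fun y hy => hYm j y hy.2)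
      (fun y hy => hgu _ y hy.1) (B := B (f i)) (fun k y hy => hgB _ k y hy.1)
      (fun k y hy => hBY _ k j y hy.2) hx

end

end Pool.Agent.Levi
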