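import Mathlib

/-!
# Linear radial equation with holomorphic parameters (auxiliary for the Frobenius theorem)
-/

set_option autoImplicit false

open Set Filter Topology Metric MeasureTheory

namespace Pool.Agent.Levi.Frob

section Family

variable {K : Type} [TopologicalSpace K] [CompactSpace K]
variable {Z E : Type} [NormedAddCommGroup Z] [NormedSpace ℂ Z] [NormedAddCommGroup E]
  [NormedSpace ℂ E]

/-- a continuous family of linear maps, as a linear map into the continuous functions -/
noncomputable def flipC (A : C(K, Z →L[ℂ] E)) : Z →L[ℂ] C(K, E) :=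
  LinearMap.mkContinuous
    { toFun := fun v => ⟨fun t => A t v, A.continuous.clm_apply continuous_const⟩
      map_add' := fun v w => by ext t; simp
      map_smul' := fun r v => by ext t; simp } ‖A‖
    (fun v => by
      refine (ContinuousMap.norm_le _ (by positivity)).2 fun t => ?_
      exact (A t).le_of_opNorm_le (A.norm_coe_le_norm t) v)

@[simp] theorem flipC_apply (A : C(K, Z →L[ℂ] E)) (v : Z) (t : K) : flipC A v t = A t v := rfl

/-- differentiation of a family of functions parametrised by a compact space -/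
theorem exists_family {U : Set Z} (hU : IsOpen U) (Γ : K → Z → E) (Γ' : K → Z → Z →L[ℂ] E)
    (h1 : ∀ s, ∀ z ∈ U, HasFDerivAt (Γ s) (Γ' s z) z)
    (hΓc : ∀ z ∈ U, Continuous fun s => Γ s z)
    (hc : ContinuousOn (fun q : K × Z => Γ' q.1 q.2) (univ ×ˢ U)) :
    ∃ (G : Z → C(K, E)) (G' : Z → Z →L[ℂ] C(K, E)), ∀ z ∈ U,
      (∀ s, G z s = Γ s z) ∧ (∀ v s, G' z v s = Γ' s z v) ∧ HasFDerivAt G (G' z) z := by
  classical
  have hc' : ∀ z ∈ U, Continuous fun s => Γ' s z := by
    intro z hz
    rw [← continuousOn_univ]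
    exact hc.comp (f := fun s : K => (s, z)) (by fun_prop) fun s _ => ⟨mem_univ _, hz⟩
  set G : Z → C(K, E) := fun z => if hz : z ∈ U then ⟨fun s => Γ s z, hΓc z hz⟩ else 0 with hG
  set G' : Z → Z →L[ℂ] C(K, E) := fun z =>
    if hz : z ∈ U then flipC ⟨fun s => Γ' s z, hc' z hz⟩ else 0 with hG'
  have e1 : ∀ z ∈ U, ∀ s, G z s = Γ s z := by
    intro z hz s
    simp [hG, hz]
  have e2 : ∀ z ∈ U, ∀ v s, G' z v s = Γ' s z v := by
    intro z hz v s
    simp [hG', hz]
  refine ⟨G, G', fun z hz => ⟨e1 z hz, e2 z hz, ?_⟩⟩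
  rw [hasFDerivAt_iff_isLittleO, Asymptotics.isLittleO_iff]
  intro ε hε
  -- uniform closeness of the derivative
  have hev : ∀ᶠ y in 𝓝 z, ∀ s ∈ (univ : Set K), y ∈ U ∧ ‖Γ' s y - Γ' s z‖ < ε := by
    refine isCompact_univ.eventually_forall_of_forall_eventually fun s _ => ?_
    have hmem : (univ : Set K) ×ˢ U ∈ 𝓝 (s, z) := (isOpen_univ.prod hU).mem_nhds ⟨mem_univ _, hz⟩
    have h2 : ContinuousAt (fun q : K × Z => Γ' q.1 q.2) (s, z) := hc.continuousAt hmem
    have h3 : ContinuousAt (fun q : K × Z => Γ' q.1 z) (s, z) :=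
      ((hc' z hz).comp continuous_fst).continuousAt
    have h4 : ContinuousAt (fun q : K × Z => ‖Γ' q.1 q.2 - Γ' q.1 z‖) (s, z) := (h2.sub h3).norm
    have h5 : ∀ᶠ q in 𝓝 (s, z), ‖Γ' q.1 q.2 - Γ' q.1 z‖ < ε :=
      h4.eventually_lt_const (by simpa using hε)
    have h6 : ∀ᶠ q in 𝓝 (s, z), q.2 ∈ U := by
      filter_upwards [hmem] with q hq using hq.2
    have h7 : ∀ᶠ q in 𝓝 (s, z), q.2 ∈ U ∧ ‖Γ' q.1 q.2 - Γ' q.1 z‖ < ε := h6.and h5
    have h8 : Tendsto (fun q : Z × K => (q.2, q.1)) (𝓝 (z, s)) (𝓝 (s, z)) :=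
      continuous_swap.tendsto (z, s)
    exact h8.eventually h7
  obtain ⟨δ, hδ, hball⟩ := Metric.eventually_nhds_iff_ball.mp hev
  filter_upwards [ball_mem_nhds z hδ] with y hy
  have hyU : y ∈ U ∨ IsEmpty K := by
    rcases isEmpty_or_nonempty K with h | ⟨⟨s⟩⟩
    · exact Or.inr h
    · exact Or.inl (hball y hy s (mem_univ _)).1
  refine (ContinuousMap.norm_le _ (by positivity)).2 fun s => ?_
  have hyU' : y ∈ U := (hball y hy s (mem_univ _)).1
  simp only [ContinuousMap.sub_apply]
  rw [e1 y hyU', e1 z hz, e2 z hz]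
  refine (convex_ball z δ).norm_image_sub_le_of_norm_hasFDerivWithin_le' (𝕜 := ℂ)
    (f := Γ s) (f' := fun x => Γ' s x) (φ := Γ' s z) (C := ε)
    (fun x hx => (h1 s x (hball x hx s (mem_univ _)).1).hasFDerivWithinAt)
    (fun x hx => (hball x hx s (mem_univ _)).2.le) (mem_ball_self hδ) hy

end Family

section Abstract

theorem isUnit_one_sub_of_pow {R : Type} [Ring R] {x : R} {m : ℕ} (h : IsUnit (1 - x ^ m)) :
    IsUnit (1 - x) := by
  have hcomm : Commute (1 - x) (∑ i ∈ Finset.range m, x ^ i) := by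
    refine Commute.sum_right _ _ _ fun i _ => ?_
    exact (Commute.one_left _).sub_left ((Commute.refl _).pow_right _)
  rw [← mul_neg_geom_sum x m] at h
  exact (hcomm.isUnit_mul_iff.mp h).1

theorem differentiableAt_inverse_one_sub {R X : Type} [NormedRing R] [NormedAlgebra ℂ R]
    [CompleteSpace R] [NormedAddCommGroup X] [NormedSpace ℂ X] (T : X →L[ℂ] R) (B : X)
    (h : IsUnit (1 - T B)) : DifferentiableAt ℂ (fun B => Ring.inverse (1 - T B)) B := by
  have h1 : DifferentiableAt ℂ (fun B : X => 1 - T B) B := T.differentiableAt.const_sub 1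
  exact DifferentiableAt.comp B (differentiableAt_inverse h) h1

theorem hasFDerivAt_clm_comp {R X Z : Type} [NormedAddCommGroup R] [NormedSpace ℂ R]
    [NormedAddCommGroup X] [NormedSpace ℂ X] [NormedAddCommGroup Z] [NormedSpace ℂ Z]
    (T : X →L[ℂ] R) {G : Z → X} {G' : Z →L[ℂ] X} {z : Z} (h : HasFDerivAt G G' z) :
    HasFDerivAt (fun z => T (G z)) (T.comp G') z :=
  T.hasFDerivAt.comp z h

end Abstract

section Volterra

variable {E : Type} [NormedRing E] [NormedAlgebra ℂ E] [CompleteSpace E]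

omit [NormedAlgebra ℂ E] [CompleteSpace E] in
theorem continuous_ext (u : C(unitInterval, E)) :
    Continuous (IccExtend (zero_le_one' ℝ) u) := u.continuous.Icc_extend'

/-- The primitive vanishing at `0`. -/
noncomputable def primL : C(unitInterval, E) →L[ℂ] C(unitInterval, E) :=
  LinearMap.mkContinuous
    { toFun := fun u => ⟨fun t => ∫ s in (0 : ℝ)..(t : ℝ), IccExtend (zero_le_one' ℝ) u s, by
        have h := intervalIntegral.continuous_primitive (μ := MeasureTheory.volume)
          (fun a b => (continuous_ext u).intervalIntegrable a b) (0 : ℝ)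
        exact h.comp continuous_subtype_val⟩
      map_add' := fun u v => by
        ext t
        have h1 : IccExtend (zero_le_one' ℝ) (u + v) =
            fun s => IccExtend (zero_le_one' ℝ) u s + IccExtend (zero_le_one' ℝ) v s := rfl
        simp only [ContinuousMap.coe_mk, ContinuousMap.add_apply]
        rw [h1, intervalIntegral.integral_add ((continuous_ext u).intervalIntegrable _ _)
          ((continuous_ext v).intervalIntegrable _ _)]
      map_smul' := fun r u => by
        ext t
        have h1 : IccExtend (zero_le_one' ℝ) (r • u) =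
            fun s => r • IccExtend (zero_le_one' ℝ) u s := rfl
        simp only [ContinuousMap.coe_mk, ContinuousMap.smul_apply, RingHom.id_apply]
        rw [h1, intervalIntegral.integral_smul] } 1
    (fun u => by
      rw [one_mul]
      refine (ContinuousMap.norm_le _ (norm_nonneg u)).2 fun t => ?_
      have h1 := intervalIntegral.norm_integral_le_of_norm_le_const (a := (0 : ℝ)) (b := (t : ℝ))
        (f := IccExtend (zero_le_one' ℝ) u) (C := ‖u‖) (fun s _ => u.norm_coe_le_norm _)
      refine h1.trans ?_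
      have h2 : |(t : ℝ) - 0| ≤ 1 := by
        rw [sub_zero, abs_le]
        exact ⟨by linarith [t.2.1], t.2.2⟩
      calc ‖u‖ * |(t : ℝ) - 0| ≤ ‖u‖ * 1 := mul_le_mul_of_nonneg_left h2 (norm_nonneg u)
        _ = ‖u‖ := mul_one _)

omit [CompleteSpace E] in
theorem primL_apply (u : C(unitInterval, E)) (t : unitInterval) :
    primL u t = ∫ s in (0 : ℝ)..(t : ℝ), IccExtend (zero_le_one' ℝ) u s := rfl

/-- `T B f = ∫ B f` -/
noncomputable def T : C(unitInterval, E) →L[ℂ] (C(unitInterval, E) →L[ℂ] C(unitInterval, E)) :=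
  (ContinuousLinearMap.compL ℂ C(unitInterval, E) C(unitInterval, E) C(unitInterval, E) primL).comp
    (ContinuousLinearMap.mul ℂ C(unitInterval, E))

omit [CompleteSpace E] in
theorem T_apply (B f : C(unitInterval, E)) : T B f = primL (B * f) := rfl

omit [CompleteSpace E] in
theorem T_pow_bound (B f : C(unitInterval, E)) (m : ℕ) (t : unitInterval) :
    ‖((T B) ^ m) f t‖ ≤ ‖B‖ ^ m * ((t : ℝ) ^ m / m.factorial) * ‖f‖ := by
  induction m generalizing t with
  | zero => simpa using f.norm_coe_le_norm t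
  | succ m ih =>
    rw [pow_succ', mul_apply_eq_comp, T_apply, primL_apply]
    set g := ((T B) ^ m) f with hg
    have ht0 : (0 : ℝ) ≤ t := t.2.1
    have hb : ∀ s ∈ Ioc (0 : ℝ) t, ‖IccExtend (zero_le_one' ℝ) (B * g) s‖ ≤
        ‖B‖ ^ (m + 1) * (s ^ m / m.factorial) * ‖f‖ := by
      intro s hs
      have hs1 : s ∈ Icc (0 : ℝ) 1 := ⟨hs.1.le, hs.2.trans t.2.2⟩
      rw [IccExtend_of_mem _ _ hs1, ContinuousMap.mul_apply]
      calc ‖B ⟨s, hs1⟩ * g ⟨s, hs1⟩‖ ≤ ‖B ⟨s, hs1⟩‖ * ‖g ⟨s, hs1⟩‖ := norm_mul_le _ _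
        _ ≤ ‖B‖ * (‖B‖ ^ m * (s ^ m / m.factorial) * ‖f‖) := by
            refine mul_le_mul (B.norm_coe_le_norm _) (ih ⟨s, hs1⟩) (norm_nonneg _) (norm_nonneg _)
        _ = _ := by ring
    have h1 := intervalIntegral.norm_integral_le_of_norm_le ht0
      (ae_of_all _ hb) (μ := volume) (by
        apply Continuous.intervalIntegrable
        fun_prop)
    refine h1.trans (le_of_eq ?_)
    rw [intervalIntegral.integral_mul_const, intervalIntegral.integral_const_mul,
      intervalIntegral.integral_div, integral_pow]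
    rw [Nat.factorial_succ]
    push_cast
    field_simp
    ring

theorem isUnit_one_sub_T (B : C(unitInterval, E)) : IsUnit (1 - T B) := by
  obtain ⟨m, hm⟩ : ∃ m : ℕ, ‖B‖ ^ m / m.factorial < 1 :=
    ((FloorSemiring.tendsto_pow_div_factorial_atTop ‖B‖).eventually_lt_const one_pos).exists
  have hn : ‖(T B) ^ m‖ < 1 := by
    refine lt_of_le_of_lt (ContinuousLinearMap.opNorm_le_bound _ (by positivity) fun f => ?_) hm
    refine (ContinuousMap.norm_le _ (by positivity)).2 fun t => (T_pow_bound B f m t).trans ?_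
    have h1 : (t : ℝ) ^ m ≤ 1 := pow_le_one₀ t.2.1 t.2.2
    have h2 : (t : ℝ) ^ m / m.factorial ≤ 1 / m.factorial := by gcongr
    calc ‖B‖ ^ m * ((t : ℝ) ^ m / m.factorial) * ‖f‖ ≤ ‖B‖ ^ m * (1 / m.factorial) * ‖f‖ := by
          gcongr
      _ = _ := by ring
  have hu : IsUnit (1 - (T B) ^ m) :=
    isUnit_one_sub_of_norm_lt_one (R := C(unitInterval, E) →L[ℂ] C(unitInterval, E)) hn
  exact isUnit_one_sub_of_pow (R := C(unitInterval, E) →L[ℂ] C(unitInterval, E)) (x := T B)
    (m := m) hu

/-- The solution of `Y' = B Y`, `Y(0) = 1`. -/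
noncomputable def sol (B : C(unitInterval, E)) : C(unitInterval, E) := Ring.inverse (1 - T B) 1

theorem sol_eq (B : C(unitInterval, E)) : sol B = 1 + T B (sol B) := by
  have h := Ring.mul_inverse_cancel _ (isUnit_one_sub_T B)
  have h1 := congrArg (fun L : C(unitInterval, E) →L[ℂ] C(unitInterval, E) => L 1) h
  simp only [mul_apply_eq_comp, sub_apply, one_apply_eq_self] at h1
  change sol B - T B (sol B) = 1 at h1
  rw [← h1]; abel

theorem eq_zero_of_eq_T {B f : C(unitInterval, E)} (h : f = T B f) : f = 0 := by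
  have h1 := Ring.inverse_mul_cancel _ (isUnit_one_sub_T B)
  have h2 := congrArg (fun L : C(unitInterval, E) →L[ℂ] C(unitInterval, E) => L f) h1
  simp only [mul_apply_eq_comp, sub_apply, one_apply_eq_self] at h2
  rw [← h, sub_self, map_zero] at h2
  exact h2.symm

theorem differentiableAt_sol (B : C(unitInterval, E)) :
    DifferentiableAt ℂ (sol (E := E)) B := by
  have h3 := differentiableAt_inverse_one_sub (R := C(unitInterval, E) →L[ℂ] C(unitInterval, E))
    (T (E := E)) B (isUnit_one_sub_T B)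
  exact h3.clm_apply (differentiableAt_const _)

end Volterra

end Pool.Agent.Levi.Frob
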