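import Mathlib
import Pool.Agent.Levi.FrobAux
import Pool.Agent.MEP.SCV

/-!
# The linear holomorphic Frobenius theorem on a polydisc
-/

set_option autoImplicit false

open Set Filter Topology Metric MeasureTheory

namespace Pool.Agent.Levi

open Frob

section Abstract

variable {Z E : Type} [NormedAddCommGroup Z] [NormedSpace ℂ Z] [NormedRing E] [NormedAlgebra ℂ E]
  [CompleteSpace E]

theorem ray_mem {p z : Z} {r : ℝ} (hz : z ∈ ball (0 : Z) r) {t : ℝ} (ht : t ∈ Icc (0 : ℝ) 1) :
    p + (t : ℂ) • z ∈ ball p r := by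
  rw [mem_ball_zero_iff] at hz
  rw [mem_ball, dist_eq_norm, add_sub_cancel_left, norm_smul, Complex.norm_real,
    Real.norm_eq_abs, abs_of_nonneg ht.1]
  calc t * ‖z‖ ≤ 1 * ‖z‖ := by gcongr; exact ht.2
    _ < r := by simpa using hz

/-- the fundamental solution of a flat connection, abstract version -/
theorem frobenius_abstract {p : Z} {r : ℝ} (hr : 0 < r) (ω : Z → Z →L[ℂ] E)
    (ω' : Z → Z →L[ℂ] (Z →L[ℂ] E)) (hω : ∀ z ∈ ball p r, HasFDerivAt ω (ω' z) z)
    (hωc : ContinuousOn ω' (ball p r))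
    (hflat : ∀ z ∈ ball p r, ∀ u v, ω' z u v - ω' z v u = ω z u * ω z v - ω z v * ω z u) :
    ∃ g : Z → E, g p = 1 ∧ ∀ z ∈ ball p r, ∃ L : Z →L[ℂ] E, HasFDerivAt g L z ∧
      ∀ v, L v = ω z v * g z := by
  have hωcont : ContinuousOn ω (ball p r) := fun z hz => (hω z hz).continuousAt.continuousWithinAt
  set Γ : unitInterval → Z → E := fun s z => ω (p + ((s : ℝ) : ℂ) • z) z with hΓ
  set Γ' : unitInterval → Z → Z →L[ℂ] E := fun s z =>
    ω (p + ((s : ℝ) : ℂ) • z) + (((s : ℝ) : ℂ) • ω' (p + ((s : ℝ) : ℂ) • z)).flip z with hΓ'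
  have hder : ∀ s, ∀ z ∈ ball (0 : Z) r, HasFDerivAt (Γ s) (Γ' s z) z := by
    intro s z hz
    have h1 : HasFDerivAt (fun z : Z => p + ((s : ℝ) : ℂ) • z)
        (((s : ℝ) : ℂ) • ContinuousLinearMap.id ℂ Z) z :=
      ((hasFDerivAt_id z).const_smul _).const_add p
    have h2 := HasFDerivAt.comp z (hω _ (ray_mem (p := p) hz s.2)) h1
    have h3 := h2.clm_apply (hasFDerivAt_id z)
    refine h3.congr_fderiv ?_
    ext v
    simp [hΓ']
  have hmem : MapsTo (fun q : unitInterval × Z => p + ((q.1 : ℝ) : ℂ) • q.2)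
      (univ ×ˢ ball (0 : Z) r) (ball p r) := fun q hq => ray_mem hq.2 q.1.2
  have hmc : ContinuousOn (fun q : unitInterval × Z => p + ((q.1 : ℝ) : ℂ) • q.2)
      (univ ×ˢ ball (0 : Z) r) := by
    apply Continuous.continuousOn
    fun_prop
  have hΓ'c : ContinuousOn (fun q : unitInterval × Z => Γ' q.1 q.2) (univ ×ˢ ball (0 : Z) r) := by
    have h1 := hωcont.comp hmc hmem
    have h2 := hωc.comp hmc hmem
    have h3 : ContinuousOn (fun q : unitInterval × Z => ((q.1 : ℝ) : ℂ) •
        ω' (p + ((q.1 : ℝ) : ℂ) • q.2)) (univ ×ˢ ball (0 : Z) r) := by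
      have hsc : ContinuousOn (fun q : unitInterval × Z => ((q.1 : ℝ) : ℂ))
          (univ ×ˢ ball (0 : Z) r) := Continuous.continuousOn (by fun_prop)
      exact hsc.smul h2
    have h4 : ContinuousOn (fun q : unitInterval × Z => (((q.1 : ℝ) : ℂ) •
        ω' (p + ((q.1 : ℝ) : ℂ) • q.2)).flip) (univ ×ˢ ball (0 : Z) r) :=
      (ContinuousLinearMap.flipₗᵢ ℂ Z Z E).continuous.comp_continuousOn h3
    exact h1.add (h4.clm_apply continuous_snd.continuousOn)
  have hΓc : ∀ z ∈ ball (0 : Z) r, Continuous fun s => Γ s z := by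
    intro z hz
    have h1 : Continuous fun s : unitInterval => ω (p + ((s : ℝ) : ℂ) • z) := by
      rw [← continuousOn_univ]
      exact hωcont.comp (f := fun s : unitInterval => p + ((s : ℝ) : ℂ) • z)
        (by fun_prop) (fun s _ => ray_mem hz s.2)
    exact h1.clm_apply continuous_const
  obtain ⟨G, G', hG⟩ := exists_family isOpen_ball Γ Γ' hder hΓc hΓ'c
  -- the solution along rays
  set Y : Z → C(unitInterval, E) := fun z => sol (G z) with hY
  have hYd : ∀ z ∈ ball (0 : Z) r, DifferentiableAt ℂ Y z := fun z hz =>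
    DifferentiableAt.comp z (differentiableAt_sol (G z)) (hG z hz).2.2.differentiableAt
  have hYeq : ∀ z, Y z = 1 + T (G z) (Y z) := fun z => sol_eq (G z)
  -- the derivative with respect to the parameter
  have hD : ∀ z ∈ ball (0 : Z) r, ∀ v : Z, fderiv ℂ Y z v =
      T (G z) (fderiv ℂ Y z v) + T (G' z v) (Y z) := by
    intro z hz v
    have h1 : HasFDerivAt Y (fderiv ℂ Y z) z := (hYd z hz).hasFDerivAt
    have h2 : HasFDerivAt (fun z => T (G z)) ((T (E := E)).comp (G' z)) z :=
      hasFDerivAt_clm_comp (R := C(unitInterval, E) →L[ℂ] C(unitInterval, E)) (T (E := E))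
        (hG z hz).2.2
    have h3 := (h2.clm_apply h1).const_add (1 : C(unitInterval, E))
    have h4 : (fun z => 1 + T (G z) (Y z)) = Y := by
      funext z; exact (hYeq z).symm
    rw [h4] at h3
    have h5 := h3.unique h1
    have h6 := congrArg (fun L : Z →L[ℂ] C(unitInterval, E) => L v) h5
    simpa using h6.symm
  -- the explicit candidate
  have hQ : ∀ z ∈ ball (0 : Z) r, ∀ v : Z, ∀ s : unitInterval, fderiv ℂ Y z v s =
      ((s : ℝ) : ℂ) • (ω (p + ((s : ℝ) : ℂ) • z) v * Y z s) := by
    intro z hz v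
    have hcQ : Continuous fun s : unitInterval =>
        ((s : ℝ) : ℂ) • (ω (p + ((s : ℝ) : ℂ) • z) v * Y z s) := by
      have h1 : Continuous fun s : unitInterval => ω (p + ((s : ℝ) : ℂ) • z) v := by
        rw [← continuousOn_univ]
        exact (hωcont.comp (f := fun s : unitInterval => p + ((s : ℝ) : ℂ) • z)
          (by fun_prop) (fun s _ => ray_mem hz s.2)).clm_apply continuousOn_const
      have h2 : Continuous fun s : unitInterval => ((s : ℝ) : ℂ) := by fun_prop
      exact h2.smul (h1.mul (Y z).continuous)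
    set Q : C(unitInterval, E) := ⟨_, hcQ⟩ with hQdef
    -- the extended functions on the line
    set b : ℝ → E := IccExtend (zero_le_one' ℝ) ((G z * Y z : C(unitInterval, E)) : unitInterval → E) with hb
    have hbc : Continuous b := by rw [hb]; exact continuous_ext _
    set y : ℝ → E := fun t => 1 + ∫ s in (0 : ℝ)..t, b s with hy
    have hyd : ∀ t, HasDerivAt y (b t) t := by
      intro t
      have h1 := intervalIntegral.integral_hasDerivAt_right
        (hbc.intervalIntegrable (μ := MeasureTheory.volume) 0 t)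
        (hbc.stronglyMeasurableAtFilter _ _) hbc.continuousAt
      exact h1.const_add 1
    have hyY : ∀ s : unitInterval, Y z s = y s := by
      intro s
      have h1 := congrArg (fun w : C(unitInterval, E) => w s) (hYeq z)
      exact h1
    have hbt : ∀ t ∈ Icc (0 : ℝ) 1, b t = ω (p + (t : ℂ) • z) z * y t := by
      intro t ht
      rw [hb, IccExtend_of_mem _ _ ht, ContinuousMap.mul_apply, (hG z hz).1, hyY]
    have had : ∀ t ∈ Icc (0 : ℝ) 1, HasDerivAt (fun t : ℝ => ω (p + (t : ℂ) • z) v)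
        (ω' (p + (t : ℂ) • z) z v) t := by
      intro t ht
      have h1 : HasDerivAt (fun t : ℝ => p + (t : ℂ) • z) z t := by
        have h2 : HasDerivAt (fun t : ℝ => (t : ℂ)) 1 t := Complex.ofRealCLM.hasDerivAt
        simpa using (h2.smul_const z).const_add p
      have h5 : HasFDerivAt (fun x => ω x v) ((ω' (p + (t : ℂ) • z)).flip v) (p + (t : ℂ) • z) := by
        have := (hω _ (ray_mem (p := p) hz ht)).clm_apply (hasFDerivAt_const v _)
        exact this.congr_fderiv (by ext; simp)
      exact HasFDerivAt.comp_hasDerivAt (𝕜 := ℝ) (f := fun t : ℝ => p + (t : ℂ) • z) t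
        (h5.restrictScalars ℝ) h1
    have hqd : ∀ t ∈ Icc (0 : ℝ) 1, HasDerivAt (fun t : ℝ => (t : ℂ) • (ω (p + (t : ℂ) • z) v * y t))
        (IccExtend (zero_le_one' ℝ)
          ((G z * Q + G' z v * Y z : C(unitInterval, E)) : unitInterval → E) t) t := by
      intro t ht
      have h2 : HasDerivAt (fun t : ℝ => (t : ℂ)) 1 t := Complex.ofRealCLM.hasDerivAt
      have h3 := h2.smul ((had t ht).mul (hyd t))
      refine h3.congr_deriv ?_
      rw [IccExtend_of_mem _ _ ht]
      simp only [ContinuousMap.add_apply, ContinuousMap.mul_apply]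
      rw [(hG z hz).1, (hG z hz).2.1, hyY]
      have hQt : Q ⟨t, ht⟩ = (t : ℂ) • (ω (p + (t : ℂ) • z) v * y t) := by
        change (t : ℂ) • (ω (p + (t : ℂ) • z) v * Y z ⟨t, ht⟩) = _
        rw [hyY]
      rw [hQt, hbt t ht]
      have hfl := hflat _ (ray_mem (p := p) hz ht) z v
      simp only [hΓ, hΓ', add_apply, ContinuousLinearMap.flip_apply, smul_apply]
      have h5 : ω' (p + (t : ℂ) • z) z v = ω' (p + (t : ℂ) • z) v z +
          (ω (p + (t : ℂ) • z) z * ω (p + (t : ℂ) • z) v -
            ω (p + (t : ℂ) • z) v * ω (p + (t : ℂ) • z) z) := by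
        rw [← hfl]; abel
      rw [h5]
      simp only [add_mul, sub_mul, smul_add, smul_sub, one_smul, mul_smul_comm, smul_mul_assoc,
        mul_assoc]
      abel
    have hQT : Q = T (G z) Q + T (G' z v) (Y z) := by
      have h0 : T (G z) Q + T (G' z v) (Y z) = primL (G z * Q + G' z v * Y z) := by
        rw [T_apply, T_apply, map_add]
      rw [h0]
      ext s
      rw [primL_apply]
      have hint : ∀ t ∈ uIcc (0 : ℝ) s, HasDerivAt
          (fun t : ℝ => (t : ℂ) • (ω (p + (t : ℂ) • z) v * y t))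
          (IccExtend (zero_le_one' ℝ)
            ((G z * Q + G' z v * Y z : C(unitInterval, E)) : unitInterval → E) t) t := by
        intro t ht
        rw [uIcc_of_le s.2.1] at ht
        exact hqd t ⟨ht.1, ht.2.trans s.2.2⟩
      rw [intervalIntegral.integral_eq_sub_of_hasDerivAt hint
        ((continuous_ext _).intervalIntegrable _ _)]
      change ((s : ℝ) : ℂ) • (ω (p + ((s : ℝ) : ℂ) • z) v * Y z s) = _
      rw [hyY]
      simp
    have hzero : fderiv ℂ Y z v - Q = 0 := by
      apply eq_zero_of_eq_T (B := G z)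
      rw [map_sub]
      conv_lhs => rw [hD z hz v, hQT]
      abel
    intro s
    rw [sub_eq_zero.mp hzero]
    rfl
  refine ⟨fun x => Y (x - p) 1, ?_, ?_⟩
  · have h0 : (0 : Z) ∈ ball (0 : Z) r := mem_ball_self hr
    have hG0 : G 0 = 0 := by
      ext s
      rw [(hG 0 h0).1]
      simp [hΓ]
    have h1 := hYeq 0
    rw [hG0, map_zero, zero_apply, add_zero] at h1
    simp [h1]
  · intro x hx
    have hz : x - p ∈ ball (0 : Z) r := by
      rw [mem_ball_zero_iff, ← dist_eq_norm]; exact hx
    have h1 : HasFDerivAt (fun x : Z => x - p) (ContinuousLinearMap.id ℂ Z) x :=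
      (hasFDerivAt_id x).sub_const p
    have h2 : HasFDerivAt (fun x => Y (x - p)) (fderiv ℂ Y (x - p)) x := by
      have := HasFDerivAt.comp x (hYd _ hz).hasFDerivAt h1
      exact this.congr_fderiv (by ext; simp)
    let ev : C(unitInterval, E) →L[ℂ] E := ContinuousMap.evalCLM ℂ 1
    refine ⟨ev.comp (fderiv ℂ Y (x - p)), ev.hasFDerivAt.comp x h2, fun v => ?_⟩
    change fderiv ℂ Y (x - p) v 1 = _
    rw [hQ _ hz v 1]
    simp

end Abstract

section Mat

variable {n d : ℕ} {E : Type} [NormedRing E] [NormedAlgebra ℂ E] [CompleteSpace E]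

theorem continuousOn_sum3 {X F : Type} [TopologicalSpace X] [NormedAddCommGroup F] {s : Set X}
    (f : Fin n → Fin d → Fin d → X → F) (h : ∀ k i j, ContinuousOn (f k i j) s) :
    ContinuousOn (fun z => ∑ k, ∑ i, ∑ j, f k i j z) s :=
  continuousOn_finsetSum _ fun k _ => continuousOn_finsetSum _ fun i _ =>
    continuousOn_finsetSum _ fun j _ => h k i j

theorem frobenius_core_aux (Φ : Matrix (Fin d) (Fin d) ℂ ≃ₐ[ℂ] E) {p : Fin n → ℂ} {r : ℝ}
    (hr : 0 < r) {A : Fin n → (Fin n → ℂ) → Matrix (Fin d) (Fin d) ℂ}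
    (hA : ∀ k i j, DifferentiableOn ℂ (fun z => A k z i j) (Metric.ball p r))
    (hflat : ∀ z ∈ Metric.ball p r, ∀ j k, ∀ a b : Fin d,
      fderiv ℂ (fun z => A k z a b) z (Pi.single j 1) - fderiv ℂ (fun z => A j z a b) z (Pi.single k 1)
        = (A j z * A k z - A k z * A j z) a b) :
    ∃ g : (Fin n → ℂ) → Matrix (Fin d) (Fin d) ℂ, g p = 1 ∧
      ∀ z ∈ Metric.ball p r, ∀ a b, ∃ L : (Fin n → ℂ) →L[ℂ] ℂ,
        HasFDerivAt (fun z => g z a b) L z ∧ ∀ v, L v = ∑ k, v k * (A k z * g z) a b := by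
  have : FiniteDimensional ℂ E := LinearEquiv.finiteDimensional Φ.toLinearEquiv
  set c : Fin n → Fin d → Fin d → (Fin n → ℂ) →L[ℂ] E := fun k i j =>
    (ContinuousLinearMap.proj (R := ℂ) (φ := fun _ : Fin n => ℂ) k).smulRight
      (Φ (Matrix.single i j (1 : ℂ))) with hc
  set ω : (Fin n → ℂ) → (Fin n → ℂ) →L[ℂ] E := fun z =>
    ∑ k, ∑ i, ∑ j, A k z i j • c k i j with hω
  set ω' : (Fin n → ℂ) → (Fin n → ℂ) →L[ℂ] ((Fin n → ℂ) →L[ℂ] E) := fun z =>
    ∑ k, ∑ i, ∑ j, (fderiv ℂ (fun z => A k z i j) z).smulRight (c k i j) with hω'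
  have hΦ : ∀ M : Matrix (Fin d) (Fin d) ℂ, Φ M = ∑ i, ∑ j, M i j • Φ (Matrix.single i j 1) := by
    intro M
    conv_lhs => rw [Matrix.matrix_eq_sum_single M]
    simp only [map_sum]
    refine Finset.sum_congr rfl fun i _ => Finset.sum_congr rfl fun j _ => ?_
    rw [← map_smul, Matrix.smul_single]
    simp
  have hωv : ∀ z v, ω z v = Φ (∑ k, v k • A k z) := by
    intro z v
    simp only [hω, hc, FunLike.coe_sum, Finset.sum_apply, smul_apply,
      ContinuousLinearMap.smulRight_apply, ContinuousLinearMap.proj_apply, map_sum, map_smul]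
    refine Finset.sum_congr rfl fun k _ => ?_
    rw [hΦ (A k z)]
    simp only [Finset.smul_sum]
    refine Finset.sum_congr rfl fun i _ => Finset.sum_congr rfl fun j _ => ?_
    rw [smul_comm]
  have hω'v : ∀ z u v, ω' z u v =
      Φ (Matrix.of fun a b => ∑ k, v k * fderiv ℂ (fun z => A k z a b) z u) := by
    intro z u v
    rw [hΦ]
    simp only [hω', hc, FunLike.coe_sum, Finset.sum_apply, smul_apply,
      ContinuousLinearMap.smulRight_apply, ContinuousLinearMap.proj_apply, Matrix.of_apply,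
      Finset.sum_smul]
    rw [Finset.sum_comm]
    refine Finset.sum_congr rfl fun i _ => ?_
    rw [Finset.sum_comm]
    refine Finset.sum_congr rfl fun j _ => Finset.sum_congr rfl fun k _ => ?_
    rw [smul_smul, mul_comm]
  obtain ⟨g, hg1, hg2⟩ : ∃ g : (Fin n → ℂ) → E, g p = 1 ∧ ∀ z ∈ ball p r,
      ∃ L : (Fin n → ℂ) →L[ℂ] E, HasFDerivAt g L z ∧ ∀ v, L v = ω z v * g z := by
    refine frobenius_abstract hr ω ω' ?_ ?_ ?_
    · intro z hz
      have hk : ∀ k i j, HasFDerivAt (fun z => A k z i j • c k i j)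
          ((fderiv ℂ (fun z => A k z i j) z).smulRight (c k i j)) z := by
        intro k i j
        have h1 : HasFDerivAt (fun z => A k z i j) (fderiv ℂ (fun z => A k z i j) z) z :=
          ((hA k i j).differentiableAt (isOpen_ball.mem_nhds hz)).hasFDerivAt
        exact h1.smul_const (c k i j)
      exact HasFDerivAt.fun_sum fun k _ => HasFDerivAt.fun_sum fun i _ =>
        HasFDerivAt.fun_sum fun j _ => hk k i j
    · refine continuousOn_sum3 (F := (Fin n → ℂ) →L[ℂ] ((Fin n → ℂ) →L[ℂ] E)) _ fun k i j => ?_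
      have h1 := MEP.continuousOn_fderiv_of_differentiableOn isOpen_ball (hA k i j)
      exact (((ContinuousLinearMap.smulRightL ℂ (Fin n → ℂ) ((Fin n → ℂ) →L[ℂ] E)).flip
        (c k i j)).continuous.comp_continuousOn h1)
    · intro z hz u v
      have hexp : ∀ (k : Fin n) (a b : Fin d) (u : Fin n → ℂ), fderiv ℂ (fun z => A k z a b) z u =
          ∑ j, u j * fderiv ℂ (fun z => A k z a b) z (Pi.single j 1) := by
        intro k a b u
        conv_lhs => rw [pi_eq_sum_univ' u]
        rw [map_sum]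
        refine Finset.sum_congr rfl fun j _ => ?_
        rw [← smul_eq_mul, ← map_smul]
      rw [hω'v, hω'v, hωv, hωv, ← map_mul Φ, ← map_mul Φ, ← map_sub Φ, ← map_sub Φ]
      refine congrArg Φ ?_
      ext a b
      have h1 : ((Matrix.of fun a b => ∑ k, v k * fderiv ℂ (fun z => A k z a b) z u) -
          (Matrix.of fun a b => ∑ k, u k * fderiv ℂ (fun z => A k z a b) z v)) a b =
          ∑ j, ∑ k, u j * v k *
          (fderiv ℂ (fun z => A k z a b) z (Pi.single j 1) -
            fderiv ℂ (fun z => A j z a b) z (Pi.single k 1)) := by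
        rw [Matrix.sub_apply, Matrix.of_apply, Matrix.of_apply]
        simp only [mul_sub, Finset.sum_sub_distrib]
        congr 1
        · rw [Finset.sum_comm]
          refine Finset.sum_congr rfl fun k _ => ?_
          rw [hexp k a b u, Finset.mul_sum]
          refine Finset.sum_congr rfl fun j _ => ?_
          ring
        · refine Finset.sum_congr rfl fun j _ => ?_
          rw [hexp j a b v, Finset.mul_sum]
          refine Finset.sum_congr rfl fun k _ => ?_
          ring
      have h2 : ((∑ k, u k • A k z) * (∑ k, v k • A k z) -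
          (∑ k, v k • A k z) * (∑ k, u k • A k z)) a b = ∑ j, ∑ k, u j * v k *
          (A j z * A k z - A k z * A j z) a b := by
        rw [Finset.sum_mul_sum, Finset.sum_mul_sum, Finset.sum_comm (s := Finset.univ)
          (t := Finset.univ) (f := fun i j => v i • A i z * u j • A j z), ← Finset.sum_sub_distrib,
          Matrix.sum_apply]
        refine Finset.sum_congr rfl fun j _ => ?_
        rw [← Finset.sum_sub_distrib, Matrix.sum_apply]
        refine Finset.sum_congr rfl fun k _ => ?_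
        simp only [Matrix.sub_apply, smul_mul_smul_comm, Matrix.smul_apply, smul_eq_mul]
        ring
      rw [h1, h2]
      refine Finset.sum_congr rfl fun j _ => Finset.sum_congr rfl fun k _ => ?_
      rw [hflat z hz j k a b]
  refine ⟨fun z => Φ.symm (g z), by simp [hg1], fun z hz a b => ?_⟩
  obtain ⟨L, hL1, hL2⟩ := hg2 z hz
  set ε : E →L[ℂ] ℂ := ((Matrix.entryLinearMap ℂ ℂ a b).comp
    Φ.symm.toLinearEquiv.toLinearMap).toContinuousLinearMap with hε
  refine ⟨ε.comp L, ε.hasFDerivAt.comp z hL1, fun v => ?_⟩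
  have h1 : (ε.comp L) v = (Φ.symm (L v)) a b := rfl
  rw [h1, hL2, hωv, map_mul, AlgEquiv.symm_apply_apply, Finset.sum_mul, Matrix.sum_apply]
  refine Finset.sum_congr rfl fun k _ => ?_
  rw [smul_mul_assoc, Matrix.smul_apply, smul_eq_mul]

theorem frobenius_core {p : Fin n → ℂ} {r : ℝ}
    (hr : 0 < r) {A : Fin n → (Fin n → ℂ) → Matrix (Fin d) (Fin d) ℂ}
    (hA : ∀ k i j, DifferentiableOn ℂ (fun z => A k z i j) (Metric.ball p r))
    (hflat : ∀ z ∈ Metric.ball p r, ∀ j k, ∀ a b : Fin d,
      fderiv ℂ (fun z => A k z a b) z (Pi.single j 1) - fderiv ℂ (fun z => A j z a b) z (Pi.single k 1)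
        = (A j z * A k z - A k z * A j z) a b) :
    ∃ g : (Fin n → ℂ) → Matrix (Fin d) (Fin d) ℂ, g p = 1 ∧
      ∀ z ∈ Metric.ball p r, ∀ a b, ∃ L : (Fin n → ℂ) →L[ℂ] ℂ,
        HasFDerivAt (fun z => g z a b) L z ∧ ∀ v, L v = ∑ k, v k * (A k z * g z) a b :=
  frobenius_core_aux (E := (Fin d → ℂ) →L[ℂ] (Fin d → ℂ))
    (Matrix.toLinAlgEquiv'.trans (Module.End.toContinuousLinearMap (Fin d → ℂ))) hr hA hflat

end Mat

/-- (P3) a flat holomorphic connection on a polydisc has a fundamental solution -/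
theorem frobenius {n d : ℕ} {p : Fin n → ℂ} {r : ℝ} (hr : 0 < r)
    {A : Fin n → (Fin n → ℂ) → Matrix (Fin d) (Fin d) ℂ}
    (hA : ∀ k i j, DifferentiableOn ℂ (fun z => A k z i j) (Metric.ball p r))
    (hflat : ∀ z ∈ Metric.ball p r, ∀ j k, ∀ a b : Fin d,
      fderiv ℂ (fun z => A k z a b) z (Pi.single j 1) - fderiv ℂ (fun z => A j z a b) z (Pi.single k 1)
        = (A j z * A k z - A k z * A j z) a b) :
    ∃ g : (Fin n → ℂ) → Matrix (Fin d) (Fin d) ℂ, g p = 1 ∧
      (∀ i j, DifferentiableOn ℂ (fun z => g z i j) (Metric.ball p r)) ∧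
      (∀ z ∈ Metric.ball p r, IsUnit (g z)) ∧
      ∀ z ∈ Metric.ball p r, ∀ k a b,
        fderiv ℂ (fun z => g z a b) z (Pi.single k 1) = (A k z * g z) a b := by
  obtain ⟨g, hg1, hg2⟩ := frobenius_core hr hA hflat
  -- the transposed inverse
  have hflat' : ∀ z ∈ Metric.ball p r, ∀ j k, ∀ a b : Fin d,
      fderiv ℂ (fun z => (-(A k z).transpose) a b) z (Pi.single j 1) -
        fderiv ℂ (fun z => (-(A j z).transpose) a b) z (Pi.single k 1)
        = ((-(A j z).transpose) * (-(A k z).transpose) -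
          (-(A k z).transpose) * (-(A j z).transpose)) a b := by
    intro z hz j k a b
    have e1 : ∀ k, (fun z => (-(A k z).transpose) a b) = fun z => -(A k z b a) := by
      intro k; funext z; simp
    rw [e1, e1, fderiv_fun_neg, fderiv_fun_neg]
    have := hflat z hz j k b a
    simp only [neg_apply]
    have h2 : (-(A j z).transpose) * (-(A k z).transpose) -
          (-(A k z).transpose) * (-(A j z).transpose) =
        (A k z * A j z - A j z * A k z).transpose := by
      rw [Matrix.transpose_sub, Matrix.transpose_mul, Matrix.transpose_mul]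
      simp
    rw [h2, Matrix.transpose_apply]
    rw [Matrix.sub_apply] at this ⊢
    linear_combination -this
  obtain ⟨h, hh1, hh2⟩ := frobenius_core (A := fun k z => -(A k z).transpose) hr
    (fun k i j => by simpa using (hA k j i).neg) hflat'
  refine ⟨g, hg1, ?_, ?_, ?_⟩
  · intro i j z hz
    obtain ⟨L, hL1, -⟩ := hg2 z hz i j
    exact hL1.differentiableAt.differentiableWithinAt
  · -- `hᵀ g = 1`
    have hF : ∀ i j, ∀ z ∈ Metric.ball p r,
        HasFDerivAt (fun z => ∑ l, h z l i * g z l j) (0 : (Fin n → ℂ) →L[ℂ] ℂ) z := by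
      intro i j z hz
      choose L hL1 hL2 using fun l => hg2 z hz l j
      choose M hM1 hM2 using fun l => hh2 z hz l i
      have h2 := HasFDerivAt.fun_sum (u := Finset.univ) fun l _ => (hM1 l).mul (hL1 l)
      refine h2.congr_fderiv ?_
      ext v
      simp only [FunLike.coe_sum, Finset.sum_apply, add_apply, smul_apply, smul_eq_mul, hL2, hM2,
        zero_apply, Finset.mul_sum, Matrix.mul_apply, Matrix.neg_apply, Matrix.transpose_apply,
        Finset.sum_add_distrib]
      have e1 : ∑ x, ∑ i_1, ∑ i_2, h z x i * (v i_1 * (A i_1 z x i_2 * g z i_2 j)) =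
          ∑ x, ∑ i_1, ∑ i_2, h z i_2 i * (v i_1 * (A i_1 z i_2 x * g z x j)) := by
        rw [Finset.sum_comm]
        conv_rhs => rw [Finset.sum_comm]
        refine Finset.sum_congr rfl fun k _ => ?_
        rw [Finset.sum_comm]
      rw [e1, ← Finset.sum_add_distrib]
      refine Finset.sum_eq_zero fun x _ => ?_
      rw [← Finset.sum_add_distrib]
      refine Finset.sum_eq_zero fun k _ => ?_
      rw [← Finset.sum_add_distrib]
      refine Finset.sum_eq_zero fun l _ => ?_
      ring
    intro z hz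
    have h3 : (h z).transpose * g z = 1 := by
      ext i j
      rw [Matrix.mul_apply]
      have h4 : (∑ l, h z l i * g z l j) = ∑ l, h p l i * g p l j :=
        isOpen_ball.is_const_of_fderiv_eq_zero (𝕜 := ℂ)
          (convex_ball p r).isPreconnected (f := fun z => ∑ l, h z l i * g z l j)
          (fun x hx => (hF i j x hx).differentiableAt.differentiableWithinAt)
          (fun x hx => (hF i j x hx).fderiv) hz (mem_ball_self hr)
      simp only [Matrix.transpose_apply]
      rw [h4, hh1, hg1]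
      simp [Matrix.one_apply, eq_comm]
    exact ⟨⟨g z, (h z).transpose, mul_eq_one_comm.mp h3, h3⟩, rfl⟩
  · intro z hz k a b
    obtain ⟨L, hL1, hL2⟩ := hg2 z hz a b
    rw [hL1.fderiv, hL2, Finset.sum_eq_single k]
    · simp
    · intro j _ hj
      simp [Pi.single_eq_of_ne hj]
    · simp

end Pool.Agent.Levi
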