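import Pool.Agent.Levi.QHolo

/-!
# Sections of coverings over `D` extend to the envelope of holomorphy (package P10), core
-/

set_option autoImplicit false

open Set Filter Topology Metric
open scoped Manifold ContDiff

namespace Pool.Agent.Levi

open Pool.Agent.MEP

section Local

variable {n : ℕ} {S : Type} [TopologicalSpace S] [ChartedSpace (Fin n → ℂ) S]
  {W : Type} [TopologicalSpace W] {q : W → S} {ρ : W → ℝ}

/-- every point of `W` has a connected neighbourhood -/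
theorem IsTame.exists_preconnected_nhds (hq : IsTame n q ρ) (w : W) :
    ∃ V ∈ 𝓝 w, IsPreconnected V := by
  obtain ⟨N, hNo, hpN, hNs, C, hC⟩ := hq.sheets (q w)
  obtain ⟨σ, hσw, hσc, hσ⟩ := hC w hpN
  have hqσ : ∀ x ∈ N, q (σ x) = x := fun x hx => (hσ x hx).1
  set e := chartAt (Fin n → ℂ) (q w) with he
  obtain ⟨ε, hε, hb1, hb2⟩ := exists_ball_nhd (n := n) (hNo.mem_nhds hpN)
  rw [← he] at hb1 hb2
  have hIN : e.symm '' ball (e (q w)) ε ⊆ N := by
    rintro _ ⟨z, hz, rfl⟩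
    exact hb2 z hz
  refine ⟨σ '' (e.symm '' ball (e (q w)) ε), ?_, ?_⟩
  · have hsec : ∀ᶠ w' in 𝓝 w, σ (q w') = w' := section_eventually hq.localHomeo
      (hNo.mem_nhds hpN) (hσc.continuousAt (hNo.mem_nhds hpN)) hqσ hσw
    have hnear : ∀ᶠ w' in 𝓝 w, q w' ∈ e.source ∩ e ⁻¹' ball (e (q w)) ε := by
      apply hq.localHomeo.continuous.continuousAt.eventually
      exact (e.isOpen_inter_preimage isOpen_ball).mem_nhds
        ⟨mem_chart_source _ _, mem_ball_self hε⟩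
    filter_upwards [hsec, hnear] with z hz1 hz2
    exact ⟨q z, ⟨e (q z), hz2.2, e.left_inv hz2.1⟩, hz1⟩
  · exact (((convex_ball (e (q w)) ε).isPreconnected).image _
      (e.continuousOn_symm.mono hb1)).image _ (hσc.mono hIN)

/-- an intersection of clopen sets is clopen -/
theorem IsTame.isClopen_sInter (hq : IsTame n q ρ) {ι : Sort*} {Z : ι → Set W}
    (hZ : ∀ i, IsClopen (Z i)) : IsClopen {w | ∀ i, w ∈ Z i} := by
  constructor
  · have : {w | ∀ i, w ∈ Z i} = ⋂ i, Z i := by ext; simp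
    rw [this]
    exact isClosed_iInter fun i => (hZ i).isClosed
  · rw [isOpen_iff_mem_nhds]
    intro w hw
    obtain ⟨V, hV, hVc⟩ := hq.exists_preconnected_nhds w
    filter_upwards [hV] with z hz i
    exact hVc.subset_isClopen (hZ i) ⟨w, mem_of_mem_nhds hV, hw i⟩ hz

/-- A map `τ` with `q (τ x) = x` for `x` in the open set `D`, and with image in an open set on which
`τ` is the only preimage, is continuous. -/
theorem IsTame.continuousOn_of_unique (hq : IsTame n q ρ) {τ : S → W} {D : Set S} (hD : IsOpen D)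
    (hτ : ∀ x ∈ D, q (τ x) = x) {P : W → Prop} (hP : ∀ x ∈ D, ∀ᶠ w in 𝓝 (τ x), P w)
    (huniq : ∀ w, P w → q w ∈ D → w = τ (q w)) : ContinuousOn τ D := by
  intro x hx
  apply ContinuousAt.continuousWithinAt
  obtain ⟨N, hNo, hpN, hNs, C, hC⟩ := hq.sheets x
  obtain ⟨σ, hσw, hσc, hσ⟩ := hC (τ x) (by rw [hτ x hx]; exact hpN)
  rw [hτ x hx] at hσw
  have hσx : ContinuousAt σ x := hσc.continuousAt (hNo.mem_nhds hpN)
  have h1 : ∀ᶠ y in 𝓝 x, P (σ y) := by
    have h2 : ∀ᶠ w in 𝓝 (σ x), P w := by rw [hσw]; exact hP x hx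
    exact hσx.eventually h2
  have h3 : τ =ᶠ[𝓝 x] σ := by
    filter_upwards [h1, hNo.mem_nhds hpN, hD.mem_nhds hx] with y hy1 hy2 hy3
    have h4 : q (σ y) = y := (hσ y hy2).1
    have := huniq (σ y) hy1 (by rw [h4]; exact hy3)
    rw [h4] at this
    exact this.symm
  exact hσx.congr h3.symm

end Local

section Envelope

variable {n : ℕ} {S : Type} [TopologicalSpace S] [T2Space S] [SecondCountableTopology S]
  [ConnectedSpace S] [ChartedSpace (Fin n → ℂ) S] [IsManifold 𝓘(ℂ, Fin n → ℂ) ω S]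

omit [T2Space S] [SecondCountableTopology S] in
/-- (P10) Core of the proof: `W` is a tame covering of the envelope `S` of `D` with labels in `F` and
cocycle `c`, on which holomorphic functions separate the points of the fibres. Then a section over
`D` extends to `S`. -/
theorem section_extends_core {D : Set S} (hS : IsEnvelopeOfHolomorphy n D) {G F : Type} [Group G]
    [MulAction G F]
    {ι : Type} (U : ι → Set S) (hU : ∀ i, IsOpen (U i)) (hcov : ∀ x, ∃ i, x ∈ U i)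
    (c : ι → ι → S → G)
    (s : ι → S → F) (hs : ∀ i, ∀ x ∈ U i ∩ D, ∀ᶠ y in 𝓝 x, s i y = s i x)
    (hsc : ∀ i j, ∀ x ∈ U i ∩ U j ∩ D, s j x = c i j x • s i x)
    {W : Type} [TopologicalSpace W] {q : W → S} {lab : ι → W → F} {ρ : W → ℝ}
    (hsurj : ∀ i, ∀ x ∈ U i, ∀ a : F, ∃ w, q w = x ∧ lab i w = a)
    (hinj : ∀ i w w', q w = q w' → q w ∈ U i → lab i w = lab i w' → w = w')
    (hcc : ∀ i j w, q w ∈ U i → q w ∈ U j → lab j w = c i j (q w) • lab i w)
    (hloc : ∀ i w, q w ∈ U i → ∀ᶠ w' in 𝓝 w, lab i w' = lab i w)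
    (hq : IsTame n q ρ)
    (hsep : ∀ w : W, ∃ β : W → ℂ, QHolo n q β ∧ ‖β w - 1‖ ≤ 1 / 4 ∧
      ∀ w', q w' = q w → w' ≠ w → ‖β w'‖ ≤ 1 / 4) :
    ∃ s' : ι → S → F, (∀ i, ∀ x ∈ U i, ∀ᶠ y in 𝓝 x, s' i y = s' i x) ∧
      (∀ i j, ∀ x ∈ U i ∩ U j, s' j x = c i j x • s' i x) ∧
      ∀ i, ∀ x ∈ U i ∩ D, s' i x = s i x := by
  obtain ⟨hStein, hDo, hDc, hext⟩ := hS
  -- the section over `D`
  have hex : ∀ x ∈ D, ∃ w, q w = x ∧ ∀ j, x ∈ U j → lab j w = s j x := by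
    intro x hx
    obtain ⟨i, hi⟩ := hcov x
    obtain ⟨w, hw1, hw2⟩ := hsurj i x hi (s i x)
    refine ⟨w, hw1, fun j hj => ?_⟩
    rw [hcc i j w (by rwa [hw1]) (by rwa [hw1]), hw2, hw1, hsc i j x ⟨⟨hi, hj⟩, hx⟩]
  obtain ⟨x₀, hx₀⟩ := hDc.nonempty
  obtain ⟨w₀, hw₀, -⟩ := hex x₀ hx₀
  have : Nonempty W := ⟨w₀⟩
  choose! σ hσq hσl using hex
  have hσuniq : ∀ w, (q w ∈ D ∧ ∃ j, q w ∈ U j ∧ lab j w = s j (q w)) → w = σ (q w) := by
    rintro w ⟨hw, j, hj, hl⟩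
    apply hinj j w (σ (q w)) _ hj
    · rw [hl, hσl _ hw j hj]
    · rw [hσq _ hw]
  have hσc : ContinuousOn σ D := by
    apply hq.continuousOn_of_unique hDo hσq
      (P := fun w => q w ∈ D ∧ ∃ j, q w ∈ U j ∧ lab j w = s j (q w)) _
      (fun w hw _ => hσuniq w hw)
    intro x hx
    obtain ⟨i, hi⟩ := hcov x
    have hqc : ContinuousAt q (σ x) := hq.localHomeo.continuous.continuousAt
    have h1 : ∀ᶠ w in 𝓝 (σ x), q w ∈ D := by
      apply hqc.eventually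
      rw [hσq x hx]
      exact hDo.mem_nhds hx
    have h2 : ∀ᶠ w in 𝓝 (σ x), q w ∈ U i := by
      apply hqc.eventually
      rw [hσq x hx]
      exact (hU i).mem_nhds hi
    have h3 : ∀ᶠ w in 𝓝 (σ x), lab i w = lab i (σ x) := hloc i (σ x) (by rwa [hσq x hx])
    have h4 : ∀ᶠ y in 𝓝 (q (σ x)), s i y = s i x := by
      rw [hσq x hx]
      exact hs i x ⟨hi, hx⟩
    have h5 : ∀ᶠ w in 𝓝 (σ x), s i (q w) = s i x := hqc.eventually h4
    filter_upwards [h1, h2, h3, h5] with w a1 a2 a3 a5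
    refine ⟨a1, i, a2, ?_⟩
    rw [a3, a5, hσl x hx i hi]
  -- the clopen set
  set Z : Set W := {w | ∀ b : {b : (W → ℂ) × (S → ℂ) // QHolo n q b.1 ∧
    MDifferentiable 𝓘(ℂ, Fin n → ℂ) 𝓘(ℂ, ℂ) b.2 ∧ EqOn b.2 (b.1 ∘ σ) D},
      w ∈ {w | ∀ᶠ w' in 𝓝 w, b.1.1 w' + (-1) * b.1.2 (q w') = 0}} with hZdef
  have hZ : IsClopen Z := by
    apply hq.isClopen_sInter
    rintro ⟨⟨β, β'⟩, hβ, hβ', -⟩
    have h1 : QHolo n q (fun w => β w + (-1) * β' (q w)) := by
      apply QHolo.add hβ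
      have h2 : MDifferentiable 𝓘(ℂ, Fin n → ℂ) 𝓘(ℂ, ℂ) (fun x => (-1) * β' x) := by
        intro x
        exact (mdifferentiableAt_const (c := (-1 : ℂ))).mul (hβ' x)
      exact QHolo.comp_proj hq.localHomeo.continuous h2
    exact h1.isClopen_vanish hq
  have hZσ : ∀ x ∈ D, σ x ∈ Z := by
    rintro x hx ⟨⟨β, β'⟩, hβ, hβ', heq⟩
    have hsec : ∀ᶠ w' in 𝓝 (σ x), σ (q w') = w' := by
      apply section_eventually hq.localHomeo (N := D)
      · rw [hσq x hx]; exact hDo.mem_nhds hx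
      · rw [hσq x hx]; exact hσc.continuousAt (hDo.mem_nhds hx)
      · exact hσq
      · rw [hσq x hx]
    have hqD : ∀ᶠ w' in 𝓝 (σ x), q w' ∈ D := by
      apply hq.localHomeo.continuous.continuousAt.eventually
      rw [hσq x hx]
      exact hDo.mem_nhds hx
    show ∀ᶠ w' in 𝓝 (σ x), β w' + (-1) * β' (q w') = 0
    filter_upwards [hsec, hqD] with w' h1 h2
    have h3 : β' (q w') = β (σ (q w')) := heq h2
    rw [h3, h1]
    ring
  have hZuniq : ∀ w ∈ Z, ∀ w' ∈ Z, q w = q w' → w = w' := by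
    intro w hw w' hw' hqq
    by_contra hne
    obtain ⟨β, hβ, hβ1, hβ2⟩ := hsep w
    have hd : MDifferentiableOn 𝓘(ℂ, Fin n → ℂ) 𝓘(ℂ, ℂ) (β ∘ σ) D :=
      hβ.mdifferentiableOn_section hDo hσc hσq
    obtain ⟨β', hβ', heq⟩ := hext _ hd
    have h1 : ∀ᶠ v in 𝓝 w, β v + (-1) * β' (q v) = 0 := hw ⟨(β, β'), hβ, hβ', heq⟩
    have h2 : ∀ᶠ v in 𝓝 w', β v + (-1) * β' (q v) = 0 := hw' ⟨(β, β'), hβ, hβ', heq⟩
    have h1' := h1.self_of_nhds
    have h2' := h2.self_of_nhds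
    have h3 : β w = β w' := by
      rw [hqq] at h1'
      linear_combination h1' - h2'
    have h4 := hβ2 w' hqq.symm (Ne.symm hne)
    rw [h3] at hβ1
    have h5 : ‖(1 : ℂ)‖ ≤ ‖β w' - 1‖ + ‖β w'‖ := by
      calc ‖(1 : ℂ)‖ = ‖β w' - (β w' - 1)‖ := by congr 1; ring
        _ ≤ ‖β w'‖ + ‖β w' - 1‖ := norm_sub_le _ _
        _ = _ := by ring
    rw [norm_one] at h5
    linarith
  have hZim : q '' Z = univ := image_eq_univ_of_isClopen hq hZ ⟨σ x₀, hZσ x₀ hx₀⟩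
  have hex2 : ∀ x : S, ∃ w ∈ Z, q w = x := by
    intro x
    have : x ∈ q '' Z := by rw [hZim]; exact mem_univ x
    obtain ⟨w, hw, hwx⟩ := this
    exact ⟨w, hw, hwx⟩
  choose τ hτZ hτq using hex2
  have hτc : ContinuousOn τ univ := by
    apply hq.continuousOn_of_unique isOpen_univ (fun x _ => hτq x) (P := fun w => w ∈ Z)
    · intro x _
      exact hZ.isOpen.mem_nhds (hτZ x)
    · intro w hw _
      exact hZuniq w hw _ (hτZ _) (hτq _).symm
  refine ⟨fun i x => lab i (τ x), ?_, ?_, ?_⟩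
  · intro i x hx
    have h1 : ContinuousAt τ x := hτc.continuousAt univ_mem
    exact h1.eventually (hloc i (τ x) (by rwa [hτq]))
  · intro i j x hx
    have := hcc i j (τ x) (by rw [hτq]; exact hx.1) (by rw [hτq]; exact hx.2)
    rw [hτq] at this
    exact this
  · intro i x hx
    have h1 : τ x = σ x := hZuniq _ (hτZ x) _ (hZσ x hx.2) (by rw [hτq, hσq x hx.2])
    simp only
    rw [h1, hσl x hx.2 i hx.1]

end Envelope

end Pool.Agent.Levi
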