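import Pool.Agent.Levi.Decay3
import Pool.Agent.Levi.SectionCore
import Pool.Agent.Levi.Covering
import Pool.Agent.Levi.FlatExt
import Pool.Agent.Levi.FramesAux
import Pool.Agent.Levi.Frobenius

/-!
# Extension to the envelope of holomorphy: flat frames, sections of coverings, sections of flat
vector bundles
-/

set_option autoImplicit false
set_option linter.unusedSectionVars false

open Set Filter Topology
open scoped Manifold ContDiff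

namespace Pool.Agent.Levi

open Pool.Agent.MEP

variable {n : ℕ} {S : Type} [TopologicalSpace S] [T2Space S] [SecondCountableTopology S]
  [ConnectedSpace S] [ChartedSpace (Fin n → ℂ) S] [IsManifold 𝓘(ℂ, Fin n → ℂ) ω S]

/-- (P10) Let `S` be the envelope of holomorphy of `D`. A section over `D` of the covering space
with countable fibre `F` and cocycle `c` extends to a section over `S`. -/
theorem section_extends {D : Set S} (hS : IsEnvelopeOfHolomorphy n D) {G F : Type} [Group G]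
    [MulAction G F] [Countable F] (ℓ : F → ℝ) (hfin : ∀ r : ℝ, {a | ℓ a ≤ r}.Finite)
    (hℓ : ∀ c : G, ∃ C : ℝ, ∀ a, |ℓ (c • a) - ℓ a| ≤ C)
    {ι : Type} (U : ι → Set S) (hU : ∀ i, IsOpen (U i)) (hcov : ∀ x, ∃ i, x ∈ U i)
    (c : ι → ι → S → G)
    (hc : ∀ i j, ∀ x ∈ U i ∩ U j, ∀ᶠ y in 𝓝 x, c i j y = c i j x)
    (hcoc : ∀ i j k, ∀ x ∈ U i ∩ U j ∩ U k, c j k x * c i j x = c i k x)
    (s : ι → S → F) (hs : ∀ i, ∀ x ∈ U i ∩ D, ∀ᶠ y in 𝓝 x, s i y = s i x)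
    (hsc : ∀ i j, ∀ x ∈ U i ∩ U j ∩ D, s j x = c i j x • s i x) :
    ∃ s' : ι → S → F, (∀ i, ∀ x ∈ U i, ∀ᶠ y in 𝓝 x, s' i y = s' i x) ∧
      (∀ i j, ∀ x ∈ U i ∩ U j, s' j x = c i j x • s' i x) ∧
      ∀ i, ∀ x ∈ U i ∩ D, s' i x = s i x := by
  obtain ⟨W, _, q, lab, ρ, hT2, hSC, hsurj, hinj, hcc, hloc, hq, -⟩ :=
    exists_covering (n := n) ℓ hfin hℓ U hU hcov c hc hcoc
  have : T2Space W := hT2
  have : SecondCountableTopology W := hSC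
  refine section_extends_core hS U hU hcov c s hs hsc hsurj hinj hcc hloc hq fun w => ?_
  obtain ⟨β, hβ, hβ1, hβ2, -⟩ := exists_decaying' hS.1 hq w 0 (ε := 1 / 4) (by norm_num)
  refine ⟨β, hβ, hβ1, fun w' h1 h2 => ?_⟩
  simpa using hβ2 w' h1 h2

/-- (P11) sections of flat vector bundles over `D` extend to the envelope of holomorphy -/
theorem flat_section_extends {D : Set S} (hS : IsEnvelopeOfHolomorphy n D) {G : Type} [Group G]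
    [Countable G] {r : ℕ} (δ : G →* Matrix (Fin r) (Fin r) ℂ)
    {ι : Type} (U : ι → Set S) (hU : ∀ i, IsOpen (U i)) (hcov : ∀ x, ∃ i, x ∈ U i)
    (c : ι → ι → S → G)
    (hc : ∀ i j, ∀ x ∈ U i ∩ U j, ∀ᶠ y in 𝓝 x, c i j y = c i j x)
    (hcoc : ∀ i j k, ∀ x ∈ U i ∩ U j ∩ U k, c j k x * c i j x = c i k x)
    (v : ι → S → (Fin r → ℂ))
    (hv : ∀ i, MDifferentiableOn 𝓘(ℂ, Fin n → ℂ) 𝓘(ℂ, Fin r → ℂ) (v i) (U i ∩ D))
    (hvc : ∀ i j, ∀ x ∈ U i ∩ U j ∩ D, v j x = (δ (c i j x)).mulVec (v i x)) :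
    ∃ v' : ι → S → (Fin r → ℂ),
      (∀ i, MDifferentiableOn 𝓘(ℂ, Fin n → ℂ) 𝓘(ℂ, Fin r → ℂ) (v' i) (U i)) ∧
      (∀ i j, ∀ x ∈ U i ∩ U j, v' j x = (δ (c i j x)).mulVec (v' i x)) ∧
      ∀ i, ∀ x ∈ U i ∩ D, v' i x = v i x :=
  flat_section_extends_of_decaying hS δ U hU hcov c hc hcoc v hv hvc
    (fun {W} _ _ _ {q ρ} hq w₀ C' {ε} hε => exists_decaying' hS.1 hq w₀ C' hε)

/-- (P9) flat frames extend to the envelope of holomorphy -/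
theorem exists_flat_frames {D : Set S} (hS : IsEnvelopeOfHolomorphy n D) {d : ℕ} {κ : Type}
    (N : κ → Set S) (hN : ∀ j, IsOpen (N j)) (hND : ⋃ j, N j = D)
    (Y : κ → S → Matrix (Fin d) (Fin d) ℂ)
    (hY : ∀ j a b, MDifferentiableOn 𝓘(ℂ, Fin n → ℂ) 𝓘(ℂ, ℂ) (fun x => Y j x a b) (N j))
    (hYu : ∀ j, ∀ x ∈ N j, IsUnit (Y j x))
    (hYc : ∀ j k, ∀ x ∈ N j ∩ N k, ∀ᶠ y in 𝓝 x, (Y j y)⁻¹ * Y k y = (Y j x)⁻¹ * Y k x) :
    ∃ (U : ℕ → Set S) (g : ℕ → S → Matrix (Fin d) (Fin d) ℂ),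
      (∀ i, IsOpen (U i)) ∧ (∀ x, ∃ i, x ∈ U i) ∧
      (∀ i a b, MDifferentiableOn 𝓘(ℂ, Fin n → ℂ) 𝓘(ℂ, ℂ) (fun x => g i x a b) (U i)) ∧
      (∀ i, ∀ x ∈ U i, IsUnit (g i x)) ∧
      (∀ i j, ∀ x ∈ U i ∩ U j, ∀ᶠ y in 𝓝 x, (g i y)⁻¹ * g j y = (g i x)⁻¹ * g j x) ∧
      ∀ i j, ∀ x ∈ U i ∩ N j, ∀ᶠ y in 𝓝 x, (g i y)⁻¹ * Y j y = (g i x)⁻¹ * Y j x :=
  exists_flat_frames_of (exists_multiplier hS.1) (fun {_ _} hr {_} hA hflat =>
    frobenius hr hA hflat) hS N hN hND Y hY hYu hYc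

end Pool.Agent.Levi
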