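import Pool.Agent.Levi.GVec

/-!
# Algebra of the vector fields `P ∂/∂G_k`

Part of package P9 (MP_bf64af_an), helper60.
-/

set_option autoImplicit false
set_option linter.unusedSectionVars false

open Set Filter Topology Metric
open scoped ContDiff Manifold

namespace Pool.Agent.Levi

open Pool.Agent.MEP

section

variable {n : ℕ} {S : Type} [TopologicalSpace S] [ChartedSpace (Fin n → ℂ) S]
  [IsManifold 𝓘(ℂ, Fin n → ℂ) ω S]

variable {G : S → (Fin n → ℂ)} {P : S → ℂ}

theorem VV_of_not {x : S} (hx : ¬ HasG G x) (k : Fin n) (h : S → ℂ) : VV G P k h x = 0 := by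
  unfold VV
  rw [pd_of_not hx, mul_zero]

theorem VV_const (k : Fin n) (c : ℂ) (x : S) : VV G P k (fun _ => c) x = 0 := by
  by_cases hx : HasG G x
  · obtain ⟨e, he, hxe⟩ := hx
    unfold VV
    rw [pd_eq he hxe]
    have : (fun _ : S => c) ∘ e.symm = fun _ => c := rfl
    rw [this, fderiv_fun_const]
    simp
  · exact VV_of_not hx k _

theorem VV_add {x : S} {h h' : S → ℂ} (hh : MDifferentiableAt 𝓘(ℂ, Fin n → ℂ) 𝓘(ℂ, ℂ) h x)
    (hh' : MDifferentiableAt 𝓘(ℂ, Fin n → ℂ) 𝓘(ℂ, ℂ) h' x) (k : Fin n) :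
    VV G P k (fun y => h y + h' y) x = VV G P k h x + VV G P k h' x := by
  by_cases hx : HasG G x
  · obtain ⟨e, he, hxe⟩ := hx
    unfold VV
    rw [pd_eq he hxe, pd_eq he hxe, pd_eq he hxe]
    have h1 := he.differentiableAt hxe hh
    have h2 := he.differentiableAt hxe hh'
    have h3 : (fun y => h y + h' y) ∘ e.symm = fun z => (h ∘ e.symm) z + (h' ∘ e.symm) z := rfl
    rw [h3, fderiv_fun_add h1 h2, add_apply, mul_add]
  · rw [VV_of_not hx, VV_of_not hx, VV_of_not hx, add_zero]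

theorem VV_mul {x : S} {h h' : S → ℂ} (hh : MDifferentiableAt 𝓘(ℂ, Fin n → ℂ) 𝓘(ℂ, ℂ) h x)
    (hh' : MDifferentiableAt 𝓘(ℂ, Fin n → ℂ) 𝓘(ℂ, ℂ) h' x) (k : Fin n) :
    VV G P k (fun y => h y * h' y) x = VV G P k h x * h' x + h x * VV G P k h' x := by
  by_cases hx : HasG G x
  · obtain ⟨e, he, hxe⟩ := hx
    unfold VV
    rw [pd_eq he hxe, pd_eq he hxe, pd_eq he hxe]
    have h1 := he.differentiableAt hxe hh
    have h2 := he.differentiableAt hxe hh'
    have h3 : (fun y => h y * h' y) ∘ e.symm = fun z => (h ∘ e.symm) z * (h' ∘ e.symm) z := rfl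
    rw [h3, fderiv_fun_mul h1 h2]
    have h4 : (h ∘ e.symm) (G x) = h x := by
      show h (e.symm (G x)) = h x
      rw [he.symm_apply hxe]
    have h5 : (h' ∘ e.symm) (G x) = h' x := by
      show h' (e.symm (G x)) = h' x
      rw [he.symm_apply hxe]
    rw [add_apply, smul_apply, smul_apply, h4, h5, smul_eq_mul, smul_eq_mul]
    ring
  · rw [VV_of_not hx, VV_of_not hx, VV_of_not hx]
    ring

theorem VV_sum {x : S} {ι : Type*} (s : Finset ι) {h : ι → S → ℂ}
    (hh : ∀ i ∈ s, MDifferentiableAt 𝓘(ℂ, Fin n → ℂ) 𝓘(ℂ, ℂ) (h i) x) (k : Fin n) :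
    VV G P k (fun y => ∑ i ∈ s, h i y) x = ∑ i ∈ s, VV G P k (h i) x := by
  by_cases hx : HasG G x
  · obtain ⟨e, he, hxe⟩ := hx
    unfold VV
    rw [pd_eq he hxe, ← Finset.mul_sum]
    have h3 : (fun y => ∑ i ∈ s, h i y) ∘ e.symm = fun z => ∑ i ∈ s, (h i ∘ e.symm) z := rfl
    rw [h3, fderiv_fun_sum fun i hi => he.differentiableAt hxe (hh i hi), sum_apply]
    congr 1
    apply Finset.sum_congr rfl
    intro i _
    rw [pd_eq he hxe]
  · rw [VV_of_not hx, Finset.sum_eq_zero fun i _ => VV_of_not hx k (h i)]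

/-- The commutator of the vector fields. -/
theorem VV_comm
    (hP : MDifferentiable 𝓘(ℂ, Fin n → ℂ) 𝓘(ℂ, ℂ) P) {U : Set S} (hU : IsOpen U) {x : S}
    (hxU : x ∈ U) {h : S → ℂ} (hh : MDifferentiableOn 𝓘(ℂ, Fin n → ℂ) 𝓘(ℂ, ℂ) h U)
    (j k : Fin n) :
    P x * (VV G P j (VV G P k h) x - VV G P k (VV G P j h) x) =
      VV G P j P x * VV G P k h x - VV G P k P x * VV G P j h x := by
  by_cases hx : HasG G x
  · obtain ⟨e, he, hxe⟩ := hx
    have hmem : G x ∈ e.target ∩ e.symm ⁻¹' U := ⟨he.mem_target hxe, by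
      show e.symm (G x) ∈ U
      rw [he.symm_apply hxe]; exact hxU⟩
    have hO := GChart.isOpen (e := e) hU
    have ha : DifferentiableOn ℂ (h ∘ e.symm) (e.target ∩ e.symm ⁻¹' U) :=
      he.differentiableOn hU hh
    have has : ContDiffAt ℂ ∞ (h ∘ e.symm) (G x) :=
      (contDiffOn_of_differentiableOn hO ha).contDiffAt (hO.mem_nhds hmem)
    have hq : DifferentiableAt ℂ (P ∘ e.symm) (G x) := he.differentiableAt hxe (hP x)
    have hda : ∀ v, DifferentiableAt ℂ (fun z => fderiv ℂ (h ∘ e.symm) z v) (G x) := fun v =>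
      (differentiableOn_fderiv_apply hO ha v _ hmem).differentiableAt (hO.mem_nhds hmem)
    have hqv : (P ∘ e.symm) (G x) = P x := by
      show P (e.symm (G x)) = P x
      rw [he.symm_apply hxe]
    have key : ∀ j k : Fin n, VV G P j (VV G P k h) x =
        P x * (fderiv ℂ (P ∘ e.symm) (G x) (Pi.single j 1) *
          fderiv ℂ (h ∘ e.symm) (G x) (Pi.single k 1) +
          P x * fderiv ℂ (fun z => fderiv ℂ (h ∘ e.symm) z (Pi.single k 1)) (G x)
            (Pi.single j 1)) := by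
      intro j k
      have h1 : VV G P k h ∘ e.symm =ᶠ[𝓝 (G x)] fun z => (P ∘ e.symm) z *
          fderiv ℂ (h ∘ e.symm) z (Pi.single k 1) := by
        filter_upwards [he.pd_eventuallyEq hxe k h] with z hz
        show P (e.symm z) * pd G k h (e.symm z) = P (e.symm z) * _
        rw [← hz]
        rfl
      have h2 : VV G P j (VV G P k h) x = P x * pd G j (VV G P k h) x := rfl
      rw [h2, pd_eq he hxe, h1.fderiv_eq, fderiv_fun_mul hq (hda _), add_apply, smul_apply,
        smul_apply, hqv, smul_eq_mul, smul_eq_mul]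
      ring
    have hsymm : fderiv ℂ (fun z => fderiv ℂ (h ∘ e.symm) z (Pi.single k 1)) (G x)
            (Pi.single j 1) = fderiv ℂ (fun z => fderiv ℂ (h ∘ e.symm) z (Pi.single j 1)) (G x)
            (Pi.single k 1) := by
      have hsn : IsSymmSndFDerivAt ℂ (h ∘ e.symm) (G x) := has.isSymmSndFDerivAt
        (by rw [minSmoothness_of_isRCLikeNormedField]; exact ENat.LEInfty.out)
      have hdd : DifferentiableAt ℂ (fderiv ℂ (h ∘ e.symm)) (G x) :=
        ((has.fderiv_right (m := ∞) (by simp)).differentiableAt (by simp))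
      have h3 : ∀ v w, fderiv ℂ (fun z => fderiv ℂ (h ∘ e.symm) z v) (G x) w =
          (fderiv ℂ (fderiv ℂ (h ∘ e.symm)) (G x) w) v := by
        intro v w
        rw [fderiv_clm_apply hdd (differentiableAt_const v), fderiv_fun_const]
        simp
      rw [h3, h3]
      exact hsn _ _
    rw [key j k, key k j, hsymm]
    unfold VV
    rw [pd_eq he hxe, pd_eq he hxe, pd_eq he hxe, pd_eq he hxe]
    ring
  · simp only [VV_of_not hx]
    ring

/-- The chain rule for two systems of coordinates. -/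
theorem VV_chain {G' : S → (Fin n → ℂ)} {P' : S → ℂ} (hM' : Mult G' P')
    (hG' : MDifferentiable 𝓘(ℂ, Fin n → ℂ) 𝓘(ℂ, Fin n → ℂ) G') {x : S} {h : S → ℂ}
    (hh : MDifferentiableAt 𝓘(ℂ, Fin n → ℂ) 𝓘(ℂ, ℂ) h x) (k : Fin n) :
    P' x * VV G P k h x = ∑ l, VV G P k (fun y => G' y l) x * VV G' P' l h x := by
  by_cases hx : HasG G x
  · by_cases hx' : HasG G' x
    · obtain ⟨e, he, hxe⟩ := hx
      obtain ⟨e', he', hxe'⟩ := hx'
      have h1 : DifferentiableAt ℂ (G' ∘ e.symm) (G x) := he.differentiableAt hxe (hG' x)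
      have hval : (G' ∘ e.symm) (G x) = G' x := by
        show G' (e.symm (G x)) = G' x
        rw [he.symm_apply hxe]
      have h2 : DifferentiableAt ℂ (h ∘ e'.symm) ((G' ∘ e.symm) (G x)) := by
        rw [hval]
        exact he'.differentiableAt hxe' hh
      have hc : Tendsto e.symm (𝓝 (G x)) (𝓝 x) := by
        have := e.continuousAt_symm (he.mem_target hxe)
        rwa [ContinuousAt, he.symm_apply hxe] at this
      have h3 : h ∘ e.symm =ᶠ[𝓝 (G x)] (h ∘ e'.symm) ∘ (G' ∘ e.symm) := by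
        filter_upwards [hc (e'.open_source.mem_nhds hxe')] with z hz
        show h (e.symm z) = h (e'.symm (G' (e.symm z)))
        rw [he'.symm_apply hz]
      have h4 : fderiv ℂ (h ∘ e.symm) (G x) (Pi.single k 1) =
          fderiv ℂ (h ∘ e'.symm) (G' x) (fderiv ℂ (G' ∘ e.symm) (G x) (Pi.single k 1)) := by
        rw [h3.fderiv_eq, fderiv_comp _ h2 h1, hval]
        rfl
      have h5 : ∀ v : Fin n → ℂ, fderiv ℂ (h ∘ e'.symm) (G' x) v =
          ∑ l, v l * fderiv ℂ (h ∘ e'.symm) (G' x) (Pi.single l 1) := by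
        intro v
        conv_lhs => rw [pi_eq_sum_univ' v]
        rw [map_sum]
        apply Finset.sum_congr rfl
        intro l _
        rw [map_smul, smul_eq_mul]
      have h6 : ∀ l, fderiv ℂ ((fun y => G' y l) ∘ e.symm) (G x) (Pi.single k 1) =
          fderiv ℂ (G' ∘ e.symm) (G x) (Pi.single k 1) l := by
        intro l
        have h7 : fderiv ℂ ((fun y => G' y l) ∘ e.symm) (G x) =
            (ContinuousLinearMap.proj l).comp (fderiv ℂ (G' ∘ e.symm) (G x)) :=
          ((ContinuousLinearMap.proj (R := ℂ) (φ := fun _ : Fin n => ℂ) l).hasFDerivAt.comp (G x)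
            h1.hasFDerivAt).fderiv
        rw [h7]
        rfl
      unfold VV
      rw [pd_eq he hxe, h4, h5, Finset.mul_sum, Finset.mul_sum]
      apply Finset.sum_congr rfl
      intro l _
      rw [pd_eq he hxe, pd_eq he' hxe', h6]
      ring
    · rw [hM'.eq_zero hG' hx', zero_mul, Finset.sum_eq_zero]
      intro l _
      rw [VV_of_not hx', mul_zero]
  · rw [VV_of_not hx, mul_zero, Finset.sum_eq_zero]
    intro l _
    rw [VV_of_not hx, zero_mul]

end

end Pool.Agent.Levi
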