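import Pool.Agent.Levi.Tame
import Pool.Agent.Levi.Holo
import Pool.Agent.MEP.Mero

/-!
# Partial derivatives with respect to global holomorphic functions

Part of package P9 (MP_bf64af_an), helper60.
-/

set_option autoImplicit false

open Set Filter Topology Metric
open scoped ContDiff Manifold

namespace Pool.Agent.Levi

open Pool.Agent.MEP

section

variable {n : ℕ} {S : Type} [TopologicalSpace S] [ChartedSpace (Fin n → ℂ) S]

/-- `e` is a holomorphic chart of `S` given by the map `G`. -/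
structure GChart (G : S → (Fin n → ℂ)) (e : OpenPartialHomeomorph S (Fin n → ℂ)) : Prop where
  eq : ∀ x ∈ e.source, e x = G x
  holo : MDifferentiableOn 𝓘(ℂ, Fin n → ℂ) 𝓘(ℂ, Fin n → ℂ) e.symm e.target

/-- `x` lies in a chart given by `G`. -/
def HasG (G : S → (Fin n → ℂ)) (x : S) : Prop := ∃ e, GChart G e ∧ x ∈ e.source

theorem GChart.mem_target {G : S → (Fin n → ℂ)} {e : OpenPartialHomeomorph S (Fin n → ℂ)}
    (he : GChart G e) {x : S} (hx : x ∈ e.source) : G x ∈ e.target := by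
  rw [← he.eq x hx]
  exact e.map_source hx

theorem GChart.symm_apply {G : S → (Fin n → ℂ)} {e : OpenPartialHomeomorph S (Fin n → ℂ)}
    (he : GChart G e) {x : S} (hx : x ∈ e.source) : e.symm (G x) = x := by
  rw [← he.eq x hx]
  exact e.left_inv hx

theorem GChart.symm_eventuallyEq {G : S → (Fin n → ℂ)} {e e' : OpenPartialHomeomorph S (Fin n → ℂ)}
    (he : GChart G e) (he' : GChart G e') {x : S} (hx : x ∈ e.source) (hx' : x ∈ e'.source) :
    e.symm =ᶠ[𝓝 (G x)] e'.symm := by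
  have hc : ContinuousAt e.symm (G x) := e.continuousAt_symm (he.mem_target hx)
  have h1 : ∀ᶠ y in 𝓝 (G x), e.symm y ∈ e'.source := by
    apply hc.preimage_mem_nhds
    rw [he.symm_apply hx]
    exact e'.open_source.mem_nhds hx'
  filter_upwards [h1, e.open_target.mem_nhds (he.mem_target hx)] with y hy hyt
  have h2 : e (e.symm y) = y := e.right_inv hyt
  rw [he.eq _ (e.map_target hyt)] at h2
  have h3 : e' (e.symm y) = y := by rw [he'.eq _ hy, h2]
  rw [← e'.left_inv hy, h3]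

open Classical in
/-- The partial derivative of `h` with respect to the coordinates `G`, at the points where `G` is a
chart, and `0` elsewhere. -/
noncomputable def pd (G : S → (Fin n → ℂ)) (k : Fin n) (h : S → ℂ) (x : S) : ℂ :=
  if hx : HasG G x then fderiv ℂ (h ∘ hx.choose.symm) (G x) (Pi.single k 1) else 0

theorem pd_eq {G : S → (Fin n → ℂ)} {e : OpenPartialHomeomorph S (Fin n → ℂ)}
    (he : GChart G e) {x : S} (hx : x ∈ e.source) (k : Fin n) (h : S → ℂ) :
    pd G k h x = fderiv ℂ (h ∘ e.symm) (G x) (Pi.single k 1) := by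
  have hH : HasG G x := ⟨e, he, hx⟩
  unfold pd
  rw [dif_pos hH]
  have h1 := hH.choose_spec
  have h2 := h1.1.symm_eventuallyEq he h1.2 hx
  have h3 : h ∘ hH.choose.symm =ᶠ[𝓝 (G x)] h ∘ e.symm := h2.fun_comp h
  rw [h3.fderiv_eq]

theorem pd_of_not {G : S → (Fin n → ℂ)} {x : S} (hx : ¬ HasG G x) (k : Fin n) (h : S → ℂ) :
    pd G k h x = 0 := by
  unfold pd
  rw [dif_neg hx]

theorem pd_congr {G : S → (Fin n → ℂ)} {x : S} {h h' : S → ℂ} (hh : h =ᶠ[𝓝 x] h') (k : Fin n) :
    pd G k h x = pd G k h' x := by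
  by_cases hx : HasG G x
  · obtain ⟨e, he, hxe⟩ := hx
    rw [pd_eq he hxe, pd_eq he hxe]
    have hc : Tendsto e.symm (𝓝 (G x)) (𝓝 x) := by
      have := e.continuousAt_symm (he.mem_target hxe)
      rwa [ContinuousAt, he.symm_apply hxe] at this
    have h1 : h ∘ e.symm =ᶠ[𝓝 (G x)] h' ∘ e.symm := hh.comp_tendsto hc
    rw [h1.fderiv_eq]
  · rw [pd_of_not hx, pd_of_not hx]

theorem pd_congr_nhds {G : S → (Fin n → ℂ)} {x : S} {h h' : S → ℂ} (hh : h =ᶠ[𝓝 x] h')
    (k : Fin n) : pd G k h =ᶠ[𝓝 x] pd G k h' := by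
  filter_upwards [eventually_eventually_nhds.2 hh] with y hy
  exact pd_congr hy k

theorem GChart.hasG {G : S → (Fin n → ℂ)} {e : OpenPartialHomeomorph S (Fin n → ℂ)}
    (he : GChart G e) {x : S} (hx : x ∈ e.source) : HasG G x := ⟨e, he, hx⟩

/-- holomorphic functions in a `G`-chart -/
theorem GChart.differentiableAt {G : S → (Fin n → ℂ)} {e : OpenPartialHomeomorph S (Fin n → ℂ)}
    (he : GChart G e) {F : Type*} [NormedAddCommGroup F] [NormedSpace ℂ F] {x : S}
    (hx : x ∈ e.source) {h : S → F}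
    (hh : MDifferentiableAt 𝓘(ℂ, Fin n → ℂ) 𝓘(ℂ, F) h x) :
    DifferentiableAt ℂ (h ∘ e.symm) (G x) := by
  rw [← mdifferentiableAt_iff_differentiableAt]
  have h1 : MDifferentiableAt 𝓘(ℂ, Fin n → ℂ) 𝓘(ℂ, Fin n → ℂ) e.symm (G x) :=
    (he.holo _ (he.mem_target hx)).mdifferentiableAt (e.open_target.mem_nhds (he.mem_target hx))
  refine MDifferentiableAt.comp (g := h) (G x) ?_ h1
  rw [he.symm_apply hx]
  exact hh

theorem GChart.differentiableOn {G : S → (Fin n → ℂ)} {e : OpenPartialHomeomorph S (Fin n → ℂ)}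
    (he : GChart G e) {F : Type*} [NormedAddCommGroup F] [NormedSpace ℂ F] {U : Set S}
    (hU : IsOpen U) {h : S → F}
    (hh : MDifferentiableOn 𝓘(ℂ, Fin n → ℂ) 𝓘(ℂ, F) h U) :
    DifferentiableOn ℂ (h ∘ e.symm) (e.target ∩ e.symm ⁻¹' U) := by
  rintro z ⟨hz, hzU⟩
  have h2 : G (e.symm z) = z := by
    rw [← he.eq _ (e.map_target hz)]
    exact e.right_inv hz
  have h3 := he.differentiableAt (e.map_target hz)
    ((hh _ hzU).mdifferentiableAt (hU.mem_nhds hzU))
  rw [h2] at h3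
  exact h3.differentiableWithinAt

theorem GChart.isOpen {e : OpenPartialHomeomorph S (Fin n → ℂ)} {U : Set S} (hU : IsOpen U) :
    IsOpen (e.target ∩ e.symm ⁻¹' U) := e.isOpen_inter_preimage_symm hU

/-- The partial derivative near a point of a `G`-chart. -/
theorem GChart.pd_eventuallyEq {G : S → (Fin n → ℂ)} {e : OpenPartialHomeomorph S (Fin n → ℂ)}
    (he : GChart G e) {x : S} (hx : x ∈ e.source) (k : Fin n) (h : S → ℂ) :
    pd G k h ∘ e.symm =ᶠ[𝓝 (G x)] fun z => fderiv ℂ (h ∘ e.symm) z (Pi.single k 1) := by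
  filter_upwards [e.open_target.mem_nhds (he.mem_target hx)] with z hz
  have h2 : G (e.symm z) = z := by
    rw [← he.eq _ (e.map_target hz)]
    exact e.right_inv hz
  show pd G k h (e.symm z) = _
  rw [pd_eq he (e.map_target hz), h2]

/-- The partial derivative of a holomorphic function is holomorphic where `G` is a chart. -/
theorem mdifferentiableAt_pd {G : S → (Fin n → ℂ)}
    (hG : MDifferentiable 𝓘(ℂ, Fin n → ℂ) 𝓘(ℂ, Fin n → ℂ) G) {x : S} (hx : HasG G x)
    {U : Set S} (hU : IsOpen U) (hxU : x ∈ U) {h : S → ℂ}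
    (hh : MDifferentiableOn 𝓘(ℂ, Fin n → ℂ) 𝓘(ℂ, ℂ) h U) (k : Fin n) :
    MDifferentiableAt 𝓘(ℂ, Fin n → ℂ) 𝓘(ℂ, ℂ) (pd G k h) x := by
  obtain ⟨e, he, hxe⟩ := hx
  have h1 := differentiableOn_fderiv_apply (GChart.isOpen (e := e) hU)
    (he.differentiableOn hU hh) (Pi.single k 1)
  have hmem : G x ∈ e.target ∩ e.symm ⁻¹' U := ⟨he.mem_target hxe, by
    show e.symm (G x) ∈ U
    rw [he.symm_apply hxe]; exact hxU⟩
  have h2 : DifferentiableAt ℂ (fun z => fderiv ℂ (h ∘ e.symm) z (Pi.single k 1)) (G x) :=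
    (h1 _ hmem).differentiableAt ((GChart.isOpen hU).mem_nhds hmem)
  have h3 : MDifferentiableAt 𝓘(ℂ, Fin n → ℂ) 𝓘(ℂ, ℂ)
      (fun y => fderiv ℂ (h ∘ e.symm) (G y) (Pi.single k 1)) x :=
    MDifferentiableAt.comp (g := fun z => fderiv ℂ (h ∘ e.symm) z (Pi.single k 1)) x
      h2.mdifferentiableAt (hG x)
  refine h3.congr_of_eventuallyEq ?_
  filter_upwards [e.open_source.mem_nhds hxe] with y hy
  exact pd_eq he hy k h

end

end Pool.Agent.Levi
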