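import Pool.Agent.Levi.GAlg

/-!
# Matrix valued functions and flat connections

Part of package P9 (MP_bf64af_an), helper60.
-/

set_option autoImplicit false
set_option linter.unusedSectionVars false

open Set Filter Topology Metric
open scoped ContDiff Manifold

namespace Pool.Agent.Levi

open Pool.Agent.MEP

section

variable {n : ℕ} {S : Type} [TopologicalSpace S] [ChartedSpace (Fin n → ℂ) S]
  [IsManifold 𝓘(ℂ, Fin n → ℂ) ω S] {d : ℕ}

/-- The entries of `M` are holomorphic at `x`. -/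
def MatAt (n : ℕ) {S : Type} [TopologicalSpace S] [ChartedSpace (Fin n → ℂ) S] {d : ℕ}
    (M : S → Matrix (Fin d) (Fin d) ℂ) (x : S) : Prop :=
  ∀ a b, MDifferentiableAt 𝓘(ℂ, Fin n → ℂ) 𝓘(ℂ, ℂ) (fun y => M y a b) x

theorem matAt_iff {M : S → Matrix (Fin d) (Fin d) ℂ} {x : S} :
    MatAt n M x ↔ ∀ a b, DifferentiableAt ℂ (fun z => M ((chartAt (Fin n → ℂ) x).symm z) a b)
      (chartAt (Fin n → ℂ) x x) := by
  unfold MatAt
  simp only [mdiffAt_iff (mem_chart_source (Fin n → ℂ) x)]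
  rfl

theorem MatAt.mul {M N : S → Matrix (Fin d) (Fin d) ℂ} {x : S} (hM : MatAt n M x)
    (hN : MatAt n N x) : MatAt n (fun y => M y * N y) x := by
  rw [matAt_iff] at hM hN ⊢
  intro a b
  simp only [Matrix.mul_apply]
  apply DifferentiableAt.fun_sum
  intro c _
  exact (hM a c).mul (hN c b)

theorem MatAt.add {M N : S → Matrix (Fin d) (Fin d) ℂ} {x : S} (hM : MatAt n M x)
    (hN : MatAt n N x) : MatAt n (fun y => M y + N y) x := by
  rw [matAt_iff] at hM hN ⊢
  intro a b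
  simp only [Matrix.add_apply]
  exact (hM a b).add (hN a b)

theorem MatAt.sub {M N : S → Matrix (Fin d) (Fin d) ℂ} {x : S} (hM : MatAt n M x)
    (hN : MatAt n N x) : MatAt n (fun y => M y - N y) x := by
  rw [matAt_iff] at hM hN ⊢
  intro a b
  simp only [Matrix.sub_apply]
  exact (hM a b).sub (hN a b)

theorem MatAt.smul {f : S → ℂ} {N : S → Matrix (Fin d) (Fin d) ℂ} {x : S}
    (hf : MDifferentiableAt 𝓘(ℂ, Fin n → ℂ) 𝓘(ℂ, ℂ) f x)
    (hN : MatAt n N x) : MatAt n (fun y => f y • N y) x := by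
  rw [matAt_iff] at hN ⊢
  rw [mdiffAt_iff (mem_chart_source (Fin n → ℂ) x)] at hf
  intro a b
  simp only [Matrix.smul_apply, smul_eq_mul]
  exact hf.mul (hN a b)

theorem MatAt.sum {ι : Type*} (s : Finset ι) {N : ι → S → Matrix (Fin d) (Fin d) ℂ} {x : S}
    (hN : ∀ i ∈ s, MatAt n (N i) x) : MatAt n (fun y => ∑ i ∈ s, N i y) x := by
  rw [matAt_iff]
  intro a b
  simp only [Matrix.sum_apply]
  apply DifferentiableAt.fun_sum
  intro i hi
  exact (matAt_iff.1 (hN i hi)) a b

theorem MatAt.inv {M : S → Matrix (Fin d) (Fin d) ℂ} {x : S} (hM : MatAt n M x)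
    (hu : IsUnit (M x)) : MatAt n (fun y => (M y)⁻¹) x := by
  rw [matAt_iff] at hM ⊢
  intro a b
  refine differentiableAt_inv hM ?_ a b
  rw [(chartAt (Fin n → ℂ) x).left_inv (mem_chart_source _ x)]
  exact hu

theorem MatAt.congr {M N : S → Matrix (Fin d) (Fin d) ℂ} {x : S} (hM : MatAt n M x)
    (h : N =ᶠ[𝓝 x] M) : MatAt n N x := by
  intro a b
  refine (hM a b).congr_of_eventuallyEq ?_
  filter_upwards [h] with y hy
  rw [hy]

variable {G : S → (Fin n → ℂ)} {P : S → ℂ}

/-- `P ∂/∂G_k` applied to a matrix valued function. -/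
noncomputable def VM (G : S → (Fin n → ℂ)) (P : S → ℂ) (k : Fin n)
    (M : S → Matrix (Fin d) (Fin d) ℂ) (x : S) : Matrix (Fin d) (Fin d) ℂ :=
  Matrix.of fun a b => VV G P k (fun y => M y a b) x

theorem VM_apply (k : Fin n) (M : S → Matrix (Fin d) (Fin d) ℂ) (x : S) (a b : Fin d) :
    VM G P k M x a b = VV G P k (fun y => M y a b) x := rfl

theorem VM_congr {x : S} {M N : S → Matrix (Fin d) (Fin d) ℂ} (h : M =ᶠ[𝓝 x] N) (k : Fin n) :
    VM G P k M x = VM G P k N x := by
  ext a b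
  rw [VM_apply, VM_apply]
  apply VV_congr
  filter_upwards [h] with y hy
  rw [hy]

theorem VM_mul {x : S} {M N : S → Matrix (Fin d) (Fin d) ℂ} (hM : MatAt n M x)
    (hN : MatAt n N x) (k : Fin n) :
    VM G P k (fun y => M y * N y) x = VM G P k M x * N x + M x * VM G P k N x := by
  ext a b
  rw [VM_apply, Matrix.add_apply, Matrix.mul_apply, Matrix.mul_apply]
  simp only [Matrix.mul_apply, VM_apply]
  rw [VV_sum, ← Finset.sum_add_distrib]
  · apply Finset.sum_congr rfl
    intro c _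
    rw [VV_mul (hM a c) (hN c b)]
  · intro c _
    have h1 := hM a c
    have h2 := hN c b
    rw [mdiffAt_iff (mem_chart_source (Fin n → ℂ) x)] at h1 h2 ⊢
    exact h1.mul h2

theorem VM_const (k : Fin n) (C : Matrix (Fin d) (Fin d) ℂ) (x : S) :
    VM G P k (fun _ => C) x = 0 := by
  ext a b
  rw [VM_apply, VV_const]
  rfl

theorem VM_matAt (hG : MDifferentiable 𝓘(ℂ, Fin n → ℂ) 𝓘(ℂ, Fin n → ℂ) G)
    (hP : MDifferentiable 𝓘(ℂ, Fin n → ℂ) 𝓘(ℂ, ℂ) P) (hM : Mult G P)
    {U : Set S} (hU : IsOpen U) {M : S → Matrix (Fin d) (Fin d) ℂ} (hMU : ∀ x ∈ U, MatAt n M x)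
    (k : Fin n) : ∀ x ∈ U, MatAt n (VM G P k M) x := by
  intro x hx a b
  exact (mdifferentiableOn_VV hG hP hM hU
    (fun y hy => (hMU y hy a b).mdifferentiableWithinAt) k x hx).mdifferentiableAt
      (hU.mem_nhds hx)

theorem VM_comm (hP : MDifferentiable 𝓘(ℂ, Fin n → ℂ) 𝓘(ℂ, ℂ) P)
    {U : Set S} (hU : IsOpen U) {M : S → Matrix (Fin d) (Fin d) ℂ} (hMU : ∀ x ∈ U, MatAt n M x)
    {x : S} (hx : x ∈ U) (j k : Fin n) :
    P x • (VM G P j (VM G P k M) x - VM G P k (VM G P j M) x) =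
      VV G P j P x • VM G P k M x - VV G P k P x • VM G P j M x := by
  ext a b
  simp only [Matrix.smul_apply, Matrix.sub_apply, smul_eq_mul, VM_apply]
  exact VV_comm hP hU hx (h := fun y => M y a b)
    (fun y hy => (hMU y hy a b).mdifferentiableWithinAt) j k

/-- Solutions of `V_k M = B_k M` differ by locally constant factors. -/
theorem locConst {U : Set S} (hU : IsOpen U) (hUG : ∀ x ∈ U, HasG G x ∧ P x ≠ 0)
    {M N : S → Matrix (Fin d) (Fin d) ℂ} (hM : ∀ x ∈ U, MatAt n M x)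
    (hN : ∀ x ∈ U, MatAt n N x) (hMu : ∀ x ∈ U, IsUnit (M x))
    {B : Fin n → S → Matrix (Fin d) (Fin d) ℂ}
    (hMB : ∀ k, ∀ x ∈ U, VM G P k M x = B k x * M x)
    (hNB : ∀ k, ∀ x ∈ U, VM G P k N x = B k x * N x) {x : S} (hx : x ∈ U) :
    ∀ᶠ y in 𝓝 x, (M y)⁻¹ * N y = (M x)⁻¹ * N x := by
  have hinv : ∀ y ∈ U, M y * (M y)⁻¹ = 1 := fun y hy =>
    Matrix.mul_nonsing_inv _ ((Matrix.isUnit_iff_isUnit_det _).1 (hMu y hy))
  have hinv' : ∀ y ∈ U, (M y)⁻¹ * M y = 1 := fun y hy =>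
    Matrix.nonsing_inv_mul _ ((Matrix.isUnit_iff_isUnit_det _).1 (hMu y hy))
  set c : S → Matrix (Fin d) (Fin d) ℂ := fun y => (M y)⁻¹ * N y with hc
  have hcU : ∀ y ∈ U, MatAt n c y := fun y hy => ((hM y hy).inv (hMu y hy)).mul (hN y hy)
  have hVc : ∀ k, ∀ y ∈ U, VM G P k c y = 0 := by
    intro k y hy
    have h1 : (fun y => M y * c y) =ᶠ[𝓝 y] N := by
      filter_upwards [hU.mem_nhds hy] with w hw
      rw [hc]
      show M w * ((M w)⁻¹ * N w) = N w
      rw [← mul_assoc, hinv w hw, one_mul]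
    have h2 := VM_congr (G := G) (P := P) h1 k
    have h4 : M y * c y = N y := h1.self_of_nhds
    rw [VM_mul (hM y hy) (hcU y hy), hMB k y hy, hNB k y hy, mul_assoc, h4] at h2
    have h3 : M y * VM G P k c y = 0 := by
      have := h2
      rwa [add_eq_left] at this
    calc VM G P k c y = (M y)⁻¹ * M y * VM G P k c y := by rw [hinv' y hy, one_mul]
      _ = (M y)⁻¹ * (M y * VM G P k c y) := by rw [mul_assoc]
      _ = 0 := by rw [h3, mul_zero]
  obtain ⟨e, he, hxe⟩ := (hUG x hx).1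
  have hO := GChart.isOpen (e := e) hU
  have hmem : G x ∈ e.target ∩ e.symm ⁻¹' U := ⟨he.mem_target hxe, by
    show e.symm (G x) ∈ U
    rw [he.symm_apply hxe]; exact hx⟩
  obtain ⟨r, hr, hball⟩ := Metric.isOpen_iff.1 hO _ hmem
  have hconst : ∀ a b, ∀ z ∈ ball (G x) r, c (e.symm z) a b = c x a b := by
    intro a b z hz
    have hd : DifferentiableOn ℂ ((fun y => c y a b) ∘ e.symm) (e.target ∩ e.symm ⁻¹' U) :=
      he.differentiableOn hU fun y hy => (hcU y hy a b).mdifferentiableWithinAt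
    have h0 : ∀ w ∈ ball (G x) r, fderiv ℂ ((fun y => c y a b) ∘ e.symm) w = 0 := by
      intro w hw
      have hwt := (hball hw).1
      have hwU : e.symm w ∈ U := (hball hw).2
      have hGw : G (e.symm w) = w := by
        rw [← he.eq _ (e.map_target hwt)]
        exact e.right_inv hwt
      have h1 : ∀ k, fderiv ℂ ((fun y => c y a b) ∘ e.symm) w (Pi.single k 1) = 0 := by
        intro k
        have h2 := congrFun (congrFun (hVc k _ hwU) a) b
        rw [VM_apply, Matrix.zero_apply] at h2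
        unfold VV at h2
        rw [pd_eq he (e.map_target hwt), hGw] at h2
        exact (mul_eq_zero.1 h2).resolve_left (hUG _ hwU).2
      refine ContinuousLinearMap.ext fun v => ?_
      rw [pi_eq_sum_univ' v, map_sum]
      simp only [map_smul, h1, smul_zero, Finset.sum_const_zero, zero_apply]
    have h2 := isOpen_ball.is_const_of_fderiv_eq_zero (isPreconnected_ball)
      (hd.mono hball) (fun w hw => h0 w hw) hz (mem_ball_self hr)
    have h3 : ((fun y => c y a b) ∘ e.symm) (G x) = c x a b := by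
      show c (e.symm (G x)) a b = c x a b
      rw [he.symm_apply hxe]
    rw [← h3]
    exact h2
  have hpre : ∀ᶠ y in 𝓝 x, G y ∈ ball (G x) r := by
    have h1 : ContinuousAt e x := e.continuousAt hxe
    have h2 : ∀ᶠ y in 𝓝 x, e y ∈ ball (G x) r := by
      apply h1.preimage_mem_nhds
      rw [he.eq x hxe]
      exact ball_mem_nhds _ hr
    filter_upwards [h2, e.open_source.mem_nhds hxe] with y hy hys
    rwa [he.eq y hys] at hy
  filter_upwards [hpre, e.open_source.mem_nhds hxe] with y hy hys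
  show c y = c x
  ext a b
  have := hconst a b (G y) hy
  rwa [he.symm_apply hys] at this

end

end Pool.Agent.Levi
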