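import Pool.Agent.Levi.GChart

/-!
# The vector fields `P ∂/∂G_k`

Part of package P9 (MP_bf64af_an), helper60.
-/

set_option autoImplicit false
set_option linter.unusedSectionVars false

open Set Filter Topology Metric
open scoped ContDiff Manifold

namespace Pool.Agent.Levi

open Pool.Agent.MEP

section matrix

variable {F : Type*} [NormedAddCommGroup F] [NormedSpace ℂ F] {d : ℕ}

theorem differentiableAt_det {M : F → Matrix (Fin d) (Fin d) ℂ} {x : F}
    (h : ∀ i j, DifferentiableAt ℂ (fun x => M x i j) x) :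
    DifferentiableAt ℂ (fun x => (M x).det) x := by
  simp only [Matrix.det_apply]
  apply DifferentiableAt.fun_sum
  intro σ _
  have h1 : DifferentiableAt ℂ (fun x => ∏ i, M x (σ i) i) x :=
    (HasFDerivAt.finsetProd (u := Finset.univ)
      (g' := fun i => fderiv ℂ (fun x => M x (σ i) i) x)
      (fun i _ => (h (σ i) i).hasFDerivAt)).differentiableAt
  have h2 : (fun y => Equiv.Perm.sign σ • ∏ i, M y (σ i) i) =
      fun y => (((Equiv.Perm.sign σ : ℤ) : ℂ)) * ∏ i, M y (σ i) i := by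
    funext y
    rw [Units.smul_def, zsmul_eq_mul]
  rw [h2]
  exact h1.const_mul _

theorem differentiableAt_adjugate {M : F → Matrix (Fin d) (Fin d) ℂ} {x : F}
    (h : ∀ i j, DifferentiableAt ℂ (fun x => M x i j) x) (i j : Fin d) :
    DifferentiableAt ℂ (fun x => (M x).adjugate i j) x := by
  simp only [Matrix.adjugate_apply]
  apply differentiableAt_det
  intro a b
  by_cases ha : a = j
  · subst ha
    simp only [Matrix.updateRow_self]
    exact differentiableAt_const _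
  · simp only [Matrix.updateRow_ne ha]
    exact h a b

theorem differentiableAt_inv {M : F → Matrix (Fin d) (Fin d) ℂ} {x : F}
    (h : ∀ i j, DifferentiableAt ℂ (fun x => M x i j) x) (hu : IsUnit (M x)) (i j : Fin d) :
    DifferentiableAt ℂ (fun x => ((M x)⁻¹ : Matrix (Fin d) (Fin d) ℂ) i j) x := by
  have hd : (M x).det ≠ 0 := by
    have := (Matrix.isUnit_iff_isUnit_det (M x)).1 hu
    exact this.ne_zero
  have h1 : (fun x => ((M x)⁻¹ : Matrix (Fin d) (Fin d) ℂ) i j) =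
      fun x => ((M x).det)⁻¹ * (M x).adjugate i j := by
    funext y
    rw [Matrix.inv_def, Matrix.smul_apply, smul_eq_mul, Ring.inverse_eq_inv']
  rw [h1]
  exact ((differentiableAt_det h).fun_inv hd).mul (differentiableAt_adjugate h i j)

end matrix

section

variable {n : ℕ} {S : Type} [TopologicalSpace S] [ChartedSpace (Fin n → ℂ) S]
  [IsManifold 𝓘(ℂ, Fin n → ℂ) ω S]

theorem mdiffAt_iff {F : Type*} [NormedAddCommGroup F] [NormedSpace ℂ F] {p x : S}
    (hx : x ∈ (chartAt (Fin n → ℂ) p).source) (h : S → F) :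
    MDifferentiableAt 𝓘(ℂ, Fin n → ℂ) 𝓘(ℂ, F) h x ↔
      DifferentiableAt ℂ (h ∘ (chartAt (Fin n → ℂ) p).symm) (chartAt (Fin n → ℂ) p x) := by
  set ψ := chartAt (Fin n → ℂ) p with hψ
  constructor
  · intro hh
    rw [← mdifferentiableAt_iff_differentiableAt]
    refine MDifferentiableAt.comp (g := h) _ ?_
      (mdifferentiableAt_atlas_symm (chart_mem_atlas _ p) (ψ.map_source hx))
    rw [ψ.left_inv hx]
    exact hh
  · intro hh
    have h1 : MDifferentiableAt 𝓘(ℂ, Fin n → ℂ) 𝓘(ℂ, F) (fun y => (h ∘ ψ.symm) (ψ y)) x :=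
      MDifferentiableAt.comp (g := h ∘ ψ.symm) x hh.mdifferentiableAt
        (mdifferentiableAt_atlas (chart_mem_atlas _ p) hx)
    refine h1.congr_of_eventuallyEq ?_
    filter_upwards [ψ.open_source.mem_nhds hx] with y hy
    show h y = h (ψ.symm (ψ y))
    rw [ψ.left_inv hy]

theorem mdiffOn_chart {F : Type*} [NormedAddCommGroup F] [NormedSpace ℂ F] (p : S) {h : S → F}
    {U : Set S} (hU : IsOpen U) (hh : MDifferentiableOn 𝓘(ℂ, Fin n → ℂ) 𝓘(ℂ, F) h U) :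
    DifferentiableOn ℂ (h ∘ (chartAt (Fin n → ℂ) p).symm)
      ((chartAt (Fin n → ℂ) p).target ∩ (chartAt (Fin n → ℂ) p).symm ⁻¹' U) := by
  rintro z ⟨hz, hzU⟩
  set ψ := chartAt (Fin n → ℂ) p with hψ
  have h1 := (mdiffAt_iff (ψ.map_target hz) h).1
    ((hh _ hzU).mdifferentiableAt (hU.mem_nhds hzU))
  rw [← hψ, ψ.right_inv hz] at h1
  exact h1.differentiableWithinAt

theorem hasG_of_jac {G : S → (Fin n → ℂ)}
    (hG : MDifferentiable 𝓘(ℂ, Fin n → ℂ) 𝓘(ℂ, Fin n → ℂ) G) {p x : S}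
    (hx : x ∈ (chartAt (Fin n → ℂ) p).source) (hj : jac G p x ≠ 0) : HasG G x := by
  set ψ := chartAt (Fin n → ℂ) p with hψ
  set F : (Fin n → ℂ) → (Fin n → ℂ) := G ∘ ψ.symm with hF
  have hFd : DifferentiableOn ℂ F ψ.target := by
    have := mdiffOn_chart p isOpen_univ (hG.mdifferentiableOn (s := univ))
    simpa using this
  have hFs : ContDiffOn ℂ ∞ F ψ.target := contDiffOn_pi_of_differentiableOn ψ.open_target hFd
  have hFc : ContinuousOn (fderiv ℂ F) ψ.target :=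
    hFs.continuousOn_fderiv_of_isOpen ψ.open_target (by simp)
  have hdc : ContinuousOn (fun z => (fderiv ℂ F z).det) ψ.target :=
    ContinuousLinearMap.continuous_det.comp_continuousOn hFc
  set O : Set (Fin n → ℂ) := ψ.target ∩ (fun z => (fderiv ℂ F z).det) ⁻¹' {0}ᶜ with hO
  have hOo : IsOpen O := hdc.isOpen_inter_preimage ψ.open_target isOpen_compl_singleton
  have hzO : ψ x ∈ O := ⟨ψ.map_source hx, hj⟩
  have hder : ∀ z ∈ O, ∃ L : (Fin n → ℂ) ≃L[ℂ] (Fin n → ℂ),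
      HasFDerivAt F (L : (Fin n → ℂ) →L[ℂ] (Fin n → ℂ)) z := by
    rintro z ⟨hz1, hz2⟩
    have hdet : (fderiv ℂ F z).det ≠ 0 := hz2
    refine ⟨(fderiv ℂ F z).toContinuousLinearEquivOfDetNeZero hdet, ?_⟩
    rw [ContinuousLinearMap.coe_toContinuousLinearEquivOfDetNeZero]
    exact ((hFd z hz1).differentiableAt (ψ.open_target.mem_nhds hz1)).hasFDerivAt
  choose! L hL using hder
  have hFa : ContDiffAt ℂ ∞ F (ψ x) := hFs.contDiffAt (ψ.open_target.mem_nhds hzO.1)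
  set h0 := hFa.toOpenPartialHomeomorph F (hL _ hzO) (by simp) with hh0
  have hx0 : ψ x ∈ h0.source := hFa.mem_toOpenPartialHomeomorph_source (hL _ hzO) (by simp)
  set h1 := h0.restrOpen O hOo with hh1
  have hcoe : ∀ z, h1 z = F z := fun z => rfl
  have hsrc : h1.source = h0.source ∩ O := rfl
  refine ⟨ψ.trans h1, ⟨?_, ?_⟩, ?_⟩
  · intro y hy
    rw [OpenPartialHomeomorph.trans_source] at hy
    show F (ψ y) = G y
    show G (ψ.symm (ψ y)) = G y
    rw [ψ.left_inv hy.1]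
  · intro z hz
    rw [OpenPartialHomeomorph.trans_target] at hz
    obtain ⟨hz1, hz2⟩ := hz
    have hm : h1.symm z ∈ h0.source ∩ O := h1.map_target hz1
    have h3 := h1.hasFDerivAt_symm hz1 (hL _ hm.2)
    have h4 : MDifferentiableAt 𝓘(ℂ, Fin n → ℂ) 𝓘(ℂ, Fin n → ℂ) h1.symm z :=
      h3.differentiableAt.mdifferentiableAt
    have h5 : MDifferentiableAt 𝓘(ℂ, Fin n → ℂ) 𝓘(ℂ, Fin n → ℂ) ψ.symm (h1.symm z) :=
      mdifferentiableAt_atlas_symm (chart_mem_atlas _ p) hz2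
    exact (MDifferentiableAt.comp (g := ψ.symm) z h5 h4).mdifferentiableWithinAt
  · rw [OpenPartialHomeomorph.trans_source]
    exact ⟨hx, hx0, hzO⟩

theorem hasG_of_isCoordinateAt {G : S → (Fin n → ℂ)}
    (hG : MDifferentiable 𝓘(ℂ, Fin n → ℂ) 𝓘(ℂ, Fin n → ℂ) G) {x : S} (h : IsCoordinateAt G x) :
    HasG G x := by
  refine hasG_of_jac hG (mem_chart_source _ x) ?_
  obtain ⟨L, hL⟩ := h
  unfold jac
  rw [← hL]
  exact (LinearEquiv.isUnit_det' L.toLinearEquiv).ne_zero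

/-- The comparison of a `G`-chart with the preferred chart at `p`. -/
theorem GChart.compare {G : S → (Fin n → ℂ)} {e : OpenPartialHomeomorph S (Fin n → ℂ)}
    (he : GChart G e) (hG : MDifferentiable 𝓘(ℂ, Fin n → ℂ) 𝓘(ℂ, Fin n → ℂ) G) {p x : S}
    (hx : x ∈ (chartAt (Fin n → ℂ) p).source) (hxe : x ∈ e.source) :
    ∃ R : (Fin n → ℂ) →L[ℂ] (Fin n → ℂ),
      (∀ v, fderiv ℂ (G ∘ (chartAt (Fin n → ℂ) p).symm) (chartAt (Fin n → ℂ) p x) (R v) = v) ∧
      ∀ h : S → ℂ, MDifferentiableAt 𝓘(ℂ, Fin n → ℂ) 𝓘(ℂ, ℂ) h x → ∀ v,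
        fderiv ℂ (h ∘ e.symm) (G x) v =
          fderiv ℂ (h ∘ (chartAt (Fin n → ℂ) p).symm) (chartAt (Fin n → ℂ) p x) (R v) := by
  set ψ := chartAt (Fin n → ℂ) p with hψ
  have hψd : MDifferentiableAt 𝓘(ℂ, Fin n → ℂ) 𝓘(ℂ, Fin n → ℂ) ψ x :=
    mdifferentiableAt_atlas (chart_mem_atlas _ p) hx
  have h1 : DifferentiableAt ℂ (ψ ∘ e.symm) (G x) := he.differentiableAt hxe hψd
  have hval : (ψ ∘ e.symm) (G x) = ψ x := by
    show ψ (e.symm (G x)) = ψ x
    rw [he.symm_apply hxe]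
  have hc : Tendsto e.symm (𝓝 (G x)) (𝓝 x) := by
    have := e.continuousAt_symm (he.mem_target hxe)
    rwa [ContinuousAt, he.symm_apply hxe] at this
  have hgen : ∀ {F : Type} [NormedAddCommGroup F] [NormedSpace ℂ F] (h : S → F),
      MDifferentiableAt 𝓘(ℂ, Fin n → ℂ) 𝓘(ℂ, F) h x → ∀ v,
        fderiv ℂ (h ∘ e.symm) (G x) v =
          fderiv ℂ (h ∘ ψ.symm) (ψ x) (fderiv ℂ (ψ ∘ e.symm) (G x) v) := by
    intro F _ _ h hh v
    have h2 : DifferentiableAt ℂ (h ∘ ψ.symm) (ψ x) := (mdiffAt_iff hx h).1 hh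
    have h3 : h ∘ e.symm =ᶠ[𝓝 (G x)] (h ∘ ψ.symm) ∘ (ψ ∘ e.symm) := by
      filter_upwards [hc (ψ.open_source.mem_nhds hx)] with z hz
      show h (e.symm z) = h (ψ.symm (ψ (e.symm z)))
      rw [ψ.left_inv hz]
    rw [h3.fderiv_eq]
    rw [← hval] at h2
    rw [fderiv_comp _ h2 h1, hval]
    rfl
  refine ⟨fderiv ℂ (ψ ∘ e.symm) (G x), ?_, fun h hh v => hgen h hh v⟩
  intro v
  rw [← hgen G (hG x) v]
  have h4 : G ∘ e.symm =ᶠ[𝓝 (G x)] id := by
    filter_upwards [e.open_target.mem_nhds (he.mem_target hxe)] with z hz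
    show G (e.symm z) = z
    rw [← he.eq _ (e.map_target hz)]
    exact e.right_inv hz
  rw [h4.fderiv_eq, fderiv_id]
  rfl

/-- The Jacobian matrix of `G` in the chart at `p`. -/
noncomputable def jmat (G : S → (Fin n → ℂ)) (p x : S) : Matrix (Fin n) (Fin n) ℂ :=
  LinearMap.toMatrix' (fderiv ℂ (G ∘ (chartAt (Fin n → ℂ) p).symm)
    (chartAt (Fin n → ℂ) p x) : (Fin n → ℂ) →ₗ[ℂ] (Fin n → ℂ))

theorem det_jmat (G : S → (Fin n → ℂ)) (p x : S) : (jmat G p x).det = jac G p x :=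
  LinearMap.det_toMatrix' _

theorem jac_ne_zero_of_hasG {G : S → (Fin n → ℂ)}
    (hG : MDifferentiable 𝓘(ℂ, Fin n → ℂ) 𝓘(ℂ, Fin n → ℂ) G) {p x : S}
    (hx : x ∈ (chartAt (Fin n → ℂ) p).source) (h : HasG G x) : jac G p x ≠ 0 := by
  obtain ⟨e, he, hxe⟩ := h
  obtain ⟨R, hR, -⟩ := he.compare hG hx hxe
  intro h0
  have h1 : LinearMap.det ((fderiv ℂ (G ∘ (chartAt (Fin n → ℂ) p).symm)
      (chartAt (Fin n → ℂ) p x) : (Fin n → ℂ) →ₗ[ℂ] (Fin n → ℂ)) ∘ₗ
      (R : (Fin n → ℂ) →ₗ[ℂ] (Fin n → ℂ))) = 1 := by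
    have : ((fderiv ℂ (G ∘ (chartAt (Fin n → ℂ) p).symm)
      (chartAt (Fin n → ℂ) p x) : (Fin n → ℂ) →ₗ[ℂ] (Fin n → ℂ)) ∘ₗ
      (R : (Fin n → ℂ) →ₗ[ℂ] (Fin n → ℂ))) = LinearMap.id := by
      apply LinearMap.ext
      intro v
      exact hR v
    rw [this, LinearMap.det_id]
  rw [LinearMap.det_comp] at h1
  unfold jac at h0
  rw [h0, zero_mul] at h1
  exact zero_ne_one h1

/-- Cramer's rule for the partial derivatives. -/
theorem jac_mul_pd {G : S → (Fin n → ℂ)}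
    (hG : MDifferentiable 𝓘(ℂ, Fin n → ℂ) 𝓘(ℂ, Fin n → ℂ) G) {p x : S}
    (hx : x ∈ (chartAt (Fin n → ℂ) p).source) (hH : HasG G x) {h : S → ℂ}
    (hh : MDifferentiableAt 𝓘(ℂ, Fin n → ℂ) 𝓘(ℂ, ℂ) h x) (k : Fin n) :
    jac G p x * pd G k h x = fderiv ℂ (h ∘ (chartAt (Fin n → ℂ) p).symm)
      (chartAt (Fin n → ℂ) p x) (fun i => (jmat G p x).adjugate i k) := by
  obtain ⟨e, he, hxe⟩ := hH
  obtain ⟨R, hR, hRh⟩ := he.compare hG hx hxe
  rw [pd_eq he hxe, hRh h hh]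
  have h1 : (jmat G p x).mulVec (R (Pi.single k 1)) = Pi.single k 1 := by
    unfold jmat
    rw [LinearMap.toMatrix'_mulVec]
    exact hR _
  have h2 : (fun i => (jmat G p x).adjugate i k) = jac G p x • R (Pi.single k 1) := by
    have h3 : (jmat G p x).adjugate.mulVec ((jmat G p x).mulVec (R (Pi.single k 1))) =
        jac G p x • R (Pi.single k 1) := by
      rw [Matrix.mulVec_mulVec, Matrix.adjugate_mul, Matrix.smul_mulVec, Matrix.one_mulVec,
        det_jmat]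
    rw [← h3, h1, Matrix.mulVec_single_one]
    rfl
  rw [h2, map_smul, smul_eq_mul]

/-- The vector field `P ∂/∂G_k`. -/
noncomputable def VV (G : S → (Fin n → ℂ)) (P : S → ℂ) (k : Fin n) (h : S → ℂ) (x : S) : ℂ :=
  P x * pd G k h x

/-- `P` vanishes to order three where the Jacobian of `G` does. -/
def Mult (G : S → (Fin n → ℂ)) (P : S → ℂ) : Prop :=
  ∀ p : S, ∃ N ∈ 𝓝 p, ∃ C : ℝ, ∀ x ∈ N, ‖P x‖ ≤ C * ‖jac G p x‖ ^ 3

theorem Mult.eq_zero {G : S → (Fin n → ℂ)} {P : S → ℂ} (hM : Mult G P)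
    (hG : MDifferentiable 𝓘(ℂ, Fin n → ℂ) 𝓘(ℂ, Fin n → ℂ) G) {x : S} (hx : ¬ HasG G x) :
    P x = 0 := by
  obtain ⟨N, hN, C, hC⟩ := hM x
  have h1 := hC x (mem_of_mem_nhds hN)
  have h2 : jac G x x = 0 := by
    by_contra hne
    exact hx (hasG_of_jac hG (mem_chart_source _ x) hne)
  rw [h2] at h1
  simpa using h1

theorem VV_congr {G : S → (Fin n → ℂ)} {P : S → ℂ} {x : S} {h h' : S → ℂ} (hh : h =ᶠ[𝓝 x] h')
    (k : Fin n) : VV G P k h x = VV G P k h' x := by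
  unfold VV
  rw [pd_congr hh]

theorem VV_congr_nhds {G : S → (Fin n → ℂ)} {P : S → ℂ} {x : S} {h h' : S → ℂ}
    (hh : h =ᶠ[𝓝 x] h') (k : Fin n) : VV G P k h =ᶠ[𝓝 x] VV G P k h' := by
  filter_upwards [eventually_eventually_nhds.2 hh] with y hy
  exact VV_congr hy k

/-- The fields `P ∂/∂G_k` preserve holomorphic functions. -/
theorem mdifferentiableOn_VV {G : S → (Fin n → ℂ)} {P : S → ℂ}
    (hG : MDifferentiable 𝓘(ℂ, Fin n → ℂ) 𝓘(ℂ, Fin n → ℂ) G)
    (hP : MDifferentiable 𝓘(ℂ, Fin n → ℂ) 𝓘(ℂ, ℂ) P) (hM : Mult G P)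
    {U : Set S} (hU : IsOpen U) {h : S → ℂ}
    (hh : MDifferentiableOn 𝓘(ℂ, Fin n → ℂ) 𝓘(ℂ, ℂ) h U) (k : Fin n) :
    MDifferentiableOn 𝓘(ℂ, Fin n → ℂ) 𝓘(ℂ, ℂ) (VV G P k h) U := by
  intro x₀ hx₀
  apply MDifferentiableAt.mdifferentiableWithinAt
  by_cases hH : HasG G x₀
  · have h1 := mdifferentiableAt_pd hG hH hU hx₀ hh k
    have hs := mem_chart_source (Fin n → ℂ) x₀
    rw [mdiffAt_iff hs] at h1 ⊢
    exact ((mdiffAt_iff hs _).1 (hP x₀)).mul h1
  · -- a zero of the Jacobian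
    have hs := mem_chart_source (Fin n → ℂ) x₀
    rw [mdiffAt_iff hs]
    set ψ := chartAt (Fin n → ℂ) x₀ with hψ
    have hj0 : jac G x₀ x₀ = 0 := by
      by_contra hne
      exact hH (hasG_of_jac hG hs hne)
    obtain ⟨N, hN, C, hC⟩ := hM x₀
    have hC0 : ∀ x ∈ N, ‖P x‖ ≤ |C| * ‖jac G x₀ x‖ ^ 3 := fun x hx =>
      (hC x hx).trans (by gcongr; exact le_abs_self C)
    set F : (Fin n → ℂ) → (Fin n → ℂ) := G ∘ ψ.symm with hF
    have hFd : DifferentiableOn ℂ F ψ.target := by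
      have := mdiffOn_chart x₀ isOpen_univ (hG.mdifferentiableOn (s := univ))
      simpa using this
    have hz₀ : ψ x₀ ∈ ψ.target := ψ.map_source hs
    -- entries of the Jacobian matrix
    have hent : ∀ i j, DifferentiableAt ℂ
        (fun z => (LinearMap.toMatrix' (fderiv ℂ F z : (Fin n → ℂ) →ₗ[ℂ] (Fin n → ℂ))) i j)
        (ψ x₀) := by
      intro i j
      have h1 : DifferentiableOn ℂ (fun z => F z i) ψ.target := fun z hz =>
        differentiableWithinAt_pi.1 (hFd z hz) i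
      have h2 := differentiableOn_fderiv_apply ψ.open_target h1 (Pi.single j 1)
      have h3 : (fun z => (LinearMap.toMatrix' (fderiv ℂ F z :
          (Fin n → ℂ) →ₗ[ℂ] (Fin n → ℂ))) i j) =ᶠ[𝓝 (ψ x₀)]
          fun z => fderiv ℂ (fun z => F z i) z (Pi.single j 1) := by
        filter_upwards [ψ.open_target.mem_nhds hz₀] with z hz
        rw [LinearMap.toMatrix'_apply]
        have h4 : DifferentiableAt ℂ F z :=
          (hFd z hz).differentiableAt (ψ.open_target.mem_nhds hz)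
        have h5 : fderiv ℂ (fun z => F z i) z = (ContinuousLinearMap.proj i).comp (fderiv ℂ F z) :=
          ((ContinuousLinearMap.proj (R := ℂ) (φ := fun _ : Fin n => ℂ) i).hasFDerivAt.comp z
            h4.hasFDerivAt).fderiv
        rw [h5]
        show (fderiv ℂ F z) (Pi.single j 1) i = (fderiv ℂ F z) (Pi.single j 1) i
        rfl
      exact ((h2 _ hz₀).differentiableAt (ψ.open_target.mem_nhds hz₀)).congr_of_eventuallyEq h3
    have hdet := differentiableAt_det hent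
    have hdetO : (fun z => (LinearMap.toMatrix' (fderiv ℂ F z :
        (Fin n → ℂ) →ₗ[ℂ] (Fin n → ℂ))).det) =O[𝓝 (ψ x₀)] fun z => z - ψ x₀ := by
      have h1 := hdet.isBigO_sub
      have h2 : (LinearMap.toMatrix' (fderiv ℂ F (ψ x₀) :
        (Fin n → ℂ) →ₗ[ℂ] (Fin n → ℂ))).det = 0 := by
        rw [LinearMap.det_toMatrix']; exact hj0
      simpa [h2] using h1
    -- the numerator
    have hhd := mdiffOn_chart x₀ hU hh
    have hUo : IsOpen (ψ.target ∩ ψ.symm ⁻¹' U) := ψ.isOpen_inter_preimage_symm hU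
    have hz₀U : ψ x₀ ∈ ψ.target ∩ ψ.symm ⁻¹' U := ⟨hz₀, by
      show ψ.symm (ψ x₀) ∈ U
      rw [ψ.left_inv hs]; exact hx₀⟩
    have hnumc : ContinuousAt (fun z => fderiv ℂ (h ∘ ψ.symm) z (fun i =>
        (LinearMap.toMatrix' (fderiv ℂ F z : (Fin n → ℂ) →ₗ[ℂ] (Fin n → ℂ))).adjugate i k))
        (ψ x₀) := by
      have h1 : ContinuousAt (fderiv ℂ (h ∘ ψ.symm)) (ψ x₀) :=
        ((contDiffOn_of_differentiableOn hUo hhd).continuousOn_fderiv_of_isOpen hUo
          (by simp)).continuousAt (hUo.mem_nhds hz₀U)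
      apply h1.clm_apply
      rw [continuousAt_pi]
      intro i
      exact (differentiableAt_adjugate hent i k).continuousAt
    have hnumO := hnumc.norm.eventually_lt_const (lt_add_one _)
    -- the estimate
    obtain ⟨c, hc⟩ := hdetO.bound
    set B := ‖fderiv ℂ (h ∘ ψ.symm) (ψ x₀) (fun i =>
        (LinearMap.toMatrix' (fderiv ℂ F (ψ x₀) : (Fin n → ℂ) →ₗ[ℂ] (Fin n → ℂ))).adjugate i k)‖
        + 1 with hB
    have hB0 : 0 ≤ B := by positivity
    have hpull : ∀ᶠ z in 𝓝 (ψ x₀), ψ.symm z ∈ N := by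
      have h1 : ContinuousAt ψ.symm (ψ x₀) := ψ.continuousAt_symm hz₀
      apply h1.preimage_mem_nhds
      rw [ψ.left_inv hs]
      exact hN
    have hO : (VV G P k h ∘ ψ.symm) =O[𝓝 (ψ x₀)] fun z => ‖z - ψ x₀‖ ^ 2 := by
      apply Asymptotics.IsBigO.of_bound (|C| * B * c ^ 2)
      filter_upwards [hnumO, hc, hpull, hUo.mem_nhds hz₀U] with z hz1 hz2 hz3 hz4
      have hzt := hz4.1
      have hxs : ψ.symm z ∈ ψ.source := ψ.map_target hzt
      have hjz : jac G x₀ (ψ.symm z) = (LinearMap.toMatrix' (fderiv ℂ F z :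
          (Fin n → ℂ) →ₗ[ℂ] (Fin n → ℂ))).det := by
        rw [LinearMap.det_toMatrix']
        unfold jac
        rw [← hψ, ψ.right_inv hzt]
      show ‖VV G P k h (ψ.symm z)‖ ≤ _
      by_cases hHz : HasG G (ψ.symm z)
      · have hjne := jac_ne_zero_of_hasG hG hxs hHz
        have h1 := jac_mul_pd hG hxs hHz
          ((hh _ hz4.2).mdifferentiableAt (hU.mem_nhds hz4.2)) k
        have hjm : jmat G x₀ (ψ.symm z) = LinearMap.toMatrix' (fderiv ℂ F z :
          (Fin n → ℂ) →ₗ[ℂ] (Fin n → ℂ)) := by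
          unfold jmat
          rw [← hψ, ψ.right_inv hzt]
        rw [← hψ, ψ.right_inv hzt, hjm] at h1
        have h2 : ‖jac G x₀ (ψ.symm z)‖ * ‖pd G k h (ψ.symm z)‖ ≤ B := by
          rw [← norm_mul, h1]
          exact hz1.le
        have h3 : ‖jac G x₀ (ψ.symm z)‖ ≤ c * ‖z - ψ x₀‖ := by
          rw [hjz]; exact hz2
        unfold VV
        rw [norm_mul]
        calc ‖P (ψ.symm z)‖ * ‖pd G k h (ψ.symm z)‖
            ≤ (|C| * ‖jac G x₀ (ψ.symm z)‖ ^ 3) * ‖pd G k h (ψ.symm z)‖ := by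
              gcongr; exact hC0 _ hz3
          _ = |C| * (‖jac G x₀ (ψ.symm z)‖ * ‖pd G k h (ψ.symm z)‖) *
                ‖jac G x₀ (ψ.symm z)‖ ^ 2 := by ring
          _ ≤ |C| * B * (c * ‖z - ψ x₀‖) ^ 2 := by gcongr
          _ = |C| * B * c ^ 2 * ‖‖z - ψ x₀‖ ^ 2‖ := by
              rw [norm_pow, norm_norm]; ring
      · unfold VV
        rw [pd_of_not hHz, mul_zero, norm_zero]
        positivity
    exact (hO.hasFDerivAt (𝕜 := ℂ) (by norm_num)).differentiableAt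

end

end Pool.Agent.Levi
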