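import Pool.Agent.Levi.Integration

/-!
# More calculus on Riemann domains (used in the proof of Hörmander's theorem)
-/

set_option autoImplicit false

open Set Filter Topology MeasureTheory
open scoped ContDiff ComplexConjugate

namespace Pool.Agent.Levi

variable {n : ℕ} {M : Type} [TopologicalSpace M] {π : M → (Fin n → ℂ)} {hπ : IsLocalHomeomorph π}

lemma dz_germ {u v : M → ℂ} {w : M} (h : u =ᶠ[𝓝 w] v) (j : Fin n) :
    dz hπ u j w = dz hπ v j w := by
  unfold dz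
  rw [rderiv_congr hπ h, rderiv_congr hπ h]

lemma dzb_germ {u v : M → ℂ} {w : M} (h : u =ᶠ[𝓝 w] v) (j : Fin n) :
    dzb hπ u j w = dzb hπ v j w := by
  unfold dzb
  rw [rderiv_congr hπ h, rderiv_congr hπ h]

lemma dz_zero_off {u : M → ℂ} {w : M} (h : w ∉ tsupport u) (j : Fin n) : dz hπ u j w = 0 := by
  have h1 : u =ᶠ[𝓝 w] fun _ => 0 := notMem_tsupport_iff_eventuallyEq.1 h
  rw [dz_germ h1, dz_const]

lemma dzb_zero_off {u : M → ℂ} {w : M} (h : w ∉ tsupport u) (j : Fin n) : dzb hπ u j w = 0 := by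
  have h1 : u =ᶠ[𝓝 w] fun _ => 0 := notMem_tsupport_iff_eventuallyEq.1 h
  rw [dzb_germ h1, dzb_const]

lemma dz_cmul {u : M → ℂ} (hu : RSmooth hπ u) (c : ℂ) (j : Fin n) (w : M) :
    dz hπ (fun x => c * u x) j w = c * dz hπ u j w := by
  rw [dz_mul (rsmooth_const hπ c) hu, dz_const]; ring

lemma dzb_cmul {u : M → ℂ} (hu : RSmooth hπ u) (c : ℂ) (j : Fin n) (w : M) :
    dzb hπ (fun x => c * u x) j w = c * dzb hπ u j w := by
  rw [dzb_mul (rsmooth_const hπ c) hu, dzb_const]; ring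

lemma IsTest.cmul {α : M → ℂ} (hα : IsTest hπ α) (c : ℂ) : IsTest hπ (fun x => c * α x) :=
  hα.mul_right (rsmooth_const hπ c)

lemma norm_dz_real {u : M → ℝ} (hu : RSmooth hπ u) (j : Fin n) (w : M) :
    ‖dz hπ (fun x => (u x : ℂ)) j w‖ = ‖dzb hπ (fun x => (u x : ℂ)) j w‖ := by
  rw [← conj_dz_ofReal hu, RCLike.norm_conj]

lemma rsmooth_exp {u : M → ℝ} (hu : RSmooth hπ u) :
    RSmooth hπ (fun x => ((Real.exp (u x) : ℝ) : ℂ)) :=
  RSmooth.ofReal (hu.comp (f := fun t : ℝ => Real.exp t) Real.contDiff_exp)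

lemma dz_exp {u : M → ℝ} (hu : RSmooth hπ u) (j : Fin n) (w : M) :
    dz hπ (fun x => ((Real.exp (u x) : ℝ) : ℂ)) j w
      = (Real.exp (u w) : ℂ) * dz hπ (fun x => (u x : ℂ)) j w := by
  have hd : HasDerivAt (fun t : ℝ => ((Real.exp t : ℝ) : ℂ)) ((Real.exp (u w) : ℝ) : ℂ) (u w) :=
    (Real.hasDerivAt_exp (u w)).ofReal_comp
  rw [dz_comp_real hu (f := fun t : ℝ => ((Real.exp t : ℝ) : ℂ)) hd.differentiableAt, hd.deriv]

lemma dzb_exp {u : M → ℝ} (hu : RSmooth hπ u) (j : Fin n) (w : M) :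
    dzb hπ (fun x => ((Real.exp (u x) : ℝ) : ℂ)) j w
      = (Real.exp (u w) : ℂ) * dzb hπ (fun x => (u x : ℂ)) j w := by
  have hd : HasDerivAt (fun t : ℝ => ((Real.exp t : ℝ) : ℂ)) ((Real.exp (u w) : ℝ) : ℂ) (u w) :=
    (Real.hasDerivAt_exp (u w)).ofReal_comp
  rw [dzb_comp_real hu (f := fun t : ℝ => ((Real.exp t : ℝ) : ℂ)) hd.differentiableAt, hd.deriv]

lemma rderiv_combo {u v : M → ℂ} (hu : RSmooth hπ u) (hv : RSmooth hπ v) (c d : ℂ)
    (a : Fin n → ℂ) (w : M) : rderiv hπ (fun x => c * (u x + d * v x)) a w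
      = c * (rderiv hπ u a w + d * rderiv hπ v a w) := by
  have h1 : rderiv hπ (fun x => d * v x) a w = d * rderiv hπ v a w := by
    rw [rderiv_mul (rsmooth_const hπ d) hv, rderiv_const]; ring
  rw [rderiv_mul (rsmooth_const hπ c) (hu.add ((rsmooth_const hπ d).mul hv)), rderiv_const,
    rderiv_add hu ((rsmooth_const hπ d).mul hv), h1]
  ring

lemma dzb_dzb_comm {u : M → ℂ} (hu : RSmooth hπ u) (j k : Fin n) (w : M) :
    dzb hπ (dzb hπ u k) j w = dzb hπ (dzb hπ u j) k w := by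
  have e : ∀ j, dzb hπ u j = fun x =>
    (1 / 2 : ℂ) * (rderiv hπ u (Pi.single j 1) x + Complex.I
      * rderiv hπ u (Pi.single j Complex.I) x) := fun j => rfl
  rw [e j, e k]
  simp only [dzb, rderiv_combo (hu.rderiv _) (hu.rderiv _)]
  rw [rderiv_rderiv_comm hu (Pi.single k 1) (Pi.single j 1),
    rderiv_rderiv_comm hu (Pi.single k 1) (Pi.single j Complex.I),
    rderiv_rderiv_comm hu (Pi.single k Complex.I) (Pi.single j 1),
    rderiv_rderiv_comm hu (Pi.single k Complex.I) (Pi.single j Complex.I)]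
  ring

/-! ### the Levi form -/

lemma levi_add {φ θ : M → ℝ} (hφ : RSmooth hπ φ) (hθ : RSmooth hπ θ) (w : M) (ξ : Fin n → ℂ) :
    levi hπ (fun x => φ x + θ x) w ξ = levi hπ φ w ξ + levi hπ θ w ξ := by
  unfold levi
  rw [← Complex.add_re, ← Finset.sum_add_distrib]
  congr 1
  apply Finset.sum_congr rfl
  intro j _
  rw [← Finset.sum_add_distrib]
  apply Finset.sum_congr rfl
  intro k _
  have e1 : (fun x => dzb hπ (fun y => ((φ y + θ y : ℝ) : ℂ)) k x)
      = fun x => dzb hπ (fun y => (φ y : ℂ)) k x + dzb hπ (fun y => (θ y : ℂ)) k x := by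
    funext x
    rw [← dzb_add hφ.ofReal hθ.ofReal]
    congr 1
    funext y
    push_cast; rfl
  rw [e1, dz_add (hφ.ofReal.dzb k) (hθ.ofReal.dzb k)]
  ring

/-- Continuity of the Levi form along a continuous vector field. -/
lemma continuous_levi {φ : M → ℝ} (hφ : RSmooth hπ φ) {f : Fin n → M → ℂ}
    (hf : ∀ j, Continuous (f j)) : Continuous fun x => levi hπ φ x (fun j => f j x) := by
  unfold levi
  refine Complex.continuous_re.comp (continuous_finsetSum _ fun j _ =>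
    continuous_finsetSum _ fun k _ => ?_)
  exact (((hφ.ofReal.dzb k).dz j).continuous.mul (hf j)).mul
    (Complex.continuous_conj.comp (hf k))

lemma levi_zero (φ : M → ℝ) (w : M) : levi hπ φ w (fun _ => 0) = 0 := by
  unfold levi; simp

end Pool.Agent.Levi
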