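import Pool.Agent.Levi.HProj

/-!
# Cutting off the closed part
-/

set_option autoImplicit false

open Set Filter Topology MeasureTheory
open scoped ContDiff ComplexConjugate ENNReal

namespace Pool.Agent.Levi

variable {n : ℕ} {M : Type} [TopologicalSpace M] {π : M → (Fin n → ℂ)}
variable [T2Space M] [SecondCountableTopology M] [MeasurableSpace M] [BorelSpace M]

omit [TopologicalSpace M] [T2Space M] [SecondCountableTopology M] [MeasurableSpace M]
  [BorelSpace M] in
lemma ew_eq (φ : M → ℝ) (x : M) : ew φ x = hw φ x * ((Real.exp (φ x) : ℝ) : ℂ) := by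
  unfold ew hw
  rw [← Complex.ofReal_mul, ← Real.exp_add]
  congr 2
  ring

omit [TopologicalSpace M] [T2Space M] [SecondCountableTopology M] [MeasurableSpace M]
  [BorelSpace M] in
lemma hw_hw_exp (φ : M → ℝ) (x : M) :
    hw φ x * hw φ x * ((Real.exp (φ x) : ℝ) : ℂ) = 1 := by
  unfold hw
  rw [← Complex.ofReal_mul, ← Real.exp_add, ← Complex.ofReal_mul, ← Real.exp_add]
  have : -(φ x) / 2 + -(φ x) / 2 + φ x = 0 := by ring
  rw [this, Real.exp_zero, Complex.ofReal_one]

/-- The weak divergence of the cut-off closed part. -/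
lemma cut_div {μ : Measure M} (hπ : IsLocalHomeomorph π) (hμ : IsFlatMeasure π μ)
    {φ : M → ℝ} (hφ : RSmooth hπ φ) {f : Fin n → M → ℂ} (hf : ∀ j, IsTest hπ (f j))
    {G : Fin n → M → ℂ} (hG : ∀ j, MemLp (G j) 2 μ)
    (hb : ∀ α, IsTest hπ α → ∑ j, ∫ x, conj (dzb hπ α j x) * hw φ x * G j x ∂μ
        = ∑ j, ∫ x, conj (dzb hπ α j x) * hw φ x * (hw φ x * f j x) ∂μ)
    {η : M → ℝ} (hη : RSmooth hπ η) {β : M → ℂ} (hβ : IsTest hπ β) :
    ∫ x, (∑ j, ((η x : ℂ) * (ew φ x * G j x)) * dz hπ β j x) ∂μ =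
      -∫ x, ((η x : ℂ) * (∑ j, (dz hπ (f j) j x - f j x * dz hπ (fun y => (φ y : ℂ)) j x))
        + ∑ j, (ew φ x * G j x) * dz hπ (fun y => (η y : ℂ)) j x
        + ∑ j, ((η x : ℂ) * (ew φ x * G j x)) * dz hπ (fun y => (φ y : ℂ)) j x) * β x ∂μ := by
  have ewc := continuous_ew hφ.continuous
  -- the test function
  set ζ : M → ℂ := fun x => (η x : ℂ) * β x with hζ
  have hζt : IsTest hπ ζ := hβ.mul_right hη.ofReal
  set τ : M → ℂ := fun x => ζ x * ((Real.exp (φ x) : ℝ) : ℂ) with hτ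
  have hτt : IsTest hπ τ := hζt.mul_left (rsmooth_exp hφ)
  have hα : IsTest hπ (fun x => conj (τ x)) := hτt.conj
  have h1 := hb _ hα
  have ec : ∀ j x, conj (dzb hπ (fun x => conj (τ x)) j x)
      = ((Real.exp (φ x) : ℝ) : ℂ) * ((η x : ℂ) * dz hπ β j x
        + β x * dz hπ (fun y => (η y : ℂ)) j x
        + ζ x * dz hπ (fun y => (φ y : ℂ)) j x) := by
    intro j x
    rw [dzb_conj hτt.smooth, Complex.conj_conj]
    simp only [hτ, hζ]
    rw [dz_mul hζt.smooth (rsmooth_exp hφ), dz_exp hφ, dz_mul hη.ofReal hβ.smooth]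
    ring
  -- left side
  have i1 : ∀ j, Integrable (fun x => ((η x : ℂ) * dz hπ β j x * ew φ x) * G j x) μ := by
    intro j
    refine integrable_mul_cc hπ hμ ?_ ?_ (hG j)
    · exact (hη.ofReal.continuous.mul (hβ.dz j).continuous).mul ewc
    · exact (hβ.dz j).compact.mul_left.mul_right
  have i2 : ∀ j, Integrable (fun x => (β x * dz hπ (fun y => (η y : ℂ)) j x * ew φ x) * G j x) μ := by
    intro j
    refine integrable_mul_cc hπ hμ ?_ ?_ (hG j)
    · exact (hβ.continuous.mul (hη.ofReal.dz j).continuous).mul ewc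
    · exact hβ.compact.mul_right.mul_right
  have i3 : ∀ j, Integrable (fun x => (ζ x * dz hπ (fun y => (φ y : ℂ)) j x * ew φ x) * G j x) μ := by
    intro j
    refine integrable_mul_cc hπ hμ ?_ ?_ (hG j)
    · exact (hζt.continuous.mul (hφ.ofReal.dz j).continuous).mul ewc
    · exact hζt.compact.mul_right.mul_right
  have hL : ∑ j, ∫ x, conj (dzb hπ (fun x => conj (τ x)) j x) * hw φ x * G j x ∂μ
      = ∑ j, (∫ x, ((η x : ℂ) * dz hπ β j x * ew φ x) * G j x ∂μ
        + ∫ x, (β x * dz hπ (fun y => (η y : ℂ)) j x * ew φ x) * G j x ∂μ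
        + ∫ x, (ζ x * dz hπ (fun y => (φ y : ℂ)) j x * ew φ x) * G j x ∂μ) := by
    apply Finset.sum_congr rfl
    intro j _
    have i12 : Integrable (fun x => ((η x : ℂ) * dz hπ β j x * ew φ x) * G j x
        + (β x * dz hπ (fun y => (η y : ℂ)) j x * ew φ x) * G j x) μ := (i1 j).add (i2 j)
    rw [← integral_add (i1 j) (i2 j), ← integral_add i12 (i3 j)]
    congr 1
    funext x
    rw [ec, ew_eq]
    ring
  -- right side
  have t1 : ∀ j, IsTest hπ (fun x => ζ x * f j x) := fun j => (hf j).mul_right hζt.smooth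
  have hR : ∑ j, ∫ x, conj (dzb hπ (fun x => conj (τ x)) j x) * hw φ x * (hw φ x * f j x) ∂μ
      = -∑ j, ∫ x, (ζ x * (dz hπ (f j) j x - f j x * dz hπ (fun y => (φ y : ℂ)) j x)) ∂μ := by
    rw [← Finset.sum_neg_distrib]
    apply Finset.sum_congr rfl
    intro j _
    have h2 := (integral_dz_eq_zero hπ hμ (t1 j) j).1
    have i4 : Integrable (fun x => dz hπ (fun x => ζ x * f j x) j x) μ :=
      ((t1 j).dz j).integrable hπ hμ
    have i5 : Integrable (fun x => ζ x * (dz hπ (f j) j x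
        - f j x * dz hπ (fun y => (φ y : ℂ)) j x)) μ :=
      (hζt.mul_left (((hf j).smooth.dz j).sub ((hf j).smooth.mul (hφ.ofReal.dz j)))).integrable
        hπ hμ
    have h3 : ∫ x, conj (dzb hπ (fun x => conj (τ x)) j x) * hw φ x * (hw φ x * f j x) ∂μ
        = ∫ x, (dz hπ (fun x => ζ x * f j x) j x
          - ζ x * (dz hπ (f j) j x - f j x * dz hπ (fun y => (φ y : ℂ)) j x)) ∂μ := by
      congr 1
      funext x
      rw [ec, dz_mul hζt.smooth (hf j).smooth]
      have e2 : dz hπ ζ j x = (η x : ℂ) * dz hπ β j x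
        + β x * dz hπ (fun y => (η y : ℂ)) j x := by
        rw [hζ, dz_mul hη.ofReal hβ.smooth]
      rw [e2]
      linear_combination (((η x : ℂ) * dz hπ β j x
        + β x * dz hπ (fun y => (η y : ℂ)) j x
        + ζ x * dz hπ (fun y => (φ y : ℂ)) j x) * f j x) * hw_hw_exp φ x
    rw [h3, integral_sub i4 i5, h2, zero_sub]
  rw [hL, hR] at h1
  -- rewrite the goal
  have g1 : ∫ x, (∑ j, ((η x : ℂ) * (ew φ x * G j x)) * dz hπ β j x) ∂μ
      = ∑ j, ∫ x, ((η x : ℂ) * dz hπ β j x * ew φ x) * G j x ∂μ := by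
    rw [← integral_finsetSum _ fun j _ => i1 j]
    congr 1
    funext x
    apply Finset.sum_congr rfl
    intro j _
    ring
  have g2 : ∫ x, ((η x : ℂ) * (∑ j, (dz hπ (f j) j x - f j x * dz hπ (fun y => (φ y : ℂ)) j x))
        + ∑ j, (ew φ x * G j x) * dz hπ (fun y => (η y : ℂ)) j x
        + ∑ j, ((η x : ℂ) * (ew φ x * G j x)) * dz hπ (fun y => (φ y : ℂ)) j x) * β x ∂μ
      = ∑ j, (∫ x, (ζ x * (dz hπ (f j) j x - f j x * dz hπ (fun y => (φ y : ℂ)) j x)) ∂μ
        + ∫ x, (β x * dz hπ (fun y => (η y : ℂ)) j x * ew φ x) * G j x ∂μ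
        + ∫ x, (ζ x * dz hπ (fun y => (φ y : ℂ)) j x * ew φ x) * G j x ∂μ) := by
    have i5 : ∀ j, Integrable (fun x => ζ x * (dz hπ (f j) j x
        - f j x * dz hπ (fun y => (φ y : ℂ)) j x)) μ := fun j =>
      (hζt.mul_left (((hf j).smooth.dz j).sub ((hf j).smooth.mul (hφ.ofReal.dz j)))).integrable
        hπ hμ
    have i52 : ∀ j, Integrable (fun x => ζ x * (dz hπ (f j) j x
        - f j x * dz hπ (fun y => (φ y : ℂ)) j x)
        + (β x * dz hπ (fun y => (η y : ℂ)) j x * ew φ x) * G j x) μ :=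
      fun j => (i5 j).add (i2 j)
    have i523 : ∀ j, Integrable (fun x => ζ x * (dz hπ (f j) j x
        - f j x * dz hπ (fun y => (φ y : ℂ)) j x)
        + (β x * dz hπ (fun y => (η y : ℂ)) j x * ew φ x) * G j x
        + (ζ x * dz hπ (fun y => (φ y : ℂ)) j x * ew φ x) * G j x) μ :=
      fun j => (i52 j).add (i3 j)
    have e1 : ∀ j, (∫ x, (ζ x * (dz hπ (f j) j x - f j x * dz hπ (fun y => (φ y : ℂ)) j x)) ∂μ
        + ∫ x, (β x * dz hπ (fun y => (η y : ℂ)) j x * ew φ x) * G j x ∂μ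
        + ∫ x, (ζ x * dz hπ (fun y => (φ y : ℂ)) j x * ew φ x) * G j x ∂μ)
        = ∫ x, (ζ x * (dz hπ (f j) j x - f j x * dz hπ (fun y => (φ y : ℂ)) j x)
          + (β x * dz hπ (fun y => (η y : ℂ)) j x * ew φ x) * G j x
          + (ζ x * dz hπ (fun y => (φ y : ℂ)) j x * ew φ x) * G j x) ∂μ := by
      intro j
      rw [← integral_add (i5 j) (i2 j), ← integral_add (i52 j) (i3 j)]
    simp only [e1]
    rw [← integral_finsetSum _ fun j _ => i523 j]
    congr 1
    funext x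
    rw [Finset.sum_add_distrib, Finset.sum_add_distrib, add_mul, add_mul, Finset.mul_sum,
      Finset.sum_mul, Finset.sum_mul, Finset.sum_mul]
    congr 1
    · congr 1
      · apply Finset.sum_congr rfl
        intro j _
        simp only [hζ]; ring
      · apply Finset.sum_congr rfl
        intro j _
        ring
    · apply Finset.sum_congr rfl
      intro j _
      simp only [hζ]; ring
  rw [g1, g2]
  rw [Finset.sum_add_distrib, Finset.sum_add_distrib] at h1 ⊢
  linear_combination h1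

/-- The weak curl of the cut-off closed part. -/
lemma cut_curl {μ : Measure M} (hπ : IsLocalHomeomorph π) (hμ : IsFlatMeasure π μ)
    {φ : M → ℝ} (hφ : RSmooth hπ φ) {G : Fin n → M → ℂ} (hG : ∀ j, MemLp (G j) 2 μ)
    (ha : ∀ α, IsTest hπ α → ∀ j k, ∫ x, (ew φ x * dzb hπ α j x * G k x
        - ew φ x * dzb hπ α k x * G j x) ∂μ = 0)
    {η : M → ℝ} (hη : RSmooth hπ η) {β : M → ℂ} (hβ : IsTest hπ β) (j k : Fin n) :
    ∫ x, (((η x : ℂ) * (ew φ x * G k x)) * dzb hπ β j x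
      - ((η x : ℂ) * (ew φ x * G j x)) * dzb hπ β k x) ∂μ =
      -∫ x, ((ew φ x * G k x) * dzb hπ (fun y => (η y : ℂ)) j x
        - (ew φ x * G j x) * dzb hπ (fun y => (η y : ℂ)) k x) * β x ∂μ := by
  have ewc := continuous_ew hφ.continuous
  have hζt : IsTest hπ (fun x => (η x : ℂ) * β x) := hβ.mul_right hη.ofReal
  have h1 := ha _ hζt j k
  have i1 : ∀ j k, Integrable (fun x => ((η x : ℂ) * dzb hπ β j x * ew φ x) * G k x) μ := by
    intro j k
    refine integrable_mul_cc hπ hμ ?_ ?_ (hG k)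
    · exact (hη.ofReal.continuous.mul (hβ.dzb j).continuous).mul ewc
    · exact (hβ.dzb j).compact.mul_left.mul_right
  have i2 : ∀ j k, Integrable
      (fun x => (β x * dzb hπ (fun y => (η y : ℂ)) j x * ew φ x) * G k x) μ := by
    intro j k
    refine integrable_mul_cc hπ hμ ?_ ?_ (hG k)
    · exact (hβ.continuous.mul (hη.ofReal.dzb j).continuous).mul ewc
    · exact hβ.compact.mul_right.mul_right
  have e1 : ∫ x, (((η x : ℂ) * (ew φ x * G k x)) * dzb hπ β j x
      - ((η x : ℂ) * (ew φ x * G j x)) * dzb hπ β k x) ∂μ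
      = ∫ x, (((η x : ℂ) * dzb hπ β j x * ew φ x) * G k x
        - ((η x : ℂ) * dzb hπ β k x * ew φ x) * G j x) ∂μ := by
    congr 1
    funext x
    ring
  have e2 : ∫ x, ((ew φ x * G k x) * dzb hπ (fun y => (η y : ℂ)) j x
        - (ew φ x * G j x) * dzb hπ (fun y => (η y : ℂ)) k x) * β x ∂μ
      = ∫ x, ((β x * dzb hπ (fun y => (η y : ℂ)) j x * ew φ x) * G k x
        - (β x * dzb hπ (fun y => (η y : ℂ)) k x * ew φ x) * G j x) ∂μ := by
    congr 1
    funext x
    ring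
  have k1 : Integrable (fun x => ((η x : ℂ) * dzb hπ β j x * ew φ x) * G k x
        - ((η x : ℂ) * dzb hπ β k x * ew φ x) * G j x) μ := (i1 j k).sub (i1 k j)
  have k2 : Integrable (fun x => (β x * dzb hπ (fun y => (η y : ℂ)) j x * ew φ x) * G k x
        - (β x * dzb hπ (fun y => (η y : ℂ)) k x * ew φ x) * G j x) μ := (i2 j k).sub (i2 k j)
  rw [e1, e2, ← add_eq_zero_iff_eq_neg, ← integral_add k1 k2, ← h1]
  congr 1
  funext x
  rw [dzb_mul hη.ofReal hβ.smooth, dzb_mul hη.ofReal hβ.smooth]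
  ring

end Pool.Agent.Levi
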