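import Mathlib

/-!
# Tools on `L²`: convergence, weights, projections, Riesz
-/

set_option autoImplicit false

open Set Filter Topology MeasureTheory
open scoped ENNReal ComplexConjugate

namespace Pool.Agent.Levi

section Conv

variable {M : Type} [MeasurableSpace M] {μ : Measure M}

lemma memLp_mul_bdd {a w : M → ℂ} {K : Set M} {R : ℝ} (ha : MemLp a 2 μ)
    (hK : ∀ x ∉ K, a x = 0) (hw : AEStronglyMeasurable w μ) (hR : ∀ x ∈ K, ‖w x‖ ≤ R) :
    MemLp (fun x => w x * a x) 2 μ := by
  refine MemLp.of_le_mul (c := R) ha (hw.mul ha.1) (ae_of_all _ fun x => ?_)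
  rw [norm_mul]
  by_cases hx : x ∈ K
  · gcongr; exact hR x hx
  · rw [hK x hx]; simp

/-- The integral of the squared norm. -/
lemma integral_norm_sq_eq {a : M → ℂ} (ha : MemLp a 2 μ) :
    ∫ x, ‖a x‖ ^ 2 ∂μ = (eLpNorm a 2 μ).toReal ^ 2 := by
  have h1 := ha.eLpNorm_eq_integral_rpow_norm two_ne_zero ENNReal.ofNat_ne_top
  rw [h1, ENNReal.toReal_ofReal (by positivity)]
  simp only [ENNReal.toReal_ofNat, Real.rpow_ofNat]
  rw [← Real.rpow_natCast, ← Real.rpow_mul (integral_nonneg fun x => by positivity)]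
  simp

lemma integrable_norm_sq {a : M → ℂ} (ha : MemLp a 2 μ) : Integrable (fun x => ‖a x‖ ^ 2) μ :=
  ha.integrable_norm_pow two_ne_zero

/-- Convergence in `L²`. -/
structure Conv (μ : Measure M) (a : ℕ → M → ℂ) (A : M → ℂ) : Prop where
  mem : ∀ m, MemLp (a m) 2 μ
  lim : MemLp A 2 μ
  tend : Tendsto (fun m => eLpNorm (a m - A) 2 μ) atTop (𝓝 0)

lemma Conv.integral {a : ℕ → M → ℂ} {A : M → ℂ} (h : Conv μ a A) :
    Tendsto (fun m => ∫ x, ‖a m x‖ ^ 2 ∂μ) atTop (𝓝 (∫ x, ‖A x‖ ^ 2 ∂μ)) := by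
  have h1 : Tendsto (fun m => (h.mem m).toLp (a m)) atTop (𝓝 (h.lim.toLp A)) := by
    rw [Lp.tendsto_Lp_iff_tendsto_eLpNorm'']
    exact h.tend
  have h2 := ((continuous_norm.tendsto _).comp h1).pow 2
  rw [integral_norm_sq_eq h.lim]
  simp only [Function.comp_apply, Lp.norm_toLp] at h2
  refine h2.congr (fun m => ?_)
  rw [integral_norm_sq_eq (h.mem m)]

lemma Conv.add {a b : ℕ → M → ℂ} {A B : M → ℂ} (ha : Conv μ a A) (hb : Conv μ b B) :
    Conv μ (fun m x => a m x + b m x) (fun x => A x + B x) := by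
  refine ⟨fun m => (ha.mem m).add (hb.mem m), ha.lim.add hb.lim, ?_⟩
  have h1 := ha.tend.add hb.tend
  rw [add_zero] at h1
  refine tendsto_of_tendsto_of_tendsto_of_le_of_le tendsto_const_nhds h1
    (fun m => zero_le) (fun m => ?_)
  have e : (fun x => a m x + b m x) - (fun x => A x + B x) = (a m - A) + (b m - B) := by
    funext x; simp only [Pi.sub_apply, Pi.add_apply]; ring
  simp only
  rw [e]
  exact eLpNorm_add_le ((ha.mem m).sub ha.lim).1 ((hb.mem m).sub hb.lim).1 one_le_two

lemma Conv.neg {a : ℕ → M → ℂ} {A : M → ℂ} (ha : Conv μ a A) :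
    Conv μ (fun m x => -a m x) (fun x => -A x) := by
  refine ⟨fun m => (ha.mem m).neg, ha.lim.neg, ?_⟩
  refine ha.tend.congr (fun m => ?_)
  have e : (fun x => -a m x) - (fun x => -A x) = -(a m - A) := by
    funext x; simp only [Pi.sub_apply, Pi.neg_apply]; ring
  rw [e, eLpNorm_neg]

lemma Conv.sub {a b : ℕ → M → ℂ} {A B : M → ℂ} (ha : Conv μ a A) (hb : Conv μ b B) :
    Conv μ (fun m x => a m x - b m x) (fun x => A x - B x) := by
  have := ha.add hb.neg
  simpa only [← sub_eq_add_neg] using this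

lemma Conv.zero : Conv μ (fun _ _ => 0) (fun _ => 0) := by
  refine ⟨fun m => MemLp.zero', MemLp.zero', ?_⟩
  have e : (fun _ : M => (0 : ℂ)) - (fun _ => 0) = fun _ => 0 := by
    funext x; simp
  simp only [e]
  simp

lemma Conv.sum {ι : Type*} {s : Finset ι} {a : ι → ℕ → M → ℂ} {A : ι → M → ℂ}
    (h : ∀ i ∈ s, Conv μ (a i) (A i)) :
    Conv μ (fun m x => ∑ i ∈ s, a i m x) (fun x => ∑ i ∈ s, A i x) := by
  classical
  induction s using Finset.induction_on with
  | empty => simpa only [Finset.sum_empty] using Conv.zero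
  | insert i s his ih =>
    simp only [Finset.sum_insert his]
    exact (h i (Finset.mem_insert_self i s)).add
      (ih fun k hk => h k (Finset.mem_insert_of_mem hk))

/-- Multiplication by a function bounded on the common support. -/
lemma Conv.mul_bdd {a : ℕ → M → ℂ} {A w : M → ℂ} {K : Set M} {R : ℝ} (h : Conv μ a A)
    (hK : ∀ m, ∀ x ∉ K, a m x = 0) (hK' : ∀ x ∉ K, A x = 0) (hw : AEStronglyMeasurable w μ)
    (hR : ∀ x ∈ K, ‖w x‖ ≤ R) :
    Conv μ (fun m x => w x * a m x) (fun x => w x * A x) := by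
  refine ⟨fun m => memLp_mul_bdd (h.mem m) (hK m) hw hR, memLp_mul_bdd h.lim hK' hw hR, ?_⟩
  have h1 : Tendsto (fun m => ENNReal.ofReal R * eLpNorm (a m - A) 2 μ) atTop (𝓝 0) := by
    have := ENNReal.Tendsto.const_mul (a := ENNReal.ofReal R) h.tend
      (Or.inr ENNReal.ofReal_ne_top)
    rwa [mul_zero] at this
  refine tendsto_of_tendsto_of_tendsto_of_le_of_le tendsto_const_nhds h1
    (fun m => zero_le) (fun m => ?_)
  apply eLpNorm_le_mul_eLpNorm_of_ae_le_mul
  refine ae_of_all _ fun x => ?_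
  simp only [Pi.sub_apply]
  rw [← mul_sub, norm_mul]
  by_cases hx : x ∈ K
  · gcongr; exact hR x hx
  · rw [hK m x hx, hK' x hx]; simp

end Conv

section Hilbert

open InnerProductSpace

/-- Decomposition with respect to the orthogonal complement of a set `W`. -/
lemma exists_proj {H : Type*} [NormedAddCommGroup H] [InnerProductSpace ℂ H] [CompleteSpace H]
    (W : Set H) (F : H) : ∃ G : H, (∀ w ∈ W, inner ℂ w G = 0) ∧
      ∀ E : H, (∀ w ∈ W, inner ℂ w E = 0) → inner ℂ E F = inner ℂ E G := by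
  set N : Submodule ℂ H := (Submodule.span ℂ W)ᗮ with hN
  have hmem : ∀ E : H, (∀ w ∈ W, inner ℂ w E = 0) → E ∈ N := by
    intro E hE
    rw [hN, Submodule.mem_orthogonal]
    intro u hu
    induction hu using Submodule.span_induction with
    | mem x hx => exact hE x hx
    | zero => exact inner_zero_left _
    | add x y _ _ hx hy => rw [inner_add_left, hx, hy, add_zero]
    | smul a x _ hx => rw [inner_smul_left, hx, mul_zero]
  have hcl : IsClosed (N : Set H) := Submodule.isClosed_orthogonal _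
  have : CompleteSpace N := hcl.completeSpace_coe
  refine ⟨(N.orthogonalProjectionOnto F : H), ?_, ?_⟩
  · intro w hw
    have h1 : (N.orthogonalProjectionOnto F : H) ∈ N := Subtype.coe_prop _
    exact (Submodule.mem_orthogonal _ _).1 h1 w (Submodule.subset_span hw)
  · intro E hE
    have h1 : F - (N.orthogonalProjectionOnto F : H) ∈ Nᗮ :=
      Submodule.sub_starProjection_mem_orthogonal F
    have h2 := Submodule.inner_right_of_mem_orthogonal (hmem E hE) h1
    rw [inner_sub_right, sub_eq_zero] at h2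
    exact h2

/-- Riesz representation on the range of a linear map. -/
lemma exists_riesz {V H : Type*} [AddCommGroup V] [Module ℂ V] [NormedAddCommGroup H]
    [InnerProductSpace ℂ H] [CompleteSpace H] (A : V →ₗ[ℂ] H) (l : V →ₗ[ℂ] ℂ) {C : ℝ}
    (hC : 0 ≤ C) (h : ∀ v, ‖l v‖ ≤ C * ‖A v‖) :
    ∃ U : H, ‖U‖ ≤ C ∧ ∀ v, l v = inner ℂ U (A v) := by
  have hker : LinearMap.ker A ≤ LinearMap.ker l := by
    intro v hv
    rw [LinearMap.mem_ker] at hv ⊢
    have := h v
    rw [hv, norm_zero, mul_zero] at this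
    exact norm_le_zero_iff.1 this
  set p : Submodule ℂ H := LinearMap.range A with hp
  set g : p →ₗ[ℂ] ℂ := ((LinearMap.ker A).liftQ l hker).comp
    (A.quotKerEquivRange.symm : p →ₗ[ℂ] _) with hg
  have hgA : ∀ v, g ⟨A v, LinearMap.mem_range_self A v⟩ = l v := by
    intro v
    have h1 : A.quotKerEquivRange.symm ⟨A v, LinearMap.mem_range_self A v⟩
        = Submodule.Quotient.mk v := by
      rw [LinearEquiv.symm_apply_eq]
      rfl
    change (LinearMap.ker A).liftQ l hker (A.quotKerEquivRange.symm _) = l v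
    rw [h1]
    rfl
  have hbound : ∀ x : p, ‖g x‖ ≤ C * ‖x‖ := by
    rintro ⟨x, v, rfl⟩
    rw [hgA]
    exact h v
  obtain ⟨G, hG1, hG2⟩ := exists_extension_norm_eq p (g.mkContinuous C hbound)
  refine ⟨(toDual ℂ H).symm G, ?_, fun v => ?_⟩
  · rw [LinearIsometryEquiv.norm_map, hG2]
    exact LinearMap.mkContinuous_norm_le _ hC _
  · rw [toDual_symm_apply]
    have h1 := hG1 ⟨A v, LinearMap.mem_range_self A v⟩
    rw [h1]
    exact (hgA v).symm

end Hilbert

end Pool.Agent.Levi
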