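import Pool.Agent.Levi.RegSheet2

/-!
# Friedrichs regularisation on a Riemann domain
-/

set_option autoImplicit false

open Set Filter Topology MeasureTheory Metric
open scoped ContDiff ENNReal Manifold

namespace Pool.Agent.Levi

variable {n : ℕ} {M : Type} [TopologicalSpace M] {π : M → (Fin n → ℂ)}
variable [MeasurableSpace M] [BorelSpace M]

theorem memLp_test_mul {μ : Measure M} {hπ : IsLocalHomeomorph π} {α u : M → ℂ}
    (hα : IsTest hπ α) (hu : MemLp u 2 μ) : MemLp (fun x => α x * u x) 2 μ := by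
  obtain ⟨C, hC⟩ := hα.compact.exists_bound_of_continuous hα.continuous
  refine hu.of_le_mul (c := C) (hα.continuous.aestronglyMeasurable.mul hu.1)
    (ae_of_all _ fun x => ?_)
  rw [norm_mul]
  exact mul_le_mul_of_nonneg_right (hC x) (norm_nonneg _)

omit [TopologicalSpace M] [BorelSpace M] in
/-- `L²` convergence implies convergence of integrals against `L²` functions -/
theorem tendsto_integral_mul {μ : Measure M} {F : ℕ → M → ℂ} {f α : M → ℂ}
    (hF : ∀ m, MemLp (F m) 2 μ) (hf : MemLp f 2 μ) (hα : MemLp α 2 μ)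
    (h : Tendsto (fun m => eLpNorm (F m - f) 2 μ) atTop (𝓝 0)) :
    Tendsto (fun m => ∫ x, F m x * α x ∂μ) atTop (𝓝 (∫ x, f x * α x ∂μ)) := by
  apply tendsto_integral_of_L1' (fun x => f x * α x) (hf.1.mul hα.1)
    (Eventually.of_forall fun m => (hF m).integrable_mul hα)
  have h1 : Tendsto (fun m => eLpNorm (F m - f) 2 μ * eLpNorm α 2 μ) atTop (𝓝 0) := by
    have := ENNReal.Tendsto.mul_const h (b := eLpNorm α 2 μ) (Or.inr hα.2.ne)
    rwa [zero_mul] at this
  refine tendsto_of_tendsto_of_tendsto_of_le_of_le tendsto_const_nhds h1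
    (fun _ => zero_le) (fun m => ?_)
  have h2 : ((fun x => F m x * α x) - fun x => f x * α x) = (F m - f) • α := by
    funext x
    simp [sub_mul]
  change eLpNorm ((fun x => F m x * α x) - fun x => f x * α x) 1 μ ≤ _
  rw [h2]
  exact eLpNorm_smul_le_mul_eLpNorm hα.1 ((hF m).1.sub hf.1)

omit [TopologicalSpace M] [BorelSpace M] in
theorem tendsto_integral_mul' {μ : Measure M} {F : ℕ → M → ℂ} {f α : M → ℂ}
    (hF : ∀ m, MemLp (F m) 2 μ) (hf : MemLp f 2 μ) (hα : MemLp α 2 μ)
    (h : Tendsto (fun m => eLpNorm (fun x => F m x - f x) 2 μ) atTop (𝓝 0)) :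
    Tendsto (fun m => ∫ x, F m x * α x ∂μ) atTop (𝓝 (∫ x, f x * α x ∂μ)) :=
  tendsto_integral_mul hF hf hα h

section
variable [T2Space M] [SecondCountableTopology M]

/-- the fundamental lemma of the calculus of variations -/
theorem ae_eq_zero_of_test {μ : Measure M} (hπ : IsLocalHomeomorph π) (hμ : IsFlatMeasure π μ)
    {u : M → ℂ} (hu : MemLp u 2 μ) (h : ∀ α, IsTest hπ α → ∫ x, u x * α x ∂μ = 0) :
    u =ᵐ[μ] 0 := by
  apply measure_null_of_locally_null
  intro w _
  set s := hπ.localInverseAt w with hs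
  have hto : IsOpen s.target := s.open_target
  have hso : IsOpen s.source := s.open_source
  have hloc : LocallyIntegrable (chartExt hπ w u) volume :=
    (memLp_chartExt hπ hμ w hu).locallyIntegrable (by norm_num)
  have hae : ∀ᵐ z, z ∈ s.source → chartExt hπ w u z = 0 := by
    apply IsOpen.ae_eq_zero_of_integral_contDiff_smul_eq_zero hso (hloc.locallyIntegrableOn _)
    intro g hg hgc hgs
    have h0 : ∀ z, z ∉ tsupport g → (g z : ℂ) = 0 := fun z hz => by
      rw [image_eq_zero_of_notMem_tsupport hz, Complex.ofReal_zero]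
    have hgC : ContDiff ℝ ∞ (fun z => (g z : ℂ)) := Complex.ofRealCLM.contDiff.comp hg
    have h1 := h _ (isTest_extz hπ hgC hgc hgs h0)
    rw [integral_mul_extz' hπ hμ w hu.1 hgC.continuous] at h1
    rw [← h1]
    refine integral_congr_ae (ae_of_all _ fun z => ?_)
    simp [mul_comm]
  have hae2 : ∀ᵐ z ∂(volume : Measure (Fin n → ℂ)).restrict s.source, chartExt hπ w u z = 0 := by
    filter_upwards [ae_restrict_of_ae hae, ae_restrict_mem hso.measurableSet] with z h1 h2
    exact h1 h2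
  rw [← map_pi_target hπ hμ] at hae2
  have h2 := ae_of_ae_map hπ.continuous.measurable.aemeasurable hae2
  have h3 : ∀ᵐ x ∂(μ.restrict s.target), u x = 0 := by
    filter_upwards [h2, ae_restrict_mem hto.measurableSet] with x hx hxt
    rwa [chartExt_of_mem hπ w u (pi_mem hπ hxt), inv_apply hπ hxt] at hx
  have h4 := ae_iff.1 h3
  rw [Measure.restrict_apply' hto.measurableSet] at h4
  refine ⟨{x | ¬u x = 0} ∩ s.target, inter_mem_nhdsWithin _
    (hto.mem_nhds hπ.self_mem_localInverseAt_target), h4⟩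

end

/-- integration by parts -/
theorem integral_mul_dz {μ : Measure M} [T2Space M] [SecondCountableTopology M]
    (hπ : IsLocalHomeomorph π) (hμ : IsFlatMeasure π μ)
    {F α : M → ℂ} (hF : IsTest hπ F) (hα : IsTest hπ α) (j : Fin n) :
    ∫ x, F x * dz hπ α j x ∂μ = -∫ x, dz hπ F j x * α x ∂μ := by
  have h1 := (integral_dz_eq_zero hπ hμ (hF.mul_left hα.smooth) j).1
  simp only [dz_mul hF.smooth hα.smooth] at h1
  have i1 : Integrable (fun x => F x * dz hπ α j x) μ :=
    (IsTest.memLp hμ hF).integrable_mul (IsTest.memLp hμ (hα.dz j))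
  have i2 : Integrable (fun x => α x * dz hπ F j x) μ :=
    (IsTest.memLp hμ hα).integrable_mul (IsTest.memLp hμ (hF.dz j))
  rw [integral_add i1 i2] at h1
  have h2 : ∫ x, dz hπ F j x * α x ∂μ = ∫ x, α x * dz hπ F j x ∂μ := by
    simp only [mul_comm]
  rw [h2]
  linear_combination h1

theorem integral_mul_dzb {μ : Measure M} [T2Space M] [SecondCountableTopology M]
    (hπ : IsLocalHomeomorph π) (hμ : IsFlatMeasure π μ)
    {F α : M → ℂ} (hF : IsTest hπ F) (hα : IsTest hπ α) (j : Fin n) :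
    ∫ x, F x * dzb hπ α j x ∂μ = -∫ x, dzb hπ F j x * α x ∂μ := by
  have h1 := (integral_dz_eq_zero hπ hμ (hF.mul_left hα.smooth) j).2
  simp only [dzb_mul hF.smooth hα.smooth] at h1
  have i1 : Integrable (fun x => F x * dzb hπ α j x) μ :=
    (IsTest.memLp hμ hF).integrable_mul (IsTest.memLp hμ (hα.dzb j))
  have i2 : Integrable (fun x => α x * dzb hπ F j x) μ :=
    (IsTest.memLp hμ hα).integrable_mul (IsTest.memLp hμ (hF.dzb j))
  rw [integral_add i1 i2] at h1
  have h2 : ∫ x, dzb hπ F j x * α x ∂μ = ∫ x, α x * dzb hπ F j x ∂μ := by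
    simp only [mul_comm]
  rw [h2]
  linear_combination h1

/-! ### closure properties of `Reg` -/

omit [BorelSpace M] in
theorem Reg.zero (hπ : IsLocalHomeomorph π) (μ : Measure M) :
    Reg hπ μ (fun _ _ => 0) := by
  refine ⟨∅, isCompact_empty, fun _ _ _ => 0, fun _ _ => isTest_zero hπ, fun _ _ _ _ => rfl,
    ?_, ⟨0, MemLp.zero, ?_⟩, fun j k => ⟨0, MemLp.zero, ?_⟩⟩
  · intro j
    have : ((fun _ => 0 : M → ℂ) - fun _ => 0) = 0 := by simp
    simp only [this, eLpNorm_zero]
    exact tendsto_const_nhds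
  · have : (fun x => (∑ j, dz hπ (fun _ : M => (0 : ℂ)) j x) - (0 : M → ℂ) x) = 0 := by
      funext x; simp [dz_const]
    simp only [this, eLpNorm_zero]
    exact tendsto_const_nhds
  · have : (fun x => dzb hπ (fun _ : M => (0 : ℂ)) j x - dzb hπ (fun _ : M => (0 : ℂ)) k x -
        (0 : M → ℂ) x) = 0 := by
      funext x; simp [dzb_const]
    simp only [this, eLpNorm_zero]
    exact tendsto_const_nhds

omit [TopologicalSpace M] [BorelSpace M] in
theorem tendsto_eLpNorm_add {μ : Measure M} {A B : ℕ → M → ℂ}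
    (hA : ∀ m, AEStronglyMeasurable (A m) μ) (hB : ∀ m, AEStronglyMeasurable (B m) μ)
    (h1 : Tendsto (fun m => eLpNorm (A m) 2 μ) atTop (𝓝 0))
    (h2 : Tendsto (fun m => eLpNorm (B m) 2 μ) atTop (𝓝 0)) :
    Tendsto (fun m => eLpNorm (A m + B m) 2 μ) atTop (𝓝 0) := by
  have h3 := h1.add h2
  rw [add_zero] at h3
  exact tendsto_of_tendsto_of_tendsto_of_le_of_le tendsto_const_nhds h3
    (fun _ => zero_le) (fun m => eLpNorm_add_le (hA m) (hB m) (by norm_num))

theorem Reg.add {hπ : IsLocalHomeomorph π} {μ : Measure M} (hμ : IsFlatMeasure π μ)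
    {f f' : Fin n → M → ℂ}
    (hf : ∀ j, MemLp (f j) 2 μ) (hf' : ∀ j, MemLp (f' j) 2 μ) (h : Reg hπ μ f)
    (h' : Reg hπ μ f') : Reg hπ μ (fun j x => f j x + f' j x) := by
  obtain ⟨K, hK, F, hF1, hF2, hF3, ⟨w, hw, hF4⟩, hF5⟩ := h
  obtain ⟨K', hK', F', hF1', hF2', hF3', ⟨w', hw', hF4'⟩, hF5'⟩ := h'
  refine ⟨K ∪ K', hK.union hK', fun m j x => F m j x + F' m j x,
    fun m j => (hF1 m j).add (hF1' m j), ?_, ?_, ⟨fun x => w x + w' x, hw.add hw', ?_⟩, ?_⟩
  · intro m j x hx
    rw [mem_union, not_or] at hx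
    show F m j x + F' m j x = 0
    rw [hF2 m j x hx.1, hF2' m j x hx.2, add_zero]
  · intro j
    have := tendsto_eLpNorm_add (μ := μ) (A := fun m => F m j - f j) (B := fun m => F' m j - f' j)
      (fun m => (IsTest.memLp hμ (hF1 m j)).1.sub (hf j).1)
      (fun m => (IsTest.memLp hμ (hF1' m j)).1.sub (hf' j).1) (hF3 j) (hF3' j)
    refine this.congr (fun m => ?_)
    congr 1
    funext x
    simp only [Pi.add_apply, Pi.sub_apply]
    ring
  · have hm : ∀ m, AEStronglyMeasurable (fun x => (∑ j, dz hπ (F m j) j x) - w x) μ := fun m =>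
      (Finset.aestronglyMeasurable_fun_sum _ fun j _ =>
        (IsTest.memLp hμ ((hF1 m j).dz j)).1).sub hw.1
    have hm' : ∀ m, AEStronglyMeasurable (fun x => (∑ j, dz hπ (F' m j) j x) - w' x) μ := fun m =>
      (Finset.aestronglyMeasurable_fun_sum _ fun j _ =>
        (IsTest.memLp hμ ((hF1' m j).dz j)).1).sub hw'.1
    refine (tendsto_eLpNorm_add hm hm' hF4 hF4').congr (fun m => ?_)
    congr 1
    funext x
    simp only [Pi.add_apply, dz_add (hF1 m _).smooth (hF1' m _).smooth, Finset.sum_add_distrib]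
    ring
  · intro j k
    obtain ⟨u, hu, h1⟩ := hF5 j k
    obtain ⟨u', hu', h1'⟩ := hF5' j k
    refine ⟨fun x => u x + u' x, hu.add hu', ?_⟩
    have hm : ∀ m, AEStronglyMeasurable
        (fun x => dzb hπ (F m k) j x - dzb hπ (F m j) k x - u x) μ := fun m =>
      ((IsTest.memLp hμ ((hF1 m k).dzb j)).1.sub (IsTest.memLp hμ ((hF1 m j).dzb k)).1).sub hu.1
    have hm' : ∀ m, AEStronglyMeasurable
        (fun x => dzb hπ (F' m k) j x - dzb hπ (F' m j) k x - u' x) μ := fun m =>
      ((IsTest.memLp hμ ((hF1' m k).dzb j)).1.sub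
        (IsTest.memLp hμ ((hF1' m j).dzb k)).1).sub hu'.1
    refine (tendsto_eLpNorm_add hm hm' h1 h1').congr (fun m => ?_)
    congr 1
    funext x
    simp only [Pi.add_apply, dzb_add (hF1 m _).smooth (hF1' m _).smooth]
    ring

theorem Reg.sum {hπ : IsLocalHomeomorph π} {μ : Measure M} (hμ : IsFlatMeasure π μ)
    {ι : Type} {t : Finset ι} {f : ι → Fin n → M → ℂ}
    (hf : ∀ i ∈ t, ∀ j, MemLp (f i j) 2 μ) (h : ∀ i ∈ t, Reg hπ μ (f i)) :
    Reg hπ μ (fun j x => ∑ i ∈ t, f i j x) := by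
  classical
  induction t using Finset.induction_on with
  | empty => simpa using Reg.zero hπ μ
  | insert a s ha ih =>
    have e : (fun (j : Fin n) (x : M) => ∑ i ∈ insert a s, f i j x) =
        fun j x => f a j x + ∑ i ∈ s, f i j x := by
      funext j x
      rw [Finset.sum_insert ha]
    rw [e]
    refine Reg.add hμ (hf a (Finset.mem_insert_self a s)) (fun j => ?_)
      (h a (Finset.mem_insert_self a s))
      (ih (fun i hi => hf i (Finset.mem_insert_of_mem hi))
        (fun i hi => h i (Finset.mem_insert_of_mem hi)))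
    exact memLp_finsetSum _ (fun i hi => hf i (Finset.mem_insert_of_mem hi) j)

/-! ### localisation -/

section loc

variable [T2Space M] [SecondCountableTopology M]
variable {μ : Measure M} {hπ : IsLocalHomeomorph π} (hμ : IsFlatMeasure π μ)
  {f : Fin n → M → ℂ} (hf : ∀ j, MemLp (f j) 2 μ) {ρ : M → ℂ} (hρ : IsTest hπ ρ)

include hf hρ in
omit [T2Space M] [SecondCountableTopology M] in
theorem memLp_loc_div {v : M → ℂ} (hv : MemLp v 2 μ) :
    MemLp (fun x => ρ x * v x + ∑ j, dz hπ ρ j x * f j x) 2 μ :=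
  (memLp_test_mul hρ hv).add
    (memLp_finsetSum _ fun j _ => memLp_test_mul (hρ.dz j) (hf j))

include hf hρ in
omit [T2Space M] [SecondCountableTopology M] in
theorem memLp_loc_curl {g : M → ℂ} (hg : MemLp g 2 μ) (j k : Fin n) :
    MemLp (fun x => ρ x * g x + (dzb hπ ρ j x * f k x - dzb hπ ρ k x * f j x)) 2 μ :=
  (memLp_test_mul hρ hg).add
    ((memLp_test_mul (hρ.dzb j) (hf k)).sub (memLp_test_mul (hρ.dzb k) (hf j)))

include hμ hf hρ in
omit [T2Space M] [SecondCountableTopology M] in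
theorem loc_div {v : M → ℂ} (hv : MemLp v 2 μ)
    (hdiv : ∀ α, IsTest hπ α → ∫ x, (∑ j, f j x * dz hπ α j x) ∂μ = -∫ x, v x * α x ∂μ)
    {α : M → ℂ} (hα : IsTest hπ α) :
    ∫ x, (∑ j, (ρ x * f j x) * dz hπ α j x) ∂μ =
      -∫ x, (ρ x * v x + ∑ j, dz hπ ρ j x * f j x) * α x ∂μ := by
  have hρα : IsTest hπ (fun x => ρ x * α x) := hρ.mul_left hα.smooth
  have h1 := hdiv _ hρα
  simp only [dz_mul hρ.smooth hα.smooth] at h1
  have i1 : Integrable (fun x => ∑ j, (ρ x * f j x) * dz hπ α j x) μ :=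
    integrable_finsetSum _ fun j _ =>
      (memLp_test_mul hρ (hf j)).integrable_mul (IsTest.memLp hμ (hα.dz j))
  have i2 : Integrable (fun x => (∑ j, dz hπ ρ j x * f j x) * α x) μ := by
    have : MemLp (fun x => ∑ j, dz hπ ρ j x * f j x) 2 μ :=
      memLp_finsetSum _ fun j _ => memLp_test_mul (hρ.dz j) (hf j)
    exact this.integrable_mul (IsTest.memLp hμ hα)
  have i3 : Integrable (fun x => ρ x * v x * α x) μ :=
    (memLp_test_mul hρ hv).integrable_mul (IsTest.memLp hμ hα)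
  have e1 : ∀ x, (∑ j, f j x * (ρ x * dz hπ α j x + α x * dz hπ ρ j x)) =
      (∑ j, (ρ x * f j x) * dz hπ α j x) + (∑ j, dz hπ ρ j x * f j x) * α x := by
    intro x
    rw [Finset.sum_mul, ← Finset.sum_add_distrib]
    refine Finset.sum_congr rfl fun j _ => ?_
    ring
  simp only [e1] at h1
  rw [integral_add i1 i2] at h1
  have e2 : ∀ x, (ρ x * v x + ∑ j, dz hπ ρ j x * f j x) * α x =
      ρ x * v x * α x + (∑ j, dz hπ ρ j x * f j x) * α x := fun x => by ring
  have e3 : ∫ x, v x * (ρ x * α x) ∂μ = ∫ x, ρ x * v x * α x ∂μ := by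
    refine integral_congr_ae (ae_of_all _ fun x => ?_)
    simp only
    ring
  simp only [e2]
  rw [integral_add i3 i2]
  rw [e3] at h1
  linear_combination h1

include hμ hf hρ in
omit [T2Space M] [SecondCountableTopology M] in
theorem loc_curl {g : M → ℂ} (hg : MemLp g 2 μ) (j k : Fin n)
    (hcurl : ∀ α, IsTest hπ α →
      ∫ x, (f k x * dzb hπ α j x - f j x * dzb hπ α k x) ∂μ = -∫ x, g x * α x ∂μ)
    {α : M → ℂ} (hα : IsTest hπ α) :
    ∫ x, ((ρ x * f k x) * dzb hπ α j x - (ρ x * f j x) * dzb hπ α k x) ∂μ =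
      -∫ x, (ρ x * g x + (dzb hπ ρ j x * f k x - dzb hπ ρ k x * f j x)) * α x ∂μ := by
  have hρα : IsTest hπ (fun x => ρ x * α x) := hρ.mul_left hα.smooth
  have h1 := hcurl _ hρα
  simp only [dzb_mul hρ.smooth hα.smooth] at h1
  have i1 : Integrable (fun x => (ρ x * f k x) * dzb hπ α j x - (ρ x * f j x) * dzb hπ α k x) μ :=
    ((memLp_test_mul hρ (hf k)).integrable_mul (IsTest.memLp hμ (hα.dzb j))).sub
      ((memLp_test_mul hρ (hf j)).integrable_mul (IsTest.memLp hμ (hα.dzb k)))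
  have i2 : Integrable (fun x => (dzb hπ ρ j x * f k x - dzb hπ ρ k x * f j x) * α x) μ := by
    have : MemLp (fun x => dzb hπ ρ j x * f k x - dzb hπ ρ k x * f j x) 2 μ :=
      (memLp_test_mul (hρ.dzb j) (hf k)).sub (memLp_test_mul (hρ.dzb k) (hf j))
    exact this.integrable_mul (IsTest.memLp hμ hα)
  have i3 : Integrable (fun x => ρ x * g x * α x) μ :=
    (memLp_test_mul hρ hg).integrable_mul (IsTest.memLp hμ hα)
  have e1 : ∀ x, f k x * (ρ x * dzb hπ α j x + α x * dzb hπ ρ j x) -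
        f j x * (ρ x * dzb hπ α k x + α x * dzb hπ ρ k x) =
      ((ρ x * f k x) * dzb hπ α j x - (ρ x * f j x) * dzb hπ α k x) +
        (dzb hπ ρ j x * f k x - dzb hπ ρ k x * f j x) * α x := by
    intro x
    ring
  simp only [e1] at h1
  rw [integral_add i1 i2] at h1
  have e2 : ∀ x, (ρ x * g x + (dzb hπ ρ j x * f k x - dzb hπ ρ k x * f j x)) * α x =
      ρ x * g x * α x + (dzb hπ ρ j x * f k x - dzb hπ ρ k x * f j x) * α x := fun x => by ring
  have e3 : ∫ x, g x * (ρ x * α x) ∂μ = ∫ x, ρ x * g x * α x ∂μ := by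
    refine integral_congr_ae (ae_of_all _ fun x => ?_)
    simp only
    ring
  simp only [e2]
  rw [integral_add i3 i2]
  rw [e3] at h1
  linear_combination h1

end loc

variable [T2Space M] [SecondCountableTopology M]

/-- (L2) Friedrichs: compactly supported `L²` forms whose weak divergence and weak `∂̄` are in `L²`
are limits of test forms in the graph norm. -/
theorem exists_regularization {μ : Measure M} (hπ : IsLocalHomeomorph π)
    (hμ : IsFlatMeasure π μ) {K : Set M} (hK : IsCompact K) {f : Fin n → M → ℂ}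
    (hfK : ∀ j, ∀ x ∉ K, f j x = 0) (hf : ∀ j, MemLp (f j) 2 μ) {v : M → ℂ} (hv : MemLp v 2 μ)
    {g : Fin n → Fin n → M → ℂ} (hg : ∀ j k, MemLp (g j k) 2 μ)
    (hdiv : ∀ α, IsTest hπ α → ∫ x, (∑ j, f j x * dz hπ α j x) ∂μ = -∫ x, v x * α x ∂μ)
    (hcurl : ∀ α, IsTest hπ α → ∀ j k,
      ∫ x, (f k x * dzb hπ α j x - f j x * dzb hπ α k x) ∂μ = -∫ x, g j k x * α x ∂μ) :
    ∃ K' : Set M, IsCompact K' ∧ ∃ F : ℕ → Fin n → M → ℂ,
      (∀ m j, IsTest hπ (F m j)) ∧ (∀ m j, ∀ x ∉ K', F m j x = 0) ∧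
      (∀ j, Tendsto (fun m => eLpNorm (F m j - f j) 2 μ) atTop (𝓝 0)) ∧
      Tendsto (fun m => eLpNorm (fun x => (∑ j, dz hπ (F m j) j x) - v x) 2 μ) atTop (𝓝 0) ∧
      ∀ j k, Tendsto (fun m => eLpNorm
        (fun x => dzb hπ (F m k) j x - dzb hπ (F m j) k x - g j k x) 2 μ) atTop (𝓝 0) := by
  classical
  obtain ⟨t, ρ, htK, hρ, hsum⟩ := exists_partition hπ hK (fun _ => univ) (fun _ _ => univ_mem)
  have hρt : ∀ x ∈ t, IsTest hπ (fun y => (ρ x y : ℂ)) := fun x hx =>
    ⟨(hρ x hx).1.ofReal, (hρ x hx).2.1.comp_left Complex.ofReal_zero⟩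
  have hreg : ∀ x ∈ t, Reg hπ μ (fun j y => (ρ x y : ℂ) * f j y) := by
    intro x hx
    refine reg_sheet hπ hμ (w0 := x) (K := K ∩ tsupport (ρ x)) (hK.inter_right
      (isClosed_tsupport _)) (fun y hy => ((hρ x hx).2.2.1 hy.2).2) ?_
      (fun j => memLp_test_mul (hρt x hx) (hf j)) (memLp_loc_div hf (hρt x hx) hv)
      (fun j k => memLp_loc_curl hf (hρt x hx) (hg j k) j k)
      (fun α hα => loc_div hμ hf (hρt x hx) hv hdiv hα)
      (fun α hα j k => loc_curl hμ hf (hρt x hx) (hg j k) j k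
        (fun α hα => hcurl α hα j k) hα)
    intro j y hy
    by_cases h : y ∈ K
    · have h1 : ρ x y = 0 := image_eq_zero_of_notMem_tsupport fun h2 => hy ⟨h, h2⟩
      simp [h1]
    · simp [hfK j y h]
  have h0 := Reg.sum hμ (t := t) (f := fun x j y => (ρ x y : ℂ) * f j y)
    (fun x hx j => memLp_test_mul (hρt x hx) (hf j)) hreg
  have e0 : (fun (j : Fin n) (y : M) => ∑ x ∈ t, (ρ x y : ℂ) * f j y) = f := by
    funext j y
    rw [← Finset.sum_mul]
    by_cases h : y ∈ K
    · have h1 := hsum.self_of_nhdsSet y h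
      have h2 : (∑ x ∈ t, (ρ x y : ℂ)) = 1 := by
        rw [← Complex.ofReal_sum, h1, Complex.ofReal_one]
      rw [h2, one_mul]
    · rw [hfK j y h, mul_zero]
  rw [e0] at h0
  obtain ⟨K', hK', F, hF1, hF2, hF3, ⟨w, hw, hF4⟩, hF5⟩ := h0
  refine ⟨K', hK', F, hF1, hF2, hF3, ?_, ?_⟩
  · -- `w = v`
    have hae : (fun x => w x - v x) =ᵐ[μ] 0 := by
      apply ae_eq_zero_of_test hπ hμ (hw.sub hv)
      intro α hα
      have T1 : Tendsto (fun m => ∑ j, ∫ x, F m j x * dz hπ α j x ∂μ) atTop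
          (𝓝 (∑ j, ∫ x, f j x * dz hπ α j x ∂μ)) :=
        tendsto_finsetSum _ fun j _ => tendsto_integral_mul
          (fun m => IsTest.memLp hμ (hF1 m j)) (hf j) (IsTest.memLp hμ (hα.dz j)) (hF3 j)
      have T2 : Tendsto (fun m => ∫ x, (∑ j, dz hπ (F m j) j x) * α x ∂μ) atTop
          (𝓝 (∫ x, w x * α x ∂μ)) :=
        tendsto_integral_mul' (fun m => memLp_finsetSum _ fun j _ =>
          IsTest.memLp hμ ((hF1 m j).dz j)) hw (IsTest.memLp hμ hα) hF4
      have e1 : ∀ m, ∑ j, ∫ x, F m j x * dz hπ α j x ∂μ =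
          -∫ x, (∑ j, dz hπ (F m j) j x) * α x ∂μ := by
        intro m
        simp only [integral_mul_dz hπ hμ (hF1 m _) hα, Finset.sum_mul]
        rw [Finset.sum_neg_distrib, integral_finsetSum]
        intro j _
        exact (IsTest.memLp hμ ((hF1 m j).dz j)).integrable_mul (IsTest.memLp hμ hα)
      simp only [e1] at T1
      have h1 := tendsto_nhds_unique T1 T2.neg
      have h2 := hdiv α hα
      have i1 : ∀ j ∈ (Finset.univ : Finset (Fin n)), Integrable (fun x => f j x * dz hπ α j x) μ :=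
        fun j _ => (hf j).integrable_mul (IsTest.memLp hμ (hα.dz j))
      rw [integral_finsetSum _ i1, h1, neg_inj] at h2
      have e2 : ∀ x, (w - v) x * α x = w x * α x - v x * α x := fun x => by
        rw [Pi.sub_apply, sub_mul]
      simp only [e2]
      rw [integral_sub, h2, sub_self]
      · exact hw.integrable_mul (IsTest.memLp hμ hα)
      · exact hv.integrable_mul (IsTest.memLp hμ hα)
    refine hF4.congr (fun m => eLpNorm_congr_ae ?_)
    filter_upwards [hae] with x hx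
    have : w x = v x := sub_eq_zero.1 hx
    rw [this]
  · intro j k
    obtain ⟨u, hu, hF6⟩ := hF5 j k
    have hae : (fun x => u x - g j k x) =ᵐ[μ] 0 := by
      apply ae_eq_zero_of_test hπ hμ (hu.sub (hg j k))
      intro α hα
      have T1 : Tendsto (fun m => ∫ x, F m k x * dzb hπ α j x ∂μ -
          ∫ x, F m j x * dzb hπ α k x ∂μ) atTop
          (𝓝 (∫ x, f k x * dzb hπ α j x ∂μ - ∫ x, f j x * dzb hπ α k x ∂μ)) :=
        (tendsto_integral_mul (fun m => IsTest.memLp hμ (hF1 m k)) (hf k)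
          (IsTest.memLp hμ (hα.dzb j)) (hF3 k)).sub
        (tendsto_integral_mul (fun m => IsTest.memLp hμ (hF1 m j)) (hf j)
          (IsTest.memLp hμ (hα.dzb k)) (hF3 j))
      have T2 : Tendsto (fun m => ∫ x, (dzb hπ (F m k) j x - dzb hπ (F m j) k x) * α x ∂μ) atTop
          (𝓝 (∫ x, u x * α x ∂μ)) :=
        tendsto_integral_mul' (fun m => (IsTest.memLp hμ ((hF1 m k).dzb j)).sub
          (IsTest.memLp hμ ((hF1 m j).dzb k))) hu (IsTest.memLp hμ hα) hF6
      have e1 : ∀ m, ∫ x, F m k x * dzb hπ α j x ∂μ - ∫ x, F m j x * dzb hπ α k x ∂μ =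
          -∫ x, (dzb hπ (F m k) j x - dzb hπ (F m j) k x) * α x ∂μ := by
        intro m
        simp only [integral_mul_dzb hπ hμ (hF1 m _) hα, sub_mul]
        rw [integral_sub]
        · ring
        · exact (IsTest.memLp hμ ((hF1 m k).dzb j)).integrable_mul (IsTest.memLp hμ hα)
        · exact (IsTest.memLp hμ ((hF1 m j).dzb k)).integrable_mul (IsTest.memLp hμ hα)
      simp only [e1] at T1
      have h1 := tendsto_nhds_unique T1 T2.neg
      have h2 := hcurl α hα j k
      have i1 : ∀ j k, Integrable (fun x => f k x * dzb hπ α j x) μ :=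
        fun j k => (hf k).integrable_mul (IsTest.memLp hμ (hα.dzb j))
      rw [integral_sub (i1 j k) (i1 k j), h1, neg_inj] at h2
      have e2 : ∀ x, (u - g j k) x * α x = u x * α x - g j k x * α x := fun x => by
        rw [Pi.sub_apply, sub_mul]
      simp only [e2]
      rw [integral_sub, h2, sub_self]
      · exact hu.integrable_mul (IsTest.memLp hμ hα)
      · exact (hg j k).integrable_mul (IsTest.memLp hμ hα)
    refine hF6.congr (fun m => eLpNorm_congr_ae ?_)
    filter_upwards [hae] with x hx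
    have : u x = g j k x := sub_eq_zero.1 hx
    rw [this]

end Pool.Agent.Levi
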