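import Pool.Agent.Levi.HCalc
import Pool.Agent.Levi.HTools
import Pool.Agent.Levi.Regularize

/-!
# The key estimate for compactly supported forms
-/

set_option autoImplicit false

open Set Filter Topology MeasureTheory
open scoped ContDiff ComplexConjugate ENNReal

namespace Pool.Agent.Levi

variable {n : ℕ} {M : Type} [TopologicalSpace M] {π : M → (Fin n → ℂ)}
variable [T2Space M] [SecondCountableTopology M] [MeasurableSpace M] [BorelSpace M]

lemma finiteOnCompacts {μ : Measure M} (hπ : IsLocalHomeomorph π) (hμ : IsFlatMeasure π μ) :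
    IsFiniteMeasureOnCompacts μ := ⟨fun _ hK => hμ.lt_top hπ hK⟩

lemma norm_sub_sq_le (a b : ℂ) : ‖a - b‖ ^ 2 ≤ 2 * ‖a‖ ^ 2 + 2 * ‖b‖ ^ 2 := by
  have h1 : ‖a - b‖ ≤ ‖a‖ + ‖b‖ := norm_sub_le a b
  have h2 : ‖a - b‖ ^ 2 ≤ (‖a‖ + ‖b‖) ^ 2 := by gcongr
  nlinarith [sq_nonneg (‖a‖ - ‖b‖)]

/-- A continuous function vanishing outside a compact set is integrable. -/
lemma integrable_of_cont {μ : Measure M} [IsFiniteMeasureOnCompacts μ] {u : M → ℝ} {K : Set M}
    (hu : Continuous u) (hK : IsCompact K) (h : ∀ x ∉ K, u x = 0) : Integrable u μ :=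
  hu.integrable_of_hasCompactSupport (HasCompactSupport.intro hK h)

/-- The key estimate for test forms. -/
lemma key_test {μ : Measure M} (hπ : IsLocalHomeomorph π) (hμ : IsFlatMeasure π μ)
    {φ θ Ψ : M → ℝ} (hφ : RSmooth hπ φ) (hθ : RSmooth hπ θ) (hΨ : RSmooth hπ Ψ)
    (hΨθ : ∀ x ξ, 2 * ‖∑ j, ξ j * dz hπ (fun y => (Ψ y : ℂ)) j x‖ ^ 2 ≤ levi hπ θ x ξ)
    {g : Fin n → M → ℂ} (hg : ∀ j, IsTest hπ (g j)) :
    ∫ x, levi hπ φ x (fun j => g j x) * Real.exp (-(φ x + θ x)) ∂μ ≤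
      2 * ∫ x, ‖∑ j, (dz hπ (g j) j x
        - g j x * dz hπ (fun y => ((φ y + θ y - Ψ y : ℝ) : ℂ)) j x)‖ ^ 2 *
          Real.exp (-(φ x + θ x)) ∂μ +
      (1 / 2) * ∫ x, (∑ j, ∑ k, ‖dzb hπ (g k) j x - dzb hπ (g j) k x‖ ^ 2) *
        Real.exp (-(φ x + θ x)) ∂μ := by
  have := finiteOnCompacts hπ hμ
  have hφθ : RSmooth hπ (fun x => φ x + θ x) := hφ.add hθ
  have hφ2 : RSmooth hπ (fun x => φ x + θ x - Ψ x) := hφθ.sub hΨ
  have hbasic := basic_inequality hπ hμ hφθ hg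
  -- the compact support
  set K : Set M := ⋃ j, tsupport (g j) with hK
  have hKc : IsCompact K := isCompact_iUnion fun j => (hg j).compact
  have hgK : ∀ x ∉ K, ∀ j, g j x = 0 := by
    intro x hx j
    have : x ∉ tsupport (g j) := fun h => hx (mem_iUnion.2 ⟨j, h⟩)
    exact image_eq_zero_of_notMem_tsupport this
  have hdK : ∀ x ∉ K, ∀ j k, dz hπ (g j) k x = 0 ∧ dzb hπ (g j) k x = 0 := by
    intro x hx j k
    have : x ∉ tsupport (g j) := fun h => hx (mem_iUnion.2 ⟨j, h⟩)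
    exact ⟨dz_zero_off this k, dzb_zero_off this k⟩
  set e : M → ℝ := fun x => Real.exp (-(φ x + θ x)) with he
  have hec : Continuous e := Real.continuous_exp.comp hφθ.continuous.neg
  have he0 : ∀ x, 0 < e x := fun x => Real.exp_pos _
  set D : M → ℂ := fun x => ∑ j, (dz hπ (g j) j x
        - g j x * dz hπ (fun y => ((φ y + θ y - Ψ y : ℝ) : ℂ)) j x) with hD
  set P : M → ℂ := fun x => ∑ j, g j x * dz hπ (fun y => (Ψ y : ℂ)) j x with hP
  have hDc : Continuous D := continuous_finsetSum _ fun j _ =>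
    ((hg j).smooth.dz j).continuous.sub ((hg j).continuous.mul (hφ2.ofReal.dz j).continuous)
  have hPc : Continuous P := continuous_finsetSum _ fun j _ =>
    (hg j).continuous.mul (hΨ.ofReal.dz j).continuous
  have hDK : ∀ x ∉ K, D x = 0 := by
    intro x hx
    simp only [hD]
    apply Finset.sum_eq_zero
    intro j _
    rw [(hdK x hx j j).1, hgK x hx j]; simp
  have hB : ∀ x, ∑ j, (dz hπ (g j) j x
      - g j x * dz hπ (fun y => ((φ y + θ y : ℝ) : ℂ)) j x) = D x - P x := by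
    intro x
    simp only [hD, hP]
    rw [← Finset.sum_sub_distrib]
    apply Finset.sum_congr rfl
    intro j _
    have e1 : dz hπ (fun y => ((φ y + θ y - Ψ y : ℝ) : ℂ)) j x
        = dz hπ (fun y => ((φ y + θ y : ℝ) : ℂ)) j x - dz hπ (fun y => (Ψ y : ℂ)) j x := by
      rw [← dz_sub hφθ.ofReal hΨ.ofReal]
      congr 1
      funext y
      push_cast; rfl
    rw [e1]; ring
  -- integrability
  have i1 : Integrable (fun x => levi hπ φ x (fun j => g j x) * e x) μ := by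
    apply integrable_of_cont ((continuous_levi hφ fun j => (hg j).continuous).mul hec) hKc
    intro x hx
    have : (fun j => g j x) = fun _ => 0 := funext fun j => hgK x hx j
    change levi hπ φ x (fun j => g j x) * e x = 0
    rw [this, levi_zero, zero_mul]
  have i2 : Integrable (fun x => levi hπ θ x (fun j => g j x) * e x) μ := by
    apply integrable_of_cont ((continuous_levi hθ fun j => (hg j).continuous).mul hec) hKc
    intro x hx
    have : (fun j => g j x) = fun _ => 0 := funext fun j => hgK x hx j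
    change levi hπ θ x (fun j => g j x) * e x = 0
    rw [this, levi_zero, zero_mul]
  have i3 : Integrable (fun x => ‖D x‖ ^ 2 * e x) μ := by
    apply integrable_of_cont ((hDc.norm.pow 2).mul hec) hKc
    intro x hx
    change ‖D x‖ ^ 2 * e x = 0
    rw [hDK x hx]; simp
  have i4 : Integrable (fun x => ‖D x - P x‖ ^ 2 * e x) μ := by
    apply integrable_of_cont (((hDc.sub hPc).norm.pow 2).mul hec) hKc
    intro x hx
    have : P x = 0 := by
      simp only [hP]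
      apply Finset.sum_eq_zero
      intro j _
      rw [hgK x hx j]; simp
    change ‖D x - P x‖ ^ 2 * e x = 0
    rw [hDK x hx, this]; simp
  have h1 : ∫ x, levi hπ (fun x => φ x + θ x) x (fun j => g j x) * e x ∂μ
      = ∫ x, levi hπ φ x (fun j => g j x) * e x ∂μ
        + ∫ x, levi hπ θ x (fun j => g j x) * e x ∂μ := by
    rw [← integral_add i1 i2]
    congr 1
    funext x
    rw [levi_add hφ hθ]; ring
  have h2 : ∫ x, ‖D x - P x‖ ^ 2 * e x ∂μ
      ≤ 2 * ∫ x, ‖D x‖ ^ 2 * e x ∂μ + ∫ x, levi hπ θ x (fun j => g j x) * e x ∂μ := by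
    rw [← integral_const_mul, ← integral_add (i3.const_mul 2) i2]
    apply integral_mono i4 ((i3.const_mul 2).add i2)
    intro x
    have h3 := norm_sub_sq_le (D x) (P x)
    have h4 := hΨθ x (fun j => g j x)
    have h5 : ‖D x - P x‖ ^ 2 ≤ 2 * ‖D x‖ ^ 2 + levi hπ θ x (fun j => g j x) := by
      linarith
    have h6 := mul_le_mul_of_nonneg_right h5 (he0 x).le
    change ‖D x - P x‖ ^ 2 * e x ≤ 2 * (‖D x‖ ^ 2 * e x)
      + levi hπ θ x (fun j => g j x) * e x
    linarith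
  have h3 : ∫ x, ‖∑ j, (dz hπ (g j) j x
      - g j x * dz hπ (fun y => ((φ y + θ y : ℝ) : ℂ)) j x)‖ ^ 2 * e x ∂μ
      = ∫ x, ‖D x - P x‖ ^ 2 * e x ∂μ := by
    congr 1
    funext x
    rw [hB]
  change ∫ x, levi hπ (fun x => φ x + θ x) x (fun j => g j x) * e x ∂μ ≤
    ∫ x, ‖∑ j, (dz hπ (g j) j x
      - g j x * dz hπ (fun y => ((φ y + θ y : ℝ) : ℂ)) j x)‖ ^ 2 * e x ∂μ + _ at hbasic
  rw [h1, h3] at hbasic
  linarith

/-- The key estimate for test forms, with the Levi form bounded below on `S`. -/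
lemma key_test_S {μ : Measure M} (hπ : IsLocalHomeomorph π) (hμ : IsFlatMeasure π μ)
    {φ θ Ψ : M → ℝ} (hφ : RSmooth hπ φ) (hθ : RSmooth hπ θ) (hΨ : RSmooth hπ Ψ)
    (hΨθ : ∀ x ξ, 2 * ‖∑ j, ξ j * dz hπ (fun y => (Ψ y : ℂ)) j x‖ ^ 2 ≤ levi hπ θ x ξ)
    (hpsh : ∀ x ξ, 0 ≤ levi hπ φ x ξ) {S : Set M} (hS : IsClosed S)
    (hstrict : ∀ x ∈ S, ∀ ξ : Fin n → ℂ, ∑ j, ‖ξ j‖ ^ 2 ≤ levi hπ φ x ξ)
    {g : Fin n → M → ℂ} (hg : ∀ j, IsTest hπ (g j)) :
    ∑ j, ∫ x in S, ‖g j x‖ ^ 2 * Real.exp (-(φ x + θ x)) ∂μ ≤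
      2 * ∫ x, ‖∑ j, (dz hπ (g j) j x
        - g j x * dz hπ (fun y => ((φ y + θ y - Ψ y : ℝ) : ℂ)) j x)‖ ^ 2 *
          Real.exp (-(φ x + θ x)) ∂μ +
      (1 / 2) * ∑ j, ∑ k, ∫ x, ‖dzb hπ (g k) j x - dzb hπ (g j) k x‖ ^ 2 *
        Real.exp (-(φ x + θ x)) ∂μ := by
  have := finiteOnCompacts hπ hμ
  have hφθ : RSmooth hπ (fun x => φ x + θ x) := hφ.add hθ
  have hkey := key_test hπ hμ hφ hθ hΨ hΨθ hg
  set K : Set M := ⋃ j, tsupport (g j) with hK
  have hKc : IsCompact K := isCompact_iUnion fun j => (hg j).compact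
  have hgK : ∀ x ∉ K, ∀ j, g j x = 0 := by
    intro x hx j
    have : x ∉ tsupport (g j) := fun h => hx (mem_iUnion.2 ⟨j, h⟩)
    exact image_eq_zero_of_notMem_tsupport this
  have hdK : ∀ x ∉ K, ∀ j k, dzb hπ (g j) k x = 0 := by
    intro x hx j k
    have : x ∉ tsupport (g j) := fun h => hx (mem_iUnion.2 ⟨j, h⟩)
    exact dzb_zero_off this k
  set e : M → ℝ := fun x => Real.exp (-(φ x + θ x)) with he
  have hec : Continuous e := Real.continuous_exp.comp hφθ.continuous.neg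
  have he0 : ∀ x, 0 < e x := fun x => Real.exp_pos _
  have i1 : Integrable (fun x => levi hπ φ x (fun j => g j x) * e x) μ := by
    apply integrable_of_cont ((continuous_levi hφ fun j => (hg j).continuous).mul hec) hKc
    intro x hx
    have : (fun j => g j x) = fun _ => 0 := funext fun j => hgK x hx j
    change levi hπ φ x (fun j => g j x) * e x = 0
    rw [this, levi_zero, zero_mul]
  have i2 : ∀ j, Integrable (fun x => ‖g j x‖ ^ 2 * e x) μ := by
    intro j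
    apply integrable_of_cont (((hg j).continuous.norm.pow 2).mul hec) hKc
    intro x hx
    change ‖g j x‖ ^ 2 * e x = 0
    rw [hgK x hx j]; simp
  have i3 : ∀ j k, Integrable (fun x => ‖dzb hπ (g k) j x - dzb hπ (g j) k x‖ ^ 2 * e x) μ := by
    intro j k
    apply integrable_of_cont
      ((((((hg k).smooth.dzb j).sub ((hg j).smooth.dzb k)).continuous).norm.pow 2).mul hec) hKc
    intro x hx
    change ‖dzb hπ (g k) j x - dzb hπ (g j) k x‖ ^ 2 * e x = 0
    rw [hdK x hx, hdK x hx]; simp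
  have h1 : ∑ j, ∫ x in S, ‖g j x‖ ^ 2 * e x ∂μ
      ≤ ∫ x, levi hπ φ x (fun j => g j x) * e x ∂μ := by
    rw [← integral_finsetSum _ fun j _ => (i2 j).integrableOn]
    rw [← integral_indicator hS.measurableSet]
    apply integral_mono
    · exact (integrable_finsetSum _ fun j _ => i2 j).indicator hS.measurableSet
    · exact i1
    · intro x
      by_cases hx : x ∈ S
      · simp only [Set.indicator_of_mem hx]
        rw [← Finset.sum_mul]
        exact mul_le_mul_of_nonneg_right (hstrict x hx _) (he0 x).le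
      · simp only [Set.indicator_of_notMem hx]
        exact mul_nonneg (hpsh x _) (he0 x).le
  have h2 : ∫ x, (∑ j, ∑ k, ‖dzb hπ (g k) j x - dzb hπ (g j) k x‖ ^ 2) * e x ∂μ
      = ∑ j, ∑ k, ∫ x, ‖dzb hπ (g k) j x - dzb hπ (g j) k x‖ ^ 2 * e x ∂μ := by
    have : (fun x => (∑ j, ∑ k, ‖dzb hπ (g k) j x - dzb hπ (g j) k x‖ ^ 2) * e x)
        = fun x => ∑ j, ∑ k, ‖dzb hπ (g k) j x - dzb hπ (g j) k x‖ ^ 2 * e x := by
      funext x
      rw [Finset.sum_mul]
      apply Finset.sum_congr rfl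
      intro j _
      rw [Finset.sum_mul]
    rw [this, integral_finsetSum _ fun j _ => integrable_finsetSum _ fun k _ => i3 j k]
    apply Finset.sum_congr rfl
    intro j _
    rw [integral_finsetSum _ fun k _ => i3 j k]
  rw [h2] at hkey
  exact h1.trans hkey

/-- The half weight `e^{-(φ+θ)/2}` as a complex function. -/
noncomputable def hw (φ : M → ℝ) (x : M) : ℂ := ((Real.exp (-(φ x) / 2) : ℝ) : ℂ)

omit [TopologicalSpace M] [T2Space M] [SecondCountableTopology M] [MeasurableSpace M]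
  [BorelSpace M] in
lemma norm_hw_mul_sq (φ : M → ℝ) (a : ℂ) (x : M) :
    ‖hw φ x * a‖ ^ 2 = ‖a‖ ^ 2 * Real.exp (-(φ x)) := by
  unfold hw
  rw [norm_mul, mul_pow, Complex.norm_real, Real.norm_of_nonneg (Real.exp_pos _).le,
    ← Real.exp_nat_mul, mul_comm]
  congr 2
  push_cast; ring

omit [T2Space M] [SecondCountableTopology M] [MeasurableSpace M] [BorelSpace M] in
lemma continuous_hw {φ : M → ℝ} (h : Continuous φ) : Continuous (hw φ) :=
  Complex.continuous_ofReal.comp (Real.continuous_exp.comp (h.neg.div_const 2))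

/-- The key estimate for compactly supported `L²` forms. -/
lemma key_compact {μ : Measure M} (hπ : IsLocalHomeomorph π) (hμ : IsFlatMeasure π μ)
    {φ θ Ψ : M → ℝ} (hφ : RSmooth hπ φ) (hθ : RSmooth hπ θ) (hΨ : RSmooth hπ Ψ)
    (hΨθ : ∀ x ξ, 2 * ‖∑ j, ξ j * dz hπ (fun y => (Ψ y : ℂ)) j x‖ ^ 2 ≤ levi hπ θ x ξ)
    (hpsh : ∀ x ξ, 0 ≤ levi hπ φ x ξ) {S : Set M} (hS : IsClosed S)
    (hstrict : ∀ x ∈ S, ∀ ξ : Fin n → ℂ, ∑ j, ‖ξ j‖ ^ 2 ≤ levi hπ φ x ξ)
    {K : Set M} (hK : IsCompact K) {g : Fin n → M → ℂ} (hgK : ∀ j, ∀ x ∉ K, g j x = 0)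
    (hg : ∀ j, MemLp (g j) 2 μ) {v : M → ℂ} (hv : MemLp v 2 μ) (hvK : ∀ x ∉ K, v x = 0)
    {c : Fin n → Fin n → M → ℂ} (hc : ∀ j k, MemLp (c j k) 2 μ)
    (hcK : ∀ j k, ∀ x ∉ K, c j k x = 0)
    (hdiv : ∀ α, IsTest hπ α → ∫ x, (∑ j, g j x * dz hπ α j x) ∂μ = -∫ x, v x * α x ∂μ)
    (hcurl : ∀ α, IsTest hπ α → ∀ j k,
      ∫ x, (g k x * dzb hπ α j x - g j x * dzb hπ α k x) ∂μ = -∫ x, c j k x * α x ∂μ) :
    ∑ j, ∫ x in S, ‖g j x‖ ^ 2 * Real.exp (-(φ x + θ x)) ∂μ ≤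
      2 * ∫ x, ‖v x - ∑ j, g j x * dz hπ (fun y => ((φ y + θ y - Ψ y : ℝ) : ℂ)) j x‖ ^ 2 *
          Real.exp (-(φ x + θ x)) ∂μ +
      (1 / 2) * ∑ j, ∑ k, ∫ x, ‖c j k x‖ ^ 2 * Real.exp (-(φ x + θ x)) ∂μ := by
  have := finiteOnCompacts hπ hμ
  have hφθ : RSmooth hπ (fun x => φ x + θ x) := hφ.add hθ
  have hφ2 : RSmooth hπ (fun x => φ x + θ x - Ψ x) := hφθ.sub hΨ
  obtain ⟨K', hK', F, hF, hFK', hF1, hF2, hF3⟩ :=
    exists_regularization hπ hμ hK hgK hg hv hc hdiv hcurl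
  set L : Set M := K ∪ K' with hL
  have hLc : IsCompact L := hK.union hK'
  have hFL : ∀ m j, ∀ x ∉ L, F m j x = 0 := fun m j x hx => hFK' m j x fun h => hx (Or.inr h)
  have hgL : ∀ j, ∀ x ∉ L, g j x = 0 := fun j x hx => hgK j x fun h => hx (Or.inl h)
  have hvL : ∀ x ∉ L, v x = 0 := fun x hx => hvK x fun h => hx (Or.inl h)
  have hcL : ∀ j k, ∀ x ∉ L, c j k x = 0 := fun j k x hx => hcK j k x fun h => hx (Or.inl h)
  have hLcl : IsClosed L := hLc.isClosed
  have hFsupp : ∀ m j, tsupport (F m j) ⊆ L := by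
    intro m j
    apply closure_minimal _ hLcl
    intro x hx
    by_contra h
    exact hx (hFL m j x h)
  have hdFL : ∀ m j k, ∀ x ∉ L, dz hπ (F m j) k x = 0 ∧ dzb hπ (F m j) k x = 0 := by
    intro m j k x hx
    have : x ∉ tsupport (F m j) := fun h => hx (hFsupp m j h)
    exact ⟨dz_zero_off this k, dzb_zero_off this k⟩
  have memTest : ∀ {α : M → ℂ}, IsTest hπ α → MemLp α 2 μ := fun {α} hα =>
    hα.continuous.memLp_of_hasCompactSupport hα.compact
  -- convergences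
  have c1 : ∀ j, Conv μ (fun m => F m j) (g j) := fun j => ⟨fun m => memTest (hF m j), hg j, hF1 j⟩
  have c2 : Conv μ (fun m x => ∑ j, dz hπ (F m j) j x) v :=
    ⟨fun m => memTest (IsTest.sum fun j _ => (hF m j).dz j), hv, hF2⟩
  have c3 : ∀ j k, Conv μ (fun m x => dzb hπ (F m k) j x - dzb hπ (F m j) k x) (c j k) :=
    fun j k => ⟨fun m => memTest (((hF m k).dzb j).sub ((hF m j).dzb k)), hc j k, hF3 j k⟩
  have bdd : ∀ {w : M → ℂ}, Continuous w → ∃ R : ℝ, ∀ x ∈ L, ‖w x‖ ≤ R := by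
    intro w hw
    obtain ⟨R, hR⟩ := hLc.exists_bound_of_continuousOn hw.continuousOn
    exact ⟨R, hR⟩
  have mulc : ∀ {a : ℕ → M → ℂ} {A w : M → ℂ}, Conv μ a A → Continuous w →
      (∀ m, ∀ x ∉ L, a m x = 0) → (∀ x ∉ L, A x = 0) →
      Conv μ (fun m x => w x * a m x) (fun x => w x * A x) := by
    intro a A w hc hw h1 h2
    obtain ⟨R, hR⟩ := bdd hw
    exact hc.mul_bdd h1 h2 hw.aestronglyMeasurable hR
  have c4 : Conv μ (fun m x => ∑ j, (dz hπ (F m j) j x
        - F m j x * dz hπ (fun y => ((φ y + θ y - Ψ y : ℝ) : ℂ)) j x))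
      (fun x => v x - ∑ j, g j x * dz hπ (fun y => ((φ y + θ y - Ψ y : ℝ) : ℂ)) j x) := by
    have h1 : Conv μ (fun m x => ∑ j, dz hπ (fun y => ((φ y + θ y - Ψ y : ℝ) : ℂ)) j x * F m j x)
        (fun x => ∑ j, dz hπ (fun y => ((φ y + θ y - Ψ y : ℝ) : ℂ)) j x * g j x) :=
      Conv.sum fun j _ => mulc (c1 j) (hφ2.ofReal.dz j).continuous (fun m => hFL m j) (hgL j)
    have h2 := c2.sub h1
    have e1 : (fun m x => ∑ j, (dz hπ (F m j) j x
        - F m j x * dz hπ (fun y => ((φ y + θ y - Ψ y : ℝ) : ℂ)) j x))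
        = fun (m : ℕ) x => ∑ j, dz hπ (F m j) j x
          - ∑ j, dz hπ (fun y => ((φ y + θ y - Ψ y : ℝ) : ℂ)) j x * F m j x := by
      funext m x
      rw [Finset.sum_sub_distrib]
      congr 1
      apply Finset.sum_congr rfl
      intro j _; ring
    have e2 : (fun x => v x - ∑ j, g j x * dz hπ (fun y => ((φ y + θ y - Ψ y : ℝ) : ℂ)) j x)
        = fun x => v x - ∑ j, dz hπ (fun y => ((φ y + θ y - Ψ y : ℝ) : ℂ)) j x * g j x := by
      funext x
      congr 1
      apply Finset.sum_congr rfl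
      intro j _; ring
    rw [e1, e2]
    exact h2
  have hwc := continuous_hw (φ := fun x => φ x + θ x) hφθ.continuous
  -- weighted convergences
  have w1 : ∀ j, Tendsto (fun m => ∫ x in S, ‖F m j x‖ ^ 2 * Real.exp (-(φ x + θ x)) ∂μ) atTop
      (𝓝 (∫ x in S, ‖g j x‖ ^ 2 * Real.exp (-(φ x + θ x)) ∂μ)) := by
    intro j
    have h1 := mulc (c1 j) hwc (fun m => hFL m j) (hgL j)
    have h2 : Conv μ (fun m x => S.indicator (fun _ => (1 : ℂ)) x * (hw (fun x => φ x + θ x) x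
        * F m j x)) (fun x => S.indicator (fun _ => (1 : ℂ)) x * (hw (fun x => φ x + θ x) x
        * g j x)) := by
      apply h1.mul_bdd (K := L) (R := 1)
      · intro m x hx
        rw [hFL m j x hx, mul_zero]
      · intro x hx
        rw [hgL j x hx, mul_zero]
      · exact (aestronglyMeasurable_const.indicator hS.measurableSet)
      · intro x _
        by_cases hx : x ∈ S
        · simp [Set.indicator_of_mem hx]
        · simp [Set.indicator_of_notMem hx]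
    have key : ∀ a : M → ℂ, ∫ x, ‖S.indicator (fun _ => (1 : ℂ)) x
        * (hw (fun x => φ x + θ x) x * a x)‖ ^ 2 ∂μ
        = ∫ x in S, ‖a x‖ ^ 2 * Real.exp (-(φ x + θ x)) ∂μ := by
      intro a
      rw [← integral_indicator hS.measurableSet]
      congr 1
      funext x
      by_cases hx : x ∈ S
      · rw [Set.indicator_of_mem hx, Set.indicator_of_mem hx, one_mul, norm_hw_mul_sq]
      · rw [Set.indicator_of_notMem hx, Set.indicator_of_notMem hx]; simp
    have h3 := h2.integral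
    rw [key] at h3
    exact h3.congr fun m => key _
  have keyw : ∀ a : M → ℂ, ∫ x, ‖hw (fun x => φ x + θ x) x * a x‖ ^ 2 ∂μ
      = ∫ x, ‖a x‖ ^ 2 * Real.exp (-(φ x + θ x)) ∂μ := by
    intro a
    congr 1
    funext x
    rw [norm_hw_mul_sq]
  have w2 : Tendsto (fun m => ∫ x, ‖∑ j, (dz hπ (F m j) j x
        - F m j x * dz hπ (fun y => ((φ y + θ y - Ψ y : ℝ) : ℂ)) j x)‖ ^ 2 *
          Real.exp (-(φ x + θ x)) ∂μ) atTop
      (𝓝 (∫ x, ‖v x - ∑ j, g j x * dz hπ (fun y => ((φ y + θ y - Ψ y : ℝ) : ℂ)) j x‖ ^ 2 *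
          Real.exp (-(φ x + θ x)) ∂μ)) := by
    have h1 := (mulc c4 hwc (fun m x hx => by
        apply Finset.sum_eq_zero
        intro j _
        rw [(hdFL m j j x hx).1, hFL m j x hx]; simp)
      (fun x hx => by
        rw [hvL x hx, zero_sub, neg_eq_zero]
        apply Finset.sum_eq_zero
        intro j _
        rw [hgL j x hx]; simp)).integral
    rw [keyw] at h1
    exact h1.congr fun m => keyw _
  have w3 : ∀ j k, Tendsto (fun m => ∫ x, ‖dzb hπ (F m k) j x - dzb hπ (F m j) k x‖ ^ 2 *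
        Real.exp (-(φ x + θ x)) ∂μ) atTop
      (𝓝 (∫ x, ‖c j k x‖ ^ 2 * Real.exp (-(φ x + θ x)) ∂μ)) := by
    intro j k
    have h1 := (mulc (c3 j k) hwc (fun m x hx => by
        rw [(hdFL m k j x hx).2, (hdFL m j k x hx).2]; simp) (hcL j k)).integral
    rw [keyw] at h1
    exact h1.congr fun m => keyw _
  have hlim1 := tendsto_finsetSum (Finset.univ : Finset (Fin n)) fun j _ => w1 j
  have hlim2 := (w2.const_mul 2).add ((tendsto_finsetSum (Finset.univ : Finset (Fin n)) fun j _ =>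
    tendsto_finsetSum (Finset.univ : Finset (Fin n)) fun k _ => w3 j k).const_mul (1 / 2))
  exact le_of_tendsto_of_tendsto' hlim1 hlim2 fun m =>
    key_test_S hπ hμ hφ hθ hΨ hΨθ hpsh hS hstrict (hF m)

end Pool.Agent.Levi
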