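import Pool.Agent.Levi.HCut

/-!
# The main estimate in Hörmander's theorem
-/

set_option autoImplicit false

open Set Filter Topology MeasureTheory
open scoped ContDiff ComplexConjugate ENNReal

namespace Pool.Agent.Levi

lemma tendsto_integral_zero {M : Type} [MeasurableSpace M] {μ : Measure M} {E : ℕ → M → ℝ}
    {B : M → ℝ} (hm : ∀ ν, AEStronglyMeasurable (E ν) μ) (hB : Integrable B μ)
    (h0 : ∀ ν x, 0 ≤ E ν x) (h1 : ∀ ν x, E ν x ≤ B x) (h2 : ∀ x, ∀ᶠ ν in atTop, E ν x = 0) :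
    Tendsto (fun ν => ∫ x, E ν x ∂μ) atTop (𝓝 0) := by
  have h3 := tendsto_integral_of_dominated_convergence (F := E) (f := fun _ => (0 : ℝ)) B hm hB
    (fun ν => ae_of_all _ fun x => by rw [Real.norm_of_nonneg (h0 ν x)]; exact h1 ν x)
    (ae_of_all _ fun x => tendsto_const_nhds.congr' ((h2 x).mono fun ν h => h.symm))
  simpa using h3

lemma norm_sum_mul_sq_le {n : ℕ} (a b : Fin n → ℂ) :
    ‖∑ j, a j * b j‖ ^ 2 ≤ (∑ j, ‖a j‖ ^ 2) * ∑ j, ‖b j‖ ^ 2 := by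
  have h1 : ‖∑ j, a j * b j‖ ≤ ∑ j, ‖a j‖ * ‖b j‖ := by
    refine (norm_sum_le _ _).trans (le_of_eq ?_)
    simp only [norm_mul]
  calc ‖∑ j, a j * b j‖ ^ 2 ≤ (∑ j, ‖a j‖ * ‖b j‖) ^ 2 := by gcongr
    _ ≤ _ := Finset.sum_mul_sq_le_sq_mul_sq _ _ _

variable {n : ℕ} {M : Type} [TopologicalSpace M] {π : M → (Fin n → ℂ)}
variable [T2Space M] [SecondCountableTopology M] [MeasurableSpace M] [BorelSpace M]

/-- A continuous compactly supported function times a square integrable one. -/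
lemma memLp_cc_mul {μ : Measure M} {w G : M → ℂ} (hw : Continuous w) (hc : HasCompactSupport w)
    (hG : MemLp G 2 μ) : MemLp (fun x => w x * G x) 2 μ := by
  obtain ⟨R, hR⟩ := hw.bounded_above_of_compact_support hc
  refine MemLp.of_le_mul (c := R) hG (hw.aestronglyMeasurable.mul hG.1) (ae_of_all _ fun x => ?_)
  rw [norm_mul]
  gcongr
  exact hR x

/-- The main estimate for the closed part. -/
lemma closed_part_estimate {μ : Measure M} (hπ : IsLocalHomeomorph π) (hμ : IsFlatMeasure π μ)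
    {φ θ Ψ φ₂ : M → ℝ} (hφ : RSmooth hπ φ) (hθ : RSmooth hπ θ) (hΨ : RSmooth hπ Ψ)
    (hφ₂ : φ₂ = fun x => φ x + θ x - Ψ x)
    (hΨθ : ∀ x ξ, 2 * ‖∑ j, ξ j * dz hπ (fun y => (Ψ y : ℂ)) j x‖ ^ 2 ≤ levi hπ θ x ξ)
    (hpsh : ∀ x ξ, 0 ≤ levi hπ φ x ξ) {S K : Set M} (hS : IsClosed S) (hSK : S ⊆ K)
    (hK : IsCompact K) (hstrict : ∀ x ∈ S, ∀ ξ : Fin n → ℂ, ∑ j, ‖ξ j‖ ^ 2 ≤ levi hπ φ x ξ)
    (hK0 : ∀ᶠ x in 𝓝ˢ K, Ψ x = 0 ∧ θ x = 0)
    {η : ℕ → M → ℝ} (hη : ∀ ν, RSmooth hπ (η ν)) (hηc : ∀ ν, HasCompactSupport (η ν))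
    (hη1 : ∀ L : Set M, IsCompact L → ∀ᶠ ν in atTop, ∀ᶠ x in 𝓝ˢ L, η ν x = 1)
    (hηd : ∀ ν x, ∑ j, ‖dzb hπ (fun y => (η ν y : ℂ)) j x‖ ^ 2 ≤ Real.exp (Ψ x))
    {f : Fin n → M → ℂ} (hf : ∀ j, IsTest hπ (f j)) (hfK : ∀ j, tsupport (f j) ⊆ K)
    {G : Fin n → M → ℂ} (hG : ∀ j, MemLp (G j) 2 μ)
    (ha : ∀ α, IsTest hπ α → ∀ j k, ∫ x, (ew φ₂ x * dzb hπ α j x * G k x
        - ew φ₂ x * dzb hπ α k x * G j x) ∂μ = 0)
    (hb : ∀ α, IsTest hπ α → ∑ j, ∫ x, conj (dzb hπ α j x) * hw φ₂ x * G j x ∂μ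
        = ∑ j, ∫ x, conj (dzb hπ α j x) * hw φ₂ x * (hw φ₂ x * f j x) ∂μ) :
    ∑ j, ∫ x in S, ‖G j x‖ ^ 2 ∂μ ≤
      2 * ∫ x, ‖∑ j, (dz hπ (f j) j x - f j x * dz hπ (fun y => (φ y : ℂ)) j x)‖ ^ 2
        * Real.exp (-(φ x)) ∂μ := by
  have := finiteOnCompacts hπ hμ
  have s2 : RSmooth hπ φ₂ := by rw [hφ₂]; exact (hφ.add hθ).sub hΨ
  have ewc := continuous_ew s2.continuous
  set e3 : M → ℝ := fun x => Real.exp (-(φ x + θ x)) with he3
  have e3c : Continuous e3 := Real.continuous_exp.comp (hφ.add hθ).continuous.neg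
  have e3p : ∀ x, 0 < e3 x := fun x => Real.exp_pos _
  have wt : ∀ x (a : ℂ), ‖ew φ₂ x * a‖ ^ 2 * (Real.exp (Ψ x) * e3 x) = ‖a‖ ^ 2 := by
    intro x a
    rw [norm_mul, mul_pow]
    unfold ew
    rw [Complex.norm_real, Real.norm_of_nonneg (Real.exp_pos _).le, ← Real.exp_nat_mul]
    simp only [he3]
    have h0 : ((2 : ℕ) : ℝ) * (φ₂ x / 2) + (Ψ x + -(φ x + θ x)) = 0 := by
      rw [hφ₂]; push_cast; ring
    calc Real.exp (((2 : ℕ) : ℝ) * (φ₂ x / 2)) * ‖a‖ ^ 2 * (Real.exp (Ψ x)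
          * Real.exp (-(φ x + θ x)))
        = ‖a‖ ^ 2 * (Real.exp (((2 : ℕ) : ℝ) * (φ₂ x / 2)) * (Real.exp (Ψ x)
          * Real.exp (-(φ x + θ x)))) := by ring
      _ = ‖a‖ ^ 2 := by rw [← Real.exp_add, ← Real.exp_add, h0, Real.exp_zero, mul_one]
  have dzη : ∀ ν x, ∑ j, ‖dz hπ (fun y => (η ν y : ℂ)) j x‖ ^ 2 ≤ Real.exp (Ψ x) := by
    intro ν x
    simp only [norm_dz_real (hη ν)]
    exact hηd ν x
  have ctd : ∀ ν j, HasCompactSupport (dz hπ (fun y => (η ν y : ℂ)) j) ∧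
      HasCompactSupport (dzb hπ (fun y => (η ν y : ℂ)) j) := by
    intro ν j
    have ht : IsTest hπ (fun y => (η ν y : ℂ)) := by
      refine ⟨(hη ν).ofReal, ?_⟩
      exact (hηc ν).comp_left (g := fun t : ℝ => (t : ℂ)) Complex.ofReal_zero
    exact ⟨(ht.dz j).compact, (ht.dzb j).compact⟩
  -- the error terms
  have mj1 : ∀ ν j, MemLp (fun x => (ew φ₂ x * G j x) * dz hπ (fun y => (η ν y : ℂ)) j x) 2 μ := by
    intro ν j
    have e : (fun x => (ew φ₂ x * G j x) * dz hπ (fun y => (η ν y : ℂ)) j x)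
        = fun x => (ew φ₂ x * dz hπ (fun y => (η ν y : ℂ)) j x) * G j x := by
      funext x; ring
    rw [e]
    exact memLp_cc_mul (ewc.mul ((hη ν).ofReal.dz j).continuous) (ctd ν j).1.mul_left (hG j)
  have mj2 : ∀ ν j k, MemLp (fun x => (ew φ₂ x * G k x) * dzb hπ (fun y => (η ν y : ℂ)) j x) 2 μ := by
    intro ν j k
    have e : (fun x => (ew φ₂ x * G k x) * dzb hπ (fun y => (η ν y : ℂ)) j x)
        = fun x => (ew φ₂ x * dzb hπ (fun y => (η ν y : ℂ)) j x) * G k x := by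
      funext x; ring
    rw [e]
    exact memLp_cc_mul (ewc.mul ((hη ν).ofReal.dzb j).continuous) (ctd ν j).2.mul_left (hG k)
  have m1 : ∀ ν, MemLp (fun x => ∑ j, (ew φ₂ x * G j x) * dz hπ (fun y => (η ν y : ℂ)) j x) 2 μ :=
    fun ν => memLp_finsetSum _ fun j _ => mj1 ν j
  have m2 : ∀ ν j k, MemLp (fun x => (ew φ₂ x * G k x) * dzb hπ (fun y => (η ν y : ℂ)) j x
      - (ew φ₂ x * G j x) * dzb hπ (fun y => (η ν y : ℂ)) k x) 2 μ :=
    fun ν j k => (mj2 ν j k).sub (mj2 ν k j)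
  set E1 : ℕ → M → ℝ := fun ν x =>
    ‖∑ j, (ew φ₂ x * G j x) * dz hπ (fun y => (η ν y : ℂ)) j x‖ ^ 2 * e3 x with hE1
  set E2 : Fin n → Fin n → ℕ → M → ℝ := fun j k ν x =>
    ‖(ew φ₂ x * G k x) * dzb hπ (fun y => (η ν y : ℂ)) j x
      - (ew φ₂ x * G j x) * dzb hπ (fun y => (η ν y : ℂ)) k x‖ ^ 2 * e3 x with hE2
  have E1m : ∀ ν, AEStronglyMeasurable (E1 ν) μ := fun ν =>
    ((m1 ν).1.norm.pow 2).mul e3c.aestronglyMeasurable
  have E2m : ∀ j k ν, AEStronglyMeasurable (E2 j k ν) μ := fun j k ν =>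
    ((m2 ν j k).1.norm.pow 2).mul e3c.aestronglyMeasurable
  have E1b : ∀ ν x, E1 ν x ≤ ∑ j, ‖G j x‖ ^ 2 := by
    intro ν x
    have h1 := norm_sum_mul_sq_le (fun j => ew φ₂ x * G j x)
      (fun j => dz hπ (fun y => (η ν y : ℂ)) j x)
    have h2 : ‖∑ j, (ew φ₂ x * G j x) * dz hπ (fun y => (η ν y : ℂ)) j x‖ ^ 2
        ≤ (∑ j, ‖ew φ₂ x * G j x‖ ^ 2) * Real.exp (Ψ x) :=
      h1.trans (mul_le_mul_of_nonneg_left (dzη ν x) (Finset.sum_nonneg fun j _ => by positivity))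
    calc E1 ν x ≤ ((∑ j, ‖ew φ₂ x * G j x‖ ^ 2) * Real.exp (Ψ x)) * e3 x :=
          mul_le_mul_of_nonneg_right h2 (e3p x).le
      _ = ∑ j, ‖ew φ₂ x * G j x‖ ^ 2 * (Real.exp (Ψ x) * e3 x) := by
          rw [mul_assoc, Finset.sum_mul]
      _ = ∑ j, ‖G j x‖ ^ 2 := Finset.sum_congr rfl fun j _ => wt x _
  have E2b : ∀ j k ν x, E2 j k ν x ≤ 2 * ‖G k x‖ ^ 2 + 2 * ‖G j x‖ ^ 2 := by
    intro j k ν x
    have h1 := norm_sub_sq_le ((ew φ₂ x * G k x) * dzb hπ (fun y => (η ν y : ℂ)) j x)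
      ((ew φ₂ x * G j x) * dzb hπ (fun y => (η ν y : ℂ)) k x)
    have h2 : ∀ i, ‖dzb hπ (fun y => (η ν y : ℂ)) i x‖ ^ 2 ≤ Real.exp (Ψ x) := fun i =>
      (Finset.single_le_sum (f := fun i => ‖dzb hπ (fun y => (η ν y : ℂ)) i x‖ ^ 2)
        (fun i _ => by positivity) (Finset.mem_univ i)).trans (hηd ν x)
    have h3 : ∀ i l, ‖(ew φ₂ x * G l x) * dzb hπ (fun y => (η ν y : ℂ)) i x‖ ^ 2
        ≤ ‖ew φ₂ x * G l x‖ ^ 2 * Real.exp (Ψ x) := by
      intro i l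
      rw [norm_mul, mul_pow]
      exact mul_le_mul_of_nonneg_left (h2 i) (by positivity)
    calc E2 j k ν x ≤ (2 * (‖ew φ₂ x * G k x‖ ^ 2 * Real.exp (Ψ x))
          + 2 * (‖ew φ₂ x * G j x‖ ^ 2 * Real.exp (Ψ x))) * e3 x := by
          apply mul_le_mul_of_nonneg_right _ (e3p x).le
          linarith [h3 j k, h3 k j]
      _ = 2 * (‖ew φ₂ x * G k x‖ ^ 2 * (Real.exp (Ψ x) * e3 x))
          + 2 * (‖ew φ₂ x * G j x‖ ^ 2 * (Real.exp (Ψ x) * e3 x)) := by ring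
      _ = _ := by rw [wt, wt]
  have hpt : ∀ x, ∀ᶠ ν in atTop, ∀ j, dz hπ (fun y => (η ν y : ℂ)) j x = 0 ∧
      dzb hπ (fun y => (η ν y : ℂ)) j x = 0 := by
    intro x
    filter_upwards [hη1 {x} isCompact_singleton] with ν hν j
    rw [nhdsSet_singleton] at hν
    have h1 : (fun y => (η ν y : ℂ)) =ᶠ[𝓝 x] fun _ => (1 : ℂ) := by
      filter_upwards [hν] with y hy
      rw [hy, Complex.ofReal_one]
    exact ⟨by rw [dz_germ h1, dz_const], by rw [dzb_germ h1, dzb_const]⟩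
  have G2 : ∀ j, Integrable (fun x => ‖G j x‖ ^ 2) μ := fun j => integrable_norm_sq (hG j)
  have E1t : Tendsto (fun ν => ∫ x, E1 ν x ∂μ) atTop (𝓝 0) := by
    apply tendsto_integral_zero E1m (integrable_finsetSum _ fun j _ => G2 j)
    · intro ν x; exact mul_nonneg (by positivity) (e3p x).le
    · exact E1b
    · intro x
      filter_upwards [hpt x] with ν hν
      simp only [hE1]
      simp [hν]
  have E2t : ∀ j k, Tendsto (fun ν => ∫ x, E2 j k ν x ∂μ) atTop (𝓝 0) := by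
    intro j k
    apply tendsto_integral_zero (E2m j k) (((G2 k).const_mul 2).add ((G2 j).const_mul 2))
    · intro ν x; exact mul_nonneg (by positivity) (e3p x).le
    · exact E2b j k
    · intro x
      filter_upwards [hpt x] with ν hν
      simp only [hE2]
      simp [hν]
  have E1i : ∀ ν, Integrable (E1 ν) μ := fun ν =>
    (integrable_finsetSum _ fun j _ => G2 j).mono' (E1m ν) (ae_of_all _ fun x => by
      rw [Real.norm_of_nonneg (mul_nonneg (by positivity) (e3p x).le)]; exact E1b ν x)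
  -- the divergence
  set D : M → ℂ := fun x => ∑ j, (dz hπ (f j) j x - f j x * dz hπ (fun y => (φ₂ y : ℂ)) j x)
    with hD
  have hDc : Continuous D := continuous_finsetSum _ fun j _ =>
    ((hf j).smooth.dz j).continuous.sub ((hf j).continuous.mul (s2.ofReal.dz j).continuous)
  have hfK' : ∀ x ∉ K, ∀ j, f j x = 0 ∧ dz hπ (f j) j x = 0 := by
    intro x hx j
    have : x ∉ tsupport (f j) := fun h => hx (hfK j h)
    exact ⟨image_eq_zero_of_notMem_tsupport this, dz_zero_off this j⟩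
  have hDK : ∀ x ∉ K, D x = 0 := by
    intro x hx
    simp only [hD]
    apply Finset.sum_eq_zero
    intro j _
    rw [(hfK' x hx j).1, (hfK' x hx j).2]; simp
  have hK0' : ∀ x ∈ K, ∀ᶠ y in 𝓝 x, Ψ y = 0 ∧ θ y = 0 := eventually_nhdsSet_iff_forall.1 hK0
  -- the inequality for large `ν`
  have hev : ∀ᶠ ν in atTop, ∑ j, ∫ x in S, ‖G j x‖ ^ 2 ∂μ ≤
      2 * (∫ x, ‖D x‖ ^ 2 * e3 x ∂μ + ∫ x, E1 ν x ∂μ)
        + (1 / 2) * ∑ j, ∑ k, ∫ x, E2 j k ν x ∂μ := by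
    filter_upwards [hη1 K hK] with ν hν
    have hν' : ∀ x ∈ K, ∀ᶠ y in 𝓝 x, η ν y = 1 := eventually_nhdsSet_iff_forall.1 hν
    have hdz : ∀ x ∈ K, ∀ j, dz hπ (fun y => (η ν y : ℂ)) j x = 0 := by
      intro x hx j
      have h1 : (fun y => (η ν y : ℂ)) =ᶠ[𝓝 x] fun _ => (1 : ℂ) := by
        filter_upwards [hν' x hx] with y hy
        rw [hy, Complex.ofReal_one]
      rw [dz_germ h1, dz_const]
    have ηs := (hη ν).ofReal
    have ηcc : HasCompactSupport (fun y => (η ν y : ℂ)) :=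
      (hηc ν).comp_left (g := fun t : ℝ => (t : ℂ)) Complex.ofReal_zero
    have mg : ∀ j, MemLp (fun x => (η ν x : ℂ) * (ew φ₂ x * G j x)) 2 μ := by
      intro j
      have e : (fun x => (η ν x : ℂ) * (ew φ₂ x * G j x))
          = fun x => ((η ν x : ℂ) * ew φ₂ x) * G j x := by
        funext x; ring
      rw [e]
      exact memLp_cc_mul (ηs.continuous.mul ewc) ηcc.mul_right (hG j)
    have mgz : ∀ j, MemLp (fun x => ((η ν x : ℂ) * (ew φ₂ x * G j x))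
        * dz hπ (fun y => (φ₂ y : ℂ)) j x) 2 μ := by
      intro j
      have e : (fun x => ((η ν x : ℂ) * (ew φ₂ x * G j x)) * dz hπ (fun y => (φ₂ y : ℂ)) j x)
          = fun x => ((η ν x : ℂ) * (ew φ₂ x * dz hπ (fun y => (φ₂ y : ℂ)) j x)) * G j x := by
        funext x; ring
      rw [e]
      exact memLp_cc_mul (ηs.continuous.mul (ewc.mul (s2.ofReal.dz j).continuous))
        ηcc.mul_right (hG j)
    have mD : MemLp (fun x => (η ν x : ℂ) * D x) 2 μ :=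
      memLp_cc hπ hμ (ηs.continuous.mul hDc) ηcc.mul_right
    have z1 : ∀ x ∉ tsupport (η ν), η ν x = 0 := fun x hx => image_eq_zero_of_notMem_tsupport hx
    have z2 : ∀ x ∉ tsupport (η ν), ∀ j, dz hπ (fun y => (η ν y : ℂ)) j x = 0 ∧
        dzb hπ (fun y => (η ν y : ℂ)) j x = 0 := by
      intro x hx j
      have h1 : (fun y => (η ν y : ℂ)) =ᶠ[𝓝 x] fun _ => (0 : ℂ) := by
        filter_upwards [notMem_tsupport_iff_eventuallyEq.1 hx] with y hy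
        rw [hy]; simp
      exact ⟨by rw [dz_germ h1, dz_const], by rw [dzb_germ h1, dzb_const]⟩
    have key := key_compact hπ hμ hφ hθ hΨ hΨθ hpsh hS hstrict (hηc ν)
      (g := fun j x => (η ν x : ℂ) * (ew φ₂ x * G j x))
      (fun j x hx => by simp [z1 x hx]) mg
      (v := fun x => (η ν x : ℂ) * D x
        + ∑ j, (ew φ₂ x * G j x) * dz hπ (fun y => (η ν y : ℂ)) j x
        + ∑ j, ((η ν x : ℂ) * (ew φ₂ x * G j x)) * dz hπ (fun y => (φ₂ y : ℂ)) j x)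
      ((mD.add (m1 ν)).add (memLp_finsetSum _ fun j _ => mgz j))
      (fun x hx => by simp [z1 x hx, z2 x hx])
      (c := fun j k x => (ew φ₂ x * G k x) * dzb hπ (fun y => (η ν y : ℂ)) j x
        - (ew φ₂ x * G j x) * dzb hπ (fun y => (η ν y : ℂ)) k x)
      (fun j k => m2 ν j k)
      (fun j k x hx => by simp [z2 x hx])
      (fun α hα => cut_div hπ hμ s2 hf hG hb (hη ν) hα)
      (fun α hα j k => cut_curl hπ hμ s2 hG ha (hη ν) hα j k)
    have eφ : (fun y => ((φ y + θ y - Ψ y : ℝ) : ℂ)) = fun y => (φ₂ y : ℂ) := by rw [hφ₂]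
    rw [eφ] at key
    have r1 : ∑ j, ∫ x in S, ‖(η ν x : ℂ) * (ew φ₂ x * G j x)‖ ^ 2
        * Real.exp (-(φ x + θ x)) ∂μ = ∑ j, ∫ x in S, ‖G j x‖ ^ 2 ∂μ := by
      apply Finset.sum_congr rfl
      intro j _
      apply setIntegral_congr_fun hS.measurableSet
      intro x hx
      have hxK := hSK hx
      have h1 : η ν x = 1 := (hν' x hxK).self_of_nhds
      have h2 : Ψ x = 0 := (hK0' x hxK).self_of_nhds.1
      have h3 := wt x (G j x)
      rw [h2, Real.exp_zero, one_mul] at h3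
      change ‖(η ν x : ℂ) * (ew φ₂ x * G j x)‖ ^ 2 * e3 x = ‖G j x‖ ^ 2
      rw [h1, Complex.ofReal_one, one_mul]
      exact h3
    have iD : Integrable (fun x => ‖D x‖ ^ 2 * e3 x) μ := by
      apply integrable_of_cont ((hDc.norm.pow 2).mul e3c) hK
      intro x hx
      change ‖D x‖ ^ 2 * e3 x = 0
      rw [hDK x hx]; simp
    have r2 : ∫ x, ‖(η ν x : ℂ) * D x
        + ∑ j, (ew φ₂ x * G j x) * dz hπ (fun y => (η ν y : ℂ)) j x
        + ∑ j, ((η ν x : ℂ) * (ew φ₂ x * G j x)) * dz hπ (fun y => (φ₂ y : ℂ)) j x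
        - ∑ j, ((η ν x : ℂ) * (ew φ₂ x * G j x)) * dz hπ (fun y => (φ₂ y : ℂ)) j x‖ ^ 2
        * Real.exp (-(φ x + θ x)) ∂μ
        = ∫ x, ‖D x‖ ^ 2 * e3 x ∂μ + ∫ x, E1 ν x ∂μ := by
      rw [← integral_add iD (E1i ν)]
      congr 1
      funext x
      rw [add_sub_cancel_right]
      change ‖(η ν x : ℂ) * D x
        + ∑ j, (ew φ₂ x * G j x) * dz hπ (fun y => (η ν y : ℂ)) j x‖ ^ 2 * e3 x
        = ‖D x‖ ^ 2 * e3 x
          + ‖∑ j, (ew φ₂ x * G j x) * dz hπ (fun y => (η ν y : ℂ)) j x‖ ^ 2 * e3 x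
      by_cases hx : x ∈ K
      · have h1 : η ν x = 1 := (hν' x hx).self_of_nhds
        have h2 : ∑ j, (ew φ₂ x * G j x) * dz hπ (fun y => (η ν y : ℂ)) j x = 0 := by
          apply Finset.sum_eq_zero
          intro j _
          rw [hdz x hx j, mul_zero]
        rw [h1, h2]; simp
      · rw [hDK x hx]; simp
    rw [r1, r2] at key
    exact key
  -- the limit
  have hlim : Tendsto (fun ν => 2 * (∫ x, ‖D x‖ ^ 2 * e3 x ∂μ + ∫ x, E1 ν x ∂μ)
        + (1 / 2) * ∑ j, ∑ k, ∫ x, E2 j k ν x ∂μ) atTop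
      (𝓝 (2 * (∫ x, ‖D x‖ ^ 2 * e3 x ∂μ + 0) + (1 / 2) * ∑ _j : Fin n, ∑ _k : Fin n, (0 : ℝ))) :=
    ((tendsto_const_nhds.add E1t).const_mul 2).add
      ((tendsto_finsetSum (Finset.univ : Finset (Fin n)) fun j _ =>
        tendsto_finsetSum (Finset.univ : Finset (Fin n)) fun k _ => E2t j k).const_mul (1 / 2))
  have hfin := ge_of_tendsto hlim hev
  simp only [add_zero, Finset.sum_const_zero, mul_zero] at hfin
  refine hfin.trans (le_of_eq ?_)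
  congr 2
  funext x
  by_cases hx : x ∈ K
  · have h1 : (fun y => (φ₂ y : ℂ)) =ᶠ[𝓝 x] fun y => (φ y : ℂ) := by
      filter_upwards [hK0' x hx] with y hy
      rw [hφ₂]
      simp only
      rw [hy.1, hy.2]; simp
    have h2 : e3 x = Real.exp (-(φ x)) := by
      simp only [he3]
      rw [(hK0' x hx).self_of_nhds.2, add_zero]
    rw [h2]
    congr 3
    simp only [hD]
    apply Finset.sum_congr rfl
    intro j _
    rw [dz_germ h1]
  · have h1 : ∑ j, (dz hπ (f j) j x - f j x * dz hπ (fun y => (φ y : ℂ)) j x) = 0 := by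
      apply Finset.sum_eq_zero
      intro j _
      rw [(hfK' x hx j).1, (hfK' x hx j).2]; simp
    rw [hDK x hx, h1]; simp

/-- The main estimate: the functional `f ↦ ∑ ∫ conj (∂̄_j χ) f_j e^{-φ}` on test forms. -/
lemma main_estimate {μ : Measure M} (hπ : IsLocalHomeomorph π) (hμ : IsFlatMeasure π μ)
    (hC : HCond hπ) {φ : M → ℝ} (hφ : RSmooth hπ φ) (hpsh : ∀ x ξ, 0 ≤ levi hπ φ x ξ)
    {χ : M → ℂ} (hχ : IsTest hπ χ)
    (hstrict : ∀ x ∈ tsupport χ, ∀ ξ : Fin n → ℂ, ∑ j, ‖ξ j‖ ^ 2 ≤ levi hπ φ x ξ)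
    {f : Fin n → M → ℂ} (hf : ∀ j, IsTest hπ (f j)) :
    ‖∑ j, ∫ x, conj (dzb hπ χ j x) * f j x * ((Real.exp (-(φ x)) : ℝ) : ℂ) ∂μ‖ ^ 2 ≤
      (∑ j, ∫ x, ‖dzb hπ χ j x‖ ^ 2 * Real.exp (-(φ x)) ∂μ) *
      (2 * ∫ x, ‖∑ j, (dz hπ (f j) j x - f j x * dz hπ (fun y => (φ y : ℂ)) j x)‖ ^ 2
        * Real.exp (-(φ x)) ∂μ) := by
  have := finiteOnCompacts hπ hμ
  set K : Set M := tsupport χ ∪ ⋃ j, tsupport (f j) with hKdef
  have hK : IsCompact K := IsCompact.union hχ.compact (isCompact_iUnion fun j => (hf j).compact)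
  have hχK : tsupport χ ⊆ K := subset_union_left
  have hfK : ∀ j, tsupport (f j) ⊆ K := fun j =>
    (subset_iUnion (fun j => tsupport (f j)) j).trans subset_union_right
  obtain ⟨Ψ, θ, η, hΨ, hθ, hη, hK0, hηc, _, hη1, hηd, hΨθ⟩ := hC K hK
  have s2 : RSmooth hπ (fun x => φ x + θ x - Ψ x) := (hφ.add hθ).sub hΨ
  set φ₂ : M → ℝ := fun x => φ x + θ x - Ψ x with hφ₂
  obtain ⟨G, hG, ha, hb⟩ := exists_closed_part hπ hμ s2.continuous hf
  have hS : IsClosed (tsupport χ) := isClosed_tsupport χ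
  have hest := closed_part_estimate hπ hμ hφ hθ hΨ hφ₂ hΨθ hpsh hS hχK hK hstrict hK0 hη hηc
    hη1 hηd hf hfK hG ha hb
  have hK0' : ∀ x ∈ K, φ₂ x = φ x := by
    intro x hx
    have h1 := (eventually_nhdsSet_iff_forall.1 hK0 x hx).self_of_nhds
    simp only [hφ₂]
    rw [h1.1, h1.2]; simp
  have hd0 : ∀ x ∉ tsupport χ, ∀ j, dzb hπ χ j x = 0 := fun x hx j => dzb_zero_off hx j
  have hwc := continuous_hw (φ := φ₂) s2.continuous
  have hb1 := hb χ hχ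
  -- the functional
  have e1 : ∑ j, ∫ x, conj (dzb hπ χ j x) * f j x * ((Real.exp (-(φ x)) : ℝ) : ℂ) ∂μ
      = ∑ j, ∫ x, conj (dzb hπ χ j x) * hw φ₂ x * (hw φ₂ x * f j x) ∂μ := by
    apply Finset.sum_congr rfl
    intro j _
    congr 1
    funext x
    by_cases hx : x ∈ tsupport χ
    · have h1 : hw φ₂ x * hw φ₂ x = ((Real.exp (-(φ x)) : ℝ) : ℂ) := by
        unfold hw
        rw [← Complex.ofReal_mul, ← Real.exp_add, hK0' x (hχK hx)]
        congr 2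
        ring
      rw [← h1]; ring
    · rw [hd0 x hx j]; simp
  have mA : ∀ j, MemLp (fun x => hw φ₂ x * dzb hπ χ j x) 2 μ := fun j =>
    memLp_cc hπ hμ (hwc.mul (hχ.dzb j).continuous) (hχ.dzb j).compact.mul_left
  have mB : ∀ j, MemLp ((tsupport χ).indicator (G j)) 2 μ := fun j =>
    (hG j).indicator hS.measurableSet
  have e2 : ∑ j, ∫ x, conj (dzb hπ χ j x) * hw φ₂ x * G j x ∂μ
      = ∑ j, ∫ x, conj (hw φ₂ x * dzb hπ χ j x) * (tsupport χ).indicator (G j) x ∂μ := by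
    apply Finset.sum_congr rfl
    intro j _
    congr 1
    funext x
    rw [map_mul, conj_hw]
    by_cases hx : x ∈ tsupport χ
    · rw [Set.indicator_of_mem hx]; ring
    · rw [hd0 x hx j]; simp
  have h1 := cauchy_schwarz mA mB
  rw [e1, ← hb1, e2]
  refine h1.trans ?_
  have e3 : ∑ j, ∫ x, ‖hw φ₂ x * dzb hπ χ j x‖ ^ 2 ∂μ
      = ∑ j, ∫ x, ‖dzb hπ χ j x‖ ^ 2 * Real.exp (-(φ x)) ∂μ := by
    apply Finset.sum_congr rfl
    intro j _
    congr 1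
    funext x
    rw [norm_hw_mul_sq]
    by_cases hx : x ∈ tsupport χ
    · rw [hK0' x (hχK hx)]
    · rw [hd0 x hx j]; simp
  have e4 : ∑ j, ∫ x, ‖(tsupport χ).indicator (G j) x‖ ^ 2 ∂μ
      = ∑ j, ∫ x in tsupport χ, ‖G j x‖ ^ 2 ∂μ := by
    apply Finset.sum_congr rfl
    intro j _
    rw [← integral_indicator hS.measurableSet]
    congr 1
    funext x
    by_cases hx : x ∈ tsupport χ
    · rw [Set.indicator_of_mem hx, Set.indicator_of_mem hx]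
    · rw [Set.indicator_of_notMem hx, Set.indicator_of_notMem hx]; simp
  rw [e3, e4]
  apply mul_le_mul_of_nonneg_left hest
  apply Finset.sum_nonneg
  intro j _
  apply integral_nonneg
  intro x
  exact mul_nonneg (by positivity) (Real.exp_pos _).le

end Pool.Agent.Levi
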