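import Pool.Agent.Levi.HKey

/-!
# The projection onto weakly closed forms
-/

set_option autoImplicit false

open Set Filter Topology MeasureTheory
open scoped ContDiff ComplexConjugate ENNReal

namespace Pool.Agent.Levi

section Abstract

variable {n : ℕ} {M : Type} [MeasurableSpace M] {μ : Measure M}

/-- The Hilbert space of square integrable forms. -/
abbrev HF (n : ℕ) (μ : Measure M) := PiLp 2 (fun _ : Fin n => Lp ℂ 2 μ)

lemma inner_toLp_eq {a : M → ℂ} (ha : MemLp a 2 μ) (G : Lp ℂ 2 μ) :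
    inner ℂ (ha.toLp a) G = ∫ x, conj (a x) * G x ∂μ := by
  rw [L2.inner_def]
  apply integral_congr_ae
  filter_upwards [ha.coeFn_toLp] with x hx
  rw [hx, RCLike.inner_apply, mul_comm]

lemma inner_toLp_toLp {a b : M → ℂ} (ha : MemLp a 2 μ) (hb : MemLp b 2 μ) :
    inner ℂ (ha.toLp a) (hb.toLp b) = ∫ x, conj (a x) * b x ∂μ := by
  rw [inner_toLp_eq]
  apply integral_congr_ae
  filter_upwards [hb.coeFn_toLp] with x hx
  rw [hx]

/-- A form as an element of the Hilbert space. -/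
noncomputable def vec {A : Fin n → M → ℂ} (hA : ∀ j, MemLp (A j) 2 μ) : HF n μ :=
  WithLp.toLp 2 (fun j => (hA j).toLp (A j))

lemma inner_vec {A : Fin n → M → ℂ} (hA : ∀ j, MemLp (A j) 2 μ) (G : HF n μ) :
    inner ℂ (vec hA) G = ∑ j, ∫ x, conj (A j x) * G j x ∂μ := by
  rw [PiLp.inner_apply]
  apply Finset.sum_congr rfl
  intro j _
  exact inner_toLp_eq (hA j) (G j)

lemma inner_vec_vec {A B : Fin n → M → ℂ} (hA : ∀ j, MemLp (A j) 2 μ)
    (hB : ∀ j, MemLp (B j) 2 μ) :
    inner ℂ (vec hA) (vec hB) = ∑ j, ∫ x, conj (A j x) * B j x ∂μ := by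
  rw [PiLp.inner_apply]
  apply Finset.sum_congr rfl
  intro j _
  exact inner_toLp_toLp (hA j) (hB j)

lemma norm_vec_sq {A : Fin n → M → ℂ} (hA : ∀ j, MemLp (A j) 2 μ) :
    ‖vec hA‖ ^ 2 = ∑ j, ∫ x, ‖A j x‖ ^ 2 ∂μ := by
  rw [PiLp.norm_sq_eq_of_L2]
  apply Finset.sum_congr rfl
  intro j _
  rw [integral_norm_sq_eq (hA j)]
  congr 1
  exact Lp.norm_toLp _ (hA j)

/-- Cauchy-Schwarz. -/
lemma cauchy_schwarz {A B : Fin n → M → ℂ} (hA : ∀ j, MemLp (A j) 2 μ)
    (hB : ∀ j, MemLp (B j) 2 μ) :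
    ‖∑ j, ∫ x, conj (A j x) * B j x ∂μ‖ ^ 2
      ≤ (∑ j, ∫ x, ‖A j x‖ ^ 2 ∂μ) * ∑ j, ∫ x, ‖B j x‖ ^ 2 ∂μ := by
  rw [← inner_vec_vec hA hB, ← norm_vec_sq hA, ← norm_vec_sq hB, ← mul_pow]
  gcongr
  exact norm_inner_le_norm _ _

lemma inner_pair (a b : Lp ℂ 2 μ) (j k : Fin n) (G : HF n μ) :
    inner ℂ (WithLp.toLp 2 (fun i => (if i = k then a else 0) - (if i = j then b else 0)) : HF n μ)
      G = inner ℂ a (G k) - inner ℂ b (G j) := by
  rw [PiLp.inner_apply]
  simp only [inner_sub_left, Finset.sum_sub_distrib]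
  congr 1
  · have : ∀ i, inner ℂ (if i = k then a else 0) (G i) = if i = k then inner ℂ a (G i) else 0 := by
      intro i
      split_ifs
      · rfl
      · exact inner_zero_left _
    simp only [this, Finset.sum_ite_eq', Finset.mem_univ, if_true]
  · have : ∀ i, inner ℂ (if i = j then b else 0) (G i) = if i = j then inner ℂ b (G i) else 0 := by
      intro i
      split_ifs
      · rfl
      · exact inner_zero_left _
    simp only [this, Finset.sum_ite_eq', Finset.mem_univ, if_true]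

end Abstract

variable {n : ℕ} {M : Type} [TopologicalSpace M] {π : M → (Fin n → ℂ)}
variable [T2Space M] [SecondCountableTopology M] [MeasurableSpace M] [BorelSpace M]

/-- Continuous compactly supported functions are square integrable. -/
lemma memLp_cc {μ : Measure M} (hπ : IsLocalHomeomorph π) (hμ : IsFlatMeasure π μ) {u : M → ℂ}
    (hu : Continuous u) (hc : HasCompactSupport u) : MemLp u 2 μ := by
  have := finiteOnCompacts hπ hμ
  exact hu.memLp_of_hasCompactSupport hc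

lemma integrable_mul_cc {μ : Measure M} (hπ : IsLocalHomeomorph π) (hμ : IsFlatMeasure π μ)
    {u G : M → ℂ} (hu : Continuous u) (hc : HasCompactSupport u) (hG : MemLp G 2 μ) :
    Integrable (fun x => u x * G x) μ :=
  (memLp_cc hπ hμ hu hc).integrable_mul hG

/-- `∂̄` of a test function is weakly closed. -/
lemma closed_test {μ : Measure M} (hπ : IsLocalHomeomorph π) (hμ : IsFlatMeasure π μ)
    {α β : M → ℂ} (hα : IsTest hπ α) (hβ : IsTest hπ β) (j k : Fin n) :
    ∫ x, (dzb hπ β j x * dzb hπ α k x - dzb hπ β k x * dzb hπ α j x) ∂μ = 0 := by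
  have t1 : IsTest hπ (fun x => β x * dzb hπ α k x) := hβ.mul_left (hα.smooth.dzb k)
  have t2 : IsTest hπ (fun x => β x * dzb hπ α j x) := hβ.mul_left (hα.smooth.dzb j)
  have h1 := (integral_dz_eq_zero hπ hμ t1 j).2
  have h2 := (integral_dz_eq_zero hπ hμ t2 k).2
  have h3 := congrArg₂ (fun a b : ℂ => a - b) h1 h2
  simp only [sub_zero] at h3
  rw [← integral_sub ((t1.dzb j).integrable hπ hμ) ((t2.dzb k).integrable hπ hμ)] at h3
  rw [← h3]
  congr 1
  funext x
  rw [dzb_mul hβ.smooth (hα.smooth.dzb k), dzb_mul hβ.smooth (hα.smooth.dzb j),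
    dzb_dzb_comm hα.smooth j k]
  ring

/-- `e^{φ/2}` as a complex function. -/
noncomputable def ew (φ : M → ℝ) (x : M) : ℂ := ((Real.exp (φ x / 2) : ℝ) : ℂ)

omit [T2Space M] [SecondCountableTopology M] [MeasurableSpace M] [BorelSpace M] in
lemma continuous_ew {φ : M → ℝ} (h : Continuous φ) : Continuous (ew φ) :=
  Complex.continuous_ofReal.comp (Real.continuous_exp.comp (h.div_const 2))

omit [TopologicalSpace M] [T2Space M] [SecondCountableTopology M] [MeasurableSpace M]
  [BorelSpace M] in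
lemma ew_mul_hw (φ : M → ℝ) (x : M) : ew φ x * hw φ x = 1 := by
  unfold ew hw
  rw [← Complex.ofReal_mul, ← Real.exp_add]
  have : φ x / 2 + -(φ x) / 2 = 0 := by ring
  rw [this, Real.exp_zero, Complex.ofReal_one]

omit [TopologicalSpace M] [T2Space M] [SecondCountableTopology M] [MeasurableSpace M]
  [BorelSpace M] in
lemma conj_ew (φ : M → ℝ) (x : M) : conj (ew φ x) = ew φ x := Complex.conj_ofReal _

omit [TopologicalSpace M] [T2Space M] [SecondCountableTopology M] [MeasurableSpace M]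
  [BorelSpace M] in
lemma conj_hw (φ : M → ℝ) (x : M) : conj (hw φ x) = hw φ x := Complex.conj_ofReal _

/-- The closed part of a test form in a weighted space. -/
lemma exists_closed_part {μ : Measure M} (hπ : IsLocalHomeomorph π) (hμ : IsFlatMeasure π μ)
    {φ : M → ℝ} (hφ : Continuous φ) {f : Fin n → M → ℂ} (hf : ∀ j, IsTest hπ (f j)) :
    ∃ G : Fin n → M → ℂ, (∀ j, MemLp (G j) 2 μ) ∧
      (∀ α, IsTest hπ α → ∀ j k, ∫ x, (ew φ x * dzb hπ α j x * G k x
        - ew φ x * dzb hπ α k x * G j x) ∂μ = 0) ∧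
      (∀ α, IsTest hπ α → ∑ j, ∫ x, conj (dzb hπ α j x) * hw φ x * G j x ∂μ
        = ∑ j, ∫ x, conj (dzb hπ α j x) * hw φ x * (hw φ x * f j x) ∂μ) := by
  have ewc := continuous_ew hφ
  have hwc := continuous_hw hφ
  have hF : ∀ j, MemLp (fun x => hw φ x * f j x) 2 μ := fun j =>
    memLp_cc hπ hμ (hwc.mul (hf j).continuous) (hf j).compact.mul_left
  have hw1 : ∀ {α : M → ℂ}, IsTest hπ α → ∀ j,
      MemLp (fun x => ew φ x * conj (dzb hπ α j x)) 2 μ := fun {α} hα j =>
    memLp_cc hπ hμ (ewc.mul (hα.dzb j).conj.continuous) (hα.dzb j).conj.compact.mul_left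
  have hE : ∀ {α : M → ℂ}, IsTest hπ α → ∀ j, MemLp (fun x => hw φ x * dzb hπ α j x) 2 μ :=
    fun {α} hα j => memLp_cc hπ hμ (hwc.mul (hα.dzb j).continuous) (hα.dzb j).compact.mul_left
  set W : Set (HF n μ) := {w | ∃ (α : M → ℂ) (hα : IsTest hπ α) (j k : Fin n),
    w = WithLp.toLp 2 (fun i => (if i = k then (hw1 hα j).toLp _ else 0)
      - (if i = j then (hw1 hα k).toLp _ else 0))} with hW
  obtain ⟨G, hG1, hG2⟩ := exists_proj W (vec hF)
  refine ⟨fun j => G j, fun j => Lp.memLp (G j), ?_, ?_⟩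
  · intro α hα j k
    have h1 := hG1 _ ⟨α, hα, j, k, rfl⟩
    rw [inner_pair, inner_toLp_eq, inner_toLp_eq] at h1
    have i1 : ∀ j k, Integrable (fun x => ew φ x * dzb hπ α j x * G k x) μ := fun j k =>
      integrable_mul_cc hπ hμ (ewc.mul (hα.dzb j).continuous) (hα.dzb j).compact.mul_left
        (Lp.memLp (G k))
    rw [integral_sub (i1 j k) (i1 k j)]
    have e1 : ∀ j k, ∫ x, conj (ew φ x * conj (dzb hπ α j x)) * G k x ∂μ
        = ∫ x, ew φ x * dzb hπ α j x * G k x ∂μ := by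
      intro j k
      congr 1
      funext x
      rw [map_mul, conj_ew, Complex.conj_conj]
    rw [e1, e1] at h1
    exact h1
  · intro α hα
    have h1 := hG2 (vec (hE hα)) (by
      rintro w ⟨β, hβ, j, k, rfl⟩
      rw [inner_pair]
      change inner ℂ ((hw1 hβ j).toLp _) ((hE hα k).toLp _)
        - inner ℂ ((hw1 hβ k).toLp _) ((hE hα j).toLp _) = 0
      rw [inner_toLp_toLp, inner_toLp_toLp]
      have e1 : ∀ j k, ∫ x, conj (ew φ x * conj (dzb hπ β j x)) * (hw φ x * dzb hπ α k x) ∂μ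
          = ∫ x, dzb hπ β j x * dzb hπ α k x ∂μ := by
        intro j k
        congr 1
        funext x
        rw [map_mul, conj_ew, Complex.conj_conj]
        linear_combination (dzb hπ β j x * dzb hπ α k x) * ew_mul_hw φ x
      have i1 : ∀ j k, Integrable (fun x => dzb hπ β j x * dzb hπ α k x) μ := fun j k =>
        ((hβ.dzb j).mul_left (hα.smooth.dzb k)).integrable hπ hμ
      rw [e1, e1, ← integral_sub (i1 j k) (i1 k j)]
      exact closed_test hπ hμ hα hβ j k)
    rw [inner_vec_vec, inner_vec] at h1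
    have e1 : ∀ (j : Fin n) (u : M → ℂ), ∫ x, conj (hw φ x * dzb hπ α j x) * u x ∂μ
        = ∫ x, conj (dzb hπ α j x) * hw φ x * u x ∂μ := by
      intro j u
      congr 1
      funext x
      rw [map_mul, conj_hw]; ring
    have e2 : ∑ j, ∫ x, conj (hw φ x * dzb hπ α j x) * (hw φ x * f j x) ∂μ
        = ∑ j, ∫ x, conj (dzb hπ α j x) * hw φ x * (hw φ x * f j x) ∂μ :=
      Finset.sum_congr rfl fun j _ => e1 j _
    have e3 : ∑ j, ∫ x, conj (hw φ x * dzb hπ α j x) * G j x ∂μ
        = ∑ j, ∫ x, conj (dzb hπ α j x) * hw φ x * G j x ∂μ :=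
      Finset.sum_congr rfl fun j _ => e1 j _
    rw [← e2, ← e3]
    exact h1.symm

end Pool.Agent.Levi
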