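import Pool.Agent.Levi.Basic

/-!
# Transfer between a Riemann domain and `ℂⁿ`
-/

set_option autoImplicit false

open Set Filter Topology MeasureTheory
open scoped ContDiff ComplexConjugate

namespace Pool.Agent.Levi

section

variable {n : ℕ} {M : Type} [TopologicalSpace M] {π : M → (Fin n → ℂ)}

/-- a right inverse of `π` on the target -/
theorem localInverseAt_apply_of_mem_target (hπ : IsLocalHomeomorph π) {w0 w : M}
    (hw : w ∈ (hπ.localInverseAt w0).target) : hπ.localInverseAt w0 (π w) = w := by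
  have := (hπ.localInverseAt w0).right_inv hw
  rwa [hπ.localInverseAt_symm] at this

theorem apply_mem_source_of_mem_target (hπ : IsLocalHomeomorph π) {w0 w : M}
    (hw : w ∈ (hπ.localInverseAt w0).target) : π w ∈ (hπ.localInverseAt w0).source := by
  have := (hπ.localInverseAt w0).map_target hw
  rwa [hπ.localInverseAt_symm] at this

/-- two local inverses of `π` agree near a common point -/
theorem localInverseAt_eventuallyEq (hπ : IsLocalHomeomorph π) {w0 w : M}
    (hw : w ∈ (hπ.localInverseAt w0).target) :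
    (hπ.localInverseAt w : (Fin n → ℂ) → M) =ᶠ[𝓝 (π w)] hπ.localInverseAt w0 := by
  have h1 : ContinuousAt (hπ.localInverseAt w) (π w) :=
    (hπ.localInverseAt w).continuousAt hπ.apply_self_mem_localInverseAt_source
  have h2 : ∀ᶠ z in 𝓝 (π w), hπ.localInverseAt w z ∈ (hπ.localInverseAt w0).target := by
    apply h1
    rw [hπ.localInverseAt_apply_self]
    exact (hπ.localInverseAt w0).open_target.mem_nhds hw
  have h3 : ∀ᶠ z in 𝓝 (π w), z ∈ (hπ.localInverseAt w).source :=
    (hπ.localInverseAt w).open_source.mem_nhds hπ.apply_self_mem_localInverseAt_source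
  filter_upwards [h2, h3] with z hz hz'
  have h4 := localInverseAt_apply_of_mem_target hπ hz
  rw [hπ.apply_localInverseAt_of_mem hz'] at h4
  exact h4.symm

theorem comp_localInverseAt_eventuallyEq (hπ : IsLocalHomeomorph π) {w0 w : M}
    (hw : w ∈ (hπ.localInverseAt w0).target) {F : Type} (u : M → F) :
    (u ∘ hπ.localInverseAt w) =ᶠ[𝓝 (π w)] (u ∘ hπ.localInverseAt w0) := by
  filter_upwards [localInverseAt_eventuallyEq hπ hw] with z hz
  simp [hz]

theorem rderiv_eq_of_mem (hπ : IsLocalHomeomorph π) {w0 w : M}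
    (hw : w ∈ (hπ.localInverseAt w0).target) {F : Type} [NormedAddCommGroup F]
    [NormedSpace ℝ F] (u : M → F) (v : Fin n → ℂ) :
    rderiv hπ u v w = fderiv ℝ (u ∘ hπ.localInverseAt w0) (π w) v := by
  rw [rderiv, (comp_localInverseAt_eventuallyEq hπ hw u).fderiv_eq]

theorem dz_eq_of_mem (hπ : IsLocalHomeomorph π) {w0 w : M}
    (hw : w ∈ (hπ.localInverseAt w0).target) (u : M → ℂ) (j : Fin n) :
    dz hπ u j w = dzE (u ∘ hπ.localInverseAt w0) j (π w) := by
  rw [dz, dzE, rderiv_eq_of_mem hπ hw, rderiv_eq_of_mem hπ hw]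

theorem dzb_eq_of_mem (hπ : IsLocalHomeomorph π) {w0 w : M}
    (hw : w ∈ (hπ.localInverseAt w0).target) (u : M → ℂ) (j : Fin n) :
    dzb hπ u j w = dzbE (u ∘ hπ.localInverseAt w0) j (π w) := by
  rw [dzb, dzbE, rderiv_eq_of_mem hπ hw, rderiv_eq_of_mem hπ hw]

/-- functions which vanish near a point have zero derivative there -/
theorem rderiv_eq_zero (hπ : IsLocalHomeomorph π) {w : M} {F : Type} [NormedAddCommGroup F]
    [NormedSpace ℝ F] {u : M → F} (hu : u =ᶠ[𝓝 w] 0) (v : Fin n → ℂ) :
    rderiv hπ u v w = 0 := by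
  have h1 : ContinuousAt (hπ.localInverseAt w) (π w) :=
    (hπ.localInverseAt w).continuousAt hπ.apply_self_mem_localInverseAt_source
  have h2 : (u ∘ hπ.localInverseAt w) =ᶠ[𝓝 (π w)] 0 := by
    rw [ContinuousAt, hπ.localInverseAt_apply_self] at h1
    exact h1.eventually hu
  rw [rderiv, h2.fderiv_eq]
  simp

theorem dz_eq_zero (hπ : IsLocalHomeomorph π) {w : M} {u : M → ℂ} (hu : u =ᶠ[𝓝 w] 0)
    (j : Fin n) : dz hπ u j w = 0 := by
  rw [dz, rderiv_eq_zero hπ hu, rderiv_eq_zero hπ hu]; simp

theorem dzb_eq_zero (hπ : IsLocalHomeomorph π) {w : M} {u : M → ℂ} (hu : u =ᶠ[𝓝 w] 0)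
    (j : Fin n) : dzb hπ u j w = 0 := by
  rw [dzb, rderiv_eq_zero hπ hu, rderiv_eq_zero hπ hu]; simp

/-! ### extension by zero -/

open Classical in
/-- the function on `M` which is `β ∘ π` on the sheet at `w0` and zero elsewhere -/
noncomputable def extz (hπ : IsLocalHomeomorph π) (w0 : M) {F : Type} [Zero F]
    (β : (Fin n → ℂ) → F) : M → F :=
  fun x => if x ∈ (hπ.localInverseAt w0).target then β (π x) else 0

theorem extz_of_mem (hπ : IsLocalHomeomorph π) {w0 x : M} {F : Type} [Zero F]
    (β : (Fin n → ℂ) → F) (hx : x ∈ (hπ.localInverseAt w0).target) :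
    extz hπ w0 β x = β (π x) := if_pos hx

theorem extz_of_notMem (hπ : IsLocalHomeomorph π) {w0 x : M} {F : Type} [Zero F]
    (β : (Fin n → ℂ) → F) (hx : x ∉ (hπ.localInverseAt w0).target) :
    extz hπ w0 β x = 0 := if_neg hx

theorem extz_comp_eventuallyEq (hπ : IsLocalHomeomorph π) {w0 w : M} {F : Type} [Zero F]
    (β : (Fin n → ℂ) → F) (hw : w ∈ (hπ.localInverseAt w0).target) :
    (extz hπ w0 β ∘ hπ.localInverseAt w) =ᶠ[𝓝 (π w)] β := by
  have h0 := comp_localInverseAt_eventuallyEq hπ hw (extz hπ w0 β)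
  have h3 : ∀ᶠ z in 𝓝 (π w), z ∈ (hπ.localInverseAt w0).source :=
    (hπ.localInverseAt w0).open_source.mem_nhds (apply_mem_source_of_mem_target hπ hw)
  filter_upwards [h0, h3] with z hz hz'
  rw [hz]
  show extz hπ w0 β (hπ.localInverseAt w0 z) = β z
  rw [extz_of_mem hπ β ((hπ.localInverseAt w0).map_source hz'),
    hπ.apply_localInverseAt_of_mem hz']

/-- the image of a compact subset of the source in `M` -/
theorem isCompact_image_source (hπ : IsLocalHomeomorph π) (w0 : M) {K : Set (Fin n → ℂ)}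
    (hK : IsCompact K) (hKs : K ⊆ (hπ.localInverseAt w0).source) :
    IsCompact (hπ.localInverseAt w0 '' K) :=
  hK.image_of_continuousOn ((hπ.localInverseAt w0).continuousOn.mono hKs)

theorem image_subset_target (hπ : IsLocalHomeomorph π) (w0 : M) {K : Set (Fin n → ℂ)}
    (hKs : K ⊆ (hπ.localInverseAt w0).source) :
    hπ.localInverseAt w0 '' K ⊆ (hπ.localInverseAt w0).target := by
  rintro _ ⟨z, hz, rfl⟩
  exact (hπ.localInverseAt w0).map_source (hKs hz)

theorem extz_eq_zero_of_notMem (hπ : IsLocalHomeomorph π) {w0 x : M} {F : Type} [Zero F]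
    {β : (Fin n → ℂ) → F} {K : Set (Fin n → ℂ)} (hβ : ∀ z, z ∉ K → β z = 0)
    (hx : x ∉ hπ.localInverseAt w0 '' K) : extz hπ w0 β x = 0 := by
  by_cases h : x ∈ (hπ.localInverseAt w0).target
  · rw [extz_of_mem hπ β h]
    apply hβ
    intro hK
    exact hx ⟨π x, hK, localInverseAt_apply_of_mem_target hπ h⟩
  · exact extz_of_notMem hπ β h

theorem extz_eventually_zero [T2Space M] (hπ : IsLocalHomeomorph π) {w0 x : M} {F : Type}
    [Zero F] {β : (Fin n → ℂ) → F} {K : Set (Fin n → ℂ)} (hK : IsCompact K)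
    (hKs : K ⊆ (hπ.localInverseAt w0).source) (hβ : ∀ z, z ∉ K → β z = 0)
    (hx : x ∉ hπ.localInverseAt w0 '' K) : extz hπ w0 β =ᶠ[𝓝 x] 0 := by
  have hc := (isCompact_image_source hπ w0 hK hKs).isClosed
  filter_upwards [hc.isOpen_compl.mem_nhds hx] with y hy
  exact extz_eq_zero_of_notMem hπ hβ hy

/-- the extension by zero of a test function is a test function -/
theorem isTest_extz [T2Space M] (hπ : IsLocalHomeomorph π) {w0 : M} {β : (Fin n → ℂ) → ℂ}
    (hβ : ContDiff ℝ ∞ β) {K : Set (Fin n → ℂ)} (hK : IsCompact K)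
    (hKs : K ⊆ (hπ.localInverseAt w0).source) (hβK : ∀ z, z ∉ K → β z = 0) :
    IsTest hπ (extz hπ w0 β) where
  smooth := by
    intro w
    by_cases hw : w ∈ (hπ.localInverseAt w0).target
    · exact hβ.contDiffAt.congr_of_eventuallyEq (extz_comp_eventuallyEq hπ β hw)
    · have hx : w ∉ hπ.localInverseAt w0 '' K := fun h => hw (image_subset_target hπ w0 hKs h)
      have h0 := extz_eventually_zero hπ hK hKs hβK hx
      have h1 : ContinuousAt (hπ.localInverseAt w) (π w) :=
        (hπ.localInverseAt w).continuousAt hπ.apply_self_mem_localInverseAt_source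
      have h2 : (extz hπ w0 β ∘ hπ.localInverseAt w) =ᶠ[𝓝 (π w)] fun _ => 0 := by
        rw [ContinuousAt, hπ.localInverseAt_apply_self] at h1
        exact h1.eventually h0
      exact contDiffAt_const.congr_of_eventuallyEq h2
  compact := by
    apply HasCompactSupport.of_support_subset_isCompact (isCompact_image_source hπ w0 hK hKs)
    intro x hx
    by_contra hn
    exact hx (extz_eq_zero_of_notMem hπ hβK hn)

theorem dzb_extz [T2Space M] (hπ : IsLocalHomeomorph π) {w0 : M} {β : (Fin n → ℂ) → ℂ}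
    {K : Set (Fin n → ℂ)} (hK : IsCompact K)
    (hKs : K ⊆ (hπ.localInverseAt w0).source) (hβK : ∀ z, z ∉ K → β z = 0) (j : Fin n) (w : M) :
    dzb hπ (extz hπ w0 β) j w = extz hπ w0 (dzbE β j) w := by
  by_cases hw : w ∈ (hπ.localInverseAt w0).target
  · rw [extz_of_mem hπ _ hw, dzb, dzbE, rderiv, rderiv,
      (extz_comp_eventuallyEq hπ β hw).fderiv_eq]
  · rw [extz_of_notMem hπ _ hw]
    have hx : w ∉ hπ.localInverseAt w0 '' K := fun h => hw (image_subset_target hπ w0 hKs h)
    exact dzb_eq_zero hπ (extz_eventually_zero hπ hK hKs hβK hx) j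

theorem dz_extz [T2Space M] (hπ : IsLocalHomeomorph π) {w0 : M} {β : (Fin n → ℂ) → ℂ}
    {K : Set (Fin n → ℂ)} (hK : IsCompact K)
    (hKs : K ⊆ (hπ.localInverseAt w0).source) (hβK : ∀ z, z ∉ K → β z = 0) (j : Fin n) (w : M) :
    dz hπ (extz hπ w0 β) j w = extz hπ w0 (dzE β j) w := by
  by_cases hw : w ∈ (hπ.localInverseAt w0).target
  · rw [extz_of_mem hπ _ hw, dz, dzE, rderiv, rderiv,
      (extz_comp_eventuallyEq hπ β hw).fderiv_eq]
  · rw [extz_of_notMem hπ _ hw]
    have hx : w ∉ hπ.localInverseAt w0 '' K := fun h => hw (image_subset_target hπ w0 hKs h)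
    exact dz_eq_zero hπ (extz_eventually_zero hπ hK hKs hβK hx) j

/-! ### transfer of integrals -/

variable [MeasurableSpace M] [BorelSpace M]

theorem aemeasurable_localInverseAt (hπ : IsLocalHomeomorph π) (w0 : M) :
    AEMeasurable (hπ.localInverseAt w0)
      ((volume : Measure (Fin n → ℂ)).restrict (hπ.localInverseAt w0).source) :=
  (hπ.localInverseAt w0).continuousOn.aemeasurable (hπ.localInverseAt w0).open_source.measurableSet

/-- the local inverse maps the volume to the flat measure -/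
theorem map_localInverseAt {μ : Measure M} (hπ : IsLocalHomeomorph π) (hμ : IsFlatMeasure π μ)
    (w0 : M) : Measure.map (hπ.localInverseAt w0)
      ((volume : Measure (Fin n → ℂ)).restrict (hπ.localInverseAt w0).source) =
      μ.restrict (hπ.localInverseAt w0).target := by
  ext A hA
  rw [Measure.map_apply_of_aemeasurable (aemeasurable_localInverseAt hπ w0) hA,
    Measure.restrict_apply hA]
  have hto : IsOpen (hπ.localInverseAt w0).target := (hπ.localInverseAt w0).open_target
  have hso : IsOpen (hπ.localInverseAt w0).source := (hπ.localInverseAt w0).open_source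
  rw [hμ.apply_eq _ hto hπ.injOn_localInverseAt_target _ inter_subset_right
    (hA.inter hto.measurableSet), Measure.restrict_apply' hso.measurableSet]
  congr 1
  ext z
  constructor
  · rintro ⟨h1, h2⟩
    exact ⟨hπ.localInverseAt w0 z, ⟨h1, (hπ.localInverseAt w0).map_source h2⟩,
      hπ.apply_localInverseAt_of_mem h2⟩
  · rintro ⟨x, ⟨h1, h2⟩, rfl⟩
    refine ⟨?_, apply_mem_source_of_mem_target hπ h2⟩
    show hπ.localInverseAt w0 (π x) ∈ A
    rwa [localInverseAt_apply_of_mem_target hπ h2]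

theorem setIntegral_target {μ : Measure M} (hπ : IsLocalHomeomorph π)
    (hμ : IsFlatMeasure π μ) (w0 : M) {f : M → ℂ}
    (hf : AEStronglyMeasurable f (μ.restrict (hπ.localInverseAt w0).target)) :
    ∫ x in (hπ.localInverseAt w0).target, f x ∂μ =
      ∫ z in (hπ.localInverseAt w0).source, f (hπ.localInverseAt w0 z) := by
  rw [← map_localInverseAt hπ hμ w0] at hf ⊢
  exact integral_map (aemeasurable_localInverseAt hπ w0) hf

theorem integrableOn_target_iff {μ : Measure M} (hπ : IsLocalHomeomorph π)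
    (hμ : IsFlatMeasure π μ) (w0 : M) {f : M → ℂ}
    (hf : AEStronglyMeasurable f (μ.restrict (hπ.localInverseAt w0).target)) :
    IntegrableOn f (hπ.localInverseAt w0).target μ ↔
      IntegrableOn (f ∘ hπ.localInverseAt w0) (hπ.localInverseAt w0).source := by
  rw [IntegrableOn, IntegrableOn]
  rw [← map_localInverseAt hπ hμ w0] at hf ⊢
  exact integrable_map_measure hf (aemeasurable_localInverseAt hπ w0)

/-- almost everywhere statements transfer -/
theorem ae_source_iff {μ : Measure M} (hπ : IsLocalHomeomorph π) (hμ : IsFlatMeasure π μ)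
    (w0 : M) {V : Set (Fin n → ℂ)} (hV : IsOpen V) (hVs : V ⊆ (hπ.localInverseAt w0).source) :
    Measure.map (hπ.localInverseAt w0) ((volume : Measure (Fin n → ℂ)).restrict V) =
      μ.restrict (hπ.localInverseAt w0 '' V) := by
  have hopen : IsOpen (hπ.localInverseAt w0 '' V) :=
    (hπ.localInverseAt w0).isOpen_image_of_subset_source hV hVs
  ext A hA
  have hae : AEMeasurable (hπ.localInverseAt w0) ((volume : Measure (Fin n → ℂ)).restrict V) :=
    ((hπ.localInverseAt w0).continuousOn.mono hVs).aemeasurable hV.measurableSet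
  rw [Measure.map_apply_of_aemeasurable hae hA, Measure.restrict_apply hA]
  rw [hμ.apply_eq _ hopen (hπ.injOn_localInverseAt_target.mono (image_subset_target hπ w0 hVs)) _
    inter_subset_right (hA.inter hopen.measurableSet), Measure.restrict_apply' hV.measurableSet]
  congr 1
  ext z
  constructor
  · rintro ⟨h1, h2⟩
    exact ⟨hπ.localInverseAt w0 z, ⟨h1, ⟨z, h2, rfl⟩⟩,
      hπ.apply_localInverseAt_of_mem (hVs h2)⟩
  · rintro ⟨x, ⟨h1, ⟨y, hy, rfl⟩⟩, rfl⟩
    rw [hπ.apply_localInverseAt_of_mem (hVs hy)]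
    exact ⟨h1, hy⟩

end

end Pool.Agent.Levi
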