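import Pool.Agent.Levi.WeylLocal
import Pool.Agent.Levi.Transfer

/-!
# Weyl's lemma for `∂̄` on a Riemann domain
-/

set_option autoImplicit false

open Set Filter Topology MeasureTheory Metric
open scoped ContDiff

namespace Pool.Agent.Levi

variable {n : ℕ} {M : Type} [TopologicalSpace M] {π : M → (Fin n → ℂ)}

theorem dzbE_eq_zero_of_notMem {β : (Fin n → ℂ) → ℂ} {K : Set (Fin n → ℂ)} (hK : IsClosed K)
    (hβ : ∀ z, z ∉ K → β z = 0) {z : Fin n → ℂ} (hz : z ∉ K) (j : Fin n) : dzbE β j z = 0 := by
  have h1 : β =ᶠ[𝓝 z] fun _ => 0 := by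
    filter_upwards [hK.isOpen_compl.mem_nhds hz] with y hy
    exact hβ y hy
  rw [dzbE, h1.fderiv_eq]
  simp

theorem dzE_eq_zero_of_notMem {β : (Fin n → ℂ) → ℂ} {K : Set (Fin n → ℂ)} (hK : IsClosed K)
    (hβ : ∀ z, z ∉ K → β z = 0) {z : Fin n → ℂ} (hz : z ∉ K) (j : Fin n) : dzE β j z = 0 := by
  have h1 : β =ᶠ[𝓝 z] fun _ => 0 := by
    filter_upwards [hK.isOpen_compl.mem_nhds hz] with y hy
    exact hβ y hy
  rw [dzE, h1.fderiv_eq]
  simp

theorem continuous_dzbE {β : (Fin n → ℂ) → ℂ} (hβ : ContDiff ℝ ∞ β) (j : Fin n) :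
    Continuous (dzbE β j) := by
  have h1 : Continuous (fderiv ℝ β) := (hβ.of_le (by exact_mod_cast le_top)).continuous_fderiv
    (one_ne_zero)
  unfold dzbE
  fun_prop

theorem continuous_dzE {β : (Fin n → ℂ) → ℂ} (hβ : ContDiff ℝ ∞ β) (j : Fin n) :
    Continuous (dzE β j) := by
  have h1 : Continuous (fderiv ℝ β) := (hβ.of_le (by exact_mod_cast le_top)).continuous_fderiv
    (one_ne_zero)
  unfold dzE
  fun_prop

variable [MeasurableSpace M] [BorelSpace M]

/-- integral of a product with an extension by zero -/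
theorem integral_mul_extz {μ : Measure M} (hπ : IsLocalHomeomorph π) (hμ : IsFlatMeasure π μ)
    (w0 : M) {u : M → ℂ} (hu : AEStronglyMeasurable u μ) {g : (Fin n → ℂ) → ℂ}
    (hg : Continuous g) :
    ∫ x, u x * extz hπ w0 g x ∂μ =
      ∫ z in (hπ.localInverseAt w0).source, u (hπ.localInverseAt w0 z) * g z := by
  have hto : IsOpen (hπ.localInverseAt w0).target := (hπ.localInverseAt w0).open_target
  have hso : IsOpen (hπ.localInverseAt w0).source := (hπ.localInverseAt w0).open_source
  have h1 : ∫ x, u x * extz hπ w0 g x ∂μ =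
      ∫ x in (hπ.localInverseAt w0).target, u x * extz hπ w0 g x ∂μ := by
    rw [setIntegral_eq_integral_of_forall_compl_eq_zero]
    intro x hx
    rw [extz_of_notMem hπ g hx, mul_zero]
  rw [h1, setIntegral_target hπ hμ w0]
  · refine setIntegral_congr_fun hso.measurableSet (fun z hz => ?_)
    rw [extz_of_mem hπ g ((hπ.localInverseAt w0).map_source hz), hπ.apply_localInverseAt_of_mem hz]
  · apply AEStronglyMeasurable.mul hu.restrict
    have hc : Continuous (fun x => g (π x)) := hg.comp hπ.continuous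
    refine hc.aestronglyMeasurable.congr ?_
    filter_upwards [ae_restrict_mem hto.measurableSet] with x hx
    rw [extz_of_mem hπ g hx]

theorem map_pi_restrict {μ : Measure M} (hπ : IsLocalHomeomorph π) (hμ : IsFlatMeasure π μ)
    (w0 : M) {V : Set (Fin n → ℂ)} (hV : IsOpen V) (hVs : V ⊆ (hπ.localInverseAt w0).source) :
    Measure.map π (μ.restrict (hπ.localInverseAt w0 '' V)) =
      (volume : Measure (Fin n → ℂ)).restrict V := by
  have hae : AEMeasurable (hπ.localInverseAt w0) ((volume : Measure (Fin n → ℂ)).restrict V) :=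
    ((hπ.localInverseAt w0).continuousOn.mono hVs).aemeasurable hV.measurableSet
  rw [← ae_source_iff hπ hμ w0 hV hVs,
    AEMeasurable.map_map_of_aemeasurable hπ.continuous.measurable.aemeasurable hae]
  have : (π ∘ hπ.localInverseAt w0) =ᵐ[(volume : Measure (Fin n → ℂ)).restrict V] id := by
    filter_upwards [ae_restrict_mem hV.measurableSet] with z hz
    exact hπ.apply_localInverseAt_of_mem (hVs hz)
  rw [Measure.map_congr this, Measure.map_id]

variable [T2Space M] [SecondCountableTopology M]

/-- the local step of Weyl's lemma -/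
theorem weyl_step {μ : Measure M} (hπ : IsLocalHomeomorph π) (hμ : IsFlatMeasure π μ) {u : M → ℂ}
    (hu : LocallyIntegrable u μ)
    (h : ∀ α, IsTest hπ α → ∀ j, ∫ x, u x * dzb hπ α j x ∂μ = 0) (w0 : M) :
    ∃ r : ℝ, 0 < r ∧ ball (π w0) r ⊆ (hπ.localInverseAt w0).source ∧
      ∃ H : (Fin n → ℂ) → ℂ, Continuous H ∧ DifferentiableOn ℂ H (ball (π w0) r) ∧
        ∀ᵐ z, z ∈ ball (π w0) r → u (hπ.localInverseAt w0 z) = H z := by
  set s := hπ.localInverseAt w0 with hs
  have hso : IsOpen s.source := s.open_source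
  obtain ⟨R, hR, hRs⟩ := Metric.isOpen_iff.1 hso (π w0) hπ.apply_self_mem_localInverseAt_source
  obtain ⟨R', hR', hRR'⟩ : ∃ R', 0 < R' ∧ R' < R := ⟨R / 2, by positivity, by linarith⟩
  have hcb : closedBall (π w0) R' ⊆ s.source := (closedBall_subset_ball hRR').trans hRs
  have hbs : ball (π w0) R' ⊆ s.source := ball_subset_closedBall.trans hcb
  have huI : IntegrableOn u (s '' closedBall (π w0) R') μ :=
    hu.integrableOn_isCompact (isCompact_image_source hπ w0 (isCompact_closedBall _ _) hcb)
  have huI' : IntegrableOn u (s '' ball (π w0) R') μ :=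
    huI.mono_set (image_mono ball_subset_closedBall)
  have hae : AEMeasurable s ((volume : Measure (Fin n → ℂ)).restrict (ball (π w0) R')) :=
    (s.continuousOn.mono hbs).aemeasurable measurableSet_ball
  have hVI : IntegrableOn (u ∘ s) (ball (π w0) R') := by
    rw [IntegrableOn, ← ae_source_iff hπ hμ w0 isOpen_ball hbs] at huI'
    exact (integrable_map_measure huI'.aestronglyMeasurable hae).1 huI'
  set V : (Fin n → ℂ) → ℂ := (ball (π w0) R').indicator (u ∘ s) with hVdef
  have hV : Integrable V := (integrable_indicator_iff measurableSet_ball).2 hVI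
  have hw : ∀ β : (Fin n → ℂ) → ℂ, ContDiff ℝ ∞ β →
      (∃ K, IsCompact K ∧ K ⊆ ball (π w0) R' ∧ ∀ z, z ∉ K → β z = 0) →
        ∀ j, ∫ z, V z * dzbE β j z = 0 := by
    rintro β hβ ⟨K, hK, hKb, hβK⟩ j
    have hKs : K ⊆ s.source := hKb.trans hbs
    have h1 := h (extz hπ w0 β) (isTest_extz hπ hβ hK hKs hβK) j
    simp only [dzb_extz hπ hK hKs hβK j] at h1
    rw [integral_mul_extz hπ hμ w0 hu.aestronglyMeasurable (continuous_dzbE hβ j)] at h1
    rw [← h1, setIntegral_eq_integral_of_forall_compl_eq_zero]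
    · refine integral_congr_ae (ae_of_all _ fun z => ?_)
      by_cases hz : z ∈ ball (π w0) R'
      · simp [hVdef, hz, hs]
      · have hzK : z ∉ K := fun h => hz (hKb h)
        simp [dzbE_eq_zero_of_notMem hK.isClosed hβK hzK]
    · intro z hz
      have hzK : z ∉ K := fun h => hz (hKs h)
      rw [dzbE_eq_zero_of_notMem hK.isClosed hβK hzK, mul_zero]
  obtain ⟨H, hH1, hH2, hH3⟩ := weyl_local hR' hV.locallyIntegrable hw
  refine ⟨R' / 4, by positivity, (ball_subset_ball (by linarith)).trans hbs, H,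
    hH1.continuous, hH2.mono (ball_subset_ball (by linarith)), ?_⟩
  filter_upwards [hH3] with z hz hzb
  rw [← hz hzb]
  have : z ∈ ball (π w0) R' := ball_subset_ball (by linarith) hzb
  simp [hVdef, this]

/-- (L3a) weakly holomorphic functions are holomorphic -/
theorem weyl {μ : Measure M} (hπ : IsLocalHomeomorph π) (hμ : IsFlatMeasure π μ) {u : M → ℂ}
    (hu : LocallyIntegrable u μ)
    (h : ∀ α, IsTest hπ α → ∀ j, ∫ x, u x * dzb hπ α j x ∂μ = 0) :
    ∃ h : M → ℂ, RHolo hπ h ∧ u =ᵐ[μ] h := by
  choose r hr hrs H hHc hHd hHae using weyl_step hπ hμ hu h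
  set k : M → ℂ := fun x => H x (π x) with hk
  -- the local representatives agree
  have key : ∀ w z, z ∈ ball (π w) (r w) → k (hπ.localInverseAt w z) = H w z := by
    intro w z hz
    set y := hπ.localInverseAt w z with hy
    have hzs : z ∈ (hπ.localInverseAt w).source := hrs w hz
    have hπy : π y = z := hπ.apply_localInverseAt_of_mem hzs
    have hyt : y ∈ (hπ.localInverseAt w).target := (hπ.localInverseAt w).map_source hzs
    have h1 := localInverseAt_eventuallyEq hπ hyt
    rw [hπy] at h1
    have h2 : ball (π w) (r w) ∈ 𝓝 z := isOpen_ball.mem_nhds hz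
    have h3 : ball (π y) (r y) ∈ 𝓝 z := by
      rw [hπy]; exact ball_mem_nhds _ (hr y)
    obtain ⟨U, hUs, hUo, hzU⟩ := _root_.mem_nhds_iff.1 (inter_mem (inter_mem h2 h3) h1)
    have hae : H y =ᵐ[volume.restrict U] H w := by
      filter_upwards [ae_restrict_of_ae (hHae w), ae_restrict_of_ae (hHae y),
        ae_restrict_mem hUo.measurableSet] with x hx1 hx2 hxU
      have hxU' := hUs hxU
      rw [← hx1 hxU'.1.1, ← hx2 hxU'.1.2]
      congr 1
      exact hxU'.2
    have := Measure.eqOn_open_of_ae_eq hae hUo (hHc y).continuousOn (hHc w).continuousOn hzU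
    show H y (π y) = H w z
    rw [hπy]; exact this
  refine ⟨k, ?_, ?_⟩
  · intro w
    have h1 : DifferentiableAt ℂ (H w) (π w) :=
      (hHd w _ (mem_ball_self (hr w))).differentiableAt (ball_mem_nhds _ (hr w))
    refine h1.congr_of_eventuallyEq ?_
    filter_upwards [ball_mem_nhds (π w) (hr w)] with z hz
    exact key w z hz
  · have hnull : μ {x | u x ≠ k x} = 0 := by
      apply measure_null_of_locally_null
      intro w _
      set O := hπ.localInverseAt w '' ball (π w) (r w) with hO
      have hOo : IsOpen O :=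
        (hπ.localInverseAt w).isOpen_image_of_subset_source isOpen_ball (hrs w)
      have hwO : w ∈ O := ⟨π w, mem_ball_self (hr w), hπ.localInverseAt_apply_self⟩
      refine ⟨{x | u x ≠ k x} ∩ O, inter_mem_nhdsWithin _ (hOo.mem_nhds hwO), ?_⟩
      have hae0 : ∀ᵐ z ∂((volume : Measure (Fin n → ℂ)).restrict (ball (π w) (r w))),
          u (hπ.localInverseAt w z) = k (hπ.localInverseAt w z) := by
        filter_upwards [ae_restrict_of_ae (hHae w), ae_restrict_mem measurableSet_ball] with z h1 h2
        rw [key w z h2, h1 h2]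
      rw [← map_pi_restrict hπ hμ w isOpen_ball (hrs w)] at hae0
      have h2 := ae_of_ae_map hπ.continuous.measurable.aemeasurable hae0
      have h3 : ∀ᵐ x ∂(μ.restrict O), u x = k x := by
        filter_upwards [h2, ae_restrict_mem hOo.measurableSet] with x hx hxO
        have hxt : x ∈ (hπ.localInverseAt w).target :=
          image_subset_target hπ w (hrs w) hxO
        rwa [localInverseAt_apply_of_mem_target hπ hxt] at hx
      have h4 := (ae_iff.1 h3)
      rwa [Measure.restrict_apply' hOo.measurableSet] at h4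
    exact hnull

end Pool.Agent.Levi
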