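import Pool.Agent.Levi.HMain
import Pool.Agent.Levi.Weyl

/-!
# Hörmander's `L²` existence theorem on a Riemann domain
-/

set_option autoImplicit false

open Set Filter Topology MeasureTheory
open scoped ContDiff ComplexConjugate ENNReal

namespace Pool.Agent.Levi

variable {n : ℕ} {M : Type} [TopologicalSpace M] {π : M → (Fin n → ℂ)}

/-- The space of test forms. -/
def testForms (hπ : IsLocalHomeomorph π) : Submodule ℂ (Fin n → M → ℂ) where
  carrier := {f | ∀ j, IsTest hπ (f j)}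
  add_mem' := fun {_ _} hf hg j => (hf j).add (hg j)
  zero_mem' := fun _ => isTest_zero hπ
  smul_mem' := fun c _ hf j => (hf j).cmul c

/-- The formal adjoint of `∂̄` with respect to the weight `e^{-φ}` (up to the sign). -/
noncomputable def Tf (hπ : IsLocalHomeomorph π) (φ : M → ℝ) (f : Fin n → M → ℂ) (x : M) : ℂ :=
  ∑ j, (dz hπ (f j) j x - f j x * dz hπ (fun y => (φ y : ℂ)) j x)

lemma Tf_test {hπ : IsLocalHomeomorph π} {φ : M → ℝ} (hφ : RSmooth hπ φ) {f : Fin n → M → ℂ}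
    (hf : ∀ j, IsTest hπ (f j)) : IsTest hπ (Tf hπ φ f) :=
  IsTest.sum fun j _ => ((hf j).dz j).sub ((hf j).mul_left (hφ.ofReal.dz j))

lemma Tf_add {hπ : IsLocalHomeomorph π} {φ : M → ℝ} {f g : Fin n → M → ℂ}
    (hf : ∀ j, IsTest hπ (f j)) (hg : ∀ j, IsTest hπ (g j)) (x : M) :
    Tf hπ φ (f + g) x = Tf hπ φ f x + Tf hπ φ g x := by
  unfold Tf
  rw [← Finset.sum_add_distrib]
  apply Finset.sum_congr rfl
  intro j _
  have h1 : dz hπ ((f + g) j) j x = dz hπ (f j) j x + dz hπ (g j) j x :=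
    dz_add (hf j).smooth (hg j).smooth j x
  rw [h1]
  simp only [Pi.add_apply]
  ring

lemma Tf_smul {hπ : IsLocalHomeomorph π} {φ : M → ℝ} (c : ℂ) {f : Fin n → M → ℂ}
    (hf : ∀ j, IsTest hπ (f j)) (x : M) : Tf hπ φ (c • f) x = c * Tf hπ φ f x := by
  unfold Tf
  rw [Finset.mul_sum]
  apply Finset.sum_congr rfl
  intro j _
  have h1 : dz hπ ((c • f) j) j x = c * dz hπ (f j) j x := dz_cmul (hf j).smooth c j x
  rw [h1]
  simp only [Pi.smul_apply, smul_eq_mul]
  ring

variable [T2Space M] [SecondCountableTopology M] [MeasurableSpace M] [BorelSpace M]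

lemma Tf_memLp {μ : Measure M} {hπ : IsLocalHomeomorph π} (hμ : IsFlatMeasure π μ) {φ : M → ℝ}
    (hφ : RSmooth hπ φ) {f : Fin n → M → ℂ} (hf : ∀ j, IsTest hπ (f j)) :
    MemLp (fun x => hw φ x * Tf hπ φ f x) 2 μ :=
  memLp_cc hπ hμ ((continuous_hw hφ.continuous).mul (Tf_test hφ hf).continuous)
    (Tf_test hφ hf).compact.mul_left

/-- The formal adjoint as an operator on test forms. -/
noncomputable def Aop {μ : Measure M} {hπ : IsLocalHomeomorph π} (hμ : IsFlatMeasure π μ)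
    {φ : M → ℝ} (hφ : RSmooth hπ φ) : testForms hπ →ₗ[ℂ] Lp ℂ 2 μ where
  toFun f := (Tf_memLp hμ hφ f.2).toLp _
  map_add' f g := by
    rw [← MemLp.toLp_add]
    apply MemLp.toLp_congr
    refine ae_of_all _ fun x => ?_
    simp only [Pi.add_apply]
    rw [← mul_add, ← Tf_add f.2 g.2]
    rfl
  map_smul' c f := by
    rw [RingHom.id_apply, ← MemLp.toLp_const_smul]
    apply MemLp.toLp_congr
    refine ae_of_all _ fun x => ?_
    simp only [Pi.smul_apply, smul_eq_mul]
    rw [← mul_assoc, mul_comm c, mul_assoc, ← Tf_smul c f.2]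
    rfl

/-- The functional on test forms. -/
noncomputable def lop {μ : Measure M} {hπ : IsLocalHomeomorph π} (hμ : IsFlatMeasure π μ)
    {φ : M → ℝ} (hφ : RSmooth hπ φ) {χ : M → ℂ} (hχ : IsTest hπ χ) : testForms hπ →ₗ[ℂ] ℂ :=
  have hi : ∀ f : testForms hπ, ∀ j, Integrable
      (fun x => conj (dzb hπ χ j x) * f.1 j x * ((Real.exp (-(φ x)) : ℝ) : ℂ)) μ := fun f j =>
    ((((hχ.dzb j).conj).mul_left (f.2 j).smooth).mul_left (rsmooth_exp hφ.neg)).integrable hπ hμ
  { toFun := fun f => ∑ j, ∫ x, conj (dzb hπ χ j x) * f.1 j x * ((Real.exp (-(φ x)) : ℝ) : ℂ) ∂μ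
    map_add' := fun f g => by
      rw [← Finset.sum_add_distrib]
      apply Finset.sum_congr rfl
      intro j _
      rw [← integral_add (hi f j) (hi g j)]
      congr 1
      funext x
      have : (f + g).1 j x = f.1 j x + g.1 j x := rfl
      rw [this]; ring
    map_smul' := fun c f => by
      rw [RingHom.id_apply, smul_eq_mul, Finset.mul_sum]
      apply Finset.sum_congr rfl
      intro j _
      rw [← integral_const_mul]
      congr 1
      funext x
      have : (c • f).1 j x = c * f.1 j x := rfl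
      rw [this]; ring }

lemma locallyIntegrable_mul {μ : Measure M} {w U : M → ℂ} (hw : Continuous w)
    (hU : LocallyIntegrable U μ) : LocallyIntegrable (fun x => w x * U x) μ := by
  intro x
  obtain ⟨V, hV, hVi⟩ := hU x
  obtain ⟨V', hV'V, hV'o, hxV'⟩ := mem_nhds_iff.1 hV
  set W : Set M := {y | ‖w y‖ < ‖w x‖ + 1} with hW
  have hWo : IsOpen W := isOpen_lt hw.norm continuous_const
  have hxW : x ∈ W := by simp [hW]
  refine ⟨V' ∩ W, (hV'o.inter hWo).mem_nhds ⟨hxV', hxW⟩, ?_⟩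
  have h1 : IntegrableOn U (V' ∩ W) μ := hVi.mono_set (inter_subset_left.trans hV'V)
  refine Integrable.bdd_mul (c := ‖w x‖ + 1) h1 hw.aestronglyMeasurable ?_
  refine (ae_restrict_iff' (hV'o.inter hWo).measurableSet).2 (ae_of_all _ fun y hy => ?_)
  exact le_of_lt hy.2

/-- **Hörmander's theorem**. -/
theorem hormander {μ : Measure M} (hπ : IsLocalHomeomorph π) (hμ : IsFlatMeasure π μ)
    (hC : HCond hπ) {φ : M → ℝ} (hφ : RSmooth hπ φ) (hpsh : ∀ x ξ, 0 ≤ levi hπ φ x ξ)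
    {χ : M → ℂ} (hχ : IsTest hπ χ)
    (hstrict : ∀ x ∈ tsupport χ, ∀ ξ : Fin n → ℂ, ∑ j, ‖ξ j‖ ^ 2 ≤ levi hπ φ x ξ) :
    ∃ h : M → ℂ, RHolo hπ h ∧
      ∫⁻ x, ENNReal.ofReal (‖h x - χ x‖ ^ 2 * Real.exp (-φ x)) ∂μ ≤
        ENNReal.ofReal (2 * ∫ x, (∑ j, ‖dzb hπ χ j x‖ ^ 2) * Real.exp (-φ x) ∂μ) := by
  have := finiteOnCompacts hπ hμ
  have := hμ.isLocallyFinite hπ
  set R : ℝ := 2 * ∑ j, ∫ x, ‖dzb hπ χ j x‖ ^ 2 * Real.exp (-(φ x)) ∂μ with hR
  have hR0 : 0 ≤ R := by
    apply mul_nonneg zero_le_two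
    apply Finset.sum_nonneg
    intro j _
    apply integral_nonneg
    intro x
    exact mul_nonneg (by positivity) (Real.exp_pos _).le
  have hbound : ∀ f : testForms hπ, ‖lop hμ hφ hχ f‖ ≤ Real.sqrt R * ‖Aop hμ hφ f‖ := by
    intro f
    have h1 := main_estimate hπ hμ hC hφ hpsh hχ hstrict f.2
    have h2 : ‖Aop hμ hφ f‖ ^ 2 = ∫ x, ‖Tf hπ φ f.1 x‖ ^ 2 * Real.exp (-(φ x)) ∂μ := by
      have h3 := integral_norm_sq_eq (Tf_memLp hμ hφ f.2)
      have h4 : ‖Aop hμ hφ f‖ = (eLpNorm (fun x => hw φ x * Tf hπ φ f.1 x) 2 μ).toReal :=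
        Lp.norm_toLp _ (Tf_memLp hμ hφ f.2)
      rw [h4, ← h3]
      congr 1
      funext x
      rw [norm_hw_mul_sq]
    have h5 : ‖lop hμ hφ hχ f‖ ^ 2 ≤ (Real.sqrt R * ‖Aop hμ hφ f‖) ^ 2 := by
      rw [mul_pow, Real.sq_sqrt hR0, h2, hR]
      refine le_trans h1 (le_of_eq ?_)
      simp only [Tf]
      ring
    exact (pow_le_pow_iff_left₀ (norm_nonneg _) (by positivity) two_ne_zero).1 h5
  obtain ⟨U, hU, hlU⟩ := exists_riesz (Aop hμ hφ) (lop hμ hφ hχ) (Real.sqrt_nonneg R) hbound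
  -- the function `u`
  set u : M → ℂ := fun x => ew φ x * U x with hu
  have ewc := continuous_ew hφ.continuous
  have huL : LocallyIntegrable u μ :=
    locallyIntegrable_mul ewc ((Lp.memLp U).locallyIntegrable one_le_two)
  have hχL : LocallyIntegrable χ μ := hχ.continuous.locallyIntegrable
  have hweak : ∀ β, IsTest hπ β → ∀ j, ∫ x, (χ x + u x) * dzb hπ β j x ∂μ = 0 := by
    intro β hβ j
    -- the test form
    have hE := rsmooth_exp hφ
    have hγ : IsTest hπ (fun x => ((Real.exp (φ x) : ℝ) : ℂ) * conj (β x)) :=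
      hβ.conj.mul_right hE
    set sf : Fin n → M → ℂ := fun i x =>
      if i = j then ((Real.exp (φ x) : ℝ) : ℂ) * conj (β x) else 0 with hsf
    have sfj : sf j = fun x => ((Real.exp (φ x) : ℝ) : ℂ) * conj (β x) := by
      funext x; simp [hsf]
    have sfi : ∀ i, i ≠ j → sf i = fun _ => 0 := by
      intro i hi
      funext x; simp [hsf, hi]
    have hsft : ∀ i, IsTest hπ (sf i) := by
      intro i
      by_cases hi : i = j
      · subst hi; rw [sfj]; exact hγ
      · rw [sfi i hi]; exact isTest_zero hπ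
    have h1 := hlU ⟨sf, hsft⟩
    have h2 : lop hμ hφ hχ ⟨sf, hsft⟩ = conj (∫ x, dzb hπ χ j x * β x ∂μ) := by
      change ∑ i, ∫ x, conj (dzb hπ χ i x) * sf i x * ((Real.exp (-(φ x)) : ℝ) : ℂ) ∂μ = _
      rw [Finset.sum_eq_single j, ← integral_conj, sfj]
      · congr 1
        funext x
        have h3 : ((Real.exp (φ x) : ℝ) : ℂ) * ((Real.exp (-(φ x)) : ℝ) : ℂ) = 1 := by
          rw [← Complex.ofReal_mul, ← Real.exp_add, add_neg_cancel, Real.exp_zero,
            Complex.ofReal_one]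
        rw [map_mul]
        linear_combination (conj (dzb hπ χ j x) * conj (β x)) * h3
      · intro i _ hi
        rw [sfi i hi]; simp
      · intro h; exact absurd (Finset.mem_univ j) h
    have h3 : ∀ x, Tf hπ φ sf x = ((Real.exp (φ x) : ℝ) : ℂ) * conj (dzb hπ β j x) := by
      intro x
      unfold Tf
      rw [Finset.sum_eq_single j, sfj]
      · rw [dz_mul hE hβ.conj.smooth, dz_exp hφ, dz_conj hβ.smooth]
        ring
      · intro i _ hi
        rw [sfi i hi, dz_const]; simp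
      · intro h; exact absurd (Finset.mem_univ j) h
    have h4 : inner ℂ U (Aop hμ hφ ⟨sf, hsft⟩) = conj (∫ x, u x * dzb hπ β j x ∂μ) := by
      rw [← inner_conj_symm]
      congr 1
      change inner ℂ ((Tf_memLp hμ hφ hsft).toLp _) U = _
      rw [inner_toLp_eq]
      congr 1
      funext x
      rw [h3, map_mul, map_mul, conj_hw, Complex.conj_conj, Complex.conj_ofReal, hu]
      simp only
      rw [ew_eq]
      ring
    rw [h2, h4] at h1
    have h5 : ∫ x, dzb hπ χ j x * β x ∂μ = ∫ x, u x * dzb hπ β j x ∂μ :=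
      (starRingEnd ℂ).injective h1
    have h6 := (integral_dz_eq_zero hπ hμ (hβ.mul_right hχ.smooth) j).2
    have i1 : Integrable (fun x => χ x * dzb hπ β j x) μ :=
      ((hβ.dzb j).mul_right hχ.smooth).integrable hπ hμ
    have i2 : Integrable (fun x => dzb hπ χ j x * β x) μ :=
      (hβ.mul_right (hχ.smooth.dzb j)).integrable hπ hμ
    have i3 : Integrable (fun x => u x * dzb hπ β j x) μ := by
      have e : (fun x => u x * dzb hπ β j x) = fun x => (ew φ x * dzb hπ β j x) * U x := by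
        funext x; simp only [hu]; ring
      rw [e]
      exact integrable_mul_cc hπ hμ (ewc.mul (hβ.dzb j).continuous)
        (hβ.dzb j).compact.mul_left (Lp.memLp U)
    have h7 : ∫ x, dzb hπ (fun x => χ x * β x) j x ∂μ
        = ∫ x, χ x * dzb hπ β j x ∂μ + ∫ x, dzb hπ χ j x * β x ∂μ := by
      rw [← integral_add i1 i2]
      congr 1
      funext x
      rw [dzb_mul hχ.smooth hβ.smooth]
      ring
    have h8 : ∫ x, (χ x + u x) * dzb hπ β j x ∂μ
        = ∫ x, χ x * dzb hπ β j x ∂μ + ∫ x, u x * dzb hπ β j x ∂μ := by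
      rw [← integral_add i1 i3]
      congr 1
      funext x
      ring
    rw [h8, ← h5, ← h7]
    exact h6
  obtain ⟨h, hh, hae⟩ := weyl hπ hμ (hχL.add huL) hweak
  refine ⟨h, hh, ?_⟩
  have h1 : ∫⁻ x, ENNReal.ofReal (‖h x - χ x‖ ^ 2 * Real.exp (-φ x)) ∂μ
      = ∫⁻ x, ENNReal.ofReal (‖U x‖ ^ 2) ∂μ := by
    apply lintegral_congr_ae
    filter_upwards [hae] with x hx
    congr 1
    have h2 : h x - χ x = ew φ x * U x := by
      rw [← hx]
      simp only [Pi.add_apply, hu]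
      ring
    rw [h2, norm_mul, mul_pow]
    have h3 : ‖ew φ x‖ ^ 2 * Real.exp (-φ x) = 1 := by
      unfold ew
      rw [Complex.norm_real, Real.norm_of_nonneg (Real.exp_pos _).le, ← Real.exp_nat_mul,
        ← Real.exp_add]
      have : ((2 : ℕ) : ℝ) * (φ x / 2) + -φ x = 0 := by push_cast; ring
      rw [this, Real.exp_zero]
    calc ‖ew φ x‖ ^ 2 * ‖U x‖ ^ 2 * Real.exp (-φ x)
        = ‖U x‖ ^ 2 * (‖ew φ x‖ ^ 2 * Real.exp (-φ x)) := by ring
      _ = _ := by rw [h3, mul_one]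
  rw [h1, ← ofReal_integral_eq_lintegral_ofReal (integrable_norm_sq (Lp.memLp U))
    (ae_of_all _ fun x => by positivity)]
  apply ENNReal.ofReal_le_ofReal
  have h2 : ∫ x, ‖U x‖ ^ 2 ∂μ = ‖U‖ ^ 2 := by
    rw [integral_norm_sq_eq (Lp.memLp U), Lp.norm_def]
  have h3 : ‖U‖ ^ 2 ≤ R := by
    calc ‖U‖ ^ 2 ≤ (Real.sqrt R) ^ 2 := by gcongr
      _ = R := Real.sq_sqrt hR0
  rw [h2]
  refine h3.trans (le_of_eq ?_)
  rw [hR]
  congr 1
  have i1 : ∀ j, Integrable (fun x => ‖dzb hπ χ j x‖ ^ 2 * Real.exp (-(φ x))) μ := by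
    intro j
    apply integrable_of_cont (((hχ.dzb j).continuous.norm.pow 2).mul
      (Real.continuous_exp.comp hφ.continuous.neg)) (K := tsupport χ) hχ.compact
    intro x hx
    change ‖dzb hπ χ j x‖ ^ 2 * Real.exp (-(φ x)) = 0
    rw [dzb_zero_off hx]; simp
  rw [← integral_finsetSum _ fun j _ => i1 j]
  congr 1
  funext x
  rw [Finset.sum_mul]

end Pool.Agent.Levi
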