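import Pool.Agent.Levi.Tame
import Pool.Agent.Levi.HoloSmooth

/-!
# Package P5: real manifold structure, Jacobians in different charts, the singular metric
-/

set_option autoImplicit false
set_option linter.unusedSectionVars false

open Set Filter Topology
open scoped ContDiff ComplexConjugate Manifold

namespace Pool.Agent.Levi

open Pool.Agent.MEP

namespace LM

variable {n : ℕ}

/-- the determinant is smooth -/
theorem contDiffAt_det {X : Type*} [NormedAddCommGroup X] [NormedSpace ℝ X]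
    {L : X → ((Fin n → ℂ) →L[ℂ] (Fin n → ℂ))} {z : X} (hL : ContDiffAt ℝ ∞ L z) :
    ContDiffAt ℝ ∞ (fun z => LinearMap.det (L z : (Fin n → ℂ) →ₗ[ℂ] (Fin n → ℂ))) z := by
  classical
  have h : (fun z => LinearMap.det (L z : (Fin n → ℂ) →ₗ[ℂ] (Fin n → ℂ))) = fun z =>
      ∑ σ : Equiv.Perm (Fin n), ((Equiv.Perm.sign σ : ℤ) : ℂ) *
        ∏ i, (L z (Pi.single i 1)) (σ i) := by
    ext z
    rw [← LinearMap.det_toMatrix', Matrix.det_apply']
    refine Finset.sum_congr rfl fun σ _ => ?_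
    congr 1
  rw [h]
  refine ContDiffAt.sum fun σ _ => contDiffAt_const.mul ?_
  refine contDiffAt_prod fun i _ => ?_
  have h1 : ContDiffAt ℝ ∞ (fun z => L z (Pi.single i 1)) z :=
    ((ContinuousLinearMap.apply ℂ (Fin n → ℂ) (Pi.single i (1 : ℂ) : Fin n → ℂ)).restrictScalars
      ℝ).contDiff.contDiffAt.comp z hL
  exact contDiffAt_pi.mp h1 (σ i)

theorem isInvertible_iff_det {A : (Fin n → ℂ) →L[ℂ] (Fin n → ℂ)} :
    A.IsInvertible ↔ LinearMap.det (A : (Fin n → ℂ) →ₗ[ℂ] (Fin n → ℂ)) ≠ 0 := by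
  constructor
  · rintro ⟨e, rfl⟩
    exact (LinearEquiv.isUnit_det' e.toLinearEquiv).ne_zero
  · intro h
    exact ⟨ContinuousLinearMap.toContinuousLinearEquivOfDetNeZero A h, rfl⟩

variable {S : Type} [TopologicalSpace S] [ChartedSpace (Fin n → ℂ) S]
  [IsManifold 𝓘(ℂ, Fin n → ℂ) ω S]

/-- the domain of the change of charts from `p` to `p'` -/
def Om (n : ℕ) {S : Type} [TopologicalSpace S] [ChartedSpace (Fin n → ℂ) S] (p p' : S) :
    Set (Fin n → ℂ) :=
  (chartAt (Fin n → ℂ) p).target ∩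
    (chartAt (Fin n → ℂ) p).symm ⁻¹' (chartAt (Fin n → ℂ) p').source

theorem isOpen_Om (p p' : S) : IsOpen (Om n p p') :=
  (chartAt (Fin n → ℂ) p).isOpen_inter_preimage_symm (chartAt (Fin n → ℂ) p').open_source

theorem mem_Om {p p' x : S} (hx : x ∈ (chartAt (Fin n → ℂ) p).source)
    (hx' : x ∈ (chartAt (Fin n → ℂ) p').source) : chartAt (Fin n → ℂ) p x ∈ Om n p p' := by
  refine ⟨(chartAt (Fin n → ℂ) p).map_source hx, ?_⟩
  rw [mem_preimage, (chartAt (Fin n → ℂ) p).left_inv hx]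
  exact hx'

theorem trans_differentiableOn (p p' : S) :
    DifferentiableOn ℂ (chartAt (Fin n → ℂ) p' ∘ (chartAt (Fin n → ℂ) p).symm) (Om n p p') := by
  have hM1 : IsManifold 𝓘(ℂ, Fin n → ℂ) 1 S := IsManifold.of_le (n := ω) le_top
  intro z hz
  have h1 : MDifferentiableAt 𝓘(ℂ, Fin n → ℂ) 𝓘(ℂ, Fin n → ℂ)
      (chartAt (Fin n → ℂ) p).symm z :=
    mdifferentiableAt_atlas_symm (chart_mem_atlas _ p) hz.1
  have h2 : MDifferentiableAt 𝓘(ℂ, Fin n → ℂ) 𝓘(ℂ, Fin n → ℂ) (chartAt (Fin n → ℂ) p')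
      ((chartAt (Fin n → ℂ) p).symm z) :=
    mdifferentiableAt_atlas (chart_mem_atlas _ p') hz.2
  exact (h2.comp z h1).differentiableAt.differentiableWithinAt

theorem trans_differentiableAt {p p' x : S} (hx : x ∈ (chartAt (Fin n → ℂ) p).source)
    (hx' : x ∈ (chartAt (Fin n → ℂ) p').source) :
    DifferentiableAt ℂ (chartAt (Fin n → ℂ) p' ∘ (chartAt (Fin n → ℂ) p).symm)
      (chartAt (Fin n → ℂ) p x) :=
  (trans_differentiableOn p p' _ (mem_Om hx hx')).differentiableAt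
    ((isOpen_Om p p').mem_nhds (mem_Om hx hx'))

/-- change of charts for Jacobians -/
theorem jac_change {G : S → (Fin n → ℂ)} {p p' x : S}
    (hx : x ∈ (chartAt (Fin n → ℂ) p).source) (hx' : x ∈ (chartAt (Fin n → ℂ) p').source)
    (hG : DifferentiableAt ℂ (G ∘ (chartAt (Fin n → ℂ) p).symm) (chartAt (Fin n → ℂ) p x)) :
    jac G p' x = jac G p x * jac (chartAt (Fin n → ℂ) p) p' x := by
  set e := chartAt (Fin n → ℂ) p with he
  set e' := chartAt (Fin n → ℂ) p' with he'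
  have h1 : G ∘ e'.symm =ᶠ[𝓝 (e' x)] (G ∘ e.symm) ∘ (e ∘ e'.symm) := by
    filter_upwards [(isOpen_Om p' p).mem_nhds (mem_Om hx' hx)] with z hz
    simp only [Function.comp]
    rw [e.left_inv hz.2]
  have h2 : (e ∘ e'.symm) (e' x) = e x := by simp [e'.left_inv hx']
  have hT : DifferentiableAt ℂ (e ∘ e'.symm) (e' x) := trans_differentiableAt hx' hx
  have h3 : fderiv ℂ (G ∘ e'.symm) (e' x) =
      (fderiv ℂ (G ∘ e.symm) (e x)).comp (fderiv ℂ (e ∘ e'.symm) (e' x)) := by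
    rw [h1.fderiv_eq, ← h2]
    refine HasFDerivAt.fderiv (HasFDerivAt.comp (e' x) ?_ hT.hasFDerivAt)
    rw [h2]
    exact hG.hasFDerivAt
  unfold jac
  rw [← he, ← he', h3, ContinuousLinearMap.toLinearMap_comp, LinearMap.det_comp]

theorem jac_self_chart {p x : S} (hx : x ∈ (chartAt (Fin n → ℂ) p).source) :
    jac (chartAt (Fin n → ℂ) p) p x = 1 := by
  set e := chartAt (Fin n → ℂ) p with he
  have h1 : e ∘ e.symm =ᶠ[𝓝 (e x)] id := by
    filter_upwards [e.open_target.mem_nhds (e.map_source hx)] with z hz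
    exact e.right_inv hz
  unfold jac
  rw [← he, h1.fderiv_eq, fderiv_id]
  exact LinearMap.det_id

theorem jac_chart_ne_zero {p p' x : S} (hx : x ∈ (chartAt (Fin n → ℂ) p).source)
    (hx' : x ∈ (chartAt (Fin n → ℂ) p').source) : jac (chartAt (Fin n → ℂ) p) p' x ≠ 0 := by
  have h1 := jac_change (G := chartAt (Fin n → ℂ) p') hx hx' (trans_differentiableAt hx hx')
  rw [jac_self_chart hx'] at h1
  intro h
  rw [h, mul_zero] at h1
  exact one_ne_zero h1

theorem differentiableAt_comp_symm {G : S → (Fin n → ℂ)}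
    (hG : MDifferentiable 𝓘(ℂ, Fin n → ℂ) 𝓘(ℂ, Fin n → ℂ) G) {p x : S}
    (hx : x ∈ (chartAt (Fin n → ℂ) p).source) :
    DifferentiableAt ℂ (G ∘ (chartAt (Fin n → ℂ) p).symm) (chartAt (Fin n → ℂ) p x) := by
  have hM1 : IsManifold 𝓘(ℂ, Fin n → ℂ) 1 S := IsManifold.of_le (n := ω) le_top
  have h1 : MDifferentiableAt 𝓘(ℂ, Fin n → ℂ) 𝓘(ℂ, Fin n → ℂ)
      (chartAt (Fin n → ℂ) p).symm (chartAt (Fin n → ℂ) p x) :=
    mdifferentiableAt_atlas_symm (chart_mem_atlas _ p) ((chartAt (Fin n → ℂ) p).map_source hx)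
  exact ((hG _).comp _ h1).differentiableAt

/-- the Jacobian of a chart read in another chart is smooth -/
theorem contDiffAt_jac_chart {p i : S} (hp : p ∈ (chartAt (Fin n → ℂ) i).source) :
    ContDiffAt ℝ ∞ (jac (chartAt (Fin n → ℂ) p) i ∘ (chartAt (Fin n → ℂ) p).symm)
      (chartAt (Fin n → ℂ) p p) := by
  have hpp : p ∈ (chartAt (Fin n → ℂ) p).source := mem_chart_source _ p
  have h1 : ContDiffOn ℂ ∞ (chartAt (Fin n → ℂ) p ∘ (chartAt (Fin n → ℂ) i).symm) (Om n i p) :=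
    contDiffOn_pi_of_differentiableOn (isOpen_Om i p) (trans_differentiableOn i p)
  have h2 : ContDiffOn ℂ ∞ (chartAt (Fin n → ℂ) i ∘ (chartAt (Fin n → ℂ) p).symm) (Om n p i) :=
    contDiffOn_pi_of_differentiableOn (isOpen_Om p i) (trans_differentiableOn p i)
  have h3 : ContDiffAt ℂ ∞ (fderiv ℂ (chartAt (Fin n → ℂ) p ∘ (chartAt (Fin n → ℂ) i).symm))
      (chartAt (Fin n → ℂ) i p) :=
    (h1.contDiffAt ((isOpen_Om i p).mem_nhds (mem_Om hp hpp))).fderiv_right (m := ∞)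
      (by norm_cast)
  have h4 : ContDiffAt ℂ ∞ (chartAt (Fin n → ℂ) i ∘ (chartAt (Fin n → ℂ) p).symm)
      (chartAt (Fin n → ℂ) p p) :=
    h2.contDiffAt ((isOpen_Om p i).mem_nhds (mem_Om hpp hp))
  have h5 : (chartAt (Fin n → ℂ) i ∘ (chartAt (Fin n → ℂ) p).symm) (chartAt (Fin n → ℂ) p p) =
      chartAt (Fin n → ℂ) i p := by simp
  rw [← h5] at h3
  exact contDiffAt_det ((h3.comp _ h4).restrict_scalars ℝ)

end LM

section Manifold

open LM

variable {n : ℕ} {S : Type} [TopologicalSpace S] [T2Space S] [SecondCountableTopology S]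
  [ChartedSpace (Fin n → ℂ) S] [IsManifold 𝓘(ℂ, Fin n → ℂ) ω S]

/-- (P5a) a complex manifold is a smooth manifold -/
theorem isManifold_real : IsManifold 𝓘(ℝ, Fin n → ℂ) ∞ S := by
  apply isManifold_of_contDiffOn
  intro e e' he he'
  have h1 : e.symm ≫ₕ e' ∈ contDiffGroupoid ω 𝓘(ℂ, Fin n → ℂ) := HasGroupoid.compatible he he'
  have h2 := contMDiffOn_of_mem_contDiffGroupoid h1
  have h3 : ContDiffOn ℂ ω (e.symm ≫ₕ e') (e.symm ≫ₕ e').source :=
    contMDiffOn_iff_contDiffOn.mp h2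
  have h4 : ContDiffOn ℝ ∞ (e.symm ≫ₕ e') (e.symm ≫ₕ e').source :=
    (h3.of_le le_top).restrict_scalars ℝ
  refine h4.mono ?_
  intro z hz
  exact hz.1

/-- (P5b) `jac G p` vanishes exactly at the points that are not coordinate points -/
theorem isCoordinateAt_iff_jac {G : S → (Fin n → ℂ)}
    (hG : MDifferentiable 𝓘(ℂ, Fin n → ℂ) 𝓘(ℂ, Fin n → ℂ) G) {p x : S}
    (hx : x ∈ (chartAt (Fin n → ℂ) p).source) : IsCoordinateAt G x ↔ jac G p x ≠ 0 := by
  have hxx : x ∈ (chartAt (Fin n → ℂ) x).source := mem_chart_source _ x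
  have h1 : IsCoordinateAt G x ↔ jac G x x ≠ 0 := isInvertible_iff_det
  rw [h1, jac_change hx hxx (differentiableAt_comp_symm hG hx)]
  exact mul_ne_zero_iff_right (jac_chart_ne_zero hx hxx)

/-- (P5c) There is a function `lam` on `S` which, in the chart at every point `p`, is
`log ‖jac G p‖²` plus a smooth function near `p`. -/
theorem exists_log_metric {G : S → (Fin n → ℂ)}
    (hG : MDifferentiable 𝓘(ℂ, Fin n → ℂ) 𝓘(ℂ, Fin n → ℂ) G) :
    ∃ lam : S → ℝ, ∀ p : S, ∃ τ : S → ℝ,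
      ContDiffAt ℝ ∞ (τ ∘ (chartAt (Fin n → ℂ) p).symm) (chartAt (Fin n → ℂ) p p) ∧
      ∀ᶠ x in 𝓝 p, IsCoordinateAt G x → lam x = Real.log (‖jac G p x‖ ^ 2) + τ x := by
  classical
  have hM : IsManifold 𝓘(ℝ, Fin n → ℂ) ∞ S := isManifold_real
  have hlc : LocallyCompactSpace S := ChartedSpace.locallyCompactSpace (Fin n → ℂ) S
  obtain ⟨f, hf⟩ := SmoothPartitionOfUnity.exists_isSubordinate_chartAt_source
    𝓘(ℝ, Fin n → ℂ) S
  refine ⟨fun x => ∑ᶠ i, f i x * Real.log (‖jac G i x‖ ^ 2), fun p =>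
    ⟨fun x => ∑ᶠ i, f i x * Real.log (‖jac (chartAt (Fin n → ℂ) p) i x‖ ^ 2), ?_, ?_⟩⟩
  · -- smoothness
    set t := f.fintsupport p with ht
    have hev : ∀ᶠ x in 𝓝 p, ∑ᶠ i, f i x * Real.log (‖jac (chartAt (Fin n → ℂ) p) i x‖ ^ 2) =
        ∑ i ∈ t, f i x * Real.log (‖jac (chartAt (Fin n → ℂ) p) i x‖ ^ 2) := by
      filter_upwards [f.eventually_finsupport_subset p] with x hx
      refine finsum_eq_sum_of_support_subset _ ?_
      intro i hi
      apply hx
      rw [SmoothPartitionOfUnity.mem_finsupport]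
      exact left_ne_zero_of_mul hi
    have htend : Tendsto (chartAt (Fin n → ℂ) p).symm (𝓝 (chartAt (Fin n → ℂ) p p)) (𝓝 p) := by
      have h := (chartAt (Fin n → ℂ) p).continuousAt_symm
        ((chartAt (Fin n → ℂ) p).map_source (mem_chart_source _ p))
      have h2 := h.tendsto
      rwa [(chartAt (Fin n → ℂ) p).left_inv (mem_chart_source _ p)] at h2
    have hev2 := htend.eventually hev
    refine ContDiffAt.congr_of_eventuallyEq ?_ hev2
    refine ContDiffAt.sum fun i hi => ContDiffAt.mul ?_ ?_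
    · have h1 : ContMDiffAt 𝓘(ℝ, Fin n → ℂ) 𝓘(ℝ, ℝ) ∞ (f i) p := (f i).contMDiff p
      rw [contMDiffAt_iff] at h1
      have h2 := h1.2
      have h3 : ContDiffWithinAt ℝ ∞ (f i ∘ (chartAt (Fin n → ℂ) p).symm) univ
          (chartAt (Fin n → ℂ) p p) := by
        have : range 𝓘(ℝ, Fin n → ℂ) = univ := by simp
        rw [← this]
        exact h2
      exact contDiffWithinAt_univ.mp h3
    · have hpi : p ∈ (chartAt (Fin n → ℂ) i).source :=
        hf i ((f.mem_fintsupport_iff p i).mp hi)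
      have h1 := contDiffAt_jac_chart (n := n) hpi
      have h2 : (jac (chartAt (Fin n → ℂ) p) i ∘ (chartAt (Fin n → ℂ) p).symm)
          (chartAt (Fin n → ℂ) p p) ≠ 0 := by
        have : (chartAt (Fin n → ℂ) p).symm (chartAt (Fin n → ℂ) p p) = p := by simp
        simp only [Function.comp, this]
        exact jac_chart_ne_zero (mem_chart_source _ p) hpi
      refine ContDiffAt.log (h1.norm_sq ℝ) ?_
      exact pow_ne_zero 2 (norm_ne_zero_iff.mpr h2)
  · -- the formula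
    filter_upwards [f.eventually_finsupport_subset p,
      (chartAt (Fin n → ℂ) p).open_source.mem_nhds (mem_chart_source _ p)] with x hx hxp hc
    have hjp : jac G p x ≠ 0 := (isCoordinateAt_iff_jac hG hxp).mp hc
    have hsup : ∀ i, f i x ≠ 0 → i ∈ f.fintsupport p := fun i hi => by
      apply hx
      rw [SmoothPartitionOfUnity.mem_finsupport]
      exact hi
    have e1 : ∑ᶠ i, f i x * Real.log (‖jac G i x‖ ^ 2) =
        ∑ i ∈ f.fintsupport p, f i x * Real.log (‖jac G i x‖ ^ 2) :=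
      finsum_eq_sum_of_support_subset _ fun i hi => hsup i (left_ne_zero_of_mul hi)
    have e2 : ∑ᶠ i, f i x * Real.log (‖jac (chartAt (Fin n → ℂ) p) i x‖ ^ 2) =
        ∑ i ∈ f.fintsupport p, f i x * Real.log (‖jac (chartAt (Fin n → ℂ) p) i x‖ ^ 2) :=
      finsum_eq_sum_of_support_subset _ fun i hi => hsup i (left_ne_zero_of_mul hi)
    have e3 : ∑ i ∈ f.fintsupport p, f i x = 1 := by
      have h1 := f.sum_eq_one (mem_univ x)
      rw [finsum_eq_sum_of_support_subset _ (s := f.fintsupport p) (fun i hi => hsup i hi)] at h1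
      exact h1
    rw [e1, e2]
    have e4 : ∀ i ∈ f.fintsupport p, f i x * Real.log (‖jac G i x‖ ^ 2) =
        f i x * Real.log (‖jac G p x‖ ^ 2) +
        f i x * Real.log (‖jac (chartAt (Fin n → ℂ) p) i x‖ ^ 2) := by
      intro i _
      by_cases hi : f i x = 0
      · simp [hi]
      · have hxi : x ∈ (chartAt (Fin n → ℂ) i).source :=
          hf i (subset_tsupport _ hi)
        have h1 := jac_change (G := G) hxp hxi (differentiableAt_comp_symm hG hxp)
        have h2 := jac_chart_ne_zero (n := n) hxp hxi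
        rw [h1, norm_mul, mul_pow, Real.log_mul, mul_add]
        · exact pow_ne_zero 2 (norm_ne_zero_iff.mpr hjp)
        · exact pow_ne_zero 2 (norm_ne_zero_iff.mpr h2)
    rw [Finset.sum_congr rfl e4, Finset.sum_add_distrib, ← Finset.sum_mul, e3, one_mul]

end Manifold

end Pool.Agent.Levi
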