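import Pool.Agent.Levi.LocalGeom
import Pool.Agent.Levi.LogMetric

/-!
# The Riemann domain over `ℂⁿ` given by a tame space over `S` and a holomorphic map `G : S → ℂⁿ`
-/

set_option autoImplicit false
set_option linter.unusedSectionVars false

open Set Filter Topology
open scoped ContDiff Manifold

namespace Pool.Agent.Levi

open Pool.Agent.MEP

section

variable {n : ℕ} {S : Type} [TopologicalSpace S] [ChartedSpace (Fin n → ℂ) S]
  {W : Type} [TopologicalSpace W]

/-- the part of `W` over the coordinate points of `G` -/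
abbrev MM (G : S → (Fin n → ℂ)) (q : W → S) : Type := {w : W // IsCoordinateAt G (q w)}

/-- the projection of `MM G q` to `ℂⁿ` -/
def piM (G : S → (Fin n → ℂ)) (q : W → S) : MM G q → (Fin n → ℂ) := fun w => G (q w.1)

/-- `G` in the chart at `p` -/
noncomputable def TT (G : S → (Fin n → ℂ)) (p : S) : (Fin n → ℂ) → (Fin n → ℂ) :=
  G ∘ (chartAt (Fin n → ℂ) p).symm

variable [T2Space S] [SecondCountableTopology S] [IsManifold 𝓘(ℂ, Fin n → ℂ) ω S]
  {G : S → (Fin n → ℂ)} {q : W → S}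

theorem TT_differentiableOn (hG : MDifferentiable 𝓘(ℂ, Fin n → ℂ) 𝓘(ℂ, Fin n → ℂ) G) (p : S) :
    DifferentiableOn ℂ (TT G p) (chartAt (Fin n → ℂ) p).target := by
  intro z hz
  have h := LM.differentiableAt_comp_symm (p := p) hG ((chartAt (Fin n → ℂ) p).map_target hz)
  rw [(chartAt (Fin n → ℂ) p).right_inv hz] at h
  exact h.differentiableWithinAt

theorem jac_eq (G : S → (Fin n → ℂ)) (p x : S) :
    jac G p x = LinearMap.det (fderiv ℂ (TT G p) (chartAt (Fin n → ℂ) p x) :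
      (Fin n → ℂ) →ₗ[ℂ] (Fin n → ℂ)) := rfl

theorem TT_isInvertible_iff (hG : MDifferentiable 𝓘(ℂ, Fin n → ℂ) 𝓘(ℂ, Fin n → ℂ) G) {p x : S}
    (hx : x ∈ (chartAt (Fin n → ℂ) p).source) :
    (fderiv ℂ (TT G p) (chartAt (Fin n → ℂ) p x)).IsInvertible ↔ IsCoordinateAt G x := by
  rw [isCoordinateAt_iff_jac hG hx, jac_eq, LM.isInvertible_iff_det]

theorem isLocalHomeomorphOn_coord (hG : MDifferentiable 𝓘(ℂ, Fin n → ℂ) 𝓘(ℂ, Fin n → ℂ) G) :
    IsLocalHomeomorphOn G {x : S | IsCoordinateAt G x} := by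
  apply IsLocalHomeomorphOn.mk
  intro x hx
  have hxs : x ∈ (chartAt (Fin n → ℂ) x).source := mem_chart_source _ x
  have hxt : chartAt (Fin n → ℂ) x x ∈ (chartAt (Fin n → ℂ) x).target :=
    (chartAt (Fin n → ℂ) x).map_source hxs
  obtain ⟨A, hA⟩ := (TT_isInvertible_iff hG hxs).mpr hx
  have hTc : ContDiffAt ℂ ∞ (TT G x) (chartAt (Fin n → ℂ) x x) := by
    rw [contDiffAt_pi]
    intro i
    exact (contDiffOn_of_differentiableOn (chartAt (Fin n → ℂ) x).open_target
      (fun y hy => (differentiableWithinAt_pi.mp (TT_differentiableOn hG x y hy)) i)).contDiffAt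
      ((chartAt (Fin n → ℂ) x).open_target.mem_nhds hxt)
  have hTd : HasFDerivAt (TT G x) (A : (Fin n → ℂ) →L[ℂ] (Fin n → ℂ))
      (chartAt (Fin n → ℂ) x x) := by
    rw [hA]
    exact (hTc.differentiableAt (by simp)).hasFDerivAt
  refine ⟨(chartAt (Fin n → ℂ) x).trans (hTc.toOpenPartialHomeomorph (TT G x) hTd (by simp)),
    ?_, ?_⟩
  · rw [OpenPartialHomeomorph.trans_source]
    exact ⟨hxs, hTc.mem_toOpenPartialHomeomorph_source hTd (by simp)⟩
  · intro y hy
    rw [OpenPartialHomeomorph.trans_source] at hy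
    rw [OpenPartialHomeomorph.coe_trans, Function.comp_apply,
      ContDiffAt.toOpenPartialHomeomorph_coe, TT, Function.comp_apply,
      (chartAt (Fin n → ℂ) x).left_inv hy.1]

theorem isOpen_coord (hG : MDifferentiable 𝓘(ℂ, Fin n → ℂ) 𝓘(ℂ, Fin n → ℂ) G) :
    IsOpen {x : S | IsCoordinateAt G x} := by
  rw [isOpen_iff_mem_nhds]
  intro x hx
  have hxs : x ∈ (chartAt (Fin n → ℂ) x).source := mem_chart_source _ x
  have hxt : chartAt (Fin n → ℂ) x x ∈ (chartAt (Fin n → ℂ) x).target :=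
    (chartAt (Fin n → ℂ) x).map_source hxs
  have h1 : ContinuousAt (fun z => LinearMap.det (fderiv ℂ (TT G x) z :
      (Fin n → ℂ) →ₗ[ℂ] (Fin n → ℂ))) (chartAt (Fin n → ℂ) x x) := by
    have h2 : ContDiffAt ℂ ∞ (TT G x) (chartAt (Fin n → ℂ) x x) := by
      rw [contDiffAt_pi]
      intro i
      exact (contDiffOn_of_differentiableOn (chartAt (Fin n → ℂ) x).open_target
        (fun y hy => (differentiableWithinAt_pi.mp (TT_differentiableOn hG x y hy)) i)).contDiffAt
        ((chartAt (Fin n → ℂ) x).open_target.mem_nhds hxt)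
    exact (LM.contDiffAt_det ((h2.fderiv_right (m := ∞) (by norm_cast)).restrict_scalars
      ℝ)).continuousAt
  have h3 : ContinuousAt (jac G x) x :=
    ContinuousAt.comp (f := chartAt (Fin n → ℂ) x)
      (g := fun z => LinearMap.det (fderiv ℂ (TT G x) z : (Fin n → ℂ) →ₗ[ℂ] (Fin n → ℂ)))
      h1 ((chartAt (Fin n → ℂ) x).continuousAt hxs)
  have h4 : ∀ᶠ y in 𝓝 x, jac G x y ≠ 0 :=
    h3.eventually_ne ((isCoordinateAt_iff_jac hG hxs).mp hx)
  filter_upwards [h4, (chartAt (Fin n → ℂ) x).open_source.mem_nhds hxs] with y hy hys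
  exact (isCoordinateAt_iff_jac hG hys).mpr hy

theorem isLocalHomeomorph_piM (hG : MDifferentiable 𝓘(ℂ, Fin n → ℂ) 𝓘(ℂ, Fin n → ℂ) G)
    (hq : IsLocalHomeomorph q) : IsLocalHomeomorph (piM G q) := by
  have h1 : IsLocalHomeomorphOn (G ∘ q) {w : W | IsCoordinateAt G (q w)} :=
    (isLocalHomeomorphOn_coord hG).comp (hq.isLocalHomeomorphOn.mono (subset_univ _))
      (fun w hw => hw)
  have hop : IsOpen {w : W | IsCoordinateAt G (q w)} := (isOpen_coord hG).preimage hq.continuous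
  have h2 : IsLocalHomeomorph (Subtype.val : MM G q → W) :=
    hop.isOpenEmbedding_subtypeVal.isLocalHomeomorph
  have h3 : IsLocalHomeomorphOn ((G ∘ q) ∘ (Subtype.val : MM G q → W)) univ :=
    h1.comp (h2.isLocalHomeomorphOn.mono (subset_univ _)) (fun w _ => w.2)
  exact isLocalHomeomorph_iff_isLocalHomeomorphOn_univ.mpr h3

/-- local parametrisation of `MM G q` near `w` by the chart at `p` -/
theorem exists_param (hG : MDifferentiable 𝓘(ℂ, Fin n → ℂ) 𝓘(ℂ, Fin n → ℂ) G) {p : S}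
    {N : Set S} (hN : IsOpen N) (hNs : N ⊆ (chartAt (Fin n → ℂ) p).source) (w : MM G q)
    (hw : q w ∈ N) {σ : S → W} (hσw : σ (q w) = w) (hσ : ContinuousOn σ N)
    (hqσ : ∀ x ∈ N, q (σ x) = x) :
    ∃ s : (Fin n → ℂ) → MM G q, s (chartAt (Fin n → ℂ) p (q w)) = w ∧
      ContinuousAt s (chartAt (Fin n → ℂ) p (q w)) ∧
      (∀ᶠ z in 𝓝 (chartAt (Fin n → ℂ) p (q w)),
        ((s z : MM G q) : W) = σ ((chartAt (Fin n → ℂ) p).symm z)) ∧
      (∀ᶠ z in 𝓝 (chartAt (Fin n → ℂ) p (q w)), q (s z) = (chartAt (Fin n → ℂ) p).symm z) ∧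
      ∀ᶠ z in 𝓝 (chartAt (Fin n → ℂ) p (q w)), piM G q (s z) = TT G p z := by
  classical
  set e := chartAt (Fin n → ℂ) p with he
  have hws : q w ∈ e.source := hNs hw
  have hsy : e.symm (e (q w)) = q w := e.left_inv hws
  have hcsy : ContinuousAt e.symm (e (q w)) := e.continuousAt_symm (e.map_source hws)
  have hev1 : ∀ᶠ z in 𝓝 (e (q w)), e.symm z ∈ N := by
    apply hcsy
    rw [hsy]
    exact hN.mem_nhds hw
  have hev2 : ∀ᶠ z in 𝓝 (e (q w)), IsCoordinateAt G (e.symm z) := by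
    have h0 : ∀ᶠ x in 𝓝 (e.symm (e (q w))), IsCoordinateAt G x := by
      rw [hsy]
      exact (isOpen_coord hG).mem_nhds w.2
    exact hcsy.tendsto.eventually h0
  let s : (Fin n → ℂ) → MM G q := fun z =>
    if h : IsCoordinateAt G (q (σ (e.symm z))) then ⟨σ (e.symm z), h⟩ else w
  have hs1 : ∀ z, e.symm z ∈ N → IsCoordinateAt G (e.symm z) →
      ((s z : MM G q) : W) = σ (e.symm z) := by
    intro z h1 h2
    have h3 : IsCoordinateAt G (q (σ (e.symm z))) := by rw [hqσ _ h1]; exact h2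
    simp only [s, dif_pos h3]
  have hs0 : s (e (q w)) = w := by
    apply Subtype.ext
    rw [hs1 _ (by rw [hsy]; exact hw) (by rw [hsy]; exact w.2), hsy, hσw]
  have hev3 : ∀ᶠ z in 𝓝 (e (q w)), ((s z : MM G q) : W) = σ (e.symm z) := by
    filter_upwards [hev1, hev2] with z h1 h2 using hs1 z h1 h2
  have hev4 : ∀ᶠ z in 𝓝 (e (q w)), q (s z) = e.symm z := by
    filter_upwards [hev1, hev3] with z h1 h2
    rw [h2, hqσ _ h1]
  refine ⟨s, hs0, ?_, hev3, hev4, ?_⟩
  · have h1 : ContinuousAt (fun z => σ (e.symm z)) (e (q w)) := by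
      refine ContinuousAt.comp (f := e.symm) (g := σ) ?_ hcsy
      rw [hsy]
      exact hσ.continuousAt (hN.mem_nhds hw)
    have h2 : ContinuousAt (fun z => ((s z : MM G q) : W)) (e (q w)) :=
      h1.congr (hev3.mono fun z hz => hz.symm)
    exact Topology.IsInducing.subtypeVal.continuousAt_iff.mpr h2
  · filter_upwards [hev4] with z h1
    show G (q (s z)) = G (e.symm z)
    rw [h1]

end

end Pool.Agent.Levi
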