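import Pool.Agent.Levi.Basic
import Pool.Agent.Levi.HoloSmooth

/-!
# The Levi form in `ℂⁿ`: second derivative along complex lines, chain rule, squares of moduli
-/

set_option autoImplicit false

open Set Filter Topology MeasureTheory
open scoped ContDiff ComplexConjugate

namespace Pool.Agent.Levi

variable {n : ℕ}

/-- four times the Levi form, as a second derivative along a complex line -/
noncomputable def LL (u : (Fin n → ℂ) → ℝ) (z ξ : Fin n → ℂ) : ℝ :=
  fderiv ℝ (fderiv ℝ u) z ξ ξ + fderiv ℝ (fderiv ℝ u) z (Complex.I • ξ) (Complex.I • ξ)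

theorem clm_single (l : (Fin n → ℂ) →L[ℝ] ℂ) (j : Fin n) (c : ℂ) :
    l (Pi.single j c) = (c.re : ℂ) * l (Pi.single j 1) + (c.im : ℂ) * l (Pi.single j Complex.I) := by
  have h : (Pi.single j c : Fin n → ℂ) =
      c.re • (Pi.single j (1 : ℂ) : Fin n → ℂ) + c.im • (Pi.single j Complex.I : Fin n → ℂ) := by
    ext i
    by_cases hi : i = j
    · subst hi
      simp [Complex.re_add_im]
    · simp [hi]
  rw [h, map_add, map_smul, map_smul, Complex.real_smul, Complex.real_smul]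

theorem clm_apply_eq_sum (l : (Fin n → ℂ) →L[ℝ] ℂ) (ξ : Fin n → ℂ) :
    l ξ = ∑ j, (((ξ j).re : ℂ) * l (Pi.single j 1) + ((ξ j).im : ℂ) * l (Pi.single j Complex.I)) := by
  conv_lhs => rw [← Finset.univ_sum_single ξ]
  rw [map_sum]
  exact Finset.sum_congr rfl fun j _ => clm_single l j (ξ j)

theorem sum_holo (l : (Fin n → ℂ) →L[ℝ] ℂ) (ξ : Fin n → ℂ) :
    ∑ j, ξ j * (l (Pi.single j 1) - Complex.I * l (Pi.single j Complex.I)) =
      l ξ - Complex.I * l (Complex.I • ξ) := by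
  rw [clm_apply_eq_sum l ξ, clm_apply_eq_sum l (Complex.I • ξ), Finset.mul_sum,
    ← Finset.sum_sub_distrib]
  refine Finset.sum_congr rfl fun j _ => ?_
  conv_lhs => rw [← Complex.re_add_im (ξ j)]
  simp only [Pi.smul_apply, smul_eq_mul, Complex.mul_re, Complex.I_re, Complex.I_im,
    Complex.mul_im, zero_mul, one_mul, zero_sub, zero_add, Complex.ofReal_neg]
  linear_combination (-((ξ j).im : ℂ) * l (Pi.single j Complex.I)) * Complex.I_mul_I

theorem sum_antiholo (l : (Fin n → ℂ) →L[ℝ] ℂ) (ξ : Fin n → ℂ) :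
    ∑ j, conj (ξ j) * (l (Pi.single j 1) + Complex.I * l (Pi.single j Complex.I)) =
      l ξ + Complex.I * l (Complex.I • ξ) := by
  rw [clm_apply_eq_sum l ξ, clm_apply_eq_sum l (Complex.I • ξ), Finset.mul_sum,
    ← Finset.sum_add_distrib]
  refine Finset.sum_congr rfl fun j _ => ?_
  conv_lhs => rw [← Complex.re_add_im (ξ j)]
  simp only [Pi.smul_apply, smul_eq_mul, Complex.mul_re, Complex.I_re, Complex.I_im,
    Complex.mul_im, zero_mul, one_mul, zero_sub, zero_add, Complex.ofReal_neg, map_add, map_mul,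
    Complex.conj_ofReal, Complex.conj_I]
  linear_combination (-((ξ j).im : ℂ) * l (Pi.single j Complex.I)) * Complex.I_mul_I

theorem differentiableAt_fderiv {F : Type*} [NormedAddCommGroup F] [NormedSpace ℝ F]
    {u : (Fin n → ℂ) → F} {z : Fin n → ℂ} (hu : ContDiffAt ℝ 2 u z) :
    DifferentiableAt ℝ (fderiv ℝ u) z :=
  (hu.fderiv_right (m := 1) (by norm_num)).differentiableAt (by norm_num)

theorem eventually_differentiableAt {F : Type*} [NormedAddCommGroup F] [NormedSpace ℝ F]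
    {u : (Fin n → ℂ) → F} {z : Fin n → ℂ} (hu : ContDiffAt ℝ 2 u z) :
    ∀ᶠ x in 𝓝 z, DifferentiableAt ℝ u x := by
  filter_upwards [hu.eventually (by simp)] with x hx
  exact hx.differentiableAt (by norm_num)

theorem symm_snd {F : Type*} [NormedAddCommGroup F] [NormedSpace ℝ F]
    {u : (Fin n → ℂ) → F} {z : Fin n → ℂ} (hu : ContDiffAt ℝ 2 u z) (a b : Fin n → ℂ) :
    fderiv ℝ (fderiv ℝ u) z a b = fderiv ℝ (fderiv ℝ u) z b a :=
  (hu.isSymmSndFDerivAt (by simp)) a b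

/-- the Levi form is a quarter of `LL` -/
theorem leviE_eq {u : (Fin n → ℂ) → ℝ} {z : Fin n → ℂ} (hu : ContDiffAt ℝ 2 u z)
    (ξ : Fin n → ℂ) : leviE u z ξ = (1 / 4) * LL u z ξ := by
  set B := fderiv ℝ (fderiv ℝ u) z with hB
  -- first derivatives near `z`
  have h1 : ∀ k, (fun x => dzbE (fun y => (u y : ℂ)) k x) =ᶠ[𝓝 z] fun x =>
      (1 / 2 : ℂ) * (((fderiv ℝ u x (Pi.single k 1) : ℝ) : ℂ) +
        Complex.I * ((fderiv ℝ u x (Pi.single k Complex.I) : ℝ) : ℂ)) := by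
    intro k
    filter_upwards [eventually_differentiableAt hu] with x hx
    have h2 : fderiv ℝ (fun y => (u y : ℂ)) x = Complex.ofRealCLM.comp (fderiv ℝ u x) :=
      (Complex.ofRealCLM.hasFDerivAt.comp x hx.hasFDerivAt).fderiv
    simp only [dzbE, h2, ContinuousLinearMap.comp_apply, Complex.ofRealCLM_apply]
  have h3 : ∀ e a : Fin n → ℂ, HasFDerivAt (fun x => ((fderiv ℝ u x e : ℝ) : ℂ))
      (Complex.ofRealCLM.comp (B.flip e)) z := by
    intro e a
    have h4 : HasFDerivAt (fderiv ℝ u) B z := (differentiableAt_fderiv hu).hasFDerivAt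
    have h5 : HasFDerivAt (fun x => fderiv ℝ u x e) (B.flip e) z := by
      exact (h4.clm_apply (hasFDerivAt_const e z)).congr_fderiv (by ext a; simp)
    exact Complex.ofRealCLM.hasFDerivAt.comp z h5
  have h6 : ∀ k a, fderiv ℝ (fun x => dzbE (fun y => (u y : ℂ)) k x) z a =
      (1 / 2 : ℂ) * (((B a (Pi.single k 1) : ℝ) : ℂ) +
        Complex.I * ((B a (Pi.single k Complex.I) : ℝ) : ℂ)) := by
    intro k a
    rw [(h1 k).fderiv_eq]
    have h7 := ((h3 (Pi.single k 1) a).add ((h3 (Pi.single k Complex.I) a).const_mul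
      Complex.I)).const_mul (1 / 2 : ℂ)
    have h8 : fderiv ℝ (fun x => (1 / 2 : ℂ) * (((fderiv ℝ u x (Pi.single k 1) : ℝ) : ℂ) +
        Complex.I * ((fderiv ℝ u x (Pi.single k Complex.I) : ℝ) : ℂ))) z = _ := h7.fderiv
    rw [h8]
    simp
    ring
  -- the bilinear algebra
  have h9 : ∀ a, ∑ k, conj (ξ k) * (((B a (Pi.single k 1) : ℝ) : ℂ) +
        Complex.I * ((B a (Pi.single k Complex.I) : ℝ) : ℂ)) =
      ((B a ξ : ℝ) : ℂ) + Complex.I * ((B a (Complex.I • ξ) : ℝ) : ℂ) := fun a =>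
    sum_antiholo (Complex.ofRealCLM.comp (B a)) ξ
  have h10 : ∑ j, ξ j * ((((B (Pi.single j 1) ξ : ℝ) : ℂ) +
        Complex.I * ((B (Pi.single j 1) (Complex.I • ξ) : ℝ) : ℂ)) - Complex.I *
        (((B (Pi.single j Complex.I) ξ : ℝ) : ℂ) +
        Complex.I * ((B (Pi.single j Complex.I) (Complex.I • ξ) : ℝ) : ℂ))) =
      (((B ξ ξ : ℝ) : ℂ) + Complex.I * ((B ξ (Complex.I • ξ) : ℝ) : ℂ)) - Complex.I *
        (((B (Complex.I • ξ) ξ : ℝ) : ℂ) +
        Complex.I * ((B (Complex.I • ξ) (Complex.I • ξ) : ℝ) : ℂ)) := by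
    have := sum_holo (Complex.ofRealCLM.comp (B.flip ξ) +
      Complex.I • Complex.ofRealCLM.comp (B.flip (Complex.I • ξ))) ξ
    simpa using this
  have h11 : ∑ j, ∑ k, dzE (fun x => dzbE (fun y => (u y : ℂ)) k x) j z * ξ j * conj (ξ k) =
      (1 / 4 : ℂ) * ((((B ξ ξ : ℝ) : ℂ) + Complex.I * ((B ξ (Complex.I • ξ) : ℝ) : ℂ)) - Complex.I *
        (((B (Complex.I • ξ) ξ : ℝ) : ℂ) +
        Complex.I * ((B (Complex.I • ξ) (Complex.I • ξ) : ℝ) : ℂ))) := by
    rw [← h10, Finset.mul_sum]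
    refine Finset.sum_congr rfl fun j _ => ?_
    rw [← h9, ← h9]
    simp only [dzE, h6]
    rw [Finset.mul_sum, ← Finset.sum_sub_distrib, Finset.mul_sum, Finset.mul_sum]
    refine Finset.sum_congr rfl fun k _ => ?_
    ring
  have hsym : B ξ (Complex.I • ξ) = B (Complex.I • ξ) ξ := symm_snd hu _ _
  unfold leviE LL
  rw [h11, hsym, ← hB]
  simp [Complex.add_re, Complex.mul_re]

/-! ### Rules for `LL` -/

theorem LL_congr {u w : (Fin n → ℂ) → ℝ} {z : Fin n → ℂ} (h : u =ᶠ[𝓝 z] w) (ξ : Fin n → ℂ) :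
    LL u z ξ = LL w z ξ := by
  have : fderiv ℝ u =ᶠ[𝓝 z] fderiv ℝ w := h.fderiv
  unfold LL
  rw [this.fderiv_eq]

theorem leviE_congr {u w : (Fin n → ℂ) → ℝ} {z : Fin n → ℂ} (h : u =ᶠ[𝓝 z] w)
    (ξ : Fin n → ℂ) : leviE u z ξ = leviE w z ξ := by
  have h0 : (fun y => (u y : ℂ)) =ᶠ[𝓝 z] fun y => (w y : ℂ) := by
    filter_upwards [h] with x hx
    rw [hx]
  have h1 : ∀ k, (fun x => dzbE (fun y => (u y : ℂ)) k x) =ᶠ[𝓝 z]
      fun x => dzbE (fun y => (w y : ℂ)) k x := by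
    intro k
    filter_upwards [h0.fderiv (𝕜 := ℝ)] with x hx
    simp only [dzbE]
    rw [hx]
  unfold leviE
  congr 1
  refine Finset.sum_congr rfl fun j _ => Finset.sum_congr rfl fun k _ => ?_
  simp only [dzE]
  rw [(h1 k).fderiv_eq]

theorem fderiv_fderiv_add {F : Type*} [NormedAddCommGroup F] [NormedSpace ℝ F]
    {u w : (Fin n → ℂ) → F} {z : Fin n → ℂ} (hu : ContDiffAt ℝ 2 u z)
    (hw : ContDiffAt ℝ 2 w z) : fderiv ℝ (fderiv ℝ (fun x => u x + w x)) z =
      fderiv ℝ (fderiv ℝ u) z + fderiv ℝ (fderiv ℝ w) z := by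
  have h : fderiv ℝ (fun x => u x + w x) =ᶠ[𝓝 z] fun x => fderiv ℝ u x + fderiv ℝ w x := by
    filter_upwards [eventually_differentiableAt hu, eventually_differentiableAt hw] with x h1 h2
    exact fderiv_fun_add h1 h2
  rw [h.fderiv_eq, fderiv_fun_add (differentiableAt_fderiv hu) (differentiableAt_fderiv hw)]

theorem LL_add {u w : (Fin n → ℂ) → ℝ} {z : Fin n → ℂ} (hu : ContDiffAt ℝ 2 u z)
    (hw : ContDiffAt ℝ 2 w z) (ξ : Fin n → ℂ) :
    LL (fun x => u x + w x) z ξ = LL u z ξ + LL w z ξ := by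
  unfold LL
  rw [fderiv_fderiv_add hu hw]
  simp only [_root_.add_apply]
  ring

theorem LL_const (c : ℝ) (z ξ : Fin n → ℂ) : LL (fun _ => c) z ξ = 0 := by
  unfold LL
  have : fderiv ℝ (fun _ : Fin n → ℂ => c) = fun _ => 0 := by
    ext1 x; simp
  rw [this]
  simp

theorem LL_sum {ι : Type*} {s : Finset ι} {u : ι → (Fin n → ℂ) → ℝ} {z : Fin n → ℂ}
    (hu : ∀ i ∈ s, ContDiffAt ℝ 2 (u i) z) (ξ : Fin n → ℂ) :
    LL (fun x => ∑ i ∈ s, u i x) z ξ = ∑ i ∈ s, LL (u i) z ξ := by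
  classical
  induction s using Finset.induction_on with
  | empty => simp [LL_const]
  | insert i s hi ih =>
    have h2 : (fun x => ∑ k ∈ insert i s, u k x) = fun x => u i x + ∑ k ∈ s, u k x := by
      ext x; rw [Finset.sum_insert hi]
    have h3 : ContDiffAt ℝ 2 (fun x => ∑ k ∈ s, u k x) z :=
      ContDiffAt.sum fun k hk => hu k (Finset.mem_insert_of_mem hk)
    rw [h2, LL_add (hu i (Finset.mem_insert_self i s)) h3,
      ih fun k hk => hu k (Finset.mem_insert_of_mem hk), Finset.sum_insert hi]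

/-- chain rule -/
theorem LL_comp {v : (Fin n → ℂ) → ℝ} {z : Fin n → ℂ} (hv : ContDiffAt ℝ 2 v z)
    {χ χ1 χ2 : ℝ → ℝ} (h1 : ∀ t, HasDerivAt χ (χ1 t) t) (h2 : ∀ t, HasDerivAt χ1 (χ2 t) t)
    (ξ : Fin n → ℂ) : LL (fun x => χ (v x)) z ξ = χ1 (v z) * LL v z ξ +
      χ2 (v z) * ((fderiv ℝ v z ξ) ^ 2 + (fderiv ℝ v z (Complex.I • ξ)) ^ 2) := by
  have h3 : fderiv ℝ (fun x => χ (v x)) =ᶠ[𝓝 z] fun x => χ1 (v x) • fderiv ℝ v x := by
    filter_upwards [eventually_differentiableAt hv] with x hx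
    exact ((h1 (v x)).comp_hasFDerivAt x hx.hasFDerivAt).fderiv
  have hvd : DifferentiableAt ℝ v z := hv.differentiableAt (by norm_num)
  have h4 : HasFDerivAt (fun x => χ1 (v x)) (χ2 (v z) • fderiv ℝ v z) z :=
    (h2 (v z)).comp_hasFDerivAt z hvd.hasFDerivAt
  have h5 := h4.smul (differentiableAt_fderiv hv).hasFDerivAt
  have h6 : fderiv ℝ (fun x => χ1 (v x) • fderiv ℝ v x) z = _ := h5.fderiv
  unfold LL
  rw [h3.fderiv_eq, h6]
  simp
  ring

theorem LL_const_mul {u : (Fin n → ℂ) → ℝ} {z : Fin n → ℂ} (hu : ContDiffAt ℝ 2 u z) (c : ℝ)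
    (ξ : Fin n → ℂ) : LL (fun x => c * u x) z ξ = c * LL u z ξ := by
  have h := LL_comp hu (χ := fun t => c * t) (χ1 := fun _ => c) (χ2 := fun _ => 0)
    (fun t => by simpa using (hasDerivAt_id t).const_mul c) (fun t => hasDerivAt_const t c) ξ
  simpa using h

theorem LL_sq {u : (Fin n → ℂ) → ℝ} {z : Fin n → ℂ} (hu : ContDiffAt ℝ 2 u z)
    (ξ : Fin n → ℂ) : LL (fun x => u x ^ 2) z ξ = 2 * u z * LL u z ξ +
      2 * ((fderiv ℝ u z ξ) ^ 2 + (fderiv ℝ u z (Complex.I • ξ)) ^ 2) :=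
  LL_comp hu (χ := fun t => t ^ 2) (χ1 := fun t => 2 * t) (χ2 := fun _ => 2)
    (fun t => by simpa using hasDerivAt_pow 2 t)
    (fun t => by simpa using (hasDerivAt_id t).const_mul 2) ξ

/-- second derivative of a holomorphic function -/
theorem snd_fderiv_I {U : Set (Fin n → ℂ)} (hU : IsOpen U) {h : (Fin n → ℂ) → ℂ}
    (hh : DifferentiableOn ℂ h U) {z : Fin n → ℂ} (hz : z ∈ U) (ξ : Fin n → ℂ) :
    fderiv ℝ (fderiv ℝ h) z (Complex.I • ξ) (Complex.I • ξ) =
      -fderiv ℝ (fderiv ℝ h) z ξ ξ := by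
  have hsm : ContDiffAt ℝ 2 h z :=
    ((contDiffOn_real_of_differentiableOn hU hh).contDiffAt (hU.mem_nhds hz)).of_le
      (by norm_cast)
  have h1 : ∀ a b : Fin n → ℂ, fderiv ℝ (fderiv ℝ h) z a b =
      fderiv ℂ (fun x => fderiv ℂ h x b) z a := by
    intro a b
    have h2 : HasFDerivAt (fun x => fderiv ℝ h x b) ((fderiv ℝ (fderiv ℝ h) z).flip b) z := by
      exact ((differentiableAt_fderiv hsm).hasFDerivAt.clm_apply
        (hasFDerivAt_const b z)).congr_fderiv (by ext a; simp)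
    have h3 : (fun x => fderiv ℝ h x b) =ᶠ[𝓝 z] fun x => fderiv ℂ h x b := by
      filter_upwards [hU.mem_nhds hz] with x hx
      have h4 : DifferentiableAt ℂ h x := (hh x hx).differentiableAt (hU.mem_nhds hx)
      rw [(h4.hasFDerivAt.restrictScalars ℝ).fderiv]
      rfl
    have h5 : DifferentiableAt ℂ (fun x => fderiv ℂ h x b) z :=
      (differentiableOn_fderiv_apply hU hh b z hz).differentiableAt (hU.mem_nhds hz)
    have h6 : HasFDerivAt (fun x => fderiv ℝ h x b)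
        ((fderiv ℂ (fun x => fderiv ℂ h x b) z).restrictScalars ℝ) z :=
      (h5.hasFDerivAt.restrictScalars ℝ).congr_of_eventuallyEq h3
    have h7 := h2.unique h6
    have h8 := congrArg (fun L : (Fin n → ℂ) →L[ℝ] ℂ => L a) h7
    simpa using h8
  have h2 : ∀ a b : Fin n → ℂ, fderiv ℝ (fderiv ℝ h) z (Complex.I • a) b =
      Complex.I * fderiv ℝ (fderiv ℝ h) z a b := by
    intro a b
    rw [h1, h1, map_smul, smul_eq_mul]
  have h3 : ∀ a b : Fin n → ℂ, fderiv ℝ (fderiv ℝ h) z a (Complex.I • b) =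
      Complex.I * fderiv ℝ (fderiv ℝ h) z a b := by
    intro a b
    rw [symm_snd hsm, h2, symm_snd hsm]
  rw [h2, h3, ← mul_assoc, Complex.I_mul_I]
  ring

theorem LL_re {U : Set (Fin n → ℂ)} (hU : IsOpen U) {h : (Fin n → ℂ) → ℂ}
    (hh : DifferentiableOn ℂ h U) {z : Fin n → ℂ} (hz : z ∈ U) (ξ : Fin n → ℂ)
    (L : ℂ →L[ℝ] ℝ) : LL (fun x => L (h x)) z ξ = 0 := by
  have hsm : ContDiffAt ℝ 2 h z :=
    ((contDiffOn_real_of_differentiableOn hU hh).contDiffAt (hU.mem_nhds hz)).of_le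
      (by norm_cast)
  have h1 : fderiv ℝ (fun x => L (h x)) =ᶠ[𝓝 z] fun x => L.comp (fderiv ℝ h x) := by
    filter_upwards [eventually_differentiableAt hsm] with x hx
    exact (L.hasFDerivAt.comp x hx.hasFDerivAt).fderiv
  have h2 : HasFDerivAt (fun x => L.comp (fderiv ℝ h x))
      ((ContinuousLinearMap.compL ℝ (Fin n → ℂ) ℂ ℝ L).comp (fderiv ℝ (fderiv ℝ h) z)) z :=
    (ContinuousLinearMap.compL ℝ (Fin n → ℂ) ℂ ℝ L).hasFDerivAt.comp z
      (differentiableAt_fderiv hsm).hasFDerivAt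
  unfold LL
  rw [h1.fderiv_eq, h2.fderiv]
  simp only [ContinuousLinearMap.comp_apply, ContinuousLinearMap.compL_apply]
  rw [snd_fderiv_I hU hh hz ξ, map_neg]
  ring

/-- the Levi form of `|h|²`, `h` holomorphic -/
theorem LL_norm_sq {U : Set (Fin n → ℂ)} (hU : IsOpen U) {h : (Fin n → ℂ) → ℂ}
    (hh : DifferentiableOn ℂ h U) {z : Fin n → ℂ} (hz : z ∈ U) (ξ : Fin n → ℂ) :
    LL (fun x => ‖h x‖ ^ 2) z ξ = 4 * ‖fderiv ℂ h z ξ‖ ^ 2 := by
  have hsm : ContDiffAt ℝ 2 h z :=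
    ((contDiffOn_real_of_differentiableOn hU hh).contDiffAt (hU.mem_nhds hz)).of_le
      (by norm_cast)
  have hre : ContDiffAt ℝ 2 (fun x => Complex.reCLM (h x)) z := Complex.reCLM.contDiff.contDiffAt.comp z hsm
  have him : ContDiffAt ℝ 2 (fun x => Complex.imCLM (h x)) z := Complex.imCLM.contDiff.contDiffAt.comp z hsm
  have e : (fun x => ‖h x‖ ^ 2) = fun x => (Complex.reCLM (h x)) ^ 2 + (Complex.imCLM (h x)) ^ 2 := by
    ext x
    rw [← Complex.normSq_eq_norm_sq, Complex.normSq_apply]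
    simp only [Complex.reCLM_apply, Complex.imCLM_apply]
    ring
  rw [e, LL_add (hre.pow 2) (him.pow 2), LL_sq hre, LL_sq him, LL_re hU hh hz, LL_re hU hh hz]
  have hd : HasFDerivAt h ((fderiv ℂ h z).restrictScalars ℝ) z :=
    ((hh z hz).differentiableAt (hU.mem_nhds hz)).hasFDerivAt.restrictScalars ℝ
  have d1 : fderiv ℝ (fun x => Complex.reCLM (h x)) z =
      Complex.reCLM.comp ((fderiv ℂ h z).restrictScalars ℝ) :=
    (Complex.reCLM.hasFDerivAt.comp z hd).fderiv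
  have d2 : fderiv ℝ (fun x => Complex.imCLM (h x)) z =
      Complex.imCLM.comp ((fderiv ℂ h z).restrictScalars ℝ) :=
    (Complex.imCLM.hasFDerivAt.comp z hd).fderiv
  rw [d1, d2]
  simp only [ContinuousLinearMap.comp_apply, ContinuousLinearMap.coe_restrictScalars',
    map_smul, smul_eq_mul, Complex.reCLM_apply, Complex.imCLM_apply, Complex.mul_re,
    Complex.mul_im, Complex.I_re, Complex.I_im]
  rw [← Complex.normSq_eq_norm_sq, Complex.normSq_apply]
  ring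

end Pool.Agent.Levi
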