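import Pool.Agent.Levi.LeviForm
import Pool.Agent.Levi.Calculus
import Pool.Agent.Levi.Transfer

/-!
# The Levi form on a Riemann domain, in other local holomorphic coordinates
-/

set_option autoImplicit false

open Set Filter Topology MeasureTheory
open scoped ContDiff ComplexConjugate

namespace Pool.Agent.Levi

section

variable {n : ℕ}

/-- chain rule for the Levi form and a holomorphic change of variables -/
theorem LL_comp_holo {v : (Fin n → ℂ) → ℝ} {T : (Fin n → ℂ) → (Fin n → ℂ)} {U : Set (Fin n → ℂ)}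
    (hU : IsOpen U) (hT : DifferentiableOn ℂ T U) {z : Fin n → ℂ} (hz : z ∈ U)
    (hv : ContDiffAt ℝ 2 v (T z)) (ξ : Fin n → ℂ) :
    LL (v ∘ T) z ξ = LL v (T z) (fderiv ℂ T z ξ) := by
  have hTc : ContDiffAt ℝ 2 T z := by
    rw [contDiffAt_pi]
    intro i
    exact ((contDiffOn_real_of_differentiableOn hU
      (fun x hx => (differentiableWithinAt_pi.mp (hT x hx)) i)).contDiffAt (hU.mem_nhds hz)).of_le
      (by norm_cast)
  have hTr : fderiv ℝ T z = (fderiv ℂ T z).restrictScalars ℝ :=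
    (((hT z hz).differentiableAt (hU.mem_nhds hz)).hasFDerivAt.restrictScalars ℝ).fderiv
  have hev1 : ∀ᶠ x in 𝓝 z, DifferentiableAt ℝ T x := eventually_differentiableAt hTc
  have hev2 : ∀ᶠ x in 𝓝 z, DifferentiableAt ℝ v (T x) :=
    hTc.continuousAt.eventually (eventually_differentiableAt hv)
  have h1 : fderiv ℝ (v ∘ T) =ᶠ[𝓝 z] fun x => (fderiv ℝ v (T x)).comp (fderiv ℝ T x) := by
    filter_upwards [hev1, hev2] with x h1 h2
    exact (h2.hasFDerivAt.comp x h1.hasFDerivAt).fderiv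
  have h2 : HasFDerivAt (fun x => fderiv ℝ v (T x))
      ((fderiv ℝ (fderiv ℝ v) (T z)).comp (fderiv ℝ T z)) z :=
    (differentiableAt_fderiv hv).hasFDerivAt.comp z
      (hTc.differentiableAt (by norm_num)).hasFDerivAt
  have h3 := h2.clm_comp (differentiableAt_fderiv hTc).hasFDerivAt
  have key : ∀ a b : Fin n → ℂ, fderiv ℝ (fderiv ℝ (v ∘ T)) z a b =
      fderiv ℝ (fderiv ℝ v) (T z) (fderiv ℂ T z a) (fderiv ℂ T z b) +
        fderiv ℝ v (T z) (fderiv ℝ (fderiv ℝ T) z a b) := by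
    intro a b
    rw [h1.fderiv_eq, h3.fderiv, hTr]
    simp
    ring
  have hanti : fderiv ℝ (fderiv ℝ T) z (Complex.I • ξ) (Complex.I • ξ) =
      -fderiv ℝ (fderiv ℝ T) z ξ ξ := by
    have hcomp : ∀ (i : Fin n) (a b : Fin n → ℂ), fderiv ℝ (fderiv ℝ T) z a b i =
        fderiv ℝ (fderiv ℝ (fun x => T x i)) z a b := by
      intro i a b
      have e1 : fderiv ℝ (fun x => T x i) =ᶠ[𝓝 z]
          fun x => (ContinuousLinearMap.proj (R := ℝ) i).comp (fderiv ℝ T x) := by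
        filter_upwards [hev1] with x hx
        exact ((ContinuousLinearMap.proj (R := ℝ) (φ := fun _ : Fin n => ℂ) i).hasFDerivAt.comp x
          hx.hasFDerivAt).fderiv
      have e2 : HasFDerivAt (fun x => (ContinuousLinearMap.proj (R := ℝ)
          (φ := fun _ : Fin n => ℂ) i).comp (fderiv ℝ T x))
          ((ContinuousLinearMap.compL ℝ (Fin n → ℂ) (Fin n → ℂ) ℂ
            (ContinuousLinearMap.proj (R := ℝ) i)).comp (fderiv ℝ (fderiv ℝ T) z)) z :=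
        (ContinuousLinearMap.compL ℝ (Fin n → ℂ) (Fin n → ℂ) ℂ
          (ContinuousLinearMap.proj (R := ℝ) i)).hasFDerivAt.comp z
          (differentiableAt_fderiv hTc).hasFDerivAt
      rw [e1.fderiv_eq, e2.fderiv]
      rfl
    funext i
    rw [Pi.neg_apply, hcomp, hcomp]
    exact snd_fderiv_I hU (fun x hx => (differentiableWithinAt_pi.mp (hT x hx)) i) hz ξ
  unfold LL
  rw [key, key, hanti, map_smul, map_neg]
  ring

end

section

variable {n : ℕ} {M : Type} [TopologicalSpace M] {π : M → (Fin n → ℂ)}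

theorem levi_eq_leviE (hπ : IsLocalHomeomorph π) (φ : M → ℝ) (w : M) (ξ : Fin n → ℂ) :
    levi hπ φ w ξ = leviE (φ ∘ hπ.localInverseAt w) (π w) ξ := by
  unfold levi leviE
  congr 1
  refine Finset.sum_congr rfl fun j _ => Finset.sum_congr rfl fun k _ => ?_
  have h1 : (fun x => dzb hπ (fun y => (φ y : ℂ)) k x) ∘ hπ.localInverseAt w =ᶠ[𝓝 (π w)]
      fun x => dzbE (fun y => (((φ ∘ hπ.localInverseAt w) y : ℝ) : ℂ)) k x := by
    filter_upwards [(hπ.localInverseAt w).open_source.mem_nhds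
      hπ.apply_self_mem_localInverseAt_source] with z hz
    simp only [Function.comp_apply, dzb, dzbE]
    rw [rderiv_inv_apply hπ _ _ hz, rderiv_inv_apply hπ _ _ hz]
    rfl
  congr 2
  unfold dz dzE rderiv
  rw [h1.fderiv_eq]

variable {w : M} {s : (Fin n → ℂ) → M} {ζ : Fin n → ℂ} {T : (Fin n → ℂ) → (Fin n → ℂ)}
  {U : Set (Fin n → ℂ)}

/-- (a) -/
theorem localInverseAt_comp_eventuallyEq (hπ : IsLocalHomeomorph π) (hs : s ζ = w)
    (hsc : ContinuousAt s ζ) (hsT : ∀ᶠ x in 𝓝 ζ, π (s x) = T x) :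
    (fun x => hπ.localInverseAt w (T x)) =ᶠ[𝓝 ζ] s := by
  have h1 : ∀ᶠ x in 𝓝 ζ, s x ∈ (hπ.localInverseAt w).target := by
    apply hsc
    rw [hs]
    exact (hπ.localInverseAt w).open_target.mem_nhds hπ.self_mem_localInverseAt_target
  filter_upwards [h1, hsT] with x h2 h3
  rw [← h3, inv_apply hπ h2]

theorem T_apply_eq (hs : s ζ = w) (hsT : ∀ᶠ x in 𝓝 ζ, π (s x) = T x) : T ζ = π w := by
  rw [← hs, hsT.self_of_nhds]

/-- (c) -/
theorem comp_s_differentiableAt (hπ : IsLocalHomeomorph π) (hs : s ζ = w)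
    (hsc : ContinuousAt s ζ) (hsT : ∀ᶠ x in 𝓝 ζ, π (s x) = T x)
    (hT : DifferentiableAt ℂ T ζ) {h : M → ℂ}
    (hh : DifferentiableAt ℂ (h ∘ hπ.localInverseAt w) (π w)) : DifferentiableAt ℂ (h ∘ s) ζ := by
  have h1 : (h ∘ hπ.localInverseAt w) ∘ T =ᶠ[𝓝 ζ] h ∘ s := by
    filter_upwards [localInverseAt_comp_eventuallyEq hπ hs hsc hsT] with x hx
    simp only [Function.comp_apply]
    rw [hx]
  rw [← T_apply_eq hs hsT] at hh
  exact (hh.comp ζ hT).congr_of_eventuallyEq h1.symm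

/-- the local inverse of `T` -/
theorem exists_local_inverse (hU : IsOpen U) (hT : DifferentiableOn ℂ T U) (hζ : ζ ∈ U)
    (hinv : (fderiv ℂ T ζ).IsInvertible) :
    ∃ R : (Fin n → ℂ) → (Fin n → ℂ), ContDiffAt ℂ ∞ R (T ζ) ∧ R (T ζ) = ζ ∧
      (∀ᶠ x in 𝓝 ζ, R (T x) = x) ∧ ∀ᶠ z in 𝓝 (T ζ), T (R z) = z := by
  obtain ⟨A, hA⟩ := hinv
  have hTc : ContDiffAt ℂ ∞ T ζ := by
    rw [contDiffAt_pi]
    intro i
    exact (contDiffOn_of_differentiableOn hU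
      (fun x hx => (differentiableWithinAt_pi.mp (hT x hx)) i)).contDiffAt (hU.mem_nhds hζ)
  have hTd : HasFDerivAt T (A : (Fin n → ℂ) →L[ℂ] (Fin n → ℂ)) ζ := by
    rw [hA]
    exact ((hT ζ hζ).differentiableAt (hU.mem_nhds hζ)).hasFDerivAt
  refine ⟨hTc.localInverse hTd (by simp), hTc.to_localInverse hTd (by simp),
    hTc.localInverse_apply_image hTd (by simp), ?_, ?_⟩
  · exact (hTc.hasStrictFDerivAt' hTd (by simp)).eventually_left_inverse
  · exact (hTc.hasStrictFDerivAt' hTd (by simp)).eventually_right_inverse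

/-- the local inverse of `π` is `s ∘ R` near `π w` -/
theorem localInverseAt_eventuallyEq' (hπ : IsLocalHomeomorph π) (hs : s ζ = w)
    (hsc : ContinuousAt s ζ) (hsT : ∀ᶠ x in 𝓝 ζ, π (s x) = T x)
    {R : (Fin n → ℂ) → (Fin n → ℂ)} (hR : ContinuousAt R (T ζ)) (hR0 : R (T ζ) = ζ)
    (hTR : ∀ᶠ z in 𝓝 (T ζ), T (R z) = z) :
    (hπ.localInverseAt w : (Fin n → ℂ) → M) =ᶠ[𝓝 (π w)] s ∘ R := by
  have h1 : Tendsto R (𝓝 (T ζ)) (𝓝 ζ) := by
    have := hR.tendsto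
    rwa [hR0] at this
  have h2 : ∀ᶠ z in 𝓝 (T ζ), s (R z) = hπ.localInverseAt w (T (R z)) :=
    h1.eventually ((localInverseAt_comp_eventuallyEq hπ hs hsc hsT).mono fun x hx => hx.symm)
  rw [← T_apply_eq hs hsT]
  filter_upwards [h2, hTR] with z h3 h4
  rw [Function.comp_apply, h3, h4]

/-- (b), any order of smoothness -/
theorem contDiffAt_comp_localInverseAt_of_le (hπ : IsLocalHomeomorph π) (hU : IsOpen U)
    (hT : DifferentiableOn ℂ T U) (hζ : ζ ∈ U) (hinv : (fderiv ℂ T ζ).IsInvertible)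
    (hs : s ζ = w) (hsc : ContinuousAt s ζ) (hsT : ∀ᶠ x in 𝓝 ζ, π (s x) = T x)
    {F : Type} [NormedAddCommGroup F] [NormedSpace ℝ F] {u : M → F} {m : WithTop ℕ∞} (hm : m ≤ ∞)
    (hu : ContDiffAt ℝ m (u ∘ s) ζ) : ContDiffAt ℝ m (u ∘ hπ.localInverseAt w) (π w) := by
  obtain ⟨R, hR, hR0, hRT, hTR⟩ := exists_local_inverse hU hT hζ hinv
  have h1 := localInverseAt_eventuallyEq' hπ hs hsc hsT hR.continuousAt hR0 hTR
  have h2 : u ∘ hπ.localInverseAt w =ᶠ[𝓝 (π w)] (u ∘ s) ∘ R := by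
    filter_upwards [h1] with z hz
    simp only [Function.comp_apply] at hz ⊢
    rw [hz]
  refine ContDiffAt.congr_of_eventuallyEq ?_ h2
  rw [← T_apply_eq hs hsT]
  refine ContDiffAt.comp _ ?_ ((hR.restrict_scalars ℝ).of_le hm)
  rwa [hR0]

/-- (b) -/
theorem contDiffAt_comp_localInverseAt (hπ : IsLocalHomeomorph π) (hU : IsOpen U)
    (hT : DifferentiableOn ℂ T U) (hζ : ζ ∈ U) (hinv : (fderiv ℂ T ζ).IsInvertible)
    (hs : s ζ = w) (hsc : ContinuousAt s ζ) (hsT : ∀ᶠ x in 𝓝 ζ, π (s x) = T x)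
    {F : Type} [NormedAddCommGroup F] [NormedSpace ℝ F] {u : M → F}
    (hu : ContDiffAt ℝ ∞ (u ∘ s) ζ) : ContDiffAt ℝ ∞ (u ∘ hπ.localInverseAt w) (π w) :=
  contDiffAt_comp_localInverseAt_of_le hπ hU hT hζ hinv hs hsc hsT le_rfl hu

/-- (b') -/
theorem differentiableAt_comp_localInverseAt (hπ : IsLocalHomeomorph π) (hU : IsOpen U)
    (hT : DifferentiableOn ℂ T U) (hζ : ζ ∈ U) (hinv : (fderiv ℂ T ζ).IsInvertible)
    (hs : s ζ = w) (hsc : ContinuousAt s ζ) (hsT : ∀ᶠ x in 𝓝 ζ, π (s x) = T x)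
    {u : M → ℂ} (hu : DifferentiableAt ℂ (u ∘ s) ζ) :
    DifferentiableAt ℂ (u ∘ hπ.localInverseAt w) (π w) := by
  obtain ⟨R, hR, hR0, hRT, hTR⟩ := exists_local_inverse hU hT hζ hinv
  have h1 := localInverseAt_eventuallyEq' hπ hs hsc hsT hR.continuousAt hR0 hTR
  have h2 : u ∘ hπ.localInverseAt w =ᶠ[𝓝 (π w)] (u ∘ s) ∘ R := by
    filter_upwards [h1] with z hz
    simp only [Function.comp_apply] at hz ⊢
    rw [hz]
  refine DifferentiableAt.congr_of_eventuallyEq ?_ h2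
  rw [← T_apply_eq hs hsT]
  refine DifferentiableAt.comp _ ?_ (hR.differentiableAt (by simp))
  rwa [hR0]

/-- (d'), for `C²` functions -/
theorem levi_eq_LL' (hπ : IsLocalHomeomorph π) (hU : IsOpen U)
    (hT : DifferentiableOn ℂ T U) (hζ : ζ ∈ U) (hinv : (fderiv ℂ T ζ).IsInvertible)
    (hs : s ζ = w) (hsc : ContinuousAt s ζ) (hsT : ∀ᶠ x in 𝓝 ζ, π (s x) = T x)
    {φ : M → ℝ} (hu : ContDiffAt ℝ 2 (φ ∘ s) ζ) (v : Fin n → ℂ) :
    levi hπ φ w (fderiv ℂ T ζ v) = (1 / 4) * LL (φ ∘ s) ζ v := by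
  have h0' := contDiffAt_comp_localInverseAt_of_le hπ hU hT hζ hinv hs hsc hsT
    (m := 2) (by norm_cast) hu
  rw [levi_eq_leviE, leviE_eq h0']
  have h1 : (φ ∘ hπ.localInverseAt w) ∘ T =ᶠ[𝓝 ζ] φ ∘ s := by
    filter_upwards [localInverseAt_comp_eventuallyEq hπ hs hsc hsT] with x hx
    simp only [Function.comp_apply]
    rw [hx]
  rw [← LL_congr h1]
  rw [← T_apply_eq hs hsT] at h0' ⊢
  rw [LL_comp_holo hU hT hζ h0' v]

/-- (d) -/
theorem levi_eq_LL (hπ : IsLocalHomeomorph π) (hU : IsOpen U)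
    (hT : DifferentiableOn ℂ T U) (hζ : ζ ∈ U) (hinv : (fderiv ℂ T ζ).IsInvertible)
    (hs : s ζ = w) (hsc : ContinuousAt s ζ) (hsT : ∀ᶠ x in 𝓝 ζ, π (s x) = T x)
    {φ : M → ℝ} (hu : ContDiffAt ℝ ∞ (φ ∘ s) ζ) (v : Fin n → ℂ) :
    levi hπ φ w (fderiv ℂ T ζ v) = (1 / 4) * LL (φ ∘ s) ζ v :=
  levi_eq_LL' hπ hU hT hζ hinv hs hsc hsT (hu.of_le (by norm_cast)) v

/-- (e'), for `C¹` functions -/
theorem norm_fderiv_comp_localInverseAt_le' (hπ : IsLocalHomeomorph π) (hU : IsOpen U)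
    (hT : DifferentiableOn ℂ T U) (hζ : ζ ∈ U) (hinv : (fderiv ℂ T ζ).IsInvertible)
    (hs : s ζ = w) (hsc : ContinuousAt s ζ) (hsT : ∀ᶠ x in 𝓝 ζ, π (s x) = T x)
    {u : M → ℝ} (hu : ContDiffAt ℝ 1 (u ∘ s) ζ) :
    ‖fderiv ℝ (u ∘ hπ.localInverseAt w) (π w)‖ ≤
      ‖fderiv ℝ (u ∘ s) ζ‖ * ‖(fderiv ℂ T ζ).inverse‖ := by
  have h0 := contDiffAt_comp_localInverseAt_of_le hπ hU hT hζ hinv hs hsc hsT
    (m := 1) (by norm_cast) hu
  have h1 : (u ∘ hπ.localInverseAt w) ∘ T =ᶠ[𝓝 ζ] u ∘ s := by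
    filter_upwards [localInverseAt_comp_eventuallyEq hπ hs hsc hsT] with x hx
    simp only [Function.comp_apply]
    rw [hx]
  have hTd : HasFDerivAt T ((fderiv ℂ T ζ).restrictScalars ℝ) ζ :=
    ((hT ζ hζ).differentiableAt (hU.mem_nhds hζ)).hasFDerivAt.restrictScalars ℝ
  rw [← T_apply_eq hs hsT] at h0 ⊢
  have h2 : HasFDerivAt ((u ∘ hπ.localInverseAt w) ∘ T) _ ζ :=
    (h0.differentiableAt (by simp)).hasFDerivAt.comp ζ hTd
  have h3 : fderiv ℝ (u ∘ s) ζ = (fderiv ℝ (u ∘ hπ.localInverseAt w) (T ζ)).comp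
      ((fderiv ℂ T ζ).restrictScalars ℝ) := by
    rw [← h1.fderiv_eq, h2.fderiv]
  refine ContinuousLinearMap.opNorm_le_bound _ (by positivity) fun x => ?_
  obtain ⟨A, hA⟩ := hinv
  have hA' : (fderiv ℂ T ζ).inverse = (A.symm : (Fin n → ℂ) →L[ℂ] (Fin n → ℂ)) := by
    rw [← hA, ContinuousLinearMap.inverse_equiv]
  have h4 : fderiv ℝ (u ∘ hπ.localInverseAt w) (T ζ) x =
      fderiv ℝ (u ∘ s) ζ ((fderiv ℂ T ζ).inverse x) := by
    rw [h3, ContinuousLinearMap.comp_apply, ContinuousLinearMap.coe_restrictScalars', hA', ← hA]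
    simp
  rw [h4]
  calc ‖fderiv ℝ (u ∘ s) ζ ((fderiv ℂ T ζ).inverse x)‖
      ≤ ‖fderiv ℝ (u ∘ s) ζ‖ * ‖(fderiv ℂ T ζ).inverse x‖ := ContinuousLinearMap.le_opNorm _ _
    _ ≤ ‖fderiv ℝ (u ∘ s) ζ‖ * (‖(fderiv ℂ T ζ).inverse‖ * ‖x‖) := by
        gcongr
        exact ContinuousLinearMap.le_opNorm _ _
    _ = _ := by ring

/-- (e) -/
theorem norm_fderiv_comp_localInverseAt_le (hπ : IsLocalHomeomorph π) (hU : IsOpen U)
    (hT : DifferentiableOn ℂ T U) (hζ : ζ ∈ U) (hinv : (fderiv ℂ T ζ).IsInvertible)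
    (hs : s ζ = w) (hsc : ContinuousAt s ζ) (hsT : ∀ᶠ x in 𝓝 ζ, π (s x) = T x)
    {u : M → ℝ} (hu : ContDiffAt ℝ ∞ (u ∘ s) ζ) :
    ‖fderiv ℝ (u ∘ hπ.localInverseAt w) (π w)‖ ≤
      ‖fderiv ℝ (u ∘ s) ζ‖ * ‖(fderiv ℂ T ζ).inverse‖ :=
  norm_fderiv_comp_localInverseAt_le' hπ hU hT hζ hinv hs hsc hsT (hu.of_le (by norm_cast))

end

end Pool.Agent.Levi
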