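import Pool.Agent.Levi.Weyl

/-!
# Mollification in `L²(ℂⁿ)`
-/

set_option autoImplicit false

open Set Filter Topology MeasureTheory Metric
open scoped ContDiff Convolution ENNReal

namespace Pool.Agent.Levi

variable {n : ℕ}

/-- convolution with a kernel as an integral for the probability measure of the kernel -/
theorem enorm_convolution_sq_le {κ : (Fin n → ℂ) → ℝ} (hκ : Continuous κ) (hκ0 : ∀ t, 0 ≤ κ t)
    (hκi : Integrable κ) (hκ1 : ∫ t, κ t = 1) {φ : (Fin n → ℂ) → ℂ} (hφ : Measurable φ)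
    (x : Fin n → ℂ) :
    ‖(κ ⋆[ContinuousLinearMap.lsmul ℝ ℝ] φ) x‖ₑ ^ 2 ≤
      ∫⁻ t, ENNReal.ofReal (κ t) * ‖φ (x - t)‖ₑ ^ 2 := by
  set ν : Measure (Fin n → ℂ) := volume.withDensity (fun t => ENNReal.ofReal (κ t)) with hν
  have hprob : IsProbabilityMeasure ν := by
    constructor
    rw [hν, withDensity_apply _ MeasurableSet.univ, Measure.restrict_univ,
      ← ofReal_integral_eq_lintegral_ofReal hκi (ae_of_all _ hκ0), hκ1, ENNReal.ofReal_one]
  have hm : Measurable (fun t => φ (x - t)) := hφ.comp (measurable_const.sub measurable_id)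
  have hmk : Measurable (fun t => ENNReal.ofReal (κ t)) := hκ.measurable.ennreal_ofReal
  have h1 : ‖(κ ⋆[ContinuousLinearMap.lsmul ℝ ℝ] φ) x‖ₑ ≤ ∫⁻ t, ‖φ (x - t)‖ₑ ∂ν := by
    rw [convolution_def]
    refine (enorm_integral_le_lintegral_enorm _).trans (le_of_eq ?_)
    rw [hν, lintegral_withDensity_eq_lintegral_mul _ hmk hm.enorm]
    refine lintegral_congr (fun t => ?_)
    simp only [ContinuousLinearMap.lsmul_apply, enorm_smul, Pi.mul_apply]
    congr 1
    rw [Real.enorm_eq_ofReal (hκ0 t)]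
  have h2 : ∫⁻ t, ‖φ (x - t)‖ₑ ∂ν ≤ (∫⁻ t, ‖φ (x - t)‖ₑ ^ 2 ∂ν) ^ (1 / 2 : ℝ) := by
    have := eLpNorm_le_eLpNorm_of_exponent_le (μ := ν) (f := fun t => φ (x - t)) (p := 1) (q := 2)
      (by norm_num) hm.aestronglyMeasurable
    rw [eLpNorm_one_eq_lintegral_enorm, eLpNorm_eq_lintegral_rpow_enorm_toReal (by norm_num)
      (by norm_num)] at this
    simpa using this
  calc ‖(κ ⋆[ContinuousLinearMap.lsmul ℝ ℝ] φ) x‖ₑ ^ 2
      ≤ ((∫⁻ t, ‖φ (x - t)‖ₑ ^ 2 ∂ν) ^ (1 / 2 : ℝ)) ^ 2 := by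
        gcongr
        exact h1.trans h2
    _ = ∫⁻ t, ‖φ (x - t)‖ₑ ^ 2 ∂ν := by
        rw [← ENNReal.rpow_natCast, ← ENNReal.rpow_mul]
        norm_num
    _ = _ := by
        rw [hν, lintegral_withDensity_eq_lintegral_mul _ hmk (hm.enorm.pow_const 2)]
        rfl

theorem eLpNorm_convolution_le {κ : (Fin n → ℂ) → ℝ} (hκ : Continuous κ) (hκ0 : ∀ t, 0 ≤ κ t)
    (hκi : Integrable κ) (hκ1 : ∫ t, κ t = 1) {φ : (Fin n → ℂ) → ℂ}
    (hφ : AEStronglyMeasurable φ volume) :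
    eLpNorm (κ ⋆[ContinuousLinearMap.lsmul ℝ ℝ] φ) 2 volume ≤ eLpNorm φ 2 volume := by
  obtain ⟨φ', hφ', hφφ'⟩ := hφ.aemeasurable
  rw [convolution_congr _ (Filter.EventuallyEq.refl _ κ) hφφ', eLpNorm_congr_ae hφφ']
  have key : ∫⁻ x, ‖(κ ⋆[ContinuousLinearMap.lsmul ℝ ℝ] φ') x‖ₑ ^ 2 ≤ ∫⁻ x, ‖φ' x‖ₑ ^ 2 := by
    calc ∫⁻ x, ‖(κ ⋆[ContinuousLinearMap.lsmul ℝ ℝ] φ') x‖ₑ ^ 2
        ≤ ∫⁻ x, ∫⁻ t, ENNReal.ofReal (κ t) * ‖φ' (x - t)‖ₑ ^ 2 :=
          lintegral_mono (fun x => enorm_convolution_sq_le hκ hκ0 hκi hκ1 hφ' x)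
      _ = ∫⁻ t, ∫⁻ x, ENNReal.ofReal (κ t) * ‖φ' (x - t)‖ₑ ^ 2 := by
          apply lintegral_lintegral_swap
          apply Measurable.aemeasurable
          have h1 : Measurable (fun p : (Fin n → ℂ) × (Fin n → ℂ) => φ' (p.1 - p.2)) :=
            hφ'.comp (measurable_fst.sub measurable_snd)
          have h2 : Measurable (fun p : (Fin n → ℂ) × (Fin n → ℂ) => ENNReal.ofReal (κ p.2)) :=
            (hκ.measurable.comp measurable_snd).ennreal_ofReal
          exact h2.mul (h1.enorm.pow_const 2)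
      _ = ∫⁻ t, ENNReal.ofReal (κ t) * ∫⁻ x, ‖φ' x‖ₑ ^ 2 := by
          refine lintegral_congr (fun t => ?_)
          have h1 : Measurable (fun x => ‖φ' (x - t)‖ₑ ^ 2) :=
            (hφ'.comp (measurable_id.sub measurable_const)).enorm.pow_const 2
          rw [lintegral_const_mul _ h1]
          congr 1
          exact lintegral_sub_right_eq_self (fun x => ‖φ' x‖ₑ ^ 2) t
      _ = ∫⁻ x, ‖φ' x‖ₑ ^ 2 := by
          rw [lintegral_mul_const _ hκ.measurable.ennreal_ofReal,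
            ← ofReal_integral_eq_lintegral_ofReal hκi (ae_of_all _ hκ0), hκ1,
            ENNReal.ofReal_one, one_mul]
  rw [eLpNorm_eq_lintegral_rpow_enorm_toReal (by norm_num) (by norm_num),
    eLpNorm_eq_lintegral_rpow_enorm_toReal (by norm_num) (by norm_num)]
  refine ENNReal.rpow_le_rpow ?_ (by positivity)
  simpa using key

/-- mollification converges in `L²` -/
theorem tendsto_mollify {ψ : ℕ → ContDiffBump (0 : Fin n → ℂ)}
    (hψ : Tendsto (fun m => (ψ m).rOut) atTop (𝓝 0)) {φ : (Fin n → ℂ) → ℂ}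
    (hφ : MemLp φ 2 volume) :
    Tendsto (fun m => eLpNorm (((ψ m).normed volume ⋆[ContinuousLinearMap.lsmul ℝ ℝ] φ) - φ) 2
      volume) atTop (𝓝 0) := by
  rw [ENNReal.tendsto_nhds_zero]
  intro ε hε
  obtain ⟨δ, hδ0, hδε⟩ : ∃ δ : ℝ≥0∞, 0 < δ ∧ δ + δ + δ ≤ ε := by
    refine ⟨ε / 3, ENNReal.div_pos hε.ne' (by norm_num), le_of_eq ?_⟩
    exact ENNReal.add_thirds ε
  obtain ⟨g, hgs, hφg, hgc, hgL⟩ :=
    hφ.exists_hasCompactSupport_eLpNorm_sub_le (by norm_num) hδ0.ne'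
  -- uniform approximation of `g`
  set S : Set (Fin n → ℂ) := cthickening 1 (tsupport g) with hS
  have hSc : IsCompact S := hgs.isCompact.cthickening
  have hSf : volume S ≠ ⊤ := hSc.measure_lt_top.ne
  obtain ⟨η, hη0, hηδ⟩ : ∃ η : ℝ, 0 < η ∧
      ENNReal.ofReal η * volume S ^ (1 / (2 : ℝ≥0∞).toReal) ≤ δ := by
    have h1 : volume S ^ (1 / (2 : ℝ≥0∞).toReal) ≠ ⊤ :=
      ENNReal.rpow_ne_top_of_nonneg (by positivity) hSf
    have h2 : Tendsto (fun η : ℝ => ENNReal.ofReal η * volume S ^ (1 / (2 : ℝ≥0∞).toReal))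
        (𝓝[>] 0) (𝓝 0) := by
      have h3 : Tendsto (fun η : ℝ => ENNReal.ofReal η) (𝓝[>] 0) (𝓝 0) := by
        have := (ENNReal.continuous_ofReal.tendsto (0 : ℝ)).mono_left
          (nhdsWithin_le_nhds (s := Ioi (0 : ℝ)))
        rwa [ENNReal.ofReal_zero] at this
      have := ENNReal.Tendsto.mul_const h3 (b := volume S ^ (1 / (2 : ℝ≥0∞).toReal)) (Or.inr h1)
      rwa [zero_mul] at this
    have h4 := (h2.eventually (ge_mem_nhds hδ0)).and self_mem_nhdsWithin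
    obtain ⟨η, h5, h6⟩ := h4.exists
    exact ⟨η, h6, h5⟩
  have huc : UniformContinuous g := hgs.uniformContinuous_of_continuous hgc
  obtain ⟨r, hr0, hr⟩ := Metric.uniformContinuous_iff.1 huc η hη0
  have hev : ∀ᶠ m in atTop, (ψ m).rOut < min r 1 :=
    hψ.eventually (gt_mem_nhds (lt_min hr0 one_pos))
  filter_upwards [hev] with m hm
  set κ := (ψ m).normed (volume : Measure (Fin n → ℂ)) with hκ
  have hκc : Continuous κ := (ψ m).continuous_normed
  have hκ0 : ∀ t, 0 ≤ κ t := (ψ m).nonneg_normed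
  have hκi : Integrable κ := (ψ m).integrable_normed
  have hκ1 : ∫ t, κ t = 1 := (ψ m).integral_normed
  have hκs : HasCompactSupport κ := (ψ m).hasCompactSupport_normed
  have hφl : LocallyIntegrable φ volume := hφ.locallyIntegrable (by norm_num)
  have hgl : LocallyIntegrable g volume := hgc.locallyIntegrable
  have e1 : (κ ⋆[ContinuousLinearMap.lsmul ℝ ℝ] φ) - φ =
      (κ ⋆[ContinuousLinearMap.lsmul ℝ ℝ] (φ - g)) +
        ((κ ⋆[ContinuousLinearMap.lsmul ℝ ℝ] g) - g) + (g - φ) := by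
    have h1 : (κ ⋆[ContinuousLinearMap.lsmul ℝ ℝ] φ) =
        (κ ⋆[ContinuousLinearMap.lsmul ℝ ℝ] (φ - g)) + (κ ⋆[ContinuousLinearMap.lsmul ℝ ℝ] g) := by
      rw [← ConvolutionExists.distrib_add]
      · rw [sub_add_cancel]
      · exact hκs.convolutionExists_left _ hκc (hφl.sub hgl)
      · exact hκs.convolutionExists_left _ hκc hgl
    rw [h1]
    abel
  have hφg' : eLpNorm (g - φ) 2 volume ≤ δ := by rw [eLpNorm_sub_comm]; exact hφg
  have m1 : AEStronglyMeasurable (κ ⋆[ContinuousLinearMap.lsmul ℝ ℝ] (φ - g)) volume :=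
    (hκs.continuous_convolution_left _ hκc (hφl.sub hgl)).aestronglyMeasurable
  have m2 : AEStronglyMeasurable ((κ ⋆[ContinuousLinearMap.lsmul ℝ ℝ] g) - g) volume :=
    ((hκs.continuous_convolution_left _ hκc hgl).sub hgc).aestronglyMeasurable
  have m3 : AEStronglyMeasurable (g - φ) volume := hgL.1.sub hφ.1
  have b1 : eLpNorm (κ ⋆[ContinuousLinearMap.lsmul ℝ ℝ] (φ - g)) 2 volume ≤ δ :=
    (eLpNorm_convolution_le hκc hκ0 hκi hκ1 (hφ.1.sub hgL.1)).trans hφg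
  have b2 : eLpNorm ((κ ⋆[ContinuousLinearMap.lsmul ℝ ℝ] g) - g) 2 volume ≤ δ := by
    refine (eLpNorm_sub_le_of_dist_bdd volume (by norm_num) hSc.measurableSet hη0.le ?_ ?_ ?_).trans
      hηδ
    · intro x
      refine (ψ m).dist_normed_convolution_le hgc.aestronglyMeasurable (fun y hy => ?_)
      refine (hr ?_).le
      exact (mem_ball.1 hy).trans (hm.trans_le (min_le_left _ _))
    · intro x hx
      obtain ⟨t, ht, y, hy, rfl⟩ := support_convolution_subset _ hx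
      rw [hκ, (ψ m).support_normed_eq] at ht
      refine mem_cthickening_of_dist_le (t + y) y 1 _ (subset_tsupport g hy) ?_
      rw [dist_eq_norm, add_sub_cancel_right]
      rw [mem_ball_zero_iff] at ht
      exact (ht.trans (hm.trans_le (min_le_right _ _))).le
    · exact (subset_tsupport g).trans (self_subset_cthickening _)
  rw [e1]
  calc _ ≤ eLpNorm (κ ⋆[ContinuousLinearMap.lsmul ℝ ℝ] (φ - g)) 2 volume +
        eLpNorm ((κ ⋆[ContinuousLinearMap.lsmul ℝ ℝ] g) - g) 2 volume +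
        eLpNorm (g - φ) 2 volume := by
        refine (eLpNorm_add_le (m1.add m2) m3 (by norm_num)).trans ?_
        gcongr
        exact eLpNorm_add_le m1 m2 (by norm_num)
    _ ≤ δ + δ + δ := by gcongr
    _ ≤ ε := hδε

end Pool.Agent.Levi
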