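import Pool.Agent.Levi.Mollify

/-!
# Wirtinger derivatives of mollified functions
-/

set_option autoImplicit false

open Set Filter Topology MeasureTheory Metric
open scoped ContDiff Convolution ENNReal

namespace Pool.Agent.Levi

variable {n : ℕ}

theorem fderiv_convolution_apply {V : (Fin n → ℂ) → ℂ} (hV : LocallyIntegrable V)
    {κ : (Fin n → ℂ) → ℝ} (hκ : ContDiff ℝ ∞ κ) (hcs : HasCompactSupport κ) (x v : Fin n → ℂ) :
    fderiv ℝ (κ ⋆[ContinuousLinearMap.lsmul ℝ ℝ] V) x v =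
      ∫ y, (fderiv ℝ κ (x - y) v : ℂ) * V y := by
  have hκ1 : ContDiff ℝ 1 κ := hκ.of_le (by exact_mod_cast le_top)
  have hd := hcs.hasFDerivAt_convolution_left (ContinuousLinearMap.lsmul ℝ ℝ) hκ1 hV x
  rw [hd.fderiv, convolution_eq_swap]
  have hint : Integrable (fun t => ((ContinuousLinearMap.lsmul ℝ ℝ).precompL (Fin n → ℂ))
      (fderiv ℝ κ (x - t)) (V t)) := by
    have h1 : ConvolutionExists (fderiv ℝ κ) V
        ((ContinuousLinearMap.lsmul ℝ ℝ).precompL (Fin n → ℂ)) volume :=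
      (hcs.fderiv ℝ).convolutionExists_left _ (hκ1.continuous_fderiv one_ne_zero) hV
    exact (h1 x).integrable_swap
  rw [ContinuousLinearMap.integral_apply hint]
  refine integral_congr_ae (ae_of_all _ fun y => ?_)
  simp

theorem integrable_fderiv_kernel {V : (Fin n → ℂ) → ℂ} (hV : LocallyIntegrable V)
    {κ : (Fin n → ℂ) → ℝ} (hκ : ContDiff ℝ ∞ κ) (hcs : HasCompactSupport κ) (x v : Fin n → ℂ) :
    Integrable (fun y => (fderiv ℝ κ (x - y) v : ℂ) * V y) := by
  have hκ1 : ContDiff ℝ 1 κ := hκ.of_le (by exact_mod_cast le_top)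
  have hc : Continuous (fun t => fderiv ℝ κ t v) := (hκ1.continuous_fderiv one_ne_zero).clm_apply
    continuous_const
  have hcs2 : HasCompactSupport (fun t => fderiv ℝ κ t v) := (hcs.fderiv_apply ℝ v)
  have h1 : ConvolutionExists (fun t => fderiv ℝ κ t v) V
      (ContinuousLinearMap.lsmul ℝ ℝ) volume :=
    hcs2.convolutionExists_left _ hc hV
  have := (h1 x).integrable_swap
  simpa using! this

/-- the translated and reflected kernel -/
noncomputable def ker (κ : (Fin n → ℂ) → ℝ) (x : Fin n → ℂ) : (Fin n → ℂ) → ℂ :=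
  fun y => (κ (x - y) : ℂ)

theorem ker_contDiff {κ : (Fin n → ℂ) → ℝ} (hκ : ContDiff ℝ ∞ κ) (x : Fin n → ℂ) :
    ContDiff ℝ ∞ (ker κ x) := by
  have h1 : ContDiff ℝ ∞ (fun y : Fin n → ℂ => κ (x - y)) :=
    hκ.comp (contDiff_const.sub contDiff_id)
  exact Complex.ofRealCLM.contDiff.comp h1

theorem fderiv_ker {κ : (Fin n → ℂ) → ℝ} (hκ : ContDiff ℝ ∞ κ) (x y v : Fin n → ℂ) :
    fderiv ℝ (ker κ x) y v = -(fderiv ℝ κ (x - y) v : ℂ) := by
  have hκ1 : ContDiff ℝ 1 κ := hκ.of_le (by exact_mod_cast le_top)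
  have h1 : HasFDerivAt κ (fderiv ℝ κ (x - y)) (x - y) :=
    (hκ1.differentiable one_ne_zero _).hasFDerivAt
  have h2 : HasFDerivAt (fun y : Fin n → ℂ => x - y) (-ContinuousLinearMap.id ℝ (Fin n → ℂ)) y :=
    (hasFDerivAt_id y).const_sub x
  have h3 := Complex.ofRealCLM.hasFDerivAt.comp y (h1.comp y h2)
  have h4 : HasFDerivAt (ker κ x) (Complex.ofRealCLM.comp
    ((fderiv ℝ κ (x - y)).comp (-ContinuousLinearMap.id ℝ (Fin n → ℂ)))) y := h3
  rw [h4.fderiv]
  simp

theorem dzE_convolution {V : (Fin n → ℂ) → ℂ} (hV : LocallyIntegrable V)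
    {κ : (Fin n → ℂ) → ℝ} (hκ : ContDiff ℝ ∞ κ) (hcs : HasCompactSupport κ) (x : Fin n → ℂ)
    (j : Fin n) : dzE (κ ⋆[ContinuousLinearMap.lsmul ℝ ℝ] V) j x =
      -∫ z, V z * dzE (ker κ x) j z := by
  have hi := fun v => integrable_fderiv_kernel hV hκ hcs x v
  rw [dzE, fderiv_convolution_apply hV hκ hcs, fderiv_convolution_apply hV hκ hcs]
  have e1 : (fun z => V z * dzE (ker κ x) j z) = fun z => (-(1 / 2) : ℂ) *
      ((fderiv ℝ κ (x - z) (Pi.single j 1) : ℂ) * V z -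
        Complex.I * ((fderiv ℝ κ (x - z) (Pi.single j Complex.I) : ℂ) * V z)) := by
    funext z
    rw [dzE, fderiv_ker hκ, fderiv_ker hκ]
    ring
  rw [e1, integral_const_mul, integral_sub (hi _) ((hi _).const_mul _), integral_const_mul]
  ring

theorem dzbE_convolution {V : (Fin n → ℂ) → ℂ} (hV : LocallyIntegrable V)
    {κ : (Fin n → ℂ) → ℝ} (hκ : ContDiff ℝ ∞ κ) (hcs : HasCompactSupport κ) (x : Fin n → ℂ)
    (j : Fin n) : dzbE (κ ⋆[ContinuousLinearMap.lsmul ℝ ℝ] V) j x =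
      -∫ z, V z * dzbE (ker κ x) j z := by
  have hi := fun v => integrable_fderiv_kernel hV hκ hcs x v
  rw [dzbE, fderiv_convolution_apply hV hκ hcs, fderiv_convolution_apply hV hκ hcs]
  have e1 : (fun z => V z * dzbE (ker κ x) j z) = fun z => (-(1 / 2) : ℂ) *
      ((fderiv ℝ κ (x - z) (Pi.single j 1) : ℂ) * V z +
        Complex.I * ((fderiv ℝ κ (x - z) (Pi.single j Complex.I) : ℂ) * V z)) := by
    funext z
    rw [dzbE, fderiv_ker hκ, fderiv_ker hκ]
    ring
  rw [e1, integral_const_mul, integral_add (hi _) ((hi _).const_mul _), integral_const_mul]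
  ring

theorem convolution_eq_ker {V : (Fin n → ℂ) → ℂ} (κ : (Fin n → ℂ) → ℝ) (x : Fin n → ℂ) :
    (κ ⋆[ContinuousLinearMap.lsmul ℝ ℝ] V) x = ∫ z, V z * ker κ x z := by
  rw [convolution_eq_swap]
  refine integral_congr_ae (ae_of_all _ fun y => ?_)
  simp [ker, mul_comm]

end Pool.Agent.Levi
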