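import Pool.Agent.Levi.MollifyDeriv
import Pool.Agent.Levi.Integration

/-!
# Friedrichs regularisation on one sheet of a Riemann domain
-/

set_option autoImplicit false

open Set Filter Topology MeasureTheory Metric
open scoped ContDiff Convolution ENNReal Manifold

namespace Pool.Agent.Levi

/-- a smooth cut-off function -/
theorem exists_cutoff {n : ℕ} {K U : Set (Fin n → ℂ)} (hK : IsCompact K) (hU : IsOpen U)
    (hKU : K ⊆ U) : ∃ (χ : (Fin n → ℂ) → ℂ) (L : Set (Fin n → ℂ)), ContDiff ℝ ∞ χ ∧ IsCompact L ∧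
      L ⊆ U ∧ (∀ z, z ∉ L → χ z = 0) ∧ (∀ z ∈ K, χ =ᶠ[𝓝 z] fun _ => 1) ∧ ∀ z, ‖χ z‖ ≤ 1 := by
  obtain ⟨ε, hε, hεU⟩ := hK.exists_cthickening_subset_open hU hKU
  have hL : IsCompact (cthickening ε K) := hK.cthickening
  have hint : K ⊆ interior (cthickening ε K) :=
    (self_subset_thickening hε K).trans
      (interior_maximal (thickening_subset_cthickening ε K) isOpen_thickening)
  obtain ⟨f, hf1, hf0, hf⟩ := exists_contMDiffMap_one_nhds_of_subset_interior
    (𝓘(ℝ, Fin n → ℂ)) (n := (⊤ : ℕ∞)) hK.isClosed hint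
  refine ⟨fun z => (f z : ℂ), cthickening ε K, ?_, hL, hεU, ?_, ?_, ?_⟩
  · have := f.contMDiff.contDiff
    exact Complex.ofRealCLM.contDiff.comp this
  · intro z hz
    simp [hf0 z hz]
  · intro z hz
    have := hf1.filter_mono (nhds_le_nhdsSet hz)
    filter_upwards [this] with y hy
    simp [hy]
  · intro z
    rw [Complex.norm_real, Real.norm_eq_abs, abs_of_nonneg (hf z).1]
    exact (hf z).2

variable {n : ℕ} {M : Type} [TopologicalSpace M] {π : M → (Fin n → ℂ)}
section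

theorem extz_eq_indicator (hπ : IsLocalHomeomorph π) (w0 : M) (h : (Fin n → ℂ) → ℂ) :
    extz hπ w0 h = (hπ.localInverseAt w0).target.indicator (h ∘ π) := by
  classical
  funext x
  by_cases hx : x ∈ (hπ.localInverseAt w0).target
  · rw [extz_of_mem hπ h hx, indicator_of_mem hx]; rfl
  · rw [extz_of_notMem hπ h hx, indicator_of_notMem hx]

theorem extz_sub (hπ : IsLocalHomeomorph π) (w0 : M) (g h : (Fin n → ℂ) → ℂ) (x : M) :
    extz hπ w0 g x - extz hπ w0 h x = extz hπ w0 (g - h) x := by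
  by_cases hx : x ∈ (hπ.localInverseAt w0).target
  · simp [extz_of_mem hπ _ hx]
  · simp [extz_of_notMem hπ _ hx]

theorem extz_sum (hπ : IsLocalHomeomorph π) (w0 : M) {ι : Type} (s : Finset ι)
    (g : ι → (Fin n → ℂ) → ℂ) (x : M) :
    ∑ i ∈ s, extz hπ w0 (g i) x = extz hπ w0 (fun z => ∑ i ∈ s, g i z) x := by
  by_cases hx : x ∈ (hπ.localInverseAt w0).target
  · simp [extz_of_mem hπ _ hx]
  · simp [extz_of_notMem hπ _ hx]

theorem chartExt_eq_zero (hπ : IsLocalHomeomorph π) {w0 : M} {K : Set M} {u : M → ℂ}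
    (hu : ∀ x ∉ K, u x = 0) {z : Fin n → ℂ} (hz : z ∉ π '' K) : chartExt hπ w0 u z = 0 := by
  by_cases h : z ∈ (hπ.localInverseAt w0).source
  · rw [chartExt_of_mem hπ w0 u h]
    apply hu
    intro hK
    exact hz ⟨_, hK, hπ.apply_localInverseAt_of_mem h⟩
  · exact indicator_of_notMem h _

theorem extz_chartExt (hπ : IsLocalHomeomorph π) {w0 : M} {K : Set M}
    (hK : K ⊆ (hπ.localInverseAt w0).target) {u : M → ℂ} (hu : ∀ x ∉ K, u x = 0) :
    extz hπ w0 (chartExt hπ w0 u) = u := by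
  funext x
  by_cases hx : x ∈ (hπ.localInverseAt w0).target
  · rw [extz_of_mem hπ _ hx, chartExt_of_mem hπ w0 u (pi_mem hπ hx), inv_apply hπ hx]
  · rw [extz_of_notMem hπ _ hx, hu x (fun h => hx (hK h))]

end

variable [MeasurableSpace M] [BorelSpace M]

theorem memLp_chartExt {μ : Measure M} (hπ : IsLocalHomeomorph π) (hμ : IsFlatMeasure π μ)
    (w0 : M) {u : M → ℂ} (hu : MemLp u 2 μ) : MemLp (chartExt hπ w0 u) 2 volume := by
  have h1 : MemLp u 2 (μ.restrict (hπ.localInverseAt w0).target) := hu.restrict _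
  rw [← map_localInverseAt hπ hμ w0] at h1
  have h2 := h1.comp_of_map (aemeasurable_localInverseAt hπ w0)
  rw [chartExt]
  exact (memLp_indicator_iff_restrict (hπ.localInverseAt w0).open_source.measurableSet).2 h2

theorem map_pi_target {μ : Measure M} (hπ : IsLocalHomeomorph π) (hμ : IsFlatMeasure π μ)
    (w0 : M) : Measure.map π (μ.restrict (hπ.localInverseAt w0).target) =
      (volume : Measure (Fin n → ℂ)).restrict (hπ.localInverseAt w0).source := by
  have := map_restrict_eq hπ hμ (hπ.localInverseAt w0).open_target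
    hπ.injOn_localInverseAt_target
  rwa [image_target] at this

theorem eLpNorm_extz_le {μ : Measure M} (hπ : IsLocalHomeomorph π) (hμ : IsFlatMeasure π μ)
    (w0 : M) {h : (Fin n → ℂ) → ℂ} (hh : AEStronglyMeasurable h volume) :
    eLpNorm (extz hπ w0 h) 2 μ ≤ eLpNorm h 2 volume := by
  rw [extz_eq_indicator, eLpNorm_indicator_eq_eLpNorm_restrict
    (hπ.localInverseAt w0).open_target.measurableSet]
  have h1 : AEStronglyMeasurable h (Measure.map π (μ.restrict (hπ.localInverseAt w0).target)) := by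
    rw [map_pi_target hπ hμ]
    exact hh.restrict
  rw [← eLpNorm_map_measure h1 hπ.continuous.measurable.aemeasurable, map_pi_target hπ hμ]
  exact eLpNorm_mono_measure _ Measure.restrict_le_self

theorem aestronglyMeasurable_extz {μ : Measure M} (hπ : IsLocalHomeomorph π)
    (hμ : IsFlatMeasure π μ)
    (w0 : M) {h : (Fin n → ℂ) → ℂ} (hh : AEStronglyMeasurable h volume) :
    AEStronglyMeasurable (extz hπ w0 h) μ := by
  rw [extz_eq_indicator, aestronglyMeasurable_indicator_iff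
    (hπ.localInverseAt w0).open_target.measurableSet]
  have h1 : AEStronglyMeasurable h (Measure.map π (μ.restrict (hπ.localInverseAt w0).target)) := by
    rw [map_pi_target hπ hμ]
    exact hh.restrict
  exact h1.comp_aemeasurable hπ.continuous.measurable.aemeasurable

theorem memLp_extz {μ : Measure M} (hπ : IsLocalHomeomorph π) (hμ : IsFlatMeasure π μ)
    (w0 : M) {h : (Fin n → ℂ) → ℂ} (hh : MemLp h 2 volume) : MemLp (extz hπ w0 h) 2 μ :=
  ⟨aestronglyMeasurable_extz hπ hμ w0 hh.1, (eLpNorm_extz_le hπ hμ w0 hh.1).trans_lt hh.2⟩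

theorem integral_mul_extz' {μ : Measure M} (hπ : IsLocalHomeomorph π) (hμ : IsFlatMeasure π μ)
    (w0 : M) {u : M → ℂ} (hu : AEStronglyMeasurable u μ) {g : (Fin n → ℂ) → ℂ}
    (hg : Continuous g) :
    ∫ x, u x * extz hπ w0 g x ∂μ = ∫ z, chartExt hπ w0 u z * g z := by
  rw [integral_mul_extz hπ hμ w0 hu hg, ← integral_indicator
    (hπ.localInverseAt w0).open_source.measurableSet]
  refine integral_congr_ae (ae_of_all _ fun z => ?_)
  by_cases hz : z ∈ (hπ.localInverseAt w0).source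
  · simp [chartExt, hz]
  · simp [chartExt, hz]

/-- test functions are square integrable -/
theorem IsTest.memLp {μ : Measure M} {hπ : IsLocalHomeomorph π} (hμ : IsFlatMeasure π μ)
    {α : M → ℂ} (hα : IsTest hπ α) : MemLp α 2 μ := by
  have := hμ.isLocallyFinite hπ
  exact hα.continuous.memLp_of_hasCompactSupport hα.compact

variable [T2Space M]

omit [MeasurableSpace M] [BorelSpace M] in
/-- the test function attached to a kernel -/
theorem isTest_kernel (hπ : IsLocalHomeomorph π) {w0 : M} {χ : (Fin n → ℂ) → ℂ}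
    {L : Set (Fin n → ℂ)} (hχ : ContDiff ℝ ∞ χ) (hL : IsCompact L)
    (hLs : L ⊆ (hπ.localInverseAt w0).source) (hχL : ∀ z, z ∉ L → χ z = 0)
    {κ : (Fin n → ℂ) → ℝ} (hκ : ContDiff ℝ ∞ κ) (x : Fin n → ℂ) :
    IsTest hπ (extz hπ w0 (fun y => χ y * ker κ x y)) :=
  isTest_extz hπ (hχ.mul (ker_contDiff hκ x)) hL hLs (fun z hz => by rw [hχL z hz, zero_mul])

section sheet

variable {μ : Measure M} (hπ : IsLocalHomeomorph π) (hμ : IsFlatMeasure π μ) {w0 : M}
  {K : Set M}
  {χ : (Fin n → ℂ) → ℂ} {L : Set (Fin n → ℂ)} (hχ : ContDiff ℝ ∞ χ) (hL : IsCompact L)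
  (hLs : L ⊆ (hπ.localInverseAt w0).source) (hχL : ∀ z, z ∉ L → χ z = 0)
  (hχ1 : ∀ z ∈ π '' K, χ =ᶠ[𝓝 z] fun _ => 1)

include hπ hμ hχ hL hLs hχL hχ1

theorem integral_dz_kernel {u : M → ℂ} (huK : ∀ x ∉ K, u x = 0) (hu : MemLp u 2 μ)
    {κ : (Fin n → ℂ) → ℝ} (hκ : ContDiff ℝ ∞ κ) (hκs : HasCompactSupport κ) (x : Fin n → ℂ)
    (j : Fin n) :
    ∫ y, u y * dz hπ (extz hπ w0 (fun y => χ y * ker κ x y)) j y ∂μ =
      -dzE (κ ⋆[ContinuousLinearMap.lsmul ℝ ℝ] (chartExt hπ w0 u)) j x := by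
  have hα0 : ContDiff ℝ ∞ (fun y => χ y * ker κ x y) := hχ.mul (ker_contDiff hκ x)
  have hαL : ∀ z, z ∉ L → (fun y => χ y * ker κ x y) z = 0 := fun z hz => by
    simp [hχL z hz]
  have hloc : LocallyIntegrable (chartExt hπ w0 u) volume :=
    (memLp_chartExt hπ hμ w0 hu).locallyIntegrable (by norm_num)
  rw [dzE_convolution hloc hκ hκs, neg_neg]
  simp only [dz_extz hπ hL hLs hαL]
  rw [integral_mul_extz' hπ hμ w0 hu.1 (continuous_dzE hα0 j)]
  refine integral_congr_ae (ae_of_all _ fun z => ?_)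
  by_cases hz : z ∈ π '' K
  · have h1 : (fun y => χ y * ker κ x y) =ᶠ[𝓝 z] ker κ x := by
      filter_upwards [hχ1 z hz] with y hy
      rw [hy, one_mul]
    simp only [dzE]
    rw [h1.fderiv_eq]
  · simp only [chartExt_eq_zero hπ huK hz, zero_mul]

theorem integral_dzb_kernel {u : M → ℂ} (huK : ∀ x ∉ K, u x = 0) (hu : MemLp u 2 μ)
    {κ : (Fin n → ℂ) → ℝ} (hκ : ContDiff ℝ ∞ κ) (hκs : HasCompactSupport κ) (x : Fin n → ℂ)
    (j : Fin n) :
    ∫ y, u y * dzb hπ (extz hπ w0 (fun y => χ y * ker κ x y)) j y ∂μ =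
      -dzbE (κ ⋆[ContinuousLinearMap.lsmul ℝ ℝ] (chartExt hπ w0 u)) j x := by
  have hα0 : ContDiff ℝ ∞ (fun y => χ y * ker κ x y) := hχ.mul (ker_contDiff hκ x)
  have hαL : ∀ z, z ∉ L → (fun y => χ y * ker κ x y) z = 0 := fun z hz => by
    simp [hχL z hz]
  have hloc : LocallyIntegrable (chartExt hπ w0 u) volume :=
    (memLp_chartExt hπ hμ w0 hu).locallyIntegrable (by norm_num)
  rw [dzbE_convolution hloc hκ hκs, neg_neg]
  simp only [dzb_extz hπ hL hLs hαL]
  rw [integral_mul_extz' hπ hμ w0 hu.1 (continuous_dzbE hα0 j)]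
  refine integral_congr_ae (ae_of_all _ fun z => ?_)
  by_cases hz : z ∈ π '' K
  · have h1 : (fun y => χ y * ker κ x y) =ᶠ[𝓝 z] ker κ x := by
      filter_upwards [hχ1 z hz] with y hy
      rw [hy, one_mul]
    simp only [dzbE]
    rw [h1.fderiv_eq]
  · simp only [chartExt_eq_zero hπ huK hz, zero_mul]

omit [T2Space M] hL hLs hχL hχ1 in
theorem integral_kernel {v : M → ℂ} (hv : MemLp v 2 μ)
    {κ : (Fin n → ℂ) → ℝ} (hκ : ContDiff ℝ ∞ κ) (x : Fin n → ℂ) :
    ∫ y, v y * extz hπ w0 (fun y => χ y * ker κ x y) y ∂μ =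
      (κ ⋆[ContinuousLinearMap.lsmul ℝ ℝ] (fun z => chartExt hπ w0 v z * χ z)) x := by
  have hα0 : ContDiff ℝ ∞ (fun y => χ y * ker κ x y) := hχ.mul (ker_contDiff hκ x)
  rw [integral_mul_extz' hπ hμ w0 hv.1 hα0.continuous, convolution_eq_ker]
  refine integral_congr_ae (ae_of_all _ fun z => ?_)
  simp only
  ring

end sheet

end Pool.Agent.Levi
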