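import Pool.Agent.Levi.RegSheet

/-!
# Friedrichs regularisation on one sheet of a Riemann domain, II
-/

set_option autoImplicit false

open Set Filter Topology MeasureTheory Metric
open scoped ContDiff Convolution ENNReal Manifold

namespace Pool.Agent.Levi

variable {n : ℕ} {M : Type} [TopologicalSpace M] {π : M → (Fin n → ℂ)}
variable [MeasurableSpace M]

/-- `f` is a limit of test forms whose divergence and `∂̄` converge in `L²`. -/
def Reg (hπ : IsLocalHomeomorph π) (μ : Measure M) (f : Fin n → M → ℂ) : Prop :=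
  ∃ K' : Set M, IsCompact K' ∧ ∃ F : ℕ → Fin n → M → ℂ,
    (∀ m j, IsTest hπ (F m j)) ∧ (∀ m j, ∀ x ∉ K', F m j x = 0) ∧
    (∀ j, Tendsto (fun m => eLpNorm (F m j - f j) 2 μ) atTop (𝓝 0)) ∧
    (∃ w : M → ℂ, MemLp w 2 μ ∧
      Tendsto (fun m => eLpNorm (fun x => (∑ j, dz hπ (F m j) j x) - w x) 2 μ) atTop (𝓝 0)) ∧
    ∀ j k, ∃ u : M → ℂ, MemLp u 2 μ ∧ Tendsto (fun m => eLpNorm
      (fun x => dzb hπ (F m k) j x - dzb hπ (F m j) k x - u x) 2 μ) atTop (𝓝 0)

variable [BorelSpace M] [T2Space M]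

/-- regularisation of forms supported in one sheet -/
theorem reg_sheet {μ : Measure M} (hπ : IsLocalHomeomorph π)
    (hμ : IsFlatMeasure π μ) {w0 : M} {K : Set M} (hK : IsCompact K)
    (hKt : K ⊆ (hπ.localInverseAt w0).target) {f : Fin n → M → ℂ}
    (hfK : ∀ j, ∀ x ∉ K, f j x = 0) (hf : ∀ j, MemLp (f j) 2 μ) {v : M → ℂ} (hv : MemLp v 2 μ)
    {g : Fin n → Fin n → M → ℂ} (hg : ∀ j k, MemLp (g j k) 2 μ)
    (hdiv : ∀ α, IsTest hπ α → ∫ x, (∑ j, f j x * dz hπ α j x) ∂μ = -∫ x, v x * α x ∂μ)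
    (hcurl : ∀ α, IsTest hπ α → ∀ j k,
      ∫ x, (f k x * dzb hπ α j x - f j x * dzb hπ α k x) ∂μ = -∫ x, g j k x * α x ∂μ) :
    Reg hπ μ f := by
  classical
  set s := hπ.localInverseAt w0 with hs
  have hK0 : IsCompact (π '' K) := hK.image hπ.continuous
  have hK0s : π '' K ⊆ s.source := by
    rintro _ ⟨x, hx, rfl⟩
    exact pi_mem hπ (hKt hx)
  obtain ⟨χ, L, hχ, hL, hLs, hχL, hχ1, hχb⟩ := exists_cutoff hK0 s.open_source hK0s
  obtain ⟨ε, hε, hεU⟩ := hK0.exists_cthickening_subset_open s.open_source hK0s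
  set K1 := cthickening ε (π '' K) with hK1
  have hK1c : IsCompact K1 := hK0.cthickening
  -- the bumps
  let ψ : ℕ → ContDiffBump (0 : Fin n → ℂ) := fun i =>
    { rIn := ε / (i + 1) / 2
      rOut := ε / (i + 1)
      rIn_pos := by positivity
      rIn_lt_rOut := half_lt_self (by positivity) }
  have hψ0 : Tendsto (fun i => (ψ i).rOut) atTop (𝓝 0) := by
    have h1 : Tendsto (fun i : ℕ => ε * (1 / ((i : ℝ) + 1))) atTop (𝓝 (ε * 0)) :=
      tendsto_one_div_add_atTop_nhds_zero_nat.const_mul ε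
    rw [mul_zero] at h1
    refine h1.congr (fun i => ?_)
    show ε * (1 / ((i : ℝ) + 1)) = ε / (i + 1)
    ring
  have hψε : ∀ i, (ψ i).rOut ≤ ε := by
    intro i
    show ε / (i + 1) ≤ ε
    apply div_le_self hε.le
    have : (0 : ℝ) ≤ i := Nat.cast_nonneg i
    linarith
  set κ : ℕ → (Fin n → ℂ) → ℝ := fun m => (ψ m).normed volume with hκ
  have hκs : ∀ m, HasCompactSupport (κ m) := fun m => (ψ m).hasCompactSupport_normed
  have hκc : ∀ m, ContDiff ℝ ∞ (κ m) := fun m => (ψ m).contDiff_normed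
  set φ : Fin n → (Fin n → ℂ) → ℂ := fun j => chartExt hπ w0 (f j) with hφ
  have hφL : ∀ j, MemLp (φ j) 2 volume := fun j => memLp_chartExt hπ hμ w0 (hf j)
  have hφl : ∀ j, LocallyIntegrable (φ j) volume := fun j =>
    (hφL j).locallyIntegrable (by norm_num)
  have hφK : ∀ j z, z ∉ π '' K → φ j z = 0 := fun j z hz => chartExt_eq_zero hπ (hfK j) hz
  -- products with `χ`
  have hmulχ : ∀ u : M → ℂ, MemLp u 2 μ → MemLp (fun z => chartExt hπ w0 u z * χ z) 2 volume := by
    intro u hu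
    have h1 := memLp_chartExt hπ hμ w0 hu
    refine h1.of_le (h1.1.mul hχ.continuous.aestronglyMeasurable) (ae_of_all _ fun z => ?_)
    rw [norm_mul]
    exact mul_le_of_le_one_right (norm_nonneg _) (hχb z)
  set F : ℕ → Fin n → M → ℂ := fun m j =>
    extz hπ w0 ((κ m) ⋆[ContinuousLinearMap.lsmul ℝ ℝ] (φ j)) with hF
  have hFz : ∀ m j z, z ∉ K1 → ((κ m) ⋆[ContinuousLinearMap.lsmul ℝ ℝ] (φ j)) z = 0 := by
    intro m j z hz
    by_contra hne
    apply hz
    obtain ⟨t, ht, y, hy, rfl⟩ := support_convolution_subset _ (Function.mem_support.2 hne)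
    have ht' : t ∈ ball (0 : Fin n → ℂ) (ψ m).rOut := by
      have := (ψ m).support_normed_eq (μ := (volume : Measure (Fin n → ℂ)))
      rw [← this]; exact ht
    have hyK : y ∈ π '' K := by
      by_contra hn
      exact hy (hφK j y hn)
    refine mem_cthickening_of_dist_le (t + y) y ε _ hyK ?_
    rw [dist_eq_norm, add_sub_cancel_right]
    rw [mem_ball_zero_iff] at ht'
    exact (ht'.trans_le (hψε m)).le
  have hFs : ∀ m j, ContDiff ℝ ∞ ((κ m) ⋆[ContinuousLinearMap.lsmul ℝ ℝ] (φ j)) := fun m j =>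
    (hκs m).contDiff_convolution_left _ (hκc m) (hφl j)
  refine ⟨s '' K1, isCompact_image_source hπ w0 hK1c hεU, F, ?_, ?_, ?_, ?_, ?_⟩
  · intro m j
    exact isTest_extz hπ (hFs m j) hK1c hεU (hFz m j)
  · intro m j x hx
    exact extz_eq_zero_of_notMem hπ (hFz m j) hx
  · intro j
    have h0 := tendsto_mollify hψ0 (hφL j)
    refine tendsto_of_tendsto_of_tendsto_of_le_of_le tendsto_const_nhds h0
      (fun _ => zero_le) (fun m => ?_)
    have h1 : F m j - f j = extz hπ w0 (((κ m) ⋆[ContinuousLinearMap.lsmul ℝ ℝ] (φ j)) - φ j) := by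
      funext x
      rw [← extz_sub]
      show F m j x - f j x = _
      rw [hφ]
      simp only
      rw [extz_chartExt hπ hKt (hfK j)]
    rw [h1]
    exact eLpNorm_extz_le hπ hμ w0 ((hFs m j).continuous.aestronglyMeasurable.sub (hφL j).1)
  · set ν : (Fin n → ℂ) → ℂ := fun z => chartExt hπ w0 v z * χ z with hν
    have hνL : MemLp ν 2 volume := hmulχ v hv
    refine ⟨extz hπ w0 ν, memLp_extz hπ hμ w0 hνL, ?_⟩
    have h0 := tendsto_mollify hψ0 hνL
    refine tendsto_of_tendsto_of_tendsto_of_le_of_le tendsto_const_nhds h0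
      (fun _ => zero_le) (fun m => ?_)
    have hid : ∀ x, ∑ j, dzE ((κ m) ⋆[ContinuousLinearMap.lsmul ℝ ℝ] (φ j)) j x =
        ((κ m) ⋆[ContinuousLinearMap.lsmul ℝ ℝ] ν) x := by
      intro x
      have hα := isTest_kernel hπ hχ hL hLs hχL (hκc m) x
      have h1 := hdiv _ hα
      rw [integral_kernel hπ hμ hχ hv (hκc m) x] at h1
      rw [integral_finsetSum] at h1
      · simp only [integral_dz_kernel hπ hμ hχ hL hLs hχL hχ1 (hfK _) (hf _) (hκc m) (hκs m)] at h1
        rw [Finset.sum_neg_distrib, neg_inj] at h1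
        exact h1
      · intro j _
        exact (hf j).integrable_mul (IsTest.memLp hμ (hα.dz j))
    have h1 : (fun x => (∑ j, dz hπ (F m j) j x) - extz hπ w0 ν x) =
        extz hπ w0 (((κ m) ⋆[ContinuousLinearMap.lsmul ℝ ℝ] ν) - ν) := by
      funext x
      rw [← extz_sub]
      congr 1
      simp only [hF, dz_extz hπ hK1c hεU (hFz m _)]
      rw [extz_sum]
      congr 1
      funext z
      exact hid z
    rw [h1]
    exact eLpNorm_extz_le hπ hμ w0 (((hκs m).continuous_convolution_left _ (hκc m).continuous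
      (hνL.locallyIntegrable (by norm_num))).aestronglyMeasurable.sub hνL.1)
  · intro j k
    set ν : (Fin n → ℂ) → ℂ := fun z => chartExt hπ w0 (g j k) z * χ z with hν
    have hνL : MemLp ν 2 volume := hmulχ _ (hg j k)
    refine ⟨extz hπ w0 ν, memLp_extz hπ hμ w0 hνL, ?_⟩
    have h0 := tendsto_mollify hψ0 hνL
    refine tendsto_of_tendsto_of_tendsto_of_le_of_le tendsto_const_nhds h0
      (fun _ => zero_le) (fun m => ?_)
    have hid : ∀ x, dzbE ((κ m) ⋆[ContinuousLinearMap.lsmul ℝ ℝ] (φ k)) j x -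
        dzbE ((κ m) ⋆[ContinuousLinearMap.lsmul ℝ ℝ] (φ j)) k x =
        ((κ m) ⋆[ContinuousLinearMap.lsmul ℝ ℝ] ν) x := by
      intro x
      have hα := isTest_kernel hπ hχ hL hLs hχL (hκc m) x
      have h1 := hcurl _ hα j k
      rw [integral_kernel hπ hμ hχ (hg j k) (hκc m) x] at h1
      have i1 : Integrable (fun y => f k y *
          dzb hπ (extz hπ w0 (fun y => χ y * ker (κ m) x y)) j y) μ :=
        (hf k).integrable_mul (IsTest.memLp hμ (hα.dzb j))
      have i2 : Integrable (fun y => f j y *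
          dzb hπ (extz hπ w0 (fun y => χ y * ker (κ m) x y)) k y) μ :=
        (hf j).integrable_mul (IsTest.memLp hμ (hα.dzb k))
      rw [integral_sub i1 i2,
        integral_dzb_kernel hπ hμ hχ hL hLs hχL hχ1 (hfK k) (hf k) (hκc m) (hκs m),
        integral_dzb_kernel hπ hμ hχ hL hLs hχL hχ1 (hfK j) (hf j) (hκc m) (hκs m)] at h1
      linear_combination -h1
    have h1 : (fun x => dzb hπ (F m k) j x - dzb hπ (F m j) k x - extz hπ w0 ν x) =
        extz hπ w0 (((κ m) ⋆[ContinuousLinearMap.lsmul ℝ ℝ] ν) - ν) := by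
      funext x
      rw [← extz_sub]
      congr 1
      simp only [hF, dzb_extz hπ hK1c hεU (hFz m _)]
      rw [extz_sub]
      congr 1
      funext z
      exact hid z
    rw [h1]
    exact eLpNorm_extz_le hπ hμ w0 (((hκs m).continuous_convolution_left _ (hκc m).continuous
      (hνL.locallyIntegrable (by norm_num))).aestronglyMeasurable.sub hνL.1)

end Pool.Agent.Levi
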