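import Mathlib
import Pool.Agent.MEP.SCV

/-!
# Riemann's removable singularity theorem in several variables
-/

set_option autoImplicit false

open Set Filter Topology Metric MeasureTheory
open scoped Real

namespace Pool.Agent.Levi

/-- One-variable step: Cauchy formula for a function with bounded isolated singularities. -/
theorem cauchy_of_removable {k j : ℂ → ℂ} {R : ℝ} (hR : 0 < R)
    (hja : AnalyticOnNhd ℂ j (closedBall (0 : ℂ) R)) (hj0 : ∃ ζ ∈ closedBall (0 : ℂ) R, j ζ ≠ 0)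
    (hk : ∀ ζ ∈ closedBall (0 : ℂ) R, ∀ᶠ z in 𝓝 ζ, j z ≠ 0 → DifferentiableAt ℂ k z)
    (hb : ∀ ζ ∈ closedBall (0 : ℂ) R, ∃ C : ℝ, ∀ᶠ z in 𝓝 ζ, j z ≠ 0 → ‖k z‖ ≤ C)
    (hs : ∀ ζ ∈ sphere (0 : ℂ) R, j ζ ≠ 0) (h0 : j 0 ≠ 0) :
    (2 * π * Complex.I : ℂ)⁻¹ * ∮ ζ in C(0, R), (ζ - 0)⁻¹ * k ζ = k 0 := by
  classical
  -- the repaired function
  set kt : ℂ → ℂ := fun ζ => if j ζ = 0 then limUnder (𝓝[≠] ζ) k else k ζ with hkt
  have hiso : ∀ ζ ∈ closedBall (0 : ℂ) R, ∀ᶠ z in 𝓝[≠] ζ, j z ≠ 0 := by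
    intro ζ hζ
    rcases (hja ζ hζ).eventually_eq_zero_or_eventually_ne_zero with h | h
    · exfalso
      obtain ⟨ζ1, hζ1, hne⟩ := hj0
      exact hne (hja.eqOn_zero_of_preconnected_of_eventuallyEq_zero
        (convex_closedBall (0 : ℂ) R).isPreconnected hζ h hζ1)
    · exact h
  have hdiff : ∀ ζ ∈ closedBall (0 : ℂ) R, DifferentiableAt ℂ kt ζ := by
    intro ζ hζ
    by_cases hz : j ζ = 0
    · -- isolated singularity
      obtain ⟨C, hC⟩ := hb ζ hζ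
      have hiso' := hiso ζ hζ
      rw [eventually_nhdsWithin_iff] at hiso'
      obtain ⟨ε, hε, hball⟩ := Metric.eventually_nhds_iff_ball.mp
        ((hiso'.and (hk ζ hζ)).and hC)
      have hd : DifferentiableOn ℂ k (ball ζ ε \ {ζ}) := by
        intro z hz1
        have := hball z hz1.1
        exact (this.1.2 (this.1.1 hz1.2)).differentiableWithinAt
      have hbd : BddAbove (norm ∘ k '' (ball ζ ε \ {ζ})) := by
        refine ⟨C, ?_⟩
        rintro _ ⟨z, hz1, rfl⟩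
        have := hball z hz1.1
        exact this.2 (this.1.1 hz1.2)
      have h1 := Complex.differentiableOn_update_limUnder_of_bddAbove (ball_mem_nhds ζ hε) hd hbd
      have h2 : kt =ᶠ[𝓝 ζ] Function.update k ζ (limUnder (𝓝[≠] ζ) k) := by
        filter_upwards [ball_mem_nhds ζ hε] with z hz1
        by_cases hzz : z = ζ
        · subst hzz
          simp [hkt, hz]
        · have h3 : j z ≠ 0 := (hball z hz1).1.1 hzz
          simp [hkt, h3, Function.update_of_ne hzz]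
      exact ((h1.differentiableAt (ball_mem_nhds ζ hε))).congr_of_eventuallyEq h2
    · have h1 : ∀ᶠ z in 𝓝 ζ, j z ≠ 0 := (hja ζ hζ).continuousAt.eventually_ne hz
      have h2 : kt =ᶠ[𝓝 ζ] k := by
        filter_upwards [h1] with z hz1
        simp [hkt, hz1]
      have h3 : DifferentiableAt ℂ k ζ := (hk ζ hζ).self_of_nhds hz
      exact h3.congr_of_eventuallyEq h2
  have hcl : DiffContOnCl ℂ kt (ball 0 R) := by
    refine DifferentiableOn.diffContOnCl ?_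
    rw [closure_ball (0 : ℂ) hR.ne']
    exact fun ζ hζ => (hdiff ζ hζ).differentiableWithinAt
  have h1 := hcl.two_pi_i_inv_smul_circleIntegral_sub_inv_smul (mem_ball_self hR)
  have h2 : (∮ ζ in C(0, R), (ζ - 0)⁻¹ • kt ζ) = ∮ ζ in C(0, R), (ζ - 0)⁻¹ * k ζ := by
    refine circleIntegral.integral_congr hR.le fun ζ hζ => ?_
    simp [hkt, hs ζ hζ]
  rw [h2] at h1
  simpa [hkt, h0, smul_eq_mul] using h1

variable {n : ℕ}

/-- local version -/
theorem riemann_extension_local {U : Set (Fin n → ℂ)} (hU : IsOpen U) {J : (Fin n → ℂ) → ℂ}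
    (hJ : DifferentiableOn ℂ J U) (hne : ∀ z ∈ U, ∃ᶠ x in 𝓝 z, J x ≠ 0)
    {h : (Fin n → ℂ) → ℂ} (hh : DifferentiableOn ℂ h (U \ {z | J z = 0}))
    (hb : ∀ z ∈ U, ∃ C : ℝ, ∀ᶠ x in 𝓝 z, J x ≠ 0 → ‖h x‖ ≤ C) {p : Fin n → ℂ} (hp : p ∈ U) :
    ∃ V : Set (Fin n → ℂ), IsOpen V ∧ p ∈ V ∧ V ⊆ U ∧ ∃ G : (Fin n → ℂ) → ℂ,
      DifferentiableOn ℂ G V ∧ ∀ z ∈ V, J z ≠ 0 → G z = h z := by
  -- the open set where `h` is holomorphic
  have hJc : ContinuousOn J U := hJ.continuousOn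
  have hWo : IsOpen (U \ {z | J z = 0}) := by
    have h1 := hJc.isOpen_inter_preimage hU (isOpen_compl_singleton (x := (0 : ℂ)))
    have h2 : U \ {z | J z = 0} = U ∩ J ⁻¹' {0}ᶜ := by
      ext z; simp
    rw [h2]; exact h1
  set W : Set (Fin n → ℂ) := U \ {z | J z = 0} with hW
  obtain ⟨r, hr, hrU⟩ := Metric.isOpen_iff.mp hU p hp
  obtain ⟨x, hx1, hx2⟩ := ((hne p hp).and_eventually (ball_mem_nhds p hr)).exists
  set v := x - p with hv
  -- a circle on which `J` does not vanish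
  have hLc : Continuous fun ζ : ℂ => p + ζ • v := by fun_prop
  set D : Set ℂ := (fun ζ : ℂ => p + ζ • v) ⁻¹' ball p r with hD
  have hDo : IsOpen D := isOpen_ball.preimage hLc
  have hDc : Convex ℝ D := by
    intro a ha b hb' s t hs ht hst
    have : p + (s • a + t • b) • v = s • (p + a • v) + t • (p + b • v) := by
      have h1 : t = 1 - s := by linarith
      rw [h1, ← Complex.coe_smul s (p + a • v), ← Complex.coe_smul (1 - s) (p + b • v),
        Complex.real_smul, Complex.real_smul]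
      push_cast
      module
    show p + (s • a + t • b) • v ∈ ball p r
    rw [this]
    exact convex_ball p r ha hb' hs ht hst
  have h0D : (0 : ℂ) ∈ D := by simp [hD, hr]
  have h1D : (1 : ℂ) ∈ D := by
    show p + (1 : ℂ) • v ∈ ball p r
    rw [one_smul, hv, add_sub_cancel]
    exact hx2
  have hjd : DifferentiableOn ℂ (fun ζ : ℂ => J (p + ζ • v)) D := by
    refine (hJ.mono hrU).comp (t := ball p r) ?_ (fun ζ hζ => hζ)
    exact Differentiable.differentiableOn (by fun_prop)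
  have hja := hjd.analyticOnNhd hDo
  have hiso : ∀ᶠ ζ in 𝓝[≠] (0 : ℂ), J (p + ζ • v) ≠ 0 := by
    rcases (hja 0 h0D).eventually_eq_zero_or_eventually_ne_zero with h | h
    · exfalso
      have := hja.eqOn_zero_of_preconnected_of_eventuallyEq_zero hDc.isPreconnected h0D h h1D
      simp only [one_smul, hv, add_sub_cancel] at this
      exact hx1 this
    · exact h
  rw [eventually_nhdsWithin_iff] at hiso
  obtain ⟨ε, hε, hball⟩ := Metric.eventually_nhds_iff_ball.mp (hiso.and (hDo.mem_nhds h0D))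
  set R := ε / 2 with hRdef
  have hR : 0 < R := by positivity
  have hRε : R < ε := by rw [hRdef]; linarith
  have hcs : ∀ ζ ∈ closedBall (0 : ℂ) R, p + ζ • v ∈ U := fun ζ hζ =>
    hrU (hball ζ (closedBall_subset_ball hRε hζ)).2
  have hsp : ∀ ζ ∈ sphere (0 : ℂ) R, J (p + ζ • v) ≠ 0 := by
    intro ζ hζ
    refine (hball ζ (closedBall_subset_ball hRε (sphere_subset_closedBall hζ))).1 ?_
    intro h0
    simp only [mem_singleton_iff] at h0
    subst h0
    simp only [mem_sphere_iff_norm, sub_zero, norm_zero] at hζ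
    exact hR.ne hζ
  -- tubes
  have hmc : Continuous fun w : ℂ × (Fin n → ℂ) => w.2 + w.1 • v := by fun_prop
  set Q : Set (ℂ × (Fin n → ℂ)) := (fun w : ℂ × (Fin n → ℂ) => w.2 + w.1 • v) ⁻¹' W with hQ
  have hQo : IsOpen Q := hWo.preimage hmc
  have hsub1 : sphere (0 : ℂ) R ×ˢ ({p} : Set (Fin n → ℂ)) ⊆ Q := by
    rintro ⟨ζ, y⟩ ⟨hζ, hy⟩
    rw [mem_singleton_iff] at hy
    simp only at hy hζ
    subst hy
    exact ⟨hcs ζ (sphere_subset_closedBall hζ), hsp ζ hζ⟩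
  have hsub2 : closedBall (0 : ℂ) R ×ˢ ({p} : Set (Fin n → ℂ)) ⊆
      (fun w : ℂ × (Fin n → ℂ) => w.2 + w.1 • v) ⁻¹' U := by
    rintro ⟨ζ, y⟩ ⟨hζ, hy⟩
    rw [mem_singleton_iff] at hy
    simp only at hy hζ
    subst hy
    exact hcs ζ hζ
  obtain ⟨A1, V1, -, hV1, hA1, hpV1, h1⟩ := generalized_tube_lemma (isCompact_sphere (0 : ℂ) R)
    isCompact_singleton hQo hsub1
  obtain ⟨A2, V2, -, hV2, hA2, hpV2, h2⟩ := generalized_tube_lemma (isCompact_closedBall (0 : ℂ) R)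
    isCompact_singleton (hU.preimage hmc) hsub2
  set V := V1 ∩ V2 ∩ U with hVdef
  have hVo : IsOpen V := (hV1.inter hV2).inter hU
  have hpV : p ∈ V := ⟨⟨hpV1 rfl, hpV2 rfl⟩, hp⟩
  have hVs : ∀ y ∈ V, ∀ ζ ∈ sphere (0 : ℂ) R, y + ζ • v ∈ W := fun y hy ζ hζ =>
    h1 (mk_mem_prod (hA1 hζ) hy.1.1)
  have hVc : ∀ y ∈ V, ∀ ζ ∈ closedBall (0 : ℂ) R, y + ζ • v ∈ U := fun y hy ζ hζ =>
    h2 (mk_mem_prod (hA2 hζ) hy.1.2)
  refine ⟨V, hVo, hpV, inter_subset_right, fun y => (2 * π * Complex.I : ℂ)⁻¹ *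
    ∮ ζ in C(0, R), (ζ - 0)⁻¹ * h (y + ζ • v), ?_, ?_⟩
  · -- holomorphic
    refine DifferentiableOn.const_mul ?_ _
    have hg : DifferentiableOn ℂ (fun w : ℂ × (Fin n → ℂ) => h (w.2 + w.1 • v)) Q := by
      refine hh.comp (t := W) (Differentiable.differentiableOn (by fun_prop)) (fun w hw => hw)
    have h3 := Pool.Agent.MEP.differentiableOn_circleIntegral_param hR hVo hQo hg
      (fun w hw => hVs w.2 hw.2 w.1 hw.1)
    have h4 : DifferentiableOn ℂ (fun y : Fin n → ℂ => ((0 : ℂ), y)) V :=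
      Differentiable.differentiableOn (by fun_prop)
    have h5 : MapsTo (fun y : Fin n → ℂ => ((0 : ℂ), y)) V (ball (0 : ℂ) R ×ˢ V) :=
      fun y hy => ⟨mem_ball_self hR, hy⟩
    have h6 := DifferentiableOn.comp h3 h4 h5
    exact h6.congr fun y _ => rfl
  · intro y hy hJy
    have hyc := hVc y hy
    have hLy : Continuous fun ζ : ℂ => y + ζ • v := by fun_prop
    have hDy : IsOpen ((fun ζ : ℂ => y + ζ • v) ⁻¹' U) := hU.preimage hLy
    have hjy : AnalyticOnNhd ℂ (fun ζ : ℂ => J (y + ζ • v)) (closedBall (0 : ℂ) R) := by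
      have : DifferentiableOn ℂ (fun ζ : ℂ => J (y + ζ • v)) ((fun ζ : ℂ => y + ζ • v) ⁻¹' U) := by
        refine hJ.comp (t := U) (Differentiable.differentiableOn (by fun_prop)) (fun w hw => hw)
      exact (this.analyticOnNhd hDy).mono hyc
    have hRs : (R : ℂ) ∈ sphere (0 : ℂ) R := by
      simp [abs_of_pos hR]
    have := cauchy_of_removable (k := fun ζ : ℂ => h (y + ζ • v)) (j := fun ζ : ℂ => J (y + ζ • v))
      hR hjy
      ⟨R, sphere_subset_closedBall hRs, (hVs y hy _ hRs).2⟩ ?_ ?_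
      (fun ζ hζ => (hVs y hy _ hζ).2) (by simpa using hJy)
    · simpa using this
    · intro ζ hζ
      filter_upwards [hDy.mem_nhds (hyc ζ hζ)] with z hz hz1
      have hzW : y + z • v ∈ W := ⟨hz, hz1⟩
      have h5 : DifferentiableAt ℂ h (y + z • v) := (hh _ hzW).differentiableAt (hWo.mem_nhds hzW)
      exact DifferentiableAt.comp (f := fun ζ : ℂ => y + ζ • v) z h5 (by fun_prop)
    · intro ζ hζ
      obtain ⟨C, hC⟩ := hb _ (hyc ζ hζ)
      exact ⟨C, hLy.continuousAt.eventually hC⟩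

/-- (P4) Riemann's removable singularity theorem in several variables -/
theorem riemann_extension {n : ℕ} {U : Set (Fin n → ℂ)} (hU : IsOpen U) {J : (Fin n → ℂ) → ℂ}
    (hJ : DifferentiableOn ℂ J U) (hne : ∀ z ∈ U, ∃ᶠ x in 𝓝 z, J x ≠ 0)
    {h : (Fin n → ℂ) → ℂ} (hh : DifferentiableOn ℂ h (U \ {z | J z = 0}))
    (hb : ∀ z ∈ U, ∃ C : ℝ, ∀ᶠ x in 𝓝 z, J x ≠ 0 → ‖h x‖ ≤ C) :
    ∃ H : (Fin n → ℂ) → ℂ, DifferentiableOn ℂ H U ∧ ∀ z ∈ U, J z ≠ 0 → H z = h z := by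
  classical
  have hloc := fun p : U => riemann_extension_local hU hJ hne hh hb p.2
  choose V hVo hpV hVU G hG hGh using hloc
  set H : (Fin n → ℂ) → ℂ := fun z => if hz : z ∈ U then G ⟨z, hz⟩ z else 0 with hH
  have key : ∀ (p : U) (z : Fin n → ℂ), z ∈ V p → H z = G p z := by
    intro p z hz
    have hzU : z ∈ U := hVU p hz
    have h1 : H z = G ⟨z, hzU⟩ z := by simp [hH, hzU]
    rw [h1]
    -- both are continuous at `z` and agree where `J ≠ 0`
    have hc1 : ContinuousAt (G ⟨z, hzU⟩) z :=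
      ((hG ⟨z, hzU⟩).differentiableAt ((hVo ⟨z, hzU⟩).mem_nhds (hpV ⟨z, hzU⟩))).continuousAt
    have hc2 : ContinuousAt (G p) z := ((hG p).differentiableAt ((hVo p).mem_nhds hz)).continuousAt
    by_contra hne'
    have h2 : ∀ᶠ x in 𝓝 z, G ⟨z, hzU⟩ x - G p x ≠ 0 :=
      (hc1.sub hc2).eventually_ne (sub_ne_zero.mpr hne')
    have h3 : ∀ᶠ x in 𝓝 z, x ∈ V ⟨z, hzU⟩ := (hVo ⟨z, hzU⟩).mem_nhds (hpV ⟨z, hzU⟩)
    have h4 : ∀ᶠ x in 𝓝 z, x ∈ V p := (hVo p).mem_nhds hz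
    obtain ⟨x, hx1, hx2, hx3, hx4⟩ := ((hne z hzU).and_eventually (h2.and (h3.and h4))).exists
    exact hx2 (by rw [hGh ⟨z, hzU⟩ x hx3 hx1, hGh p x hx4 hx1, sub_self])
  refine ⟨H, ?_, ?_⟩
  · intro z hz
    have h1 : H =ᶠ[𝓝 z] G ⟨z, hz⟩ := by
      filter_upwards [(hVo ⟨z, hz⟩).mem_nhds (hpV ⟨z, hz⟩)] with x hx using key ⟨z, hz⟩ x hx
    exact (((hG ⟨z, hz⟩).differentiableAt ((hVo ⟨z, hz⟩).mem_nhds
      (hpV ⟨z, hz⟩))).congr_of_eventuallyEq h1).differentiableWithinAt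
  · intro z hz hJz
    rw [key ⟨z, hz⟩ z (hpV ⟨z, hz⟩), hGh ⟨z, hz⟩ z (hpV ⟨z, hz⟩) hJz]

end Pool.Agent.Levi
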