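import Pool.Agent.Levi.LeviForm
import Pool.Agent.MEP.Defs

/-!
# A Stein manifold has a smooth strictly plurisubharmonic exhaustion function
-/

set_option autoImplicit false
set_option linter.unusedSectionVars false

open Set Filter Topology MeasureTheory
open scoped ContDiff ComplexConjugate Manifold

namespace Pool.Agent.Levi

open Pool.Agent.MEP

namespace SE

/-! ### The convex cut-off `t ↦ t exp(-1/t)` -/

noncomputable def chi (t : ℝ) : ℝ := t * expNegInvGlue t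

noncomputable def chi1 (t : ℝ) : ℝ := (1 + t⁻¹) * expNegInvGlue t

noncomputable def chi2 (t : ℝ) : ℝ := (t⁻¹) ^ 3 * expNegInvGlue t

theorem hasDerivAt_chi (t : ℝ) : HasDerivAt chi (chi1 t) t := by
  have h := expNegInvGlue.hasDerivAt_polynomial_eval_inv_mul 1 t
  simp only [Polynomial.eval_one, one_mul, Polynomial.derivative_one, sub_zero, mul_one,
    Polynomial.eval_pow, Polynomial.eval_X] at h
  have h2 := (hasDerivAt_id t).mul h
  refine (h2.congr_deriv ?_)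
  simp only [chi1, id]
  rcases eq_or_ne t 0 with rfl | ht
  · simp
  · field_simp

theorem hasDerivAt_chi1 (t : ℝ) : HasDerivAt chi1 (chi2 t) t := by
  have h := expNegInvGlue.hasDerivAt_polynomial_eval_inv_mul (1 + Polynomial.X) t
  simp only [Polynomial.eval_add, Polynomial.eval_one, Polynomial.eval_X,
    Polynomial.derivative_add, Polynomial.derivative_one, Polynomial.derivative_X, zero_add,
    add_sub_cancel_left, Polynomial.eval_mul, Polynomial.eval_pow] at h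
  refine (h.congr_deriv ?_)
  simp only [chi2]
  ring

theorem chi_contDiff : ContDiff ℝ ∞ chi := contDiff_id.mul expNegInvGlue.contDiff

theorem chi_of_nonpos {t : ℝ} (ht : t ≤ 0) : chi t = 0 := by
  simp [chi, expNegInvGlue.zero_of_nonpos ht]

theorem chi_pos {t : ℝ} (ht : 0 < t) : 0 < chi t := mul_pos ht (expNegInvGlue.pos_of_pos ht)

theorem chi_nonneg (t : ℝ) : 0 ≤ chi t := by
  rcases le_or_gt t 0 with ht | ht
  · rw [chi_of_nonpos ht]
  · exact (chi_pos ht).le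

theorem chi1_pos {t : ℝ} (ht : 0 < t) : 0 < chi1 t :=
  mul_pos (by positivity) (expNegInvGlue.pos_of_pos ht)

theorem chi1_nonneg (t : ℝ) : 0 ≤ chi1 t := by
  rcases le_or_gt t 0 with ht | ht
  · simp [chi1, expNegInvGlue.zero_of_nonpos ht]
  · exact (chi1_pos ht).le

theorem chi2_nonneg (t : ℝ) : 0 ≤ chi2 t := by
  rcases le_or_gt t 0 with ht | ht
  · simp [chi2, expNegInvGlue.zero_of_nonpos ht]
  · exact mul_nonneg (by positivity) (expNegInvGlue.nonneg t)

/-! ### Functions on a manifold read in charts -/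

variable {n : ℕ} {S : Type} [TopologicalSpace S] [ChartedSpace (Fin n → ℂ) S]

/-- a function read in the preferred chart at `q` -/
noncomputable def rd {F : Type*} (u : S → F) (q : S) : (Fin n → ℂ) → F :=
  u ∘ (chartAt (Fin n → ℂ) q).symm

theorem rd_apply_self {F : Type*} (u : S → F) (q : S) :
    rd (n := n) u q (chartAt (Fin n → ℂ) q q) = u q := by
  simp [rd]

/-- smoothness, in the preferred charts -/
def Sm (n : ℕ) {S : Type} [TopologicalSpace S] [ChartedSpace (Fin n → ℂ) S] (u : S → ℝ) : Prop :=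
  ∀ q, ContDiffAt ℝ ∞ (rd (n := n) u q) (chartAt (Fin n → ℂ) q q)

/-- plurisubharmonicity, in the preferred charts -/
def Psh (n : ℕ) {S : Type} [TopologicalSpace S] [ChartedSpace (Fin n → ℂ) S] (u : S → ℝ) : Prop :=
  ∀ q ξ, 0 ≤ LL (rd (n := n) u q) (chartAt (Fin n → ℂ) q q) ξ

/-- strict plurisubharmonicity at a point, in the preferred chart -/
def StrictAt (n : ℕ) {S : Type} [TopologicalSpace S] [ChartedSpace (Fin n → ℂ) S] (u : S → ℝ)
    (q : S) : Prop :=
  ∀ ξ : Fin n → ℂ, ξ ≠ 0 → 0 < LL (rd (n := n) u q) (chartAt (Fin n → ℂ) q q) ξ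

theorem tendsto_chart_symm (q : S) : Tendsto (chartAt (Fin n → ℂ) q).symm
    (𝓝 (chartAt (Fin n → ℂ) q q)) (𝓝 q) := by
  have h := (chartAt (Fin n → ℂ) q).continuousAt_symm
    ((chartAt (Fin n → ℂ) q).map_source (mem_chart_source _ q))
  have h2 := h.tendsto
  rwa [(chartAt (Fin n → ℂ) q).left_inv (mem_chart_source _ q)] at h2

theorem rd_congr {F : Type*} {u w : S → F} {q : S} (h : u =ᶠ[𝓝 q] w) :
    rd (n := n) u q =ᶠ[𝓝 (chartAt (Fin n → ℂ) q q)] rd w q :=
  (tendsto_chart_symm q).eventually h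

theorem Sm.two {u : S → ℝ} (hu : Sm n u) (q : S) :
    ContDiffAt ℝ 2 (rd (n := n) u q) (chartAt (Fin n → ℂ) q q) :=
  (hu q).of_le (by norm_cast)

theorem Sm.continuous {u : S → ℝ} (hu : Sm n u) : Continuous u := by
  rw [continuous_iff_continuousAt]
  intro q
  have h1 : ContinuousAt (rd (n := n) u q ∘ chartAt (Fin n → ℂ) q) q :=
    ContinuousAt.comp (hu q).continuousAt
      ((chartAt (Fin n → ℂ) q).continuousAt (mem_chart_source _ q))
  refine h1.congr ?_
  filter_upwards [(chartAt (Fin n → ℂ) q).open_source.mem_nhds (mem_chart_source _ q)] with x hx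
  simp [rd, (chartAt (Fin n → ℂ) q).left_inv hx]

theorem Sm.contMDiff {u : S → ℝ} (hu : Sm n u) : ContMDiff 𝓘(ℝ, Fin n → ℂ) 𝓘(ℝ, ℝ) ∞ u := by
  intro q
  rw [contMDiffAt_iff]
  refine ⟨hu.continuous.continuousAt, ?_⟩
  exact (hu q).contDiffWithinAt (s := range 𝓘(ℝ, Fin n → ℂ))

theorem sm_of_locally {u : S → ℝ} (h : ∀ q, ∃ w : S → ℝ, Sm n w ∧ u =ᶠ[𝓝 q] w) : Sm n u := by
  intro q
  obtain ⟨w, hw, huw⟩ := h q
  exact (hw q).congr_of_eventuallyEq (rd_congr huw)

theorem Sm.const_mul {u : S → ℝ} (hu : Sm n u) (c : ℝ) : Sm n (fun q => c * u q) :=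
  fun q => contDiffAt_const.mul (hu q)

theorem Sm.sum {ι : Type*} {s : Finset ι} {u : ι → S → ℝ} (hu : ∀ i ∈ s, Sm n (u i)) :
    Sm n (fun q => ∑ i ∈ s, u i q) := by
  intro q
  have : ContDiffAt ℝ ∞ (fun z => ∑ i ∈ s, rd (n := n) (u i) q z) (chartAt (Fin n → ℂ) q q) :=
    ContDiffAt.sum fun i hi => hu i hi q
  exact this

theorem LL_rd_sum {ι : Type*} {s : Finset ι} {u : ι → S → ℝ} (hu : ∀ i ∈ s, Sm n (u i)) (q : S)
    (ξ : Fin n → ℂ) : LL (rd (n := n) (fun q => ∑ i ∈ s, u i q) q) (chartAt (Fin n → ℂ) q q) ξ =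
      ∑ i ∈ s, LL (rd (n := n) (u i) q) (chartAt (Fin n → ℂ) q q) ξ :=
  LL_sum (u := fun i => rd (n := n) (u i) q) (fun i hi => (hu i hi).two q) ξ

theorem LL_rd_const_mul {u : S → ℝ} (hu : Sm n u) (c : ℝ) (q : S) (ξ : Fin n → ℂ) :
    LL (rd (n := n) (fun q => c * u q) q) (chartAt (Fin n → ℂ) q q) ξ =
      c * LL (rd (n := n) u q) (chartAt (Fin n → ℂ) q q) ξ :=
  LL_const_mul (hu.two q) c ξ

/-! ### Holomorphic functions in charts -/

variable [IsManifold 𝓘(ℂ, Fin n → ℂ) ω S]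

theorem differentiableOn_rd {F : Type*} [NormedAddCommGroup F] [NormedSpace ℂ F] {h : S → F}
    (hh : MDifferentiable 𝓘(ℂ, Fin n → ℂ) 𝓘(ℂ, F) h) (q : S) :
    DifferentiableOn ℂ (rd (n := n) h q) (chartAt (Fin n → ℂ) q).target := by
  intro z hz
  have : IsManifold 𝓘(ℂ, Fin n → ℂ) 1 S := IsManifold.of_le (n := ω) le_top
  have h1 : MDifferentiableAt 𝓘(ℂ, Fin n → ℂ) 𝓘(ℂ, Fin n → ℂ)
      (chartAt (Fin n → ℂ) q).symm z :=
    mdifferentiableAt_atlas_symm (chart_mem_atlas _ q) hz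
  have h2 : MDifferentiableAt 𝓘(ℂ, Fin n → ℂ) 𝓘(ℂ, F) (h ∘ (chartAt (Fin n → ℂ) q).symm) z :=
    (hh _).comp z h1
  exact h2.differentiableAt.differentiableWithinAt

theorem mem_target (q : S) : chartAt (Fin n → ℂ) q q ∈ (chartAt (Fin n → ℂ) q).target :=
  (chartAt (Fin n → ℂ) q).map_source (mem_chart_source _ q)

theorem sm_norm_sq {h : S → ℂ} (hh : MDifferentiable 𝓘(ℂ, Fin n → ℂ) 𝓘(ℂ, ℂ) h) :
    Sm n (fun q => ‖h q‖ ^ 2) := by
  intro q
  have h1 : ContDiffAt ℝ ∞ (rd (n := n) h q) (chartAt (Fin n → ℂ) q q) :=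
    (contDiffOn_real_of_differentiableOn (chartAt (Fin n → ℂ) q).open_target
      (differentiableOn_rd hh q)).contDiffAt
      ((chartAt (Fin n → ℂ) q).open_target.mem_nhds (mem_target q))
  exact h1.norm_sq ℝ

theorem LL_rd_norm_sq {h : S → ℂ} (hh : MDifferentiable 𝓘(ℂ, Fin n → ℂ) 𝓘(ℂ, ℂ) h) (q : S)
    (ξ : Fin n → ℂ) : LL (rd (n := n) (fun q => ‖h q‖ ^ 2) q) (chartAt (Fin n → ℂ) q q) ξ =
      4 * ‖fderiv ℂ (rd (n := n) h q) (chartAt (Fin n → ℂ) q q) ξ‖ ^ 2 :=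
  LL_norm_sq (chartAt (Fin n → ℂ) q).open_target (differentiableOn_rd hh q) (mem_target q) ξ

/-- Being a coordinate map is an open condition (in the preferred charts of the points). -/
theorem coordinate_open {G : S → (Fin n → ℂ)}
    (hG : MDifferentiable 𝓘(ℂ, Fin n → ℂ) 𝓘(ℂ, Fin n → ℂ) G) {p : S} (hp : IsCoordinateAt G p) :
    ∀ᶠ q in 𝓝 p, ∀ ξ : Fin n → ℂ, ξ ≠ 0 →
      fderiv ℂ (rd (n := n) G q) (chartAt (Fin n → ℂ) q q) ξ ≠ 0 := by
  have hM1 : IsManifold 𝓘(ℂ, Fin n → ℂ) 1 S := IsManifold.of_le (n := ω) le_top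
  set e := chartAt (Fin n → ℂ) p with he
  have hF := differentiableOn_rd hG p
  have hFc : ContinuousOn (fderiv ℂ (rd (n := n) G p)) e.target :=
    (contDiffOn_pi_of_differentiableOn e.open_target hF).continuousOn_fderiv_of_isOpen
      e.open_target (by norm_cast)
  obtain ⟨L, hL⟩ : ∃ L : (Fin n → ℂ) ≃L[ℂ] (Fin n → ℂ), (L : (Fin n → ℂ) →L[ℂ] (Fin n → ℂ)) =
    fderiv ℂ (rd (n := n) G p) (e p) := hp
  have hca : ContinuousAt (fun q => fderiv ℂ (rd (n := n) G p) (e q)) p :=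
    ContinuousAt.comp (f := e) (g := fderiv ℂ (rd (n := n) G p))
      (hFc.continuousAt (e.open_target.mem_nhds (mem_target p)))
      (e.continuousAt (mem_chart_source _ p))
  have hopen : range ((↑) : ((Fin n → ℂ) ≃L[ℂ] (Fin n → ℂ)) → ((Fin n → ℂ) →L[ℂ] (Fin n → ℂ))) ∈
      𝓝 (fderiv ℂ (rd (n := n) G p) (e p)) := by
    rw [← hL]
    exact ContinuousLinearEquiv.nhds L
  filter_upwards [hca hopen, e.open_source.mem_nhds (mem_chart_source _ p)] with q hq hqs ξ hξ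
  obtain ⟨L', hL'0⟩ := hq
  have hL' : (L' : (Fin n → ℂ) →L[ℂ] (Fin n → ℂ)) = fderiv ℂ (rd (n := n) G p) (e q) := hL'0
  set e' := chartAt (Fin n → ℂ) q with he'
  -- the transition map
  set T : (Fin n → ℂ) → (Fin n → ℂ) := fun z => e (e'.symm z) with hT
  set T' : (Fin n → ℂ) → (Fin n → ℂ) := fun z => e' (e.symm z) with hT'
  have hTq : T (e' q) = e q := by simp [hT, he']
  have hTd : DifferentiableAt ℂ T (e' q) := by
    have h1 : MDifferentiableAt 𝓘(ℂ, Fin n → ℂ) 𝓘(ℂ, Fin n → ℂ) e'.symm (e' q) :=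
      mdifferentiableAt_atlas_symm (chart_mem_atlas _ q) (mem_target q)
    have h2 : MDifferentiableAt 𝓘(ℂ, Fin n → ℂ) 𝓘(ℂ, Fin n → ℂ) e (e'.symm (e' q)) := by
      apply mdifferentiableAt_atlas (chart_mem_atlas _ p)
      rwa [e'.left_inv (mem_chart_source _ q)]
    exact (h2.comp (e' q) h1).differentiableAt
  have hTd' : DifferentiableAt ℂ T' (T (e' q)) := by
    rw [hTq]
    have h1 : MDifferentiableAt 𝓘(ℂ, Fin n → ℂ) 𝓘(ℂ, Fin n → ℂ) e.symm (e q) :=
      mdifferentiableAt_atlas_symm (chart_mem_atlas _ p) (e.map_source hqs)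
    have h2 : MDifferentiableAt 𝓘(ℂ, Fin n → ℂ) 𝓘(ℂ, Fin n → ℂ) e' (e.symm (e q)) := by
      apply mdifferentiableAt_atlas (chart_mem_atlas _ q)
      rw [e.left_inv hqs]
      exact mem_chart_source _ q
    exact (h2.comp (e q) h1).differentiableAt
  -- near `e' q`, `e'.symm z` lies in the source of `e`
  have hnear : ∀ᶠ z in 𝓝 (e' q), e'.symm z ∈ e.source ∧ z ∈ e'.target := by
    refine ((tendsto_chart_symm q).eventually (e.open_source.mem_nhds hqs)).and ?_
    exact e'.open_target.mem_nhds (mem_target q)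
  have hTT : T' ∘ T =ᶠ[𝓝 (e' q)] id := by
    filter_upwards [hnear] with z hz
    simp [hT, hT', e.left_inv hz.1, e'.right_inv hz.2]
  have hinj : fderiv ℂ T (e' q) ξ ≠ 0 := by
    intro h0
    have h1 : HasFDerivAt (T' ∘ T) ((fderiv ℂ T' (T (e' q))).comp (fderiv ℂ T (e' q))) (e' q) :=
      hTd'.hasFDerivAt.comp (e' q) hTd.hasFDerivAt
    have h2 : HasFDerivAt (T' ∘ T) (ContinuousLinearMap.id ℂ (Fin n → ℂ)) (e' q) :=
      (hasFDerivAt_id (e' q)).congr_of_eventuallyEq hTT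
    have h3 := congrArg (fun L : (Fin n → ℂ) →L[ℂ] (Fin n → ℂ) => L ξ) (h1.unique h2)
    simp only [ContinuousLinearMap.comp_apply, h0, map_zero, ContinuousLinearMap.id_apply] at h3
    exact hξ h3.symm
  have hGT : rd (n := n) G q =ᶠ[𝓝 (e' q)] rd (n := n) G p ∘ T := by
    filter_upwards [hnear] with z hz
    simp only [rd, Function.comp, hT]
    rw [← he, ← he', e.left_inv hz.1]
  have hFd : DifferentiableAt ℂ (rd (n := n) G p) (T (e' q)) := by
    rw [hTq]
    exact (hF _ (e.map_source hqs)).differentiableAt (e.open_target.mem_nhds (e.map_source hqs))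
  have h4 : fderiv ℂ (rd (n := n) G q) (e' q) =
      (fderiv ℂ (rd (n := n) G p) (T (e' q))).comp (fderiv ℂ T (e' q)) := by
    rw [hGT.fderiv_eq]
    exact (hFd.hasFDerivAt.comp (e' q) hTd.hasFDerivAt).fderiv
  rw [h4, ContinuousLinearMap.comp_apply, hTq, ← hL']
  intro h5
  apply hinj
  have h6 : L' (fderiv ℂ T (e' q) ξ) = 0 := h5
  exact (map_eq_zero_iff L' L'.injective).mp h6

/-! ### The building block -/

theorem mdifferentiable_apply {G : S → (Fin n → ℂ)}
    (hG : MDifferentiable 𝓘(ℂ, Fin n → ℂ) 𝓘(ℂ, Fin n → ℂ) G) (i : Fin n) :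
    MDifferentiable 𝓘(ℂ, Fin n → ℂ) 𝓘(ℂ, ℂ) (fun q => G q i) := by
  intro q
  have h1 : MDifferentiable 𝓘(ℂ, Fin n → ℂ) 𝓘(ℂ, ℂ) (fun z : Fin n → ℂ => z i) :=
    (differentiable_apply i).mdifferentiable
  exact (h1 (G q)).comp q (hG q)

/-- Local building block: a smooth plurisubharmonic function, zero on `K`, positive and strictly
plurisubharmonic near `p`. -/
theorem exists_block (hS : IsStein n S) {K : Set S} (hK : IsCompact K)
    (hhull : holomorphicHull n K ⊆ K) {p : S} (hp : p ∉ K) :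
    ∃ u : S → ℝ, Sm n u ∧ Psh n u ∧ (∀ q, 0 ≤ u q) ∧ (∀ q ∈ K, u q = 0) ∧
      ∀ᶠ q in 𝓝 p, 0 < u q ∧ StrictAt n u q := by
  -- a holomorphic function, small on `K`, large at `p`
  obtain ⟨h, hh, a, ha0, ha1, haK, hap⟩ : ∃ h : S → ℂ,
      MDifferentiable 𝓘(ℂ, Fin n → ℂ) 𝓘(ℂ, ℂ) h ∧ ∃ a : ℝ, 0 ≤ a ∧ a < 1 ∧
      (∀ q ∈ K, ‖h q‖ ≤ a) ∧ 1 < ‖h p‖ := by
    rcases K.eq_empty_or_nonempty with rfl | ⟨k0, hk0⟩
    · exact ⟨fun _ => 2, mdifferentiable_const, 0, le_rfl, one_pos, by simp, by simp⟩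
    · have h1 : p ∉ holomorphicHull n K := fun h => hp (hhull h)
      simp only [holomorphicHull, Set.mem_ofPred_eq, not_forall, not_le] at h1
      obtain ⟨g, hg, c, hc, hcp⟩ := h1
      have hc0 : 0 ≤ c := (norm_nonneg _).trans (hc k0 hk0)
      set s := (c + ‖g p‖) / 2 with hs
      have hs1 : c < s := by rw [hs]; linarith
      have hs2 : s < ‖g p‖ := by rw [hs]; linarith
      have hs0 : 0 < s := hc0.trans_lt hs1
      have hnorm : ∀ q, ‖(s : ℂ)⁻¹ * g q‖ = ‖g q‖ / s := by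
        intro q
        rw [norm_mul, norm_inv, Complex.norm_real, Real.norm_of_nonneg hs0.le]
        field_simp
      refine ⟨fun q => (s : ℂ)⁻¹ * g q, ?_, c / s, by positivity, by rwa [div_lt_one hs0], ?_, ?_⟩
      · intro q
        have h1 : MDifferentiable 𝓘(ℂ, ℂ) 𝓘(ℂ, ℂ) (fun z : ℂ => (s : ℂ)⁻¹ * z) :=
          (differentiable_id.const_mul _).mdifferentiable
        exact (h1 (g q)).comp q (hg q)
      · intro q hq
        rw [hnorm]
        gcongr
        exact hc q hq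
      · rw [hnorm, one_lt_div hs0]
        exact hs2
  obtain ⟨G, hG, hGp⟩ := hS.local_coordinates p
  have hGi := fun i => mdifferentiable_apply hG i
  have hGc : Continuous fun q => ∑ i, ‖G q i‖ ^ 2 := by
    have := hG.continuous
    fun_prop
  obtain ⟨B, hB⟩ := hK.exists_bound_of_continuousOn hGc.continuousOn
  have hB0 : 0 ≤ max B 0 := le_max_right _ _
  set ε := (1 - a ^ 2) / (max B 0 + 1) with hε
  have ha2 : 0 < 1 - a ^ 2 := by nlinarith
  have hεpos : 0 < ε := by positivity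
  -- the function
  set v : S → ℝ := fun q => ‖h q‖ ^ 2 + (ε * ∑ i, ‖G q i‖ ^ 2) + (-1) with hv
  have hs1 := sm_norm_sq hh
  have hs2 : Sm n (fun q => ∑ i, ‖G q i‖ ^ 2) := Sm.sum fun i _ => sm_norm_sq (hGi i)
  have hs3 : Sm n (fun q => ε * ∑ i, ‖G q i‖ ^ 2) := hs2.const_mul ε
  have hs4 : Sm n (fun q => ‖h q‖ ^ 2 + (ε * ∑ i, ‖G q i‖ ^ 2)) := fun q => (hs1 q).add (hs3 q)
  have hsv : Sm n v := fun q => (hs4 q).add contDiffAt_const
  have hLv : ∀ q ξ, LL (rd (n := n) v q) (chartAt (Fin n → ℂ) q q) ξ =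
      4 * ‖fderiv ℂ (rd (n := n) h q) (chartAt (Fin n → ℂ) q q) ξ‖ ^ 2 +
      ε * ∑ i, 4 * ‖fderiv ℂ (rd (n := n) (fun q => G q i) q) (chartAt (Fin n → ℂ) q q) ξ‖ ^ 2 := by
    intro q ξ
    have e1 : LL (rd (n := n) v q) (chartAt (Fin n → ℂ) q q) ξ =
        LL (rd (n := n) (fun q => ‖h q‖ ^ 2 + (ε * ∑ i, ‖G q i‖ ^ 2)) q)
          (chartAt (Fin n → ℂ) q q) ξ + LL (fun _ => -1) (chartAt (Fin n → ℂ) q q) ξ :=
      LL_add (hs4.two q) contDiffAt_const ξ
    have e2 : LL (rd (n := n) (fun q => ‖h q‖ ^ 2 + (ε * ∑ i, ‖G q i‖ ^ 2)) q)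
          (chartAt (Fin n → ℂ) q q) ξ = LL (rd (n := n) (fun q => ‖h q‖ ^ 2) q)
          (chartAt (Fin n → ℂ) q q) ξ + LL (rd (n := n) (fun q => ε * ∑ i, ‖G q i‖ ^ 2) q)
          (chartAt (Fin n → ℂ) q q) ξ := LL_add (hs1.two q) (hs3.two q) ξ
    rw [e1, e2, LL_const, LL_rd_norm_sq hh, LL_rd_const_mul hs2,
      LL_rd_sum (fun i _ => sm_norm_sq (hGi i))]
    simp only [LL_rd_norm_sq (hGi _)]
    ring
  have hLv0 : ∀ q ξ, 0 ≤ LL (rd (n := n) v q) (chartAt (Fin n → ℂ) q q) ξ := by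
    intro q ξ
    rw [hLv]
    positivity
  have hLchi : ∀ q ξ, LL (rd (n := n) (fun q => chi (v q)) q) (chartAt (Fin n → ℂ) q q) ξ =
      chi1 (v q) * LL (rd (n := n) v q) (chartAt (Fin n → ℂ) q q) ξ +
      chi2 (v q) * ((fderiv ℝ (rd (n := n) v q) (chartAt (Fin n → ℂ) q q) ξ) ^ 2 +
        (fderiv ℝ (rd (n := n) v q) (chartAt (Fin n → ℂ) q q) (Complex.I • ξ)) ^ 2) := by
    intro q ξ
    have := LL_comp (hsv.two q) hasDerivAt_chi hasDerivAt_chi1 ξ
    rw [rd_apply_self] at this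
    exact this
  refine ⟨fun q => chi (v q), ?_, ?_, fun q => chi_nonneg _, ?_, ?_⟩
  · intro q
    exact chi_contDiff.contDiffAt.comp _ (hsv q)
  · intro q ξ
    rw [hLchi]
    have := chi1_nonneg (v q)
    have := chi2_nonneg (v q)
    have := hLv0 q ξ
    positivity
  · intro q hq
    apply chi_of_nonpos
    have h1 := haK q hq
    have h2 := hB q hq
    rw [Real.norm_of_nonneg (by positivity)] at h2
    have h3 : ε * ∑ i, ‖G q i‖ ^ 2 ≤ 1 - a ^ 2 := by
      have : ∑ i, ‖G q i‖ ^ 2 ≤ max B 0 + 1 := by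
        have := le_max_left B 0
        linarith
      calc ε * ∑ i, ‖G q i‖ ^ 2 ≤ ε * (max B 0 + 1) := by gcongr
        _ = 1 - a ^ 2 := by rw [hε]; field_simp
    have h4 : ‖h q‖ ^ 2 ≤ a ^ 2 := by gcongr
    simp only [hv]
    linarith
  · have hvp : 0 < v p := by
      have h1 : 0 ≤ ε * ∑ i, ‖G p i‖ ^ 2 := by positivity
      have h2 : 1 < ‖h p‖ ^ 2 := by nlinarith
      simp only [hv]
      linarith
    have h1 : ∀ᶠ q in 𝓝 p, 0 < v q := hsv.continuous.continuousAt (Ioi_mem_nhds hvp)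
    filter_upwards [h1, coordinate_open hG hGp] with q hq1 hq2
    refine ⟨chi_pos hq1, fun ξ hξ => ?_⟩
    rw [hLchi]
    have h3 := chi1_pos hq1
    have h4 := chi2_nonneg (v q)
    have h5 : 0 < LL (rd (n := n) v q) (chartAt (Fin n → ℂ) q q) ξ := by
      rw [hLv]
      have h6 := hq2 ξ hξ
      obtain ⟨i, hi⟩ := Function.ne_iff.mp h6
      have hGd : DifferentiableAt ℂ (rd (n := n) G q) (chartAt (Fin n → ℂ) q q) :=
        (differentiableOn_rd hG q _ (mem_target q)).differentiableAt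
          ((chartAt (Fin n → ℂ) q).open_target.mem_nhds (mem_target q))
      have h7 : fderiv ℂ (rd (n := n) (fun q => G q i) q) (chartAt (Fin n → ℂ) q q) ξ =
          fderiv ℂ (rd (n := n) G q) (chartAt (Fin n → ℂ) q q) ξ i := by
        have h8 := (hasFDerivAt_pi'.mp hGd.hasFDerivAt i).fderiv
        have h9 := congrArg (fun L : (Fin n → ℂ) →L[ℂ] ℂ => L ξ) h8
        exact h9
      have h10 : 0 < ∑ i, 4 * ‖fderiv ℂ (rd (n := n) (fun q => G q i) q)
          (chartAt (Fin n → ℂ) q q) ξ‖ ^ 2 := by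
        refine Finset.sum_pos' (fun i _ => by positivity) ⟨i, Finset.mem_univ i, ?_⟩
        rw [h7]
        have : 0 < ‖fderiv ℂ (rd (n := n) G q) (chartAt (Fin n → ℂ) q q) ξ i‖ := by
          rw [norm_pos_iff]; exact hi
        positivity
      positivity
    positivity

/-- Building block for a compact shell. -/
theorem exists_shell (hS : IsStein n S) {K L : Set S} (hK : IsCompact K) (hL : IsCompact L)
    (hhull : holomorphicHull n K ⊆ K) (hKL : Disjoint K L) (R : ℝ) :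
    ∃ u : S → ℝ, Sm n u ∧ Psh n u ∧ (∀ q, 0 ≤ u q) ∧ (∀ q ∈ K, u q = 0) ∧
      ∀ q ∈ L, R ≤ u q ∧ StrictAt n u q := by
  classical
  have hblock : ∀ p : S, ∃ u : S → ℝ, Sm n u ∧ Psh n u ∧ (∀ q, 0 ≤ u q) ∧ (∀ q ∈ K, u q = 0) ∧
      (p ∈ L → ∀ᶠ q in 𝓝 p, 0 < u q ∧ StrictAt n u q) := by
    intro p
    by_cases hp : p ∈ L
    · obtain ⟨u, h1, h2, h3, h4, h5⟩ := exists_block hS hK hhull
        (Set.disjoint_right.mp hKL hp)
      exact ⟨u, h1, h2, h3, h4, fun _ => h5⟩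
    · refine ⟨fun _ => 0, fun q => contDiffAt_const, fun q ξ => ?_, fun _ => le_rfl,
        fun _ _ => rfl, fun h => absurd h hp⟩
      have : LL (rd (n := n) (fun _ : S => (0 : ℝ)) q) (chartAt (Fin n → ℂ) q q) ξ = 0 :=
        LL_const 0 _ _
      rw [this]
  choose u hu1 hu2 hu3 hu4 hu5 using hblock
  obtain ⟨t, htL, htcov⟩ := hL.elim_nhds_subcover (fun p => {q | 0 < u p q ∧ StrictAt n (u p) q})
    (fun p hp => hu5 p hp)
  set W : S → ℝ := fun q => ∑ p ∈ t, u p q with hW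
  have hWs : Sm n W := Sm.sum fun p _ => hu1 p
  have hLW : ∀ q ξ, LL (rd (n := n) W q) (chartAt (Fin n → ℂ) q q) ξ =
      ∑ p ∈ t, LL (rd (n := n) (u p) q) (chartAt (Fin n → ℂ) q q) ξ := fun q ξ =>
    LL_rd_sum (fun p _ => hu1 p) q ξ
  have hW0 : ∀ q, 0 ≤ W q := fun q => Finset.sum_nonneg fun p _ => hu3 p q
  have hWL : ∀ q ∈ L, 0 < W q ∧ StrictAt n W q := by
    intro q hq
    obtain ⟨p, hpt, hpq⟩ := mem_iUnion₂.mp (htcov hq)
    refine ⟨Finset.sum_pos' (fun p _ => hu3 p q) ⟨p, hpt, hpq.1⟩, fun ξ hξ => ?_⟩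
    rw [hLW]
    exact Finset.sum_pos' (fun p _ => hu2 p q ξ) ⟨p, hpt, hpq.2 ξ hξ⟩
  obtain ⟨m, hm, hmL⟩ : ∃ m > 0, ∀ q ∈ L, m ≤ W q := by
    rcases L.eq_empty_or_nonempty with rfl | hne
    · exact ⟨1, one_pos, fun q hq => absurd hq (notMem_empty q)⟩
    · obtain ⟨q0, hq0, hmin⟩ := hL.exists_isMinOn hne hWs.continuous.continuousOn
      exact ⟨W q0, (hWL q0 hq0).1, fun q hq => hmin hq⟩
  set C := max R 1 / m with hC
  have hCpos : 0 < C := by
    have : 0 < max R 1 := lt_of_lt_of_le one_pos (le_max_right _ _)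
    positivity
  refine ⟨fun q => C * W q, hWs.const_mul C, fun q ξ => ?_, fun q => ?_, fun q hq => ?_,
    fun q hq => ⟨?_, fun ξ hξ => ?_⟩⟩
  · rw [LL_rd_const_mul hWs, hLW]
    exact mul_nonneg hCpos.le (Finset.sum_nonneg fun p _ => hu2 p q ξ)
  · exact mul_nonneg hCpos.le (hW0 q)
  · have : W q = 0 := Finset.sum_eq_zero fun p _ => hu4 p q hq
    simp [this]
  · calc R ≤ max R 1 := le_max_left _ _
      _ = C * m := by rw [hC]; field_simp
      _ ≤ C * W q := by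
        have := hmL q hq
        gcongr
  · rw [LL_rd_const_mul hWs]
    exact mul_pos hCpos ((hWL q hq).2 ξ hξ)

/-! ### Exhaustion by holomorphically convex compact sets -/

theorem subset_hull (K : Set S) : K ⊆ holomorphicHull n K := fun p hp _ _ _ hc => hc p hp

theorem hull_hull (K : Set S) : holomorphicHull n (holomorphicHull n K) ⊆ holomorphicHull n K := by
  intro p hp g hg c hc
  exact hp g hg c fun q hq => hq g hg c hc

theorem hull_empty : holomorphicHull n (∅ : Set S) = ∅ := by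
  rw [eq_empty_iff_forall_notMem]
  intro p hp
  have := hp (fun _ => 0) mdifferentiable_const (-1) (by simp)
  norm_num at this

theorem exists_exhaustion [T2Space S] [SecondCountableTopology S] (hS : IsStein n S) :
    ∃ K : ℕ → Set S, (∀ j, IsCompact (K j)) ∧ (∀ j, holomorphicHull n (K j) ⊆ K j) ∧
      K 0 = ∅ ∧ K 1 = ∅ ∧ (∀ j, K j ⊆ interior (K (j + 1))) ∧ ⋃ j, K j = univ := by
  have hlc : LocallyCompactSpace S := ChartedSpace.locallyCompactSpace (Fin n → ℂ) S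
  have hsc : SigmaCompactSpace S := inferInstance
  let E := CompactExhaustion.choice S
  have hex : ∀ m : ℕ, ∃ m', m < m' ∧ holomorphicHull n (E m) ⊆ interior (E m') := by
    intro m
    obtain ⟨N, hN⟩ := E.exists_superset_of_isCompact
      (hS.holomorphically_convex (E m) (E.isCompact m))
    refine ⟨max (m + 1) (N + 1), lt_of_lt_of_le (Nat.lt_succ_self m) (le_max_left _ _), ?_⟩
    calc holomorphicHull n (E m) ⊆ E N := hN
      _ ⊆ interior (E (N + 1)) := E.subset_interior_succ N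
      _ ⊆ interior (E (max (m + 1) (N + 1))) := interior_mono (E.subset (le_max_right _ _))
  choose f hf1 hf2 using hex
  let m : ℕ → ℕ := fun j => Nat.rec 0 (fun _ x => f x) j
  have hm : ∀ j, m (j + 1) = f (m j) := fun j => rfl
  have hmj : ∀ j, j ≤ m j := by
    intro j
    induction j with
    | zero => exact Nat.zero_le _
    | succ j ih => rw [hm]; exact Nat.succ_le_of_lt (lt_of_le_of_lt ih (hf1 _))
  let K : ℕ → Set S := fun j => match j with
    | 0 => ∅
    | 1 => ∅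
    | j + 2 => holomorphicHull n (E (m j))
  refine ⟨K, ?_, ?_, rfl, rfl, ?_, ?_⟩
  · intro j
    match j with
    | 0 => exact isCompact_empty
    | 1 => exact isCompact_empty
    | j + 2 => exact hS.holomorphically_convex _ (E.isCompact _)
  · intro j
    match j with
    | 0 => exact hull_empty.subset
    | 1 => exact hull_empty.subset
    | j + 2 => exact hull_hull _
  · intro j
    match j with
    | 0 => exact empty_subset _
    | 1 => exact empty_subset _
    | j + 2 =>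
      change holomorphicHull n (E (m j)) ⊆ interior (holomorphicHull n (E (m (j + 1))))
      rw [hm]
      exact (hf2 (m j)).trans (interior_mono (subset_hull _))
  · rw [eq_univ_iff_forall]
    intro x
    obtain ⟨j, hj⟩ := E.exists_mem x
    refine mem_iUnion.mpr ⟨j + 2, ?_⟩
    exact subset_hull _ (E.subset (hmj j) hj)

end SE

open SE in
/-- (P2) A Stein manifold has a smooth strictly plurisubharmonic exhaustion function. -/
theorem exists_psh_exhaustion {n : ℕ} {S : Type} [TopologicalSpace S] [T2Space S]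
    [SecondCountableTopology S] [ChartedSpace (Fin n → ℂ) S] [IsManifold 𝓘(ℂ, Fin n → ℂ) ω S]
    (hS : IsStein n S) :
    ∃ ψ : S → ℝ, ContMDiff 𝓘(ℝ, Fin n → ℂ) 𝓘(ℝ, ℝ) ∞ ψ ∧ (∀ c : ℝ, IsCompact {p | ψ p ≤ c}) ∧
      ∀ (p : S) (ξ : Fin n → ℂ), ξ ≠ 0 →
        0 < leviE (ψ ∘ (chartAt (Fin n → ℂ) p).symm) (chartAt (Fin n → ℂ) p p) ξ := by
  classical
  obtain ⟨K, hKc, hKh, hK0, hK1, hKi, hKu⟩ := exists_exhaustion hS
  have hKmono : Monotone K := monotone_nat_of_le_succ fun j => (hKi j).trans interior_subset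
  have hshell : ∀ j : ℕ, ∃ u : S → ℝ, Sm n u ∧ Psh n u ∧ (∀ q, 0 ≤ u q) ∧ (∀ q ∈ K j, u q = 0) ∧
      ∀ q ∈ K (j + 2) \ interior (K (j + 1)), ((j : ℝ) + 1) ≤ u q ∧ StrictAt n u q := by
    intro j
    refine exists_shell hS (hKc j) ((hKc (j + 2)).diff isOpen_interior) (hKh j) ?_ _
    rw [Set.disjoint_left]
    intro q hq hq2
    exact hq2.2 (hKi j hq)
  choose u hu1 hu2 hu3 hu4 hu5 using hshell
  set ψ : S → ℝ := fun q => ∑' j, u j q with hψ
  -- on `K m` the sum is finite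
  have hfin : ∀ m, ∀ q ∈ K m, ψ q = ∑ j ∈ Finset.range m, u j q := by
    intro m q hq
    refine tsum_eq_sum fun j hj => ?_
    rw [Finset.mem_range, not_lt] at hj
    exact hu4 j q (hKmono hj hq)
  have hnear : ∀ q, ∃ m, ψ =ᶠ[𝓝 q] (fun x => ∑ j ∈ Finset.range m, u j x) ∧ q ∈ K m := by
    intro q
    obtain ⟨m, hm⟩ := mem_iUnion.mp (hKu ▸ mem_univ q : q ∈ ⋃ j, K j)
    refine ⟨m + 1, ?_, hKmono (Nat.le_succ m) hm⟩
    filter_upwards [isOpen_interior.mem_nhds (hKi m hm)] with x hx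
    exact hfin (m + 1) x (interior_subset hx)
  have hψs : Sm n ψ := sm_of_locally fun q => by
    obtain ⟨m, hm, _⟩ := hnear q
    exact ⟨_, Sm.sum fun j _ => hu1 j, hm⟩
  -- every point lies in a shell
  have hshellmem : ∀ q, ∀ M, q ∉ K M → ∃ j, M ≤ j + 1 ∧ q ∈ K (j + 2) \ interior (K (j + 1)) := by
    intro q M hqM
    have hex : ∃ m, q ∈ K m := mem_iUnion.mp (hKu ▸ mem_univ q : q ∈ ⋃ j, K j)
    set m := Nat.find hex with hm
    have h1 : q ∈ K m := Nat.find_spec hex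
    have h2 : ∀ k < m, q ∉ K k := fun k hk => Nat.find_min hex hk
    have h3 : M < m := by
      by_contra hcon
      exact hqM (hKmono (not_lt.mp hcon) h1)
    have h4 : m ≠ 0 := by
      intro h; rw [h, hK0] at h1; exact h1
    have h5 : m ≠ 1 := by
      intro h; rw [h, hK1] at h1; exact h1
    obtain ⟨j, hj⟩ : ∃ j, m = j + 2 := ⟨m - 2, by omega⟩
    refine ⟨j, by omega, ?_, fun h => ?_⟩
    · rw [← hj]; exact h1
    · exact h2 (j + 1) (by omega) (interior_subset h)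
  have hge : ∀ q j, u j q ≤ ψ q := by
    intro q j
    obtain ⟨m, hm⟩ := mem_iUnion.mp (hKu ▸ mem_univ q : q ∈ ⋃ j, K j)
    have h1 : q ∈ K (max m (j + 1)) := hKmono (le_max_left _ _) hm
    rw [hfin _ q h1]
    refine Finset.single_le_sum (f := fun j => u j q) (fun i _ => hu3 i q) ?_
    rw [Finset.mem_range]
    exact lt_of_lt_of_le (Nat.lt_succ_self j) (le_max_right _ _)
  refine ⟨ψ, hψs.contMDiff, ?_, ?_⟩
  · intro c
    obtain ⟨M, hM⟩ := exists_nat_gt c
    refine IsCompact.of_isClosed_subset (hKc M) (isClosed_le hψs.continuous continuous_const) ?_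
    intro q hq
    by_contra hqM
    obtain ⟨j, hj, hjq⟩ := hshellmem q M hqM
    have h1 := (hu5 j q hjq).1
    have h2 := hge q j
    have h3 : ψ q ≤ c := hq
    have h4 : (M : ℝ) ≤ (j : ℝ) + 1 := by exact_mod_cast hj
    linarith
  · intro p ξ hξ
    obtain ⟨j, _, hjp⟩ := hshellmem p 0 (by rw [hK0]; exact notMem_empty p)
    obtain ⟨m, hm, hpm⟩ := hnear p
    have hstrict := (hu5 j p hjp).2 ξ hξ
    have hjm : j < m := by
      by_contra hcon
      have h1 := hu4 j p (hKmono (not_lt.mp hcon) hpm)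
      have h2 := (hu5 j p hjp).1
      have h3 : (0 : ℝ) ≤ j := Nat.cast_nonneg j
      linarith
    have h1 : leviE (ψ ∘ (chartAt (Fin n → ℂ) p).symm) (chartAt (Fin n → ℂ) p p) ξ =
        (1 / 4) * LL (rd (n := n) ψ p) (chartAt (Fin n → ℂ) p p) ξ := leviE_eq (hψs.two p) ξ
    have h2 : LL (rd (n := n) ψ p) (chartAt (Fin n → ℂ) p p) ξ =
        LL (rd (n := n) (fun x => ∑ j ∈ Finset.range m, u j x) p)
          (chartAt (Fin n → ℂ) p p) ξ := LL_congr (rd_congr hm) ξ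
    rw [h1, h2, LL_rd_sum fun j _ => hu1 j]
    have h3 : 0 < ∑ j ∈ Finset.range m, LL (rd (n := n) (u j) p) (chartAt (Fin n → ℂ) p p) ξ :=
      Finset.sum_pos' (fun i _ => hu2 i p ξ) ⟨j, Finset.mem_range.mpr hjm, hstrict⟩
    positivity

end Pool.Agent.Levi
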