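import Pool.Agent.Levi.Basic
import Pool.Agent.MEP.Defs

/-!
# Tame local homeomorphisms `q : W → S` over a complex manifold

`W` is a covering space of the complex manifold `S`, with a function `ρ` that is proper along the
fibres and has bounded geometry, uniformly in the sheets. Used for the coverings that occur in the
proof that the fibres have the extension property.
-/

set_option autoImplicit false

open Set Filter Topology
open scoped ContDiff Manifold

namespace Pool.Agent.Levi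

section

variable {n : ℕ} {S : Type} [TopologicalSpace S] [ChartedSpace (Fin n → ℂ) S]
  {W : Type} [TopologicalSpace W]

/-- Jacobian determinant of `G : S → ℂⁿ` at the point `x`, in the chart at `p`. -/
noncomputable def jac (G : S → (Fin n → ℂ)) (p x : S) : ℂ :=
  LinearMap.det (fderiv ℂ (G ∘ (chartAt (Fin n → ℂ) p).symm) (chartAt (Fin n → ℂ) p x) :
    (Fin n → ℂ) →ₗ[ℂ] (Fin n → ℂ))

variable (n) in
/-- `β` is a holomorphic function on the space `W` over the complex manifold `S`. -/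
def QHolo (q : W → S) (β : W → ℂ) : Prop :=
  ∀ w, ∃ b : S → ℂ, MDifferentiableAt 𝓘(ℂ, Fin n → ℂ) 𝓘(ℂ, ℂ) b (q w) ∧
    ∀ᶠ w' in 𝓝 w, β w' = b (q w')

variable (n) in
/-- `q : W → S` is a local homeomorphism with uniform local sections, and `ρ` is a smooth function
on `W`, proper along the fibres, with bounded derivatives locally uniformly over `S`. -/
structure IsTame (q : W → S) (ρ : W → ℝ) : Prop where
  localHomeo : IsLocalHomeomorph q
  proper : ∀ K : Set S, IsCompact K → ∀ r : ℝ, IsCompact (q ⁻¹' K ∩ {w | ρ w ≤ r})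
  sheets : ∀ p : S, ∃ N : Set S, IsOpen N ∧ p ∈ N ∧ N ⊆ (chartAt (Fin n → ℂ) p).source ∧
    ∃ C : ℝ, ∀ w, q w ∈ N → ∃ σ : S → W, σ (q w) = w ∧ ContinuousOn σ N ∧
      ∀ x ∈ N, q (σ x) = x ∧ |ρ (σ x) - ρ w| ≤ C ∧
        ContDiffAt ℝ ∞ (ρ ∘ σ ∘ (chartAt (Fin n → ℂ) p).symm) (chartAt (Fin n → ℂ) p x) ∧
        ‖fderiv ℝ (ρ ∘ σ ∘ (chartAt (Fin n → ℂ) p).symm) (chartAt (Fin n → ℂ) p x)‖ ≤ C ∧
        ‖fderiv ℝ (fderiv ℝ (ρ ∘ σ ∘ (chartAt (Fin n → ℂ) p).symm))
          (chartAt (Fin n → ℂ) p x)‖ ≤ C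

end

end Pool.Agent.Levi
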