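import Pool.Agent.Levi.KZero
import Pool.Agent.Levi.SteinExhaustion

/-!
# The weight functions
-/

set_option autoImplicit false
set_option linter.unusedSectionVars false

open Set Filter Topology
open scoped ContDiff Manifold

namespace Pool.Agent.Levi

open Pool.Agent.MEP

/-- a locally bounded quantity is bounded by a monotone function of an exhaustion function -/
theorem exists_monotone_majorant {S : Type} [TopologicalSpace S] {Z : Set S} {ψ : S → ℝ}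
    (hc : ∀ c : ℝ, IsCompact {p | p ∈ Z ∧ ψ p ≤ c}) {P : S → ℝ → Prop}
    (hmono : ∀ x, ∀ C C', C ≤ C' → P x C → P x C')
    (hloc : ∀ p ∈ Z, ∃ N ∈ 𝓝 p, ∃ C, ∀ x ∈ N, x ∈ Z → P x C) :
    ∃ h : ℝ → ℝ, Monotone h ∧ (∀ t, 0 ≤ h t) ∧ ∀ x ∈ Z, P x (h (ψ x)) := by
  have hK : ∀ m : ℕ, ∃ C, ∀ x ∈ {p | p ∈ Z ∧ ψ p ≤ m}, x ∈ Z → P x C := by
    intro m
    refine (hc m).induction_on (p := fun s => ∃ C, ∀ x ∈ s, x ∈ Z → P x C) ?_ ?_ ?_ ?_
    · exact ⟨0, fun x hx => absurd hx (notMem_empty x)⟩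
    · rintro s t hst ⟨C, hC⟩
      exact ⟨C, fun x hx => hC x (hst hx)⟩
    · rintro s t ⟨C, hC⟩ ⟨C', hC'⟩
      refine ⟨max C C', fun x hx hxZ => ?_⟩
      rcases hx with hx | hx
      · exact hmono x _ _ (le_max_left _ _) (hC x hx hxZ)
      · exact hmono x _ _ (le_max_right _ _) (hC' x hx hxZ)
    · intro x hx
      obtain ⟨N, hN, C, hC⟩ := hloc x hx.1
      exact ⟨N, mem_nhdsWithin_of_mem_nhds hN, C, hC⟩
  choose D hD using hK
  refine ⟨fun t => ∑ i ∈ Finset.range (⌈t⌉₊ + 1), |D i|, ?_, ?_, ?_⟩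
  · intro s t hst
    refine Finset.sum_le_sum_of_subset_of_nonneg ?_ fun i _ _ => abs_nonneg _
    intro i hi
    rw [Finset.mem_range] at hi ⊢
    exact lt_of_lt_of_le hi (Nat.succ_le_succ (Nat.ceil_mono hst))
  · intro t
    exact Finset.sum_nonneg fun i _ => abs_nonneg _
  · intro x hx
    have h1 : ψ x ≤ ⌈ψ x⌉₊ := Nat.le_ceil _
    have h2 := hD ⌈ψ x⌉₊ x ⟨hx, h1⟩ hx
    refine hmono x _ _ ?_ h2
    refine (le_abs_self _).trans ?_
    exact Finset.single_le_sum (f := fun i => |D i|) (fun i _ => abs_nonneg _)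
      (Finset.mem_range.mpr (Nat.lt_succ_self _))

theorem eventually_norm_sub_lt {X E : Type*} [TopologicalSpace X] [SeminormedAddCommGroup E]
    {f : X → E} {z : X} (h : ContinuousAt f z) {c : ℝ} (hc : 0 < c) :
    ∀ᶠ x in 𝓝 z, ‖f x - f z‖ < c := by
  have h1 : Tendsto (fun x => f x - f z) (𝓝 z) (𝓝 (f z - f z)) := h.sub_const _
  rw [sub_self] at h1
  have h2 := h1.norm
  rw [norm_zero] at h2
  exact h2.eventually (gt_mem_nhds hc)

section Euclid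

variable {n : ℕ}

theorem LL_log_norm_sq {U : Set (Fin n → ℂ)} (hU : IsOpen U) {F : (Fin n → ℂ) → ℂ}
    (hF : DifferentiableOn ℂ F U) {z : Fin n → ℂ} (hz : z ∈ U) (hne : F z ≠ 0) (ξ : Fin n → ℂ) :
    LL (fun x => Real.log (‖F x‖ ^ 2)) z ξ = 0 := by
  set c := (F z)⁻¹ with hc
  have hc0 : c ≠ 0 := inv_ne_zero hne
  have hcont : ContinuousAt F z := (hF.continuousOn).continuousAt (hU.mem_nhds hz)
  have h1 : c * F z ∈ Complex.slitPlane := by
    rw [hc, inv_mul_cancel₀ hne]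
    exact Complex.one_mem_slitPlane
  have h2 : ∀ᶠ x in 𝓝 z, c * F x ∈ Complex.slitPlane :=
    (continuousAt_const.mul hcont).eventually (Complex.isOpen_slitPlane.mem_nhds h1)
  obtain ⟨V, hVsub, hVo, hzV⟩ := mem_nhds_iff.mp (inter_mem (hU.mem_nhds hz) h2)
  have hlog : DifferentiableOn ℂ (fun x => Complex.log (c * F x)) V := by
    intro x hx
    have h3 : DifferentiableAt ℂ F x := hF.differentiableAt (hU.mem_nhds (hVsub hx).1)
    exact ((h3.const_mul c).clog (hVsub hx).2).differentiableWithinAt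
  have h3 : (fun x => Real.log (‖F x‖ ^ 2)) =ᶠ[𝓝 z]
      fun x => ((2 : ℝ) • Complex.reCLM) (Complex.log (c * F x)) + (-(2 * Real.log ‖c‖)) := by
    filter_upwards [hVo.mem_nhds hzV] with x hx
    have h4 : c * F x ≠ 0 := Complex.slitPlane_ne_zero (hVsub hx).2
    have h5 : F x ≠ 0 := right_ne_zero_of_mul h4
    simp only [smul_apply, Complex.reCLM_apply, smul_eq_mul, Complex.log_re, norm_mul]
    rw [Real.log_pow, Real.log_mul (norm_ne_zero_iff.mpr hc0) (norm_ne_zero_iff.mpr h5)]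
    push_cast
    ring
  have h4 : ContDiffAt ℝ 2 (fun x => ((2 : ℝ) • Complex.reCLM) (Complex.log (c * F x))) z :=
    ((2 : ℝ) • Complex.reCLM).contDiff.contDiffAt.comp z
      (((contDiffOn_real_of_differentiableOn hVo hlog).contDiffAt (hVo.mem_nhds hzV)).of_le
        (by norm_cast))
  rw [LL_congr h3, LL_add h4 contDiffAt_const, LL_const, LL_re hVo hlog hzV, add_zero]

theorem abs_LL_le (u : (Fin n → ℂ) → ℝ) (z v : Fin n → ℂ) :
    |LL u z v| ≤ 2 * ‖fderiv ℝ (fderiv ℝ u) z‖ * ‖v‖ ^ 2 := by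
  unfold LL
  have h1 : ∀ a : Fin n → ℂ, |fderiv ℝ (fderiv ℝ u) z a a| ≤ ‖fderiv ℝ (fderiv ℝ u) z‖ * ‖a‖ ^ 2 := by
    intro a
    have := (fderiv ℝ (fderiv ℝ u) z).le_opNorm₂ a a
    rw [Real.norm_eq_abs] at this
    linarith [this, pow_two ‖a‖, mul_assoc ‖fderiv ℝ (fderiv ℝ u) z‖ ‖a‖ ‖a‖]
  have h2 : ‖Complex.I • v‖ = ‖v‖ := by rw [norm_smul, Complex.norm_I, one_mul]
  calc |_| ≤ |fderiv ℝ (fderiv ℝ u) z v v| +
      |fderiv ℝ (fderiv ℝ u) z (Complex.I • v) (Complex.I • v)| := abs_add_le _ _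
    _ ≤ ‖fderiv ℝ (fderiv ℝ u) z‖ * ‖v‖ ^ 2 + ‖fderiv ℝ (fderiv ℝ u) z‖ * ‖v‖ ^ 2 := by
        refine add_le_add (h1 v) ?_
        have := h1 (Complex.I • v)
        rwa [h2] at this
    _ = _ := by ring

/-- continuity of the second derivative -/
theorem continuousAt_fderiv_fderiv {u : (Fin n → ℂ) → ℝ} {z : Fin n → ℂ}
    (hu : ContDiffAt ℝ 2 u z) : ContinuousAt (fderiv ℝ (fderiv ℝ u)) z :=
  ((hu.fderiv_right (m := 1) (by norm_num)).fderiv_right (m := 0) (by norm_num)).continuousAt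

theorem exists_bound_fderiv_fderiv {u : (Fin n → ℂ) → ℝ} {z : Fin n → ℂ}
    (hu : ContDiffAt ℝ 2 u z) : ∃ C : ℝ, 0 ≤ C ∧ ∀ᶠ x in 𝓝 z, ‖fderiv ℝ (fderiv ℝ u) x‖ ≤ C := by
  have h : Tendsto (fun x => ‖fderiv ℝ (fderiv ℝ u) x‖) (𝓝 z) (𝓝 ‖fderiv ℝ (fderiv ℝ u) z‖) :=
    ((continuous_norm (E := (Fin n → ℂ) →L[ℝ] (Fin n → ℂ) →L[ℝ] ℝ)).tendsto _).comp
      (continuousAt_fderiv_fderiv hu)
  refine ⟨‖fderiv ℝ (fderiv ℝ u) z‖ + 1, by positivity, ?_⟩
  have h2 := h.eventually (gt_mem_nhds (lt_add_one _))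
  exact h2.mono fun x hx => le_of_lt hx

theorem exists_lower_bound {u : (Fin n → ℂ) → ℝ} {z : Fin n → ℂ} (hu : ContDiffAt ℝ 2 u z)
    (hpos : ∀ ξ : Fin n → ℂ, ξ ≠ 0 → 0 < leviE u z ξ) :
    ∃ c : ℝ, 0 < c ∧ ∀ᶠ x in 𝓝 z, ∀ v, c * ‖v‖ ^ 2 ≤ LL u x v := by
  classical
  -- the minimum over the unit sphere
  obtain ⟨c, hc, hmin⟩ : ∃ c : ℝ, 0 < c ∧ ∀ v, ‖v‖ = 1 → c ≤ LL u z v := by
    by_cases hne : (Metric.sphere (0 : Fin n → ℂ) 1).Nonempty
    · have hcont : ContinuousOn (fun v => LL u z v) (Metric.sphere (0 : Fin n → ℂ) 1) := by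
        unfold LL
        fun_prop
      obtain ⟨v, hv, hvmin⟩ := (isCompact_sphere (0 : Fin n → ℂ) 1).exists_isMinOn hne hcont
      have hv1 : ‖v‖ = 1 := by simpa using hv
      refine ⟨LL u z v, ?_, ?_⟩
      · have h1 := hpos v (by rintro rfl; simp at hv1)
        rw [leviE_eq hu] at h1
        linarith
      · intro x hx
        exact hvmin (by simpa using hx)
    · refine ⟨1, one_pos, fun v hv => ?_⟩
      exact absurd ⟨v, by simpa using hv⟩ hne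
  have hbig : ∀ v, c * ‖v‖ ^ 2 ≤ LL u z v := by
    intro v
    by_cases hv : v = 0
    · subst hv
      simp [LL]
    · have hvn : 0 < ‖v‖ := norm_pos_iff.mpr hv
      have h1 := hmin ((‖v‖⁻¹ : ℝ) • v) (by
        rw [norm_smul, norm_inv, norm_norm, inv_mul_cancel₀ hvn.ne'])
      have h2 : LL u z ((‖v‖⁻¹ : ℝ) • v) = (‖v‖⁻¹) ^ 2 * LL u z v := by
        unfold LL
        have e : Complex.I • ((‖v‖⁻¹ : ℝ) • v) = (‖v‖⁻¹ : ℝ) • (Complex.I • v) := smul_comm _ _ _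
        rw [e]
        simp only [map_smul, smul_apply, smul_eq_mul]
        ring
      rw [h2] at h1
      have h3 : c * ‖v‖ ^ 2 ≤ ((‖v‖⁻¹) ^ 2 * LL u z v) * ‖v‖ ^ 2 := by gcongr
      calc c * ‖v‖ ^ 2 ≤ ((‖v‖⁻¹) ^ 2 * LL u z v) * ‖v‖ ^ 2 := h3
        _ = LL u z v := by field_simp
  refine ⟨c / 2, by positivity, ?_⟩
  have h1 : ∀ᶠ x in 𝓝 z, ‖fderiv ℝ (fderiv ℝ u) x - fderiv ℝ (fderiv ℝ u) z‖ < c / 4 := by
    exact eventually_norm_sub_lt (E := (Fin n → ℂ) →L[ℝ] (Fin n → ℂ) →L[ℝ] ℝ)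
      (continuousAt_fderiv_fderiv hu) (by positivity)
  filter_upwards [h1] with x hx v
  have h2 : ∀ a : Fin n → ℂ, ‖a‖ = ‖v‖ →
      |(fderiv ℝ (fderiv ℝ u) x - fderiv ℝ (fderiv ℝ u) z) a a| ≤ c / 4 * ‖v‖ ^ 2 := by
    intro a ha
    have h3 := (fderiv ℝ (fderiv ℝ u) x - fderiv ℝ (fderiv ℝ u) z).le_opNorm₂ a a
    rw [Real.norm_eq_abs, ha] at h3
    calc _ ≤ _ := h3
      _ ≤ c / 4 * ‖v‖ * ‖v‖ := by gcongr
      _ = _ := by ring
  have h3 := h2 v rfl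
  have h4 := h2 (Complex.I • v) (by rw [norm_smul, Complex.norm_I, one_mul])
  simp only [sub_apply] at h3 h4
  have h5 := hbig v
  unfold LL at h5 ⊢
  have h6 := abs_le.mp h3
  have h7 := abs_le.mp h4
  nlinarith [h6.1, h7.1, sq_nonneg ‖v‖]

end Euclid

section LeviRules

variable {n : ℕ} {M : Type} [TopologicalSpace M] {π : M → (Fin n → ℂ)}

theorem levi_eq_LL_inv (hπ : IsLocalHomeomorph π) {φ : M → ℝ} (hφ : RSmooth hπ φ) (w : M)
    (ξ : Fin n → ℂ) : levi hπ φ w ξ = (1 / 4) * LL (φ ∘ hπ.localInverseAt w) (π w) ξ := by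
  rw [levi_eq_leviE, leviE_eq ((hφ w).of_le (by norm_cast))]

theorem levi_add (hπ : IsLocalHomeomorph π) {u g : M → ℝ} (hu : RSmooth hπ u) (hg : RSmooth hπ g)
    (w : M) (ξ : Fin n → ℂ) :
    levi hπ (fun x => u x + g x) w ξ = levi hπ u w ξ + levi hπ g w ξ := by
  rw [levi_eq_LL_inv hπ (hu.add hg), levi_eq_LL_inv hπ hu, levi_eq_LL_inv hπ hg, ← mul_add]
  congr 1
  exact LL_add ((hu w).of_le (by norm_cast)) ((hg w).of_le (by norm_cast)) ξ

theorem levi_comp_ge (hπ : IsLocalHomeomorph π) {u : M → ℝ} (hu : RSmooth hπ u) {X : ℝ → ℝ}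
    (hX : ContDiff ℝ ∞ X) (h2 : ∀ t, 0 ≤ deriv (deriv X) t) (w : M) (ξ : Fin n → ℂ) :
    deriv X (u w) * levi hπ u w ξ ≤ levi hπ (fun x => X (u x)) w ξ := by
  have hs : RSmooth hπ (fun x => X (u x)) := fun w => hX.contDiffAt.comp _ (hu w)
  rw [levi_eq_LL_inv hπ hs, levi_eq_LL_inv hπ hu]
  have hd1 : ∀ t, HasDerivAt X (deriv X t) t := fun t =>
    (hX.differentiable (by simp)).differentiableAt.hasDerivAt
  have hX' : ContDiff ℝ ∞ (deriv X) := by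
    have h := contDiff_infty_iff_deriv.mp hX
    exact h.2
  have hd2 : ∀ t, HasDerivAt (deriv X) (deriv (deriv X) t) t := fun t =>
    (hX'.differentiable (by simp)).differentiableAt.hasDerivAt
  have h3 := LL_comp (v := u ∘ hπ.localInverseAt w) (z := π w) ((hu w).of_le (by norm_cast))
    hd1 hd2 ξ
  have h4 : (u ∘ hπ.localInverseAt w) (π w) = u w := by
    rw [Function.comp_apply, hπ.localInverseAt_apply_self]
  have h5 : ((fun x => X (u x)) ∘ hπ.localInverseAt w) =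
      fun x => X ((u ∘ hπ.localInverseAt w) x) := rfl
  rw [h5, h3, h4]
  have h6 := h2 (u w)
  nlinarith [mul_nonneg h6 (add_nonneg (sq_nonneg (fderiv ℝ (u ∘ hπ.localInverseAt w) (π w) ξ))
    (sq_nonneg (fderiv ℝ (u ∘ hπ.localInverseAt w) (π w) (Complex.I • ξ))))]

end LeviRules

section Manifold

variable {n : ℕ} {S : Type} [TopologicalSpace S] [T2Space S] [SecondCountableTopology S]
  [ChartedSpace (Fin n → ℂ) S] [IsManifold 𝓘(ℂ, Fin n → ℂ) ω S]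
  {W : Type} [TopologicalSpace W] [T2Space W] [SecondCountableTopology W]
  {q : W → S} {ρ : W → ℝ} {G : S → (Fin n → ℂ)}

/-- local parametrisations with bounds for `ρ` -/
theorem param_at (hq : IsTame n q ρ)
    (hG : MDifferentiable 𝓘(ℂ, Fin n → ℂ) 𝓘(ℂ, Fin n → ℂ) G) (p : S) :
    ∃ N : Set S, IsOpen N ∧ p ∈ N ∧ N ⊆ (chartAt (Fin n → ℂ) p).source ∧ ∃ C : ℝ, 0 ≤ C ∧
      ∀ w : MM G q, q w ∈ N → ∃ s : (Fin n → ℂ) → MM G q,
        s (chartAt (Fin n → ℂ) p (q w)) = w ∧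
        ContinuousAt s (chartAt (Fin n → ℂ) p (q w)) ∧
        (∀ᶠ z in 𝓝 (chartAt (Fin n → ℂ) p (q w)), q (s z) = (chartAt (Fin n → ℂ) p).symm z) ∧
        (∀ᶠ z in 𝓝 (chartAt (Fin n → ℂ) p (q w)), piM G q (s z) = TT G p z) ∧
        ContDiffAt ℝ ∞ ((fun w : MM G q => ρ w) ∘ s) (chartAt (Fin n → ℂ) p (q w)) ∧
        ‖fderiv ℝ ((fun w : MM G q => ρ w) ∘ s) (chartAt (Fin n → ℂ) p (q w))‖ ≤ C ∧
        ‖fderiv ℝ (fderiv ℝ ((fun w : MM G q => ρ w) ∘ s)) (chartAt (Fin n → ℂ) p (q w))‖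
          ≤ C := by
  obtain ⟨N, hN, hpN, hNs, C, hC⟩ := hq.sheets p
  refine ⟨N, hN, hpN, hNs, max C 0, le_max_right _ _, fun w hw => ?_⟩
  obtain ⟨σ, hσw, hσc, hσ⟩ := hC w hw
  obtain ⟨s, hs0, hsc, hsσ, hsq, hsT⟩ := exists_param hG hN hNs w hw hσw hσc
    (fun x hx => (hσ x hx).1)
  obtain ⟨-, -, h1, h2, h3⟩ := hσ (q w) hw
  have hev : (fun w : MM G q => ρ w) ∘ s =ᶠ[𝓝 (chartAt (Fin n → ℂ) p (q w))]
      ρ ∘ σ ∘ (chartAt (Fin n → ℂ) p).symm := by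
    filter_upwards [hsσ] with z hz
    simp only [Function.comp_apply]
    rw [hz]
  refine ⟨s, hs0, hsc, hsq, hsT, h1.congr_of_eventuallyEq hev, ?_, ?_⟩
  · rw [hev.fderiv_eq]
    exact h2.trans (le_max_left _ _)
  · rw [hev.fderiv.fderiv_eq]
    exact h3.trans (le_max_left _ _)

/-- smoothness of functions pulled back from `S` -/
theorem rsmooth_comp_q (hq : IsTame n q ρ)
    (hG : MDifferentiable 𝓘(ℂ, Fin n → ℂ) 𝓘(ℂ, Fin n → ℂ) G) {r : S → ℝ}
    (hr : ∀ x, IsCoordinateAt G x →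
      ContDiffAt ℝ ∞ (r ∘ (chartAt (Fin n → ℂ) x).symm) (chartAt (Fin n → ℂ) x x)) :
    RSmooth (isLocalHomeomorph_piM hG hq.localHomeo) (fun w : MM G q => r (q w)) := by
  intro w
  obtain ⟨N, hN, hpN, hNs, C, hC0, hC⟩ := param_at hq hG (q w)
  obtain ⟨s, hs0, hsc, hsq, hsT, -⟩ := hC w hpN
  have hws : q w ∈ (chartAt (Fin n → ℂ) (q w)).source := mem_chart_source _ _
  refine contDiffAt_comp_localInverseAt _ (chartAt (Fin n → ℂ) (q w)).open_target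
    (TT_differentiableOn hG (q w)) ((chartAt (Fin n → ℂ) (q w)).map_source hws)
    ((TT_isInvertible_iff hG hws).mpr w.2) hs0 hsc hsT ?_
  refine (hr (q w) w.2).congr_of_eventuallyEq ?_
  filter_upwards [hsq] with z hz
  simp only [Function.comp_apply]
  rw [hz]

theorem rsmooth_rhoW (hq : IsTame n q ρ)
    (hG : MDifferentiable 𝓘(ℂ, Fin n → ℂ) 𝓘(ℂ, Fin n → ℂ) G) :
    RSmooth (isLocalHomeomorph_piM hG hq.localHomeo) (fun w : MM G q => ρ w) := by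
  intro w
  obtain ⟨N, hN, hpN, hNs, C, hC0, hC⟩ := param_at hq hG (q w)
  obtain ⟨s, hs0, hsc, hsq, hsT, hρ, -⟩ := hC w hpN
  have hws : q w ∈ (chartAt (Fin n → ℂ) (q w)).source := mem_chart_source _ _
  exact contDiffAt_comp_localInverseAt _ (chartAt (Fin n → ℂ) (q w)).open_target
    (TT_differentiableOn hG (q w)) ((chartAt (Fin n → ℂ) (q w)).map_source hws)
    ((TT_isInvertible_iff hG hws).mpr w.2) hs0 hsc hsT hρ

/-- the Jacobian in the chart at `p`, as a function on the chart target -/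
noncomputable def JJ (G : S → (Fin n → ℂ)) (p : S) (z : Fin n → ℂ) : ℂ :=
  LinearMap.det (fderiv ℂ (TT G p) z : (Fin n → ℂ) →ₗ[ℂ] (Fin n → ℂ))

theorem JJ_chart (G : S → (Fin n → ℂ)) (p x : S) :
    JJ G p (chartAt (Fin n → ℂ) p x) = jac G p x := rfl

theorem JJ_differentiableOn (hG : MDifferentiable 𝓘(ℂ, Fin n → ℂ) 𝓘(ℂ, Fin n → ℂ) G) (p : S) :
    DifferentiableOn ℂ (JJ G p) (chartAt (Fin n → ℂ) p).target := by
  classical
  have h : JJ G p = fun z => ∑ σ : Equiv.Perm (Fin n), ((Equiv.Perm.sign σ : ℤ) : ℂ) *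
        ∏ i, (fderiv ℂ (TT G p) z (Pi.single i 1)) (σ i) := by
    ext z
    rw [JJ, ← LinearMap.det_toMatrix', Matrix.det_apply']
    refine Finset.sum_congr rfl fun σ _ => ?_
    congr 1
  rw [h]
  have hT := TT_differentiableOn hG p
  have ho := (chartAt (Fin n → ℂ) p).open_target
  refine DifferentiableOn.fun_sum fun σ _ => (differentiableOn_const _).mul ?_
  refine (contDiffOn_prod (n := ∞) fun i _ => contDiffOn_of_differentiableOn ho ?_).differentiableOn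
    (by simp)
  have h1 : DifferentiableOn ℂ (fun z => fderiv ℂ (fun y => TT G p y (σ i)) z (Pi.single i 1))
      (chartAt (Fin n → ℂ) p).target :=
    differentiableOn_fderiv_apply ho
      (fun x hx => (differentiableWithinAt_pi.mp (hT x hx)) (σ i)) _
  refine h1.congr fun z hz => ?_
  have h2 : DifferentiableAt ℂ (TT G p) z := (hT z hz).differentiableAt (ho.mem_nhds hz)
  have h3 : HasFDerivAt (fun y => TT G p y (σ i))
      ((ContinuousLinearMap.proj (R := ℂ) (σ i)).comp (fderiv ℂ (TT G p) z)) z :=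
    (ContinuousLinearMap.proj (R := ℂ) (φ := fun _ : Fin n => ℂ) (σ i)).hasFDerivAt.comp z
      h2.hasFDerivAt
  rw [h3.fderiv]
  rfl

/-- `lam` is smooth at coordinate points -/
theorem contDiffAt_lam (hG : MDifferentiable 𝓘(ℂ, Fin n → ℂ) 𝓘(ℂ, Fin n → ℂ) G) {lam : S → ℝ}
    {a : ℝ} {p : S} {τ : S → ℝ}
    (hτ : ContDiffAt ℝ ∞ (τ ∘ (chartAt (Fin n → ℂ) p).symm) (chartAt (Fin n → ℂ) p p))
    (hlam : ∀ᶠ x in 𝓝 p, IsCoordinateAt G x → lam x = a * Real.log (‖jac G p x‖ ^ 2) + τ x)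
    (hp : IsCoordinateAt G p) :
    ContDiffAt ℝ ∞ (lam ∘ (chartAt (Fin n → ℂ) p).symm) (chartAt (Fin n → ℂ) p p) := by
  have hps : p ∈ (chartAt (Fin n → ℂ) p).source := mem_chart_source _ p
  have hpt := (chartAt (Fin n → ℂ) p).map_source hps
  have htend : Tendsto (chartAt (Fin n → ℂ) p).symm (𝓝 (chartAt (Fin n → ℂ) p p)) (𝓝 p) := by
    have h := ((chartAt (Fin n → ℂ) p).continuousAt_symm hpt).tendsto
    rwa [(chartAt (Fin n → ℂ) p).left_inv hps] at h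
  have hev : lam ∘ (chartAt (Fin n → ℂ) p).symm =ᶠ[𝓝 (chartAt (Fin n → ℂ) p p)]
      fun z => a * Real.log (‖JJ G p z‖ ^ 2) + (τ ∘ (chartAt (Fin n → ℂ) p).symm) z := by
    filter_upwards [htend.eventually hlam, htend.eventually ((isOpen_coord hG).mem_nhds hp),
      (chartAt (Fin n → ℂ) p).open_target.mem_nhds hpt] with z h1 h2 h3
    simp only [Function.comp_apply]
    rw [h1 h2, ← JJ_chart, (chartAt (Fin n → ℂ) p).right_inv h3]
  refine ContDiffAt.congr_of_eventuallyEq ?_ hev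
  refine ContDiffAt.add (contDiffAt_const.mul ?_) hτ
  have h1 : ContDiffAt ℝ ∞ (JJ G p) (chartAt (Fin n → ℂ) p p) :=
    (contDiffOn_real_of_differentiableOn (chartAt (Fin n → ℂ) p).open_target
      (JJ_differentiableOn hG p)).contDiffAt
      ((chartAt (Fin n → ℂ) p).open_target.mem_nhds hpt)
  refine ContDiffAt.log (h1.norm_sq ℝ) ?_
  exact pow_ne_zero 2 (norm_ne_zero_iff.mpr ((isCoordinateAt_iff_jac hG hps).mp hp))

end Manifold

end Pool.Agent.Levi
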