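import Pool.Agent.Levi.Weight
import Pool.Agent.Levi.Growth

/-!
# The weight functions, II
-/

set_option autoImplicit false
set_option linter.unusedSectionVars false

open Set Filter Topology
open scoped ContDiff Manifold

namespace Pool.Agent.Levi

open Pool.Agent.MEP

section Manifold

variable {n : ℕ} {S : Type} [TopologicalSpace S] [T2Space S] [SecondCountableTopology S]
  [ChartedSpace (Fin n → ℂ) S] [IsManifold 𝓘(ℂ, Fin n → ℂ) ω S]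
  {W : Type} [TopologicalSpace W] [T2Space W] [SecondCountableTopology W]
  {q : W → S} {ρ : W → ℝ} {G : S → (Fin n → ℂ)}

/-- `C^∞` on `S` in terms of charts -/
theorem contDiffAt_of_contMDiff {ψ : S → ℝ} (hψ : ContMDiff 𝓘(ℝ, Fin n → ℂ) 𝓘(ℝ, ℝ) ∞ ψ)
    (p : S) : ContDiffAt ℝ ∞ (ψ ∘ (chartAt (Fin n → ℂ) p).symm) (chartAt (Fin n → ℂ) p p) := by
  have h1 : ContMDiffAt 𝓘(ℝ, Fin n → ℂ) 𝓘(ℝ, ℝ) ∞ ψ p := hψ p
  rw [contMDiffAt_iff] at h1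
  have h2 := h1.2
  have h3 : ContDiffWithinAt ℝ ∞ (ψ ∘ (chartAt (Fin n → ℂ) p).symm) univ
      (chartAt (Fin n → ℂ) p p) := by
    have : range 𝓘(ℝ, Fin n → ℂ) = univ := by simp
    rw [← this]
    exact h2
  exact contDiffWithinAt_univ.mp h3

theorem levi_psi_nonneg (hq : IsTame n q ρ)
    (hG : MDifferentiable 𝓘(ℂ, Fin n → ℂ) 𝓘(ℂ, Fin n → ℂ) G) {ψ : S → ℝ}
    (hψs : ContMDiff 𝓘(ℝ, Fin n → ℂ) 𝓘(ℝ, ℝ) ∞ ψ)
    (hψp : ∀ (p : S) (ξ : Fin n → ℂ), ξ ≠ 0 →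
      0 < leviE (ψ ∘ (chartAt (Fin n → ℂ) p).symm) (chartAt (Fin n → ℂ) p p) ξ)
    (w : MM G q) (ξ : Fin n → ℂ) :
    0 ≤ levi (isLocalHomeomorph_piM hG hq.localHomeo) (fun w : MM G q => ψ (q w)) w ξ := by
  obtain ⟨N, hN, hpN, hNs, C, hC0, hC⟩ := param_at hq hG (q w)
  obtain ⟨s, hs0, hsc, hsq, hsT, -⟩ := hC w hpN
  have hws : q w ∈ (chartAt (Fin n → ℂ) (q w)).source := mem_chart_source _ _
  have hinv := (TT_isInvertible_iff hG hws).mpr w.2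
  have hev : (fun w : MM G q => ψ (q w)) ∘ s =ᶠ[𝓝 (chartAt (Fin n → ℂ) (q w) (q w))]
      ψ ∘ (chartAt (Fin n → ℂ) (q w)).symm := by
    filter_upwards [hsq] with z hz
    simp only [Function.comp_apply]
    rw [hz]
  have hsm := contDiffAt_of_contMDiff hψs (q w)
  obtain ⟨A, hA⟩ := hinv
  have h1 := levi_eq_LL (isLocalHomeomorph_piM hG hq.localHomeo)
    (chartAt (Fin n → ℂ) (q w)).open_target
    (TT_differentiableOn hG (q w)) ((chartAt (Fin n → ℂ) (q w)).map_source hws) ⟨A, hA⟩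
    hs0 hsc hsT (hsm.congr_of_eventuallyEq hev) (A.symm ξ)
  have h2 : fderiv ℂ (TT G (q w)) (chartAt (Fin n → ℂ) (q w) (q w)) (A.symm ξ) = ξ := by
    rw [← hA]
    exact A.apply_symm_apply ξ
  rw [h2] at h1
  rw [h1, LL_congr hev]
  have h3 := leviE_eq (hsm.of_le (by norm_cast)) (A.symm ξ)
  rw [← h3]
  by_cases h4 : A.symm ξ = 0
  · rw [h3, h4]
    simp [LL]
  · exact (hψp (q w) _ h4).le

/-- the local estimate -/
theorem local_weight (hq : IsTame n q ρ)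
    (hG : MDifferentiable 𝓘(ℂ, Fin n → ℂ) 𝓘(ℂ, Fin n → ℂ) G) {ψ : S → ℝ}
    (hψs : ContMDiff 𝓘(ℝ, Fin n → ℂ) 𝓘(ℝ, ℝ) ∞ ψ)
    (hψp : ∀ (p : S) (ξ : Fin n → ℂ), ξ ≠ 0 →
      0 < leviE (ψ ∘ (chartAt (Fin n → ℂ) p).symm) (chartAt (Fin n → ℂ) p p) ξ)
    {lam : S → ℝ}
    (hlam : ∀ p : S, ∃ τ : S → ℝ,
      ContDiffAt ℝ ∞ (τ ∘ (chartAt (Fin n → ℂ) p).symm) (chartAt (Fin n → ℂ) p p) ∧
      ∀ᶠ x in 𝓝 p, IsCoordinateAt G x → lam x = Real.log (‖jac G p x‖ ^ 2) + τ x)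
    (a C' : ℝ) (p : S) : ∃ N ∈ 𝓝 p, ∃ C : ℝ, ∀ x ∈ N, ∀ w : MM G q, q w = x →
      ∀ ξ : Fin n → ℂ, ∑ j, ‖ξ j‖ ^ 2 ≤
        levi (isLocalHomeomorph_piM hG hq.localHomeo)
          (fun w : MM G q => a * lam (q w) + (-(2 * C')) * ρ w) w ξ +
        C * levi (isLocalHomeomorph_piM hG hq.localHomeo) (fun w : MM G q => ψ (q w)) w ξ := by
  set e := chartAt (Fin n → ℂ) p with he
  have hps : p ∈ e.source := mem_chart_source _ _
  have hpt : e p ∈ e.target := e.map_source hps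
  obtain ⟨N, hN, hpN, hNs, C₂, hC₂0, hC₂⟩ := param_at hq hG p
  obtain ⟨τ, hτs, hτ⟩ := hlam p
  -- bounds near `p`
  have hτ2 : ContDiffAt ℝ 2 (τ ∘ e.symm) (e p) := hτs.of_le (by norm_cast)
  obtain ⟨C₁, hC₁0, hC₁⟩ := exists_bound_fderiv_fderiv hτ2
  have hψ2 : ContDiffAt ℝ 2 (ψ ∘ e.symm) (e p) :=
    (contDiffAt_of_contMDiff hψs p).of_le (by norm_cast)
  obtain ⟨c₀, hc₀, hlow⟩ := exists_lower_bound hψ2 (hψp p)
  obtain ⟨C₃, hC₃0, hC₃⟩ : ∃ C₃ : ℝ, 0 ≤ C₃ ∧ ∀ᶠ z in 𝓝 (e p), ‖fderiv ℂ (TT G p) z‖ ≤ C₃ := by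
    have hTc : ContDiffAt ℂ 1 (TT G p) (e p) := by
      rw [contDiffAt_pi]
      intro i
      exact ((contDiffOn_of_differentiableOn e.open_target
        (fun y hy => (differentiableWithinAt_pi.mp (TT_differentiableOn hG p y hy)) i)).contDiffAt
        (e.open_target.mem_nhds hpt)).of_le (by norm_cast)
    have hcont : ContinuousAt (fderiv ℂ (TT G p)) (e p) :=
      (hTc.fderiv_right (m := 0) (by norm_num)).continuousAt
    refine ⟨‖fderiv ℂ (TT G p) (e p)‖ + 1, by positivity, ?_⟩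
    have := hcont.norm.eventually (gt_mem_nhds (lt_add_one _))
    exact this.mono fun x hx => le_of_lt hx
  have hcont : Tendsto e (𝓝 p) (𝓝 (e p)) := e.continuousAt hps
  refine ⟨{x | x ∈ N ∧ (∀ᶠ y in 𝓝 x, IsCoordinateAt G y →
      lam y = Real.log (‖jac G p y‖ ^ 2) + τ y) ∧ ContDiffAt ℝ 2 (τ ∘ e.symm) (e x) ∧
      ‖fderiv ℝ (fderiv ℝ (τ ∘ e.symm)) (e x)‖ ≤ C₁ ∧ ContDiffAt ℝ 2 (ψ ∘ e.symm) (e x) ∧
      (∀ v, c₀ * ‖v‖ ^ 2 ≤ LL (ψ ∘ e.symm) (e x) v) ∧ ‖fderiv ℂ (TT G p) (e x)‖ ≤ C₃}, ?_,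
    (4 * n * C₃ ^ 2 + 2 * |a| * C₁ + 4 * |C'| * C₂) / c₀, ?_⟩
  · filter_upwards [hN.mem_nhds hpN, eventually_eventually_nhds.mpr hτ,
      hcont.eventually (hτ2.eventually (by simp)), hcont.eventually hC₁,
      hcont.eventually (hψ2.eventually (by simp)), hcont.eventually hlow,
      hcont.eventually hC₃] with x h1 h2 h3 h4 h5 h6 h7
    exact ⟨h1, h2, h3, h4, h5, h6, h7⟩
  rintro x ⟨hxN, hxlam, hxτ2, hxτ, hxψ2, hxψ, hxT⟩ w rfl ξ
  obtain ⟨s, hs0, hsc, hsq, hsT, hρs, -, hρ2⟩ := hC₂ w hxN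
  have hws : q w ∈ e.source := hNs hxN
  have hwt : e (q w) ∈ e.target := e.map_source hws
  have hsy : e.symm (e (q w)) = q w := e.left_inv hws
  have htsy : Tendsto e.symm (𝓝 (e (q w))) (𝓝 (q w)) := by
    have h := (e.continuousAt_symm hwt).tendsto
    rwa [hsy] at h
  obtain ⟨A, hA⟩ := (TT_isInvertible_iff hG hws).mpr w.2
  have hξ : fderiv ℂ (TT G p) (e (q w)) (A.symm ξ) = ξ := by
    rw [← he] at hA
    rw [← hA]
    exact A.apply_symm_apply ξ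
  set v := A.symm ξ with hv
  set hπ := isLocalHomeomorph_piM hG hq.localHomeo with hπdef
  -- `lam` in the chart
  have hJ0 : JJ G p (e (q w)) ≠ 0 := by
    rw [he, JJ_chart]
    exact (isCoordinateAt_iff_jac hG hws).mp w.2
  have hlamev : lam ∘ e.symm =ᶠ[𝓝 (e (q w))]
      fun z => Real.log (‖JJ G p z‖ ^ 2) + (τ ∘ e.symm) z := by
    filter_upwards [htsy.eventually hxlam, htsy.eventually ((isOpen_coord hG).mem_nhds w.2),
      e.open_target.mem_nhds hwt] with z h1 h2 h3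
    simp only [Function.comp_apply]
    rw [h1 h2, ← JJ_chart, ← he, e.right_inv h3]
  have hlog2 : ContDiffAt ℝ 2 (fun z => Real.log (‖JJ G p z‖ ^ 2)) (e (q w)) := by
    have h1 : ContDiffAt ℝ 2 (JJ G p) (e (q w)) :=
      ((contDiffOn_real_of_differentiableOn e.open_target
        (JJ_differentiableOn hG p)).contDiffAt (e.open_target.mem_nhds hwt)).of_le (by norm_cast)
    exact ContDiffAt.log (h1.norm_sq ℝ) (pow_ne_zero 2 (norm_ne_zero_iff.mpr hJ0))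
  have hlam2 : ContDiffAt ℝ 2 (lam ∘ e.symm) (e (q w)) :=
    (hlog2.add hxτ2).congr_of_eventuallyEq hlamev
  have hLLlam : LL (lam ∘ e.symm) (e (q w)) v = LL (τ ∘ e.symm) (e (q w)) v := by
    rw [LL_congr hlamev, LL_add hlog2 hxτ2,
      LL_log_norm_sq e.open_target (JJ_differentiableOn hG p) hwt hJ0, zero_add]
  -- the function in the parametrisation
  have hρs2 : ContDiffAt ℝ 2 ((fun w : MM G q => ρ w) ∘ s) (e (q w)) := hρs.of_le (by norm_cast)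
  have hev : (fun w : MM G q => a * lam (q w) + (-(2 * C')) * ρ w) ∘ s =ᶠ[𝓝 (e (q w))]
      fun z => a * (lam ∘ e.symm) z + (-(2 * C')) * ((fun w : MM G q => ρ w) ∘ s) z := by
    filter_upwards [hsq] with z hz
    simp only [Function.comp_apply]
    rw [hz]
  have hsm2 : ContDiffAt ℝ 2 (fun z => a * (lam ∘ e.symm) z +
      (-(2 * C')) * ((fun w : MM G q => ρ w) ∘ s) z) (e (q w)) :=
    (contDiffAt_const.mul hlam2).add (contDiffAt_const.mul hρs2)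
  have h1 := levi_eq_LL' hπ e.open_target (TT_differentiableOn hG p) hwt ⟨A, hA⟩ hs0 hsc hsT
    (hsm2.congr_of_eventuallyEq hev) v
  rw [hξ, LL_congr hev, LL_add (contDiffAt_const.mul hlam2) (contDiffAt_const.mul hρs2),
    LL_const_mul hlam2, LL_const_mul hρs2, hLLlam] at h1
  have hevψ : (fun w : MM G q => ψ (q w)) ∘ s =ᶠ[𝓝 (e (q w))] ψ ∘ e.symm := by
    filter_upwards [hsq] with z hz
    simp only [Function.comp_apply]
    rw [hz]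
  have h2 := levi_eq_LL' hπ e.open_target (TT_differentiableOn hG p) hwt ⟨A, hA⟩ hs0 hsc hsT
    (hxψ2.congr_of_eventuallyEq hevψ) v
  rw [hξ, LL_congr hevψ] at h2
  rw [h1, h2]
  -- estimates
  have k1 := hxψ v
  have k2 : |LL (τ ∘ e.symm) (e (q w)) v| ≤ 2 * C₁ * ‖v‖ ^ 2 :=
    (abs_LL_le _ _ _).trans (by gcongr)
  have k3 : |LL ((fun w : MM G q => ρ w) ∘ s) (e (q w)) v| ≤ 2 * C₂ * ‖v‖ ^ 2 :=
    (abs_LL_le _ _ _).trans (by gcongr)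
  have k4 : ∑ j, ‖ξ j‖ ^ 2 ≤ n * C₃ ^ 2 * ‖v‖ ^ 2 := by
    have h5 : ‖ξ‖ ≤ C₃ * ‖v‖ := by
      rw [← hξ]
      exact ((fderiv ℂ (TT G p) (e (q w))).le_opNorm v).trans (by gcongr)
    calc ∑ j, ‖ξ j‖ ^ 2 ≤ ∑ _j : Fin n, (C₃ * ‖v‖) ^ 2 := by
          refine Finset.sum_le_sum fun j _ => ?_
          gcongr
          exact (norm_le_pi_norm ξ j).trans h5
      _ = n * C₃ ^ 2 * ‖v‖ ^ 2 := by
          rw [Finset.sum_const, Finset.card_univ, Fintype.card_fin, nsmul_eq_mul]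
          ring
  have k5 : -(|a| * (2 * C₁ * ‖v‖ ^ 2)) ≤ a * LL (τ ∘ e.symm) (e (q w)) v := by
    have : |a * LL (τ ∘ e.symm) (e (q w)) v| ≤ |a| * (2 * C₁ * ‖v‖ ^ 2) := by
      rw [abs_mul]
      gcongr
    exact (abs_le.mp this).1
  have k6 : -(2 * |C'| * (2 * C₂ * ‖v‖ ^ 2)) ≤
      (-(2 * C')) * LL ((fun w : MM G q => ρ w) ∘ s) (e (q w)) v := by
    have : |(-(2 * C')) * LL ((fun w : MM G q => ρ w) ∘ s) (e (q w)) v| ≤
        2 * |C'| * (2 * C₂ * ‖v‖ ^ 2) := by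
      rw [abs_mul, abs_neg, abs_mul, abs_two]
      gcongr
    exact (abs_le.mp this).1
  have k7 : (4 * n * C₃ ^ 2 + 2 * |a| * C₁ + 4 * |C'| * C₂) * ‖v‖ ^ 2 ≤
      (4 * n * C₃ ^ 2 + 2 * |a| * C₁ + 4 * |C'| * C₂) / c₀ * LL (ψ ∘ e.symm) (e (q w)) v := by
    rw [div_mul_eq_mul_div, le_div_iff₀ hc₀]
    have : 0 ≤ 4 * n * C₃ ^ 2 + 2 * |a| * C₁ + 4 * |C'| * C₂ := by positivity
    calc _ = (4 * n * C₃ ^ 2 + 2 * |a| * C₁ + 4 * |C'| * C₂) * (c₀ * ‖v‖ ^ 2) := by ring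
      _ ≤ _ := by gcongr
  nlinarith [k4, k5, k6, k7]

/-- the weights exist -/
theorem core_weight (hq : IsTame n q ρ)
    (hG : MDifferentiable 𝓘(ℂ, Fin n → ℂ) 𝓘(ℂ, Fin n → ℂ) G) {ψ : S → ℝ}
    (hψs : ContMDiff 𝓘(ℝ, Fin n → ℂ) 𝓘(ℝ, ℝ) ∞ ψ) (hψc : ∀ c : ℝ, IsCompact {p | ψ p ≤ c})
    (hψp : ∀ (p : S) (ξ : Fin n → ℂ), ξ ≠ 0 →
      0 < leviE (ψ ∘ (chartAt (Fin n → ℂ) p).symm) (chartAt (Fin n → ℂ) p p) ξ)
    {lam : S → ℝ}
    (hlam : ∀ p : S, ∃ τ : S → ℝ,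
      ContDiffAt ℝ ∞ (τ ∘ (chartAt (Fin n → ℂ) p).symm) (chartAt (Fin n → ℂ) p p) ∧
      ∀ᶠ x in 𝓝 p, IsCoordinateAt G x → lam x = Real.log (‖jac G p x‖ ^ 2) + τ x)
    (a C' : ℝ) (h₀ : ℝ → ℝ) (hh₀ : Monotone h₀) :
    ∃ X : ℝ → ℝ, ContDiff ℝ ∞ X ∧ (∀ x, h₀ (ψ x) ≤ X (ψ x)) ∧
      RSmooth (isLocalHomeomorph_piM hG hq.localHomeo)
        (fun w : MM G q => a * lam (q w) + (-(2 * C')) * ρ w + X (ψ (q w))) ∧
      ∀ (w : MM G q) (ξ : Fin n → ℂ), ∑ j, ‖ξ j‖ ^ 2 ≤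
        levi (isLocalHomeomorph_piM hG hq.localHomeo)
          (fun w : MM G q => a * lam (q w) + (-(2 * C')) * ρ w + X (ψ (q w))) w ξ := by
  set hπ := isLocalHomeomorph_piM hG hq.localHomeo with hπdef
  obtain ⟨h, hmono, hnn, hh⟩ := exists_monotone_majorant (Z := univ) (ψ := ψ)
    (P := fun x C => ∀ w : MM G q, q w = x → ∀ ξ : Fin n → ℂ, ∑ j, ‖ξ j‖ ^ 2 ≤
        levi hπ (fun w : MM G q => a * lam (q w) + (-(2 * C')) * ρ w) w ξ +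
        C * levi hπ (fun w : MM G q => ψ (q w)) w ξ)
    (by simpa using hψc)
    (by
      intro x C C'' hC h w hw ξ
      refine (h w hw ξ).trans ?_
      have := levi_psi_nonneg hq hG hψs hψp w ξ
      gcongr)
    (by
      intro p _
      obtain ⟨N, hN, C, hC⟩ := local_weight hq hG hψs hψp hlam a C' p
      exact ⟨N, hN, C, fun x hx _ => hC x hx⟩)
  -- lower bound for `ψ`
  obtain ⟨t₀, ht₀⟩ : ∃ t₀ : ℝ, ∀ x, t₀ ≤ ψ x := by
    obtain ⟨b, hb⟩ := (hψc 0).bddBelow_image hψs.continuous.continuousOn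
    refine ⟨min b 0, fun x => ?_⟩
    rcases le_total (ψ x) 0 with h1 | h1
    · exact (min_le_left _ _).trans (hb ⟨x, h1, rfl⟩)
    · exact (min_le_right _ _).trans h1
  obtain ⟨X, hX, hX1, hX2, hXh⟩ := exists_convex_growth (fun t => max (h t) (h₀ t))
    (fun s t hst => max_le_max (hmono hst) (hh₀ hst)) t₀
  have hsψ : RSmooth hπ (fun w : MM G q => ψ (q w)) :=
    rsmooth_comp_q hq hG fun x _ => contDiffAt_of_contMDiff hψs x
  have hslam : RSmooth hπ (fun w : MM G q => a * lam (q w)) :=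
    rsmooth_comp_q (r := fun x => a * lam x) hq hG fun x hx => by
      obtain ⟨τ, hτs, hτ⟩ := hlam x
      exact contDiffAt_const.mul
        (contDiffAt_lam (a := 1) hG hτs (by simpa using hτ) hx)
  have hsρ : RSmooth hπ (fun w : MM G q => (-(2 * C')) * ρ w) := fun w =>
    contDiffAt_const.mul (rsmooth_rhoW hq hG w)
  have hs1 : RSmooth hπ (fun w : MM G q => a * lam (q w) + (-(2 * C')) * ρ w) := hslam.add hsρ
  have hs2 : RSmooth hπ (fun w : MM G q => X (ψ (q w))) := fun w =>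
    hX.contDiffAt.comp _ (hsψ w)
  refine ⟨X, hX, fun x => (le_max_right _ _).trans (hXh _ (ht₀ x)).2, hs1.add hs2, ?_⟩
  intro w ξ
  have h1 := hh (q w) (mem_univ _) w rfl ξ
  have h2 := levi_comp_ge hπ hsψ hX hX2 w ξ
  have h3 : h (ψ (q w)) ≤ deriv X (ψ (q w)) := (le_max_left _ _).trans (hXh _ (ht₀ (q w))).1
  have h4 := levi_psi_nonneg hq hG hψs hψp w ξ
  rw [levi_add hπ hs1 hs2 w ξ]
  have h5 : h (ψ (q w)) * levi hπ (fun w : MM G q => ψ (q w)) w ξ ≤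
      deriv X (ψ (q w)) * levi hπ (fun w : MM G q => ψ (q w)) w ξ := by gcongr
  linarith

theorem exists_weight (hS : IsStein n S) (hq : IsTame n q ρ)
    (hG : MDifferentiable 𝓘(ℂ, Fin n → ℂ) 𝓘(ℂ, Fin n → ℂ) G) (a C' : ℝ) :
    ∃ φ₀ : S → ℝ,
      (∀ p : S, ∃ τ : S → ℝ,
        ContDiffAt ℝ ∞ (τ ∘ (chartAt (Fin n → ℂ) p).symm) (chartAt (Fin n → ℂ) p p) ∧
        ∀ᶠ x in 𝓝 p, IsCoordinateAt G x → φ₀ x = a * Real.log (‖jac G p x‖ ^ 2) + τ x) ∧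
      RSmooth (isLocalHomeomorph_piM hG hq.localHomeo)
        (fun w : MM G q => φ₀ (q w) - 2 * C' * ρ w) ∧
      ∀ (w : MM G q) (ξ : Fin n → ℂ), ∑ j, ‖ξ j‖ ^ 2 ≤
        levi (isLocalHomeomorph_piM hG hq.localHomeo)
          (fun w : MM G q => φ₀ (q w) - 2 * C' * ρ w) w ξ := by
  obtain ⟨ψ, hψs, hψc, hψp⟩ := exists_psh_exhaustion hS
  obtain ⟨lam, hlam⟩ := exists_log_metric hG
  obtain ⟨X, hX, -, hs, hlevi⟩ := core_weight hq hG hψs hψc hψp hlam a C' (fun _ => 0)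
    monotone_const
  have e : (fun w : MM G q => a * lam (q w) + (-(2 * C')) * ρ w + X (ψ (q w))) =
      fun w : MM G q => (fun x => a * lam x + X (ψ x)) (q w) - 2 * C' * ρ w := by
    funext w
    ring
  rw [e] at hs hlevi
  refine ⟨fun x => a * lam x + X (ψ x), ?_, hs, hlevi⟩
  intro p
  obtain ⟨τ, hτs, hτ⟩ := hlam p
  refine ⟨fun x => a * τ x + X (ψ x), ?_, ?_⟩
  · exact (contDiffAt_const.mul hτs).add (hX.contDiffAt.comp _ (contDiffAt_of_contMDiff hψs p))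
  · filter_upwards [hτ] with x hx hc
    simp only [hx hc]
    ring

end Manifold

end Pool.Agent.Levi
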