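import Pool.Agent.Levi.MeanVal
import Pool.Agent.Levi.Basic

/-!
# Weyl's lemma for `∂̄` on a polydisc
-/

set_option autoImplicit false

open Set Filter Topology MeasureTheory Metric
open scoped ContDiff Convolution

namespace Pool.Agent.Levi

variable {n : ℕ}

/-- the Cauchy-Riemann equations imply complex differentiability -/
theorem differentiableAt_complex_of_dzbE {W : (Fin n → ℂ) → ℂ} {x : Fin n → ℂ}
    (h : DifferentiableAt ℝ W x) (h0 : ∀ j, dzbE W j x = 0) : DifferentiableAt ℂ W x := by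
  rw [differentiableAt_iff_restrictScalars ℝ h]
  have hI : ∀ j, fderiv ℝ W x (Pi.single j Complex.I) =
      Complex.I * fderiv ℝ W x (Pi.single j 1) := by
    intro j
    have := h0 j
    rw [dzbE] at this
    have h2 : fderiv ℝ W x (Pi.single j 1) + Complex.I * fderiv ℝ W x (Pi.single j Complex.I) = 0 := by
      rcases mul_eq_zero.1 this with h | h
      · norm_num at h
      · exact h
    have h3 : Complex.I * (fderiv ℝ W x (Pi.single j 1) +
      Complex.I * fderiv ℝ W x (Pi.single j Complex.I)) = 0 := by rw [h2, mul_zero]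
    rw [mul_add, ← mul_assoc, Complex.I_mul_I] at h3
    linear_combination (-1 : ℂ) * h3
  refine ⟨∑ j, (ContinuousLinearMap.proj j : (Fin n → ℂ) →L[ℂ] ℂ).smulRight
    (fderiv ℝ W x (Pi.single j 1)), ?_⟩
  ext v
  have hv : v = ∑ j, Pi.single j (v j) := (Finset.univ_sum_single v).symm
  have hj : ∀ j, fderiv ℝ W x (Pi.single j (v j)) = v j * fderiv ℝ W x (Pi.single j 1) := by
    intro j
    have h1 : (Pi.single j (v j) : Fin n → ℂ) =
        (v j).re • (Pi.single j 1 : Fin n → ℂ) + (v j).im • (Pi.single j Complex.I : Fin n → ℂ) := by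
      ext i
      by_cases hij : i = j
      · subst hij
        simp [Complex.re_add_im]
      · simp [Pi.single_eq_of_ne hij]
    rw [h1, map_add, map_smul, map_smul, hI]
    rw [Complex.real_smul, Complex.real_smul]
    conv_rhs => rw [← Complex.re_add_im (v j)]
    ring
  conv_rhs => rw [hv, map_sum]
  simp only [hj]
  simp

/-- the smoothing of a weakly holomorphic function is holomorphic -/
theorem holo_convolution {p : Fin n → ℂ} {R δ : ℝ} {V : (Fin n → ℂ) → ℂ}
    (hV : LocallyIntegrable V)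
    (hw : ∀ β : (Fin n → ℂ) → ℂ, ContDiff ℝ ∞ β →
      (∃ K, IsCompact K ∧ K ⊆ ball p R ∧ ∀ z, z ∉ K → β z = 0) →
        ∀ j, ∫ z, V z * dzbE β j z = 0)
    {κ : (Fin n → ℂ) → ℝ} (hκ : ContDiff ℝ ∞ κ) (hκs : ∀ t, t ∉ closedBall (0 : Fin n → ℂ) δ → κ t = 0)
    {x : Fin n → ℂ} (hx : closedBall x δ ⊆ ball p R) :
    DifferentiableAt ℂ (κ ⋆[ContinuousLinearMap.lsmul ℝ ℝ] V) x := by
  have hcs : HasCompactSupport κ := by
    apply HasCompactSupport.of_support_subset_isCompact (isCompact_closedBall (0 : Fin n → ℂ) δ)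
    intro t ht
    by_contra hn
    exact ht (hκs t hn)
  have hκ1 : ContDiff ℝ 1 κ := hκ.of_le (by exact_mod_cast le_top)
  have hd := hcs.hasFDerivAt_convolution_left (ContinuousLinearMap.lsmul ℝ ℝ) hκ1 hV x
  refine differentiableAt_complex_of_dzbE hd.differentiableAt (fun j => ?_)
  -- the derivative as an integral
  have hcv : ∀ v : Fin n → ℂ, fderiv ℝ (κ ⋆[ContinuousLinearMap.lsmul ℝ ℝ] V) x v =
      ∫ y, (fderiv ℝ κ (x - y) v : ℂ) * V y := by
    intro v
    rw [hd.fderiv, convolution_eq_swap]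
    have hint : Integrable (fun t => ((ContinuousLinearMap.lsmul ℝ ℝ).precompL (Fin n → ℂ))
        (fderiv ℝ κ (x - t)) (V t)) := by
      have h1 : ConvolutionExists (fderiv ℝ κ) V
          ((ContinuousLinearMap.lsmul ℝ ℝ).precompL (Fin n → ℂ)) volume :=
        (hcs.fderiv ℝ).convolutionExists_left _ (hκ1.continuous_fderiv one_ne_zero) hV
      exact (h1 x).integrable_swap
    rw [ContinuousLinearMap.integral_apply hint]
    refine integral_congr_ae (ae_of_all _ fun y => ?_)
    simp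
  -- the test function
  set β : (Fin n → ℂ) → ℂ := fun y => (κ (x - y) : ℂ) with hβ
  have hβs : ContDiff ℝ ∞ β := by
    have h1 : ContDiff ℝ ∞ (fun y : Fin n → ℂ => κ (x - y)) :=
      hκ.comp (contDiff_const.sub contDiff_id)
    exact Complex.ofRealCLM.contDiff.comp h1
  have hβK : ∃ K, IsCompact K ∧ K ⊆ ball p R ∧ ∀ z, z ∉ K → β z = 0 := by
    refine ⟨closedBall x δ, isCompact_closedBall _ _, hx, ?_⟩
    intro z hz
    have : x - z ∉ closedBall (0 : Fin n → ℂ) δ := by
      rw [mem_closedBall_zero_iff, ← dist_eq_norm, dist_comm, ← mem_closedBall]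
      exact hz
    simp [hβ, hκs _ this]
  have hβd : ∀ y v, fderiv ℝ β y v = -(fderiv ℝ κ (x - y) v : ℂ) := by
    intro y v
    have h1 : HasFDerivAt κ (fderiv ℝ κ (x - y)) (x - y) :=
      (hκ1.differentiable one_ne_zero _).hasFDerivAt
    have h2 : HasFDerivAt (fun y : Fin n → ℂ => x - y) (-ContinuousLinearMap.id ℝ (Fin n → ℂ)) y :=
      (hasFDerivAt_id y).const_sub x
    have h3 := Complex.ofRealCLM.hasFDerivAt.comp y (h1.comp y h2)
    have h4 : HasFDerivAt β (Complex.ofRealCLM.comp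
      ((fderiv ℝ κ (x - y)).comp (-ContinuousLinearMap.id ℝ (Fin n → ℂ)))) y := h3
    rw [h4.fderiv]
    simp
  have hfin := hw β hβs hβK j
  have hintv : ∀ v : Fin n → ℂ, Integrable (fun y => (fderiv ℝ κ (x - y) v : ℂ) * V y) := by
    intro v
    have hc : Continuous (fun t => fderiv ℝ κ t v) := (hκ1.continuous_fderiv one_ne_zero).clm_apply
      continuous_const
    have hcs2 : HasCompactSupport (fun t => fderiv ℝ κ t v) := (hcs.fderiv_apply ℝ v)
    have h1 : ConvolutionExists (fun t => fderiv ℝ κ t v) V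
        (ContinuousLinearMap.lsmul ℝ ℝ) volume :=
      hcs2.convolutionExists_left _ hc hV
    have := (h1 x).integrable_swap
    simpa using! this
  rw [dzbE, hcv, hcv]
  have e1 : (fun z => V z * dzbE β j z) = fun z => (-(1 / 2) : ℂ) *
      ((fderiv ℝ κ (x - z) (Pi.single j 1) : ℂ) * V z +
        Complex.I * ((fderiv ℝ κ (x - z) (Pi.single j Complex.I) : ℂ) * V z)) := by
    funext z
    rw [dzbE, hβd, hβd]
    ring
  rw [e1, integral_const_mul, integral_add (hintv _) ((hintv _).const_mul _),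
    integral_const_mul] at hfin
  linear_combination (-1 : ℂ) * hfin

/-! ### a rotation invariant kernel -/

/-- the kernel before normalisation -/
noncomputable def rker (n : ℕ) (δ : ℝ) (w : Fin n → ℂ) : ℝ :=
  Real.smoothTransition (1 - (∑ j, ‖w j‖ ^ 2) / δ ^ 2)

theorem rker_contDiff (δ : ℝ) : ContDiff ℝ ∞ (rker n δ) := by
  apply Real.smoothTransition.contDiff.comp
  apply contDiff_const.sub
  apply ContDiff.div_const
  apply ContDiff.sum
  intro j _
  exact (contDiff_apply ℝ ℂ j).norm_sq ℝ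

theorem rker_nonneg (δ : ℝ) (w : Fin n → ℂ) : 0 ≤ rker n δ w :=
  Real.smoothTransition.nonneg _

theorem rker_eq_zero {δ : ℝ} (hδ : 0 < δ) {w : Fin n → ℂ} (hw : w ∉ ball (0 : Fin n → ℂ) δ) :
    rker n δ w = 0 := by
  apply Real.smoothTransition.zero_of_nonpos
  rw [mem_ball_zero_iff, not_lt] at hw
  obtain ⟨j, hj⟩ : ∃ j, δ ≤ ‖w j‖ := by
    by_contra hcon
    push Not at hcon
    have := (pi_norm_lt_iff hδ).2 hcon
    linarith
  have h1 : δ ^ 2 ≤ ∑ j, ‖w j‖ ^ 2 := by
    calc δ ^ 2 ≤ ‖w j‖ ^ 2 := by gcongr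
      _ ≤ ∑ j, ‖w j‖ ^ 2 := Finset.single_le_sum (f := fun j => ‖w j‖ ^ 2)
          (fun i _ => by positivity) (Finset.mem_univ j)
  have h2 : 1 ≤ (∑ j, ‖w j‖ ^ 2) / δ ^ 2 := by
    rw [le_div_iff₀ (by positivity), one_mul]; exact h1
  linarith

theorem rker_rot (δ : ℝ) (ζ : Circle) (w : Fin n → ℂ) : rker n δ ((ζ : ℂ) • w) = rker n δ w := by
  have : ∀ j, ‖((ζ : ℂ) • w) j‖ = ‖w j‖ := by
    intro j
    rw [Pi.smul_apply, norm_smul, Circle.norm_coe, one_mul]
  simp only [rker, this]

theorem rker_hasCompactSupport {δ : ℝ} (hδ : 0 < δ) : HasCompactSupport (rker n δ) := by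
  apply HasCompactSupport.of_support_subset_isCompact (isCompact_closedBall (0 : Fin n → ℂ) δ)
  intro t ht
  by_contra hn
  exact ht (rker_eq_zero hδ (fun h => hn (ball_subset_closedBall h)))

theorem rker_integral_pos {δ : ℝ} (hδ : 0 < δ) : 0 < ∫ w, rker n δ w := by
  apply (rker_contDiff δ).continuous.integral_pos_of_hasCompactSupport_nonneg_nonzero
    (rker_hasCompactSupport hδ) (rker_nonneg δ)
  intro h
  have : rker n δ 0 = 1 := by
    simp [rker, Real.smoothTransition.one_of_one_le]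
  rw [h] at this
  norm_num at this

/-- the normalised rotation invariant kernel -/
noncomputable def rkn (n : ℕ) (δ : ℝ) (w : Fin n → ℂ) : ℝ := (∫ w, rker n δ w)⁻¹ * rker n δ w

theorem rkn_contDiff (δ : ℝ) : ContDiff ℝ ∞ (rkn n δ) := contDiff_const.mul (rker_contDiff δ)

theorem rkn_eq_zero {δ : ℝ} (hδ : 0 < δ) {w : Fin n → ℂ} (hw : w ∉ ball (0 : Fin n → ℂ) δ) :
    rkn n δ w = 0 := by rw [rkn, rker_eq_zero hδ hw, mul_zero]

theorem rkn_rot (δ : ℝ) (ζ : Circle) (w : Fin n → ℂ) : rkn n δ ((ζ : ℂ) • w) = rkn n δ w := by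
  rw [rkn, rker_rot, rkn]

theorem rkn_integral {δ : ℝ} (hδ : 0 < δ) : ∫ w, rkn n δ w = 1 := by
  simp only [rkn]
  rw [integral_const_mul, inv_mul_cancel₀ (rker_integral_pos hδ).ne']

theorem rkn_hasCompactSupport {δ : ℝ} (hδ : 0 < δ) : HasCompactSupport (rkn n δ) :=
  (rker_hasCompactSupport hδ).mul_left

/-- the kernel reproduces functions holomorphic near the ball -/
theorem rkn_convolution {δ : ℝ} (hδ : 0 < δ) {W : (Fin n → ℂ) → ℂ} (hWc : Continuous W)
    {x : Fin n → ℂ} (hW : DifferentiableOn ℂ W (ball x δ)) :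
    (rkn n δ ⋆[ContinuousLinearMap.lsmul ℝ ℝ] W) x = W x := by
  have hint : Integrable (fun w => (rkn n δ w : ℂ) * W (x + w)) := by
    apply Continuous.integrable_of_hasCompactSupport
    · exact (Complex.continuous_ofReal.comp (rkn_contDiff δ).continuous).mul
        (hWc.comp (continuous_const.add continuous_id))
    · have h1 : HasCompactSupport (fun w => (rkn n δ w : ℂ)) :=
        (rkn_hasCompactSupport hδ).comp_left Complex.ofReal_zero
      exact h1.mul_right
  have key := mean_value hW (ρ := rkn n δ) (fun w hw => rkn_eq_zero hδ hw) (rkn_rot δ) hint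
  rw [integral_complex_ofReal, rkn_integral hδ, Complex.ofReal_one, one_mul] at key
  rw [convolution_def, ← key, ← integral_neg_eq_self]
  refine integral_congr_ae (ae_of_all _ fun w => ?_)
  have h2 : rkn n δ (-w) = rkn n δ w := by
    have h3 := rkn_rot (n := n) δ (Circle.exp Real.pi) w
    rw [Circle.coe_exp, Complex.exp_pi_mul_I, neg_one_smul] at h3
    exact h3
  simp [h2]

/-- two smoothings commute -/
theorem smooth_comm {ρ φ : (Fin n → ℂ) → ℝ} (hρ : Continuous ρ) (hρs : HasCompactSupport ρ)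
    (hφ : Continuous φ) (hφs : HasCompactSupport φ) {V : (Fin n → ℂ) → ℂ}
    (hV : LocallyIntegrable V) (x : Fin n → ℂ) :
    (ρ ⋆[ContinuousLinearMap.lsmul ℝ ℝ] (φ ⋆[ContinuousLinearMap.lsmul ℝ ℝ] V)) x =
      (φ ⋆[ContinuousLinearMap.lsmul ℝ ℝ] (ρ ⋆[ContinuousLinearMap.lsmul ℝ ℝ] V)) x := by
  have hVn : LocallyIntegrable (fun y => ‖V y‖) := fun y => by
    obtain ⟨s, hs, hi⟩ := hV y
    exact ⟨s, hs, hi.norm⟩
  have key : ∀ {ρ φ : (Fin n → ℂ) → ℝ}, Continuous ρ → HasCompactSupport ρ → Continuous φ →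
      HasCompactSupport φ →
      ((ρ ⋆[ContinuousLinearMap.mul ℝ ℝ] φ) ⋆[ContinuousLinearMap.lsmul ℝ ℝ] V) x =
      (ρ ⋆[ContinuousLinearMap.lsmul ℝ ℝ] (φ ⋆[ContinuousLinearMap.lsmul ℝ ℝ] V)) x := by
    intro ρ φ hρ hρs hφ hφs
    apply convolution_assoc
    · intro a b z
      simp [mul_smul]
    · exact hρ.aestronglyMeasurable
    · exact hφ.aestronglyMeasurable
    · exact hV.aestronglyMeasurable
    · exact ae_of_all _ (fun y => hρs.convolutionExists_left _ hρ hφ.locallyIntegrable y)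
    · exact ae_of_all _ (fun y => (hφs.norm.convolutionExists_left _ hφ.norm hVn) y)
    · apply hρs.norm.convolutionExists_left _ hρ.norm
      exact (hφs.norm.continuous_convolution_left _ hφ.norm hVn).locallyIntegrable
  rw [← key hρ hρs hφ hφs, ← key hφ hφs hρ hρs]
  congr 1
  have : (ContinuousLinearMap.mul ℝ ℝ).flip = ContinuousLinearMap.mul ℝ ℝ := by
    ext
    simp
  rw [← convolution_flip, this]

/-- Weyl's lemma on a polydisc -/
theorem weyl_local {p : Fin n → ℂ} {R : ℝ} (hR : 0 < R) {V : (Fin n → ℂ) → ℂ}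
    (hV : LocallyIntegrable V)
    (hw : ∀ β : (Fin n → ℂ) → ℂ, ContDiff ℝ ∞ β →
      (∃ K, IsCompact K ∧ K ⊆ ball p R ∧ ∀ z, z ∉ K → β z = 0) →
        ∀ j, ∫ z, V z * dzbE β j z = 0) :
    ∃ H : (Fin n → ℂ) → ℂ, ContDiff ℝ ∞ H ∧ DifferentiableOn ℂ H (ball p (R / 2)) ∧
      ∀ᵐ x, x ∈ ball p (R / 4) → V x = H x := by
  set δ : ℝ := R / 4 with hδ
  have hδ0 : 0 < δ := by positivity
  have hsub : ∀ {ε : ℝ}, ε ≤ δ → ∀ {y : Fin n → ℂ}, y ∈ ball p (R / 2) →
      closedBall y ε ⊆ ball p R := by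
    intro ε hε y hy z hz
    rw [mem_ball] at hy ⊢
    rw [mem_closedBall] at hz
    calc dist z p ≤ dist z y + dist y p := dist_triangle _ _ _
      _ < R := by rw [hδ] at hε; linarith
  set H : (Fin n → ℂ) → ℂ := rkn n δ ⋆[ContinuousLinearMap.lsmul ℝ ℝ] V with hH
  have hHs : ContDiff ℝ ∞ H :=
    (rkn_hasCompactSupport hδ0).contDiff_convolution_left _ (rkn_contDiff δ) hV
  refine ⟨H, hHs, ?_, ?_⟩
  · intro y hy
    refine (holo_convolution hV hw (rkn_contDiff δ) (δ := δ) (fun t ht => ?_)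
      (hsub le_rfl hy)).differentiableWithinAt
    exact rkn_eq_zero hδ0 (fun h => ht (ball_subset_closedBall h))
  · -- the bumps
    let φ : ℕ → ContDiffBump (0 : Fin n → ℂ) := fun i =>
      { rIn := δ / (i + 1) / 2
        rOut := δ / (i + 1)
        rIn_pos := by positivity
        rIn_lt_rOut := half_lt_self (by positivity) }
    have hφ0 : Tendsto (fun i => (φ i).rOut) atTop (𝓝 0) := by
      have h1 : Tendsto (fun i : ℕ => δ * (1 / ((i : ℝ) + 1))) atTop (𝓝 (δ * 0)) :=
        tendsto_one_div_add_atTop_nhds_zero_nat.const_mul δ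
      rw [mul_zero] at h1
      refine h1.congr (fun i => ?_)
      show δ * (1 / ((i : ℝ) + 1)) = δ / (i + 1)
      ring
    have hφ2 : ∀ᶠ i in atTop, (φ i).rOut ≤ 2 * (φ i).rIn := by
      refine Eventually.of_forall (fun i => ?_)
      show δ / (i + 1) ≤ 2 * (δ / (i + 1) / 2)
      linarith
    have hφδ : ∀ i, (φ i).rOut ≤ δ := by
      intro i
      show δ / (i + 1) ≤ δ
      apply div_le_self hδ0.le
      have : (0 : ℝ) ≤ i := Nat.cast_nonneg i
      linarith
    have hae := ContDiffBump.ae_convolution_tendsto_right_of_locallyIntegrable hφ0 hφ2 hV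
    filter_upwards [hae] with x hx hxb
    have h1 : ∀ i, ((φ i).normed volume ⋆[ContinuousLinearMap.lsmul ℝ ℝ] V) x =
        ((φ i).normed volume ⋆[ContinuousLinearMap.lsmul ℝ ℝ] H) x := by
      intro i
      have hφs : HasCompactSupport ((φ i).normed (volume : Measure (Fin n → ℂ))) :=
        (φ i).hasCompactSupport_normed
      have hφc : ContDiff ℝ ∞ ((φ i).normed (volume : Measure (Fin n → ℂ))) :=
        (φ i).contDiff_normed
      rw [hH, ← smooth_comm (rkn_contDiff δ).continuous (rkn_hasCompactSupport hδ0)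
        hφc.continuous hφs hV]
      refine (rkn_convolution hδ0 ?_ ?_).symm
      · exact (hφs.contDiff_convolution_left _ hφc hV).continuous
      · intro y hy
        have hy' : y ∈ ball p (R / 2) := by
          rw [mem_ball] at hy hxb ⊢
          calc dist y p ≤ dist y x + dist x p := dist_triangle _ _ _
            _ < R / 2 := by rw [hδ] at hy; linarith
        refine (holo_convolution hV hw hφc (δ := (φ i).rOut) (fun t ht => ?_)
          (hsub (hφδ i) hy')).differentiableWithinAt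
        have h3 : t ∉ Function.support ((φ i).normed (volume : Measure (Fin n → ℂ))) := by
          rw [(φ i).support_normed_eq]
          exact fun h => ht (ball_subset_closedBall h)
        simpa using h3
    have h2 := ContDiffBump.convolution_tendsto_right_of_continuous
      (μ := (volume : Measure (Fin n → ℂ))) hφ0 hHs.continuous x
    simp only [← h1] at h2
    exact tendsto_nhds_unique hx h2

end Pool.Agent.Levi
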